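import Pool.Agent.Work.MP_1c7b0d_lin.Interface

/-! block ALB (helper44): Lipschitz bounds for `al` and `log (1 - 1/u)` near `m` -/

open MeasureTheory Matrix Pool.LH60 Pool.LH73
open scoped BigOperators

namespace Pool.LIN

namespace ALBaux

lemma log_diff {m a b : ℝ} (hm : 100 ≤ m) (ha : 19/20 * m ≤ a) (hab : a ≤ b) :
    0 ≤ Real.log (1 - 1/b) - Real.log (1 - 1/a) ∧
    Real.log (1 - 1/b) - Real.log (1 - 1/a) ≤ 13/10 * (b - a) / m^2 := by
  have hm0 : 0 < m := by linarith
  have ha0 : 0 < a := by nlinarith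
  have ha1 : 94/100 * m ≤ a - 1 := by linarith
  have ha1' : 0 < a - 1 := by linarith
  have hb0 : 0 < b := by linarith
  have hb1 : 0 < b - 1 := by linarith
  have hfa : 0 < 1 - 1/a := by
    have : 1 - 1/a = (a - 1)/a := by field_simp
    rw [this]; positivity
  have hfb : 0 < 1 - 1/b := by
    have : 1 - 1/b = (b - 1)/b := by field_simp
    rw [this]; positivity
  constructor
  · have h := Real.log_le_log hfa (by
      have : 1/b ≤ 1/a := one_div_le_one_div_of_le ha0 hab
      linarith : 1 - 1/a ≤ 1 - 1/b)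
    linarith
  · rw [← Real.log_div hfb.ne' hfa.ne']
    have h1 : Real.log ((1 - 1/b)/(1 - 1/a)) ≤ (1 - 1/b)/(1 - 1/a) - 1 :=
      Real.log_le_sub_one_of_pos (div_pos hfb hfa)
    have h2 : (1 - 1/b)/(1 - 1/a) - 1 = (b - a) / (b * (a - 1)) := by
      field_simp
      ring
    have h3 : (b - a) / (b * (a - 1)) ≤ 13/10 * (b - a) / m^2 := by
      rw [div_le_div_iff₀ (by positivity) (by positivity)]
      have h4 : m^2 ≤ 13/10 * (b * (a - 1)) := by
        have h5 : (19/20 * m) * (94/100 * m) ≤ b * (a - 1) :=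
          mul_le_mul (by linarith) ha1 (by positivity) hb0.le
        nlinarith
      have h6 : 0 ≤ b - a := by linarith
      nlinarith [mul_le_mul_of_nonneg_left h4 h6]
    linarith

end ALBaux

theorem ALB_thm (hALD : Stmt_ALD) : Stmt_ALB := by
  intro m m' ms p' ps hm h1 h2 hT' hTs
  have hm0 : 0 < m := by linarith
  have a1 := abs_le.1 h1
  have a2 := abs_le.1 h2
  have hms : 99/100 * m ≤ ms := by linarith [a1.1]
  have hms0 : 0 < ms := by nlinarith
  have hm' : 19/20 * m ≤ m' := by linarith [a2.1]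
  have hm'0 : 0 < m' := by nlinarith
  have hd : |m' - ms| ≤ 6/100 * m := by
    rw [abs_le]; constructor <;> linarith [a1.1, a1.2, a2.1, a2.2]
  have hd0 : 0 ≤ |m' - ms| := abs_nonneg _
  constructor
  · have h := hALD ms m' ps p' hms0 hm'0 hTs hT'
    have e1 : (m' - ms)^2 / (12 * m' * ms^2) ≤ 1/100 * |m' - ms| / m^2 := by
      rw [← sq_abs, div_le_div_iff₀ (by positivity) (by positivity)]
      have hA : (19/20 * m) * (99/100 * m)^2 ≤ m' * ms^2 := by
        apply mul_le_mul hm' _ (by positivity) hm'0.le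
        exact pow_le_pow_left₀ (by positivity) hms 2
      have hB : |m' - ms| * m^2 ≤ 1/100 * (12 * m' * ms^2) := by
        have : |m' - ms| * m^2 ≤ (6/100 * m) * m^2 :=
          mul_le_mul_of_nonneg_right hd (by positivity)
        nlinarith [pow_pos hm0 3]
      calc |m' - ms|^2 * m^2 = |m' - ms| * (|m' - ms| * m^2) := by ring
        _ ≤ |m' - ms| * (1/100 * (12 * m' * ms^2)) := mul_le_mul_of_nonneg_left hB hd0
        _ = 1/100 * |m' - ms| * (12 * m' * ms^2) := by ring
    have e2 : |m' - ms| / (12 * ms) * (1/m' + 1/ms) ≤ 18/100 * |m' - ms| / m^2 := by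
      have i1 : 1/m' ≤ 20/19 * (1/m) := by
        rw [div_le_iff₀ hm'0]
        have : 20/19 * (1/m) * m' = (20/19 * m') / m := by ring
        rw [this, le_div_iff₀ hm0]; linarith
      have i2 : 1/ms ≤ 100/99 * (1/m) := by
        rw [div_le_iff₀ hms0]
        have : 100/99 * (1/m) * ms = (100/99 * ms) / m := by ring
        rw [this, le_div_iff₀ hm0]; linarith
      have hinv : 0 < 1/m := by positivity
      have i3 : 1/ms * (1/m' + 1/ms) ≤ (100/99 * (1/m)) * (20/19 * (1/m) + 100/99 * (1/m)) := by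
        apply mul_le_mul i2 (by linarith) (by positivity) (by positivity)
      have i4 : |m' - ms| / (12 * ms) * (1/m' + 1/ms) = |m' - ms| / 12 * (1/ms * (1/m' + 1/ms)) := by
        field_simp
      rw [i4]
      calc |m' - ms| / 12 * (1/ms * (1/m' + 1/ms))
          ≤ |m' - ms| / 12 * ((100/99 * (1/m)) * (20/19 * (1/m) + 100/99 * (1/m))) :=
            mul_le_mul_of_nonneg_left i3 (by positivity)
        _ = (100/99 * (20/19 + 100/99) / 12) * (|m' - ms| * (1/m)^2) := by ring
        _ ≤ 18/100 * (|m' - ms| * (1/m)^2) := by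
            apply mul_le_mul_of_nonneg_right (by norm_num) (by positivity)
        _ = 18/100 * |m' - ms| / m^2 := by ring
    have e3 : 1/100 * |m' - ms| / m^2 + 18/100 * |m' - ms| / m^2 ≤ 1/5 * |m' - ms| / m^2 := by
      have : 0 ≤ |m' - ms| / m^2 := by positivity
      have e : 1/100 * |m' - ms| / m^2 + 18/100 * |m' - ms| / m^2 = 19/100 * (|m' - ms| / m^2) := by
        ring
      have e' : 1/5 * |m' - ms| / m^2 = 1/5 * (|m' - ms| / m^2) := by ring
      rw [e, e']; linarith
    linarith
  · rcases le_total ms m' with hle | hle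
    · obtain ⟨q1, q2⟩ := ALBaux.log_diff hm (a := ms) (b := m') (by linarith) hle
      rw [abs_of_nonneg q1, abs_of_nonneg (by linarith : 0 ≤ m' - ms)]
      exact q2
    · obtain ⟨q1, q2⟩ := ALBaux.log_diff hm (a := m') (b := ms) (by linarith) hle
      rw [abs_sub_comm, abs_of_nonneg q1, abs_sub_comm m' ms,
        abs_of_nonneg (by linarith : 0 ≤ ms - m')]
      exact q2

end Pool.LIN
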