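import Pool.Agent.Work.MP_1c7b0d_lin.Interface

/-! Block AMG: absorption of the cross terms. helper78 -/

open MeasureTheory Matrix Pool.LH60 Pool.LH73
open scoped BigOperators

namespace Pool.LIN

theorem AMG_thm : Stmt_AMG := by
  intro m ms Dv q j hm hq hm1 hm2 hs1 hs2 hj hD hmD H
  have hm0 : 0 < m := by linarith
  have hq' : (10:ℝ) ≤ q := by exact_mod_cast hq
  have hjl := (abs_le.mp hj).1
  have hju := (abs_le.mp hj).2
  have h1 : (q:ℝ) / 2 ≤ j := by linarith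
  have h2 : (j:ℝ) ≤ 2 * q := by linarith
  obtain ⟨Ha, Hb⟩ := H j h1 h2
  have hDm : 0 ≤ Dv / m := div_nonneg hD hm0.le
  have e1 : 1682 * |(j:ℝ) - ms| * Dv / m = |(j:ℝ) - ms| * (1682 * (Dv / m)) := by ring
  have e2 : 3 * 10^8 * Dv / m = 3 * 10^8 * (Dv / m) := by ring
  rw [e1, e2]
  by_cases hj1 : (j:ℝ) = q + 1 ∨ (j:ℝ) = q + 2
  · have hx : |(j:ℝ) - ms| ≤ 1 := by
      rw [abs_le]
      rcases hj1 with h | h <;> rw [h] <;> constructor <;> linarith
    have : |(j:ℝ) - ms| * (1682 * (Dv / m)) ≤ 1 * (1682 * (Dv / m)) :=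
      mul_le_mul_of_nonneg_right hx (by positivity)
    have : (0:ℝ) ≤ (3 * 10^8 - 1682) * (Dv / m) := mul_nonneg (by norm_num) hDm
    linarith
  · rw [not_or] at hj1
    have Hc := Hb hj1.1 hj1.2
    have hq3 : (0:ℝ) < (q:ℝ)^3 := by positivity
    have hqm : (q:ℝ)^3 ≤ m^3 := pow_le_pow_left₀ (by linarith) (by linarith) 3
    set X := |(j:ℝ) - ms| with hX
    have hXX : ((j:ℝ) - ms)^2 = X^2 := (sq_abs _).symm
    rw [hXX] at Hc
    set Y := 1682 * (Dv / m) with hY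
    have hY0 : 0 ≤ Y := by positivity
    have key : X * Y ≤ X^2 / (400 * (q:ℝ)^3) + 100 * (q:ℝ)^3 * Y^2 := by
      have h := sq_nonneg (X - 200 * (q:ℝ)^3 * Y)
      have h4 : (0:ℝ) < 400 * (q:ℝ)^3 := by positivity
      rw [← sub_nonneg]
      have : X^2 / (400 * (q:ℝ)^3) + 100 * (q:ℝ)^3 * Y^2 - X * Y
          = (X - 200 * (q:ℝ)^3 * Y)^2 / (400 * (q:ℝ)^3) := by
        field_simp
        ring
      rw [this]
      positivity
    have k2 : 100 * (q:ℝ)^3 * Y^2 ≤ 3 * 10^8 * (Dv / m) := by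
      have a1 : 100 * (q:ℝ)^3 * Y^2 ≤ 100 * m^3 * Y^2 := by
        have := mul_le_mul_of_nonneg_right hqm (sq_nonneg Y)
        nlinarith [this]
      have a2 : 100 * m^3 * Y^2 = 100 * 1682^2 * (m^2 * Dv) * (Dv / m) := by
        rw [hY]
        field_simp
      have a3 : 100 * 1682^2 * (m^2 * Dv) * (Dv / m) ≤ 100 * 1682^2 * 1 * (Dv / m) := by
        have := mul_le_mul_of_nonneg_right hmD hDm
        nlinarith [this]
      have a4 : (0:ℝ) ≤ (3 * 10^8 - 100 * 1682^2) * (Dv / m) := mul_nonneg (by norm_num) hDm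
      linarith
    have k3 : X^2 / (400 * (q:ℝ)^3) = X^2 / (200 * (q:ℝ)^3) / 2 := by
      field_simp
      ring
    rw [k3] at key
    linarith

end Pool.LIN
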