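import Pool.Agent.Work.MP_1c7b0d_lin.Interface

/-! Block BLM1 (helper94): the test matrices `B_l`. -/

open MeasureTheory Matrix Pool.LH60 Pool.LH73
open scoped BigOperators

set_option linter.unusedSectionVars false

namespace Pool.LIN

namespace BLM1aux

variable {ι : Type} [Fintype ι] [DecidableEq ι] {K : ℕ}

/-- `Π = 1 - κ` -/
noncomputable def Pim (Φ : Matrix ι (Fin K) ℝ) (l i : ι) : ℝ := (if l = i then 1 else 0) - pp Φ l i

lemma pp_comm (Φ : Matrix ι (Fin K) ℝ) (i j : ι) : pp Φ i j = pp Φ j i := by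
  unfold pp
  exact Finset.sum_congr rfl fun k _ => by ring

lemma pp_self (Φ : Matrix ι (Fin K) ℝ) (i : ι) : pp Φ i i = cn Φ i := by
  unfold pp cn
  exact Finset.sum_congr rfl fun k _ => by ring

lemma pp_mat (Φ : Matrix ι (Fin K) ℝ) (i j : ι) : pp Φ i j = (Φ * Φᵀ) i j := by
  rw [Matrix.mul_apply]
  rfl

lemma pp_idem (Φ : Matrix ι (Fin K) ℝ) (h : Φᵀ * Φ = 1) (i j : ι) :
    ∑ l, pp Φ i l * pp Φ l j = pp Φ i j := by
  have h1 : (Φ * Φᵀ) * (Φ * Φᵀ) = Φ * Φᵀ := by
    rw [Matrix.mul_assoc, ← Matrix.mul_assoc Φᵀ, h, Matrix.one_mul]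
  have h2 := congrFun (congrFun h1 i) j
  rw [Matrix.mul_apply] at h2
  rw [pp_mat, ← h2]
  exact Finset.sum_congr rfl fun l _ => by rw [pp_mat, pp_mat]

lemma Bl_eq (Φ : Matrix ι (Fin K) ℝ) (l : ι) (a b : Fin K) :
    Bl Φ l a b = ∑ i, Pim Φ l i * (Φ i a * Φ i b) := by
  unfold Bl Pim
  simp only [Matrix.of_apply, sub_mul, Finset.sum_sub_distrib, ite_mul, one_mul, zero_mul,
    Finset.sum_ite_eq, Finset.mem_univ, if_true]

lemma Pim_sq (Φ : Matrix ι (Fin K) ℝ) (h : Φᵀ * Φ = 1) (i j : ι) :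
    ∑ l, Pim Φ l i * Pim Φ l j = Pim Φ i j := by
  have h1 : ∀ l, Pim Φ l i * Pim Φ l j =
      (if l = i then (if l = j then (1:ℝ) else 0) else 0) - (if l = i then pp Φ l j else 0)
        - (if l = j then pp Φ l i else 0) + pp Φ i l * pp Φ l j := by
    intro l
    unfold Pim
    rw [pp_comm Φ i l]
    split_ifs <;> ring
  rw [Finset.sum_congr rfl fun l _ => h1 l]
  rw [Finset.sum_add_distrib, Finset.sum_sub_distrib, Finset.sum_sub_distrib, pp_idem Φ h]
  simp only [Finset.sum_ite_eq', Finset.mem_univ, if_true]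
  unfold Pim
  rw [pp_comm Φ j i]
  ring

lemma sum_W (Φ : Matrix ι (Fin K) ℝ) (i j : ι) :
    ∑ a, ∑ b, (Φ i a * Φ i b) * (Φ j b * Φ j a) = (pp Φ i j)^2 := by
  unfold pp
  rw [sq, Finset.sum_mul_sum]
  exact Finset.sum_congr rfl fun a _ => Finset.sum_congr rfl fun b _ => by ring

end BLM1aux

open BLM1aux

theorem BLM1_thm (hTFA : Stmt_TFA) : Stmt_BLM1 := by
  intro ι _ _ K Φ hΦ
  have hPM : ∀ l i, ∑ j, Pim Φ l j * (pp Φ j i)^2 = PM Φ l i := by
    intro l i
    unfold Pim PM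
    simp only [sub_mul, Finset.sum_sub_distrib, ite_mul, one_mul, zero_mul,
      Finset.sum_ite_eq, Finset.mem_univ, if_true]
  refine ⟨?_, ?_, ?_, ?_⟩
  · intro l
    ext a b
    rw [Matrix.transpose_apply, Bl_eq, Bl_eq]
    exact Finset.sum_congr rfl fun i _ => by ring
  · have h1 : ∀ l, (Bl Φ l * Bl Φ l).trace = ∑ i, ∑ j, (Pim Φ l i * Pim Φ l j) * (pp Φ i j)^2 := by
      intro l
      unfold Matrix.trace
      simp only [Matrix.diag_apply, Matrix.mul_apply, Bl_eq, Finset.sum_mul_sum]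
      have h2 : ∀ i j, (Pim Φ l i * Pim Φ l j) * (pp Φ i j)^2 =
          ∑ a, ∑ b, Pim Φ l i * (Φ i a * Φ i b) * (Pim Φ l j * (Φ j b * Φ j a)) := by
        intro i j
        rw [← sum_W, Finset.mul_sum]
        refine Finset.sum_congr rfl fun a _ => ?_
        rw [Finset.mul_sum]
        exact Finset.sum_congr rfl fun b _ => by ring
      simp only [h2]
      rw [Finset.sum_congr rfl fun a _ => Finset.sum_comm]
      rw [Finset.sum_comm]
      refine Finset.sum_congr rfl fun i _ => ?_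
      rw [Finset.sum_congr rfl fun a _ => Finset.sum_comm]
      rw [Finset.sum_comm]
    rw [Finset.sum_congr rfl fun l _ => h1 l, Finset.sum_comm]
    have h3 : ∀ i, ∑ l, ∑ j, (Pim Φ l i * Pim Φ l j) * (pp Φ i j)^2 =
        (cn Φ i)^2 - ∑ j, (pp Φ i j)^3 := by
      intro i
      rw [Finset.sum_comm]
      have h4 : ∀ j, ∑ l, (Pim Φ l i * Pim Φ l j) * (pp Φ i j)^2 = Pim Φ i j * (pp Φ i j)^2 := by
        intro j
        rw [← Finset.sum_mul, Pim_sq Φ hΦ]
      rw [Finset.sum_congr rfl fun j _ => h4 j]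
      unfold Pim
      simp only [sub_mul, Finset.sum_sub_distrib, ite_mul, one_mul, zero_mul,
        Finset.sum_ite_eq, Finset.mem_univ, if_true]
      rw [pp_self]
      congr 1
      exact Finset.sum_congr rfl fun j _ => by ring
    rw [Finset.sum_congr rfl fun i _ => h3 i, Finset.sum_sub_distrib]
    rfl
  · intro l z
    have h1 : (Bl Φ l * Dm Φ z).trace = ∑ a, ∑ b, Bl Φ l a b * ∑ i, z i * (Φ i b * Φ i a) := by
      unfold Matrix.trace
      simp only [Matrix.diag_apply, Matrix.mul_apply]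
      refine Finset.sum_congr rfl fun a _ => Finset.sum_congr rfl fun b _ => ?_
      congr 1
      unfold Dm
      rw [Matrix.mul_apply]
      refine Finset.sum_congr rfl fun i _ => ?_
      rw [Matrix.mul_diagonal, Matrix.transpose_apply]
      ring
    rw [h1]
    simp only [Bl_eq, Finset.sum_mul_sum]
    have h2 : ∀ i, z i * PM Φ l i =
        ∑ j, ∑ a, ∑ b, Pim Φ l j * (Φ j a * Φ j b) * (z i * (Φ i b * Φ i a)) := by
      intro i
      rw [← hPM, Finset.mul_sum]
      refine Finset.sum_congr rfl fun j _ => ?_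
      rw [← sum_W, Finset.mul_sum, Finset.mul_sum]
      refine Finset.sum_congr rfl fun a _ => ?_
      rw [Finset.mul_sum, Finset.mul_sum]
      exact Finset.sum_congr rfl fun b _ => by ring
    simp only [h2]
    rw [Finset.sum_congr rfl fun a _ => Finset.sum_comm]
    rw [Finset.sum_comm]
    rw [Finset.sum_comm (f := fun i j => ∑ a, ∑ b,
      Pim Φ l j * (Φ j a * Φ j b) * (z i * (Φ i b * Φ i a)))]
    refine Finset.sum_congr rfl fun j _ => ?_
    rw [Finset.sum_congr rfl fun a _ => Finset.sum_comm]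
    rw [Finset.sum_comm]
  · intro y hy i
    obtain ⟨-, -, hT, -⟩ := hTFA ι K Φ y hΦ hy
    have h0 : ∀ j, ∑ l, Tm Φ y i l * pp Φ l j = 0 := by
      intro j
      have h1 : Tm Φ y * (Φ * Φᵀ) = 0 := by rw [← Matrix.mul_assoc, hT, Matrix.zero_mul]
      have h2 := congrFun (congrFun h1 i) j
      rw [Matrix.mul_apply] at h2
      simp only [← pp_mat] at h2
      exact h2
    unfold PM TMd
    simp only [mul_sub, Finset.sum_sub_distrib]
    have h3 : ∑ l, Tm Φ y i l * ∑ j, pp Φ l j * (pp Φ j i)^2 = 0 := by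
      simp only [Finset.mul_sum]
      rw [Finset.sum_comm]
      refine Finset.sum_eq_zero fun j _ => ?_
      have h4 : ∀ l, Tm Φ y i l * (pp Φ l j * (pp Φ j i)^2) =
          Tm Φ y i l * pp Φ l j * (pp Φ j i)^2 := fun l => by ring
      rw [Finset.sum_congr rfl fun l _ => h4 l, ← Finset.sum_mul, h0, zero_mul]
    rw [h3, sub_zero]
    exact Finset.sum_congr rfl fun l _ => by rw [pp_comm Φ l i]

end Pool.LIN
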