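import Pool.Agent.Work.MP_1c7b0d_lin.Interface

/-! Block BLM2: `tr (∑ B_l²)² ≤ 21/(20m) Dfc + ∑_{Cs} c_i²`. helper17 -/

open MeasureTheory Matrix Pool.LH60 Pool.LH73
open scoped BigOperators

namespace Pool.LIN
namespace BLM2

variable {ι : Type} [Fintype ι] [DecidableEq ι] {K : ℕ}

/-- `Π = 1 - κ` -/
def P (Φ : Matrix ι (Fin K) ℝ) (i j : ι) : ℝ := (if i = j then 1 else 0) - pp Φ i j

/-- third moments with unit weights -/
def T3 (Φ : Matrix ι (Fin K) ℝ) (c d a : Fin K) : ℝ := ∑ i, Φ i c * Φ i d * Φ i a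

lemma pp_comm (Φ : Matrix ι (Fin K) ℝ) (i j : ι) : pp Φ i j = pp Φ j i := by
  unfold pp; exact Finset.sum_congr rfl fun k _ => mul_comm _ _

lemma pp_self (Φ : Matrix ι (Fin K) ℝ) (i : ι) : pp Φ i i = cn Φ i := by
  unfold pp cn; exact Finset.sum_congr rfl fun k _ => by ring

lemma orth {Φ : Matrix ι (Fin K) ℝ} (h : Φᵀ * Φ = 1) (a b : Fin K) :
    ∑ i, Φ i a * Φ i b = if a = b then 1 else 0 := by
  have := congrFun (congrFun h a) b
  simpa [Matrix.mul_apply, Matrix.one_apply] using this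

lemma pp_proj {Φ : Matrix ι (Fin K) ℝ} (h : Φᵀ * Φ = 1) (i j : ι) :
    ∑ l, pp Φ l i * pp Φ l j = pp Φ i j := by
  unfold pp
  calc ∑ l, (∑ k, Φ l k * Φ i k) * (∑ k, Φ l k * Φ j k)
      = ∑ l, ∑ k, ∑ k', (Φ l k * Φ l k') * (Φ i k * Φ j k') := by
        refine Finset.sum_congr rfl fun l _ => ?_
        rw [Finset.sum_mul_sum]
        exact Finset.sum_congr rfl fun k _ => Finset.sum_congr rfl fun k' _ => by ring
    _ = ∑ k, ∑ k', ∑ l, (Φ l k * Φ l k') * (Φ i k * Φ j k') := by
        rw [Finset.sum_comm]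
        refine Finset.sum_congr rfl fun k _ => ?_
        rw [Finset.sum_comm]
    _ = ∑ k, ∑ k', (if k = k' then 1 else 0) * (Φ i k * Φ j k') := by
        refine Finset.sum_congr rfl fun k _ => Finset.sum_congr rfl fun k' _ => ?_
        rw [← Finset.sum_mul, orth h]
    _ = ∑ k, Φ i k * Φ j k := by simp

lemma P_proj {Φ : Matrix ι (Fin K) ℝ} (h : Φᵀ * Φ = 1) (i j : ι) :
    ∑ l, P Φ l i * P Φ l j = P Φ i j := by
  unfold P
  calc ∑ l, ((if l = i then 1 else 0) - pp Φ l i) * ((if l = j then 1 else 0) - pp Φ l j)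
      = ∑ l, ((if l = i then (if l = j then (1:ℝ) else 0) else 0)
          - (if l = i then pp Φ l j else 0) - (if l = j then pp Φ l i else 0)
          + pp Φ l i * pp Φ l j) := by
        refine Finset.sum_congr rfl fun l _ => ?_
        split_ifs <;> ring
    _ = (if i = j then 1 else 0) - pp Φ i j - pp Φ j i + pp Φ i j := by
        rw [Finset.sum_add_distrib, Finset.sum_sub_distrib, Finset.sum_sub_distrib, pp_proj h]
        simp
    _ = (if i = j then 1 else 0) - pp Φ i j := by rw [pp_comm Φ j i]; ring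

lemma Bl_eq (Φ : Matrix ι (Fin K) ℝ) (l : ι) (a b : Fin K) :
    Bl Φ l a b = ∑ i, P Φ l i * (Φ i a * Φ i b) := by
  unfold Bl P
  simp only [Matrix.of_apply, sub_mul, Finset.sum_sub_distrib]
  simp

lemma H_eq {Φ : Matrix ι (Fin K) ℝ} (h : Φᵀ * Φ = 1) (a b : Fin K) :
    (∑ l, Bl Φ l * Bl Φ l) a b = ∑ i, ∑ j, P Φ i j * pp Φ i j * (Φ i a * Φ j b) := by
  rw [Matrix.sum_apply]
  calc ∑ l, (Bl Φ l * Bl Φ l) a b
      = ∑ l, ∑ k, ∑ i, ∑ j, (P Φ l i * P Φ l j) * (Φ i k * Φ j k) * (Φ i a * Φ j b) := by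
        refine Finset.sum_congr rfl fun l _ => ?_
        rw [Matrix.mul_apply]
        refine Finset.sum_congr rfl fun k _ => ?_
        rw [Bl_eq, Bl_eq, Finset.sum_mul_sum]
        exact Finset.sum_congr rfl fun i _ => Finset.sum_congr rfl fun j _ => by ring
    _ = ∑ i, ∑ j, ∑ l, ∑ k, (P Φ l i * P Φ l j) * (Φ i k * Φ j k) * (Φ i a * Φ j b) := by
        rw [Finset.sum_congr rfl fun l _ => Finset.sum_comm]
        rw [Finset.sum_comm]
        refine Finset.sum_congr rfl fun i _ => ?_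
        rw [Finset.sum_congr rfl fun l _ => Finset.sum_comm]
        rw [Finset.sum_comm]
    _ = ∑ i, ∑ j, P Φ i j * pp Φ i j * (Φ i a * Φ j b) := by
        refine Finset.sum_congr rfl fun i _ => Finset.sum_congr rfl fun j _ => ?_
        rw [← P_proj h i j]
        unfold pp
        rw [Finset.sum_mul_sum, Finset.sum_mul]
        refine Finset.sum_congr rfl fun l _ => ?_
        rw [Finset.sum_mul]

lemma S_eq (Φ : Matrix ι (Fin K) ℝ) (a b : Fin K) :
    ∑ i, ∑ j, (pp Φ i j)^2 * (Φ i a * Φ j b) = ∑ c, ∑ d, T3 Φ c d a * T3 Φ c d b := by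
  unfold T3
  calc ∑ i, ∑ j, (pp Φ i j)^2 * (Φ i a * Φ j b)
      = ∑ i, ∑ j, ∑ c, ∑ d, (Φ i c * Φ i d * Φ i a) * (Φ j c * Φ j d * Φ j b) := by
        refine Finset.sum_congr rfl fun i _ => Finset.sum_congr rfl fun j _ => ?_
        unfold pp
        rw [sq, Finset.sum_mul_sum, Finset.sum_mul]
        refine Finset.sum_congr rfl fun c _ => ?_
        rw [Finset.sum_mul]
        exact Finset.sum_congr rfl fun d _ => by ring
    _ = ∑ c, ∑ d, ∑ i, ∑ j, (Φ i c * Φ i d * Φ i a) * (Φ j c * Φ j d * Φ j b) := by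
        rw [Finset.sum_congr rfl fun i _ => Finset.sum_comm]
        rw [Finset.sum_comm]
        refine Finset.sum_congr rfl fun c _ => ?_
        rw [Finset.sum_congr rfl fun i _ => Finset.sum_comm]
        rw [Finset.sum_comm]
    _ = ∑ c, ∑ d, (∑ i, Φ i c * Φ i d * Φ i a) * (∑ j, Φ j c * Φ j d * Φ j b) := by
        refine Finset.sum_congr rfl fun c _ => Finset.sum_congr rfl fun d _ => ?_
        rw [Finset.sum_mul_sum]

/-- quadratic form -/
def qd (M : Matrix (Fin K) (Fin K) ℝ) (x : Fin K → ℝ) : ℝ := ∑ a, ∑ b, x a * M a b * x b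

lemma H_nonneg {Φ : Matrix ι (Fin K) ℝ} (hs : ∀ l, (Bl Φ l)ᵀ = Bl Φ l) (x : Fin K → ℝ) :
    0 ≤ qd (∑ l, Bl Φ l * Bl Φ l) x := by
  have h1 : qd (∑ l, Bl Φ l * Bl Φ l) x = ∑ l, ∑ k, (∑ a, x a * Bl Φ l a k)^2 := by
    unfold qd
    calc ∑ a, ∑ b, x a * (∑ l, Bl Φ l * Bl Φ l) a b * x b
        = ∑ a, ∑ b, ∑ l, ∑ k, (x a * Bl Φ l a k) * (x b * Bl Φ l b k) := by
          refine Finset.sum_congr rfl fun a _ => Finset.sum_congr rfl fun b _ => ?_
          rw [Matrix.sum_apply, Finset.mul_sum, Finset.sum_mul]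
          refine Finset.sum_congr rfl fun l _ => ?_
          rw [Matrix.mul_apply, Finset.mul_sum, Finset.sum_mul]
          refine Finset.sum_congr rfl fun k _ => ?_
          have h2 : Bl Φ l k b = Bl Φ l b k := by
            have := congrFun (congrFun (hs l) b) k
            simpa [Matrix.transpose_apply] using this
          rw [h2]; ring
      _ = ∑ l, ∑ k, ∑ a, ∑ b, (x a * Bl Φ l a k) * (x b * Bl Φ l b k) := by
          rw [Finset.sum_congr rfl fun a _ => Finset.sum_comm]
          rw [Finset.sum_comm]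
          refine Finset.sum_congr rfl fun l _ => ?_
          rw [Finset.sum_congr rfl fun a _ => Finset.sum_comm]
          rw [Finset.sum_comm]
      _ = ∑ l, ∑ k, (∑ a, x a * Bl Φ l a k)^2 := by
          refine Finset.sum_congr rfl fun l _ => Finset.sum_congr rfl fun k _ => ?_
          rw [sq, Finset.sum_mul_sum]
  rw [h1]
  exact Finset.sum_nonneg fun l _ => Finset.sum_nonneg fun k _ => sq_nonneg _

end BLM2

open BLM2 in
theorem BLM2_thm (hDEF1 : Stmt_DEF1) (hBLM1 : Stmt_BLM1) : Stmt_BLM2 := by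
  intro ι _ _ K Φ m hΦ hm
  obtain ⟨hsym, htr, -, -⟩ := hBLM1 ι K Φ hΦ
  obtain ⟨hpp, -, hcn, -, -, -⟩ := hDEF1 ι K Φ hΦ
  have hm0 : (0:ℝ) < m := by linarith
  set H : Matrix (Fin K) (Fin K) ℝ := ∑ l, Bl Φ l * Bl Φ l with hHdef
  -- `H = N - S`
  have hHsplit : ∀ a b, H a b = ∑ i, cn Φ i * (Φ i a * Φ i b)
      - ∑ c, ∑ d, T3 Φ c d a * T3 Φ c d b := by
    intro a b
    rw [hHdef, H_eq hΦ, ← S_eq]
    unfold P
    simp only [sub_mul, Finset.sum_sub_distrib]
    have h1 : ∑ i, ∑ j, (if i = j then (1:ℝ) else 0) * pp Φ i j * (Φ i a * Φ j b)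
        = ∑ i, cn Φ i * (Φ i a * Φ i b) := by
      refine Finset.sum_congr rfl fun i _ => ?_
      simp [pp_self]
    have h2 : ∑ i, ∑ j, pp Φ i j * pp Φ i j * (Φ i a * Φ j b)
        = ∑ i, ∑ j, (pp Φ i j)^2 * (Φ i a * Φ j b) :=
      Finset.sum_congr rfl fun i _ => Finset.sum_congr rfl fun j _ => by ring
    rw [h1, h2]
  have hHs : ∀ a b, H a b = H b a := by
    intro a b
    rw [hHsplit, hHsplit]
    have e1 : ∑ i, cn Φ i * (Φ i a * Φ i b) = ∑ i, cn Φ i * (Φ i b * Φ i a) :=
      Finset.sum_congr rfl fun i _ => by ring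
    have e2 : ∑ c, ∑ d, T3 Φ c d a * T3 Φ c d b = ∑ c, ∑ d, T3 Φ c d b * T3 Φ c d a :=
      Finset.sum_congr rfl fun c _ => Finset.sum_congr rfl fun d _ => by ring
    rw [e1, e2]
  have hH0 : ∀ x, 0 ≤ qd H x := fun x => H_nonneg hsym x
  -- the quadratic form of `H`
  have hqd : ∀ x, qd H x = ∑ j, cn Φ j * (∑ a, Φ j a * x a)^2
      - ∑ c, ∑ d, (∑ a, x a * T3 Φ c d a)^2 := by
    intro x
    unfold qd
    calc ∑ a, ∑ b, x a * H a b * x b
        = ∑ a, ∑ b, ((∑ j, cn Φ j * ((Φ j a * x a) * (Φ j b * x b)))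
            - ∑ c, ∑ d, (x a * T3 Φ c d a) * (x b * T3 Φ c d b)) := by
          refine Finset.sum_congr rfl fun a _ => Finset.sum_congr rfl fun b _ => ?_
          rw [hHsplit, mul_sub, sub_mul]
          refine congrArg₂ _ ?_ ?_
          · rw [Finset.mul_sum, Finset.sum_mul]
            exact Finset.sum_congr rfl fun j _ => by ring
          · rw [Finset.mul_sum, Finset.sum_mul]
            refine Finset.sum_congr rfl fun c _ => ?_
            rw [Finset.mul_sum, Finset.sum_mul]
            exact Finset.sum_congr rfl fun d _ => by ring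
      _ = (∑ a, ∑ b, ∑ j, cn Φ j * ((Φ j a * x a) * (Φ j b * x b)))
            - ∑ a, ∑ b, ∑ c, ∑ d, (x a * T3 Φ c d a) * (x b * T3 Φ c d b) := by
          simp only [Finset.sum_sub_distrib]
      _ = _ := by
          refine congrArg₂ _ ?_ ?_
          · rw [Finset.sum_congr rfl fun a _ => Finset.sum_comm]
            rw [Finset.sum_comm]
            refine Finset.sum_congr rfl fun j _ => ?_
            rw [sq, Finset.sum_mul_sum, Finset.mul_sum]
            refine Finset.sum_congr rfl fun a _ => ?_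
            rw [Finset.mul_sum]
          · rw [Finset.sum_congr rfl fun a _ => Finset.sum_comm]
            rw [Finset.sum_comm]
            refine Finset.sum_congr rfl fun c _ => ?_
            rw [Finset.sum_congr rfl fun a _ => Finset.sum_comm]
            rw [Finset.sum_comm]
            refine Finset.sum_congr rfl fun d _ => ?_
            rw [sq, Finset.sum_mul_sum]
  -- `h_i = φ_iᵀ H φ_i`
  have hrow : ∀ i, qd H (Φ i) ≤ cn Φ i := by
    intro i
    rw [hqd]
    have h1 : ∑ j, cn Φ j * (∑ a, Φ j a * Φ i a)^2 ≤ cn Φ i := by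
      calc ∑ j, cn Φ j * (∑ a, Φ j a * Φ i a)^2 ≤ ∑ j, (pp Φ i j)^2 := by
            refine Finset.sum_le_sum fun j _ => ?_
            have h2 : ∑ a, Φ j a * Φ i a = pp Φ i j := by
              rw [pp_comm]; rfl
            rw [h2]
            calc cn Φ j * (pp Φ i j)^2 ≤ 1 * (pp Φ i j)^2 :=
                  mul_le_mul_of_nonneg_right (hcn j).2 (sq_nonneg _)
              _ = _ := one_mul _
        _ = cn Φ i := hpp i
    have h2 : 0 ≤ ∑ c, ∑ d, (∑ a, Φ i a * T3 Φ c d a)^2 :=
      Finset.sum_nonneg fun c _ => Finset.sum_nonneg fun d _ => sq_nonneg _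
    linarith
  have hsum : ∑ i, qd H (Φ i) = Dfc Φ := by
    rw [← htr, ← Matrix.trace_sum]
    rw [← hHdef]
    unfold qd
    rw [Finset.sum_comm]
    rw [Matrix.trace]
    refine Finset.sum_congr rfl fun a _ => ?_
    rw [Finset.sum_comm]
    calc ∑ b, ∑ i, Φ i a * H a b * Φ i b = ∑ b, H a b * (if a = b then 1 else 0) := by
          refine Finset.sum_congr rfl fun b _ => ?_
          rw [← orth hΦ, Finset.mul_sum]
          exact Finset.sum_congr rfl fun i _ => by ring
      _ = H.diag a := by simp [Matrix.diag]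
  -- `tr H² ≤ ∑ c_i h_i`
  have htrace : (H * H).trace = ∑ i, cn Φ i * qd H (Φ i) - ∑ c, ∑ d, qd H (T3 Φ c d) := by
    rw [Matrix.trace]
    calc ∑ a, (H * H).diag a = ∑ a, ∑ b, H a b * H a b := by
          refine Finset.sum_congr rfl fun a _ => ?_
          rw [Matrix.diag_apply, Matrix.mul_apply]
          exact Finset.sum_congr rfl fun b _ => by rw [hHs b a]
      _ = ∑ a, ∑ b, ((∑ i, cn Φ i * (Φ i a * H a b * Φ i b))
            - ∑ c, ∑ d, T3 Φ c d a * H a b * T3 Φ c d b) := by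
          refine Finset.sum_congr rfl fun a _ => Finset.sum_congr rfl fun b _ => ?_
          rw [show H a b * H a b = H a b * (∑ i, cn Φ i * (Φ i a * Φ i b)
            - ∑ c, ∑ d, T3 Φ c d a * T3 Φ c d b) by rw [← hHsplit]]
          rw [mul_sub]
          refine congrArg₂ _ ?_ ?_
          · rw [Finset.mul_sum]
            exact Finset.sum_congr rfl fun j _ => by ring
          · rw [Finset.mul_sum]
            refine Finset.sum_congr rfl fun c _ => ?_
            rw [Finset.mul_sum]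
            exact Finset.sum_congr rfl fun d _ => by ring
      _ = (∑ a, ∑ b, ∑ i, cn Φ i * (Φ i a * H a b * Φ i b))
            - ∑ a, ∑ b, ∑ c, ∑ d, T3 Φ c d a * H a b * T3 Φ c d b := by
          simp only [Finset.sum_sub_distrib]
      _ = _ := by
          unfold qd
          refine congrArg₂ _ ?_ ?_
          · rw [Finset.sum_congr rfl fun a _ => Finset.sum_comm]
            rw [Finset.sum_comm]
            refine Finset.sum_congr rfl fun i _ => ?_
            rw [Finset.mul_sum]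
            refine Finset.sum_congr rfl fun a _ => ?_
            rw [Finset.mul_sum]
          · rw [Finset.sum_congr rfl fun a _ => Finset.sum_comm]
            rw [Finset.sum_comm]
            refine Finset.sum_congr rfl fun c _ => ?_
            rw [Finset.sum_congr rfl fun a _ => Finset.sum_comm]
            rw [Finset.sum_comm]
  have h1 : (H * H).trace ≤ ∑ i, cn Φ i * qd H (Φ i) := by
    rw [htrace]
    have : 0 ≤ ∑ c, ∑ d, qd H (T3 Φ c d) :=
      Finset.sum_nonneg fun c _ => Finset.sum_nonneg fun d _ => hH0 _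
    linarith
  refine le_trans h1 ?_
  rw [← Finset.sum_sdiff (Finset.subset_univ (Cs Φ m))]
  refine add_le_add ?_ ?_
  · calc ∑ i ∈ Finset.univ \ Cs Φ m, cn Φ i * qd H (Φ i)
        ≤ ∑ i ∈ Finset.univ \ Cs Φ m, 21 / (20 * m) * qd H (Φ i) := by
          refine Finset.sum_le_sum fun i hi => ?_
          refine mul_le_mul_of_nonneg_right ?_ (hH0 _)
          have hi2 : i ∉ Cs Φ m := (Finset.mem_sdiff.1 hi).2
          have hi3 : |m * cn Φ i - 1| ≤ 1/20 := by
            by_contra hcon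
            exact hi2 (by simp only [Cs, Finset.mem_filter, Finset.mem_univ, true_and]; exact not_le.1 hcon)
          have hi4 := (abs_le.1 hi3).2
          rw [le_div_iff₀ (by positivity)]
          linarith
      _ ≤ ∑ i, 21 / (20 * m) * qd H (Φ i) := by
          refine Finset.sum_le_sum_of_subset_of_nonneg (Finset.subset_univ _) fun i _ _ => ?_
          exact mul_nonneg (by positivity) (hH0 _)
      _ = 21 / (20 * m) * Dfc Φ := by rw [← Finset.mul_sum, hsum]
  · refine Finset.sum_le_sum fun i _ => ?_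
    rw [sq]
    exact mul_le_mul_of_nonneg_left (hrow i) (hcn i).1

end Pool.LIN
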