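import Pool.Agent.Work.MP_1c7b0d_lin.Interface

/-! Block BLM3: `∑ tr B_l⁴ ≤ (21/5m) D + 16 ∑_{C*} c²`. helper12 -/

open MeasureTheory Matrix Pool.LH60 Pool.LH73
open scoped BigOperators

namespace Pool.LIN

namespace BLM3

lemma tr_sq {K : ℕ} (B : Matrix (Fin K) (Fin K) ℝ) (hB : Bᵀ = B) :
    (B * B).trace = ∑ a, ∑ b, (B a b)^2 := by
  simp only [Matrix.trace, Matrix.diag, Matrix.mul_apply]
  refine Finset.sum_congr rfl fun a _ => Finset.sum_congr rfl fun b _ => ?_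
  have : B b a = B a b := by
    have := congrFun (congrFun hB a) b
    simpa [Matrix.transpose_apply] using this
  rw [this]; ring

lemma op_bound {K : ℕ} (B : Matrix (Fin K) (Fin K) ℝ) (hB : Bᵀ = B) (r : ℝ) (hr : 0 < r)
    (h : ∀ x : Fin K → ℝ, |x ⬝ᵥ B *ᵥ x| ≤ r * (x ⬝ᵥ x)) (x : Fin K → ℝ) :
    (B *ᵥ x) ⬝ᵥ (B *ᵥ x) ≤ r^2 * (x ⬝ᵥ x) := by
  set z := B *ᵥ x with hz
  have hsym : x ⬝ᵥ B *ᵥ z = z ⬝ᵥ z := by
    rw [Matrix.dotProduct_mulVec]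
    conv_lhs => rw [← hB]
    rw [Matrix.vecMul_transpose]
  have h1 := (abs_le.1 (h (r • x + z))).2
  have h2 := (abs_le.1 (h (r • x - z))).1
  have e1 : (r • x + z) ⬝ᵥ B *ᵥ (r • x + z) =
      r^2 * (x ⬝ᵥ z) + 2 * r * (z ⬝ᵥ z) + z ⬝ᵥ B *ᵥ z := by
    rw [Matrix.mulVec_add, Matrix.mulVec_smul, ← hz]
    simp only [dotProduct_add, add_dotProduct, dotProduct_smul, smul_dotProduct, smul_eq_mul,
      hsym]
    ring
  have e2 : (r • x - z) ⬝ᵥ B *ᵥ (r • x - z) =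
      r^2 * (x ⬝ᵥ z) - 2 * r * (z ⬝ᵥ z) + z ⬝ᵥ B *ᵥ z := by
    rw [Matrix.mulVec_sub, Matrix.mulVec_smul, ← hz]
    simp only [dotProduct_sub, sub_dotProduct, dotProduct_smul, smul_dotProduct, smul_eq_mul,
      hsym]
    ring
  have e3 : (r • x + z) ⬝ᵥ (r • x + z) = r^2 * (x ⬝ᵥ x) + 2 * r * (x ⬝ᵥ z) + z ⬝ᵥ z := by
    simp only [dotProduct_add, add_dotProduct, dotProduct_smul, smul_dotProduct, smul_eq_mul]
    rw [dotProduct_comm z x]; ring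
  have e4 : (r • x - z) ⬝ᵥ (r • x - z) = r^2 * (x ⬝ᵥ x) - 2 * r * (x ⬝ᵥ z) + z ⬝ᵥ z := by
    simp only [dotProduct_sub, sub_dotProduct, dotProduct_smul, smul_dotProduct, smul_eq_mul]
    rw [dotProduct_comm z x]; ring
  rw [e1, e3] at h1
  rw [e2, e4] at h2
  have h3 : 4 * r * (z ⬝ᵥ z) ≤ 2 * r * (r^2 * (x ⬝ᵥ x) + z ⬝ᵥ z) := by linarith
  have h4 : 2 * (z ⬝ᵥ z) ≤ (r^2 * (x ⬝ᵥ x) + z ⬝ᵥ z) := by
    have h2r : 0 < 2 * r := by positivity
    refine le_of_mul_le_mul_left ?_ h2r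
    linarith
  linarith

lemma tr4 {K : ℕ} (B : Matrix (Fin K) (Fin K) ℝ) (hB : Bᵀ = B) (r : ℝ) (hr : 0 < r)
    (h : ∀ x : Fin K → ℝ, |x ⬝ᵥ B *ᵥ x| ≤ r * (x ⬝ᵥ x)) :
    (B^4).trace ≤ r^2 * (B * B).trace := by
  have hBB : (B * B)ᵀ = B * B := by rw [Matrix.transpose_mul, hB]
  have e : B^4 = (B * B) * (B * B) := by noncomm_ring
  rw [e, tr_sq _ hBB, tr_sq B hB, Finset.sum_comm]
  rw [show (∑ a, ∑ b, (B a b)^2) = ∑ b, ∑ a, (B a b)^2 from Finset.sum_comm, Finset.mul_sum]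
  refine Finset.sum_le_sum fun b _ => ?_
  have := op_bound B hB r hr h (fun c => B c b)
  simp only [dotProduct] at this
  have e1 : ∀ a, (B * B) a b = (B *ᵥ fun c => B c b) a := by
    intro a; rw [Matrix.mul_apply]; rfl
  calc ∑ a, ((B * B) a b)^2 = ∑ a, (B *ᵥ fun c => B c b) a * (B *ᵥ fun c => B c b) a := by
        refine Finset.sum_congr rfl fun a _ => ?_
        rw [e1, sq]
    _ ≤ r^2 * ∑ a, B a b * B a b := this
    _ = r^2 * ∑ a, (B a b)^2 := by simp only [sq]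

variable {ι : Type} [Fintype ι] [DecidableEq ι] {K : ℕ}

omit [DecidableEq ι] in
lemma qform (Φ : Matrix ι (Fin K) ℝ) (l : ι) (x : Fin K → ℝ) :
    x ⬝ᵥ Bl Φ l *ᵥ x =
      (∑ a, Φ l a * x a)^2 - ∑ i, pp Φ l i * (∑ a, Φ i a * x a)^2 := by
  have hB : ∀ a b, Bl Φ l a b = Φ l a * Φ l b - ∑ i, pp Φ l i * (Φ i a * Φ i b) :=
    fun a b => rfl
  have e : ∀ i, (∑ a, Φ i a * x a)^2 = ∑ a, ∑ b, x a * (Φ i a * Φ i b) * x b := by
    intro i
    rw [sq, Finset.sum_mul_sum]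
    exact Finset.sum_congr rfl fun a _ => Finset.sum_congr rfl fun b _ => by ring
  have e2 : ∑ i, pp Φ l i * (∑ a, Φ i a * x a)^2 =
      ∑ a, ∑ b, ∑ i, pp Φ l i * (x a * (Φ i a * Φ i b) * x b) := by
    calc ∑ i, pp Φ l i * (∑ a, Φ i a * x a)^2
        = ∑ i, ∑ a, ∑ b, pp Φ l i * (x a * (Φ i a * Φ i b) * x b) := by
          refine Finset.sum_congr rfl fun i _ => ?_
          rw [e i, Finset.mul_sum]
          exact Finset.sum_congr rfl fun a _ => Finset.mul_sum _ _ _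
      _ = ∑ a, ∑ i, ∑ b, pp Φ l i * (x a * (Φ i a * Φ i b) * x b) := Finset.sum_comm
      _ = _ := Finset.sum_congr rfl fun a _ => Finset.sum_comm
  rw [e l, e2, ← Finset.sum_sub_distrib]
  simp only [dotProduct, Matrix.mulVec]
  refine Finset.sum_congr rfl fun a _ => ?_
  rw [← Finset.sum_sub_distrib, Finset.mul_sum]
  refine Finset.sum_congr rfl fun b _ => ?_
  rw [hB, sub_mul, mul_sub, Finset.sum_mul, Finset.mul_sum]
  congr 1
  · ring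
  · exact Finset.sum_congr rfl fun i _ => by ring

omit [DecidableEq ι] in
lemma parseval (Φ : Matrix ι (Fin K) ℝ) (hΦ : Φᵀ * Φ = 1) (x : Fin K → ℝ) :
    ∑ i, (∑ a, Φ i a * x a)^2 = x ⬝ᵥ x := by
  have e : ∑ i, (∑ a, Φ i a * x a)^2 = (Φ *ᵥ x) ⬝ᵥ (Φ *ᵥ x) := by
    simp only [dotProduct, Matrix.mulVec, sq]
  rw [e, Matrix.dotProduct_mulVec, ← Matrix.mulVec_transpose, Matrix.mulVec_mulVec, hΦ,
    Matrix.one_mulVec]

omit [Fintype ι] [DecidableEq ι] in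
lemma cs (Φ : Matrix ι (Fin K) ℝ) (l : ι) (x : Fin K → ℝ) :
    (∑ a, Φ l a * x a)^2 ≤ cn Φ l * (x ⬝ᵥ x) := by
  have := Finset.sum_mul_sq_le_sq_mul_sq Finset.univ (fun a => Φ l a) x
  simp only [cn, dotProduct]
  simpa [sq] using this

lemma absform (Φ : Matrix ι (Fin K) ℝ) (hΦ : Φᵀ * Φ = 1) (hDEF1 : Stmt_DEF1) (l : ι)
    (x : Fin K → ℝ) :
    |x ⬝ᵥ Bl Φ l *ᵥ x| ≤ 2 * Real.sqrt (cn Φ l) * (x ⬝ᵥ x) := by
  obtain ⟨hpp, -, hc, -, -, -⟩ := hDEF1 ι K Φ hΦ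
  obtain ⟨hc0, hc1⟩ := hc l
  have hx : 0 ≤ x ⬝ᵥ x := by
    simp only [dotProduct]
    exact Finset.sum_nonneg fun i _ => mul_self_nonneg _
  have hs0 : 0 ≤ Real.sqrt (cn Φ l) := Real.sqrt_nonneg _
  have hs1 : cn Φ l ≤ Real.sqrt (cn Φ l) := by
    have h1 := Real.sq_sqrt hc0
    have h2 : Real.sqrt (cn Φ l) ≤ 1 := by
      rw [Real.sqrt_le_left (by norm_num)]; simpa using hc1
    nlinarith
  have hp : ∀ i, |pp Φ l i| ≤ Real.sqrt (cn Φ l) := by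
    intro i
    apply Real.abs_le_sqrt
    rw [← hpp l]
    exact Finset.single_le_sum (f := fun j => (pp Φ l j)^2) (fun j _ => sq_nonneg _)
      (Finset.mem_univ i)
  rw [qform]
  have h1 := cs Φ l x
  have h2 : |∑ i, pp Φ l i * (∑ a, Φ i a * x a)^2| ≤ Real.sqrt (cn Φ l) * (x ⬝ᵥ x) := by
    rw [← parseval Φ hΦ x, Finset.mul_sum]
    refine (Finset.abs_sum_le_sum_abs _ _).trans (Finset.sum_le_sum fun i _ => ?_)
    rw [abs_mul, abs_of_nonneg (sq_nonneg (∑ a, Φ i a * x a))]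
    exact mul_le_mul_of_nonneg_right (hp i) (sq_nonneg _)
  have h3 : 0 ≤ (∑ a, Φ l a * x a)^2 := sq_nonneg _
  have h4 : cn Φ l * (x ⬝ᵥ x) ≤ Real.sqrt (cn Φ l) * (x ⬝ᵥ x) :=
    mul_le_mul_of_nonneg_right hs1 hx
  rw [abs_le] at h2 ⊢
  constructor <;> nlinarith [h2.1, h2.2]

omit [DecidableEq ι] in
lemma N_sq (Φ : Matrix ι (Fin K) ℝ) (l : ι) :
    ∑ a, ∑ b, (∑ i, pp Φ l i * (Φ i a * Φ i b))^2 =
      ∑ i, ∑ j, pp Φ l i * pp Φ l j * (pp Φ i j)^2 := by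
  calc ∑ a, ∑ b, (∑ i, pp Φ l i * (Φ i a * Φ i b))^2
      = ∑ a, ∑ b, ∑ i, ∑ j, (pp Φ l i * pp Φ l j) * ((Φ i a * Φ j a) * (Φ i b * Φ j b)) := by
        refine Finset.sum_congr rfl fun a _ => Finset.sum_congr rfl fun b _ => ?_
        rw [sq, Finset.sum_mul_sum]
        exact Finset.sum_congr rfl fun i _ => Finset.sum_congr rfl fun j _ => by ring
    _ = ∑ a, ∑ i, ∑ j, ∑ b, (pp Φ l i * pp Φ l j) * ((Φ i a * Φ j a) * (Φ i b * Φ j b)) := by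
        refine Finset.sum_congr rfl fun a _ => ?_
        rw [Finset.sum_comm]
        exact Finset.sum_congr rfl fun i _ => Finset.sum_comm
    _ = ∑ i, ∑ j, ∑ a, ∑ b, (pp Φ l i * pp Φ l j) * ((Φ i a * Φ j a) * (Φ i b * Φ j b)) := by
        rw [Finset.sum_comm]
        exact Finset.sum_congr rfl fun i _ => Finset.sum_comm
    _ = _ := by
        refine Finset.sum_congr rfl fun i _ => Finset.sum_congr rfl fun j _ => ?_
        have e : (pp Φ i j)^2 = ∑ a, ∑ b, (Φ i a * Φ j a) * (Φ i b * Φ j b) := by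
          unfold pp; rw [sq, Finset.sum_mul_sum]
        rw [e, Finset.mul_sum]
        refine Finset.sum_congr rfl fun a _ => ?_
        rw [Finset.mul_sum]

lemma tr2 (Φ : Matrix ι (Fin K) ℝ) (hΦ : Φᵀ * Φ = 1) (hDEF1 : Stmt_DEF1) (l : ι)
    (hB : (Bl Φ l)ᵀ = Bl Φ l) :
    (Bl Φ l * Bl Φ l).trace ≤ 4 * cn Φ l := by
  obtain ⟨hpp, -, hc, -, -, -⟩ := hDEF1 ι K Φ hΦ
  obtain ⟨hc0, hc1⟩ := hc l
  rw [tr_sq _ hB]
  have hBe : ∀ a b, Bl Φ l a b = Φ l a * Φ l b - ∑ i, pp Φ l i * (Φ i a * Φ i b) :=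
    fun a b => rfl
  have h1 : ∑ a, ∑ b, (Bl Φ l a b)^2 ≤
      2 * ∑ a, ∑ b, (Φ l a * Φ l b)^2 + 2 * ∑ a, ∑ b, (∑ i, pp Φ l i * (Φ i a * Φ i b))^2 := by
    simp only [Finset.mul_sum, ← Finset.sum_add_distrib]
    refine Finset.sum_le_sum fun a _ => Finset.sum_le_sum fun b _ => ?_
    rw [hBe]
    nlinarith [sq_nonneg (Φ l a * Φ l b + ∑ i, pp Φ l i * (Φ i a * Φ i b))]
  have h2 : ∑ a, ∑ b, (Φ l a * Φ l b)^2 = (cn Φ l)^2 := by
    unfold cn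
    rw [sq, Finset.sum_mul_sum]
    exact Finset.sum_congr rfl fun a _ => Finset.sum_congr rfl fun b _ => by ring
  have h3 : ∑ i, ∑ j, pp Φ l i * pp Φ l j * (pp Φ i j)^2 ≤ cn Φ l := by
    have hsym : ∀ i j, pp Φ i j = pp Φ j i := fun i j => by
      unfold pp; exact Finset.sum_congr rfl fun k _ => mul_comm _ _
    have h4 : ∑ i, ∑ j, pp Φ l i * pp Φ l j * (pp Φ i j)^2 ≤
        ∑ i, ∑ j, ((pp Φ l i)^2 / 2 * (pp Φ i j)^2 + (pp Φ l j)^2 / 2 * (pp Φ i j)^2) := by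
      refine Finset.sum_le_sum fun i _ => Finset.sum_le_sum fun j _ => ?_
      nlinarith [mul_nonneg (sq_nonneg (pp Φ l i - pp Φ l j)) (sq_nonneg (pp Φ i j))]
    have h5 : ∑ i, ∑ j, ((pp Φ l i)^2 / 2 * (pp Φ i j)^2 + (pp Φ l j)^2 / 2 * (pp Φ i j)^2) =
        ∑ i, (pp Φ l i)^2 * cn Φ i := by
      simp only [Finset.sum_add_distrib]
      rw [show (∑ i, ∑ j, (pp Φ l j)^2 / 2 * (pp Φ i j)^2) =
        ∑ j, ∑ i, (pp Φ l j)^2 / 2 * (pp Φ i j)^2 from Finset.sum_comm,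
        ← Finset.sum_add_distrib]
      refine Finset.sum_congr rfl fun i _ => ?_
      rw [← Finset.mul_sum, ← Finset.mul_sum, hpp i]
      have : ∑ j, (pp Φ j i)^2 = cn Φ i := by
        rw [← hpp i]; exact Finset.sum_congr rfl fun j _ => by rw [hsym]
      rw [this]; ring
    have h6 : ∑ i, (pp Φ l i)^2 * cn Φ i ≤ ∑ i, (pp Φ l i)^2 := by
      refine Finset.sum_le_sum fun i _ => ?_
      nlinarith [sq_nonneg (pp Φ l i), (hc i).2]
    rw [hpp l] at h6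
    linarith [h4, h5.le, h6]
  rw [N_sq, h2] at h1
  nlinarith

end BLM3

theorem BLM3_thm (hDEF1 : Stmt_DEF1) (hBLM1 : Stmt_BLM1) : Stmt_BLM3 := by
  intro ι _ _ K Φ m hΦ hm
  obtain ⟨hpp, hsum, hc, -, -, hD0⟩ := hDEF1 ι K Φ hΦ
  obtain ⟨hBs, hB2, -, -⟩ := hBLM1 ι K Φ hΦ
  have nn : ∀ l, 0 ≤ (Bl Φ l * Bl Φ l).trace := fun l => by
    rw [BLM3.tr_sq _ (hBs l)]
    exact Finset.sum_nonneg fun a _ => Finset.sum_nonneg fun b _ => sq_nonneg _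
  have key2 : ∀ l, (Bl Φ l * Bl Φ l).trace ≤ 4 * cn Φ l := fun l =>
    BLM3.tr2 Φ hΦ hDEF1 l (hBs l)
  have key : ∀ l, ((Bl Φ l)^4).trace ≤ 4 * cn Φ l * (Bl Φ l * Bl Φ l).trace := by
    intro l
    rcases (hc l).1.eq_or_lt with h0 | h0
    · have h1 : ∀ a, Φ l a = 0 := by
        have : ∑ a, Φ l a ^ 2 = 0 := h0.symm
        intro a
        have := (Finset.sum_eq_zero_iff_of_nonneg (fun a _ => sq_nonneg (Φ l a))).1 this a
          (Finset.mem_univ a)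
        exact pow_eq_zero_iff (two_ne_zero) |>.1 this
      have h2 : Bl Φ l = 0 := by
        ext a b
        have : Bl Φ l a b = Φ l a * Φ l b - ∑ i, pp Φ l i * (Φ i a * Φ i b) := rfl
        rw [this]
        have hp : ∀ i, pp Φ l i = 0 := fun i => by
          unfold pp; exact Finset.sum_eq_zero fun k _ => by rw [h1]; ring
        simp [hp, h1]
      rw [h2, ← h0]; simp
    · have hs : 0 < 2 * Real.sqrt (cn Φ l) := by positivity
      have := BLM3.tr4 (Bl Φ l) (hBs l) _ hs (BLM3.absform Φ hΦ hDEF1 l)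
      rw [mul_pow, Real.sq_sqrt h0.le] at this
      linarith
  have term : ∀ l, ((Bl Φ l)^4).trace ≤ 21 / (5 * m) * (Bl Φ l * Bl Φ l).trace +
      16 * (if l ∈ Cs Φ m then (cn Φ l)^2 else 0) := by
    intro l
    have hm0 : 0 < m := by linarith
    have h5 : 0 ≤ 21 / (5 * m) := by positivity
    by_cases hl : l ∈ Cs Φ m
    · rw [if_pos hl]
      have h1 := key l
      have h2 := mul_le_mul_of_nonneg_left (key2 l) (mul_nonneg (by norm_num : (0:ℝ) ≤ 4) (hc l).1)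
      have h3 := mul_nonneg h5 (nn l)
      nlinarith
    · rw [if_neg hl]
      have h6 : ¬ (1/20 < |m * cn Φ l - 1|) := fun h => hl (by
        simp only [Cs, Finset.mem_filter, Finset.mem_univ, true_and]; exact h)
      have h7 := (abs_le.1 (not_lt.1 h6)).2
      have h8 : 4 * cn Φ l ≤ 21 / (5 * m) := by
        rw [le_div_iff₀ (by positivity)]; nlinarith
      have := mul_le_mul_of_nonneg_right h8 (nn l)
      linarith [key l]
  calc ∑ l, ((Bl Φ l)^4).trace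
      ≤ ∑ l, (21 / (5 * m) * (Bl Φ l * Bl Φ l).trace +
        16 * (if l ∈ Cs Φ m then (cn Φ l)^2 else 0)) := Finset.sum_le_sum fun l _ => term l
    _ = 21 / (5 * m) * Dfc Φ + 16 * ∑ i ∈ Cs Φ m, (cn Φ i)^2 := by
        rw [Finset.sum_add_distrib, ← Finset.mul_sum, ← Finset.mul_sum, hB2]
        congr 2
        rw [← Finset.sum_filter]
        congr 1
        ext i; simp

end Pool.LIN
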