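import Pool.Agent.Work.MP_1c7b0d_lin.Interface

/-! Block BST: the tilt with mean one. helper41 -/

open MeasureTheory Matrix Pool.LH60 Pool.LH73
open scoped BigOperators Topology

namespace Pool.LIN

namespace BSTx

section alg
variable {ι : Type} [Fintype ι] {K : ℕ}

noncomputable def sh (b w : ι → ℝ) : ι → ℝ := fun j => Real.exp (-b j) * w j

lemma sh_orth {b w : ι → ℝ} (hw : w ∈ Orth ι) : sh b w ∈ Orth ι := fun i =>
  mul_pos (Real.exp_pos _) (hw i)

lemma orth_sum {Φ : Matrix ι (Fin K) ℝ} {y : ι → ℝ} (h : ∀ k, ∑ i, (y i - 1) * Φ i k = 0)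
    (f : Fin K → ℝ) : ∑ i, (1 - y i) * (∑ a, Φ i a * f a) = 0 := by
  have e : ∑ i, (1 - y i) * (∑ a, Φ i a * f a) = ∑ a, (-(∑ i, (y i - 1) * Φ i a)) * f a := by
    simp_rw [Finset.mul_sum]
    rw [Finset.sum_comm]
    refine Finset.sum_congr rfl fun a _ => ?_
    rw [neg_mul, Finset.sum_mul, ← Finset.sum_neg_distrib]
    exact Finset.sum_congr rfl fun i _ => by ring
  rw [e]
  simp [h]

lemma logs {Φ : Matrix ι (Fin K) ℝ} {b w y : ι → ℝ} (hw : w ∈ Orth ι) (h : IsY Φ (sh b w) y) :
    ∃ f : Fin K → ℝ, (∀ i, Real.exp (-b i) * w i = y i * Real.exp (∑ a, Φ i a * f a)) ∧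
      ∀ i, Real.log (w i) - Real.log (y i) = b i + ∑ a, Φ i a * f a := by
  obtain ⟨hy, -, f, hf⟩ := h
  refine ⟨f, fun i => hf i, fun i => ?_⟩
  have h1 := congrArg Real.log (hf i)
  rw [sh, Real.log_mul (Real.exp_pos _).ne' (hw i).ne', Real.log_exp,
    Real.log_mul (hy i).ne' (Real.exp_pos _).ne', Real.log_exp] at h1
  linarith

/-- the subgradient inequality -/
lemma subgrad {Φ : Matrix ι (Fin K) ℝ} {b b' w y y' : ι → ℝ} (hw : w ∈ Orth ι)
    (h : IsY Φ (sh b w) y) (h' : IsY Φ (sh b' w) y') :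
    ∑ i, (y i + (Real.log (w i) - Real.log (y i))) + ∑ i, (1 - y i) * (b' i - b i) ≤
      ∑ i, (y' i + (Real.log (w i) - Real.log (y' i))) := by
  obtain ⟨f, -, hf⟩ := logs hw h
  obtain ⟨f', -, hf'⟩ := logs hw h'
  have ho := orth_sum h.2.1 (fun a => f' a - f a)
  have e : ∑ i, (1 - y i) * (b' i - b i) =
      ∑ i, (1 - y i) * ((Real.log (w i) - Real.log (y' i)) - (Real.log (w i) - Real.log (y i))) := by
    rw [← add_zero (∑ i, (1 - y i) * (b' i - b i)), ← ho, ← Finset.sum_add_distrib]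
    refine Finset.sum_congr rfl fun i _ => ?_
    rw [hf i, hf' i]
    have : ∑ a, Φ i a * (f' a - f a) = ∑ a, Φ i a * f' a - ∑ a, Φ i a * f a := by
      rw [← Finset.sum_sub_distrib]
      exact Finset.sum_congr rfl fun a _ => by ring
    rw [this]
    ring
  rw [e, ← Finset.sum_add_distrib]
  refine Finset.sum_le_sum fun i _ => ?_
  have hy := h.1 i
  have hy' := h'.1 i
  have h1 : Real.log (y' i) - Real.log (y i) ≤ y' i / y i - 1 := by
    rw [← Real.log_div hy'.ne' hy.ne']
    exact Real.log_le_sub_one_of_pos (div_pos hy' hy)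
  have h2 : y i * (Real.log (y' i) - Real.log (y i)) ≤ y' i - y i := by
    have := mul_le_mul_of_nonneg_left h1 hy.le
    rwa [mul_sub, mul_sub, mul_one, mul_div_cancel₀ _ hy.ne', ← mul_sub] at this
  nlinarith [h2]

lemma upper {Φ : Matrix ι (Fin K) ℝ} {b w y : ι → ℝ} (hw : w ∈ Orth ι)
    (h : IsY Φ (sh b w) y) :
    ∑ i, (y i + (Real.log (w i) - Real.log (y i))) ≤ ∑ i, (Real.exp (-b i) * w i + b i) := by
  obtain ⟨f, hf0, hf⟩ := logs hw h
  have ho := orth_sum h.2.1 f
  have key : ∀ i, (y i + (Real.log (w i) - Real.log (y i))) - (1 - y i) * (∑ a, Φ i a * f a) ≤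
      Real.exp (-b i) * w i + b i := by
    intro i
    rw [hf i, hf0 i]
    have hy := h.1 i
    have h1 := Real.add_one_le_exp (∑ a, Φ i a * f a)
    nlinarith [mul_le_mul_of_nonneg_left h1 hy.le]
  have := Finset.sum_le_sum (s := Finset.univ) fun i _ => key i
  rw [Finset.sum_sub_distrib, ho, sub_zero] at this
  exact this

lemma exp_two (u : ℝ) : 2 * u ≤ Real.exp u := by
  rcases le_or_gt u 0 with h | h
  · exact (by linarith : 2 * u ≤ 0).trans (Real.exp_pos _).le
  · have := Real.add_one_le_exp (u / 2)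
    have e : Real.exp u = Real.exp (u/2) ^ 2 := by rw [← Real.exp_nat_mul]; congr 1; push_cast; ring
    rw [e]
    nlinarith [sq_nonneg (u / 2 - 1)]

lemma lower {Φ : Matrix ι (Fin K) ℝ} {b w y : ι → ℝ} (hw : w ∈ Orth ι)
    (h : IsY Φ (sh b w) y) (hb : ∀ k, ∑ i, b i * Φ i k = 0) :
    ‖b‖ - 2 * ∑ i, |Real.log (w i)| ≤ ∑ i, (y i + (Real.log (w i) - Real.log (y i))) := by
  obtain ⟨f, hf0, hf⟩ := logs hw h
  set s : ι → ℝ := fun i => Real.log (w i) - Real.log (y i) with hs
  have h1 : ∀ i, |s i| - 2 * |Real.log (w i)| ≤ y i + s i := by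
    intro i
    have hy : y i = Real.exp (Real.log (w i) - s i) := by
      rw [hs]; simp only [sub_sub_cancel]; rw [Real.exp_log (h.1 i)]
    rcases le_or_gt 0 (s i) with h0 | h0
    · rw [abs_of_nonneg h0]
      have := h.1 i
      have := abs_nonneg (Real.log (w i))
      linarith
    · rw [abs_of_neg h0, hy]
      have := exp_two (Real.log (w i) - s i)
      have := neg_abs_le (Real.log (w i))
      linarith
  have h2 : ‖b‖ ≤ ∑ i, |s i| := by
    have e1 : ∑ i, b i * s i = ∑ i, b i ^ 2 := by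
      have : ∑ i, b i * (∑ a, Φ i a * f a) = 0 := by
        have e : ∑ i, b i * (∑ a, Φ i a * f a) = ∑ a, (∑ i, b i * Φ i a) * f a := by
          simp_rw [Finset.mul_sum]
          rw [Finset.sum_comm]
          refine Finset.sum_congr rfl fun a _ => ?_
          rw [Finset.sum_mul]
          exact Finset.sum_congr rfl fun i _ => by ring
        rw [e]; simp [hb]
      rw [← add_zero (∑ i, b i ^ 2), ← this, ← Finset.sum_add_distrib]
      refine Finset.sum_congr rfl fun i _ => ?_
      show b i * (Real.log (w i) - Real.log (y i)) = _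
      rw [hf i]; ring
    have e2 : ∑ i, b i * s i ≤ ‖b‖ * ∑ i, |s i| := by
      rw [Finset.mul_sum]
      refine Finset.sum_le_sum fun i _ => ?_
      calc b i * s i ≤ |b i * s i| := le_abs_self _
        _ = |b i| * |s i| := abs_mul _ _
        _ ≤ ‖b‖ * |s i| := by
          gcongr
          exact norm_le_pi_norm b i
    have e3 : ‖b‖ ^ 2 ≤ ∑ i, b i ^ 2 := by
      rcases isEmpty_or_nonempty ι with hI | hI
      · have : b = 0 := Subsingleton.elim _ _
        simp [this]
      · obtain ⟨i, -, hi⟩ := Finset.exists_max_image Finset.univ (fun i => |b i|) Finset.univ_nonempty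
        have : ‖b‖ ≤ |b i| := by
          rw [pi_norm_le_iff_of_nonneg (abs_nonneg _)]
          intro j
          exact hi j (Finset.mem_univ j)
        calc ‖b‖ ^ 2 ≤ |b i| ^ 2 := by gcongr
          _ = b i ^ 2 := sq_abs _
          _ ≤ ∑ i, b i ^ 2 :=
            Finset.single_le_sum (f := fun i => b i ^ 2) (fun j _ => sq_nonneg _) (Finset.mem_univ i)
    rcases (norm_nonneg b).eq_or_lt with h0 | h0
    · rw [← h0]; exact Finset.sum_nonneg fun i _ => abs_nonneg _
    · have : ‖b‖ * ‖b‖ ≤ ‖b‖ * ∑ i, |s i| := by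
        rw [← sq]; linarith
      exact le_of_mul_le_mul_left this h0
  calc ‖b‖ - 2 * ∑ i, |Real.log (w i)| ≤ ∑ i, |s i| - 2 * ∑ i, |Real.log (w i)| := by linarith
    _ = ∑ i, (|s i| - 2 * |Real.log (w i)|) := by
      rw [Finset.mul_sum, ← Finset.sum_sub_distrib]
    _ ≤ _ := Finset.sum_le_sum fun i _ => h1 i

end alg

section ana
variable {ι : Type} [Fintype ι] [DecidableEq ι] {K : ℕ}

lemma Yc_le {Φ : Matrix ι (Fin K) ℝ} {C : ℝ} (hC : Hbd Φ C) (hY : ∀ w ∈ Orth ι, IsY Φ w (Yc Φ w))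
    (w : ι → ℝ) (i : ι) : 0 < Yc Φ w i ∧ Yc Φ w i ≤ max C 1 := by
  by_cases hw : w ∈ Orth ι
  · exact ⟨(hY w hw).1 i, (hC w hw _ (hY w hw) i).trans (le_max_left _ _)⟩
  · have : Yc Φ w = fun _ => 1 := by
      unfold Yc
      rw [dif_neg]
      exact fun h => hw h.1
    rw [this]
    exact ⟨one_pos, le_max_right _ _⟩

noncomputable def psi (Φ : Matrix ι (Fin K) ℝ) (b w : ι → ℝ) : ℝ :=
  ∑ i, (Yc Φ (sh b w) i + (Real.log (w i) - Real.log (Yc Φ (sh b w) i)))

lemma sh_meas (b : ι → ℝ) : Measurable (sh b) := by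
  unfold sh
  fun_prop

lemma int_coord (hP : Stmt_PRB) (i : ι) : Integrable (fun w : ι → ℝ => w i) (Pw ι) ∧
    Integrable (fun w : ι → ℝ => Real.log (w i)) (Pw ι) := by
  obtain ⟨-, -, h1, h2, -⟩ := hP
  have hm : MeasurePreserving (Function.eval i) (Pw ι) e1 :=
    measurePreserving_eval (fun _ : ι => e1) i
  constructor
  · have := hm.integrable_comp_of_integrable (g := fun x : ℝ => x) (by simpa using h1 1)
    exact this
  · exact hm.integrable_comp_of_integrable (g := fun x : ℝ => Real.log x) h2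

lemma psi_meas {Φ : Matrix ι (Fin K) ℝ} (hm : Measurable (Yc Φ)) (b : ι → ℝ) :
    Measurable (psi Φ b) := by
  have h : Measurable fun w => Yc Φ (sh b w) := hm.comp (sh_meas b)
  unfold psi
  refine Finset.measurable_sum _ fun i _ => ?_
  have h1 : Measurable fun w => Yc Φ (sh b w) i := (measurable_pi_apply i).comp h
  exact h1.add (((measurable_pi_apply i).log).sub h1.log)

lemma psi_int (hP : Stmt_PRB) {Φ : Matrix ι (Fin K) ℝ} (hm : Measurable (Yc Φ))
    (hY : ∀ w ∈ Orth ι, IsY Φ w (Yc Φ w)) {b : ι → ℝ} (hb : ∀ k, ∑ i, b i * Φ i k = 0) :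
    Integrable (psi Φ b) (Pw ι) := by
  have hg : Integrable (fun w : ι → ℝ => ∑ i, (Real.exp (-b i) * |w i| + |b i|) +
      2 * ∑ i, |Real.log (w i)|) (Pw ι) := by
    refine Integrable.add (integrable_finsetSum _ fun i _ => ?_)
      (Integrable.const_mul (integrable_finsetSum _ fun i _ => ?_) _)
    · exact ((int_coord hP i).1.abs.const_mul _).add (integrable_const _)
    · exact (int_coord hP i).2.abs
  refine hg.mono' (psi_meas hm b).aestronglyMeasurable ?_
  filter_upwards [hP.2.1 ι] with w hw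
  have hI := hY _ (sh_orth (b := b) hw)
  have h1 := upper hw hI
  have h2 := lower hw hI hb
  rw [Real.norm_eq_abs, abs_le]
  have h3 : ∑ i, (Real.exp (-b i) * w i + b i) ≤ ∑ i, (Real.exp (-b i) * |w i| + |b i|) := by
    refine Finset.sum_le_sum fun i _ => ?_
    have := le_abs_self (w i)
    have := le_abs_self (b i)
    have := Real.exp_pos (-b i)
    nlinarith
  have h4 : 0 ≤ ∑ i, |Real.log (w i)| := Finset.sum_nonneg fun i _ => abs_nonneg _
  have h5 : 0 ≤ ∑ i, (Real.exp (-b i) * |w i| + |b i|) := Finset.sum_nonneg fun i _ => by positivity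
  have h6 := norm_nonneg b
  constructor
  · show _ ≤ psi Φ b w
    have : ‖b‖ - 2 * ∑ i, |Real.log (w i)| ≤ psi Φ b w := h2
    linarith
  · have : psi Φ b w ≤ ∑ i, (Real.exp (-b i) * w i + b i) := h1
    linarith

/-- Lipschitz bound -/
lemma psi_lip {Φ : Matrix ι (Fin K) ℝ} {C : ℝ} (hC : Hbd Φ C)
    (hY : ∀ w ∈ Orth ι, IsY Φ w (Yc Φ w)) (b b' w : ι → ℝ) (hw : w ∈ Orth ι) :
    psi Φ b w ≤ psi Φ b' w + max C 1 * ∑ i, |b' i - b i| := by
  have h := subgrad hw (hY _ (sh_orth (b := b) hw)) (hY _ (sh_orth (b := b') hw))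
  have h1 : -(max C 1 * ∑ i, |b' i - b i|) ≤ ∑ i, (1 - Yc Φ (sh b w) i) * (b' i - b i) := by
    rw [Finset.mul_sum, ← Finset.sum_neg_distrib]
    refine Finset.sum_le_sum fun i _ => ?_
    have h2 := Yc_le hC hY (sh b w) i
    have h3 : |1 - Yc Φ (sh b w) i| ≤ max C 1 := by
      rw [abs_le]
      have := le_max_right C 1
      constructor <;> linarith
    have h4 : |(1 - Yc Φ (sh b w) i) * (b' i - b i)| ≤ max C 1 * |b' i - b i| := by
      rw [abs_mul]; gcongr
    linarith [neg_abs_le ((1 - Yc Φ (sh b w) i) * (b' i - b i))]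
  have h' : psi Φ b w + ∑ i, (1 - Yc Φ (sh b w) i) * (b' i - b i) ≤ psi Φ b' w := h
  linarith

end ana

end BSTx

open BSTx in
theorem BST_thm (hYCO : Stmt_YCO) (hPRB : Stmt_PRB) : Stmt_BST := by
  intro ι _ _ K Φ C hΦ hex hC
  obtain ⟨hY, hcont, hmeas, -⟩ := hYCO ι K Φ C hΦ hex hC
  set N : Set (ι → ℝ) := {b | ∀ k, ∑ i, b i * Φ i k = 0} with hN
  set P : (ι → ℝ) → ℝ := fun b => ∫ w, psi Φ b w ∂Pw ι with hPdef
  have hNc : IsClosed N := by
    have : N = ⋂ k, {b | ∑ i, b i * Φ i k = 0} := by ext b; simp [hN]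
    rw [this]
    exact isClosed_iInter fun k => isClosed_eq (by fun_prop) continuous_const
  have hint : ∀ b ∈ N, Integrable (psi Φ b) (Pw ι) := fun b hb => psi_int hPRB hmeas hY hb
  set A : ℝ := ∫ w, 2 * ∑ i, |Real.log ((w : ι → ℝ) i)| ∂Pw ι with hA
  have hAi : Integrable (fun w : ι → ℝ => 2 * ∑ i, |Real.log (w i)|) (Pw ι) :=
    Integrable.const_mul (integrable_finsetSum _ fun i _ => (int_coord hPRB i).2.abs) _
  have hlow : ∀ b ∈ N, ‖b‖ - A ≤ P b := by
    intro b hb
    have h1 : ∫ w, (‖b‖ - 2 * ∑ i, |Real.log ((w : ι → ℝ) i)|) ∂Pw ι ≤ P b := by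
      refine integral_mono_ae ((integrable_const _).sub hAi) (hint b hb) ?_
      filter_upwards [hPRB.2.1 ι] with w hw
      exact lower hw (hY _ (sh_orth hw)) hb
    rw [integral_sub (integrable_const _) hAi] at h1
    simpa using h1
  have hlip : ∀ b ∈ N, ∀ b' ∈ N, P b ≤ P b' + max C 1 * ∑ i, |b' i - b i| := by
    intro b hb b' hb'
    have h1 : P b ≤ ∫ w, (psi Φ b' w + max C 1 * ∑ i, |b' i - b i|) ∂Pw ι := by
      refine integral_mono_ae (hint b hb) ((hint b' hb').add (integrable_const _)) ?_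
      filter_upwards [hPRB.2.1 ι] with w hw
      exact psi_lip hC hY b b' w hw
    rw [integral_add (hint b' hb') (integrable_const _)] at h1
    simpa using h1
  have hcontP : ContinuousOn P N := by
    intro b hb
    have ht : Filter.Tendsto (fun b' : ι → ℝ => max C 1 * ∑ i, |b' i - b i|) (𝓝[N] b) (𝓝 0) := by
      have hc : Continuous (fun b' : ι → ℝ => max C 1 * ∑ i, |b' i - b i|) := by fun_prop
      have := hc.tendsto b
      simp only [sub_self, abs_zero, Finset.sum_const_zero, mul_zero] at this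
      exact this.mono_left nhdsWithin_le_nhds
    rw [ContinuousWithinAt, tendsto_iff_dist_tendsto_zero]
    refine squeeze_zero' (Filter.Eventually.of_forall fun _ => dist_nonneg) ?_ ht
    filter_upwards [self_mem_nhdsWithin] with b' hb'
    rw [Real.dist_eq, abs_le]
    have h1 := hlip b hb b' hb'
    have h2 := hlip b' hb' b hb
    have h3 : ∑ i, |b i - b' i| = ∑ i, |b' i - b i| :=
      Finset.sum_congr rfl fun i _ => abs_sub_comm _ _
    rw [h3] at h2
    constructor <;> linarith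
  have h0 : (0 : ι → ℝ) ∈ N := by intro k; simp
  obtain ⟨b0, hb0, hmin⟩ : ∃ b ∈ N, IsMinOn P N b := by
    refine hcontP.exists_isMinOn' hNc h0 ?_
    have : ∀ᶠ x : ι → ℝ in Filter.cocompact (ι → ℝ), P 0 + A ≤ ‖x‖ :=
      tendsto_norm_cocompact_atTop.eventually_ge_atTop _
    filter_upwards [this.filter_mono inf_le_left, Filter.mem_inf_of_right (Filter.mem_principal_self N)]
      with x hx hxN
    linarith [hlow x hxN]
  refine ⟨b0, ?_⟩
  -- the first order condition
  have hYi : ∀ b i, Integrable (fun w => Yc Φ (sh b w) i) (Pw ι) := by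
    intro b i
    have hm1 : Measurable fun w => Yc Φ (sh b w) i :=
      (measurable_pi_apply i).comp (hmeas.comp (sh_meas b))
    refine Integrable.mono' (integrable_const (max C 1)) hm1.aestronglyMeasurable ?_
    refine Filter.Eventually.of_forall fun w => ?_
    have := Yc_le hC hY (sh b w) i
    rw [Real.norm_eq_abs, abs_of_pos this.1]; exact this.2
  have hfo : ∀ η ∈ N, 0 ≤ ∫ w, ∑ i, (1 - Yc Φ (sh b0 w) i) * η i ∂Pw ι := by
    intro η hη
    have hpos : ∀ t : ℝ, 0 < t →
        0 ≤ ∫ w, ∑ i, (1 - Yc Φ (sh (fun j => b0 j + t * η j) w) i) * η i ∂Pw ι := by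
      intro t ht
      set b1 : ι → ℝ := fun j => b0 j + t * η j with hb1
      have hb1N : b1 ∈ N := by
        intro k
        have : ∑ i, b1 i * Φ i k = ∑ i, b0 i * Φ i k + t * ∑ i, η i * Φ i k := by
          rw [Finset.mul_sum, ← Finset.sum_add_distrib]
          exact Finset.sum_congr rfl fun i _ => by rw [hb1]; ring
        rw [this, hb0 k, hη k]; simp
      have hI : Integrable (fun w => ∑ i, (1 - Yc Φ (sh b1 w) i) * η i) (Pw ι) :=
        integrable_finsetSum _ fun i _ => ((integrable_const _).sub (hYi b1 i)).mul_const _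
      have h1 : P b1 - t * ∫ w, ∑ i, (1 - Yc Φ (sh b1 w) i) * η i ∂Pw ι ≤ P b0 := by
        rw [← integral_const_mul, ← integral_sub (hint b1 hb1N) (hI.const_mul t)]
        refine integral_mono_ae ((hint b1 hb1N).sub (hI.const_mul t)) (hint b0 hb0) ?_
        filter_upwards [hPRB.2.1 ι] with w hw
        have h := subgrad hw (hY _ (sh_orth (b := b1) hw)) (hY _ (sh_orth (b := b0) hw))
        have e : ∑ i, (1 - Yc Φ (sh b1 w) i) * (b0 i - b1 i) =
            -(t * ∑ i, (1 - Yc Φ (sh b1 w) i) * η i) := by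
          rw [Finset.mul_sum, ← Finset.sum_neg_distrib]
          refine Finset.sum_congr rfl fun i _ => ?_
          simp only [hb1]; ring
        rw [e] at h
        exact h
      have h2 : P b0 ≤ P b1 := hmin hb1N
      by_contra hneg
      push Not at hneg
      nlinarith [mul_neg_of_pos_of_neg ht hneg]
    have hlim : Filter.Tendsto
        (fun n : ℕ => ∫ w, ∑ i, (1 - Yc Φ (sh (fun j => b0 j + (1 / ((n:ℝ) + 1)) * η j) w) i) * η i
          ∂Pw ι) Filter.atTop (𝓝 (∫ w, ∑ i, (1 - Yc Φ (sh b0 w) i) * η i ∂Pw ι)) := by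
      refine tendsto_integral_of_dominated_convergence (fun _ => ∑ i, max C 1 * |η i|) ?_ ?_ ?_ ?_
      · intro n
        exact (integrable_finsetSum _ fun i _ =>
          ((integrable_const _).sub (hYi _ i)).mul_const _).aestronglyMeasurable
      · exact integrable_const _
      · intro n
        refine Filter.Eventually.of_forall fun w => ?_
        refine (Finset.abs_sum_le_sum_abs _ _).trans (Finset.sum_le_sum fun i _ => ?_)
        rw [abs_mul]
        have h2 := Yc_le hC hY (sh (fun j => b0 j + (1 / ((n:ℝ) + 1)) * η j) w) i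
        have h3 : |1 - Yc Φ (sh (fun j => b0 j + (1 / ((n:ℝ) + 1)) * η j) w) i| ≤ max C 1 := by
          rw [abs_le]
          have := le_max_right C 1
          constructor <;> linarith
        gcongr
      · filter_upwards [hPRB.2.1 ι] with w hw
        have hsh : Filter.Tendsto (fun n : ℕ => sh (fun j => b0 j + (1 / ((n:ℝ) + 1)) * η j) w)
            Filter.atTop (𝓝[Orth ι] (sh b0 w)) := by
          refine tendsto_nhdsWithin_iff.mpr ⟨?_, Filter.Eventually.of_forall fun n => sh_orth hw⟩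
          rw [tendsto_pi_nhds]
          intro j
          have h1 : Filter.Tendsto (fun n : ℕ => (1:ℝ) / ((n:ℝ) + 1)) Filter.atTop (𝓝 0) :=
            tendsto_one_div_add_atTop_nhds_zero_nat
          have h2 : Filter.Tendsto (fun n : ℕ => Real.exp (-(b0 j + (1 / ((n:ℝ) + 1)) * η j)) * w j)
              Filter.atTop (𝓝 (Real.exp (-(b0 j + 0 * η j)) * w j)) := by
            refine Filter.Tendsto.mul_const _ ?_
            refine (Real.continuous_exp.tendsto _).comp ?_
            exact (tendsto_const_nhds.add (h1.mul_const _)).neg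
          simpa [sh] using h2
        have hYt := (hcont (sh b0 w) (sh_orth hw)).tendsto.comp hsh
        rw [tendsto_pi_nhds] at hYt
        refine tendsto_finsetSum _ fun i _ => ?_
        exact (tendsto_const_nhds.sub (hYt i)).mul_const _
    refine ge_of_tendsto' hlim fun n => hpos _ (by positivity)
  set g : ι → ℝ := fun i => ∫ w, (1 - Yc Φ (sh b0 w) i) ∂Pw ι with hg
  have hgN : g ∈ N := by
    intro k
    have e : ∑ i, g i * Φ i k = ∫ w, ∑ i, (1 - Yc Φ (sh b0 w) i) * Φ i k ∂Pw ι := by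
      rw [integral_finsetSum]
      · refine Finset.sum_congr rfl fun i _ => ?_
        rw [integral_mul_const]
      · exact fun i _ => ((integrable_const _).sub (hYi _ i)).mul_const _
    rw [e]
    have : (fun w => ∑ i, (1 - Yc Φ (sh b0 w) i) * Φ i k) =ᵐ[Pw ι] fun _ => 0 := by
      filter_upwards [hPRB.2.1 ι] with w hw
      have h1 := (hY _ (sh_orth (b := b0) hw)).2.1 k
      have : ∑ i, (1 - Yc Φ (sh b0 w) i) * Φ i k = -∑ i, (Yc Φ (sh b0 w) i - 1) * Φ i k := by
        rw [← Finset.sum_neg_distrib]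
        exact Finset.sum_congr rfl fun i _ => by ring
      rw [this, h1, neg_zero]
    rw [integral_congr_ae this]; simp
  have hnegN : (fun i => -g i) ∈ N := by
    intro k
    have : ∑ i, -g i * Φ i k = -∑ i, g i * Φ i k := by
      rw [← Finset.sum_neg_distrib]
      exact Finset.sum_congr rfl fun i _ => by ring
    rw [this, hgN k, neg_zero]
  have h1 := hfo _ hnegN
  have h2 : ∫ w, ∑ i, (1 - Yc Φ (sh b0 w) i) * -g i ∂Pw ι = -∑ i, g i ^ 2 := by
    rw [integral_finsetSum]
    · rw [← Finset.sum_neg_distrib]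
      refine Finset.sum_congr rfl fun i _ => ?_
      rw [integral_mul_const]
      show g i * -g i = _
      ring
    · exact fun i _ => ((integrable_const _).sub (hYi _ i)).mul_const _
  rw [h2] at h1
  have h3 : ∑ i, g i ^ 2 = 0 :=
    le_antisymm (by linarith) (Finset.sum_nonneg fun i _ => sq_nonneg _)
  intro i
  have h4 : g i ^ 2 = 0 := by
    have := (Finset.sum_eq_zero_iff_of_nonneg (fun i _ => sq_nonneg (g i))).mp h3 i (Finset.mem_univ i)
    exact this
  have h5 : g i = 0 := by simpa using h4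
  have h6 : g i = 1 - ∫ w, Yc Φ (sh b0 w) i ∂Pw ι := by
    rw [hg]; simp only
    rw [integral_sub (integrable_const _) (hYi _ i)]; simp
  have h7 : ∫ w, Yc Φ (sh b0 w) i ∂Pw ι = 1 := by linarith
  exact h7

end Pool.LIN
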