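import Pool.Agent.Work.MP_1c7b0d_lh73.Interface

/-! The exponential distribution (own definition), Huber function, trace functional. helper73 -/

open MeasureTheory Matrix Pool.LH60 Pool.LH73
open scoped BigOperators

namespace Pool.LIN

/-- standard exponential distribution: density `e^{-x}` on `(0,∞)` -/
noncomputable def e1 : Measure ℝ :=
  (volume.restrict (Set.Ioi 0)).withDensity (fun x => ENNReal.ofReal (Real.exp (-x)))

instance e1_prob : IsProbabilityMeasure e1 := by
  constructor
  unfold e1
  rw [withDensity_apply _ MeasurableSet.univ, Measure.restrict_univ,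
    ← ofReal_integral_eq_lintegral_ofReal]
  · rw [integral_exp_neg_Ioi_zero]; simp
  · exact exp_neg_integrableOn_Ioi 0 one_pos |>.congr (by simp)
  · exact Filter.Eventually.of_forall fun x => (Real.exp_pos _).le

/-- the product of exponential distributions -/
noncomputable def Pw (ι : Type) [Fintype ι] : Measure (ι → ℝ) := Measure.pi (fun _ => e1)

instance Pw_prob (ι : Type) [Fintype ι] : IsProbabilityMeasure (Pw ι) := by
  unfold Pw; infer_instance

/-- the open orthant -/
def Orth (ι : Type) : Set (ι → ℝ) := {w | ∀ i, 0 < w i}

/-- Huber function -/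
noncomputable def hub (t : ℝ) : ℝ := if |t| ≤ 1 then t ^ 2 / 2 else |t| - 1 / 2

/-- `tr hub(D - 1)` -/
noncomputable def GG {K : ℕ} (D : Matrix (Fin K) (Fin K) ℝ) : ℝ :=
  if h : D.IsHermitian then ∑ k, hub (h.eigenvalues k - 1) else 0

end Pool.LIN
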