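import Pool.Agent.Work.MP_1c7b0d_lin.Interface

/-! Block CHA (helper45): second differences of `Fs`. -/

open MeasureTheory Matrix Pool.LH60 Pool.LH73
open scoped BigOperators

namespace Pool.LIN

namespace CHA

/-- the elementary part of `Fs` -/
noncomputable def Lf (u : ℝ) : ℝ := (u - 1) / 2 * Real.log (1 - 1/u) + u

noncomputable def Lf' (u : ℝ) : ℝ := Real.log (1 - 1/u) / 2 + 1 / (2 * u) + 1

theorem hasDerivAt_one_sub {u : ℝ} (hu : 1 < u) :
    HasDerivAt (fun x : ℝ => 1 - 1/x) (1 / u^2) u := by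
  have h0 : u ≠ 0 := by linarith
  have h1 : HasDerivAt (fun x : ℝ => x⁻¹) (-(u^2)⁻¹) u := hasDerivAt_inv h0
  have h2 := h1.const_sub 1
  simp only [one_div]
  have h3 : - -(u^2)⁻¹ = (u^2)⁻¹ := neg_neg _
  rw [h3] at h2
  exact h2

theorem pos_one_sub {u : ℝ} (hu : 1 < u) : 0 < 1 - 1/u := by
  have h0 : 0 < u := by linarith
  rw [sub_pos, div_lt_one h0]
  exact hu

theorem hasDerivAt_log {u : ℝ} (hu : 1 < u) :
    HasDerivAt (fun x : ℝ => Real.log (1 - 1/x)) (1 / (u * (u - 1))) u := by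
  have h := (hasDerivAt_one_sub hu).log (pos_one_sub hu).ne'
  have h0 : u ≠ 0 := by linarith
  have h1 : u - 1 ≠ 0 := by linarith
  have h2 : 1 / u^2 / (1 - 1/u) = 1 / (u * (u - 1)) := by
    have h3 : 1 - 1/u = (u - 1) / u := by field_simp
    rw [h3]
    field_simp
  rw [h2] at h
  exact h

theorem hasDerivAt_Lf {u : ℝ} (hu : 1 < u) : HasDerivAt Lf (Lf' u) u := by
  have h0 : u ≠ 0 := by linarith
  have h1 : u - 1 ≠ 0 := by linarith
  have h2 : HasDerivAt (fun x : ℝ => (x - 1) / 2) (1 / 2) u :=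
    ((hasDerivAt_id u).sub_const 1).div_const 2
  have h3 := (h2.mul (hasDerivAt_log hu)).add (hasDerivAt_id u)
  have h4 : 1 / 2 * Real.log (1 - 1/u) + (u - 1) / 2 * (1 / (u * (u - 1))) + 1 = Lf' u := by
    unfold Lf'
    field_simp
  rw [← h4]
  exact h3

theorem hasDerivAt_inv2 {u : ℝ} (hu : 1 < u) :
    HasDerivAt (fun x : ℝ => 1 / (2 * x)) (- (1 / (2 * u^2))) u := by
  have h0 : u ≠ 0 := by linarith
  have h1 : HasDerivAt (fun x : ℝ => x⁻¹) (-(u^2)⁻¹) u := hasDerivAt_inv h0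
  have h2 := h1.const_mul (1/2)
  have h3 : (1/2 : ℝ) * (-(u^2)⁻¹) = - (1 / (2 * u^2)) := by
    field_simp
  rw [h3] at h2
  have h4 : (fun x : ℝ => 1 / (2 * x)) = fun x => (1/2) * x⁻¹ := by
    funext x
    rw [one_div, mul_inv]
    ring
  rw [h4]
  exact h2

theorem hasDerivAt_Lf' {u : ℝ} (hu : 1 < u) :
    HasDerivAt Lf' (1 / (2 * u^2 * (u - 1))) u := by
  have h0 : u ≠ 0 := by linarith
  have h1 : u - 1 ≠ 0 := by linarith
  have h3 := (((hasDerivAt_log hu).div_const 2).add (hasDerivAt_inv2 hu)).add_const 1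
  have h4 : 1 / (u * (u - 1)) / 2 + - (1 / (2 * u^2)) = 1 / (2 * u^2 * (u - 1)) := by
    field_simp
    ring
  rw [← h4]
  exact h3

theorem interior_Ici2 : interior (Set.Ici (2:ℝ)) = Set.Ioi 2 := interior_Ici

theorem hasDerivAt_c {c u : ℝ} (hu : 1 < u) :
    HasDerivAt (fun x : ℝ => Lf x - c / x) (Lf' u + c / u^2) u := by
  have h0 : u ≠ 0 := by linarith
  have h1 : HasDerivAt (fun x : ℝ => x⁻¹) (-(u^2)⁻¹) u := hasDerivAt_inv h0
  have h2 := (hasDerivAt_Lf hu).sub (h1.const_mul c)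
  have h3 : Lf' u - c * (-(u^2)⁻¹) = Lf' u + c / u^2 := by
    rw [div_eq_mul_inv]
    ring
  rw [h3] at h2
  exact h2

theorem hasDerivAt_c' {c u : ℝ} (hu : 1 < u) :
    HasDerivAt (fun x : ℝ => Lf' x + c / x^2) (1 / (2 * u^2 * (u - 1)) - 2 * c / u^3) u := by
  have h0 : u ≠ 0 := by linarith
  have h1 : HasDerivAt (fun x : ℝ => (x^2)⁻¹) (-(2 * u) / (u^2)^2) u := by
    have h5 : HasDerivAt (fun x : ℝ => x^2) (2 * u) u := by
      have := hasDerivAt_pow 2 u
      simpa using this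
    exact h5.fun_inv (pow_ne_zero 2 h0)
  have h2 := (hasDerivAt_Lf' hu).add (h1.const_mul c)
  have h3 : 1 / (2 * u^2 * (u - 1)) + c * (-(2 * u) / (u^2)^2) =
      1 / (2 * u^2 * (u - 1)) - 2 * c / u^3 := by
    field_simp
    ring
  rw [h3] at h2
  exact h2

theorem cont_c (c : ℝ) : ContinuousOn (fun x : ℝ => Lf x - c / x) (Set.Ici 2) := by
  intro x hx
  have hx2 : (2:ℝ) ≤ x := hx
  exact (hasDerivAt_c (by linarith)).continuousAt.continuousWithinAt

theorem convex_part : ConvexOn ℝ (Set.Ici (2:ℝ)) (fun x => Lf x - (1/4) / x) := by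
  refine convexOn_of_hasDerivWithinAt2_nonneg (convex_Ici 2) (cont_c _)
    (f' := fun x => Lf' x + (1/4) / x^2)
    (f'' := fun u => 1 / (2 * u^2 * (u - 1)) - 2 * (1/4) / u^3) ?_ ?_ ?_
  · intro x hx
    rw [interior_Ici2] at hx
    have hx2 : (2:ℝ) < x := hx
    exact (hasDerivAt_c (by linarith)).hasDerivWithinAt
  · intro x hx
    rw [interior_Ici2] at hx
    have hx2 : (2:ℝ) < x := hx
    exact (hasDerivAt_c' (by linarith)).hasDerivWithinAt
  · intro x hx
    rw [interior_Ici2] at hx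
    have hx2 : (2:ℝ) < x := hx
    have h0 : 0 < x := by linarith
    have h1 : 0 < x - 1 := by linarith
    have h2 : 1 / (2 * x^2 * (x - 1)) - 2 * (1/4) / x^3 = 1 / (2 * x^3 * (x - 1)) := by
      field_simp
      ring
    rw [h2]
    positivity

theorem concave_part : ConcaveOn ℝ (Set.Ici (2:ℝ)) (fun x => Lf x - (1/2) / x) := by
  refine concaveOn_of_hasDerivWithinAt2_nonpos (convex_Ici 2) (cont_c _)
    (f' := fun x => Lf' x + (1/2) / x^2)
    (f'' := fun u => 1 / (2 * u^2 * (u - 1)) - 2 * (1/2) / u^3) ?_ ?_ ?_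
  · intro x hx
    rw [interior_Ici2] at hx
    have hx2 : (2:ℝ) < x := hx
    exact (hasDerivAt_c (by linarith)).hasDerivWithinAt
  · intro x hx
    rw [interior_Ici2] at hx
    have hx2 : (2:ℝ) < x := hx
    exact (hasDerivAt_c' (by linarith)).hasDerivWithinAt
  · intro x hx
    rw [interior_Ici2] at hx
    have hx2 : (2:ℝ) < x := hx
    have h0 : 0 < x := by linarith
    have h1 : 0 < x - 1 := by linarith
    have h2 : 1 / (2 * x^2 * (x - 1)) - 2 * (1/2) / x^3 = -((x - 2) / (2 * x^3 * (x - 1))) := by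
      field_simp
      ring
    rw [h2, neg_nonpos]
    apply div_nonneg (by linarith)
    positivity

theorem diff_mu {u : ℝ} (hu : 0 < u) : DifferentiableAt ℝ mu u := by
  have h1 : DifferentiableAt ℝ Real.Gamma u :=
    Real.differentiableAt_Gamma fun m h => by
      have h2 : (0:ℝ) ≤ (m:ℝ) := Nat.cast_nonneg m
      linarith
  have h2 : DifferentiableAt ℝ (fun x => Real.log (Real.Gamma x)) u :=
    h1.log (Real.Gamma_pos_of_pos hu).ne'
  have h3 : DifferentiableAt ℝ (fun x : ℝ => (x - 1/2) * Real.log x) u :=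
    (differentiableAt_id.sub_const _).mul (Real.differentiableAt_log hu.ne')
  exact ((h2.sub h3).add differentiableAt_id).sub_const _

end CHA

open CHA in
theorem CHA_thm (hGM2 : Stmt_GM2) : Stmt_CHA := by
  obtain ⟨hc1, hc2⟩ := hGM2
  have hsub : Set.Ici (2:ℝ) ⊆ Set.Ioi 0 := fun x hx => by
    have h : (2:ℝ) ≤ x := hx
    exact lt_of_lt_of_le (by norm_num) h
  have hd1 := hc1.subset hsub (convex_Ici 2)
  have hd2 := hc2.subset hsub (convex_Ici 2)
  refine ⟨?_, ?_, ?_⟩
  · have h := (convex_part.add hd2).add_const (-(Real.log (2 * Real.pi) / 2))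
    refine h.congr ?_
    intro x hx
    have hx2 : (2:ℝ) ≤ x := hx
    have h0 : x ≠ 0 := by linarith
    simp only [Pi.add_apply, Lf, Fs]
    field_simp
    ring
  · have h := (concave_part.add hd1.neg).add_const (-(Real.log (2 * Real.pi) / 2))
    refine h.congr ?_
    intro x hx
    have hx2 : (2:ℝ) ≤ x := hx
    have h0 : x ≠ 0 := by linarith
    simp only [Pi.add_apply, Pi.neg_apply, Lf, Fs]
    field_simp
    ring
  · intro u hu
    have h1 := ((hasDerivAt_Lf hu).sub_const (Real.log (2 * Real.pi) / 2)).sub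
      (diff_mu (by linarith : 0 < u)).hasDerivAt
    exact h1

end Pool.LIN
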