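import Pool.Agent.Work.MP_1c7b0d_lin.Interface

/-! CHI: the truncation `chi` is `C¹`. helper2 -/

open MeasureTheory Matrix Pool.LH60 Pool.LH73
open scoped BigOperators

namespace Pool.LIN

theorem CHI_thm : Stmt_CHI := by
  intro L hL
  refine ⟨?_, ?_, ?_⟩
  · intro t ht
    have htne : t ≠ 0 := ht.ne'
    refine ⟨?_, ?_, ?_, ?_, ?_, ?_, ?_, ?_⟩
    · -- the derivative
      have hbranch : ∀ s : ℝ, 0 < s →
          HasDerivAt (fun s : ℝ => 2 * L - L ^ 2 / s) (L ^ 2 / s ^ 2) s := by
        intro s hs
        have h1 : HasDerivAt (fun s : ℝ => s⁻¹) (-(s ^ 2)⁻¹) s := hasDerivAt_inv hs.ne'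
        have h2 := (h1.const_mul (L ^ 2)).const_sub (2 * L)
        have h3 : (fun s : ℝ => 2 * L - L ^ 2 / s) = fun s : ℝ => 2 * L - L ^ 2 * s⁻¹ := by
          funext s; rw [div_eq_mul_inv]
        rw [h3]
        have h4 : L ^ 2 / s ^ 2 = -(L ^ 2 * -(s ^ 2)⁻¹) := by rw [div_eq_mul_inv]; ring
        rw [h4]
        exact h2
      rcases lt_trichotomy t L with h | h | h
      · have h1 : chi' L t = 1 := by simp [chi', h.le]
        rw [h1]
        refine (hasDerivAt_id t).congr_of_eventuallyEq ?_
        filter_upwards [Iio_mem_nhds h] with s hs
        have hs' : s ≤ L := le_of_lt hs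
        simp [chi, hs']
      · subst h
        have h1 : chi' t t = 1 := by simp [chi']
        rw [h1]
        have hleft : HasDerivWithinAt (chi t) 1 (Set.Iic t) t := by
          refine (hasDerivAt_id t).hasDerivWithinAt.congr ?_ ?_
          · intro s hs
            have hs' : s ≤ t := hs
            simp [chi, hs']
          · simp [chi]
        have hright : HasDerivWithinAt (chi t) 1 (Set.Ici t) t := by
          have h2 := (hbranch t ht).hasDerivWithinAt (s := Set.Ici t)
          have h3 : t ^ 2 / t ^ 2 = (1:ℝ) := div_self (pow_ne_zero 2 htne)
          rw [h3] at h2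
          refine h2.congr ?_ ?_
          · intro s hs
            have hs' : t ≤ s := hs
            rcases eq_or_lt_of_le hs' with h4 | h4
            · subst h4
              have : chi t t = t := by simp [chi]
              rw [this]
              field_simp
              ring
            · simp [chi, not_le.mpr h4]
          · have : chi t t = t := by simp [chi]
            rw [this]
            field_simp
            ring
        have := hleft.union hright
        rwa [Set.Iic_union_Ici, hasDerivWithinAt_univ] at this
      · have h1 : chi' L t = L ^ 2 / t ^ 2 := by simp [chi', not_le.mpr h]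
        rw [h1]
        refine (hbranch t ht).congr_of_eventuallyEq ?_
        filter_upwards [Ioi_mem_nhds h] with s hs
        have hs' : ¬ s ≤ L := not_le.mpr hs
        simp [chi, hs']
    · unfold chi
      split_ifs with h
      · exact ht
      · push_neg at h
        have : L ^ 2 / t < L := by
          rw [div_lt_iff₀ ht]; nlinarith
        linarith
    · unfold chi
      split_ifs with h
      · exact le_rfl
      · have h2 : 2 * L - t ≤ L ^ 2 / t := by
          rw [le_div_iff₀ ht]; nlinarith [sq_nonneg (L - t)]
        linarith
    · unfold chi
      split_ifs with h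
      · linarith
      · have : 0 ≤ L ^ 2 / t := by positivity
        linarith
    · unfold chi'
      split_ifs with h
      · exact one_pos
      · positivity
    · unfold chi'
      split_ifs with h
      · exact le_rfl
      · push_neg at h
        rw [div_le_one (by positivity)]
        nlinarith
    · intro h
      simp [chi, chi', h]
    · intro h
      have h' : ¬ t ≤ L := not_le.mpr h
      simp only [chi, h', if_false]
      have h2 : 2 * L - t < L ^ 2 / t := by
        rw [lt_div_iff₀ ht]; nlinarith [mul_pos (sub_pos.mpr h) (sub_pos.mpr h)]
      linarith
  · unfold chi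
    exact Measurable.ite measurableSet_Iic measurable_id
      (measurable_const.sub (measurable_const.div measurable_id))
  · unfold chi'
    exact Measurable.ite measurableSet_Iic measurable_const
      (measurable_const.div (measurable_id.pow_const 2))

end Pool.LIN
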