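import Pool.Agent.Work.MP_1c7b0d_lin.Interface

/-! Block CHO: the chord of `Fs` between `q+1` and `q+2`. helper17 -/

open MeasureTheory Matrix Pool.LH60 Pool.LH73
open scoped BigOperators

namespace Pool.LIN
namespace CHO

/-- the chord bound for `x` outside `[a, a+1]` -/
lemma out (hG : ConvexOn ℝ (Set.Ici 2) (fun u => Fs u - 1 / (6 * u))) (a x : ℝ) (ha : 2 ≤ a)
    (hx : 2 ≤ x) (h : x < a ∨ a + 1 < x) :
    Fs a + (Fs (a + 1) - Fs a) * (x - a) + (x - a) * (x - (a + 1)) / (6 * a * (a + 1) * x)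
      ≤ Fs x := by
  have ha0 : (0:ℝ) < a := by linarith
  have hb0 : (0:ℝ) < a + 1 := by linarith
  have hx0 : (0:ℝ) < x := by linarith
  have key : ∀ G : ℝ → ℝ, ConvexOn ℝ (Set.Ici 2) G →
      G a + (x - a) * (G (a + 1) - G a) ≤ G x := by
    intro G hG
    have hG2 := hG.2
    rcases h with h | h
    · -- x < a < a+1
      have h1 := @hG2 x (show x ∈ Set.Ici (2:ℝ) from hx) (a + 1)
        (show a + 1 ∈ Set.Ici (2:ℝ) by simp only [Set.mem_Ici]; linarith)
        (1 / (a + 1 - x)) ((a - x) / (a + 1 - x))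
        (by apply le_of_lt; apply div_pos <;> linarith)
        (by apply div_nonneg <;> linarith)
        (by rw [← add_div]; rw [div_eq_one_iff_eq (by linarith)]; ring)
      have hne : a + 1 - x ≠ 0 := by linarith
      have h2 : (1 / (a + 1 - x)) • x + ((a - x) / (a + 1 - x)) • (a + 1) = a := by
        simp only [smul_eq_mul]
        field_simp
        ring
      rw [h2] at h1
      simp only [smul_eq_mul] at h1
      have h3 : 1 / (a + 1 - x) * G x + (a - x) / (a + 1 - x) * G (a + 1)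
          = (G x + (a - x) * G (a + 1)) / (a + 1 - x) := by
        field_simp
      rw [h3, le_div_iff₀ (by linarith)] at h1
      nlinarith [h1]
    · have h1 := @hG2 a (show a ∈ Set.Ici (2:ℝ) from ha) x
        (show x ∈ Set.Ici (2:ℝ) from hx)
        ((x - (a + 1)) / (x - a)) (1 / (x - a))
        (by apply div_nonneg <;> linarith)
        (by apply le_of_lt; apply div_pos <;> linarith)
        (by rw [← add_div]; rw [div_eq_one_iff_eq (by linarith)]; ring)
      have hne : x - a ≠ 0 := by linarith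
      have h2 : ((x - (a + 1)) / (x - a)) • a + (1 / (x - a)) • x = a + 1 := by
        simp only [smul_eq_mul]
        field_simp
        ring
      rw [h2] at h1
      simp only [smul_eq_mul] at h1
      have h3 : (x - (a + 1)) / (x - a) * G a + 1 / (x - a) * G x
          = ((x - (a + 1)) * G a + G x) / (x - a) := by
        field_simp
      rw [h3, le_div_iff₀ (by linarith)] at h1
      nlinarith [h1]
  have h1 := key _ hG
  have h2 : (x - a) * (x - (a + 1)) / (6 * a * (a + 1) * x)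
      = 1 / (6 * x) - 1 / (6 * a) + (x - a) * (1 / (6 * a) - 1 / (6 * (a + 1))) := by
    field_simp
    ring
  rw [h2]
  nlinarith [h1]

/-- the chord bounds inside `[a, a+1]` -/
lemma inn (hG : ConvexOn ℝ (Set.Ici 2) (fun u => Fs u - 1 / (6 * u)))
    (hH : ConcaveOn ℝ (Set.Ici 2) (fun u => Fs u - 1 / (2 * u))) (a x : ℝ) (ha : 2 ≤ a)
    (h1 : a ≤ x) (h2 : x ≤ a + 1) :
    Fs x ≤ Fs a + (Fs (a + 1) - Fs a) * (x - a) ∧
    Fs a + (Fs (a + 1) - Fs a) * (x - a) - (x - a) * (a + 1 - x) / (2 * a * (a + 1) * x)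
      ≤ Fs x := by
  have ha0 : (0:ℝ) < a := by linarith
  have hb0 : (0:ℝ) < a + 1 := by linarith
  have hx0 : (0:ℝ) < x := by linarith
  have hG2 := hG.2
  have hH2 := hH.2
  have hconv := @hG2 a (show a ∈ Set.Ici (2:ℝ) from ha) (a + 1)
    (show a + 1 ∈ Set.Ici (2:ℝ) by simp only [Set.mem_Ici]; linarith)
    (a + 1 - x) (x - a) (by linarith) (by linarith) (by ring)
  have hconc := @hH2 a (show a ∈ Set.Ici (2:ℝ) from ha) (a + 1)
    (show a + 1 ∈ Set.Ici (2:ℝ) by simp only [Set.mem_Ici]; linarith)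
    (a + 1 - x) (x - a) (by linarith) (by linarith) (by ring)
  have hx : (a + 1 - x) • a + (x - a) • (a + 1) = x := by
    simp only [smul_eq_mul]; ring
  rw [hx] at hconv hconc
  simp only [smul_eq_mul] at hconv hconc
  have hid : (a + 1 - x) * (1 / a) + (x - a) * (1 / (a + 1)) - 1 / x
      = (x - a) * (a + 1 - x) / (a * (a + 1) * x) := by
    field_simp
    ring
  have hpos : 0 ≤ (x - a) * (a + 1 - x) / (a * (a + 1) * x) := by
    apply div_nonneg
    · exact mul_nonneg (by linarith) (by linarith)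
    · positivity
  have e6 : ∀ u : ℝ, 1 / (6 * u) = 1 / 6 * (1 / u) := fun u => by
    rw [one_div_mul_one_div]
  have e2 : ∀ u : ℝ, 1 / (2 * u) = 1 / 2 * (1 / u) := fun u => by
    rw [one_div_mul_one_div]
  have e3 : (x - a) * (a + 1 - x) / (2 * a * (a + 1) * x)
      = 1 / 2 * ((x - a) * (a + 1 - x) / (a * (a + 1) * x)) := by
    field_simp
  rw [e6, e6, e6] at hconv
  rw [e2, e2, e2] at hconc
  rw [e3, ← hid]
  rw [← hid] at hpos
  constructor
  · nlinarith [hconv, hpos]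
  · nlinarith [hconc, hpos]

lemma quant (q x ms : ℝ) (hq : 10 ≤ q) (h1 : q + 1 ≤ ms) (h2 : ms ≤ q + 2)
    (hx0 : q / 2 ≤ x) (hx1 : x ≤ 2 * q) (h : x ≤ q ∨ q + 3 ≤ x) :
    (x - ms)^2 / (200 * q^3) ≤
      (x - (q + 1)) * (x - (q + 1 + 1)) / (6 * (q + 1) * (q + 1 + 1) * x) := by
  have hq0 : (0:ℝ) < q := by linarith
  have hx : (0:ℝ) < x := by linarith
  have hA : (x - ms)^2 ≤ 2 * ((x - (q + 1)) * (x - (q + 1 + 1))) := by
    rcases h with h | h
    · nlinarith [mul_nonneg (sub_nonneg.2 h1) (sub_nonneg.2 h2)]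
    · nlinarith [mul_nonneg (sub_nonneg.2 h1) (sub_nonneg.2 h2)]
  have hB : 6 * (q + 1) * (q + 1 + 1) * x ≤ 100 * q^3 := by
    have h3 : (q + 1) * (q + 1 + 1) ≤ 2 * q^2 := by nlinarith
    have h4 : (q + 1) * (q + 1 + 1) * x ≤ 2 * q^2 * (2 * q) :=
      mul_le_mul h3 hx1 hx.le (by positivity)
    nlinarith [pow_pos hq0 3]
  have hP : 0 ≤ (x - (q + 1)) * (x - (q + 1 + 1)) := by nlinarith [sq_nonneg (x - ms)]
  calc (x - ms)^2 / (200 * q^3)
      ≤ 2 * ((x - (q + 1)) * (x - (q + 1 + 1))) / (200 * q^3) :=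
        div_le_div_of_nonneg_right hA (by positivity)
    _ = (x - (q + 1)) * (x - (q + 1 + 1)) / (100 * q^3) := by
        field_simp; ring
    _ ≤ (x - (q + 1)) * (x - (q + 1 + 1)) / (6 * (q + 1) * (q + 1 + 1) * x) :=
        div_le_div_of_nonneg_left hP (by positivity) hB

end CHO

open CHO in
theorem CHO_thm (hCHA : Stmt_CHA) (hTDE : Stmt_TDE) : Stmt_CHO := by
  obtain ⟨hG, hH, hD⟩ := hCHA
  intro q hq
  have hq' : (10:ℝ) ≤ (q:ℝ) := by exact_mod_cast hq
  have hq0 : (0:ℝ) < (q:ℝ) := by linarith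
  obtain ⟨ms, hms, hd⟩ := exists_hasDerivAt_eq_slope Fs
    (fun u => Real.log (1 - 1/u) / 2 + 1 / (2 * u) + 1 - deriv mu u)
    (show (q:ℝ) + 1 < (q:ℝ) + 2 by linarith)
    (fun u hu => (hD u (by have := hu.1; linarith)).continuousAt.continuousWithinAt)
    (fun u hu => hD u (by have := hu.1; linarith))
  have hb : (q:ℝ) + 2 = (q:ℝ) + 1 + 1 := by ring
  have hla : la q = Fs ((q:ℝ) + 1 + 1) - Fs ((q:ℝ) + 1) := by unfold la; rw [hb]
  have hslope : (Fs ((q:ℝ) + 2) - Fs ((q:ℝ) + 1)) / ((q:ℝ) + 2 - ((q:ℝ) + 1)) = la q := by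
    unfold la
    rw [show ((q:ℝ) + 2 - ((q:ℝ) + 1)) = 1 by ring, div_one]
  have hch : ∀ u, ch q u = Fs ((q:ℝ) + 1) + (Fs ((q:ℝ) + 1 + 1) - Fs ((q:ℝ) + 1)) * (u - ((q:ℝ) + 1)) := by
    intro u; unfold ch; rw [hla]
  have hin := inn hG hH ((q:ℝ) + 1) ms (by linarith) hms.1.le (by have := hms.2.le; linarith)
  refine ⟨ms, deriv mu ms, hms.1.le, hms.2.le, (hTDE ms (by have := hms.1; linarith)).2, ?_, ?_, ?_, ?_⟩
  · rw [← hslope]; exact hd
  · rw [hch]
    refine le_trans ?_ hin.2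
    have h1 : (ms - ((q:ℝ) + 1)) * ((q:ℝ) + 1 + 1 - ms) / (2 * ((q:ℝ) + 1) * ((q:ℝ) + 1 + 1) * ms)
        ≤ 1 / (q:ℝ)^3 := by
      have hm1 := hms.1
      have hm2 := hms.2
      have hms0 : 0 < ms := by linarith
      rw [div_le_div_iff₀ (by positivity) (by positivity)]
      have hA : (ms - ((q:ℝ) + 1)) * ((q:ℝ) + 1 + 1 - ms) ≤ 1 := by nlinarith
      have hB : (q:ℝ)^3 ≤ 2 * ((q:ℝ) + 1) * ((q:ℝ) + 1 + 1) * ms := by
        have h3 : (q:ℝ)^2 ≤ 2 * ((q:ℝ) + 1) * ((q:ℝ) + 1 + 1) := by nlinarith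
        calc (q:ℝ)^3 = (q:ℝ)^2 * q := by ring
          _ ≤ _ := mul_le_mul h3 (by linarith) hq0.le (by positivity)
      calc (ms - ((q:ℝ) + 1)) * ((q:ℝ) + 1 + 1 - ms) * (q:ℝ)^3 ≤ 1 * (q:ℝ)^3 :=
            mul_le_mul_of_nonneg_right hA (by positivity)
        _ ≤ _ := by linarith
    linarith
  · rw [hch]; exact hin.1
  · intro j hj1 hj2
    have hj0 : (2:ℝ) ≤ (j:ℝ) := by linarith
    rcases eq_or_ne j (q + 1) with h | h
    · subst h
      refine ⟨?_, fun h => absurd (by push_cast; ring) h⟩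
      rw [hch]; push_cast; simp
    rcases eq_or_ne j (q + 2) with h' | h'
    · subst h'
      refine ⟨?_, fun _ h => absurd (by push_cast; ring) h⟩
      have hc : (((q + 2 : ℕ) : ℝ)) = (q:ℝ) + 1 + 1 := by push_cast; ring
      rw [hch, hc]
      apply le_of_eq
      ring
    have hcase : (j:ℝ) ≤ q ∨ (q:ℝ) + 3 ≤ j := by
      rcases Nat.lt_or_ge j (q + 1) with h3 | h3
      · left; exact_mod_cast (by omega : j ≤ q)
      · right; exact_mod_cast (by omega : q + 3 ≤ j)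
    have h1 := out hG ((q:ℝ) + 1) j (by linarith) hj0 (by
      rcases hcase with h | h
      · left; linarith
      · right; linarith)
    have h2 := quant q j ms hq' hms.1.le (by have := hms.2.le; linarith) hj1 hj2 hcase
    have h3 : 0 ≤ ((j:ℝ) - ms)^2 / (200 * (q:ℝ)^3) := by positivity
    rw [← hch] at h1
    exact ⟨by linarith, fun _ _ => by linarith⟩

end Pool.LIN
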