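import Pool.Agent.Work.MP_1c7b0d_lin.Interface

/-! Block CL1: the dichotomy for good rows. helper12 -/

open MeasureTheory Matrix Pool.LH60 Pool.LH73
open scoped BigOperators

namespace Pool.LIN

namespace CL1

section
set_option linter.unusedSectionVars false
variable {ι : Type} [Fintype ι] [DecidableEq ι] {K : ℕ}

theorem pp_comm (Φ : Matrix ι (Fin K) ℝ) (i j : ι) : pp Φ i j = pp Φ j i := by
  unfold pp
  exact Finset.sum_congr rfl fun k _ => mul_comm _ _

theorem pp_sq_le (Φ : Matrix ι (Fin K) ℝ) (i j : ι) :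
    (pp Φ i j)^2 ≤ cn Φ i * cn Φ j := by
  unfold pp cn
  exact Finset.sum_mul_sq_le_sq_mul_sq _ _ _

theorem pp_diff_sq_le (Φ : Matrix ι (Fin K) ℝ) (i j k : ι) :
    (pp Φ k j - pp Φ k i)^2 ≤ cn Φ k * ds Φ i j := by
  have h : pp Φ k j - pp Φ k i = ∑ l, Φ k l * (Φ j l - Φ i l) := by
    unfold pp
    rw [← Finset.sum_sub_distrib]
    exact Finset.sum_congr rfl fun l _ => by ring
  have h2 : ds Φ i j = ∑ l, (Φ j l - Φ i l)^2 :=
    Finset.sum_congr rfl fun l _ => by ring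
  rw [h, h2]
  unfold cn
  exact Finset.sum_mul_sq_le_sq_mul_sq _ _ _

theorem tri_a (Φ : Matrix ι (Fin K) ℝ) (i j k : ι) :
    3/4 * ds Φ i k - 3 * ds Φ i j ≤ ds Φ k j := by
  unfold ds
  rw [Finset.mul_sum, Finset.mul_sum, ← Finset.sum_sub_distrib]
  refine Finset.sum_le_sum fun l _ => ?_
  nlinarith [sq_nonneg ((Φ k l - Φ j l) - 3 * (Φ j l - Φ i l))]

theorem cn_le (Φ : Matrix ι (Fin K) ℝ) (i j : ι) :
    cn Φ j ≤ 21/20 * cn Φ i + 21 * ds Φ i j := by
  unfold cn ds
  rw [Finset.mul_sum, Finset.mul_sum, ← Finset.sum_add_distrib]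
  refine Finset.sum_le_sum fun l _ => ?_
  nlinarith [sq_nonneg (Φ i l + 20 * (Φ i l - Φ j l))]

theorem ds_nonneg (Φ : Matrix ι (Fin K) ℝ) (i j : ι) : 0 ≤ ds Φ i j :=
  Finset.sum_nonneg fun _ _ => sq_nonneg _

theorem cn_nonneg (Φ : Matrix ι (Fin K) ℝ) (i : ι) : 0 ≤ cn Φ i :=
  Finset.sum_nonneg fun _ _ => sq_nonneg _

end

end CL1

open CL1 in
theorem CL1_thm (hDEF1 : Stmt_DEF1) : Stmt_CL1 := by
  intro ι _ _ K Φ m hΦ hm i k hi hk
  obtain ⟨h1, -, -, -, -, -⟩ := hDEF1 ι K Φ hΦ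
  have hm0 : (0:ℝ) < m := by linarith
  have hrow : ∀ i, Gr Φ m i → ∑ j, (m * pp Φ i j)^2 * (m * ds Φ i j) ≤ m / 50000 := by
    intro i hg
    have e : ∑ j, (m * pp Φ i j)^2 * (m * ds Φ i j) = 2 * m * (m^2 * Dr Φ i) := by
      unfold Dr
      rw [mul_div_assoc', mul_div_assoc', Finset.mul_sum, Finset.mul_sum, eq_div_iff (by norm_num),
        Finset.sum_mul]
      exact Finset.sum_congr rfl fun j _ => by ring
    rw [e]
    have := mul_le_mul_of_nonneg_left hg.2 (by positivity : 0 ≤ 2 * m)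
    linarith
  have hci : 99/100 ≤ m * cn Φ i ∧ m * cn Φ i ≤ 101/100 := by
    have := abs_le.mp hi.1
    constructor <;> linarith [this.1, this.2]
  have hck : 99/100 ≤ m * cn Φ k ∧ m * cn Φ k ≤ 101/100 := by
    have := abs_le.mp hk.1
    constructor <;> linarith [this.1, this.2]
  by_contra hcon
  push Not at hcon
  obtain ⟨hcon1, hcon2⟩ := hcon
  have hpt : ∀ j, 7/10000 * ((m * pp Φ i j)^2 * (1 - 400 * (m * ds Φ i j))) ≤
      (m * pp Φ k j)^2 * (m * ds Φ k j) := by
    intro j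
    have hX : 0 ≤ m * ds Φ i j := mul_nonneg hm0.le (ds_nonneg _ _ _)
    have hXk : 0 ≤ m * ds Φ k j := mul_nonneg hm0.le (ds_nonneg _ _ _)
    by_cases hG : m * ds Φ i j ≤ 1/400
    · have hd := pp_diff_sq_le Φ i j k
      have hd' : (m * pp Φ k j - m * pp Φ k i)^2 ≤ 101/100 * (1/400) := by
        calc (m * pp Φ k j - m * pp Φ k i)^2 = m^2 * (pp Φ k j - pp Φ k i)^2 := by ring
          _ ≤ m^2 * (cn Φ k * ds Φ i j) := mul_le_mul_of_nonneg_left hd (by positivity)
          _ = (m * cn Φ k) * (m * ds Φ i j) := by ring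
          _ ≤ 101/100 * (1/400) := mul_le_mul hck.2 hG hX (by norm_num)
      have hqk : 1/4 < |m * pp Φ k i| := by rw [pp_comm]; exact hcon2
      have habs : |m * pp Φ k j - m * pp Φ k i| ≤ 503/10000 := by
        apply abs_le_of_sq_le_sq _ (by norm_num)
        refine hd'.trans (by norm_num)
      have hqj : 1996/10000 ≤ |m * pp Φ k j| := by
        have := abs_sub_abs_le_abs_sub (m * pp Φ k i) (m * pp Φ k j)
        rw [abs_sub_comm] at this
        linarith
      have hqj2 : 398/10000 ≤ (m * pp Φ k j)^2 := by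
        rw [← sq_abs (m * pp Φ k j)]
        nlinarith
      have hxk : 225/10000 ≤ m * ds Φ k j := by
        have ht := tri_a Φ i j k
        have := mul_le_mul_of_nonneg_left ht hm0.le
        nlinarith
      have hb : 398/10000 * (225/10000) ≤ (m * pp Φ k j)^2 * (m * ds Φ k j) :=
        mul_le_mul hqj2 hxk (by norm_num) (sq_nonneg _)
      have hcj : m * cn Φ j ≤ 1113/1000 := by
        have := mul_le_mul_of_nonneg_left (cn_le Φ i j) hm0.le
        nlinarith
      have hq2 : (m * pp Φ i j)^2 ≤ 1125/1000 := by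
        have h := mul_le_mul_of_nonneg_left (pp_sq_le Φ i j) (by positivity : 0 ≤ m^2)
        have h' : (m * pp Φ i j)^2 ≤ (m * cn Φ i) * (m * cn Φ j) := by
          calc (m * pp Φ i j)^2 = m^2 * (pp Φ i j)^2 := by ring
            _ ≤ m^2 * (cn Φ i * cn Φ j) := h
            _ = _ := by ring
        have h'' : (m * cn Φ i) * (m * cn Φ j) ≤ (101/100) * (1113/1000) :=
          mul_le_mul hci.2 hcj (mul_nonneg hm0.le (cn_nonneg _ _)) (by norm_num)
        linarith
      have hA : (m * pp Φ i j)^2 * (1 - 400 * (m * ds Φ i j)) ≤ 1125/1000 * 1 :=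
        mul_le_mul hq2 (by linarith) (by linarith) (by norm_num)
      calc 7/10000 * ((m * pp Φ i j)^2 * (1 - 400 * (m * ds Φ i j)))
          ≤ 7/10000 * (1125/1000 * 1) := mul_le_mul_of_nonneg_left hA (by norm_num)
        _ ≤ 398/10000 * (225/10000) := by norm_num
        _ ≤ _ := hb
    · push Not at hG
      have hneg : (m * pp Φ i j)^2 * (1 - 400 * (m * ds Φ i j)) ≤ 0 :=
        mul_nonpos_of_nonneg_of_nonpos (sq_nonneg _) (by linarith)
      have hpos : 0 ≤ (m * pp Φ k j)^2 * (m * ds Φ k j) := mul_nonneg (sq_nonneg _) hXk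
      linarith
  have hsum := Finset.sum_le_sum (s := (Finset.univ : Finset ι)) fun j _ => hpt j
  have e1 : ∑ j, 7/10000 * ((m * pp Φ i j)^2 * (1 - 400 * (m * ds Φ i j))) =
      7/10000 * (∑ j, (m * pp Φ i j)^2 - 400 * ∑ j, (m * pp Φ i j)^2 * (m * ds Φ i j)) := by
    rw [Finset.mul_sum (a := (400:ℝ)), ← Finset.sum_sub_distrib, Finset.mul_sum]
    exact Finset.sum_congr rfl fun j _ => by ring
  have e2 : ∑ j, (m * pp Φ i j)^2 = m * (m * cn Φ i) := by
    rw [← h1 i, Finset.mul_sum, Finset.mul_sum]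
    exact Finset.sum_congr rfl fun j _ => by ring
  rw [e1, e2] at hsum
  have hk' := hrow k hk
  have hi' := hrow i hi
  have hmc := mul_le_mul_of_nonneg_left hci.1 hm0.le
  nlinarith

end Pool.LIN
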