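import Pool.Agent.Work.MP_1c7b0d_lin.Interface

/-! Size, scatter and outer sum of a class of good rows (block CL2). helper66 -/

open MeasureTheory Matrix Pool.LH60 Pool.LH73
open scoped BigOperators

namespace Pool.LIN

theorem cl2_scalar {ι : Type} (B : Finset ι) (hB : B.Nonempty) (x : ι → ℝ) :
    (B.card : ℝ) * ∑ i ∈ B, (x i - (∑ j ∈ B, x j) / (B.card : ℝ))^2
      = (∑ i ∈ B, ∑ j ∈ B, (x i - x j)^2) / 2 := by
  have hn : (B.card : ℝ) ≠ 0 := by
    have := Finset.card_pos.mpr hB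
    positivity
  set S := ∑ j ∈ B, x j with hS
  have e1 : ∑ i ∈ B, (x i - S / (B.card : ℝ))^2
      = ∑ i ∈ B, (x i)^2 - 2 * (S / B.card) * S + B.card * (S / B.card)^2 := by
    have : ∀ i ∈ B, (x i - S / (B.card : ℝ))^2
        = (x i)^2 - 2 * (S / B.card) * x i + (S / B.card)^2 := fun i _ => by ring
    rw [Finset.sum_congr rfl this, Finset.sum_add_distrib, Finset.sum_sub_distrib,
      ← Finset.mul_sum, ← hS, Finset.sum_const, nsmul_eq_mul]
  have e2 : ∑ i ∈ B, ∑ j ∈ B, (x i - x j)^2 = 2 * B.card * ∑ i ∈ B, (x i)^2 - 2 * S^2 := by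
    have : ∀ i ∈ B, ∑ j ∈ B, (x i - x j)^2
        = B.card * (x i)^2 - 2 * S * x i + ∑ j ∈ B, (x j)^2 := by
      intro i _
      have h : ∀ j ∈ B, (x i - x j)^2 = (x i)^2 - 2 * x i * x j + (x j)^2 := fun j _ => by ring
      rw [Finset.sum_congr rfl h, Finset.sum_add_distrib, Finset.sum_sub_distrib,
        ← Finset.mul_sum, ← hS, Finset.sum_const, nsmul_eq_mul]
      ring
    rw [Finset.sum_congr rfl this, Finset.sum_add_distrib, Finset.sum_sub_distrib,
      ← Finset.mul_sum, ← Finset.mul_sum, ← hS, Finset.sum_const, nsmul_eq_mul]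
    ring
  rw [e1, e2]
  field_simp
  ring

theorem CL2_thm (hDEF1 : Stmt_DEF1) : Stmt_CL2 := by
  intro ι _ _ K Φ m B hΦ hm hne hG hB
  obtain ⟨hrow, -, -, hds0, -, -⟩ := hDEF1 ι K Φ hΦ
  have hm0 : 0 < m := by linarith
  have hdsn : ∀ i j, 0 ≤ ds Φ i j := fun i j => Finset.sum_nonneg fun k _ => sq_nonneg _
  have hds : ∀ i j, ds Φ i j = cn Φ i + cn Φ j - 2 * pp Φ i j := fun i j => (hds0 i j).symm
  have hq : ∀ i j, m * pp Φ i j = (m * cn Φ i + m * cn Φ j - m * ds Φ i j) / 2 := by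
    intro i j; rw [hds i j]; ring
  have hsum : ∀ i, ∑ j, (m * pp Φ i j)^2 = m * (m * cn Φ i) := by
    intro i
    rw [← hrow i, Finset.mul_sum, Finset.mul_sum]
    exact Finset.sum_congr rfl fun j _ => by ring
  have hDr : ∀ i, ∑ j, (m * pp Φ i j)^2 * (m * ds Φ i j) = 2 * m * (m^2 * Dr Φ i) := by
    intro i
    unfold Dr
    rw [mul_div_assoc', mul_div_assoc', Finset.mul_sum, Finset.mul_sum]
    rw [eq_div_iff (by norm_num), Finset.sum_mul]
    exact Finset.sum_congr rfl fun j _ => by ring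
  have hDr2 : ∀ i, ∑ j, (m * pp Φ i j)^2 * ds Φ i j = 2 * m^2 * Dr Φ i := by
    intro i
    unfold Dr
    rw [mul_div_assoc', Finset.mul_sum]
    rw [eq_div_iff (by norm_num), Finset.sum_mul]
    exact Finset.sum_congr rfl fun j _ => by ring
  have hin : ∀ i ∈ B, ∀ j ∈ B, m * ds Φ i j < 1/25 := fun i hi j hj => ((hB i hi j).1 hj).2
  have hc : ∀ i ∈ B, 99/100 ≤ m * cn Φ i ∧ m * cn Φ i ≤ 101/100 := by
    intro i hi
    have := abs_le.1 (hG i hi).1
    constructor <;> linarith [this.1, this.2]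
  have hqin : ∀ i ∈ B, ∀ j ∈ B, 97/100 ≤ m * pp Φ i j := by
    intro i hi j hj
    rw [hq]
    linarith [hin i hi j hj, hc i hi, hc j hj]
  have hqsq : ∀ i ∈ B, ∀ j ∈ B, 9409/10000 ≤ (m * pp Φ i j)^2 := by
    intro i hi j hj
    nlinarith [hqin i hi j hj]
  have hsumB : ∀ i, ∑ j ∈ B, (m * pp Φ i j)^2 ≤ m * (m * cn Φ i) := by
    intro i
    rw [← hsum i]
    exact Finset.sum_le_sum_of_subset_of_nonneg (Finset.subset_univ _)
      fun j _ _ => sq_nonneg _
  obtain ⟨i0, hi0⟩ := hne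
  have hcard1 : (B.card : ℝ) * (9409/10000) ≤ 101/100 * m := by
    have h1 : ∑ j ∈ B, (9409/10000 : ℝ) ≤ ∑ j ∈ B, (m * pp Φ i0 j)^2 :=
      Finset.sum_le_sum fun j hj => hqsq i0 hi0 j hj
    rw [Finset.sum_const, nsmul_eq_mul] at h1
    have h2 := hsumB i0
    have h3 : m * (m * cn Φ i0) ≤ m * (101/100) :=
      mul_le_mul_of_nonneg_left (hc i0 hi0).2 hm0.le
    linarith
  have hxB : ∀ i ∈ B, 9409/10000 * ∑ j ∈ B, m * ds Φ i j ≤ 2 * m * (m^2 * Dr Φ i) := by
    intro i hi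
    rw [← hDr i, Finset.mul_sum]
    calc ∑ j ∈ B, 9409/10000 * (m * ds Φ i j)
        ≤ ∑ j ∈ B, (m * pp Φ i j)^2 * (m * ds Φ i j) :=
          Finset.sum_le_sum fun j hj => mul_le_mul_of_nonneg_right (hqsq i hi j hj)
            (mul_nonneg hm0.le (hdsn i j))
      _ ≤ _ := Finset.sum_le_sum_of_subset_of_nonneg (Finset.subset_univ _)
          fun j _ _ => mul_nonneg (sq_nonneg _) (mul_nonneg hm0.le (hdsn i j))
  refine ⟨by linarith, fun i hi j hj => by linarith [hqin i hi j hj], fun hext => ?_⟩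
  -- upper bound of the size
  have hDi : ∀ i ∈ B, 2 * m * (m^2 * Dr Φ i) ≤ 2 * m * (1/10^5) := fun i hi =>
    mul_le_mul_of_nonneg_left (hG i hi).2 (by positivity)
  have hup : (B.card : ℝ) * (9801/10000) ≤ (101/100 + 3/10^5) * m := by
    have h1 : ∑ j ∈ B, ((9801/10000 : ℝ) - 99/100 * (m * ds Φ i0 j))
        ≤ ∑ j ∈ B, (m * pp Φ i0 j)^2 := by
      refine Finset.sum_le_sum fun j hj => ?_
      have ha : 99/100 - (m * ds Φ i0 j) / 2 ≤ m * pp Φ i0 j := by
        rw [hq]; linarith [(hc i0 hi0).1, (hc j hj).1]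
      have hb := hin i0 hi0 j hj
      have hb' := mul_nonneg hm0.le (hdsn i0 j)
      nlinarith [hqin i0 hi0 j hj]
    rw [Finset.sum_sub_distrib, Finset.sum_const, nsmul_eq_mul, ← Finset.mul_sum] at h1
    have h2 := hsumB i0
    have h3 : m * (m * cn Φ i0) ≤ m * (101/100) :=
      mul_le_mul_of_nonneg_left (hc i0 hi0).2 hm0.le
    have h4 := hxB i0 hi0
    have h5 := hDi i0 hi0
    nlinarith
  -- outer sum
  have hqout : ∀ i ∈ B, ∀ j ∈ Finset.univ \ B, (m * pp Φ i j)^2 ≤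
      400 * ((m * pp Φ i j)^2 * (m * ds Φ i j)) := by
    intro i hi j hj
    have hj' : j ∉ B := (Finset.mem_sdiff.1 hj).2
    have : 1/400 < m * ds Φ i j := by
      by_contra h
      exact hj' (hext i hi j (not_lt.1 h))
    nlinarith [sq_nonneg (m * pp Φ i j)]
  have hout : ∀ i ∈ B, ∑ j ∈ Finset.univ \ B, (m * pp Φ i j)^2
      ≤ 800 * m * (m^2 * Dr Φ i) := by
    intro i hi
    calc ∑ j ∈ Finset.univ \ B, (m * pp Φ i j)^2
        ≤ ∑ j ∈ Finset.univ \ B, 400 * ((m * pp Φ i j)^2 * (m * ds Φ i j)) :=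
          Finset.sum_le_sum fun j hj => hqout i hi j hj
      _ = 400 * ∑ j ∈ Finset.univ \ B, ((m * pp Φ i j)^2 * (m * ds Φ i j)) := by
          rw [Finset.mul_sum]
      _ ≤ 400 * ∑ j, ((m * pp Φ i j)^2 * (m * ds Φ i j)) := by
          refine mul_le_mul_of_nonneg_left ?_ (by norm_num)
          exact Finset.sum_le_sum_of_subset_of_nonneg Finset.sdiff_subset
            fun j _ _ => mul_nonneg (sq_nonneg _) (mul_nonneg hm0.le (hdsn i j))
      _ = 800 * m * (m^2 * Dr Φ i) := by rw [hDr]; ring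
  -- lower bound of the size
  have hlow : 982/1000 * m ≤ (B.card : ℝ) * (10201/10000) := by
    have h1 : ∑ j ∈ B, (m * pp Φ i0 j)^2 ≤ ∑ j ∈ B, (10201/10000 : ℝ) := by
      refine Finset.sum_le_sum fun j hj => ?_
      have ha : m * pp Φ i0 j ≤ 101/100 := by
        rw [hq]
        linarith [(hc i0 hi0).2, (hc j hj).2, mul_nonneg hm0.le (hdsn i0 j)]
      nlinarith [hqin i0 hi0 j hj]
    rw [Finset.sum_const, nsmul_eq_mul] at h1
    have h2 : ∑ j ∈ Finset.univ \ B, (m * pp Φ i0 j)^2 + ∑ j ∈ B, (m * pp Φ i0 j)^2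
        = m * (m * cn Φ i0) := by
      rw [← hsum i0]
      exact Finset.sum_sdiff (Finset.subset_univ _)
    have h3 := hout i0 hi0
    have h4 : m * (99/100) ≤ m * (m * cn Φ i0) :=
      mul_le_mul_of_nonneg_left (hc i0 hi0).1 hm0.le
    have h5 := hDi i0 hi0
    linarith
  have hcpos : 0 < (B.card : ℝ) := by nlinarith
  refine ⟨?_, ?_, ?_⟩
  · rw [abs_le]; constructor <;> linarith
  · -- scatter
    have e1 : (B.card : ℝ) * (∑ i ∈ B, ∑ k, (Φ i k - (∑ j ∈ B, Φ j k) / (B.card : ℝ))^2)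
        = (∑ i ∈ B, ∑ j ∈ B, ds Φ i j) / 2 := by
      rw [Finset.sum_comm, Finset.mul_sum]
      have : ∀ k, (B.card : ℝ) * ∑ i ∈ B, (Φ i k - (∑ j ∈ B, Φ j k) / (B.card : ℝ))^2
          = (∑ i ∈ B, ∑ j ∈ B, (Φ i k - Φ j k)^2) / 2 := fun k =>
        cl2_scalar B ⟨i0, hi0⟩ fun i => Φ i k
      rw [Finset.sum_congr rfl fun k _ => this k, ← Finset.sum_div]
      congr 1
      rw [Finset.sum_comm]
      refine Finset.sum_congr rfl fun i _ => ?_
      rw [Finset.sum_comm]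
      rfl
    have e2 : ∀ i ∈ B, 9409/10000 * ∑ j ∈ B, ds Φ i j ≤ 2 * m^2 * Dr Φ i := by
      intro i hi
      rw [← hDr2 i, Finset.mul_sum]
      calc ∑ j ∈ B, 9409/10000 * ds Φ i j
          ≤ ∑ j ∈ B, (m * pp Φ i j)^2 * ds Φ i j :=
            Finset.sum_le_sum fun j hj => mul_le_mul_of_nonneg_right (hqsq i hi j hj) (hdsn i j)
        _ ≤ _ := Finset.sum_le_sum_of_subset_of_nonneg (Finset.subset_univ _)
            fun j _ _ => mul_nonneg (sq_nonneg _) (hdsn i j)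
    have e3 : 9409/10000 * ∑ i ∈ B, ∑ j ∈ B, ds Φ i j ≤ 2 * m^2 * ∑ i ∈ B, Dr Φ i := by
      rw [Finset.mul_sum, Finset.mul_sum]
      exact Finset.sum_le_sum fun i hi => e2 i hi
    have hDn : 0 ≤ ∑ i ∈ B, Dr Φ i := by
      refine Finset.sum_nonneg fun i _ => ?_
      unfold Dr
      exact div_nonneg (Finset.sum_nonneg fun j _ => mul_nonneg (sq_nonneg _) (hdsn i j))
        (by norm_num)
    set T := ∑ i ∈ B, ∑ k, (Φ i k - (∑ j ∈ B, Φ j k) / (B.card : ℝ))^2 with hT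
    set D := ∑ i ∈ B, Dr Φ i with hD
    have hTn : 0 ≤ T := Finset.sum_nonneg fun i _ => Finset.sum_nonneg fun k _ => sq_nonneg _
    -- card * T ≤ m^2/0.9409 D; card ≥ 0.962 m
    have e4 : (B.card : ℝ) * T * (9409/10000) ≤ m^2 * D := by rw [e1]; linarith
    have e5 : (962/1000 * m) * T ≤ (B.card : ℝ) * T :=
      mul_le_mul_of_nonneg_right (by linarith) hTn
    have e6 : m * (T * (962/1000 * (9409/10000))) ≤ m * (m * D) := by nlinarith
    have e7 := le_of_mul_le_mul_left e6 hm0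
    have e8 : 0 ≤ m * D := mul_nonneg hm0.le hDn
    nlinarith
  · -- outer sum
    have e1 : m^2 * ∑ i ∈ B, ∑ j ∈ Finset.univ \ B, (pp Φ i j)^2
        ≤ m^2 * (800 * m * ∑ i ∈ B, Dr Φ i) := by
      rw [Finset.mul_sum, Finset.mul_sum, Finset.mul_sum]
      refine Finset.sum_le_sum fun i hi => ?_
      have := hout i hi
      rw [Finset.mul_sum]
      calc ∑ j ∈ Finset.univ \ B, m^2 * (pp Φ i j)^2
          = ∑ j ∈ Finset.univ \ B, (m * pp Φ i j)^2 :=
            Finset.sum_congr rfl fun j _ => by ring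
        _ ≤ _ := this
        _ = _ := by ring
    exact le_of_mul_le_mul_left e1 (by positivity)

end Pool.LIN
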