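import Pool.Agent.Work.MP_1c7b0d_lin.Interface

open MeasureTheory Matrix Pool.LH60 Pool.LH73
open scoped BigOperators

namespace Pool.LIN

namespace CLCaux

variable {ι : Type} [Fintype ι] [DecidableEq ι] {K L : ℕ}

theorem sum_phi (Φ : Matrix ι (Fin K) ℝ) (a : ι → Option (Fin L)) (b : Fin L) (hM : mz a b ≠ 0)
    (k : Fin K) : ∑ i ∈ fb a b, Φ i k = (mz a b : ℝ) * vb Φ a b k := by
  unfold vb
  have : (mz a b : ℝ) ≠ 0 := by exact_mod_cast hM
  field_simp

theorem Cb_eq (Φ : Matrix ι (Fin K) ℝ) (a : ι → Option (Fin L)) (b : Fin L) (hM : mz a b ≠ 0) :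
    Cb Φ a b = (mz a b : ℝ) * (∑ k, (vb Φ a b k)^2) + sc Φ a b := by
  unfold Cb sc cn
  rw [Finset.sum_comm, Finset.sum_comm (s := fb a b) (t := Finset.univ)
    (f := fun i k => (Φ i k - vb Φ a b k)^2), Finset.mul_sum, ← Finset.sum_add_distrib]
  refine Finset.sum_congr rfl fun k _ => ?_
  have h1 : ∀ i, (Φ i k - vb Φ a b k)^2 =
      Φ i k ^ 2 - 2 * vb Φ a b k * Φ i k + (vb Φ a b k)^2 := fun i => by ring
  rw [Finset.sum_congr rfl fun i _ => h1 i, Finset.sum_add_distrib, Finset.sum_sub_distrib,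
    ← Finset.mul_sum, sum_phi Φ a b hM k, Finset.sum_const, nsmul_eq_mul]
  have h2 : ((fb a b).card : ℝ) = (mz a b : ℝ) := rfl
  rw [h2]
  ring

theorem sq_sum (Φ : Matrix ι (Fin K) ℝ) (h : Φᵀ * Φ = 1) (v : Fin K → ℝ) :
    ∑ i, (∑ k, Φ i k * v k)^2 = ∑ k, v k ^ 2 := by
  have h1 : (Φ *ᵥ v) ⬝ᵥ (Φ *ᵥ v) = v ⬝ᵥ v := by
    rw [dotProduct_mulVec, vecMul_mulVec, h, vecMul_one]
  have h2 : (Φ *ᵥ v) ⬝ᵥ (Φ *ᵥ v) = ∑ i, (∑ k, Φ i k * v k)^2 := by
    unfold dotProduct mulVec dotProduct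
    exact Finset.sum_congr rfl fun i _ => by ring
  have h3 : v ⬝ᵥ v = ∑ k, v k ^ 2 := by
    unfold dotProduct
    exact Finset.sum_congr rfl fun i _ => by ring
  rw [← h2, ← h3, h1]

theorem mass_le (Φ : Matrix ι (Fin K) ℝ) (h : Φᵀ * Φ = 1) (a : ι → Option (Fin L)) (b : Fin L)
    (hM : mz a b ≠ 0) : (mz a b : ℝ) * (∑ k, (vb Φ a b k)^2) ≤ 1 := by
  set v := vb Φ a b with hv
  set M : ℝ := (mz a b : ℝ) with hMd
  have hM0 : 0 < M := by
    have : 0 < mz a b := Nat.pos_of_ne_zero hM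
    rw [hMd]; exact_mod_cast this
  set V : ℝ := ∑ k, v k ^ 2 with hV
  have hV0 : 0 ≤ V := Finset.sum_nonneg fun _ _ => sq_nonneg _
  have h1 : ∑ i ∈ fb a b, (∑ k, Φ i k * v k)^2 ≤ V := by
    rw [hV, ← sq_sum Φ h v]
    exact Finset.sum_le_sum_of_subset_of_nonneg (Finset.subset_univ _) fun _ _ _ => sq_nonneg _
  have h2 : ∑ i ∈ fb a b, (∑ k, Φ i k * v k) = M * V := by
    rw [Finset.sum_comm, hV, Finset.mul_sum]
    refine Finset.sum_congr rfl fun k _ => ?_
    rw [← Finset.sum_mul, sum_phi Φ a b hM k]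
    ring
  have h3 : (M * V)^2 ≤ M * V := by
    have h4 := sq_sum_le_card_mul_sum_sq (s := fb a b) (f := fun i => ∑ k, Φ i k * v k)
    rw [h2] at h4
    refine h4.trans ?_
    have h5 : (((fb a b).card : ℕ) : ℝ) = M := rfl
    rw [h5]
    exact mul_le_mul_of_nonneg_left h1 hM0.le
  by_contra hc
  push Not at hc
  nlinarith [mul_pos (by linarith : (0:ℝ) < M * V) (by linarith : (0:ℝ) < M * V - 1)]

theorem ppsymm (Φ : Matrix ι (Fin K) ℝ) (i j : ι) : pp Φ i j = pp Φ j i := by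
  unfold pp
  exact Finset.sum_congr rfl fun k _ => mul_comm _ _

theorem pp_sq_le (Φ : Matrix ι (Fin K) ℝ) (i j : ι) : (pp Φ i j)^2 ≤ cn Φ i * cn Φ j := by
  unfold pp cn
  exact Finset.sum_mul_sq_le_sq_mul_sq _ _ _

theorem ou_nonneg (Φ : Matrix ι (Fin K) ℝ) (a : ι → Option (Fin L)) (b : Fin L) :
    0 ≤ ou Φ a b := by
  unfold ou
  refine Finset.sum_nonneg fun i _ => Finset.sum_nonneg fun j _ => ?_
  split_ifs
  · exact le_rfl
  · exact sq_nonneg _

theorem ds_nonneg (Φ : Matrix ι (Fin K) ℝ) (i j : ι) : 0 ≤ ds Φ i j :=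
  Finset.sum_nonneg fun _ _ => sq_nonneg _

theorem Dr_nonneg (Φ : Matrix ι (Fin K) ℝ) (i : ι) : 0 ≤ Dr Φ i := by
  unfold Dr
  have : 0 ≤ ∑ j, (pp Φ i j)^2 * ds Φ i j :=
    Finset.sum_nonneg fun j _ => mul_nonneg (sq_nonneg _) (ds_nonneg Φ i j)
  linarith

theorem mem_fb (a : ι → Option (Fin L)) (b : Fin L) (i : ι) : i ∈ fb a b ↔ a i = some b := by
  unfold fb; simp

end CLCaux

open CLCaux in
theorem CLC_thm (hDEF1 : Stmt_DEF1) : Stmt_CLC := by
  intro ι _ _ K L Φ m a hΦ hm hC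
  obtain ⟨hd1, hd2, hd3, hd4, hd5, -⟩ := hDEF1 ι K Φ hΦ
  have hm0 : (0:ℝ) < m := by linarith
  have hMr : ∀ b, 19/20 * m ≤ (mz a b : ℝ) := by
    intro b
    have := (abs_le.1 (hC.siz b)).1
    linarith
  have hM : ∀ b, mz a b ≠ 0 := by
    intro b h
    have := hMr b
    rw [h] at this
    simp only [Nat.cast_zero] at this
    linarith
  have hM0 : ∀ b, (0:ℝ) < mz a b := by
    intro b
    have := hMr b
    linarith
  have hsc0 : ∀ b, 0 ≤ sc Φ a b := fun b =>
    Finset.sum_nonneg fun _ _ => Finset.sum_nonneg fun _ _ => sq_nonneg _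
  have hDb0 : ∀ b, 0 ≤ Db Φ a b := fun b => Finset.sum_nonneg fun i _ => Dr_nonneg Φ i
  have hCb : ∀ b, 94/100 ≤ Cb Φ a b := by
    intro b
    have h1 : ∀ i ∈ fb a b, 99/100 / m ≤ cn Φ i := by
      intro i hi
      have h2 := (abs_le.1 (hC.row i b ((mem_fb a b i).1 hi))).1
      rw [div_le_iff₀ hm0]
      linarith
    have h3 : ((mz a b : ℕ) : ℝ) * (99/100 / m) ≤ Cb Φ a b := by
      have := Finset.card_nsmul_le_sum (fb a b) (fun i => cn Φ i) (99/100 / m) h1
      rw [nsmul_eq_mul] at this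
      exact this
    have h4 : 19/20 * m * (99/100 / m) ≤ ((mz a b : ℕ) : ℝ) * (99/100 / m) :=
      mul_le_mul_of_nonneg_right (hMr b) (by positivity)
    have h5 : 19/20 * m * (99/100 / m) = 19/20 * (99/100) := by field_simp
    rw [h5] at h4
    linarith
  refine ⟨fun b => ?_, fun b => ?_, fun b => ?_, ?_, fun b => ⟨hDb0 b, hsc0 b, ou_nonneg Φ a b⟩⟩
  · have h1 := Cb_eq Φ a b (hM b)
    have h2 := mass_le Φ hΦ a b (hM b)
    have h3 := ou_nonneg Φ a b
    have h4 := hsc0 b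
    have h5 : Cb Φ a b - ou Φ a b ≤ (Cb Φ a b)^2 := by
      have h6 : Cb Φ a b - ou Φ a b = ∑ i ∈ fb a b, ∑ j ∈ fb a b, (pp Φ i j)^2 := by
        unfold Cb ou
        rw [← Finset.sum_sub_distrib]
        refine Finset.sum_congr rfl fun i _ => ?_
        rw [← hd1 i, ← Finset.sum_sub_distrib, fb, Finset.sum_filter]
        refine Finset.sum_congr rfl fun j _ => ?_
        split_ifs <;> simp
      rw [h6]
      calc ∑ i ∈ fb a b, ∑ j ∈ fb a b, (pp Φ i j)^2
          ≤ ∑ i ∈ fb a b, ∑ j ∈ fb a b, cn Φ i * cn Φ j :=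
            Finset.sum_le_sum fun i _ => Finset.sum_le_sum fun j _ => pp_sq_le Φ i j
        _ = (Cb Φ a b)^2 := by
            unfold Cb
            rw [sq, Finset.sum_mul_sum]
    have h7 := hCb b
    rw [abs_le]
    constructor
    · nlinarith
    · linarith
  · have h1 := Cb_eq Φ a b (hM b)
    have h2 := hCb b
    have h3 := hC.sca b
    have h4 := hC.dbb b
    have h5 : 5/4 * m * Db Φ a b ≤ 5/4 / m := by
      rw [le_div_iff₀ hm0]
      nlinarith
    have h6 : 5/4 / m ≤ 1/80 := by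
      rw [div_le_iff₀ hm0]
      linarith
    linarith
  · have hv : ∀ i, ∑ k, Φ i k * vb Φ a b k = (∑ j ∈ fb a b, pp Φ i j) / (mz a b : ℝ) := by
      intro i
      unfold vb pp
      rw [Finset.sum_comm, Finset.sum_div]
      refine Finset.sum_congr rfl fun k _ => ?_
      rw [← Finset.mul_sum]
      ring
    have h1 : ∀ i, (mz a b : ℝ) * (∑ k, Φ i k * vb Φ a b k)^2 ≤ ∑ j ∈ fb a b, (pp Φ i j)^2 := by
      intro i
      rw [hv i]
      have h4 := sq_sum_le_card_mul_sum_sq (s := fb a b) (f := fun j => pp Φ i j)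
      have h5 : (((fb a b).card : ℕ) : ℝ) = (mz a b : ℝ) := rfl
      rw [h5] at h4
      have h6 : (mz a b : ℝ) * ((∑ j ∈ fb a b, pp Φ i j) / (mz a b : ℝ))^2
          = (∑ j ∈ fb a b, pp Φ i j)^2 / (mz a b : ℝ) := by
        have := (hM0 b).ne'
        field_simp
      rw [h6, div_le_iff₀ (hM0 b)]
      linarith
    calc (mz a b : ℝ) * ∑ i, (if a i = some b then 0 else (∑ k, Φ i k * vb Φ a b k)^2)
        = ∑ i, (if a i = some b then 0 else (mz a b : ℝ) * (∑ k, Φ i k * vb Φ a b k)^2) := by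
          rw [Finset.mul_sum]
          refine Finset.sum_congr rfl fun i _ => ?_
          split_ifs <;> simp
      _ ≤ ∑ i, (if a i = some b then 0 else ∑ j ∈ fb a b, (pp Φ i j)^2) := by
          refine Finset.sum_le_sum fun i _ => ?_
          split_ifs
          · exact le_rfl
          · exact h1 i
      _ = ∑ i, ∑ j ∈ fb a b, (if a i = some b then 0 else (pp Φ i j)^2) := by
          refine Finset.sum_congr rfl fun i _ => ?_
          split_ifs <;> simp
      _ = ou Φ a b := by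
          unfold ou
          rw [Finset.sum_comm]
          refine Finset.sum_congr rfl fun j _ => Finset.sum_congr rfl fun i _ => ?_
          rw [ppsymm Φ i j]
  · have h1 : Dfc Φ = ∑ i, Dr Φ i := by
      rw [hd5]
      unfold Dr
      rw [← Finset.sum_div]
      congr 1
      refine Finset.sum_congr rfl fun i _ => Finset.sum_congr rfl fun j _ => ?_
      rw [hd4 i j]
      rfl
    rw [h1]
    unfold Db fb
    simp_rw [Finset.sum_filter]
    rw [Finset.sum_comm]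
    refine Finset.sum_le_sum fun i _ => ?_
    rcases h2 : a i with _ | c
    · simp [Dr_nonneg Φ i]
    · simp

end Pool.LIN
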