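import Pool.Agent.Work.MP_1c7b0d_lin.Interface

/-! Block CLS (helper94): the classes of good rows. -/

open MeasureTheory Matrix Pool.LH60 Pool.LH73
open scoped BigOperators

namespace Pool.LIN

set_option linter.unusedSectionVars false

namespace CLSaux

variable {ι : Type} [Fintype ι] [DecidableEq ι] {K : ℕ}

lemma ds_nonneg (Φ : Matrix ι (Fin K) ℝ) (i j : ι) : 0 ≤ ds Φ i j :=
  Finset.sum_nonneg fun _ _ => sq_nonneg _

lemma ds_self (Φ : Matrix ι (Fin K) ℝ) (i : ι) : ds Φ i i = 0 := by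
  simp [ds]

lemma ds_comm (Φ : Matrix ι (Fin K) ℝ) (i j : ι) : ds Φ i j = ds Φ j i := by
  unfold ds
  exact Finset.sum_congr rfl fun k _ => by ring

lemma ds_tri (Φ : Matrix ι (Fin K) ℝ) (i j k : ι) : ds Φ i k ≤ 2 * ds Φ i j + 2 * ds Φ j k := by
  unfold ds
  rw [Finset.mul_sum, Finset.mul_sum, ← Finset.sum_add_distrib]
  refine Finset.sum_le_sum fun a _ => ?_
  nlinarith [sq_nonneg ((Φ i a - Φ j a) - (Φ j a - Φ k a))]

lemma Dr_nonneg (Φ : Matrix ι (Fin K) ℝ) (i : ι) : 0 ≤ Dr Φ i := by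
  unfold Dr
  have : 0 ≤ ∑ j, (pp Φ i j)^2 * ds Φ i j :=
    Finset.sum_nonneg fun j _ => mul_nonneg (sq_nonneg _) (ds_nonneg _ _ _)
  linarith

open Classical in
/-- the class of a good row -/
noncomputable def cls (Φ : Matrix ι (Fin K) ℝ) (m : ℝ) (i : ι) : Finset ι :=
  Finset.univ.filter (fun j => Gr Φ m j ∧ m * ds Φ i j < 1/25)

lemma mem_cls {Φ : Matrix ι (Fin K) ℝ} {m : ℝ} {i j : ι} :
    j ∈ cls Φ m i ↔ Gr Φ m j ∧ m * ds Φ i j < 1/25 := by
  unfold cls; simp

end CLSaux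

open CLSaux

open Classical in
theorem CLS_thm (hCL1 : Stmt_CL1) (hCL2 : Stmt_CL2) (hDEF1 : Stmt_DEF1) : Stmt_CLS := by
  intro ι _ _ K Φ m hΦ hm
  obtain ⟨-, -, hc, hds, hD, hD0⟩ := hDEF1 ι K Φ hΦ
  have hmpos : 0 < m := by linarith
  have hds' : ∀ i j, cn Φ i + cn Φ j - 2 * pp Φ i j = ds Φ i j := hds
  have hDsum : ∑ i, Dr Φ i = Dfc Φ := by
    rw [hD]
    unfold Dr
    rw [← Finset.sum_div]
    congr 1
    refine Finset.sum_congr rfl fun i _ => Finset.sum_congr rfl fun j _ => ?_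
    rw [hds']
  -- transitivity
  have htr : ∀ i j k, Gr Φ m i → Gr Φ m k → m * ds Φ i j < 1/25 → m * ds Φ j k < 1/25 →
      m * ds Φ i k < 1/25 := by
    intro i j k hi hk hij hjk
    rcases hCL1 ι K Φ m hΦ hm i k hi hk with h | h
    · exact h
    · exfalso
      have h1 := ds_tri Φ i j k
      have h2 : m * ds Φ i k ≤ 2 * (m * ds Φ i j) + 2 * (m * ds Φ j k) := by nlinarith
      have h3 := hds' i k
      have h4 := (abs_le.mp hi.1).1
      have h5 := (abs_le.mp hk.1).1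
      have h6 := (abs_le.mp h).2
      have h7 : m * cn Φ i + m * cn Φ k - 2 * (m * pp Φ i k) = m * ds Φ i k := by
        rw [← h3]; ring
      linarith
  have hself : ∀ i, Gr Φ m i → i ∈ cls Φ m i := by
    intro i hi
    rw [mem_cls]
    refine ⟨hi, ?_⟩
    rw [ds_self]; norm_num
  have heq : ∀ i j, Gr Φ m i → j ∈ cls Φ m i → cls Φ m j = cls Φ m i := by
    intro i j hi hj
    rw [mem_cls] at hj
    ext k
    rw [mem_cls, mem_cls]
    constructor
    · rintro ⟨h1, h2⟩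
      exact ⟨h1, htr i j k hi h1 hj.2 h2⟩
    · rintro ⟨h1, h2⟩
      refine ⟨h1, htr j i k hj.1 h1 ?_ h2⟩
      rw [ds_comm]; exact hj.2
  set G : Finset ι := Finset.univ.filter (fun i => Gr Φ m i) with hG
  have hmG : ∀ i, i ∈ G ↔ Gr Φ m i := by intro i; rw [hG]; simp
  set C : Finset (Finset ι) := G.image (cls Φ m) with hC
  have hmC : ∀ B, B ∈ C ↔ ∃ i, Gr Φ m i ∧ cls Φ m i = B := by
    intro B
    rw [hC, Finset.mem_image]
    constructor
    · rintro ⟨i, hi, h⟩; exact ⟨i, (hmG i).1 hi, h⟩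
    · rintro ⟨i, hi, h⟩; exact ⟨i, (hmG i).2 hi, h⟩
  -- a member of a class determines it
  have hdet : ∀ B ∈ C, ∀ i, i ∈ B ↔ (Gr Φ m i ∧ cls Φ m i = B) := by
    intro B hB i
    obtain ⟨i0, hi0, rfl⟩ := (hmC B).1 hB
    constructor
    · intro hi
      exact ⟨(mem_cls.1 hi).1, heq i0 i hi0 hi⟩
    · rintro ⟨h1, h2⟩
      rw [← h2]; exact hself i h1
  have hdis : ∀ B ∈ C, ∀ B' ∈ C, B ≠ B' → Disjoint B B' := by
    intro B hB B' hB' hne
    rw [Finset.disjoint_left]
    intro i hi hi'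
    exact hne (((hdet B hB i).1 hi).2.symm.trans ((hdet B' hB' i).1 hi').2)
  -- CL2 for the classes
  have hcl2 : ∀ B ∈ C, ((B.card : ℝ) ≤ 11/10 * m ∧ (∀ i ∈ B, ∀ j ∈ B, 9/10 ≤ m * pp Φ i j) ∧
    ((∀ i ∈ B, ∀ j, m * ds Φ i j ≤ 1/400 → j ∈ B) →
      |(B.card : ℝ) - m| ≤ m / 20 ∧
      (∑ i ∈ B, ∑ k, (Φ i k - (∑ j ∈ B, Φ j k) / (B.card : ℝ))^2) ≤
        5/4 * m * ∑ i ∈ B, Dr Φ i ∧
      (∑ i ∈ B, ∑ j ∈ Finset.univ \ B, (pp Φ i j)^2) ≤ 800 * m * ∑ i ∈ B, Dr Φ i)) := by
    intro B hB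
    have hne : B.Nonempty := by
      obtain ⟨i0, hi0, rfl⟩ := (hmC B).1 hB
      exact ⟨i0, hself i0 hi0⟩
    refine hCL2 ι K Φ m B hΦ hm hne (fun i hi => ((hdet B hB i).1 hi).1) ?_
    intro i hi j
    have h1 := (hdet B hB i).1 hi
    rw [← h1.2]
    exact mem_cls
  set P : Finset ι → Prop := fun B => m^2 * ∑ i ∈ B, Dr Φ i ≤ 1 ∧
    ∀ i ∈ B, ∀ j, m * ds Φ i j ≤ 1/400 → j ∈ B with hP
  set Kp : Finset (Finset ι) := C.filter P with hKp
  have hmK : ∀ B, B ∈ Kp ↔ B ∈ C ∧ P B := by intro B; rw [hKp]; simp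
  let e : {B // B ∈ Kp} ≃ Fin Kp.card := Kp.equivFin
  let a : ι → Option (Fin Kp.card) := fun i =>
    if h : Gr Φ m i ∧ cls Φ m i ∈ Kp then some (e ⟨cls Φ m i, h.2⟩) else none
  have ha_some : ∀ i b, a i = some b ↔ i ∈ (e.symm b).1 := by
    intro i b
    have hb := (e.symm b).2
    have hbC := ((hmK _).1 hb).1
    constructor
    · intro h
      by_cases h' : Gr Φ m i ∧ cls Φ m i ∈ Kp
      · have h1 : a i = some (e ⟨cls Φ m i, h'.2⟩) := dif_pos h'
        rw [h1] at h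
        have h2 := Option.some.inj h
        have h3 : (e.symm b).1 = cls Φ m i := by rw [← h2, Equiv.symm_apply_apply]
        rw [h3]
        exact hself i h'.1
      · have h1 : a i = none := dif_neg h'
        rw [h1] at h
        exact absurd h (by simp)
    · intro h
      have h1 := (hdet _ hbC i).1 h
      have h' : Gr Φ m i ∧ cls Φ m i ∈ Kp := ⟨h1.1, by rw [h1.2]; exact hb⟩
      have h2 : a i = some (e ⟨cls Φ m i, h'.2⟩) := dif_pos h'
      rw [h2]
      congr 1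
      have h3 : (⟨cls Φ m i, h'.2⟩ : {B // B ∈ Kp}) = e.symm b := Subtype.ext h1.2
      rw [h3, Equiv.apply_symm_apply]
  have hfb : ∀ b, fb a b = (e.symm b).1 := by
    intro b
    ext i
    unfold fb
    rw [Finset.mem_filter]
    simp only [Finset.mem_univ, true_and]
    exact ha_some i b
  have hbC : ∀ b, (e.symm b).1 ∈ C := fun b => ((hmK _).1 (e.symm b).2).1
  have hbP : ∀ b, P (e.symm b).1 := fun b => ((hmK _).1 (e.symm b).2).2
  refine ⟨Kp.card, a, ?_, ?_, ?_, ?_, ?_, ?_, ?_⟩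
  · intro i b h
    rw [ha_some] at h
    exact (((hdet _ (hbC b) i).1 h).1).1
  · intro i j b hi hj
    rw [ha_some] at hi hj
    exact (hcl2 _ (hbC b)).2.1 i hi j hj
  · intro b
    unfold mz
    rw [hfb]
    exact ((hcl2 _ (hbC b)).2.2 (hbP b).2).1
  · intro b
    unfold sc Db vb mz
    rw [hfb]
    exact ((hcl2 _ (hbC b)).2.2 (hbP b).2).2.1
  · intro b
    have h := ((hcl2 _ (hbC b)).2.2 (hbP b).2).2.2
    unfold ou Db
    rw [hfb]
    refine le_trans (le_of_eq ?_) h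
    refine Finset.sum_congr rfl fun i _ => ?_
    rw [← Finset.sum_sdiff (Finset.subset_univ (e.symm b).1)]
    have h1 : ∑ j ∈ (e.symm b).1, (if a j = some b then (0:ℝ) else (pp Φ i j)^2) = 0 := by
      refine Finset.sum_eq_zero fun j hj => ?_
      rw [if_pos ((ha_some j b).2 hj)]
    rw [h1, add_zero]
    refine Finset.sum_congr rfl fun j hj => ?_
    rw [if_neg]
    intro h2
    exact (Finset.mem_sdiff.1 hj).2 ((ha_some j b).1 h2)
  · intro b
    unfold Db
    rw [hfb]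
    exact (hbP b).1
  · -- the rest
    set Bad : Finset ι := Finset.univ.filter (fun i => ¬ Gr Φ m i) with hBad
    have hmB : ∀ i, i ∈ Bad ↔ ¬ Gr Φ m i := by intro i; rw [hBad]; simp
    have hBadcard : (Bad.card : ℝ) ≤ N1 Φ m + 10^5 * m^2 * Dfc Φ := by
      set S1 : Finset ι := Finset.univ.filter (fun i => 1/100 < |m * cn Φ i - 1|) with hS1
      set S2 : Finset ι := Finset.univ.filter (fun i => 1/10^5 < m^2 * Dr Φ i) with hS2
      have hsub : Bad ⊆ S1 ∪ S2 := by
        intro i hi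
        rw [hmB] at hi
        rw [Finset.mem_union, hS1, hS2]
        simp only [Finset.mem_filter, Finset.mem_univ, true_and]
        by_contra hcon
        push Not at hcon
        exact hi ⟨hcon.1, hcon.2⟩
      have h1 : (Bad.card : ℝ) ≤ S1.card + S2.card := by
        exact_mod_cast (Finset.card_le_card hsub).trans (Finset.card_union_le _ _)
      have h2 : (S2.card : ℝ) ≤ 10^5 * m^2 * Dfc Φ := by
        calc (S2.card : ℝ) = ∑ i ∈ S2, (1:ℝ) := by simp
          _ ≤ ∑ i ∈ S2, 10^5 * m^2 * Dr Φ i := by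
              refine Finset.sum_le_sum fun i hi => ?_
              rw [hS2] at hi
              simp only [Finset.mem_filter, Finset.mem_univ, true_and] at hi
              linarith
          _ ≤ ∑ i, 10^5 * m^2 * Dr Φ i := by
              refine Finset.sum_le_sum_of_subset_of_nonneg (Finset.subset_univ _) fun i _ _ => ?_
              have := Dr_nonneg Φ i
              positivity
          _ = 10^5 * m^2 * Dfc Φ := by rw [← Finset.mul_sum, hDsum]
      have h3 : S1.card = N1 Φ m := rfl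
      rw [h3] at h1
      linarith
    -- classes which are not kept
    set NA : Finset (Finset ι) := C.filter (fun B => ¬ (m^2 * ∑ i ∈ B, Dr Φ i ≤ 1)) with hNA
    set NB : Finset (Finset ι) := C.filter (fun B => ¬ (∀ i ∈ B, ∀ j, m * ds Φ i j ≤ 1/400 → j ∈ B))
      with hNB
    have hmNA : ∀ B, B ∈ NA ↔ B ∈ C ∧ ¬ (m^2 * ∑ i ∈ B, Dr Φ i ≤ 1) := by
      intro B; rw [hNA]; simp
    have hmNB : ∀ B, B ∈ NB ↔ B ∈ C ∧ ¬ (∀ i ∈ B, ∀ j, m * ds Φ i j ≤ 1/400 → j ∈ B) := by
      intro B; rw [hNB, Finset.mem_filter]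
    have hNAcard : (NA.card : ℝ) ≤ m^2 * Dfc Φ := by
      calc (NA.card : ℝ) = ∑ B ∈ NA, (1:ℝ) := by simp
        _ ≤ ∑ B ∈ NA, m^2 * ∑ i ∈ B, Dr Φ i := by
            refine Finset.sum_le_sum fun B hB => ?_
            have := ((hmNA B).1 hB).2
            linarith
        _ = m^2 * ∑ i ∈ NA.biUnion id, Dr Φ i := by
            rw [← Finset.mul_sum, Finset.sum_biUnion]
            · rfl
            · intro B hB B' hB' hne
              exact hdis B ((hmNA B).1 hB).1 B' ((hmNA B').1 hB').1 hne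
        _ ≤ m^2 * ∑ i, Dr Φ i := by
            refine mul_le_mul_of_nonneg_left ?_ (by positivity)
            exact Finset.sum_le_sum_of_subset_of_nonneg (Finset.subset_univ _)
              fun i _ _ => Dr_nonneg Φ i
        _ = m^2 * Dfc Φ := by rw [hDsum]
    have hNBcard : NB.card ≤ Bad.card := by
      have hex : ∀ B ∈ NB, ∃ j, j ∈ Bad ∧ ∃ i ∈ B, m * ds Φ i j ≤ 1/400 := by
        intro B hB
        obtain ⟨hBC, hB2⟩ := (hmNB B).1 hB
        push Not at hB2
        obtain ⟨i, hi, j, hij, hj⟩ := hB2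
        refine ⟨j, ?_, i, hi, hij⟩
        rw [hmB]
        intro hgj
        apply hj
        have h1 := (hdet B hBC i).1 hi
        rw [← h1.2, mem_cls]
        exact ⟨hgj, by linarith⟩
      rcases isEmpty_or_nonempty ι with hE | hE
      · rw [Finset.eq_empty_of_forall_notMem (fun B hB => hE.elim (hex B hB).choose)]
        simp
      choose! f hf1 hf2 using hex
      refine Finset.card_le_card_of_injOn f (fun B hB => hf1 B hB) ?_
      intro B hB B' hB' hff
      have hB1 := ((hmNB B).1 hB).1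
      have hB1' := ((hmNB B').1 hB').1
      obtain ⟨i, hi, hij⟩ := hf2 B hB
      obtain ⟨i', hi', hij'⟩ := hf2 B' hB'
      rw [← show f B = f B' from hff] at hij'
      have h1 := (hdet B hB1 i).1 hi
      have h1' := (hdet B' hB1' i').1 hi'
      have h2 : m * ds Φ i i' < 1/25 := by
        have h3 := ds_tri Φ i (f B) i'
        rw [ds_comm Φ (f B) i'] at h3
        have h4 : m * ds Φ i i' ≤ 2 * (m * ds Φ i (f B)) + 2 * (m * ds Φ i' (f B)) := by nlinarith
        linarith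
      have h5 : i' ∈ cls Φ m i := mem_cls.2 ⟨h1'.1, h2⟩
      have h6 := heq i i' h1.1 h5
      rw [h1.2, h1'.2] at h6
      exact h6.symm
    have hsub : rs a ⊆ Bad ∪ (NA ∪ NB).biUnion id := by
      intro i hi
      unfold rs at hi
      rw [Finset.mem_filter] at hi
      have hi2 := hi.2
      rw [Finset.mem_union]
      by_cases hg : Gr Φ m i
      · right
        rw [Finset.mem_biUnion]
        refine ⟨cls Φ m i, ?_, hself i hg⟩
        have hC1 : cls Φ m i ∈ C := (hmC _).2 ⟨i, hg, rfl⟩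
        have hK1 : cls Φ m i ∉ Kp := by
          intro hk
          have : a i = some (e ⟨cls Φ m i, hk⟩) := dif_pos ⟨hg, hk⟩
          rw [this] at hi2
          exact absurd hi2 (by simp)
        rw [Finset.mem_union]
        by_contra hcon
        rw [not_or] at hcon
        apply hK1
        rw [hmK]
        refine ⟨hC1, ?_, ?_⟩
        · by_contra h1
          exact hcon.1 ((hmNA _).2 ⟨hC1, h1⟩)
        · by_contra h1
          exact hcon.2 ((hmNB _).2 ⟨hC1, h1⟩)
      · left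
        exact (hmB i).2 hg
    have hcard : ((rs a).card : ℝ) ≤ Bad.card + (NA.card + NB.card) * (11/10 * m) := by
      have h1 : ((rs a).card : ℝ) ≤ Bad.card + (((NA ∪ NB).biUnion id).card : ℝ) := by
        exact_mod_cast (Finset.card_le_card hsub).trans (Finset.card_union_le _ _)
      have h2 : (((NA ∪ NB).biUnion id).card : ℝ) ≤ ∑ B ∈ NA ∪ NB, (B.card : ℝ) := by
        exact_mod_cast Finset.card_biUnion_le
      have h3 : ∑ B ∈ NA ∪ NB, (B.card : ℝ) ≤ ∑ B ∈ NA ∪ NB, 11/10 * m := by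
        refine Finset.sum_le_sum fun B hB => ?_
        have hBC : B ∈ C := by
          rcases Finset.mem_union.1 hB with h | h
          · exact ((hmNA B).1 h).1
          · exact ((hmNB B).1 h).1
        exact (hcl2 B hBC).1
      have h4 : ∑ B ∈ NA ∪ NB, 11/10 * m = ((NA ∪ NB).card : ℝ) * (11/10 * m) := by
        rw [Finset.sum_const, nsmul_eq_mul]
      have h5 : ((NA ∪ NB).card : ℝ) ≤ NA.card + NB.card := by
        exact_mod_cast Finset.card_union_le _ _
      have h6 : ((NA ∪ NB).card : ℝ) * (11/10 * m) ≤ (NA.card + NB.card) * (11/10 * m) :=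
        mul_le_mul_of_nonneg_right h5 (by positivity)
      linarith
    have hNB' : (NB.card : ℝ) ≤ Bad.card := by exact_mod_cast hNBcard
    have hN0 : (0:ℝ) ≤ N1 Φ m := Nat.cast_nonneg _
    have hX : (0:ℝ) ≤ m^2 * Dfc Φ := by positivity
    -- final arithmetic
    have h1 : (NA.card + NB.card : ℝ) * (11/10 * m) ≤
        (m^2 * Dfc Φ + (N1 Φ m + 10^5 * m^2 * Dfc Φ)) * (11/10 * m) := by
      refine mul_le_mul_of_nonneg_right ?_ (by positivity)
      linarith
    have h2 : (N1 Φ m : ℝ) + 10^5 * m^2 * Dfc Φ ≤ m * (N1 Φ m + 10^5 * m^2 * Dfc Φ) := by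
      have : (0:ℝ) ≤ N1 Φ m + 10^5 * m^2 * Dfc Φ := by positivity
      nlinarith
    have h3 : ((rs a).card : ℝ) ≤ m * (N1 Φ m + 10^5 * m^2 * Dfc Φ) +
        (m^2 * Dfc Φ + (N1 Φ m + 10^5 * m^2 * Dfc Φ)) * (11/10 * m) := by linarith
    have h4 : 0 ≤ m * (m^2 * Dfc Φ) := by positivity
    have h5 : 0 ≤ m * (N1 Φ m : ℝ) := by positivity
    calc ((rs a).card : ℝ) ≤ _ := h3
      _ = (2.1 * 10^5 + 1.1) * (m * (m^2 * Dfc Φ)) + 2.1 * (m * N1 Φ m) := by ring
      _ ≤ 3 * 10^5 * (m * (m^2 * Dfc Φ)) + 3 * (m * N1 Φ m) := by nlinarith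
      _ = 3 * 10^5 * m^3 * Dfc Φ + 3 * m * N1 Φ m := by ring

end Pool.LIN
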