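import Pool.Agent.Work.MP_1c7b0d_lin.Interface

/-! Block CPL: the coupling exists. helper65 -/

open MeasureTheory Matrix Pool.LH60 Pool.LH73
open scoped BigOperators

namespace Pool.LIN

theorem CPL_off {ι : Type} [Fintype ι] [DecidableEq ι] {K : ℕ} (Φ : Matrix ι (Fin K) ℝ)
    (w : ι → ℝ) (h : w ∉ Orth ι) : Yc Φ w = fun _ => 1 := by
  unfold Yc
  rw [dif_neg]
  exact fun h' => h h'.1

theorem CPL_update {ι : Type} [DecidableEq ι] (b w : ι → ℝ) (l : ι) (t : ℝ) :
    (fun j => Real.exp (-b j) * (Function.update w l t) j) =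
      Function.update (fun j => Real.exp (-b j) * w j) l (Real.exp (-b l) * t) := by
  funext j
  by_cases h : j = l
  · subst h; simp
  · simp [Function.update_of_ne h]

theorem CPL_thm (hYEX : Stmt_YEX) (hYBD : Stmt_YBD) (hYCO : Stmt_YCO) (hBST : Stmt_BST) :
    Stmt_CPL := by
  intro d K V Φ hV hvol
  have hΦ : Φᵀ * Φ = 1 := hV.2.1
  have hex := hYEX d K V Φ hV
  obtain ⟨C, hC1, hbd⟩ := hYBD d K V Φ hV hvol
  obtain ⟨y1, y2, y3, y4⟩ := hYCO (Ix d K) K Φ C hΦ hex hbd
  obtain ⟨b, hb⟩ := hBST (Ix d K) K Φ C hΦ hex hbd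
  have hS : ∀ w ∈ Orth (Ix d K), (fun j => Real.exp (-b j) * w j) ∈ Orth (Ix d K) :=
    fun w hw j => mul_pos (Real.exp_pos _) (hw j)
  refine ⟨b, ?_⟩
  constructor
  · -- pos
    intro w i
    by_cases h : (fun j => Real.exp (-b j) * w j) ∈ Orth (Ix d K)
    · exact (y1 _ h).1 i
    · simp only [CPL_off Φ _ h]; exact one_pos
  · -- meas
    refine y3.comp (measurable_pi_lambda _ fun j => ?_)
    exact (measurable_pi_apply j).const_mul _
  · -- bdd
    refine ⟨C, fun w i => ?_⟩
    by_cases h : (fun j => Real.exp (-b j) * w j) ∈ Orth (Ix d K)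
    · exact hbd _ h _ (y1 _ h) i
    · simp only [CPL_off Φ _ h]; exact hC1
  · -- orth
    intro w k
    by_cases h : (fun j => Real.exp (-b j) * w j) ∈ Orth (Ix d K)
    · exact (y1 _ h).2.1 k
    · simp only [CPL_off Φ _ h]; simp
  · -- cont
    refine y2.comp ?_ (fun w hw => hS w hw)
    exact (continuous_pi fun j => continuous_const.mul (continuous_apply j)).continuousOn
  · -- der
    intro w hw i l
    have h1 := y4 _ (hS w hw) i l
    have h2 : HasDerivAt (fun t : ℝ => Real.exp (-b l) * t) (Real.exp (-b l)) (w l) := by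
      simpa using (hasDerivAt_id (w l)).const_mul (Real.exp (-b l))
    have h3 := HasDerivAt.comp (w l) h1 h2
    have e1 : ((fun t => Yc Φ (Function.update (fun j => Real.exp (-b j) * w j) l t) i) ∘
        fun t : ℝ => Real.exp (-b l) * t) =
        fun t => Yc Φ (fun j => Real.exp (-b j) * (Function.update w l t) j) i := by
      funext t
      simp only [Function.comp]
      rw [CPL_update]
    rw [e1] at h3
    have hpe : Real.exp (-b l) ≠ 0 := (Real.exp_pos _).ne'
    have e2 : ∀ A : ℝ, A / w l = A / (Real.exp (-b l) * w l) * Real.exp (-b l) := by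
      intro A
      rw [div_mul_eq_mul_div, mul_comm A (Real.exp (-b l)), mul_div_mul_left _ _ hpe]
    rw [e2]
    exact h3
  · exact hb

end Pool.LIN
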