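import Pool.Agent.Work.MP_1c7b0d_lin.Interface

/-! Block DU1: integration by parts for the test matrix (helper93) -/

set_option autoImplicit false

open MeasureTheory Matrix Pool.LH60 Pool.LH73
open scoped BigOperators

namespace Pool.LIN

namespace DU1

variable {ι : Type} [Fintype ι] [DecidableEq ι] {K : ℕ}

theorem trace_eq (hBLM1 : Stmt_BLM1) (Φ : Matrix ι (Fin K) ℝ) (hΦ : Φᵀ * Φ = 1) (w z : ι → ℝ) :
    ((∑ l, (w l - 1) • Bl Φ l) * (Dm Φ z - 1)).trace =
      ∑ l, (w l - 1) * (∑ i, z i * PM Φ l i - (Bl Φ l).trace) := by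
  obtain ⟨-, -, h3, -⟩ := hBLM1 ι K Φ hΦ
  rw [Finset.sum_mul, Matrix.trace_sum]
  refine Finset.sum_congr rfl fun l _ => ?_
  rw [Matrix.smul_mul, Matrix.trace_smul, Matrix.mul_sub, Matrix.mul_one, Matrix.trace_sub, h3,
    smul_eq_mul]

/-- a measurable bounded function is integrable -/
theorem int_of_bdd {f : (ι → ℝ) → ℝ} (hf : Measurable f) (C : ℝ) (h : ∀ w, |f w| ≤ C) :
    Integrable f (Pw ι) :=
  Integrable.mono' (integrable_const C) hf.aestronglyMeasurable
    (Filter.Eventually.of_forall fun w => by rw [Real.norm_eq_abs]; exact h w)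

/-- product of an integrable function with a bounded measurable one -/
theorem int_mul_bdd {f g : (ι → ℝ) → ℝ} (hf : Integrable f (Pw ι)) (hg : Measurable g) (C : ℝ)
    (h : ∀ w, |g w| ≤ C) : Integrable (fun w => f w * g w) (Pw ι) := by
  refine Integrable.mono' (hf.abs.mul_const C) (hf.1.mul hg.aestronglyMeasurable)
    (Filter.Eventually.of_forall fun w => ?_)
  rw [Real.norm_eq_abs, abs_mul]
  exact mul_le_mul_of_nonneg_left (h w) (abs_nonneg _)

end DU1

open DU1 in
theorem DU1_thm (hIBP : Stmt_IBP) (hM4A : Stmt_M4A) (hBLM1 : Stmt_BLM1) (hINT : Stmt_INT)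
    (hCHI : Stmt_CHI) (hPRB : Stmt_PRB) : Stmt_DU1 := by
  intro ι _ _ K Φ y L hΦ hC hL
  obtain ⟨hchi, hcm, hcm'⟩ := hCHI L hL
  obtain ⟨hrm, -, ⟨C, hC0, hCb⟩, -, hDTi, -, -, -, -⟩ := hINT ι K Φ y hΦ hC
  obtain ⟨hm1, -, -⟩ := hM4A ι
  have hBL4 := (hBLM1 ι K Φ hΦ).2.2.2
  have hym : ∀ i, Measurable (fun w => y w i) := fun i => (measurable_pi_apply i).comp hC.meas
  have hTm : ∀ i l, Measurable (fun w => Tm Φ (y w) i l) := by
    intro i l
    have e : (fun w => Tm Φ (y w) i l) =
        fun w => (if i = l then y w i else 0) - y w i * rho Φ (y w) i l * y w l := rfl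
    rw [e]
    refine Measurable.sub ?_ (((hym i).mul (hrm i l)).mul (hym l))
    split_ifs
    · exact hym i
    · exact measurable_const
  have hTb : ∀ w i l, |Tm Φ (y w) i l| ≤ C := fun w => (hCb w).2.2.2.1
  have hch : ∀ w i, 0 < chi L (y w i) ∧ chi L (y w i) ≤ 2 * L ∧ 0 < chi' L (y w i) ∧
      chi' L (y w i) ≤ 1 := by
    intro w i
    obtain ⟨-, a1, -, a3, a4, a5, -⟩ := hchi (y w i) (hC.pos w i)
    exact ⟨a1, a3, a4, a5⟩
  have hcy : ∀ i, Measurable (fun w => chi L (y w i)) := fun i => hcm.comp (hym i)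
  have hcy' : ∀ i, Measurable (fun w => chi' L (y w i)) := fun i => hcm'.comp (hym i)
  -- the functions
  set F : ι → (ι → ℝ) → ℝ := fun l w => ∑ i, chi L (y w i) * PM Φ l i with hF
  set G : ι → (ι → ℝ) → ℝ := fun l w => ∑ i, chi' L (y w i) * Tm Φ (y w) i l * PM Φ l i with hG
  have hFm : ∀ l, Measurable (F l) := fun l =>
    Finset.measurable_fun_sum _ fun i _ => (hcy i).mul_const _
  have hGm : ∀ l, Measurable (G l) := fun l =>
    Finset.measurable_fun_sum _ fun i _ => ((hcy' i).mul (hTm i l)).mul_const _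
  have hFb : ∀ l w, |F l w| ≤ ∑ i, 2 * L * |PM Φ l i| := by
    intro l w
    refine (Finset.abs_sum_le_sum_abs _ _).trans (Finset.sum_le_sum fun i _ => ?_)
    rw [abs_mul, abs_of_pos (hch w i).1]
    exact mul_le_mul_of_nonneg_right (hch w i).2.1 (abs_nonneg _)
  have hGb : ∀ l w, |G l w| ≤ ∑ i, C * |PM Φ l i| := by
    intro l w
    refine (Finset.abs_sum_le_sum_abs _ _).trans (Finset.sum_le_sum fun i _ => ?_)
    rw [abs_mul, abs_mul, abs_of_pos (hch w i).2.2.1]
    refine mul_le_mul_of_nonneg_right ?_ (abs_nonneg _)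
    calc chi' L (y w i) * |Tm Φ (y w) i l| ≤ 1 * |Tm Φ (y w) i l| :=
          mul_le_mul_of_nonneg_right (hch w i).2.2.2 (abs_nonneg _)
      _ ≤ C := by rw [one_mul]; exact hTb w i l
  have hFi : ∀ l, Integrable (fun w : ι → ℝ => (w l - 1) * F l w) (Pw ι) := fun l =>
    int_mul_bdd (hm1 l).1 (hFm l) _ (hFb l)
  have hGi : ∀ l, Integrable (G l) (Pw ι) := fun l => int_of_bdd (hGm l) _ (hGb l)
  -- integration by parts
  have hibp : ∀ l, ∫ w : ι → ℝ, (w l - 1) * F l w ∂Pw ι = ∫ w, G l w ∂Pw ι := by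
    intro l
    have h1 := hIBP ι l (F l) (fun w => G l w / w l) (hFm l)
      ((hGm l).div (measurable_pi_apply l))
      ⟨(∑ i, 2 * L * |PM Φ l i|) + ∑ i, C * |PM Φ l i|, fun w => ⟨?_, ?_⟩⟩ ?_
    · rw [h1]
      refine integral_congr_ae ?_
      filter_upwards [hPRB.2.1 ι] with w hw
      have hl : w l ≠ 0 := (hw l).ne'
      field_simp
    · have h2 : 0 ≤ ∑ i, C * |PM Φ l i| :=
        Finset.sum_nonneg fun i _ => mul_nonneg hC0 (abs_nonneg _)
      linarith [hFb l w]
    · have h2 : 0 ≤ ∑ i, 2 * L * |PM Φ l i| :=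
        Finset.sum_nonneg fun i _ => mul_nonneg (by linarith) (abs_nonneg _)
      have h3 : |w l * (G l w / w l)| ≤ |G l w| := by
        rcases eq_or_ne (w l) 0 with h | h
        · rw [h]; simp
        · rw [mul_div_cancel₀ _ h]
      linarith [hGb l w]
    · intro w hw
      have h4 : ∀ i ∈ (Finset.univ : Finset ι),
          HasDerivAt (fun t => chi L (y (Function.update w l t) i) * PM Φ l i)
          (chi' L (y w i) * (Tm Φ (y w) i l / w l) * PM Φ l i) (w l) := by
        intro i _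
        have h5 := hC.der w hw i l
        have h6 : HasDerivAt (chi L) (chi' L (y w i)) (y (Function.update w l (w l)) i) := by
          rw [Function.update_eq_self]
          exact (hchi (y w i) (hC.pos w i)).1
        exact (h6.comp (w l) h5).mul_const _
      have h7 := HasDerivAt.fun_sum h4
      have e : (G l w / w l) = ∑ i, chi' L (y w i) * (Tm Φ (y w) i l / w l) * PM Φ l i := by
        simp only [hG]
        rw [Finset.sum_div]
        refine Finset.sum_congr rfl fun i _ => ?_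
        ring
      rw [e]
      exact h7
  have htr : ∀ w : ι → ℝ, ((∑ l, (w l - 1) • Bl Φ l) *
      (Dm Φ (fun i => chi L (y w i)) - 1)).trace =
      ∑ l, ((w l - 1) * F l w - (w l - 1) * (Bl Φ l).trace) := by
    intro w
    rw [trace_eq hBLM1 Φ hΦ]
    exact Finset.sum_congr rfl fun l _ => by simp only [hF]; ring
  have hint : ∀ l ∈ (Finset.univ : Finset ι),
      Integrable (fun w : ι → ℝ => (w l - 1) * F l w - (w l - 1) * (Bl Φ l).trace) (Pw ι) :=
    fun l _ => (hFi l).sub ((hm1 l).1.mul_const _)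
  have hsumG : ∀ w, ∑ l, G l w = ∑ i, chi' L (y w i) * TMd Φ (y w) i := by
    intro w
    simp only [hG]
    rw [Finset.sum_comm]
    refine Finset.sum_congr rfl fun i _ => ?_
    rw [← hBL4 (y w) (hC.pos w) i, Finset.mul_sum]
    exact Finset.sum_congr rfl fun l _ => by ring
  have hTMm : ∀ i, Measurable (fun w => TMd Φ (y w) i) := by
    intro i
    unfold TMd
    exact Finset.measurable_fun_sum _ fun l _ => (hTm i l).mul_const _
  have hTMb : ∀ i w, |TMd Φ (y w) i| ≤ ∑ l, C * (pp Φ i l)^2 := by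
    intro i w
    unfold TMd
    refine (Finset.abs_sum_le_sum_abs _ _).trans (Finset.sum_le_sum fun l _ => ?_)
    rw [abs_mul, abs_of_nonneg (sq_nonneg (pp Φ i l))]
    exact mul_le_mul_of_nonneg_right (hTb w i l) (sq_nonneg _)
  have hcTi : Integrable (fun w => ∑ i, chi' L (y w i) * TMd Φ (y w) i) (Pw ι) := by
    refine integrable_finsetSum _ fun i _ => int_of_bdd ((hcy' i).mul (hTMm i))
      (∑ l, C * (pp Φ i l)^2) fun w => ?_
    rw [abs_mul, abs_of_pos (hch w i).2.2.1]
    exact (mul_le_of_le_one_left (abs_nonneg _) (hch w i).2.2.2).trans (hTMb i w)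
  have hfil : ∀ w, ∑ i ∈ Finset.univ.filter (fun i => L < y w i), |TMd Φ (y w) i| =
      ∑ i, if L < y w i then |TMd Φ (y w) i| else 0 := fun w => Finset.sum_filter _ _
  have hfi : Integrable (fun w => ∑ i ∈ Finset.univ.filter (fun i => L < y w i),
      |TMd Φ (y w) i|) (Pw ι) := by
    simp only [hfil]
    refine integrable_finsetSum _ fun i _ => int_of_bdd
      (Measurable.ite (measurableSet_lt measurable_const (hym i)) (hTMm i).abs measurable_const)
      (∑ l, C * (pp Φ i l)^2) fun w => ?_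
    split_ifs
    · rw [abs_abs]; exact hTMb i w
    · rw [abs_zero]; exact Finset.sum_nonneg fun l _ => mul_nonneg hC0 (sq_nonneg _)
  refine ⟨?_, ?_, ?_⟩
  · simp only [htr]
    exact integrable_finsetSum _ hint
  · simp only [htr]
    rw [integral_finsetSum _ hint]
    have h1 : ∀ l ∈ (Finset.univ : Finset ι),
        ∫ w : ι → ℝ, ((w l - 1) * F l w - (w l - 1) * (Bl Φ l).trace) ∂Pw ι = ∫ w, G l w ∂Pw ι := by
      intro l _
      rw [integral_sub (hFi l) ((hm1 l).1.mul_const _), integral_mul_const, (hm1 l).2, zero_mul,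
        sub_zero, hibp l]
    rw [Finset.sum_congr rfl h1, ← integral_finsetSum _ fun l _ => hGi l]
    exact integral_congr_ae (Filter.Eventually.of_forall fun w => hsumG w)
  · rw [← integral_add hcTi hfi]
    refine integral_mono hDTi (hcTi.add hfi) fun w => ?_
    simp only [hfil]
    unfold DT
    rw [← Finset.sum_add_distrib]
    refine Finset.sum_le_sum fun i _ => ?_
    obtain ⟨-, a1, -, a3, a4, a5, a6, -⟩ := hchi (y w i) (hC.pos w i)
    split_ifs with h
    · have h1 := neg_abs_le (TMd Φ (y w) i)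
      have h2 := le_abs_self (TMd Φ (y w) i)
      have h3 : (1 - chi' L (y w i)) * TMd Φ (y w) i ≤ 1 * |TMd Φ (y w) i| := by
        calc (1 - chi' L (y w i)) * TMd Φ (y w) i ≤ (1 - chi' L (y w i)) * |TMd Φ (y w) i| :=
              mul_le_mul_of_nonneg_left h2 (by linarith)
          _ ≤ 1 * |TMd Φ (y w) i| := mul_le_mul_of_nonneg_right (by linarith) (abs_nonneg _)
      linarith
    · rw [(a6 (not_lt.mp h)).2]
      linarith

end Pool.LIN
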