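import Pool.Agent.Work.MP_1c7b0d_lin.Interface

/-! Block DUA (helper9): the duality estimate `E DT ≤ 90 Dfc/√m + 4000 √m (EG + Nc)`. -/

open MeasureTheory Matrix Pool.LH60 Pool.LH73
open scoped BigOperators

namespace Pool.LIN

/-- eigenvalues of `D_z` are at most `max z` -/
private theorem DUA_eig {ι : Type} [Fintype ι] [DecidableEq ι] {K : ℕ}
    (Φ : Matrix ι (Fin K) ℝ) (z : ι → ℝ) (hΦ : Φᵀ * Φ = 1) (e : Fin K → ℝ)
    (Q : Matrix (Fin K) (Fin K) ℝ) (h : EigD (Dm Φ z) e Q) (R : ℝ) (hR : ∀ i, z i ≤ R) :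
    ∀ k, e k ≤ R := by
  intro k
  have h1 : Qᵀ * Dm Φ z * Q = Matrix.diagonal e := by
    rw [h.eq]
    calc Qᵀ * (Q * Matrix.diagonal e * Qᵀ) * Q
        = (Qᵀ * Q) * Matrix.diagonal e * (Qᵀ * Q) := by simp only [Matrix.mul_assoc]
      _ = Matrix.diagonal e := by rw [h.orth]; simp
  have h2 : Qᵀ * Dm Φ z * Q = (Φ * Q)ᵀ * Matrix.diagonal z * (Φ * Q) := by
    unfold Dm
    simp only [Matrix.transpose_mul, Matrix.mul_assoc]
  have h3 : (Φ * Q)ᵀ * (Φ * Q) = 1 := by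
    calc (Φ * Q)ᵀ * (Φ * Q) = Qᵀ * (Φᵀ * Φ) * Q := by
          simp only [Matrix.transpose_mul, Matrix.mul_assoc]
      _ = 1 := by rw [hΦ]; simp [h.orth]
  have h4 : e k = ∑ i, z i * ((Φ * Q) i k)^2 := by
    have := congrFun (congrFun (h1.symm.trans h2) k) k
    rw [Matrix.diagonal_apply_eq] at this
    rw [this, Matrix.mul_apply]
    refine Finset.sum_congr rfl fun i _ => ?_
    rw [Matrix.mul_diagonal, Matrix.transpose_apply]
    ring
  have h5 : ∑ i, ((Φ * Q) i k)^2 = 1 := by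
    have := congrFun (congrFun h3 k) k
    rw [Matrix.one_apply_eq, Matrix.mul_apply] at this
    rw [← this]
    refine Finset.sum_congr rfl fun i _ => ?_
    rw [Matrix.transpose_apply]
    ring
  calc e k = ∑ i, z i * ((Φ * Q) i k)^2 := h4
    _ ≤ ∑ i, R * ((Φ * Q) i k)^2 := by
        refine Finset.sum_le_sum fun i _ => ?_
        exact mul_le_mul_of_nonneg_right (hR i) (sq_nonneg _)
    _ = R := by rw [← Finset.mul_sum, h5, mul_one]

private theorem DUA_int {Ω : Type} [MeasurableSpace Ω] (μ : Measure Ω) (f g h : Ω → ℝ)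
    (hf : Integrable f μ) (hg : Integrable g μ) (hh : Integrable h μ) (a b c : ℝ) :
    ∫ x, (f x / a + b * g x + c * h x) ∂μ =
      (∫ x, f x ∂μ) / a + b * (∫ x, g x ∂μ) + c * ∫ x, h x ∂μ := by
  have h1 : Integrable (fun x => f x / a + b * g x) μ := (hf.div_const a).add (hg.const_mul b)
  have h2 : Integrable (fun x => f x / a) μ := hf.div_const a
  rw [integral_add h1 (hh.const_mul c), integral_add h2 (hg.const_mul b),
    integral_div, integral_const_mul, integral_const_mul]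

theorem DUA_thm (hDU1 : Stmt_DU1) (hHOL : Stmt_HOL) (hTRU : Stmt_TRU) (hLCN : Stmt_LCN)
    (hLCE : Stmt_LCE) (hBLM1 : Stmt_BLM1) (hBLM2 : Stmt_BLM2) (hBLM3 : Stmt_BLM3)
    (hM4 : Stmt_M4) (hCHI : Stmt_CHI) (hINT : Stmt_INT) (hEIGX : Stmt_EIGX) (hPDG : Stmt_PDG)
    (hDEF1 : Stmt_DEF1) : Stmt_DUA := by
  intro ι _ _ K Φ y m hm hΦ hC
  have hm0 : 0 < m := by linarith
  have hm1 : 1 ≤ m := by linarith
  have hL : 0 < m^2 := by positivity
  set s := Real.sqrt m with hs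
  have hs0 : 0 < s := Real.sqrt_pos.mpr hm0
  have hss : s^2 = m := Real.sq_sqrt hm0.le
  obtain ⟨hI1, hI2, hI3⟩ := hDU1 ι K Φ y (m^2) hΦ hC hL
  obtain ⟨-, -, ⟨C, hC0, hCb⟩, hGi, hDTi, -, hyi, -, -⟩ := hINT ι K Φ y hΦ hC
  obtain ⟨hBs, hBt, -, -⟩ := hBLM1 ι K Φ hΦ
  obtain ⟨⟨hA2i, hA2⟩, hA4i, hA4⟩ := hM4 ι K (Bl Φ) hBs
  have hb2 := hBLM2 ι K Φ m hΦ hm1
  have hb3 := hBLM3 ι K Φ m hΦ hm1
  obtain ⟨-, -, hcn, -, -, hDfc⟩ := hDEF1 ι K Φ hΦ
  obtain ⟨hχ, -, -⟩ := hCHI (m^2) hL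
  -- notation
  set S := ∑ i ∈ Cs Φ m, (cn Φ i)^2 with hS
  set c := ((Cs Φ m).card : ℝ) with hc
  have hNc : Nc Φ m = c / m^2 + S := rfl
  have hS0 : 0 ≤ S := Finset.sum_nonneg fun i _ => sq_nonneg _
  have hc0 : 0 ≤ c := Nat.cast_nonneg _
  have hEG0 : 0 ≤ EG Φ y := integral_nonneg fun w => (hCb w).2.1
  -- pointwise bound of the dual pairing
  have hpt : ∀ w : ι → ℝ,
      ((∑ l, (w l - 1) • Bl Φ l) * (Dm Φ (fun i => chi (m^2) (y w i)) - 1)).trace ≤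
      ((∑ l, (w l - 1) • Bl Φ l) * (∑ l, (w l - 1) • Bl Φ l)).trace / (2 * s)
      + 3 * s * (501 * GG (Dm Φ (y w)) + (∑ i ∈ Cs Φ m, y w i) / (2 * m^2))
      + 2 * s * ((∑ l, (w l - 1) • Bl Φ l)^4).trace := by
    intro w
    set A := ∑ l, (w l - 1) • Bl Φ l with hA
    have hAs : Aᵀ = A := by
      rw [hA, Matrix.transpose_sum]
      refine Finset.sum_congr rfl fun l _ => ?_
      rw [Matrix.transpose_smul, hBs l]
    have hz : ∀ i, 0 < chi (m^2) (y w i) ∧ chi (m^2) (y w i) ≤ y w i := fun i =>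
      ⟨(hχ _ (hC.pos w i)).2.1, (hχ _ (hC.pos w i)).2.2.1⟩
    obtain ⟨e, Q, hEQ⟩ := hEIGX K (Dm Φ (fun i => chi (m^2) (y w i)))
      (hPDG ι K Φ _ hΦ fun i => (hz i).1)
    have he : ∀ k, e k ≤ 2 * m^2 :=
      DUA_eig Φ _ hΦ e Q hEQ (2 * m^2) fun i => (hχ _ (hC.pos w i)).2.2.2.1
    have h1 := hHOL K A (Dm Φ (fun i => chi (m^2) (y w i))) e Q s (2 * m^2) hEQ hAs hs0 he
      (by positivity)
    have h2 := hTRU ι K Φ (y w) (fun i => chi (m^2) (y w i)) hΦ hz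
    have h3 := hLCN ι K Φ (y w) m hΦ hm (hC.pos w)
    have h4 : ((Finset.univ.filter (fun i => chi (m^2) (y w i) ≠ y w i)).card : ℝ) ≤
        ((Finset.univ.filter (fun i => m^2 < y w i)).card : ℝ) := by
      norm_cast
      refine Finset.card_le_card ?_
      intro i hi
      rw [Finset.mem_filter] at hi ⊢
      refine ⟨hi.1, ?_⟩
      by_contra hcon
      exact hi.2 ((hχ _ (hC.pos w i)).2.2.2.2.2.2.1 (not_lt.mp hcon)).1
    have h5 : 2 * m^2 / s^3 = 2 * s := by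
      rw [← hss]
      field_simp
    rw [h5] at h1
    have h6 : GG (Dm Φ (fun i => chi (m^2) (y w i))) ≤
        501 * GG (Dm Φ (y w)) + (∑ i ∈ Cs Φ m, y w i) / (2 * m^2) := by
      have h7 : (∑ i ∈ Cs Φ m, y w i) / (2 * m^2) = (∑ i ∈ Cs Φ m, y w i) / m^2 / 2 := by
        rw [div_div, mul_comm]
      rw [h7]
      linarith
    have h7 : 3 * s * GG (Dm Φ (fun i => chi (m^2) (y w i))) ≤
        3 * s * (501 * GG (Dm Φ (y w)) + (∑ i ∈ Cs Φ m, y w i) / (2 * m^2)) :=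
      mul_le_mul_of_nonneg_left h6 (by positivity)
    linarith
  have hysum : Integrable (fun w => ∑ i ∈ Cs Φ m, y w i) (Pw ι) :=
    integrable_finsetSum _ fun i _ => hyi i
  have hysumv : ∫ w, ∑ i ∈ Cs Φ m, y w i ∂Pw ι = c := by
    rw [integral_finsetSum _ fun i _ => hyi i]
    rw [Finset.sum_congr rfl fun i _ => hC.mean i]
    simp [hc]
  have hg1 : Integrable (fun w => 501 * GG (Dm Φ (y w)) + (∑ i ∈ Cs Φ m, y w i) / (2 * m^2))
      (Pw ι) := (hGi.const_mul _).add (hysum.div_const _)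
  have hE1 : ∫ w, ((∑ l, (w l - 1) • Bl Φ l) *
      (Dm Φ (fun i => chi (m^2) (y w i)) - 1)).trace ∂Pw ι ≤
      Dfc Φ / (2 * s) + 3 * s * (501 * EG Φ y + c / (2 * m^2)) +
        2 * s * ∫ w : ι → ℝ, ((∑ l, (w l - 1) • Bl Φ l)^4).trace ∂Pw ι := by
    refine (integral_mono hI1 (((hA2i.div_const (2 * s)).add (hg1.const_mul (3 * s))).add
      (hA4i.const_mul (2 * s))) hpt).trans (le_of_eq ?_)
    have e1 : ∫ w : ι → ℝ, (((∑ l, (w l - 1) • Bl Φ l) * (∑ l, (w l - 1) • Bl Φ l)).trace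
          / (2 * s)
        + 3 * s * (501 * GG (Dm Φ (y w)) + (∑ i ∈ Cs Φ m, y w i) / (2 * m^2))
        + 2 * s * ((∑ l, (w l - 1) • Bl Φ l)^4).trace) ∂Pw ι =
        (∫ w : ι → ℝ, ((∑ l, (w l - 1) • Bl Φ l) * (∑ l, (w l - 1) • Bl Φ l)).trace ∂Pw ι)
          / (2 * s)
        + 3 * s * (∫ w, (501 * GG (Dm Φ (y w)) + (∑ i ∈ Cs Φ m, y w i) / (2 * m^2)) ∂Pw ι)
        + 2 * s * ∫ w : ι → ℝ, ((∑ l, (w l - 1) • Bl Φ l)^4).trace ∂Pw ι := by
      exact DUA_int _ _ _ _ hA2i hg1 hA4i _ _ _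
    have e2 : ∫ w, (501 * GG (Dm Φ (y w)) + (∑ i ∈ Cs Φ m, y w i) / (2 * m^2)) ∂Pw ι =
        501 * EG Φ y + c / (2 * m^2) := by
      rw [integral_add (hGi.const_mul _) (hysum.div_const _), integral_const_mul, integral_div,
        hysumv]
      rfl
    rw [← hBt, ← hA2, ← e2]
    exact e1
  have hE4 : ∫ w : ι → ℝ, ((∑ l, (w l - 1) • Bl Φ l)^4).trace ∂Pw ι ≤
      41 / m * Dfc Φ + 147 * S := by
    have h1 : 3 * (21 / (20 * m) * Dfc Φ + S) + 9 * (21 / (5 * m) * Dfc Φ + 16 * S) ≤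
        41 / m * Dfc Φ + 147 * S := by
      have : 3 * (21 / (20 * m) * Dfc Φ + S) + 9 * (21 / (5 * m) * Dfc Φ + 16 * S) =
        (4095/100) / m * Dfc Φ + 147 * S := by
        field_simp
        ring
      rw [this]
      have h2 : (4095/100) / m * Dfc Φ ≤ 41 / m * Dfc Φ :=
        mul_le_mul_of_nonneg_right (div_le_div_of_nonneg_right (by norm_num) hm0.le) hDfc
      linarith
    linarith
  have hE2 : ∫ w, ∑ i ∈ Finset.univ.filter (fun i => m^2 < y w i), |TMd Φ (y w) i| ∂Pw ι ≤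
      1000 * s * EG Φ y + 2 / s * ∑ i ∈ Cs Φ m, cn Φ i := by
    have hcy : Integrable (fun w => ∑ i ∈ Cs Φ m, cn Φ i * y w i) (Pw ι) :=
      integrable_finsetSum _ fun i _ => (hyi i).const_mul _
    have hcyv : ∫ w, ∑ i ∈ Cs Φ m, cn Φ i * y w i ∂Pw ι = ∑ i ∈ Cs Φ m, cn Φ i := by
      rw [integral_finsetSum _ fun i _ => (hyi i).const_mul _]
      refine Finset.sum_congr rfl fun i _ => ?_
      rw [integral_const_mul, hC.mean i, mul_one]
    refine (integral_mono_of_nonneg (Filter.Eventually.of_forall fun w =>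
      Finset.sum_nonneg fun i _ => abs_nonneg _)
      ((hGi.const_mul (1000 * s)).add (hcy.const_mul (2 / s)))
      (Filter.Eventually.of_forall fun w => hLCE ι K Φ (y w) m hΦ hm (hC.pos w))).trans
      (le_of_eq ?_)
    have e1 : ∫ w, (1000 * s * GG (Dm Φ (y w)) + 2 / s * ∑ i ∈ Cs Φ m, cn Φ i * y w i) ∂Pw ι =
        1000 * s * EG Φ y + 2 / s * ∑ i ∈ Cs Φ m, cn Φ i := by
      rw [integral_add (hGi.const_mul _) (hcy.const_mul _), integral_const_mul,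
        integral_const_mul, hcyv]
      rfl
    exact e1
  have hcs : 2 / s * ∑ i ∈ Cs Φ m, cn Φ i ≤ s * (c / m^2 + S) := by
    have h1 : ∀ i ∈ Cs Φ m, 2 / s * cn Φ i ≤ s * (1 / m^2 + (cn Φ i)^2) := by
      intro i _
      have h2 : 2 / s * cn Φ i = s * (2 * (1 / m) * cn Φ i) := by
        rw [← hss]
        field_simp
      rw [h2]
      refine mul_le_mul_of_nonneg_left ?_ hs0.le
      have h3 : 1 / m^2 = (1 / m)^2 := by rw [div_pow, one_pow]
      rw [h3]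
      nlinarith [sq_nonneg (1 / m - cn Φ i)]
    calc 2 / s * ∑ i ∈ Cs Φ m, cn Φ i = ∑ i ∈ Cs Φ m, 2 / s * cn Φ i := by
          rw [Finset.mul_sum]
      _ ≤ ∑ i ∈ Cs Φ m, s * (1 / m^2 + (cn Φ i)^2) := Finset.sum_le_sum h1
      _ = s * (c / m^2 + S) := by
          rw [← Finset.mul_sum, Finset.sum_add_distrib, Finset.sum_const, nsmul_eq_mul, ← hc,
            ← hS, mul_one_div]
  -- assembly
  have hfin : ∫ w, DT Φ (y w) ∂Pw ι ≤
      Dfc Φ / (2 * s) + 3 * s * (501 * EG Φ y + c / (2 * m^2)) +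
        2 * s * (41 / m * Dfc Φ + 147 * S) + (1000 * s * EG Φ y + s * (c / m^2 + S)) := by
    have h1 : 2 * s * ∫ w : ι → ℝ, ((∑ l, (w l - 1) • Bl Φ l)^4).trace ∂Pw ι ≤
        2 * s * (41 / m * Dfc Φ + 147 * S) := mul_le_mul_of_nonneg_left hE4 (by positivity)
    linarith [hI2]
  refine hfin.trans ?_
  rw [hNc]
  have e3 : 2 * s * (41 / m * Dfc Φ) = 82 * (Dfc Φ / s) := by
    rw [← hss]
    field_simp
    ring
  have e4 : Dfc Φ / (2 * s) = 1/2 * (Dfc Φ / s) := by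
    field_simp
  have e5 : c / (2 * m^2) = 1/2 * (c / m^2) := by
    field_simp
  have e6 : 90 * Dfc Φ / s = 90 * (Dfc Φ / s) := by
    rw [mul_div_assoc]
  have hD0 : 0 ≤ Dfc Φ / s := div_nonneg hDfc hs0.le
  have hc1 : 0 ≤ s * (c / m^2) := by positivity
  have hS1 : 0 ≤ s * S := by positivity
  have hG1 : 0 ≤ s * EG Φ y := mul_nonneg hs0.le hEG0
  rw [e4, e5, e6]
  have e7 : 2 * s * (41 / m * Dfc Φ + 147 * S) = 82 * (Dfc Φ / s) + 294 * (s * S) := by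
    rw [mul_add, e3]
    ring
  rw [e7]
  nlinarith
end Pool.LIN
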