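import Pool.Agent.Work.MP_1c7b0d_lin.Interface

/-! Block DWT (helper45): pairs touching a set of rows. -/

open MeasureTheory Matrix Pool.LH60 Pool.LH73
open scoped BigOperators

namespace Pool.LIN

set_option linter.unusedSectionVars false

namespace DWT

variable {ι : Type} [Fintype ι] [DecidableEq ι] {K : ℕ}

theorem pp_symm (Φ : Matrix ι (Fin K) ℝ) (i j : ι) : pp Φ i j = pp Φ j i := by
  unfold pp
  exact Finset.sum_congr rfl fun k _ => mul_comm _ _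

theorem ds_le (Φ : Matrix ι (Fin K) ℝ) (i j : ι) : ds Φ i j ≤ 2 * cn Φ i + 2 * cn Φ j := by
  unfold ds cn
  rw [Finset.mul_sum, Finset.mul_sum, ← Finset.sum_add_distrib]
  refine Finset.sum_le_sum fun k _ => ?_
  nlinarith [sq_nonneg (Φ i k + Φ j k)]

theorem cn_le_out (Φ : Matrix ι (Fin K) ℝ) {m : ℝ} (hm : 1 ≤ m) {j : ι} (hj : j ∉ Cs Φ m) :
    cn Φ j ≤ 21 / 20 / m := by
  have hm0 : 0 < m := by linarith
  have h1 : |m * cn Φ j - 1| ≤ 1/20 := by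
    by_contra hcon
    refine hj ?_
    unfold Cs
    rw [Finset.mem_filter]
    exact ⟨Finset.mem_univ _, not_le.1 hcon⟩
  rw [le_div_iff₀ hm0]
  have h2 := (abs_le.1 h1).2
  linarith

/-- bound for one row -/
theorem row_le (Φ : Matrix ι (Fin K) ℝ) {m : ℝ} (hm : 1 ≤ m)
    (h1 : ∀ i, ∑ j, (pp Φ i j)^2 = cn Φ i) (i : ι) :
    ∑ j, (pp Φ i j)^2 * ds Φ i j ≤
      2 * (cn Φ i)^2 + 21 / 10 / m * cn Φ i + 2 * ∑ j ∈ Cs Φ m, (pp Φ i j)^2 * cn Φ j := by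
  have hm0 : 0 < m := by linarith
  have h2 : 2 * (21 / 20 / m) = 21 / 10 / m := by ring
  have hstep : ∀ j, (pp Φ i j)^2 * ds Φ i j ≤
      ((pp Φ i j)^2 * (2 * cn Φ i) + (pp Φ i j)^2 * (21 / 10 / m)) +
        2 * (if j ∈ Cs Φ m then (pp Φ i j)^2 * cn Φ j else 0) := by
    intro j
    have h3 := mul_le_mul_of_nonneg_left (ds_le Φ i j) (sq_nonneg (pp Φ i j))
    by_cases hj : j ∈ Cs Φ m
    · rw [if_pos hj]
      have h4 : 0 ≤ (pp Φ i j)^2 * (21 / 10 / m) := by positivity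
      linarith
    · rw [if_neg hj]
      have h4 := mul_le_mul_of_nonneg_left (cn_le_out Φ hm hj) (sq_nonneg (pp Φ i j))
      have h5 : (pp Φ i j)^2 * (2 * (21 / 20 / m)) = (pp Φ i j)^2 * (21 / 10 / m) := by rw [h2]
      linarith
  refine (Finset.sum_le_sum fun j _ => hstep j).trans (le_of_eq ?_)
  rw [Finset.sum_add_distrib, Finset.sum_add_distrib, ← Finset.sum_mul, ← Finset.sum_mul, h1 i,
    ← Finset.mul_sum, Finset.sum_ite_mem, Finset.univ_inter]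
  ring

/-- a quadratic bound -/
theorem quad (Φ : Matrix ι (Fin K) ℝ) {m : ℝ} (hm : 1 ≤ m) (hc : ∀ i, 0 ≤ cn Φ i) (i : ι) :
    2 * (cn Φ i)^2 + 21 / 10 / m * cn Φ i ≤
      5 / m^2 + if i ∈ Cs Φ m then 3 * (cn Φ i)^2 + 5 / m^2 else 0 := by
  have hm0 : 0 < m := by linarith
  have hu : 0 < 1 / m := by positivity
  have e1 : 21 / 10 / m * cn Φ i = 21 / 10 * ((1 / m) * cn Φ i) := by ring
  have e2 : 5 / m^2 = 5 * (1 / m)^2 := by
    field_simp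
  rw [e1, e2]
  by_cases hi : i ∈ Cs Φ m
  · rw [if_pos hi]
    nlinarith [sq_nonneg (cn Φ i - 21 / 20 * (1 / m)), sq_nonneg (1 / m)]
  · rw [if_neg hi]
    have h2 := cn_le_out Φ hm hi
    have h3 : cn Φ i ≤ 21 / 20 * (1 / m) := by
      have : 21 / 20 / m = 21 / 20 * (1 / m) := by ring
      linarith
    have h4 := mul_le_mul h3 h3 (hc i) (by positivity)
    have h5 := mul_le_mul_of_nonneg_left h3 hu.le
    nlinarith

end DWT

open DWT in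
theorem DWT_thm (hDEF1 : Stmt_DEF1) : Stmt_DWT := by
  intro ι _ _ K Φ m E hΦ hm
  obtain ⟨h1, _, h3, _, _, _⟩ := hDEF1 ι K Φ hΦ
  have hm0 : 0 < m := by linarith
  have hc : ∀ i, 0 ≤ cn Φ i := fun i => (h3 i).1
  have hE1 : ∑ i ∈ E, ∑ j, (pp Φ i j)^2 * ds Φ i j ≤
      ∑ i ∈ E, ((5 / m^2 + if i ∈ Cs Φ m then 3 * (cn Φ i)^2 + 5 / m^2 else 0) +
        2 * ∑ j ∈ Cs Φ m, (pp Φ i j)^2 * cn Φ j) := by
    refine Finset.sum_le_sum fun i _ => ?_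
    have h4 := row_le Φ hm h1 i
    have h5 := quad Φ hm hc i
    linarith
  have hE2 : ∑ i ∈ E, (if i ∈ Cs Φ m then 3 * (cn Φ i)^2 + 5 / m^2 else 0) ≤
      ∑ i ∈ Cs Φ m, (3 * (cn Φ i)^2 + 5 / m^2) := by
    rw [Finset.sum_ite_mem]
    refine Finset.sum_le_sum_of_subset_of_nonneg Finset.inter_subset_right ?_
    intro i _ _
    positivity
  have hE3 : ∑ i ∈ E, ∑ j ∈ Cs Φ m, (pp Φ i j)^2 * cn Φ j ≤ ∑ j ∈ Cs Φ m, (cn Φ j)^2 := by
    rw [Finset.sum_comm]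
    refine Finset.sum_le_sum fun j _ => ?_
    calc ∑ i ∈ E, (pp Φ i j)^2 * cn Φ j ≤ ∑ i, (pp Φ i j)^2 * cn Φ j := by
          refine Finset.sum_le_sum_of_subset_of_nonneg (Finset.subset_univ _) ?_
          intro i _ _
          exact mul_nonneg (sq_nonneg _) (hc j)
      _ = (cn Φ j)^2 := by
          rw [← Finset.sum_mul]
          have h4 : ∑ i, (pp Φ i j)^2 = cn Φ j := by
            rw [← h1 j]
            exact Finset.sum_congr rfl fun i _ => by rw [pp_symm]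
          rw [h4]
          ring
  have hE4 : ∑ i ∈ Cs Φ m, (3 * (cn Φ i)^2 + 5 / m^2) =
      3 * ∑ i ∈ Cs Φ m, (cn Φ i)^2 + 5 * ((Cs Φ m).card : ℝ) / m^2 := by
    rw [Finset.sum_add_distrib, ← Finset.mul_sum, Finset.sum_const, nsmul_eq_mul]
    ring
  have hE5 : ∑ i ∈ E, ((5 / m^2 + if i ∈ Cs Φ m then 3 * (cn Φ i)^2 + 5 / m^2 else 0) +
        2 * ∑ j ∈ Cs Φ m, (pp Φ i j)^2 * cn Φ j) =
      5 * (E.card : ℝ) / m^2 + ∑ i ∈ E, (if i ∈ Cs Φ m then 3 * (cn Φ i)^2 + 5 / m^2 else 0) +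
        2 * ∑ i ∈ E, ∑ j ∈ Cs Φ m, (pp Φ i j)^2 * cn Φ j := by
    rw [Finset.sum_add_distrib, Finset.sum_add_distrib, Finset.sum_const, nsmul_eq_mul,
      ← Finset.mul_sum]
    ring
  have hN : 5 * Nc Φ m = 5 * ((Cs Φ m).card : ℝ) / m^2 + 5 * ∑ i ∈ Cs Φ m, (cn Φ i)^2 := by
    unfold Nc
    ring
  rw [hN]
  rw [hE5] at hE1
  linarith

end Pool.LIN
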