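import Pool.Agent.Work.MP_1c7b0d_lin.RES

/-! Block EFS (helper40): the Efron-Stein inequality for the product of exponential
distributions. -/

open MeasureTheory Matrix Pool.LH60 Pool.LH73
open scoped BigOperators

namespace Pool.LIN

namespace EFSaux

set_option linter.unusedSectionVars false
set_option linter.unusedVariables false

variable {ι : Type} [Fintype ι] [DecidableEq ι]

/-- bounded and measurable -/
def BM (C : ℝ) (u : (ι → ℝ) → ℝ) : Prop := Measurable u ∧ ∀ w, |u w| ≤ C

/-- average over one coordinate -/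
noncomputable def El (l : ι) (u : (ι → ℝ) → ℝ) : (ι → ℝ) → ℝ :=
  fun w => ∫ t, u (Function.update w l t) ∂e1

/-- does not depend on the coordinate `l` -/
def Ind (l : ι) (u : (ι → ℝ) → ℝ) : Prop := ∀ w t, u (Function.update w l t) = u w

theorem upd_meas (l : ι) (w : ι → ℝ) : Measurable (fun t : ℝ => Function.update w l t) := by
  rw [measurable_pi_iff]
  intro i
  by_cases h : i = l
  · subst h
    simp only [Function.update_self]
    exact measurable_id
  · simp only [Function.update_of_ne h]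
    exact measurable_const

theorem int_of_bdd {Ω : Type} [MeasurableSpace Ω] {μ : Measure Ω} [IsProbabilityMeasure μ]
    {X : Ω → ℝ} (hX : Measurable X) {C : ℝ} (hC : ∀ x, |X x| ≤ C) : Integrable X μ :=
  Integrable.of_bound hX.aestronglyMeasurable C
    (Filter.Eventually.of_forall fun x => by rw [Real.norm_eq_abs]; exact hC x)

theorem BM.int {C : ℝ} {u : (ι → ℝ) → ℝ} (h : BM C u) : Integrable u (Pw ι) :=
  int_of_bdd h.1 h.2

theorem BM.sq {C : ℝ} {u : (ι → ℝ) → ℝ} (h : BM C u) : BM (C ^ 2) (fun w => (u w) ^ 2) := by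
  refine ⟨h.1.pow_const 2, fun w => ?_⟩
  rw [abs_pow]
  exact pow_le_pow_left₀ (abs_nonneg _) (h.2 w) 2

theorem BM.sub {C D : ℝ} {u v : (ι → ℝ) → ℝ} (h : BM C u) (h' : BM D v) :
    BM (C + D) (fun w => u w - v w) :=
  ⟨h.1.sub h'.1, fun w => (abs_sub _ _).trans (add_le_add (h.2 w) (h'.2 w))⟩

theorem BM.slice {C : ℝ} {u : (ι → ℝ) → ℝ} (h : BM C u) (l : ι) (w : ι → ℝ) :
    Integrable (fun t => u (Function.update w l t)) e1 :=
  int_of_bdd (h.1.comp (upd_meas l w)) fun t => h.2 _

theorem El_BM {C : ℝ} {u : (ι → ℝ) → ℝ} (h : BM C u) (l : ι) : BM C (El l u) := by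
  refine ⟨?_, fun w => ?_⟩
  · have h1 : Measurable (fun p : (ι → ℝ) × ℝ => u (Function.update p.1 l p.2)) :=
      h.1.comp (RES_map ι l).1
    exact (h1.stronglyMeasurable.integral_prod_right' (ν := e1)).measurable
  · have h1 := norm_integral_le_of_norm_le_const (μ := e1)
      (f := fun t => u (Function.update w l t)) (C := C)
      (Filter.Eventually.of_forall fun t => by rw [Real.norm_eq_abs]; exact h.2 _)
    simpa [El] using h1

theorem El_int {C : ℝ} {u : (ι → ℝ) → ℝ} (h : BM C u) (l : ι) :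
    ∫ w, El l u w ∂Pw ι = ∫ w, u w ∂Pw ι :=
  ((RES_thm ι l).2.1 u h.1 h.int).symm

theorem expand {X : ℝ → ℝ} (h1 : Integrable X e1) (h2 : Integrable (fun t => X t ^ 2) e1)
    (k : ℝ) : ∫ t, (X t - k) ^ 2 ∂e1 = ∫ t, X t ^ 2 ∂e1 - 2 * k * ∫ t, X t ∂e1 + k ^ 2 := by
  have e : (fun t => (X t - k) ^ 2) = fun t => (X t ^ 2 - 2 * k * X t) + k ^ 2 := by
    funext t
    ring
  have h3 : Integrable (fun t => X t ^ 2 - 2 * k * X t) e1 := h2.sub (h1.const_mul _)
  rw [e, integral_add h3 (integrable_const _), integral_sub h2 (h1.const_mul _),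
    integral_const_mul]
  simp

/-- the variance in one coordinate -/
theorem var_slice {C : ℝ} {u : (ι → ℝ) → ℝ} (h : BM C u) (l : ι) (w : ι → ℝ) (k : ℝ) :
    ∫ t, (u (Function.update w l t)) ^ 2 ∂e1 - (El l u w) ^ 2 ≤
      ∫ t, (u (Function.update w l t) - k) ^ 2 ∂e1 := by
  have e2 := expand (h.slice l w) (h.sq.slice l w) k
  have e3 : ∫ t, u (Function.update w l t) ∂e1 = El l u w := rfl
  rw [e2, e3]
  nlinarith [sq_nonneg (El l u w - k)]

theorem El_sq {C : ℝ} {u : (ι → ℝ) → ℝ} (h : BM C u) (l : ι) :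
    ∫ w, (El l u w) ^ 2 ∂Pw ι ≤ ∫ w, (u w) ^ 2 ∂Pw ι := by
  rw [← El_int h.sq l]
  refine integral_mono (El_BM h l).sq.int (El_BM h.sq l).int fun w => ?_
  have h2 : 0 ≤ ∫ t, (u (Function.update w l t)) ^ 2 ∂e1 - (El l u w) ^ 2 := by
    have h3 : 0 ≤ ∫ t, (u (Function.update w l t) - El l u w) ^ 2 ∂e1 :=
      integral_nonneg fun t => sq_nonneg _
    rw [expand (h.slice l w) (h.sq.slice l w)] at h3
    have h4 : ∫ t, u (Function.update w l t) ∂e1 = El l u w := rfl
    rw [h4] at h3
    nlinarith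
  show (El l u w) ^ 2 ≤ ∫ t, (u (Function.update w l t)) ^ 2 ∂e1
  linarith

theorem core {C D : ℝ} {g k : (ι → ℝ) → ℝ} (hg : BM C g) (hk : BM D k) (l : ι) (hl : Ind l k) :
    ∫ w, (g w) ^ 2 ∂Pw ι - ∫ w, (El l g w) ^ 2 ∂Pw ι ≤ ∫ w, (g w - k w) ^ 2 ∂Pw ι := by
  have h1 := (hg.sub hk).sq
  rw [← El_int h1 l, ← El_int hg.sq l,
    ← integral_sub (El_BM hg.sq l).int (El_BM hg l).sq.int]
  refine integral_mono ((El_BM hg.sq l).int.sub (El_BM hg l).sq.int) (El_BM h1 l).int
    fun w => ?_
  have h2 := var_slice hg l w (k w)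
  show (∫ t, (g (Function.update w l t)) ^ 2 ∂e1) - (El l g w) ^ 2 ≤
    ∫ t, (g (Function.update w l t) - k (Function.update w l t)) ^ 2 ∂e1
  simp only [hl w]
  exact h2

/-- average over a list of coordinates -/
noncomputable def Al (L : List ι) (u : (ι → ℝ) → ℝ) : (ι → ℝ) → ℝ := L.foldr El u

theorem Al_BM {C : ℝ} {u : (ι → ℝ) → ℝ} (h : BM C u) (L : List ι) : BM C (Al L u) := by
  induction L with
  | nil => exact h
  | cons l L ih => exact El_BM ih l

theorem Al_int {C : ℝ} {u : (ι → ℝ) → ℝ} (h : BM C u) (L : List ι) :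
    ∫ w, Al L u w ∂Pw ι = ∫ w, u w ∂Pw ι := by
  induction L with
  | nil => rfl
  | cons l L ih => exact (El_int (Al_BM h L) l).trans ih

theorem Al_sq {C : ℝ} {u : (ι → ℝ) → ℝ} (h : BM C u) (L : List ι) :
    ∫ w, (Al L u w) ^ 2 ∂Pw ι ≤ ∫ w, (u w) ^ 2 ∂Pw ι := by
  induction L with
  | nil => exact le_rfl
  | cons l L ih => exact (El_sq (Al_BM h L) l).trans ih

theorem Al_sub {C D : ℝ} {u v : (ι → ℝ) → ℝ} (h : BM C u) (h' : BM D v) (L : List ι) :
    Al L (fun w => u w - v w) = fun w => Al L u w - Al L v w := by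
  induction L with
  | nil => rfl
  | cons l L ih =>
    funext w
    show El l (Al L (fun w => u w - v w)) w = El l (Al L u) w - El l (Al L v) w
    rw [ih]
    exact integral_sub ((Al_BM h L).slice l w) ((Al_BM h' L).slice l w)

theorem El_ind {u : (ι → ℝ) → ℝ} {l : ι} (h : Ind l u) (l' : ι) : Ind l (El l' u) := by
  intro w t
  unfold El
  by_cases hl : l' = l
  · subst hl
    simp only [Function.update_idem]
  · refine integral_congr_ae (Filter.Eventually.of_forall fun s => ?_)
    show u (Function.update (Function.update w l t) l' s) = u (Function.update w l' s)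
    rw [Function.update_comm (Ne.symm hl)]
    exact h _ _

theorem El_self (u : (ι → ℝ) → ℝ) (l : ι) : Ind l (El l u) := by
  intro w t
  unfold El
  simp only [Function.update_idem]

theorem Al_ind {u : (ι → ℝ) → ℝ} {l : ι} (h : Ind l u) (L : List ι) : Ind l (Al L u) := by
  induction L with
  | nil => exact h
  | cons l' L ih => exact El_ind ih l'

theorem Al_mem {u : (ι → ℝ) → ℝ} {l : ι} {L : List ι} (h : l ∈ L) : Ind l (Al L u) := by
  induction L with
  | nil => simp at h
  | cons l' L ih =>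
    rcases List.mem_cons.1 h with rfl | h
    · exact El_self _ _
    · exact El_ind (ih h) l'

/-- a function which does not depend on any coordinate is constant -/
theorem const_of_ind {u : (ι → ℝ) → ℝ} (h : ∀ l, Ind l u) (w w' : ι → ℝ) : u w = u w' := by
  have key : ∀ s : Finset ι, u (fun i => if i ∈ s then w' i else w i) = u w := by
    intro s
    induction s using Finset.induction_on with
    | empty => simp
    | insert l s _ ih =>
      have e : (fun i => if i ∈ insert l s then w' i else w i) =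
          Function.update (fun i => if i ∈ s then w' i else w i) l (w' l) := by
        funext i
        by_cases hi : i = l
        · subst hi
          simp
        · rw [Function.update_of_ne hi]
          simp [hi]
      rw [e, h l, ih]
  have := key Finset.univ
  simpa using this.symm

theorem main {C : ℝ} {f : (ι → ℝ) → ℝ} {h : ι → (ι → ℝ) → ℝ} (hf : BM C f)
    (hh : ∀ l, BM C (h l)) (hI : ∀ l, Ind l (h l)) (L : List ι) :
    ∫ w, (f w) ^ 2 ∂Pw ι - ∫ w, (Al L f w) ^ 2 ∂Pw ι ≤
      (L.map fun l => ∫ w, (f w - h l w) ^ 2 ∂Pw ι).sum := by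
  induction L with
  | nil => simp [Al]
  | cons l L ih =>
    rw [List.map_cons, List.sum_cons]
    have h1 := core (Al_BM hf L) (Al_BM (hh l) L) l (Al_ind (hI l) L)
    have h2 := Al_sq (hf.sub (hh l)) L
    rw [Al_sub hf (hh l)] at h2
    have h3 : Al (l :: L) f = El l (Al L f) := rfl
    rw [h3]
    linarith

end EFSaux

theorem EFS_thm : Stmt_EFS := by
  intro ι _ _ f h hf hh hC hI
  obtain ⟨C, hC⟩ := hC
  have hfB : EFSaux.BM C f := ⟨hf, fun w => (hC w).1⟩
  have hhB : ∀ l, EFSaux.BM C (h l) := fun l => ⟨hh l, fun w => (hC w).2 l⟩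
  have h1 := EFSaux.main hfB hhB hI Finset.univ.toList
  have h2 : ∀ w, EFSaux.Al Finset.univ.toList f w = ∫ w, f w ∂Pw ι := by
    intro w
    rw [← EFSaux.Al_int hfB Finset.univ.toList]
    have h3 : ∀ w', EFSaux.Al Finset.univ.toList f w' = EFSaux.Al Finset.univ.toList f w :=
      fun w' => EFSaux.const_of_ind (fun l => EFSaux.Al_mem (by simp)) w' w
    simp only [h3, integral_const, probReal_univ, smul_eq_mul, one_mul]
  simp only [h2, integral_const, probReal_univ, smul_eq_mul, one_mul] at h1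
  rw [Finset.sum_map_toList] at h1
  exact h1

end Pool.LIN
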