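import Pool.Agent.Work.MP_1c7b0d_lin.Interface

/-! Block FN1: the bound before the estimates. helper33 -/

open MeasureTheory Matrix Pool.LH60 Pool.LH73
open scoped BigOperators

namespace Pool.LIN

theorem FN1_thm (hISOT : Stmt_ISOT) (hMAL : Stmt_MAL) (hSCH : Stmt_SCH) (hRHO : Stmt_RHO)
    (hTOT : Stmt_TOT) (hTFA : Stmt_TFA) (hFRI : Stmt_FRI)
    (hINT : Stmt_INT) : Stmt_FN1 := by
  intro d K U Φ hK hU hF hvol
  have hΦ : Φᵀ * Φ = 1 := hF.1
  refine ⟨hΦ, ?_⟩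
  obtain ⟨V, hV, _, hVvol⟩ := hISOT d K U Φ hF
  obtain ⟨hFR1, hPD, hcs, hc0, hcU⟩ := hFRI d K U Φ hF
  have hdet : 0 < (Uᵀ * U).det := hPD.det_pos
  have hVfin : volume (Pol V) ≠ ⊤ := by
    rw [hVvol]; exact ENNReal.mul_ne_top ENNReal.ofReal_ne_top hvol
  obtain ⟨y, hy, hB⟩ := hMAL d K V Φ hV hVfin
  refine ⟨y, hy, ?_⟩
  intro L a ms ps l0 pb hmz hms hT hTb hl
  have hc1 : ∀ i, cn Φ i < 1 := fun i => (hcU hU i).1
  -- reference sizes
  have href : ∀ i, 2 ≤ rf a ms i := by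
    intro i
    unfold rf
    rcases a i with _ | b
    · exact hms
    · simpa using (by exact_mod_cast hmz b : (2:ℝ) ≤ (mz a b : ℝ))
  have hTi : ∀ i, Tang (rf a ms i) (pf a ps pb i) := by
    intro i
    unfold rf pf
    rcases a i with _ | b
    · exact hT
    · exact hTb b
  have hR : ∑ i, ∫ w, y w i * rho Φ (y w) i i ∂Pw (Ix d K) = (K:ℝ) := by
    obtain ⟨_, _, _, _, _, _, _, hint, _⟩ := hINT (Ix d K) K Φ y hΦ hy
    rw [← integral_finsetSum _ (fun i _ => hint i)]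
    have : (fun w : Ix d K → ℝ => ∑ i, y w i * rho Φ (y w) i i) = fun _ => (K:ℝ) := by
      funext w
      exact (hTFA (Ix d K) K Φ (y w) hΦ (hy.pos w)).2.2.2.2.2.2.2.1
    rw [this]
    simp
  have hB' := hB (fun i => al (rf a ms i) (pf a ps pb i))
    (fun i => Ac5 (rf a ms i) (pf a ps pb i) (cn Φ i)) ?_ ?_
  rotate_left
  · intro i hi
    have h2 := href i
    have hp := (hTi i).2.1
    show 0 ≤ Ac5 _ _ _
    unfold Ac5
    rw [hi]
    have h3 : (0 - 1 / rf a ms i)^2 / 5 = 1 / (5 * (rf a ms i)^2) := by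
      field_simp
      ring
    rw [h3]
    have h4 : 1 / (12 * (rf a ms i)^2) ≤ 1 / (5 * (rf a ms i)^2) := by
      apply one_div_le_one_div_of_le
      · positivity
      · nlinarith [sq_nonneg (rf a ms i)]
    linarith
  · intro i hi t ht
    exact hSCH (rf a ms i) (pf a ps pb i) (by linarith [href i]) (hTi i) (cn Φ i) t hi
      (hc1 i).le ht
  -- the identity
  have hTOT' := hTOT (Ix d K) L a (K:ℝ) ms ps l0 pb (cn Φ)
    (fun i => ∫ w, y w i * rho Φ (y w) i i ∂Pw (Ix d K)) hmz hms hcs hR hl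
  -- pointwise determinant inequality
  have hpt : ∀ i, ((1 - 1/rf a ms i) * Real.log (1 - 1/rf a ms i)
        - (1 + Real.log (1 - 1/rf a ms i)) * (cn Φ i - 1/rf a ms i))
        + (cn Φ i - 1/rf a ms i)^2 / 2 ≤ (1 - cn Φ i) * Real.log (1 - cn Φ i) := by
    intro i
    have h2 := href i
    have h0 : 0 ≤ 1 / rf a ms i := by positivity
    have h1 : 1 / rf a ms i < 1 := by
      rw [div_lt_one (by linarith)]; linarith
    by_cases h : cn Φ i = 1 / rf a ms i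
    · rw [← h]; simp
    · have := hRHO (cn Φ i) (1 / rf a ms i) (hc0 i) (hc1 i) h0 h1 h
      linarith
  have hsum := Finset.sum_le_sum (fun i (_ : i ∈ Finset.univ) => hpt i)
  rw [Finset.sum_add_distrib, ← Finset.sum_div] at hsum
  have hAc : ∑ i, Ac5 (rf a ms i) (pf a ps pb i) (cn Φ i) =
      ∑ i, (cn Φ i / 2 + pf a ps pb i) + Ccc Φ a ms / 5 := by
    unfold Ac5 Ccc
    rw [Finset.sum_add_distrib, ← Finset.sum_div]
  have hCcc : ∑ i, (cn Φ i - 1/rf a ms i)^2 = Ccc Φ a ms := rfl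
  rw [hCcc] at hsum
  have hcard : (Fintype.card (Ix d K) : ℝ) = (d:ℝ) + K := by simp [Ix]
  rw [hcard] at hTOT'
  -- unfold the measure identity
  have hCb : ∀ b, ∑ i ∈ fb a b, cn Φ i = Cb Φ a b := fun b => rfl
  simp only [hCb] at hTOT'
  rw [hAc] at hB'
  set R : Fin L → ℝ := fun b => ∑ i ∈ fb a b, ∫ w, y w i * rho Φ (y w) i i ∂Pw (Ix d K) with hRdef
  rw [hVvol] at hB'
  -- divide by sqrt det
  have hsq : 0 < Real.sqrt (Uᵀ * U).det := Real.sqrt_pos.mpr hdet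
  have hlogsq : Real.log (Real.sqrt (Uᵀ * U).det) = Real.log (Uᵀ * U).det / 2 :=
    Real.log_sqrt hdet.le
  have hexp : ENNReal.ofReal (Real.sqrt (Uᵀ * U).det) *
      ENNReal.ofReal (Real.exp (∑ b, Fs (mz a b) + (K - L) * (Fs ms - ms * l0)
    + l0 * ((rs a).card : ℝ)
    + ∑ b, (al (mz a b) (pb b) - al ms ps) *
        (1 - ∑ i ∈ fb a b, ∫ w, y w i * rho Φ (y w) i i ∂Pw (Ix d K))
    - (∑ b, (Real.log (1 - 1/(mz a b : ℝ)) - Real.log (1 - 1/ms)) * (Cb Φ a b - 1)) / 2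
    + Ccc Φ a ms / 20 + EG Φ y / 400
    + (-Real.log (Uᵀ * U).det - ∑ i, (1 - cn Φ i) * Real.log (1 - cn Φ i)) / 2)) ≤
      ENNReal.ofReal (Real.sqrt (Uᵀ * U).det) * volume (Pol U) := by
    refine le_trans ?_ hB'
    rw [← ENNReal.ofReal_mul hsq.le]
    apply ENNReal.ofReal_le_ofReal
    nth_rewrite 1 [← Real.exp_log hsq]
    rw [← Real.exp_add, hlogsq]
    apply Real.exp_le_exp.mpr
    linarith
  exact (ENNReal.mul_le_mul_iff_right (by simpa using hsq) ENNReal.ofReal_ne_top).mp hexp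

end Pool.LIN
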