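import Pool.Agent.Work.MP_1c7b0d_lin.Interface

open MeasureTheory Matrix Pool.LH60 Pool.LH73
open scoped BigOperators

namespace Pool.LIN

theorem FN2_thm (hRBE : Stmt_RBE) (hCLC : Stmt_CLC) (hINT : Stmt_INT) : Stmt_FN2 := by
  intro ι _ _ K L Φ y m a β B hΦ hm hy hC hβ hB
  obtain ⟨-, hc2, hc3, -, hc5⟩ := hCLC ι K L Φ m a hΦ hm hC
  obtain ⟨-, -, -, hiG, -, -, hiy, hiyr, -⟩ := hINT ι K Φ y hΦ hy
  have hm0 : (0:ℝ) < m := by linarith
  have hM : ∀ b, 0 < mz a b := by
    intro b
    have h1 := (abs_le.1 (hC.siz b)).1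
    have h2 : (0:ℝ) < mz a b := by linarith
    exact_mod_cast h2
  set G0 : ι → ℝ := fun i => ∑ b, |β b| * (4 * (if i ∈ fb a b then
      ∑ k, (Φ i k - vb Φ a b k)^2 else 0)
      + 4 * (mz a b : ℝ) * (if a i = some b then 0 else (∑ k, Φ i k * vb Φ a b k)^2)) with hG0
  have hpt : ∀ w, |∑ b, β b * (1 - ∑ i ∈ fb a b, y w i * rho Φ (y w) i i)| ≤
      ∑ i, y w i * G0 i + 24 * B * GG (Dm Φ (y w)) := by
    intro w
    have h1 := hRBE ι K L Φ (y w) a β B hΦ (hy.pos w) hM hc2 hβ hB
    have h2 : |∑ b, β b * (1 - ∑ i ∈ fb a b, y w i * rho Φ (y w) i i)| ≤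
        ∑ b, |β b| * |∑ i ∈ fb a b, y w i * rho Φ (y w) i i - 1| := by
      refine (Finset.abs_sum_le_sum_abs _ _).trans (Finset.sum_le_sum fun b _ => ?_)
      rw [abs_mul, abs_sub_comm]
    have h3 : ∑ b, |β b| * (4 * ∑ i ∈ fb a b, y w i * ∑ k, (Φ i k - vb Φ a b k)^2
      + 4 * (mz a b : ℝ) * ∑ i, (if a i = some b then 0 else
        y w i * (∑ k, Φ i k * vb Φ a b k)^2)) = ∑ i, y w i * G0 i := by
      simp only [hG0]
      simp_rw [Finset.mul_sum (Finset.univ : Finset (Fin L))]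
      rw [Finset.sum_comm]
      refine Finset.sum_congr rfl fun b _ => ?_
      have h4 : ∑ i ∈ fb a b, y w i * ∑ k, (Φ i k - vb Φ a b k)^2
          = ∑ i, y w i * (if i ∈ fb a b then ∑ k, (Φ i k - vb Φ a b k)^2 else 0) := by
        rw [← Finset.sum_filter_add_sum_filter_not Finset.univ (fun i => i ∈ fb a b)
          (fun i => y w i * (if i ∈ fb a b then ∑ k, (Φ i k - vb Φ a b k)^2 else 0))]
        have h5 : ∑ i ∈ Finset.univ.filter (fun i => ¬ i ∈ fb a b),
            y w i * (if i ∈ fb a b then ∑ k, (Φ i k - vb Φ a b k)^2 else 0) = 0 := by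
          refine Finset.sum_eq_zero fun i hi => ?_
          rw [if_neg (Finset.mem_filter.1 hi).2, mul_zero]
        rw [h5, add_zero]
        have h6 : Finset.univ.filter (fun i => i ∈ fb a b) = fb a b := by
          ext i; simp
        rw [h6]
        refine Finset.sum_congr rfl fun i hi => ?_
        rw [if_pos hi]
      rw [h4]
      rw [Finset.mul_sum, Finset.mul_sum, ← Finset.sum_add_distrib, Finset.mul_sum]
      refine Finset.sum_congr rfl fun i _ => ?_
      split_ifs <;> ring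
    rw [h3] at h1
    exact h2.trans h1
  have hi1 : ∀ b, Integrable (fun w => β b * (1 - ∑ i ∈ fb a b, y w i * rho Φ (y w) i i))
      (Pw ι) := by
    intro b
    refine Integrable.const_mul ?_ _
    exact (integrable_const _).sub (integrable_finsetSum _ fun i _ => hiyr i)
  have hFi : Integrable (fun w => ∑ b, β b * (1 - ∑ i ∈ fb a b, y w i * rho Φ (y w) i i))
      (Pw ι) := integrable_finsetSum _ fun b _ => hi1 b
  have hGi : Integrable (fun w => ∑ i, y w i * G0 i + 24 * B * GG (Dm Φ (y w))) (Pw ι) := by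
    refine Integrable.add (integrable_finsetSum _ fun i _ => (hiy i).mul_const _) ?_
    exact hiG.const_mul _
  have hF : ∫ w, ∑ b, β b * (1 - ∑ i ∈ fb a b, y w i * rho Φ (y w) i i) ∂Pw ι
      = ∑ b, β b * (1 - ∑ i ∈ fb a b, ∫ w, y w i * rho Φ (y w) i i ∂Pw ι) := by
    rw [integral_finsetSum _ fun b _ => hi1 b]
    refine Finset.sum_congr rfl fun b _ => ?_
    rw [integral_const_mul, integral_sub (integrable_const _)
      (integrable_finsetSum _ fun i _ => hiyr i), integral_finsetSum _ fun i _ => hiyr i]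
    simp
  have hG : ∫ w, (∑ i, y w i * G0 i + 24 * B * GG (Dm Φ (y w))) ∂Pw ι
      = ∑ i, G0 i + 24 * B * EG Φ y := by
    rw [integral_add (integrable_finsetSum _ fun i _ => (hiy i).mul_const _) (hiG.const_mul _),
      integral_finsetSum _ fun i _ => (hiy i).mul_const _, integral_const_mul]
    congr 1
    refine Finset.sum_congr rfl fun i _ => ?_
    rw [integral_mul_const, hy.mean i, one_mul]
  rw [← hF]
  have hle : |∫ w, ∑ b, β b * (1 - ∑ i ∈ fb a b, y w i * rho Φ (y w) i i) ∂Pw ι| ≤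
      ∑ i, G0 i + 24 * B * EG Φ y := by
    rw [← hG]
    refine (abs_integral_le_integral_abs).trans ?_
    exact integral_mono hFi.abs hGi hpt
  refine hle.trans (add_le_add_left ?_ _)
  have hGs : ∑ i, G0 i = ∑ b, |β b| * (4 * sc Φ a b + 4 * ((mz a b : ℝ) *
      ∑ i, (if a i = some b then 0 else (∑ k, Φ i k * vb Φ a b k)^2))) := by
    simp only [hG0]
    rw [Finset.sum_comm]
    refine Finset.sum_congr rfl fun b _ => ?_
    rw [← Finset.mul_sum, Finset.sum_add_distrib, ← Finset.mul_sum, ← Finset.mul_sum]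
    have h6 : ∑ i, (if i ∈ fb a b then ∑ k, (Φ i k - vb Φ a b k)^2 else 0) = sc Φ a b := by
      rw [← Finset.sum_filter]
      unfold sc
      refine Finset.sum_congr ?_ fun _ _ => rfl
      ext i; simp
    rw [h6]
    ring
  rw [hGs, Finset.mul_sum]
  refine Finset.sum_le_sum fun b _ => ?_
  have h1 := hC.sca b
  have h2 := hC.out b
  have h3 := hc3 b
  have h4 : 4 * sc Φ a b + 4 * ((mz a b : ℝ) *
      ∑ i, (if a i = some b then 0 else (∑ k, Φ i k * vb Φ a b k)^2)) ≤ 3205 * m * Db Φ a b := by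
    linarith
  calc _ ≤ |β b| * (3205 * m * Db Φ a b) := mul_le_mul_of_nonneg_left h4 (abs_nonneg _)
    _ = 3205 * m * (|β b| * Db Φ a b) := by ring

end Pool.LIN
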