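import Pool.Agent.Work.MP_1c7b0d_lin.Interface

/-! Block FN3: the final bound with the cluster data. helper89 -/

open MeasureTheory Matrix Pool.LH60 Pool.LH73
open scoped BigOperators

namespace Pool.LIN

namespace FN3aux

lemma perb (m X β δ Cd D sc ou : ℝ) (hm : 0 < m) (hX : 0 ≤ X) (hβ : |β| ≤ 1/5 * X / m^2)
    (hδ : |δ| ≤ 13/10 * X / m^2) (hC : |Cd| ≤ sc + 2 * ou) (hsc : sc ≤ 5/4 * m * D)
    (hou : ou ≤ 800 * m * D) (hD : 0 ≤ D) :
    3205 * m * (|β| * D) + |δ| * |Cd| / 2 ≤ 1682 * X * D / m := by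
  have h1 : 3205 * m * (|β| * D) ≤ 641 * X * D / m := by
    calc 3205 * m * (|β| * D) ≤ 3205 * m * ((1/5 * X / m^2) * D) := by gcongr
      _ = 641 * X * D / m := by field_simp; ring
  have h2 : |Cd| ≤ 6405/4 * m * D := by linarith
  have h3 : |δ| * |Cd| / 2 ≤ 1041 * X * D / m := by
    calc |δ| * |Cd| / 2 ≤ (13/10 * X / m^2) * (6405/4 * m * D) / 2 := by gcongr
      _ = (13 * 6405 / 80) * (X * D / m) := by field_simp; ring
      _ ≤ 1041 * (X * D / m) := by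
        have : 0 ≤ X * D / m := by positivity
        nlinarith
      _ = _ := by ring
  calc _ ≤ 641 * X * D / m + 1041 * X * D / m := add_le_add h1 h3
    _ = _ := by ring

lemma card_id {ι : Type} [Fintype ι] [DecidableEq ι] {L : ℕ} (a : ι → Option (Fin L)) :
    ∑ b, mz a b + (rs a).card = Fintype.card ι := by
  have h := Finset.card_eq_sum_card_fiberwise (s := (Finset.univ : Finset ι))
    (t := (Finset.univ : Finset (Option (Fin L)))) (f := a) (fun x _ => Finset.mem_univ _)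
  rw [Finset.card_univ, Fintype.sum_option] at h
  rw [h, add_comm]
  rfl

lemma rpow_id (m c₃ : ℝ) (hc : 0 < c₃) (hm : 0 < m) (h : (3 * 10^13 / c₃)^5 ≤ m) :
    3 * 10^13 / m ≤ c₃ * m ^ (-(4/5) : ℝ) := by
  have h0 : 0 ≤ 3 * 10^13 / c₃ := by positivity
  have h1 : 3 * 10^13 / c₃ ≤ m ^ (1/5 : ℝ) := by
    calc 3 * 10^13 / c₃ = ((3 * 10^13 / c₃)^5) ^ (((5:ℕ):ℝ)⁻¹) := by
          rw [Real.pow_rpow_inv_natCast h0 (by norm_num)]
      _ ≤ m ^ (((5:ℕ):ℝ)⁻¹) := Real.rpow_le_rpow (by positivity) h (by positivity)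
      _ = m ^ (1/5 : ℝ) := by norm_num
  have h2 : m ^ (1/5 : ℝ) = m ^ (-(4/5) : ℝ) * m := by
    have := Real.rpow_add hm (-(4/5) : ℝ) 1
    rw [Real.rpow_one] at this
    rw [← this]
    norm_num
  rw [h2, div_le_iff₀ hc] at h1
  rw [div_le_iff₀ hm]
  linarith

/-- the final comparison -/
lemma fin_ineq (m D EG' C N N1' P c v T1 T2 S SD : ℝ) (hm : 10^9 ≤ m) (hD : 0 ≤ D)
    (hEG : 0 ≤ EG') (hC : 0 ≤ C) (hN1 : N1' ≤ 40000 * m^2 * C) (hN : N ≤ 2000 * C)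
    (hG : 3 * 10^13 / m * D ≤ EG' + N) (hN10 : 0 ≤ N1')
    (hP : P ≤ 4 * 10^5 * m^2 * D + 5 * N1') (hc0 : c ≤ 0) (hc1 : -(v) ≤ c)
    (hv : v ≤ 11/10 / m^3) (hv0 : 0 ≤ v)
    (hT : |T1| + |T2| ≤ S / 2 + 3 * 10^8 * SD / m + 24 * (3/250/m) * EG') (hSD : SD ≤ D) :
    S / 2 + C / 100 + D / m ≤ S + P * c + T1 - T2 + C / 20 + EG' / 400 := by
  have hm0 : 0 < m := by linarith
  have h1 : -(44 * 10^4 * D / m + 22 * 10^4 * C / m) ≤ P * c := by
    have hmax : 0 ≤ 4 * 10^5 * m^2 * D + 5 * N1' := by positivity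
    have h2 : 4 * 10^5 * m^2 * D + 5 * N1' ≤ m^2 * (4 * 10^5 * D + 2 * 10^5 * C) := by
      nlinarith
    have h3 : -(v * (4 * 10^5 * m^2 * D + 5 * N1')) ≤ P * c := by
      rcases le_or_gt P 0 with h | h
      · have : 0 ≤ P * c := mul_nonneg_of_nonpos_of_nonpos h hc0
        have h4 : 0 ≤ v * (4 * 10^5 * m^2 * D + 5 * N1') := by positivity
        linarith
      · nlinarith [mul_le_mul_of_nonneg_left hP hv0, mul_le_mul_of_nonneg_left hc1 h.le]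
    have h5 : v * (4 * 10^5 * m^2 * D + 5 * N1') ≤
        (11/10 / m^3) * (m^2 * (4 * 10^5 * D + 2 * 10^5 * C)) :=
      mul_le_mul hv h2 hmax (by positivity)
    have h6 : (11/10 / m^3) * (m^2 * (4 * 10^5 * D + 2 * 10^5 * C)) =
        44 * 10^4 * D / m + 22 * 10^4 * C / m := by
      field_simp; ring
    linarith
  have h2 : 22 * 10^4 * C / m ≤ C / 1000 := by
    rw [div_le_iff₀ hm0]
    nlinarith
  have h3 : 24 * (3/250/m) * EG' ≤ EG' / 10000 := by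
    have : 24 * (3/250/m) ≤ 1 / 10000 := by
      rw [show 24 * (3/250/m) = 72/250/m by ring, div_le_iff₀ hm0]
      linarith
    nlinarith
  have h4 : 3 * 10^8 * SD / m ≤ 3 * 10^8 * D / m := by gcongr
  have h5 : -|T1| ≤ T1 := neg_abs_le _
  have h6 : T2 ≤ |T2| := le_abs_self _
  have h7 : 3 * 10^13 / m * D = 3 * 10^13 * (D / m) := by ring
  have h8 : 0 ≤ D / m := by positivity
  have e1 : 44 * 10^4 * D / m = 44 * 10^4 * (D / m) := by ring
  have e2 : 3 * 10^8 * D / m = 3 * 10^8 * (D / m) := by ring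
  rw [h7] at hG
  rw [e1] at h1
  rw [e2] at h4
  nlinarith

end FN3aux

open FN3aux

theorem FN3_thm (hFN1 : Stmt_FN1) (hFN2 : Stmt_FN2) (hCLS : Stmt_CLS) (hCLC : Stmt_CLC)
    (hCHO : Stmt_CHO) (hVNL : Stmt_VNL) (hALB : Stmt_ALB) (hAMG : Stmt_AMG) (hKLE : Stmt_KLE)
    (hGNL : Stmt_GNL) (hGM3 : Stmt_GM3) (hGGC : Stmt_GGC) (hDEF1 : Stmt_DEF1) : Stmt_FN3 := by
  obtain ⟨c₃, M₃, hc₃, hM₃, hGNL⟩ := hGNL
  refine ⟨max (10^9) (max ⌈M₃⌉₊ ⌈(3 * 10^13 / c₃)^5⌉₊), le_trans (by norm_num) (le_max_left _ _), ?_⟩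
  intro d K U Φ hK hMK hUR hIF hvol
  set M₀ : ℕ := max (10^9) (max ⌈M₃⌉₊ ⌈(3 * 10^13 / c₃)^5⌉₊) with hM₀
  set q : ℕ := d / K with hq
  set m : ℝ := ((d:ℝ) + K) / K with hm
  have hK0 : (0:ℝ) < K := by exact_mod_cast hK
  have hKm : (K:ℝ) * m = d + K := by rw [hm]; field_simp
  -- m against q
  have hq1 : (q:ℝ) + 1 ≤ m := by
    rw [hm, le_div_iff₀ hK0]
    have : ((q * K : ℕ):ℝ) ≤ d := by exact_mod_cast Nat.div_mul_le_self d K
    push_cast at this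
    linarith
  have hq2 : m ≤ (q:ℝ) + 2 := by
    rw [hm, div_le_iff₀ hK0]
    have h1 : d < (q + 1) * K := by
      have := Nat.lt_mul_div_succ d (Nat.pos_of_ne_zero (by omega) : 0 < K)
      rw [mul_comm] at this
      exact this
    have : ((d:ℕ):ℝ) ≤ (((q + 1) * K : ℕ):ℝ) := by exact_mod_cast h1.le
    push_cast at this
    linarith
  have hqM : M₀ ≤ q := by
    rw [hq]
    exact (Nat.le_div_iff_mul_le (by omega)).mpr hMK
  have hqMr : (M₀:ℝ) ≤ q := by exact_mod_cast hqM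
  have hM9 : (10:ℝ)^9 ≤ M₀ := by
    have : 10^9 ≤ M₀ := le_max_left _ _
    exact_mod_cast this
  have hMM3 : M₃ ≤ M₀ := by
    have h1 : ⌈M₃⌉₊ ≤ M₀ := le_trans (le_max_left _ _) (le_max_right _ _)
    exact le_trans (Nat.le_ceil _) (by exact_mod_cast h1)
  have hMc : (3 * 10^13 / c₃)^5 ≤ (M₀:ℝ) := by
    have h1 : ⌈(3 * 10^13 / c₃)^5⌉₊ ≤ M₀ := le_trans (le_max_right _ _) (le_max_right _ _)
    exact le_trans (Nat.le_ceil _) (by exact_mod_cast h1)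
  have hm9 : (10:ℝ)^9 ≤ m := by linarith
  have hm100 : (100:ℝ) ≤ m := by linarith
  have hm0 : 0 < m := by linarith
  have hq10 : 10 ≤ q := le_trans (le_trans (by norm_num) (le_max_left _ _ : 10^9 ≤ M₀)) hqM
  -- the data
  obtain ⟨hΦ, y, hy, hbound⟩ := hFN1 d K U Φ hK hUR hIF hvol
  obtain ⟨L, a, hClu⟩ := hCLS (Ix d K) K Φ m hΦ hm100
  obtain ⟨ms, ps, hms1, hms2, hTms, hsl, hchlo, hchhi, hconv⟩ := hCHO q hq10
  have hsiz : ∀ b, |(mz a b : ℝ) - m| ≤ m / 20 := hClu.siz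
  have hmzlo : ∀ b, 19/20 * m ≤ (mz a b : ℝ) := fun b => by
    have := (abs_le.mp (hsiz b)).1; linarith
  have hmzhi : ∀ b, (mz a b : ℝ) ≤ 21/20 * m := fun b => by
    have := (abs_le.mp (hsiz b)).2; linarith
  choose pb hpb using fun b => hGM3 (mz a b : ℝ) (by linarith [hmzlo b])
  have hmz2 : ∀ b, 2 ≤ mz a b := fun b => by
    have : (2:ℝ) ≤ (mz a b : ℝ) := by linarith [hmzlo b]
    exact_mod_cast this
  have hcv1 : ∀ b, ch q (mz a b) ≤ Fs (mz a b) := fun b =>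
    (hconv (mz a b) (by linarith [hmzlo b]) (by linarith [hmzhi b])).1
  have hcv2 : ∀ b, mz a b ≠ q + 1 → mz a b ≠ q + 2 → ch q (mz a b) < Fs (mz a b) := by
    intro b h1 h2
    have h1' : ((mz a b : ℕ):ℝ) ≠ q + 1 := by exact_mod_cast h1
    have h2' : ((mz a b : ℕ):ℝ) ≠ q + 2 := by exact_mod_cast h2
    have := (hconv (mz a b) (by linarith [hmzlo b]) (by linarith [hmzhi b])).2 h1' h2'
    have hne : (mz a b : ℝ) - ms ≠ 0 := by
      intro h
      rcases lt_or_ge (mz a b) (q + 1) with h3 | h3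
      · have : (mz a b : ℝ) < (q:ℝ) + 1 := by exact_mod_cast h3
        linarith
      · have h4 : q + 2 < mz a b := by omega
        have : (q:ℝ) + 2 < (mz a b : ℝ) := by exact_mod_cast h4
        linarith
    have hq0 : (0:ℝ) < q := by linarith
    have hpos : 0 < ((mz a b : ℝ) - ms)^2 / (200 * (q:ℝ)^3) := by positivity
    linarith
  obtain ⟨hCb, hvb, hov, hDbs, hnn⟩ := hCLC (Ix d K) K L Φ m a hΦ hm100 hClu
  obtain ⟨hKL, hN1, hNc⟩ := hKLE (Ix d K) K L Φ m ms a hΦ (by linarith)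
    (by rw [abs_le]; constructor <;> linarith) hClu
  have hD0 : 0 ≤ Dfc Φ := (hDEF1 (Ix d K) K Φ hΦ).2.2.2.2.2
  have hEG0 : 0 ≤ EG Φ y := by
    unfold EG
    exact integral_nonneg fun w =>
      (hGGC (Ix d K) K Φ (y w) (y w) hΦ (hy.pos w) (hy.pos w)).2.1
  have hCcc0 : 0 ≤ Ccc Φ a ms := by
    unfold Ccc
    exact Finset.sum_nonneg fun i _ => sq_nonneg _
  -- differences of constants
  have hX : ∀ b, |(mz a b : ℝ) - ms| ≤ 3/50 * m := fun b => by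
    have h1 := abs_le.mp (hsiz b)
    rw [abs_le]; constructor <;> linarith [h1.1, h1.2]
  have hAL := fun b => hALB m (mz a b) ms (pb b) ps hm100
    (by rw [abs_le]; constructor <;> linarith) (hsiz b) (hpb b) hTms
  set β : Fin L → ℝ := fun b => al (mz a b) (pb b) - al ms ps with hβ
  set δ : Fin L → ℝ := fun b => Real.log (1 - 1/(mz a b : ℝ)) - Real.log (1 - 1/ms) with hδ
  have hB : ∀ b, |β b| ≤ 3/250/m := by
    intro b
    refine (hAL b).1.trans ?_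
    calc 1/5 * |(mz a b : ℝ) - ms| / m^2 ≤ 1/5 * (3/50 * m) / m^2 := by
          gcongr; exact hX b
      _ = 3/250/m := by field_simp; ring
  have hT1 := hFN2 (Ix d K) K L Φ y m a β (3/250/m) hΦ hm100 hy hClu hB (by positivity)
  have hsum : ∀ b, 3205 * m * (|β b| * Db Φ a b) + |δ b| * |Cb Φ a b - 1| / 2 ≤
      (Fs (mz a b) - ch q (mz a b)) / 2 + 3 * 10^8 * Db Φ a b / m := by
    intro b
    have hb := perb m |(mz a b : ℝ) - ms| (β b) (δ b) (Cb Φ a b - 1) (Db Φ a b) (sc Φ a b)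
      (ou Φ a b) hm0 (abs_nonneg _) (hAL b).1 (hAL b).2 (hCb b) (hClu.sca b) (hClu.out b)
      (hnn b).1
    exact hb.trans (hAMG m ms (Db Φ a b) q (mz a b) hm100 hq10 hq1 hq2 hms1 hms2 (hsiz b)
      (hnn b).1 (hClu.dbb b) hconv)
  have hsumS := Finset.sum_le_sum (fun b (_ : b ∈ (Finset.univ : Finset (Fin L))) => hsum b)
  have hT2 : |(∑ b, δ b * (Cb Φ a b - 1)) / 2| ≤ ∑ b, |δ b| * |Cb Φ a b - 1| / 2 := by
    rw [abs_div, abs_of_pos (by norm_num : (0:ℝ) < 2), ← Finset.sum_div]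
    gcongr
    refine (Finset.abs_sum_le_sum_abs _ _).trans (le_of_eq ?_)
    exact Finset.sum_congr rfl fun b _ => abs_mul _ _
  -- the identity
  have hcard : (∑ b, (mz a b : ℝ)) + ((rs a).card : ℝ) = d + K := by
    have h := card_id a
    have h2 : Fintype.card (Ix d K) = d + K := by simp [Ix]
    rw [h2] at h
    exact_mod_cast h
  have hchs : ∑ b, ch q (mz a b) = L * (Fs ((q:ℝ) + 1) - la q * ((q:ℝ) + 1))
      + la q * ∑ b, (mz a b : ℝ) := by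
    have : ∀ b : Fin L, ch q (mz a b) =
        (Fs ((q:ℝ) + 1) - la q * ((q:ℝ) + 1)) + la q * (mz a b : ℝ) := fun b => by
      unfold ch; ring
    rw [Finset.sum_congr rfl (fun b _ => this b), Finset.sum_add_distrib, ← Finset.mul_sum,
      Finset.sum_const, Finset.card_univ, Fintype.card_fin, nsmul_eq_mul]
  have hV := (hVNL d K hK (le_trans (Nat.le_mul_of_pos_left K (by omega)) hMK)).2
  have hid : ∑ b, Fs (mz a b) + ((K:ℝ) - L) * (Fs ms - ms * la q) + la q * ((rs a).card : ℝ)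
      = Real.log (Vne d K) + ∑ b, (Fs (mz a b) - ch q (mz a b))
        + ((K:ℝ) - L) * (Fs ms - ch q ms) := by
    rw [Finset.sum_sub_distrib, hchs, hV, ← hm, ← hq]
    have e1 : ((rs a).card : ℝ) = K * m - ∑ b, (mz a b : ℝ) := by rw [hKm]; linarith
    rw [e1]
    unfold ch
    ring
  refine ⟨L, a, ms, hClu, hms1, hms2, hcv1, hcv2, ?_⟩
  refine le_trans (ENNReal.ofReal_le_ofReal (Real.exp_le_exp.mpr ?_))
    (hbound L a ms ps (la q) pb hmz2 (by linarith) hTms hpb hsl)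
  rw [hid]
  -- the numerical comparison
  have hG := hGNL (Ix d K) K Φ y m (by linarith) hΦ hy
  have hG' : 3 * 10^13 / m * Dfc Φ ≤ EG Φ y + Nc Φ m := by
    refine le_trans ?_ hG
    exact mul_le_mul_of_nonneg_right (rpow_id m c₃ hc₃ hm0 (by linarith)) hD0
  have hq3 : 1 / (q:ℝ)^3 ≤ 11/10 / m^3 := by
    have hq0 : (0:ℝ) < q := by linarith
    rw [div_le_div_iff₀ (by positivity) (by positivity)]
    have h1 : m ≤ (1 + 1/100) * q := by linarith
    calc 1 * m^3 ≤ 1 * ((1 + 1/100) * (q:ℝ))^3 := by gcongr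
      _ = (1 + 1/100)^3 * (q:ℝ)^3 := by ring
      _ ≤ 11/10 * (q:ℝ)^3 := by gcongr; norm_num
  have hT : |∑ b, β b * (1 - ∑ i ∈ fb a b, ∫ w, y w i * rho Φ (y w) i i ∂Pw (Ix d K))|
      + |(∑ b, δ b * (Cb Φ a b - 1)) / 2| ≤ (∑ b, (Fs (mz a b) - ch q (mz a b))) / 2
        + 3 * 10^8 * (∑ b, Db Φ a b) / m + 24 * (3/250/m) * EG Φ y := by
    have e1 : ∑ b, 3205 * m * (|β b| * Db Φ a b) = 3205 * m * ∑ b, |β b| * Db Φ a b :=
      (Finset.mul_sum _ _ _).symm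
    have e2 : ∑ b, (Fs (mz a b) - ch q (mz a b)) / 2
        = (∑ b, (Fs (mz a b) - ch q (mz a b))) / 2 := (Finset.sum_div _ _ _).symm
    have e3 : ∑ b, 3 * 10^8 * Db Φ a b / m = 3 * 10^8 * (∑ b, Db Φ a b) / m := by
      rw [← Finset.sum_div, ← Finset.mul_sum]
    rw [Finset.sum_add_distrib, Finset.sum_add_distrib, e1, e2, e3] at hsumS
    linarith
  have hfin := fin_ineq m (Dfc Φ) (EG Φ y) (Ccc Φ a ms) (Nc Φ m) (N1 Φ m) ((K:ℝ) - L)
    (Fs ms - ch q ms) (1 / (q:ℝ)^3) _ _ _ (∑ b, Db Φ a b) hm9 hD0 hEG0 hCcc0 hN1 hNc hG'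
    (by positivity) hKL (by linarith) (by linarith) hq3 (by positivity) hT hDbs
  have hδ' : (∑ b, (Real.log (1 - 1/(mz a b : ℝ)) - Real.log (1 - 1/ms)) * (Cb Φ a b - 1)) / 2
      = (∑ b, δ b * (Cb Φ a b - 1)) / 2 := rfl
  have hβ' : ∑ b, (al (mz a b) (pb b) - al ms ps) *
        (1 - ∑ i ∈ fb a b, ∫ w, y w i * rho Φ (y w) i i ∂Pw (Ix d K))
      = ∑ b, β b * (1 - ∑ i ∈ fb a b, ∫ w, y w i * rho Φ (y w) i i ∂Pw (Ix d K)) := rfl
  rw [hδ', hβ']
  linarith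

end Pool.LIN
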