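import Pool.Agent.Work.MP_1c7b0d_lin.Interface

/-! GGE: `GG D` for a diagonalised matrix. helper2 -/

open MeasureTheory Matrix Pool.LH60 Pool.LH73
open scoped BigOperators

namespace Pool.LIN

theorem GGE_thm : Stmt_GGE := by
  intro K D e Q h
  have hQ : Q * Qᵀ = 1 := mul_eq_one_comm.mp h.orth
  have hH : D.IsHermitian := by
    rw [h.eq]
    unfold Matrix.IsHermitian
    rw [Matrix.conjTranspose_eq_transpose_of_trivial]
    simp [Matrix.transpose_mul, Matrix.mul_assoc]
  unfold GG
  rw [dif_pos hH]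
  have hchar : D.charpoly = ∏ k, (Polynomial.X - Polynomial.C (e k)) := by
    have h1 : D.charpoly = (Matrix.diagonal e).charpoly := by
      have hu : IsUnit Q := ⟨⟨Q, Qᵀ, hQ, h.orth⟩, rfl⟩
      obtain ⟨u, hu'⟩ := hu
      have h2 : (↑(u⁻¹) : Matrix (Fin K) (Fin K) ℝ) = Qᵀ := by
        have : (↑(u⁻¹) : Matrix (Fin K) (Fin K) ℝ) * Q = 1 := by rw [← hu']; simp
        calc (↑(u⁻¹) : Matrix (Fin K) (Fin K) ℝ) = ↑(u⁻¹) * (Q * Qᵀ) := by rw [hQ, Matrix.mul_one]
          _ = (↑(u⁻¹) * Q) * Qᵀ := by rw [Matrix.mul_assoc]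
          _ = Qᵀ := by rw [this, Matrix.one_mul]
      have h5 := Matrix.charpoly_units_conj u (Matrix.diagonal e)
      rw [h.eq, ← h2, ← hu']
      simpa using h5
    rw [h1, Matrix.charpoly_diagonal]
  have hroots1 : D.charpoly.roots = Multiset.map e Finset.univ.val := by
    have h6 := Polynomial.roots_multiset_prod_X_sub_C (Multiset.map e Finset.univ.val)
    rw [Multiset.map_map] at h6
    rw [hchar]
    exact h6
  have hroots2 : D.charpoly.roots = Multiset.map hH.eigenvalues Finset.univ.val := by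
    have := hH.roots_charpoly_eq_eigenvalues
    simpa using this
  have key : Multiset.map hH.eigenvalues Finset.univ.val = Multiset.map e Finset.univ.val := by
    rw [← hroots2, hroots1]
  have h3 : ∀ f : Fin K → ℝ, ∑ k, hub (f k - 1) =
      (Multiset.map (fun t => hub (t - 1)) (Multiset.map f Finset.univ.val)).sum := by
    intro f
    rw [Multiset.map_map]
    rfl
  rw [h3, h3, key]

end Pool.LIN
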