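import Pool.Agent.Work.MP_1c7b0d_lin.Interface

/-! Block GNL (helper45): the gain. -/

open MeasureTheory Matrix Pool.LH60 Pool.LH73
open scoped BigOperators

namespace Pool.LIN

namespace GNL

/-- the powers of `m` -/
theorem powers {m : ℝ} (hm : 1 ≤ m) :
    0 < m ^ (-(2/7) : ℝ) ∧ 0 < m ^ (3/4 : ℝ) ∧ 1 ≤ Real.sqrt m ∧
      m ^ (-(2/7) : ℝ) * m ^ (3/4 : ℝ) ≤ Real.sqrt m ∧
      Real.sqrt m * m ^ (-(2/7) : ℝ) = m ^ (3/14 : ℝ) ∧
      m ^ (-(4/5) : ℝ) ≤ m ^ (-(2/7) : ℝ) / Real.sqrt m := by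
  have hm0 : 0 < m := by linarith
  have hs : Real.sqrt m = m ^ (1/2 : ℝ) := Real.sqrt_eq_rpow m
  refine ⟨Real.rpow_pos_of_pos hm0 _, Real.rpow_pos_of_pos hm0 _, ?_, ?_, ?_, ?_⟩
  · rw [Real.one_le_sqrt]
    exact hm
  · rw [hs, ← Real.rpow_add hm0]
    exact Real.rpow_le_rpow_of_exponent_le hm (by norm_num)
  · rw [hs, ← Real.rpow_add hm0]
    norm_num
  · rw [hs, ← Real.rpow_sub hm0]
    exact Real.rpow_le_rpow_of_exponent_le hm (by norm_num)

/-- the arithmetic -/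
theorem arith {c a b s D G EG EPt EDT q : ℝ} (hc : 0 < c) (_ha : 0 < a) (_hb : 0 < b) (hs : 1 ≤ s)
    (hab : a * b ≤ s) (hsa : 1080 / c ≤ s * a) (hq : q ≤ a / s) (hD : 0 ≤ D) (hG : 0 ≤ G)
    (hEG : EG ≤ G) (h1 : c * a * (D - 80000 * b * G) ≤ EPt) (h2 : EPt ≤ 6 * EDT + 320 * EG)
    (h3 : EDT ≤ 90 * D / s + 4000 * s * G) :
    (c / 2) / (80000 * c + 24320) * q * D ≤ G := by
  have hs0 : 0 < s := by linarith
  have hK : 0 < 80000 * c + 24320 := by linarith
  have e1 : 540 * D / s ≤ c / 2 * a * D := by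
    rw [div_le_iff₀ hs0]
    have e2 : 1080 ≤ s * a * c := by
      rw [div_le_iff₀ hc] at hsa
      exact hsa
    have e3 := mul_le_mul_of_nonneg_right e2 hD
    nlinarith
  have e4 : c * 80000 * (a * b) * G ≤ c * 80000 * s * G := by
    have e5 := mul_le_mul_of_nonneg_left hab (by positivity : 0 ≤ c * 80000 * G)
    nlinarith
  have e6 : (320 : ℝ) * G ≤ 320 * s * G := by
    have := mul_le_mul_of_nonneg_right hs hG
    nlinarith
  have e7 : 6 * EDT ≤ 540 * D / s + 24000 * s * G := by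
    have e8 : 540 * D / s = 6 * (90 * D / s) := by ring
    rw [e8]
    linarith
  have e9 : c * a * (D - 80000 * b * G) = c * a * D - c * 80000 * (a * b) * G := by ring
  rw [e9] at h1
  have e10 : c / 2 * a * D ≤ (80000 * c + 24320) * s * G := by nlinarith
  have e11 : (c / 2) * (a / s) * D ≤ (80000 * c + 24320) * G := by
    have e12 : (c / 2) * (a / s) * D = (c / 2 * a * D) / s := by ring
    rw [e12, div_le_iff₀ hs0]
    linarith
  have e13 : (c / 2) / (80000 * c + 24320) * (a / s) * D ≤ G := by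
    have e14 : (c / 2) / (80000 * c + 24320) * (a / s) * D =
        ((c / 2) * (a / s) * D) / (80000 * c + 24320) := by ring
    rw [e14, div_le_iff₀ hK]
    linarith
  have e15 : (c / 2) / (80000 * c + 24320) * q * D ≤
      (c / 2) / (80000 * c + 24320) * (a / s) * D := by
    refine mul_le_mul_of_nonneg_right ?_ hD
    exact mul_le_mul_of_nonneg_left hq (by positivity)
  exact e15.trans e13

theorem Nc_nonneg {ι : Type} [Fintype ι] [DecidableEq ι] {K : ℕ} (Φ : Matrix ι (Fin K) ℝ)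
    (m : ℝ) : 0 ≤ Nc Φ m := by
  unfold Nc
  positivity

end GNL

open GNL in
theorem GNL_thm (hPAIR : Stmt_PAIR) (hLCB : Stmt_LCB) (hDUA : Stmt_DUA) (hINT : Stmt_INT) :
    Stmt_GNL := by
  obtain ⟨c₂, M₂, hc₂, hM₂, hL⟩ := hLCB
  refine ⟨(c₂ / 2) / (80000 * c₂ + 24320),
    max 100 (max M₂ ((1080 / c₂) ^ (14/3 : ℝ))), by positivity, ?_, ?_⟩
  · exact le_trans (by norm_num) (le_max_left _ _)
  · intro ι _ _ K Φ y m hm hΦ hC
    have hm100 : 100 ≤ m := (le_max_left _ _).trans hm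
    have hmM : M₂ ≤ m := ((le_max_left _ _).trans (le_max_right _ _)).trans hm
    have hmc : (1080 / c₂) ^ (14/3 : ℝ) ≤ m := ((le_max_right _ _).trans (le_max_right _ _)).trans hm
    have hm1 : 1 ≤ m := by linarith
    obtain ⟨_, _, ⟨C, _, hCb⟩, iG, iD, iP, _, _, _⟩ := hINT ι K Φ y hΦ hC
    have hEG0 : 0 ≤ EG Φ y := integral_nonneg fun w => (hCb w).2.1
    have hN := Nc_nonneg Φ m
    have hG : 0 ≤ EG Φ y + Nc Φ m := by linarith
    have hmpos : 0 < m ^ (-(4/5) : ℝ) := Real.rpow_pos_of_pos (by linarith) _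
    by_cases hD : 0 ≤ Dfc Φ
    · obtain ⟨p1, p2, p3, p4, p5, p6⟩ := powers hm1
      have hsa : 1080 / c₂ ≤ Real.sqrt m * m ^ (-(2/7) : ℝ) := by
        rw [p5]
        have h0 : 0 ≤ 1080 / c₂ := by positivity
        have h1 := Real.rpow_le_rpow (by positivity) hmc (by norm_num : (0:ℝ) ≤ 3/14)
        rw [← Real.rpow_mul h0] at h1
        norm_num at h1
        exact h1
      have h1 := hL ι K Φ y m hmM hΦ hC
      have h3 := hDUA ι K Φ y m hm100 hΦ hC
      have h2 : ∫ w, Pt Φ (y w) ∂Pw ι ≤ 6 * ∫ w, DT Φ (y w) ∂Pw ι + 320 * EG Φ y := by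
        have h4 : ∫ w, Pt Φ (y w) ∂Pw ι ≤
            ∫ w, (6 * DT Φ (y w) + 320 * GG (Dm Φ (y w))) ∂Pw ι := by
          refine integral_mono iP ((iD.const_mul 6).add (iG.const_mul 320)) ?_
          intro w
          exact hPAIR ι K Φ (y w) hΦ (hC.pos w)
        rw [integral_add (iD.const_mul 6) (iG.const_mul 320), integral_const_mul,
          integral_const_mul] at h4
        exact h4
      exact arith hc₂ p1 p2 p3 p4 hsa p6 hD hG (by linarith) h1 h2 h3
    · have hD' : Dfc Φ ≤ 0 := (not_le.1 hD).le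
      have hcc : 0 ≤ (c₂ / 2) / (80000 * c₂ + 24320) * m ^ (-(4/5) : ℝ) := by positivity
      exact (mul_nonpos_of_nonneg_of_nonpos hcc hD').trans hG

end Pool.LIN
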