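import Pool.Agent.Work.MP_1c7b0d_lin.Interface

open MeasureTheory Matrix Pool.LH60 Pool.LH73
open scoped BigOperators

namespace Pool.LIN

namespace HOL73

theorem scal (hHUB : Stmt_HUB) (a t Λ R : ℝ) (hΛ : 0 < Λ) (hR : 0 ≤ R) (h1 : -1 < t)
    (h2 : t ≤ R) : a * t ≤ a^2 / (2 * Λ) + 3 * Λ * hub t + R / Λ^3 * a^4 := by
  obtain ⟨h0, -, -, -, hsm, hla, -⟩ := hHUB
  have n1 : 0 ≤ a^2 / (2 * Λ) := by positivity
  have n2 : 0 ≤ R / Λ^3 * a^4 := by positivity
  have n3 : 0 ≤ Λ * hub t := mul_nonneg hΛ.le (h0 t)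
  by_cases ht : |t| ≤ 1
  · rw [hsm t ht] at *
    have h3 : a * t ≤ a^2 / (2 * Λ) + Λ * (t^2/2) := by
      rw [← sub_nonneg]
      have : a^2 / (2 * Λ) + Λ * (t^2/2) - a * t = (a - Λ * t)^2 / (2 * Λ) := by
        field_simp
        ring
      rw [this]
      positivity
    linarith
  · push Not at ht
    have ht1 : 1 < t := by
      rcases lt_abs.1 ht with h | h
      · exact h
      · linarith
    rw [hla t ht.le, abs_of_pos (by linarith : (0:ℝ) < t)] at *
    by_cases ha : |a| ≤ Λ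
    · have h3 : a * t ≤ Λ * t := mul_le_mul_of_nonneg_right ((le_abs_self a).trans ha) (by linarith)
      have h4 : 0 ≤ Λ * (t - 1) := mul_nonneg hΛ.le (by linarith)
      linarith
    · push Not at ha
      have h3 : a * t ≤ |a| * R :=
        (mul_le_mul_of_nonneg_right (le_abs_self a) (by linarith)).trans
          (mul_le_mul_of_nonneg_left h2 (abs_nonneg a))
      have h4 : |a| * R ≤ R / Λ^3 * a^4 := by
        have h5 : a^4 = |a|^3 * |a| := by
          have h7 : |a|^4 = a^4 := by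
            rw [← abs_pow]
            exact abs_of_nonneg (by positivity)
          rw [← h7]
          ring
        rw [h5, div_mul_eq_mul_div, le_div_iff₀ (by positivity)]
        have h6 : Λ^3 ≤ |a|^3 := pow_le_pow_left₀ hΛ.le ha.le 3
        calc |a| * R * Λ^3 ≤ |a| * R * |a|^3 := mul_le_mul_of_nonneg_left h6 (by positivity)
          _ = R * (|a|^3 * |a|) := by ring
      linarith

end HOL73

open HOL73 in
theorem HOL73_thm (hGGE : Stmt_GGE) (hHUB : Stmt_HUB) : Stmt_HOL := by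
  intro K A D e Q Λ R hE hA hΛ he hR
  have hQ1 := hE.orth
  have hQ2 : Q * Qᵀ = 1 := mul_eq_one_comm.mp hQ1
  set B := Qᵀ * A * Q with hB
  have hBt : Bᵀ = B := by
    rw [hB, Matrix.transpose_mul, Matrix.transpose_mul, Matrix.transpose_transpose, hA,
      Matrix.mul_assoc]
  have hAB : A = Q * B * Qᵀ := by
    rw [hB]
    calc A = (Q * Qᵀ) * A * (Q * Qᵀ) := by rw [hQ2]; simp
      _ = Q * (Qᵀ * A * Q) * Qᵀ := by simp only [Matrix.mul_assoc]
  have hconj : ∀ M N : Matrix (Fin K) (Fin K) ℝ, (Q * M * Qᵀ) * (Q * N * Qᵀ) = Q * (M * N) * Qᵀ := by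
    intro M N
    calc (Q * M * Qᵀ) * (Q * N * Qᵀ) = Q * M * (Qᵀ * Q) * N * Qᵀ := by simp only [Matrix.mul_assoc]
      _ = Q * (M * N) * Qᵀ := by rw [hQ1]; simp only [Matrix.mul_assoc, Matrix.one_mul]
  have htr : ∀ M : Matrix (Fin K) (Fin K) ℝ, (Q * M * Qᵀ).trace = M.trace := by
    intro M
    rw [Matrix.trace_mul_comm, ← Matrix.mul_assoc, hQ1, Matrix.one_mul]
  have hD1 : D - 1 = Q * Matrix.diagonal (fun k => e k - 1) * Qᵀ := by
    rw [hE.eq]
    have : Matrix.diagonal (fun k => e k - 1) = Matrix.diagonal e - 1 := by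
      rw [← Matrix.diagonal_one, Matrix.diagonal_sub]
    rw [this, Matrix.mul_sub, Matrix.sub_mul, Matrix.mul_one, hQ2]
  have t1 : (A * (D - 1)).trace = ∑ k, B k k * (e k - 1) := by
    rw [hD1]
    nth_rewrite 1 [hAB]
    rw [hconj, htr, Matrix.trace]
    refine Finset.sum_congr rfl fun k _ => ?_
    rw [Matrix.diag_apply, Matrix.mul_diagonal]
  have sq : ∀ M : Matrix (Fin K) (Fin K) ℝ, Mᵀ = M →
      ∑ k, (M k k)^2 ≤ (M * M).trace ∧ ∀ k, (M k k)^2 ≤ (M * M) k k := by
    intro M hM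
    have h1 : ∀ k, (M k k)^2 ≤ (M * M) k k := by
      intro k
      rw [Matrix.mul_apply]
      have h2 : ∀ j, M k j * M j k = (M k j)^2 := by
        intro j
        have : M j k = M k j := by
          conv_lhs => rw [← hM]
          rfl
        rw [this]
        ring
      simp only [h2]
      exact Finset.single_le_sum (f := fun j => (M k j)^2) (fun j _ => sq_nonneg _)
        (Finset.mem_univ k)
    exact ⟨Finset.sum_le_sum fun k _ => h1 k, h1⟩
  have t2 : ∑ k, (B k k)^2 ≤ (A * A).trace := by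
    have h1 : (A * A).trace = (B * B).trace := by
      nth_rewrite 1 [hAB]
      nth_rewrite 1 [hAB]
      rw [hconj, htr]
    rw [h1]
    exact (sq B hBt).1
  have t3 : ∑ k, (B k k)^4 ≤ (A^4).trace := by
    have h1 : (A^4).trace = ((B * B) * (B * B)).trace := by
      have h2 : A^4 = (A * A) * (A * A) := by noncomm_ring
      have h3 : A * A = Q * (B * B) * Qᵀ := by
        nth_rewrite 1 [hAB]
        nth_rewrite 1 [hAB]
        rw [hconj]
      rw [h2, h3, hconj, htr]
    rw [h1]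
    have hBB : (B * B)ᵀ = B * B := by rw [Matrix.transpose_mul, hBt]
    refine le_trans (Finset.sum_le_sum fun k _ => ?_) (sq (B * B) hBB).1
    have h4 := (sq B hBt).2 k
    calc (B k k)^4 = ((B k k)^2)^2 := by ring
      _ ≤ ((B * B) k k)^2 := pow_le_pow_left₀ (sq_nonneg _) h4 2
  rw [t1, hGGE K D e Q hE]
  calc ∑ k, B k k * (e k - 1)
      ≤ ∑ k, ((B k k)^2 / (2 * Λ) + 3 * Λ * hub (e k - 1) + R / Λ^3 * (B k k)^4) := by
        refine Finset.sum_le_sum fun k _ => ?_
        refine scal hHUB _ _ _ _ hΛ hR ?_ ?_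
        · linarith [hE.pos k]
        · linarith [he k]
    _ = (∑ k, (B k k)^2) / (2 * Λ) + 3 * Λ * ∑ k, hub (e k - 1) + R / Λ^3 * ∑ k, (B k k)^4 := by
        rw [Finset.sum_add_distrib, Finset.sum_add_distrib, Finset.sum_div, Finset.mul_sum,
          Finset.mul_sum]
    _ ≤ _ := by
        have h5 : (∑ k, (B k k)^2) / (2 * Λ) ≤ (A * A).trace / (2 * Λ) :=
          div_le_div_of_nonneg_right t2 (by positivity)
        have h6 : R / Λ^3 * ∑ k, (B k k)^4 ≤ R / Λ^3 * (A^4).trace :=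
          mul_le_mul_of_nonneg_left t3 (by positivity)
        linarith

end Pool.LIN
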