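import Pool.Agent.Work.MP_1c7b0d_lin.Interface

/-!
# MP_1c7b0d_gt, block HUB: elementary properties of the Huber function
-/

open MeasureTheory Matrix Pool.LH60 Pool.LH73

namespace Pool.LIN

namespace HUB

theorem le1 {t : ℝ} (h : |t| ≤ 1) : hub t = t ^ 2 / 2 := by
  unfold hub; rw [if_pos h]

theorem ge1 {t : ℝ} (h : 1 ≤ |t|) : hub t = |t| - 1 / 2 := by
  unfold hub
  by_cases h' : |t| ≤ 1
  · rw [if_pos h']
    have h1 : |t| = 1 := le_antisymm h' h
    have h2 : t ^ 2 = 1 := by rw [← sq_abs, h1]; norm_num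
    rw [h1, h2]; norm_num
  · rw [if_neg h']

theorem abs_sub (t : ℝ) : |t| - 1 / 2 ≤ hub t := by
  rcases le_total |t| 1 with h | h
  · rw [le1 h, ← sq_abs]
    nlinarith [sq_nonneg (|t| - 1)]
  · rw [ge1 h]

theorem le_sq (t : ℝ) : hub t ≤ t ^ 2 / 2 := by
  rcases le_total |t| 1 with h | h
  · rw [le1 h]
  · rw [ge1 h, ← sq_abs]
    nlinarith [sq_nonneg (|t| - 1)]

theorem nonneg (t : ℝ) : 0 ≤ hub t := by
  rcases le_total |t| 1 with h | h
  · rw [le1 h]; positivity
  · rw [ge1 h]; linarith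

theorem le_abs (t : ℝ) : hub t ≤ |t| := by
  rcases le_total |t| 1 with h | h
  · rw [le1 h, ← sq_abs]
    nlinarith [abs_nonneg t]
  · rw [ge1 h]; linarith

/-- supporting line -/
theorem supp (z : ℝ) : ∃ s : ℝ, |s| ≤ 1 ∧ ∀ y, hub z + s * (y - z) ≤ hub y := by
  rcases le_total |z| 1 with h | h
  · refine ⟨z, h, fun y => ?_⟩
    rw [le1 h]
    rcases le_total |y| 1 with h' | h'
    · rw [le1 h']
      nlinarith [sq_nonneg (y - z)]
    · rw [ge1 h']
      have h1 : z * y ≤ |z| * |y| := by rw [← abs_mul]; exact le_abs_self _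
      have h2 : z ^ 2 = |z| ^ 2 := (sq_abs z).symm
      nlinarith [sq_nonneg (1 - |z|), mul_nonneg (sub_nonneg.2 h) (sub_nonneg.2 h')]
  · rcases le_total 0 z with hz | hz
    · refine ⟨1, by norm_num, fun y => ?_⟩
      rw [ge1 h, abs_of_nonneg hz]
      have := abs_sub y
      have := le_abs_self y
      linarith
    · refine ⟨-1, by norm_num, fun y => ?_⟩
      rw [ge1 h, abs_of_nonpos hz]
      have := abs_sub y
      have := neg_le_abs y
      linarith

theorem lip' (s t : ℝ) : hub s - hub t ≤ |s - t| := by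
  obtain ⟨a, ha, h⟩ := supp s
  have h1 := h t
  have h2 : a * (s - t) ≤ |s - t| := by
    calc a * (s - t) ≤ |a * (s - t)| := le_abs_self _
      _ = |a| * |s - t| := abs_mul _ _
      _ ≤ 1 * |s - t| := mul_le_mul_of_nonneg_right ha (abs_nonneg _)
      _ = |s - t| := one_mul _
  linarith

theorem lip (s t : ℝ) : |hub s - hub t| ≤ |s - t| := by
  rw [abs_le]
  have h1 := lip' s t
  have h2 := lip' t s
  rw [abs_sub_comm t s] at h2
  constructor <;> linarith

theorem convex : ConvexOn ℝ Set.univ hub := by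
  refine ⟨convex_univ, fun x _ y _ a b ha hb hab => ?_⟩
  obtain ⟨s, _, h⟩ := supp (a • x + b • y)
  have h1 := mul_le_mul_of_nonneg_left (h x) ha
  have h2 := mul_le_mul_of_nonneg_left (h y) hb
  simp only [smul_eq_mul] at *
  have h3 : b = 1 - a := by linarith
  subst h3
  nlinarith

theorem cont : Continuous hub := by
  have : LipschitzWith 1 hub := LipschitzWith.of_dist_le_mul fun s t => by
    rw [Real.dist_eq, Real.dist_eq, NNReal.coe_one, one_mul]
    exact lip s t
  exact this.continuous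

theorem split (e : ℝ) (he : 0 < e) : hub (e - 1) = hm e + hp e := by
  unfold hm hp
  rcases le_total 1 e with h | h
  · rw [if_pos h, max_eq_right (by linarith)]
    norm_num
  · rcases h.eq_or_lt with h1 | h1
    · subst h1
      rw [if_pos le_rfl]
      norm_num
    · rw [if_neg (not_le.2 h1), max_eq_left (by linarith), le1 (by rw [abs_le]; constructor <;> linarith)]
      ring

end HUB

theorem HUB_thm : Stmt_HUB :=
  ⟨HUB.nonneg, HUB.lip, HUB.convex, HUB.le_abs, fun _ h => HUB.le1 h, fun _ h => HUB.ge1 h,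
    HUB.abs_sub, HUB.le_sq, HUB.cont, HUB.split⟩

end Pool.LIN
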