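import Pool.Agent.Work.MP_1c7b0d_lin.PRB

/-! Block IBP: integration by parts for the exponential distribution. helper32 -/

open MeasureTheory Matrix Pool.LH60 Pool.LH73
open scoped BigOperators

namespace Pool.LIN

namespace IBP

open Set

/-- one variable -/
theorem one_var (g g' : ℝ → ℝ) (C : ℝ) (hg : Measurable g) (hg' : Measurable g')
    (hb : ∀ t, |g t| ≤ C) (hb' : ∀ t, |t * g' t| ≤ C)
    (hd : ∀ t, 0 < t → HasDerivAt g (g' t) t) :
    ∫ t, (t - 1) * g t ∂e1 = ∫ t, t * g' t ∂e1 := by
  have hpow1 : Integrable (fun t : ℝ => t - 1) e1 := by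
    have h := (PRB.int_pow 1).sub (PRB.int_const 1)
    refine h.congr (Filter.Eventually.of_forall fun t => ?_)
    simp
  have hi1 : Integrable (fun t : ℝ => (t - 1) * g t) e1 := by
    refine (hpow1.norm.const_mul C).mono'
      ((measurable_id.sub_const 1).mul hg).aestronglyMeasurable
      (Filter.Eventually.of_forall fun t => ?_)
    rw [norm_mul, mul_comm]
    exact mul_le_mul_of_nonneg_right (by rw [Real.norm_eq_abs]; exact hb t) (norm_nonneg _)
  have hi2 : Integrable (fun t : ℝ => t * g' t) e1 := by
    refine (PRB.int_const C).mono' (measurable_id.mul hg').aestronglyMeasurable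
      (Filter.Eventually.of_forall fun t => ?_)
    rw [Real.norm_eq_abs]
    exact hb' t
  have key : ∫ t, (t * g' t - (t - 1) * g t) ∂e1 = 0 := by
    rw [PRB.e1_integral]
    have hint := PRB.e1_integrable_iff.1 (hi2.sub hi1)
    have hder : ∀ t ∈ Ioi (0 : ℝ), HasDerivAt (fun t : ℝ => t * g t * Real.exp (-t))
        (Real.exp (-t) * (t * g' t - (t - 1) * g t)) t := by
      intro t ht
      have h1 : HasDerivAt (fun x : ℝ => Real.exp (-x)) (Real.exp (-t) * -1) t :=
        (hasDerivAt_neg t).exp
      have h2 : HasDerivAt (fun x : ℝ => x * g x) (1 * g t + t * g' t) t :=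
        (hasDerivAt_id' t).mul (hd t ht)
      exact (h2.mul h1).congr_deriv (by ring)
    have hC : 0 ≤ C := le_trans (abs_nonneg _) (hb 0)
    have hbound : ∀ t : ℝ, 0 ≤ t → |t * g t * Real.exp (-t)| ≤ C * (t ^ 1 * Real.exp (-t)) := by
      intro t ht
      rw [abs_mul, abs_mul, abs_of_nonneg ht, abs_of_pos (Real.exp_pos _), pow_one]
      have := hb t
      have h3 : t * |g t| ≤ t * C := mul_le_mul_of_nonneg_left this ht
      calc t * |g t| * Real.exp (-t) ≤ t * C * Real.exp (-t) :=
            mul_le_mul_of_nonneg_right h3 (Real.exp_pos _).le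
        _ = C * (t * Real.exp (-t)) := by ring
    have hlim : Filter.Tendsto (fun t : ℝ => t * g t * Real.exp (-t)) Filter.atTop (nhds 0) := by
      have h4 : Filter.Tendsto (fun t : ℝ => C * (t ^ 1 * Real.exp (-t))) Filter.atTop
          (nhds 0) := by
        have := (Real.tendsto_pow_mul_exp_neg_atTop_nhds_zero 1).const_mul C
        simpa using this
      refine squeeze_zero_norm' ?_ h4
      filter_upwards [Filter.eventually_ge_atTop (0 : ℝ)] with t ht
      rw [Real.norm_eq_abs]
      exact hbound t ht
    have hcont : ContinuousWithinAt (fun t : ℝ => t * g t * Real.exp (-t)) (Ici 0) 0 := by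
      unfold ContinuousWithinAt
      have h0 : (fun t : ℝ => t * g t * Real.exp (-t)) 0 = 0 := by simp
      rw [h0]
      have h5 : Filter.Tendsto (fun t : ℝ => C * (t ^ 1 * Real.exp (-t)))
          (nhdsWithin 0 (Ici 0)) (nhds 0) := by
        have hc : Continuous (fun t : ℝ => C * (t ^ 1 * Real.exp (-t))) := by fun_prop
        have := hc.continuousWithinAt (s := Ici 0) (x := 0)
        unfold ContinuousWithinAt at this
        simpa using this
      refine squeeze_zero_norm' ?_ h5
      filter_upwards [self_mem_nhdsWithin] with t ht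
      rw [Real.norm_eq_abs]
      exact hbound t ht
    have h6 := integral_Ioi_of_hasDerivAt_of_tendsto hcont hder hint hlim
    rw [h6]
    simp
  rw [integral_sub hi2 hi1] at key
  linarith

end IBP

theorem IBP_thm (hRES : Stmt_RES) (hPRB : Stmt_PRB) : Stmt_IBP := by
  intro ι _ _ l F F' hF hF' hb hd
  obtain ⟨C, hC⟩ := hb
  obtain ⟨-, hR2, hR3⟩ := hRES ι l
  have hmu : ∀ w : ι → ℝ, Measurable (fun t : ℝ => Function.update w l t) := by
    intro w
    exact measurable_update w
  have hm1 : Measurable (fun w : ι → ℝ => (w l - 1) * F w) :=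
    ((measurable_pi_apply l).sub_const 1).mul hF
  have hm2 : Measurable (fun w : ι → ℝ => w l * F' w) := (measurable_pi_apply l).mul hF'
  have hpow1 : Integrable (fun t : ℝ => t - 1) e1 := by
    have h := (PRB.int_pow 1).sub (PRB.int_const 1)
    refine h.congr (Filter.Eventually.of_forall fun t => ?_)
    simp
  have hwl : Integrable (fun w : ι → ℝ => w l - 1) (Pw ι) := by
    have h := (hR3 (fun _ => 1) (fun t => t - 1) measurable_const (measurable_id.sub_const 1)
      (integrable_const 1) hpow1 (fun _ _ => rfl)).1
    refine h.congr (Filter.Eventually.of_forall fun w => ?_)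
    simp
  have hi1 : Integrable (fun w : ι → ℝ => (w l - 1) * F w) (Pw ι) := by
    refine (hwl.norm.const_mul C).mono' hm1.aestronglyMeasurable
      (Filter.Eventually.of_forall fun w => ?_)
    rw [norm_mul, mul_comm]
    exact mul_le_mul_of_nonneg_right (by rw [Real.norm_eq_abs]; exact (hC w).1) (norm_nonneg _)
  have hi2 : Integrable (fun w : ι → ℝ => w l * F' w) (Pw ι) := by
    refine (integrable_const C).mono' hm2.aestronglyMeasurable
      (Filter.Eventually.of_forall fun w => ?_)
    rw [Real.norm_eq_abs]
    exact (hC w).2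
  rw [hR2 _ hm1 hi1, hR2 _ hm2 hi2]
  refine integral_congr_ae ?_
  filter_upwards [hPRB.2.1 ι] with w hw
  simp only [Function.update_self]
  refine IBP.one_var (fun t => F (Function.update w l t)) (fun t => F' (Function.update w l t)) C
    (hF.comp (hmu w)) (hF'.comp (hmu w)) (fun t => (hC _).1) (fun t => ?_) ?_
  · have := (hC (Function.update w l t)).2
    simpa using this
  · intro t ht
    have hw' : Function.update w l t ∈ Orth ι := by
      intro i
      by_cases hi : i = l
      · subst hi; simpa using ht
      · rw [Function.update_of_ne hi]; exact hw i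
    have h := hd _ hw'
    simpa [Function.update_idem, Function.update_self] using h

end Pool.LIN
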