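import Pool.Agent.Work.MP_1c7b0d_lin.Interface

/-! Block INT (helper40): measurability and bounds. -/

open MeasureTheory Matrix Pool.LH60 Pool.LH73
open scoped BigOperators

namespace Pool.LIN

namespace INTaux

set_option linter.unusedSectionVars false

variable {ι : Type} [Fintype ι] [DecidableEq ι] {K : ℕ}

theorem Dm_cont (Φ : Matrix ι (Fin K) ℝ) : Continuous fun y : ι → ℝ => Dm Φ y := by
  unfold Dm
  exact (continuous_const.matrix_mul (Continuous.matrix_diagonal continuous_id)).matrix_mul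
    continuous_const

theorem rho_eq (Φ : Matrix ι (Fin K) ℝ) (y : ι → ℝ) (i l : ι) :
    rho Φ y i l = (Dm Φ y).det⁻¹ * (Φ * (Dm Φ y).adjugate * Φᵀ) i l := by
  unfold rho
  rw [Matrix.inv_def, Ring.inverse_eq_inv', Matrix.mul_smul, Matrix.smul_mul, Matrix.smul_apply,
    smul_eq_mul]

theorem rho_meas (Φ : Matrix ι (Fin K) ℝ) (i l : ι) :
    Measurable fun y : ι → ℝ => rho Φ y i l := by
  simp only [rho_eq]
  refine Measurable.mul ?_ ?_
  · exact ((Dm_cont Φ).matrix_det).measurable.inv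
  · exact (((continuous_const.matrix_mul (Dm_cont Φ).matrix_adjugate).matrix_mul
      continuous_const).matrix_elem i l).measurable

theorem Tm_meas (Φ : Matrix ι (Fin K) ℝ) (i l : ι) :
    Measurable fun y : ι → ℝ => Tm Φ y i l := by
  unfold Tm
  simp only [Matrix.of_apply]
  refine Measurable.sub ?_ ?_
  · by_cases h : i = l
    · simp only [h, if_true]
      exact measurable_pi_apply l
    · simp only [h, if_false]
      exact measurable_const
  · exact ((measurable_pi_apply i).mul (rho_meas Φ i l)).mul (measurable_pi_apply l)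

theorem DT_meas (Φ : Matrix ι (Fin K) ℝ) : Measurable fun y : ι → ℝ => DT Φ y := by
  unfold DT TMd
  exact Finset.measurable_fun_sum _ fun i _ => Finset.measurable_fun_sum _ fun l _ =>
    (Tm_meas Φ i l).mul_const _

theorem Pt_meas (Φ : Matrix ι (Fin K) ℝ) : Measurable fun y : ι → ℝ => Pt Φ y := by
  unfold Pt
  refine Measurable.div_const ?_ _
  exact Finset.measurable_fun_sum _ fun i _ => Finset.measurable_fun_sum _ fun j _ =>
    (((measurable_pi_apply i).min measurable_const).mul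
      ((measurable_pi_apply j).min measurable_const)).mul_const _

theorem es_meas (Φ : Matrix ι (Fin K) ℝ) (i : ι) : Measurable fun y : ι → ℝ => es Φ y i := by
  unfold es
  refine Measurable.div_const ?_ _
  exact Finset.measurable_fun_sum _ fun j _ => (measurable_pi_apply j).const_mul _

theorem gr_meas (Φ : Matrix ι (Fin K) ℝ) (i : ι) : Measurable fun y : ι → ℝ => gr Φ y i := by
  unfold gr
  exact Finset.measurable_fun_sum _ fun l _ =>
    ((rho_meas Φ i l).mul (measurable_pi_apply l)).pow_const 2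

theorem Zb_meas (Φ : Matrix ι (Fin K) ℝ) (i : ι) : Measurable fun y : ι → ℝ => Zb Φ y i := by
  unfold Zb
  refine Measurable.add ?_ ?_
  · exact (measurable_pi_apply i).mul (((gr_meas Φ i).sub_const _).max measurable_const)
  · exact Measurable.ite (measurableSet_lt measurable_const (es_meas Φ i))
      (measurable_pi_apply i) measurable_const

theorem comp_meas {α β : Type*} [MeasurableSpace α] [TopologicalSpace β] [MeasurableSpace β]
    [OpensMeasurableSpace β] (g : β → ℝ) {S : Set β} (hg : ContinuousOn g S) {y : α → β}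
    (hy : Measurable y) (hS : ∀ w, y w ∈ S) : Measurable fun w => g (y w) := by
  have h1 : Measurable (fun z : S => g z) :=
    (continuousOn_iff_continuous_domRestrict.1 hg).measurable
  have h2 : Measurable fun w => (⟨y w, hS w⟩ : S) := hy.subtype_mk
  exact h1.comp h2

theorem int_of_bdd {f : (ι → ℝ) → ℝ} (hf : Measurable f) {C : ℝ} (hC : ∀ w, |f w| ≤ C) :
    Integrable f (Pw ι) :=
  Integrable.of_bound hf.aestronglyMeasurable C
    (Filter.Eventually.of_forall fun x => by rw [Real.norm_eq_abs]; exact hC x)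

end INTaux

open INTaux in
theorem INT_thm (hTFA : Stmt_TFA) (hGGC : Stmt_GGC) (_hDEF1 : Stmt_DEF1) (_hPDG : Stmt_PDG) :
    Stmt_INT := by
  intro ι _ _ K Φ y hΦ hy
  obtain ⟨C0, hC0⟩ := hy.bdd
  obtain ⟨B, hB⟩ : ∃ B, B = max C0 0 := ⟨_, rfl⟩
  have hB0 : 0 ≤ B := by rw [hB]; exact le_max_right _ _
  have hyB : ∀ w i, y w i ≤ B := fun w i => by
    rw [hB]
    exact (hC0 w i).trans (le_max_left _ _)
  have hpos := hy.pos
  have habs : ∀ w i, |y w i| ≤ B := fun w i => by
    rw [abs_of_pos (hpos w i)]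
    exact hyB w i
  have hcn : ∀ i, 0 ≤ cn Φ i := fun i => Finset.sum_nonneg fun a _ => sq_nonneg _
  -- `GG`
  have hGG0 : ∀ w, 0 ≤ GG (Dm Φ (y w)) := fun w =>
    (hGGC ι K Φ (y w) (y w) hΦ (hpos w) (hpos w)).2.1
  obtain ⟨G, hG⟩ : ∃ G, G = ∑ i, cn Φ i * (B + 1) := ⟨_, rfl⟩
  have hG0 : 0 ≤ G := by
    rw [hG]
    exact Finset.sum_nonneg fun i _ => mul_nonneg (hcn i) (by linarith)
  have hGGb : ∀ w, GG (Dm Φ (y w)) ≤ G := by
    intro w
    refine (hGGC ι K Φ (y w) (y w) hΦ (hpos w) (hpos w)).2.2.trans ?_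
    rw [hG]
    refine Finset.sum_le_sum fun i _ => mul_le_mul_of_nonneg_left ?_ (hcn i)
    rw [abs_le]
    constructor
    · linarith [hpos w i]
    · linarith [hyB w i]
  have hGGm : Measurable fun w => GG (Dm Φ (y w)) := by
    have hcont : ContinuousOn (fun z : ι → ℝ => GG (Dm Φ z)) (Orth ι) := by
      rw [Metric.continuousOn_iff]
      intro z hz ε hε
      obtain ⟨S, hS⟩ : ∃ S, S = ∑ i, cn Φ i + 1 := ⟨_, rfl⟩
      have hS0 : 0 < S := by
        rw [hS]
        have : 0 ≤ ∑ i, cn Φ i := Finset.sum_nonneg fun i _ => hcn i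
        linarith
      refine ⟨ε / S, by positivity, fun z' hz' hd => ?_⟩
      rw [Real.dist_eq]
      refine lt_of_le_of_lt (hGGC ι K Φ z' z hΦ hz' hz).1 ?_
      have h1 : ∀ i, |z' i - z i| ≤ dist z' z := fun i => by
        rw [← Real.dist_eq]
        exact dist_le_pi_dist z' z i
      calc ∑ i, cn Φ i * |z' i - z i| ≤ ∑ i, cn Φ i * dist z' z :=
            Finset.sum_le_sum fun i _ => mul_le_mul_of_nonneg_left (h1 i) (hcn i)
        _ = (∑ i, cn Φ i) * dist z' z := by rw [Finset.sum_mul]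
        _ ≤ S * dist z' z := mul_le_mul_of_nonneg_right (by rw [hS]; linarith) dist_nonneg
        _ < S * (ε / S) := mul_lt_mul_of_pos_left hd hS0
        _ = ε := by field_simp
    exact comp_meas (fun z : ι → ℝ => GG (Dm Φ z)) hcont hy.meas hpos
  -- `T`
  have hT : ∀ w i l, |Tm Φ (y w) i l| ≤ B := by
    intro w i l
    have h1 := (hTFA ι K Φ (y w) hΦ (hpos w)).2.2.2.2.2.2.1 i l
    have h2 : y w i * y w l ≤ B * B :=
      mul_le_mul (hyB w i) (hyB w l) (hpos w l).le hB0
    exact abs_le_of_sq_le_sq (by nlinarith) hB0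
  -- `Z`
  have hZ : ∀ w i, 0 ≤ Zb Φ (y w) i ∧ Zb Φ (y w) i ≤ 2 * B := by
    intro w i
    obtain ⟨-, -, -, -, h5, h6, -, -, -⟩ := hTFA ι K Φ (y w) hΦ (hpos w)
    have hyi := hpos w i
    have hgr0 : 0 ≤ gr Φ (y w) i := Finset.sum_nonneg fun l _ => sq_nonneg _
    have hgr : y w i * gr Φ (y w) i ≤ B := by
      have h7 : gr Φ (y w) i ≤ B * rho Φ (y w) i i := by
        rw [← h6 i, Finset.mul_sum]
        refine Finset.sum_le_sum fun l _ => ?_
        have h8 : (rho Φ (y w) i l * y w l)^2 = y w l * (y w l * (rho Φ (y w) i l)^2) := by ring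
        rw [h8]
        exact mul_le_mul_of_nonneg_right (hyB w l)
          (mul_nonneg (hpos w l).le (sq_nonneg _))
      calc y w i * gr Φ (y w) i ≤ y w i * (B * rho Φ (y w) i i) :=
            mul_le_mul_of_nonneg_left h7 hyi.le
        _ = B * (y w i * rho Φ (y w) i i) := by ring
        _ ≤ B * 1 := mul_le_mul_of_nonneg_left (h5 i).2 hB0
        _ = B := mul_one B
    have h9 : y w i * max (gr Φ (y w) i - 5/4) 0 ≤ B := by
      refine le_trans (mul_le_mul_of_nonneg_left ?_ hyi.le) hgr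
      exact max_le (by linarith) hgr0
    have h10 : 0 ≤ y w i * max (gr Φ (y w) i - 5/4) 0 :=
      mul_nonneg hyi.le (le_max_right _ _)
    unfold Zb
    split_ifs
    · exact ⟨by linarith, by linarith [hyB w i]⟩
    · exact ⟨by linarith, by linarith⟩
  have hZm : ∀ i, Measurable fun w => Zb Φ (y w) i := fun i => (Zb_meas Φ i).comp hy.meas
  have hym : ∀ i, Measurable fun w => y w i := fun i => (measurable_pi_apply i).comp hy.meas
  refine ⟨fun i l => (rho_meas Φ i l).comp hy.meas, hGGm, ⟨2 * B + G, by linarith, fun w =>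
    ⟨fun i => by linarith [hyB w i], hGG0 w, by linarith [hGGb w],
      fun i l => by linarith [hT w i l], fun i => ⟨(hZ w i).1, by linarith [(hZ w i).2]⟩⟩⟩,
    ?_, ?_, ?_, ?_, ?_, ?_⟩
  · exact int_of_bdd hGGm (C := G) fun w => by rw [abs_of_nonneg (hGG0 w)]; exact hGGb w
  · refine int_of_bdd ((DT_meas Φ).comp hy.meas) (C := ∑ i, ∑ l, B * (pp Φ i l)^2) fun w => ?_
    show |DT Φ (y w)| ≤ _
    unfold DT TMd
    refine (Finset.abs_sum_le_sum_abs _ _).trans (Finset.sum_le_sum fun i _ => ?_)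
    refine (Finset.abs_sum_le_sum_abs _ _).trans (Finset.sum_le_sum fun l _ => ?_)
    rw [abs_mul, abs_of_nonneg (sq_nonneg (pp Φ i l))]
    exact mul_le_mul_of_nonneg_right (hT w i l) (sq_nonneg _)
  · refine int_of_bdd ((Pt_meas Φ).comp hy.meas)
      (C := (∑ i, ∑ j, |(pp Φ i j)^2 * ds Φ i j|) / 2) fun w => ?_
    show |Pt Φ (y w)| ≤ _
    unfold Pt
    rw [abs_div, abs_of_pos (by norm_num : (0:ℝ) < 2)]
    refine div_le_div_of_nonneg_right ?_ (by norm_num)
    refine (Finset.abs_sum_le_sum_abs _ _).trans (Finset.sum_le_sum fun i _ => ?_)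
    refine (Finset.abs_sum_le_sum_abs _ _).trans (Finset.sum_le_sum fun j _ => ?_)
    rw [abs_mul]
    refine mul_le_of_le_one_left (abs_nonneg _) ?_
    have h1 : ∀ i, 0 ≤ min (y w i) 1 ∧ min (y w i) 1 ≤ 1 := fun i =>
      ⟨le_min (hpos w i).le zero_le_one, min_le_right _ _⟩
    rw [abs_of_nonneg (mul_nonneg (h1 i).1 (h1 j).1)]
    exact mul_le_one₀ (h1 i).2 (h1 j).1 (h1 j).2
  · exact fun i => int_of_bdd (hym i) fun w => habs w i
  · intro i
    refine int_of_bdd ((hym i).mul ((rho_meas Φ i i).comp hy.meas)) (C := 1) fun w => ?_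
    have h5 := (hTFA ι K Φ (y w) hΦ (hpos w)).2.2.2.2.1 i
    show |y w i * rho Φ (y w) i i| ≤ 1
    rw [abs_of_nonneg (mul_nonneg (hpos w i).le h5.1)]
    exact h5.2
  · exact fun i => ⟨hZm i, int_of_bdd (hZm i) (C := 2 * B) fun w => by
      rw [abs_of_nonneg (hZ w i).1]; exact (hZ w i).2⟩

end Pool.LIN
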