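import Pool.Agent.Work.MP_1c7b0d_lin.Interface

/-! Block KLE: the number of classes and the exceptional rows. helper65 -/

open MeasureTheory Matrix Pool.LH60 Pool.LH73
open scoped BigOperators

namespace Pool.LIN

/-- `u = m (c - 1/ms)` is close to `m c - 1` -/
theorem KLE_u {m ms c : ℝ} (hm : 1000 ≤ m) (hms : |ms - m| ≤ 1) :
    |m * c - 1| - 1/999 ≤ |m * (c - 1/ms)| ∧ |m * c| ≤ |m * (c - 1/ms)| + 1000/999 := by
  have h1 := abs_le.1 hms
  have hmspos : 0 < ms := by linarith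
  have hms999 : 999 ≤ ms := by linarith
  have h2 : |1 - m / ms| ≤ 1/999 := by
    have : 1 - m / ms = (ms - m) / ms := by field_simp
    rw [this, abs_div, abs_of_pos hmspos]
    calc |ms - m| / ms ≤ 1 / ms := by gcongr
      _ ≤ 1 / 999 := by gcongr
  have e1 : m * c - 1 = m * (c - 1/ms) - (1 - m / ms) := by ring
  have e2 : m * c = m * (c - 1/ms) + m / ms := by ring
  constructor
  · have := abs_sub (m * (c - 1/ms)) (1 - m / ms)
    rw [e1]; linarith
  · have h3 := abs_add_le (m * (c - 1/ms)) (m / ms)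
    have h4 : |m / ms| ≤ 1000/999 := by
      have := abs_le.1 h2
      rw [abs_le]; constructor <;> linarith
    rw [e2]; linarith

theorem KLE_n1 {m ms c : ℝ} (hm : 1000 ≤ m) (hms : |ms - m| ≤ 1) (h : 1/100 < |m * c - 1|) :
    1 ≤ 40000 * m^2 * (c - 1/ms)^2 := by
  have h1 := (KLE_u (c := c) hm hms).1
  have h2 : 1/200 ≤ |m * (c - 1/ms)| := by linarith
  have h3 : (1/200)^2 ≤ |m * (c - 1/ms)|^2 := by gcongr
  rw [sq_abs] at h3
  nlinarith [h3]

theorem KLE_nc {m ms c : ℝ} (hm : 1000 ≤ m) (hms : |ms - m| ≤ 1) (h : 1/20 < |m * c - 1|) :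
    1 / m^2 + c^2 ≤ 2000 * (c - 1/ms)^2 := by
  have h1 := (KLE_u (c := c) hm hms)
  have h2 : 1/25 ≤ |m * (c - 1/ms)| := by linarith [h1.1]
  have h5 : |m * c| ≤ 27 * |m * (c - 1/ms)| := by linarith [h1.2]
  have h3 : (1/25)^2 ≤ |m * (c - 1/ms)|^2 := by gcongr
  have h4 : |m * c|^2 ≤ (27 * |m * (c - 1/ms)|)^2 := by gcongr
  rw [mul_pow, sq_abs, sq_abs] at h4
  rw [sq_abs] at h3
  have hm0 : 0 < m := by linarith
  have h6 : 1 + (m * c)^2 ≤ 2000 * (m * (c - 1/ms))^2 := by nlinarith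
  have h7 : 1 / m^2 + c^2 = (1 + (m * c)^2) / m^2 := by field_simp
  have h8 : 2000 * (c - 1/ms)^2 = (2000 * (m * (c - 1/ms))^2) / m^2 := by
    rw [mul_pow]; field_simp
  rw [h7, h8]
  gcongr

theorem KLE_split {ι : Type} [Fintype ι] [DecidableEq ι] {L : ℕ} (a : ι → Option (Fin L))
    (f : ι → ℝ) : ∑ i, f i = (∑ b, ∑ i ∈ fb a b, f i) + ∑ i ∈ rs a, f i := by
  have h := Finset.sum_fiberwise (Finset.univ : Finset ι) a f
  rw [← h, Fintype.sum_option, add_comm]
  rfl

theorem KLE_thm (hCLC : Stmt_CLC) (hDEF1 : Stmt_DEF1) : Stmt_KLE := by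
  intro ι _ _ K L Φ m ms a hΦ hm hms hC
  obtain ⟨c1, -, -, c4, c5⟩ := hCLC ι K L Φ m a hΦ (by linarith) hC
  obtain ⟨-, d2, d3, -, -, d6⟩ := hDEF1 ι K Φ hΦ
  have hm0 : 0 < m := by linarith
  have hnone : ∀ i, 1/100 < |m * cn Φ i - 1| → a i = none := by
    intro i hi
    cases h : a i with
    | none => rfl
    | some b => exact absurd (hC.row i b h) (not_le.2 hi)
  have hrf : ∀ i, 1/100 < |m * cn Φ i - 1| → rf a ms i = ms := by
    intro i hi
    unfold rf; rw [hnone i hi]; rfl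
  have hCcc : ∀ S : Finset ι, (∀ i ∈ S, 1/100 < |m * cn Φ i - 1|) →
      ∑ i ∈ S, (cn Φ i - 1/ms)^2 ≤ Ccc Φ a ms := by
    intro S hS
    unfold Ccc
    calc ∑ i ∈ S, (cn Φ i - 1/ms)^2 = ∑ i ∈ S, (cn Φ i - 1/rf a ms i)^2 :=
          Finset.sum_congr rfl fun i hi => by rw [hrf i (hS i hi)]
      _ ≤ ∑ i, (cn Φ i - 1/rf a ms i)^2 :=
          Finset.sum_le_sum_of_subset_of_nonneg (Finset.subset_univ _)
            (fun i _ _ => sq_nonneg _)
  have hN0 : (0:ℝ) ≤ N1 Φ m := Nat.cast_nonneg _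
  refine ⟨?_, ?_, ?_⟩
  · -- number of classes
    have e1 : ((K:ℝ) - L) = ∑ b, (Cb Φ a b - 1) + ∑ i ∈ rs a, cn Φ i := by
      rw [← d2, KLE_split a (fun i => cn Φ i), Finset.sum_sub_distrib]
      simp only [Cb, Finset.sum_const, Finset.card_univ, Fintype.card_fin, nsmul_eq_mul, mul_one]
      ring
    have e2 : ∑ b, (Cb Φ a b - 1) ≤ 1602 * m * Dfc Φ := by
      calc ∑ b, (Cb Φ a b - 1) ≤ ∑ b, 1602 * m * Db Φ a b := by
            apply Finset.sum_le_sum
            intro b _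
            have h1 := le_trans (le_abs_self _) (c1 b)
            have h2 := hC.sca b
            have h3 := hC.out b
            have h4 : 0 ≤ m * Db Φ a b := mul_nonneg hm0.le (c5 b).1
            linarith
        _ = 1602 * m * ∑ b, Db Φ a b := by rw [Finset.mul_sum]
        _ ≤ 1602 * m * Dfc Φ := by gcongr
    have e3 : ∑ i ∈ rs a, cn Φ i ≤ ((rs a).card : ℝ) * (101/100/m) + N1 Φ m := by
      have h1 : ∀ i ∈ rs a, cn Φ i ≤ 101/100/m +
          (if 1/100 < |m * cn Φ i - 1| then (1:ℝ) else 0) := by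
        intro i _
        split_ifs with h
        · have := (d3 i).2
          have : 0 ≤ 101/100/m := by positivity
          linarith
        · have h2 := (abs_le.1 (not_lt.1 h)).2
          rw [add_zero, le_div_iff₀ hm0]
          linarith
      calc ∑ i ∈ rs a, cn Φ i ≤ ∑ i ∈ rs a, (101/100/m +
          (if 1/100 < |m * cn Φ i - 1| then (1:ℝ) else 0)) := Finset.sum_le_sum h1
        _ = ((rs a).card : ℝ) * (101/100/m) +
            ∑ i ∈ rs a, (if 1/100 < |m * cn Φ i - 1| then (1:ℝ) else 0) := by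
            rw [Finset.sum_add_distrib, Finset.sum_const, nsmul_eq_mul]
        _ ≤ ((rs a).card : ℝ) * (101/100/m) +
            ∑ i, (if 1/100 < |m * cn Φ i - 1| then (1:ℝ) else 0) := by
            refine (add_le_add_iff_left _).2 ?_
            refine Finset.sum_le_sum_of_subset_of_nonneg (Finset.subset_univ _) ?_
            intro i _ _
            split_ifs <;> norm_num
        _ = _ := by
            rw [Finset.sum_ite, Finset.sum_const_zero, add_zero, Finset.sum_const, nsmul_eq_mul,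
              mul_one]
            rfl
    have e4 : ((rs a).card : ℝ) * (101/100/m) ≤
        (3 * 10^5 * m^3 * Dfc Φ + 3 * m * N1 Φ m) * (101/100/m) := by
      have := hC.rst
      have h0 : 0 ≤ 101/100/m := by positivity
      exact mul_le_mul_of_nonneg_right this h0
    have e5 : (3 * 10^5 * m^3 * Dfc Φ + 3 * m * N1 Φ m) * (101/100/m) =
        303000 * m^2 * Dfc Φ + 303/100 * N1 Φ m := by
      field_simp; ring
    have e6 : 1602 * m * Dfc Φ ≤ 2 * m^2 * Dfc Φ := by
      have : 1602 * m ≤ 2 * m^2 := by nlinarith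
      exact mul_le_mul_of_nonneg_right this d6
    have e7 : 0 ≤ m^2 * Dfc Φ := mul_nonneg (by positivity) d6
    rw [e1]
    rw [e5] at e4
    linarith
  · -- N1
    calc (N1 Φ m : ℝ) = ∑ i ∈ Finset.univ.filter (fun i => 1/100 < |m * cn Φ i - 1|), (1:ℝ) := by
          rw [Finset.sum_const, nsmul_eq_mul, mul_one]; rfl
      _ ≤ ∑ i ∈ Finset.univ.filter (fun i => 1/100 < |m * cn Φ i - 1|),
            40000 * m^2 * (cn Φ i - 1/ms)^2 := by
          apply Finset.sum_le_sum
          intro i hi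
          exact KLE_n1 hm hms (Finset.mem_filter.1 hi).2
      _ = 40000 * m^2 * ∑ i ∈ Finset.univ.filter (fun i => 1/100 < |m * cn Φ i - 1|),
            (cn Φ i - 1/ms)^2 := by rw [Finset.mul_sum]
      _ ≤ 40000 * m^2 * Ccc Φ a ms := by
          gcongr
          exact hCcc _ (fun i hi => (Finset.mem_filter.1 hi).2)
  · -- Nc
    calc Nc Φ m = ∑ i ∈ Cs Φ m, (1 / m^2 + (cn Φ i)^2) := by
          unfold Nc
          rw [Finset.sum_add_distrib, Finset.sum_const, nsmul_eq_mul]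
          ring
      _ ≤ ∑ i ∈ Cs Φ m, 2000 * (cn Φ i - 1/ms)^2 := by
          apply Finset.sum_le_sum
          intro i hi
          exact KLE_nc hm hms (Finset.mem_filter.1 hi).2
      _ = 2000 * ∑ i ∈ Cs Φ m, (cn Φ i - 1/ms)^2 := by rw [Finset.mul_sum]
      _ ≤ 2000 * Ccc Φ a ms := by
          have := hCcc (Cs Φ m) (fun i hi => by
            have := (Finset.mem_filter.1 hi).2
            linarith)
          linarith

end Pool.LIN
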