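import Pool.Agent.Work.MP_1c7b0d_lin.Interface

/-! Block LAW (helper51): the law of `y` under the integrand. -/

open MeasureTheory Matrix Pool.LH60 Pool.LH73
open scoped BigOperators

namespace Pool.LIN

namespace LAWb

section meas
variable {ι : Type} [Fintype ι]

omit [Fintype ι] in
theorem orth_eq : Orth ι = Set.univ.pi (fun _ => Set.Ioi (0:ℝ)) := by
  ext w; simp [Orth, Set.mem_pi]

/-- the product of exponential distributions has density `e^{-∑ w}` on the orthant -/
theorem Pw_eq : Pw ι = (volume.restrict (Orth ι)).withDensity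
    (fun w => ENNReal.ofReal (Real.exp (-∑ i, w i))) := by
  unfold Pw
  refine Measure.pi_eq fun s hs => ?_
  rw [withDensity_apply _ (MeasurableSet.univ_pi hs), orth_eq, volume_pi, Measure.restrict_pi_pi,
    Measure.restrict_pi_pi]
  have hint : ∀ i : ι, Integrable (fun t : ℝ => Real.exp (-t))
      ((volume.restrict (Set.Ioi 0)).restrict (s i)) := fun i =>
    Integrable.restrict (integrableOn_exp_neg_Ioi 0)
  have hfun : (fun w : ι → ℝ => Real.exp (-∑ i, w i)) = fun w => ∏ i, Real.exp (-(w i)) := by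
    funext w
    rw [← Real.exp_sum, Finset.sum_neg_distrib]
  have hI : Integrable (fun w : ι → ℝ => Real.exp (-∑ i, w i))
      (Measure.pi fun i : ι => ((volume : Measure ℝ).restrict (Set.Ioi 0)).restrict (s i)) := by
    rw [hfun]
    exact Integrable.fintype_prod_dep (fun i => hint i)
  rw [← ofReal_integral_eq_lintegral_ofReal hI
    (Filter.Eventually.of_forall fun _ => (Real.exp_pos _).le), hfun,
    integral_fintype_prod_eq_prod (fun (_ : ι) (t : ℝ) => Real.exp (-t)),
    ENNReal.ofReal_prod_of_nonneg]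
  · refine Finset.prod_congr rfl fun i _ => ?_
    unfold e1
    rw [withDensity_apply _ (hs i), ← ofReal_integral_eq_lintegral_ofReal (hint i)
      (Filter.Eventually.of_forall fun _ => (Real.exp_pos _).le)]
  · intro i _
    exact integral_nonneg fun _ => (Real.exp_pos _).le

theorem lint_Pw (H : (ι → ℝ) → ENNReal) :
    ∫⁻ w, H w ∂Pw ι = ∫⁻ w in Orth ι, ENNReal.ofReal (Real.exp (-∑ i, w i)) * H w := by
  rw [Pw_eq, lintegral_withDensity_eq_lintegral_mul_non_measurable]
  · rfl
  · fun_prop
  · exact Filter.Eventually.of_forall fun _ => ENNReal.ofReal_lt_top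

end meas

section main
variable {d K : ℕ}

theorem continuous_yv (U : Matrix (Ix d K) (Fin d) ℝ) (i : Ix d K) :
    Continuous (fun x : Fin d → ℝ => yv U x i) := by
  unfold yv
  fun_prop

theorem continuous_sl (Φ : Matrix (Ix d K) (Fin K) ℝ) (b : Ix d K → ℝ) (i : Ix d K) :
    Continuous (fun f : Fin K → ℝ => sl Φ b f i) := by
  unfold sl
  fun_prop

theorem isOpen_Pol (U : Matrix (Ix d K) (Fin d) ℝ) : IsOpen (Pol U) := by
  have : Pol U = ⋂ i, {x | 0 < yv U x i} := by
    ext x; simp [Pol]
  rw [this]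
  exact isOpen_iInter_of_finite fun i => isOpen_lt continuous_const (continuous_yv U i)

theorem isOpen_Dom (U : Matrix (Ix d K) (Fin d) ℝ) : IsOpen (Dom (K := K) U) := by
  have : Dom (K := K) U = (fun z : Ix d K → ℝ => fun a => z (Sum.inl a)) ⁻¹' (Pol U) := rfl
  rw [this]
  refine (isOpen_Pol U).preimage ?_
  fun_prop

theorem continuous_Dm (Φ : Matrix (Ix d K) (Fin K) ℝ) :
    Continuous (fun y : Ix d K → ℝ => Dm Φ y) := by
  unfold Dm
  exact (continuous_const.matrix_mul (Continuous.matrix_diagonal continuous_id)).matrix_mul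
    continuous_const

/-- the coupling is inverted by the slacks -/
theorem isY_slack (V : Matrix (Ix d K) (Fin d) ℝ) (Φ : Matrix (Ix d K) (Fin K) ℝ)
    (b : Ix d K → ℝ) (hF : IsoFrame V Φ) (z : Ix d K → ℝ) (hz : z ∈ Dom V) :
    IsY Φ (fun j => Real.exp (-b j) * Th V Φ b z j) (yv V (fun a => z (Sum.inl a))) := by
  refine ⟨hz, ?_, fun a => z (Sum.inr a), ?_⟩
  · intro k
    have h1 : ∀ a, ∑ i, Φ i k * V i a = 0 := by
      intro a
      have := congrFun (congrFun hF.2.2 k) a
      simpa [Matrix.mul_apply] using this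
    have h2 : ∑ i, (yv V (fun a => z (Sum.inl a)) i - 1) * Φ i k
        = -∑ a, z (Sum.inl a) * ∑ i, Φ i k * V i a := by
      simp only [Finset.mul_sum]
      rw [Finset.sum_comm, ← Finset.sum_neg_distrib]
      refine Finset.sum_congr rfl fun i _ => ?_
      unfold yv
      rw [sub_sub_cancel_left, neg_mul, Finset.sum_mul]
      congr 1
      refine Finset.sum_congr rfl fun a _ => ?_
      ring
    rw [h2]
    simp [h1]
  · intro i
    show Real.exp (-b i) * (yv V (fun a => z (Sum.inl a)) i *
        Real.exp (b i + ∑ a, Φ i a * z (Sum.inr a)))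
      = yv V (fun a => z (Sum.inl a)) i * Real.exp (∑ a, Φ i a * z (Sum.inr a))
    rw [mul_left_comm, ← Real.exp_add, neg_add_cancel_left]

end main
end LAWb

open LAWb in
theorem LAW_thm (hCVI : Stmt_CVI) (hCVS : Stmt_CVS) (hCVD : Stmt_CVD) (hPDY : Stmt_PDY)
    (hYDI : Stmt_YDI) : Stmt_LAW := by
  intro d K V Φ b hF h hh
  have hΦ : Φᵀ * Φ = 1 := hF.2.1
  have hV : Vᵀ * V = 1 := hF.1
  have hFr : IsFrame V Φ := ⟨hF.2.1, hF.2.2, by rw [hV, det_one]; exact one_ne_zero⟩
  -- the coupling
  have hY : ∀ z ∈ Dom V, Yc Φ (fun j => Real.exp (-b j) * Th V Φ b z j)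
      = yv V (fun a => z (Sum.inl a)) := by
    intro z hz
    have h1 := isY_slack V Φ b hF z hz
    have hO : (fun j => Real.exp (-b j) * Th V Φ b z j) ∈ Orth (Ix d K) := by
      intro j
      exact mul_pos (Real.exp_pos _) (mul_pos (hz j) (Real.exp_pos _))
    have hex : (fun j => Real.exp (-b j) * Th V Φ b z j) ∈ Orth (Ix d K) ∧
        ∃ y, IsY Φ (fun j => Real.exp (-b j) * Th V Φ b z j) y := ⟨hO, _, h1⟩
    unfold Yc
    rw [dif_pos hex]
    exact (hYDI (Ix d K) K Φ hΦ).2 _ _ _ hex.2.choose_spec h1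
  choose! L hL hLdet using hCVD d K V Φ b hFr
  -- the image
  have himg : Th V Φ b '' (Dom V) = Orth (Ix d K) := by
    ext w
    constructor
    · rintro ⟨z, hz, rfl⟩ i
      exact mul_pos (hz i) (Real.exp_pos _)
    · intro hw
      obtain ⟨z, hz, hzw⟩ := hCVS d K V Φ b hFr w hw
      exact ⟨z, hz, hzw⟩
  have hcv := lintegral_image_eq_lintegral_abs_det_fderiv_mul (volume : Measure (Ix d K → ℝ))
    (s := Dom V) (f := Th V Φ b) (f' := L) (isOpen_Dom V).measurableSet
    (fun z hz => (hL z hz).hasFDerivWithinAt) (hCVI d K V Φ b hFr)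
    (fun w => ENNReal.ofReal (Real.exp (-∑ i, w i)) *
      h (Yc Φ (fun j => Real.exp (-b j) * w j)))
  rw [himg] at hcv
  rw [lint_Pw, hcv]
  -- the integrand on the product
  set F : (Fin d → ℝ) → (Fin K → ℝ) → ENNReal := fun x f =>
    ENNReal.ofReal (Real.sqrt (Vᵀ * V).det * (Dm Φ (yv V x)).det) *
      ENNReal.ofReal (Real.exp (∑ i, (sl Φ b f i - yv V x i * Real.exp (sl Φ b f i)))) *
      h (yv V x) with hFdef
  have hrew : ∫⁻ z in Dom V, ENNReal.ofReal |(L z).det| *
        (ENNReal.ofReal (Real.exp (-∑ i, Th V Φ b z i)) *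
          h (Yc Φ (fun j => Real.exp (-b j) * Th V Φ b z j)))
      = ∫⁻ z in Dom V, F (fun a => z (Sum.inl a)) (fun a => z (Sum.inr a)) := by
    refine setLIntegral_congr_fun (isOpen_Dom V).measurableSet fun z hz => ?_
    have hDpos : 0 < (Dm Φ (yv V (fun a => z (Sum.inl a)))).det :=
      (hPDY d K Φ _ hΦ hz).det_pos
    simp only [hFdef]
    rw [hY z hz, ← mul_assoc, hLdet z hz, ← ENNReal.ofReal_mul (by positivity),
      ← ENNReal.ofReal_mul (by positivity)]
    congr 2
    rw [Finset.sum_sub_distrib, Real.exp_sub]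
    have hTh : ∑ i, Th V Φ b z i
        = ∑ i, yv V (fun a => z (Sum.inl a)) i * Real.exp (sl Φ b (fun a => z (Sum.inr a)) i) := rfl
    rw [hTh, Real.exp_neg]
    field_simp
  rw [hrew]
  -- measurability
  have hyc : Continuous (fun x : Fin d → ℝ => yv V x) := continuous_pi fun i => continuous_yv V i
  have hmeasF : Measurable (fun p : (Fin d → ℝ) × (Fin K → ℝ) => F p.1 p.2) := by
    simp only [hFdef]
    have hc1 : Continuous (fun p : (Fin d → ℝ) × (Fin K → ℝ) =>
        Real.sqrt (Vᵀ * V).det * (Dm Φ (yv V p.1)).det) := by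
      refine continuous_const.mul (Continuous.matrix_det ?_)
      refine (continuous_Dm Φ).comp ?_
      exact hyc.comp continuous_fst
    have hc2 : Continuous (fun p : (Fin d → ℝ) × (Fin K → ℝ) =>
        Real.exp (∑ i, (sl Φ b p.2 i - yv V p.1 i * Real.exp (sl Φ b p.2 i)))) := by
      refine Real.continuous_exp.comp (continuous_finsetSum _ fun i _ => ?_)
      have hs : Continuous (fun p : (Fin d → ℝ) × (Fin K → ℝ) => sl Φ b p.2 i) :=
        (continuous_sl Φ b i).comp continuous_snd
      exact hs.sub (((continuous_yv V i).comp continuous_fst).mul (Real.continuous_exp.comp hs))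
    exact ((ENNReal.measurable_ofReal.comp hc1.measurable).mul
      (ENNReal.measurable_ofReal.comp hc2.measurable)).mul
      (hh.comp (hyc.measurable.comp measurable_fst))
  -- transfer to the product space
  have hmp := volume_measurePreserving_sumPiEquivProdPi (fun _ : Ix d K => ℝ)
  have hprod : ∫⁻ z in Dom V, F (fun a => z (Sum.inl a)) (fun a => z (Sum.inr a))
      = ∫⁻ p in (Pol V) ×ˢ (Set.univ : Set (Fin K → ℝ)), F p.1 p.2
          ∂((volume : Measure (Fin d → ℝ)).prod (volume : Measure (Fin K → ℝ))) := by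
    have h := hmp.setLIntegral_comp_preimage (s := (Pol V) ×ˢ (Set.univ : Set (Fin K → ℝ)))
      ((isOpen_Pol V).measurableSet.prod MeasurableSet.univ) hmeasF
    rw [← Measure.volume_eq_prod]
    rw [← h]
    congr 1
    congr 1
    ext z
    simp only [Dom, Set.mem_ofPred_eq, Set.mem_preimage, Set.mem_prod, Set.mem_univ, and_true]
    rfl
  rw [hprod, ← Measure.prod_restrict, Measure.restrict_univ,
    lintegral_prod _ hmeasF.aemeasurable]
  refine lintegral_congr fun x => ?_
  simp only [hFdef]
  unfold Ing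
  rw [lintegral_mul_const, lintegral_const_mul']
  · exact ENNReal.ofReal_ne_top
  · refine Measurable.const_mul (ENNReal.measurable_ofReal.comp (Continuous.measurable ?_)) _
    refine Real.continuous_exp.comp (continuous_finsetSum _ fun i _ => ?_)
    exact (continuous_sl Φ b i).sub (continuous_const.mul
      (Real.continuous_exp.comp (continuous_sl Φ b i)))

end Pool.LIN
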