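import Pool.Agent.Work.MP_1c7b0d_lin.Interface

/-! Block LCB (helper9): lower bound of `E Pt`. -/

open MeasureTheory Matrix Pool.LH60 Pool.LH73
open scoped BigOperators

namespace Pool.LIN

/-- restriction of a symmetric nonnegative double sum to the complement of a set -/
private theorem LCB_dbl {ι : Type} [Fintype ι] [DecidableEq ι] (a : ι → ι → ℝ)
    (hs : ∀ i j, a i j = a j i) (h0 : ∀ i j, 0 ≤ a i j) (E : Finset ι) :
    ∑ i, ∑ j, a i j - 2 * ∑ i ∈ E, ∑ j, a i j ≤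
      ∑ i ∈ Finset.univ \ E, ∑ j ∈ Finset.univ \ E, a i j := by
  have h1 : ∑ i, ∑ j, a i j = ∑ i ∈ Finset.univ \ E, ∑ j, a i j + ∑ i ∈ E, ∑ j, a i j :=
    (Finset.sum_sdiff (Finset.subset_univ E)).symm
  have h2 : ∑ i ∈ Finset.univ \ E, ∑ j, a i j =
      ∑ i ∈ Finset.univ \ E, ∑ j ∈ Finset.univ \ E, a i j +
      ∑ i ∈ Finset.univ \ E, ∑ j ∈ E, a i j := by
    rw [← Finset.sum_add_distrib]
    refine Finset.sum_congr rfl fun i _ => ?_
    exact (Finset.sum_sdiff (Finset.subset_univ E)).symm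
  have h3 : ∑ i ∈ Finset.univ \ E, ∑ j ∈ E, a i j ≤ ∑ i ∈ E, ∑ j, a i j := by
    rw [Finset.sum_comm]
    refine Finset.sum_le_sum fun j _ => ?_
    calc ∑ i ∈ Finset.univ \ E, a i j ≤ ∑ i, a i j :=
          Finset.sum_le_sum_of_subset_of_nonneg (Finset.subset_univ _) fun i _ _ => h0 i j
      _ = ∑ i, a j i := Finset.sum_congr rfl fun i _ => hs i j
  linarith

theorem LCB_thm (hLCI : Stmt_LCI) (hLCD : Stmt_LCD) (hDWT : Stmt_DWT) (hINT : Stmt_INT)
    (hDEF1 : Stmt_DEF1) : Stmt_LCB := by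
  obtain ⟨c₁, M₁, hc₁, hc₁1, hM₁, hL⟩ := hLCI
  refine ⟨3/5 * c₁^2, M₁, by positivity, hM₁, ?_⟩
  intro ι _ _ K Φ y m hm hΦ hC
  have hm1 : 1 ≤ m := hM₁.trans hm
  have hm0 : 0 < m := by linarith
  obtain ⟨-, -, ⟨C, hC0, hCb⟩, hGi, -, hPti, hyi, -, hZ⟩ := hINT ι K Φ y hΦ hC
  obtain ⟨-, -, hcn, hds, hDfc, hDfc0⟩ := hDEF1 ι K Φ hΦ
  -- notation
  set t := c₁ * m ^ (-(1/7) : ℝ) with ht
  set p := m ^ (3/4 : ℝ) with hp
  have hp1 : 1 ≤ p := Real.one_le_rpow hm1 (by norm_num)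
  have hp0 : 0 < p := by linarith
  have hpinv : m ^ (-(3/4) : ℝ) = p⁻¹ := by rw [hp, Real.rpow_neg hm0.le]
  have hmr : 0 < m ^ (-(1/7) : ℝ) := Real.rpow_pos_of_pos hm0 _
  have hmr1 : m ^ (-(1/7) : ℝ) ≤ 1 := Real.rpow_le_one_of_one_le_of_nonpos hm1 (by norm_num)
  have ht0 : 0 < t := mul_pos hc₁ hmr
  have ht1 : t ≤ 1 := by
    calc t ≤ 1 * 1 := mul_le_mul hc₁1 hmr1 hmr.le (by norm_num)
      _ = 1 := by norm_num
  have htsq : t^2 = c₁^2 * m ^ (-(2/7) : ℝ) := by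
    rw [ht, mul_pow, ← Real.rpow_natCast (m ^ (-(1/7) : ℝ)) 2, ← Real.rpow_mul hm0.le]
    norm_num
  set EZ : ι → ℝ := fun i => ∫ w, Zb Φ (y w) i ∂Pw ι with hEZ
  have hEZ0 : ∀ i, 0 ≤ EZ i := fun i => integral_nonneg fun w => ((hCb w).2.2.2.2 i).1
  set E : Finset ι := Cs Φ m ∪ (Finset.univ \ Cs Φ m).filter (fun i => p⁻¹ / 5 < EZ i) with hE
  set c := ((Cs Φ m).card : ℝ) with hc
  have hc0 : 0 ≤ c := Nat.cast_nonneg _
  have hEG0 : 0 ≤ EG Φ y := integral_nonneg fun w => (hCb w).2.1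
  have hS0 : 0 ≤ ∑ i ∈ Cs Φ m, (cn Φ i)^2 := Finset.sum_nonneg fun i _ => sq_nonneg _
  have hNc : Nc Φ m = c / m^2 + ∑ i ∈ Cs Φ m, (cn Φ i)^2 := rfl
  -- sum of the expectations
  have hsumZ : ∑ i ∈ Finset.univ \ Cs Φ m, EZ i ≤ 3000 * m^2 * EG Φ y + c := by
    have h1 : ∑ i ∈ Finset.univ \ Cs Φ m, EZ i =
        ∫ w, ∑ i ∈ Finset.univ \ Cs Φ m, Zb Φ (y w) i ∂Pw ι :=
      (integral_finsetSum _ fun i _ => (hZ i).2).symm
    have hys : Integrable (fun w => ∑ i ∈ Cs Φ m, y w i) (Pw ι) :=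
      integrable_finsetSum _ fun i _ => hyi i
    have hysv : ∫ w, ∑ i ∈ Cs Φ m, y w i ∂Pw ι = c := by
      rw [integral_finsetSum _ fun i _ => hyi i]
      rw [Finset.sum_congr rfl fun i _ => hC.mean i]
      simp [hc]
    have h2 : ∫ w, (3000 * m^2 * GG (Dm Φ (y w)) + ∑ i ∈ Cs Φ m, y w i) ∂Pw ι =
        3000 * m^2 * EG Φ y + c := by
      rw [integral_add (hGi.const_mul _) hys, integral_const_mul, hysv]
      rfl
    rw [h1, ← h2]
    exact integral_mono (integrable_finsetSum _ fun i _ => (hZ i).2)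
      ((hGi.const_mul _).add hys) fun w => hLCD ι K Φ (y w) m hΦ hm1 (hC.pos w)
  -- size of the exceptional set
  have hcard : (E.card : ℝ) ≤ c + 5 * p * (3000 * m^2 * EG Φ y + c) := by
    have h1 : (E.card : ℝ) ≤
        c + (((Finset.univ \ Cs Φ m).filter (fun i => p⁻¹ / 5 < EZ i)).card : ℝ) := by
      rw [hc]
      norm_cast
      exact Finset.card_union_le _ _
    have h2 : (((Finset.univ \ Cs Φ m).filter (fun i => p⁻¹ / 5 < EZ i)).card : ℝ) * (p⁻¹ / 5) ≤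
        ∑ i ∈ Finset.univ \ Cs Φ m, EZ i := by
      calc (((Finset.univ \ Cs Φ m).filter (fun i => p⁻¹ / 5 < EZ i)).card : ℝ) * (p⁻¹ / 5)
          = ∑ i ∈ (Finset.univ \ Cs Φ m).filter (fun i => p⁻¹ / 5 < EZ i), p⁻¹ / 5 := by
            rw [Finset.sum_const, nsmul_eq_mul]
        _ ≤ ∑ i ∈ (Finset.univ \ Cs Φ m).filter (fun i => p⁻¹ / 5 < EZ i), EZ i :=
            Finset.sum_le_sum fun i hi => (Finset.mem_filter.mp hi).2.le
        _ ≤ ∑ i ∈ Finset.univ \ Cs Φ m, EZ i :=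
            Finset.sum_le_sum_of_subset_of_nonneg (Finset.filter_subset _ _)
              fun i _ _ => hEZ0 i
    have h3 : (((Finset.univ \ Cs Φ m).filter (fun i => p⁻¹ / 5 < EZ i)).card : ℝ) ≤
        5 * p * (3000 * m^2 * EG Φ y + c) := by
      have h4 := h2.trans hsumZ
      have h5 := mul_le_mul_of_nonneg_left h4 (by positivity : (0:ℝ) ≤ 5 * p)
      have h6 : 5 * p * ((((Finset.univ \ Cs Φ m).filter (fun i => p⁻¹ / 5 < EZ i)).card : ℝ)
          * (p⁻¹ / 5)) =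
          (((Finset.univ \ Cs Φ m).filter (fun i => p⁻¹ / 5 < EZ i)).card : ℝ) := by
        field_simp
      rw [h6] at h5
      exact h5
    linarith
  -- probabilities
  have hmeas : ∀ i, MeasurableSet {w : ι → ℝ | t ≤ y w i} := fun i =>
    measurableSet_le measurable_const ((measurable_pi_apply i).comp hC.meas)
  have hprob : ∀ i, i ∉ E → 4/5 ≤ (Pw ι).real {w | t ≤ y w i} := by
    intro i hi
    have h1 : i ∉ Cs Φ m := fun h => hi (Finset.mem_union_left _ h)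
    have h2 : EZ i ≤ m ^ (-(3/4) : ℝ) / 5 := by
      rw [hpinv]
      by_contra hcon
      exact hi (Finset.mem_union_right _ (Finset.mem_filter.mpr
        ⟨Finset.mem_sdiff.mpr ⟨Finset.mem_univ _, h1⟩, not_le.mp hcon⟩))
    exact hL ι K Φ y m hm hΦ hC i h1 h2
  have hprob2 : ∀ i j, i ∉ E → j ∉ E →
      3/5 ≤ (Pw ι).real ({w | t ≤ y w i} ∩ {w | t ≤ y w j}) := by
    intro i j hi hj
    have h1 := measureReal_union_add_inter (μ := Pw ι) (s := {w | t ≤ y w i})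
      (t := {w | t ≤ y w j}) (hmeas j)
    have h2 : (Pw ι).real ({w | t ≤ y w i} ∪ {w | t ≤ y w j}) ≤ 1 := measureReal_le_one
    linarith [hprob i hi, hprob j hj]
  -- nonnegative pair weights
  set a : ι → ι → ℝ := fun i j => (pp Φ i j)^2 * ds Φ i j with ha
  have hds0 : ∀ i j, 0 ≤ ds Φ i j := fun i j => Finset.sum_nonneg fun k _ => sq_nonneg _
  have ha0 : ∀ i j, 0 ≤ a i j := fun i j => mul_nonneg (sq_nonneg _) (hds0 i j)
  have hpps : ∀ i j, pp Φ i j = pp Φ j i := fun i j =>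
    Finset.sum_congr rfl fun k _ => mul_comm _ _
  have hdss : ∀ i j, ds Φ i j = ds Φ j i := fun i j =>
    Finset.sum_congr rfl fun k _ => by ring
  have has : ∀ i j, a i j = a j i := fun i j => by
    simp only [ha]; rw [hpps i j, hdss i j]
  have hatot : ∑ i, ∑ j, a i j = 2 * Dfc Φ := by
    rw [hDfc]
    have : ∀ i j, a i j = (pp Φ i j)^2 * (cn Φ i + cn Φ j - 2 * pp Φ i j) := fun i j => by
      simp only [ha, ds]; rw [hds i j]
    simp only [this]
    ring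
  -- pointwise bound
  have hpt : ∀ w : ι → ℝ, (∑ i ∈ Finset.univ \ E, ∑ j ∈ Finset.univ \ E,
      a i j * ({w | t ≤ y w i} ∩ {w | t ≤ y w j}).indicator (fun _ => t^2) w) / 2 ≤
      Pt Φ (y w) := by
    intro w
    unfold Pt
    refine div_le_div_of_nonneg_right ?_ (by norm_num)
    have h1 : ∀ i j, 0 ≤ min (y w i) 1 * min (y w j) 1 * ((pp Φ i j)^2 * ds Φ i j) := by
      intro i j
      have hi := (hC.pos w i).le
      have hj := (hC.pos w j).le
      exact mul_nonneg (mul_nonneg (le_min hi (by norm_num)) (le_min hj (by norm_num)))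
        (ha0 i j)
    calc ∑ i ∈ Finset.univ \ E, ∑ j ∈ Finset.univ \ E,
        a i j * ({w | t ≤ y w i} ∩ {w | t ≤ y w j}).indicator (fun _ => t^2) w
        ≤ ∑ i ∈ Finset.univ \ E, ∑ j ∈ Finset.univ \ E,
          min (y w i) 1 * min (y w j) 1 * ((pp Φ i j)^2 * ds Φ i j) := by
          refine Finset.sum_le_sum fun i _ => Finset.sum_le_sum fun j _ => ?_
          by_cases hw : w ∈ ({w | t ≤ y w i} ∩ {w | t ≤ y w j})
          · rw [Set.indicator_of_mem hw, mul_comm]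
            refine mul_le_mul_of_nonneg_right ?_ (ha0 i j)
            rw [sq]
            have hi : t ≤ y w i := hw.1
            have hj : t ≤ y w j := hw.2
            exact mul_le_mul (le_min hi ht1) (le_min hj ht1) ht0.le
              (le_min (hC.pos w i).le (by norm_num))
          · rw [Set.indicator_of_notMem hw, mul_zero]
            exact h1 i j
      _ ≤ ∑ i ∈ Finset.univ \ E, ∑ j, 
          min (y w i) 1 * min (y w j) 1 * ((pp Φ i j)^2 * ds Φ i j) :=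
          Finset.sum_le_sum fun i _ => Finset.sum_le_sum_of_subset_of_nonneg
            (Finset.subset_univ _) fun j _ _ => h1 i j
      _ ≤ ∑ i, ∑ j, min (y w i) 1 * min (y w j) 1 * ((pp Φ i j)^2 * ds Φ i j) :=
          Finset.sum_le_sum_of_subset_of_nonneg (Finset.subset_univ _)
            fun i _ _ => Finset.sum_nonneg fun j _ => h1 i j
  have hind : ∀ i j, Integrable (fun w => a i j *
      ({w | t ≤ y w i} ∩ {w | t ≤ y w j}).indicator (fun _ => t^2) w) (Pw ι) := fun i j =>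
    ((integrable_const _).indicator ((hmeas i).inter (hmeas j))).const_mul _
  have hindv : ∀ i j, ∫ w, a i j *
      ({w | t ≤ y w i} ∩ {w | t ≤ y w j}).indicator (fun _ => t^2) w ∂Pw ι =
      a i j * ((Pw ι).real ({w | t ≤ y w i} ∩ {w | t ≤ y w j}) * t^2) := by
    intro i j
    rw [integral_const_mul, integral_indicator_const _ ((hmeas i).inter (hmeas j)),
      smul_eq_mul]
  have hlow : (∑ i ∈ Finset.univ \ E, ∑ j ∈ Finset.univ \ E, a i j * (3/5 * t^2)) / 2 ≤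
      ∫ w, Pt Φ (y w) ∂Pw ι := by
    have h1 : ∫ w, (∑ i ∈ Finset.univ \ E, ∑ j ∈ Finset.univ \ E,
        a i j * ({w | t ≤ y w i} ∩ {w | t ≤ y w j}).indicator (fun _ => t^2) w) / 2 ∂Pw ι =
        (∑ i ∈ Finset.univ \ E, ∑ j ∈ Finset.univ \ E,
        a i j * ((Pw ι).real ({w | t ≤ y w i} ∩ {w | t ≤ y w j}) * t^2)) / 2 := by
      rw [integral_div, integral_finsetSum _ fun i _ =>
        integrable_finsetSum _ fun j _ => hind i j]
      congr 1
      refine Finset.sum_congr rfl fun i _ => ?_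
      rw [integral_finsetSum _ fun j _ => hind i j]
      exact Finset.sum_congr rfl fun j _ => hindv i j
    calc (∑ i ∈ Finset.univ \ E, ∑ j ∈ Finset.univ \ E, a i j * (3/5 * t^2)) / 2
        ≤ (∑ i ∈ Finset.univ \ E, ∑ j ∈ Finset.univ \ E,
        a i j * ((Pw ι).real ({w | t ≤ y w i} ∩ {w | t ≤ y w j}) * t^2)) / 2 := by
          refine div_le_div_of_nonneg_right ?_ (by norm_num)
          refine Finset.sum_le_sum fun i hi => Finset.sum_le_sum fun j hj => ?_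
          refine mul_le_mul_of_nonneg_left ?_ (ha0 i j)
          exact mul_le_mul_of_nonneg_right (hprob2 i j (Finset.mem_sdiff.mp hi).2
            (Finset.mem_sdiff.mp hj).2) (sq_nonneg _)
      _ = ∫ w, (∑ i ∈ Finset.univ \ E, ∑ j ∈ Finset.univ \ E,
        a i j * ({w | t ≤ y w i} ∩ {w | t ≤ y w j}).indicator (fun _ => t^2) w) / 2 ∂Pw ι :=
          h1.symm
      _ ≤ ∫ w, Pt Φ (y w) ∂Pw ι :=
          integral_mono ((integrable_finsetSum _ fun i _ =>
            integrable_finsetSum _ fun j _ => hind i j).div_const _) hPti hpt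
  -- assembly
  have h1 : ∑ i ∈ Finset.univ \ E, ∑ j ∈ Finset.univ \ E, a i j * (3/5 * t^2) =
      (3/5 * t^2) * ∑ i ∈ Finset.univ \ E, ∑ j ∈ Finset.univ \ E, a i j := by
    simp only [← Finset.sum_mul]
    ring
  have h2 := LCB_dbl a has ha0 E
  have h3 := hDWT ι K Φ m E hΦ hm1
  have h4 : ∑ i ∈ E, ∑ j, a i j ≤ 80000 * p * (EG Φ y + Nc Φ m) := by
    refine h3.trans ?_
    have hmm : 0 < m^2 := by positivity
    have h5 : 5 * (E.card : ℝ) / m^2 ≤
        5 * (c + 5 * p * (3000 * m^2 * EG Φ y + c)) / m^2 :=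
      div_le_div_of_nonneg_right (by linarith) hmm.le
    have h6 : 5 * (c + 5 * p * (3000 * m^2 * EG Φ y + c)) / m^2 =
        5 * (c / m^2) + 25 * p * (c / m^2) + 75000 * (p * EG Φ y) := by
      field_simp
      ring
    rw [h6] at h5
    have hq0 : 0 ≤ c / m^2 := by positivity
    have hq1 : c / m^2 ≤ p * (c / m^2) := le_mul_of_one_le_left hq0 hp1
    have hq2 : c / m^2 ≤ Nc Φ m := by rw [hNc]; linarith
    have hN0 : 0 ≤ Nc Φ m := hq0.trans hq2
    have hq3 : p * (c / m^2) ≤ p * Nc Φ m := mul_le_mul_of_nonneg_left hq2 hp0.le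
    have hq4 : Nc Φ m ≤ p * Nc Φ m := le_mul_of_one_le_left hN0 hp1
    have hq5 : 0 ≤ p * EG Φ y := mul_nonneg hp0.le hEG0
    have hq6 : 0 ≤ p * Nc Φ m := mul_nonneg hp0.le hN0
    nlinarith
  have h7 : Dfc Φ - 80000 * p * (EG Φ y + Nc Φ m) ≤
      (∑ i ∈ Finset.univ \ E, ∑ j ∈ Finset.univ \ E, a i j) / 2 := by
    have := h2
    rw [hatot] at this
    linarith
  calc 3/5 * c₁^2 * m ^ (-(2/7) : ℝ) * (Dfc Φ - 80000 * p * (EG Φ y + Nc Φ m))
      = 3/5 * t^2 * (Dfc Φ - 80000 * p * (EG Φ y + Nc Φ m)) := by rw [htsq]; ring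
    _ ≤ 3/5 * t^2 * ((∑ i ∈ Finset.univ \ E, ∑ j ∈ Finset.univ \ E, a i j) / 2) :=
        mul_le_mul_of_nonneg_left h7 (by positivity)
    _ = (∑ i ∈ Finset.univ \ E, ∑ j ∈ Finset.univ \ E, a i j * (3/5 * t^2)) / 2 := by
        rw [h1]; ring
    _ ≤ ∫ w, Pt Φ (y w) ∂Pw ι := hlow

end Pool.LIN
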