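import Pool.Agent.Work.MP_1c7b0d_lin.Interface

/-! L'huilier's problem, linear range, block LCE (helper50): diagonal of `T M` at large `y_i`. -/

open MeasureTheory Matrix Pool.LH60 Pool.LH73
open scoped BigOperators

namespace Pool.LIN

section LCEaux
variable {ι : Type} [Fintype ι] [DecidableEq ι] {K : ℕ}

/-- `e_iᵀ T z` twice, by positivity of `T` -/
theorem LCE_cs (T : Matrix ι ι ℝ) (hT : Tᵀ = T)
    (hp : ∀ x : ι → ℝ, 0 ≤ ∑ i, ∑ j, x i * T i j * x j) (i : ι) (z : ι → ℝ) (t : ℝ) :
    0 ≤ t^2 * T i i + 2 * t * ∑ l, T i l * z l + ∑ a, ∑ b, z a * T a b * z b := by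
  have h := hp (fun a => (if a = i then t else 0) + z a)
  have hs : ∀ a b, T a b = T b a := fun a b => by
    conv_lhs => rw [← hT]
    rfl
  have e1 : ∑ a, ∑ b, ((if a = i then t else 0) + z a) * T a b * ((if b = i then t else 0) + z b)
      = t^2 * T i i + 2 * t * ∑ l, T i l * z l + ∑ a, ∑ b, z a * T a b * z b := by
    have e2 : ∀ a b, ((if a = i then t else 0) + z a) * T a b * ((if b = i then t else 0) + z b) =
        (if a = i then (if b = i then t * t * T a b else 0) else 0) +
        (if a = i then t * (T a b * z b) else 0) + (if b = i then t * (T a b * z a) else 0) +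
        z a * T a b * z b := by
      intro a b
      split_ifs <;> ring
    simp_rw [e2, Finset.sum_add_distrib]
    have e3 : ∑ a, ∑ b, (if a = i then (if b = i then t * t * T a b else 0) else 0) =
        t^2 * T i i := by
      simp only [Finset.sum_ite_irrel, Finset.sum_ite_eq', Finset.mem_univ, if_true,
        Finset.sum_const_zero]
      ring
    have e4 : ∑ a, ∑ b, (if a = i then t * (T a b * z b) else 0) = t * ∑ l, T i l * z l := by
      rw [Finset.sum_comm]
      simp [Finset.mul_sum]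
    have e5 : ∑ a, ∑ b, (if b = i then t * (T a b * z a) else 0) = t * ∑ l, T i l * z l := by
      simp only [Finset.sum_ite_eq', Finset.mem_univ, if_true]
      rw [Finset.mul_sum]
      exact Finset.sum_congr rfl fun a _ => by rw [hs a i]
    rw [e3, e4, e5]
    ring
  rw [e1] at h
  exact h

end LCEaux

theorem LCE_thm (hPEF : Stmt_PEF) (hTFA : Stmt_TFA) (hDEF1 : Stmt_DEF1) (hHUB : Stmt_HUB) :
    Stmt_LCE := by
  intro ι _ _ K Φ y m hΦ hm hy
  obtain ⟨dA, -, dB, -, -, -⟩ := hDEF1 ι K Φ hΦ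
  obtain ⟨-, hTs, -, hTq, -, -, -, -, hTd⟩ := hTFA ι K Φ y hΦ hy
  obtain ⟨hub0, -, -, -, -, hub1, hub2, -, -, -⟩ := hHUB
  have hm0 : 0 < m := by linarith
  have hsm : 0 < Real.sqrt m := Real.sqrt_pos.2 hm0
  have hsq : Real.sqrt m * Real.sqrt m = m := Real.mul_self_sqrt hm0.le
  have hsm10 : 10 ≤ Real.sqrt m := by
    rw [show (10:ℝ) = Real.sqrt 100 by rw [show (100:ℝ) = 10 ^ 2 by norm_num,
      Real.sqrt_sq (by norm_num)]]
    exact Real.sqrt_le_sqrt hm
  have hcs : ∀ i l, (pp Φ i l)^2 ≤ cn Φ i * cn Φ l := fun i l =>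
    Finset.sum_mul_sq_le_sq_mul_sq _ _ _
  -- `c_i e_i* = ∑ κ_il² y_l`
  have hces : ∀ i, cn Φ i * es Φ y i = ∑ l, (pp Φ i l)^2 * y l := by
    intro i
    rcases (dB i).1.eq_or_lt with h | h
    · rw [← h, zero_mul]
      refine (Finset.sum_eq_zero fun l _ => ?_).symm
      have := hcs i l
      rw [← h, zero_mul] at this
      rw [le_antisymm this (sq_nonneg _), zero_mul]
    · rw [es, mul_div_cancel₀ _ h.ne']
  have hces0 : ∀ i, 0 ≤ cn Φ i * es Φ y i := fun i => by
    rw [hces]; exact Finset.sum_nonneg fun l _ => mul_nonneg (sq_nonneg _) (hy l).le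
  have hes0 : ∀ i, 0 ≤ es Φ y i := fun i => by
    rw [es]
    exact div_nonneg (Finset.sum_nonneg fun l _ => mul_nonneg (sq_nonneg _) (hy l).le) (dB i).1
  -- `zᵀ T z ≤ c_i² e_i*`
  have hz : ∀ i, ∑ a, ∑ b, (pp Φ i a)^2 * Tm Φ y a b * (pp Φ i b)^2 ≤
      (cn Φ i)^2 * es Φ y i := by
    intro i
    refine (hTq (fun a => (pp Φ i a)^2)).2.trans ?_
    rw [sq, mul_assoc, hces, Finset.mul_sum]
    refine Finset.sum_le_sum fun l _ => ?_
    have h1 : (pp Φ i l)^2 ≤ cn Φ i :=
      (hcs i l).trans (mul_le_of_le_one_right (dB i).1 (dB l).2)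
    have h2 := mul_le_mul_of_nonneg_right h1 (mul_nonneg (sq_nonneg (pp Φ i l)) (hy l).le)
    nlinarith [h2]
  have hmain : ∀ i, ∀ t : ℝ, 0 < t →
      2 * |TMd Φ y i| ≤ t * y i + (cn Φ i)^2 * es Φ y i / t := by
    intro i t ht
    have hq : ∀ x : ι → ℝ, 0 ≤ ∑ i, ∑ j, x i * Tm Φ y i j * x j := fun x => (hTq x).1
    have h1 := LCE_cs (Tm Φ y) hTs hq i (fun a => (pp Φ i a)^2) t
    have h2 := LCE_cs (Tm Φ y) hTs hq i (fun a => (pp Φ i a)^2) (-t)
    have h3 := hz i
    have h4 : t^2 * Tm Φ y i i ≤ t^2 * y i := mul_le_mul_of_nonneg_left (hTd i).2 (sq_nonneg t)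
    have h5 : ∑ l, Tm Φ y i l * (pp Φ i l)^2 = TMd Φ y i := rfl
    simp only [h5] at h1 h2
    have h6 : t * (2 * |TMd Φ y i|) ≤ t * (t * y i + (cn Φ i)^2 * es Φ y i / t) := by
      rw [mul_add, mul_div_cancel₀ _ ht.ne']
      rcases abs_cases (TMd Φ y i) with ⟨h, -⟩ | ⟨h, -⟩ <;> rw [h] <;> nlinarith
    exact le_of_mul_le_mul_left h6 ht
  -- the two cases
  have hpt : ∀ i, m^2 < y i → |TMd Φ y i| ≤
      1000 * Real.sqrt m * (cn Φ i * hub (es Φ y i - 1)) +
      (if i ∈ Cs Φ m then 2 / Real.sqrt m * (cn Φ i * y i) else 0) := by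
    intro i hi
    have hc := (dB i).1
    have hub' : 0 ≤ hub (es Φ y i - 1) := hub0 _
    have hcii : pp Φ i i = cn Φ i := by simp [pp, cn, sq]
    have hYm : m < y i := by nlinarith
    by_cases h : i ∈ Cs Φ m
    · rw [if_pos h]
      rcases hc.eq_or_lt with h0 | h0
      · have h1 : TMd Φ y i = 0 := by
          refine Finset.sum_eq_zero fun l _ => ?_
          have := hcs i l
          rw [← h0, zero_mul] at this
          rw [le_antisymm this (sq_nonneg _), mul_zero]
        rw [h1, ← h0]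
        simp
      · have h1 := hmain i (cn Φ i / Real.sqrt m) (div_pos h0 hsm)
        have h2 : (cn Φ i)^2 * es Φ y i / (cn Φ i / Real.sqrt m) =
            cn Φ i * Real.sqrt m * es Φ y i := by
          field_simp
        rw [h2] at h1
        have h3 : es Φ y i ≤ 3 / 2 + hub (es Φ y i - 1) := by
          have := hub2 (es Φ y i - 1)
          have := le_abs_self (es Φ y i - 1)
          linarith
        have h4 : cn Φ i * Real.sqrt m ≤ cn Φ i / Real.sqrt m * y i := by
          rw [div_mul_eq_mul_div, le_div_iff₀ hsm, mul_assoc, hsq]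
          exact mul_le_mul_of_nonneg_left hYm.le hc
        have h5 : cn Φ i * Real.sqrt m * es Φ y i ≤
            cn Φ i * Real.sqrt m * (3 / 2 + hub (es Φ y i - 1)) :=
          mul_le_mul_of_nonneg_left h3 (mul_nonneg hc hsm.le)
        have h6 : 2 / Real.sqrt m * (cn Φ i * y i) = 2 * (cn Φ i / Real.sqrt m * y i) := by ring
        have h7 : 0 ≤ Real.sqrt m * (cn Φ i * hub (es Φ y i - 1)) :=
          mul_nonneg hsm.le (mul_nonneg hc hub')
        have h8 : 0 ≤ cn Φ i / Real.sqrt m * y i :=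
          mul_nonneg (div_nonneg hc hsm.le) (hy i).le
        rw [h6]
        nlinarith
    · rw [if_neg h, add_zero]
      have h1 : |m * cn Φ i - 1| ≤ 1/20 := by
        by_contra h2
        exact h (by simp only [Cs, Finset.mem_filter, Finset.mem_univ, true_and]; linarith)
      rw [abs_le] at h1
      have hc0 : 0 < cn Φ i := by
        rcases hc.eq_or_lt with h0 | h0
        · rw [← h0] at h1; norm_num at h1
        · exact h0
      have h2 := hmain i (cn Φ i / Real.sqrt m) (div_pos hc0 hsm)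
      have h3 : (cn Φ i)^2 * es Φ y i / (cn Φ i / Real.sqrt m) =
          cn Φ i * Real.sqrt m * es Φ y i := by
        field_simp
      rw [h3] at h2
      -- `c y ≤ e*`
      have h4 : cn Φ i * y i ≤ es Φ y i := by
        have h5 : (pp Φ i i)^2 * y i ≤ ∑ l, (pp Φ i l)^2 * y l :=
          Finset.single_le_sum (f := fun l => (pp Φ i l)^2 * y l)
            (fun l _ => mul_nonneg (sq_nonneg _) (hy l).le) (Finset.mem_univ i)
        rw [hcii, ← hces] at h5
        have h6 : cn Φ i * (cn Φ i * y i) ≤ cn Φ i * es Φ y i := by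
          calc cn Φ i * (cn Φ i * y i) = (cn Φ i)^2 * y i := by ring
            _ ≤ _ := h5
        exact le_of_mul_le_mul_left h6 hc0
      have h5 : 95 ≤ es Φ y i := by
        have h6 : m * (m * cn Φ i) ≤ cn Φ i * y i := by
          calc m * (m * cn Φ i) = cn Φ i * m^2 := by ring
            _ ≤ _ := mul_le_mul_of_nonneg_left hi.le hc
        nlinarith
      have h6 : es Φ y i ≤ 2 * hub (es Φ y i - 1) := by
        rw [hub1 _ (by rw [abs_of_nonneg] <;> linarith), abs_of_nonneg (by linarith)]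
        linarith
      have h7 : cn Φ i / Real.sqrt m * y i ≤ 2 * (cn Φ i * Real.sqrt m * es Φ y i) := by
        have h8 : cn Φ i / Real.sqrt m * y i ≤ es Φ y i / Real.sqrt m := by
          rw [div_mul_eq_mul_div]
          exact div_le_div_of_nonneg_right h4 hsm.le
        refine h8.trans ?_
        rw [div_le_iff₀ hsm]
        calc es Φ y i = es Φ y i * 1 := (mul_one _).symm
          _ ≤ es Φ y i * (2 * (m * cn Φ i)) :=
            mul_le_mul_of_nonneg_left (by linarith) (by linarith)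
          _ = 2 * (cn Φ i * (Real.sqrt m * Real.sqrt m) * es Φ y i) := by rw [hsq]; ring
          _ = _ := by ring
      have h8 : cn Φ i * Real.sqrt m * es Φ y i ≤
          cn Φ i * Real.sqrt m * (2 * hub (es Φ y i - 1)) :=
        mul_le_mul_of_nonneg_left h6 (mul_nonneg hc hsm.le)
      have h9 : 0 ≤ Real.sqrt m * (cn Φ i * hub (es Φ y i - 1)) :=
        mul_nonneg hsm.le (mul_nonneg hc hub')
      nlinarith
  -- summation
  calc ∑ i ∈ Finset.univ.filter (fun i => m^2 < y i), |TMd Φ y i|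
      ≤ ∑ i ∈ Finset.univ.filter (fun i => m^2 < y i),
        (1000 * Real.sqrt m * (cn Φ i * hub (es Φ y i - 1)) +
        (if i ∈ Cs Φ m then 2 / Real.sqrt m * (cn Φ i * y i) else 0)) :=
        Finset.sum_le_sum fun i hi => hpt i (Finset.mem_filter.1 hi).2
    _ ≤ ∑ i, (1000 * Real.sqrt m * (cn Φ i * hub (es Φ y i - 1)) +
        (if i ∈ Cs Φ m then 2 / Real.sqrt m * (cn Φ i * y i) else 0)) := by
        refine Finset.sum_le_univ_sum_of_nonneg fun i => ?_
        refine add_nonneg (mul_nonneg (mul_nonneg (by norm_num) hsm.le)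
          (mul_nonneg (dB i).1 (hub0 _))) ?_
        split_ifs
        · exact mul_nonneg (div_nonneg (by norm_num) hsm.le) (mul_nonneg (dB i).1 (hy i).le)
        · exact le_rfl
    _ = 1000 * Real.sqrt m * ∑ i, cn Φ i * hub (es Φ y i - 1) +
        2 / Real.sqrt m * ∑ i ∈ Cs Φ m, cn Φ i * y i := by
        rw [Finset.sum_add_distrib, ← Finset.mul_sum, Finset.mul_sum (Cs Φ m)]
        congr 1
        rw [Finset.sum_ite_mem, Finset.univ_inter]
    _ ≤ _ := by
        have := hPEF ι K Φ y hΦ hy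
        have h1 := mul_le_mul_of_nonneg_left this
          (mul_nonneg (by norm_num : (0:ℝ) ≤ 1000) hsm.le)
        linarith

end Pool.LIN
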