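import Pool.Agent.Work.MP_1c7b0d_lin.Interface

/-! Block LCI: lower bound of `y_i` with probability 4/5 (helper93) -/

set_option autoImplicit false

open MeasureTheory Matrix Pool.LH60 Pool.LH73
open scoped BigOperators

namespace Pool.LIN

namespace LCI

variable {ι : Type} [Fintype ι] [DecidableEq ι] {K : ℕ}

omit [Fintype ι] [DecidableEq ι] in
theorem pp_self (Φ : Matrix ι (Fin K) ℝ) (i : ι) : pp Φ i i = cn Φ i := by
  unfold pp cn
  exact Finset.sum_congr rfl fun k _ => by ring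

/-- a large value is seen by `Zb` -/
theorem le_Zb (Φ : Matrix ι (Fin K) ℝ) (y : ι → ℝ) (hy : ∀ i, 0 < y i) (m : ℝ) (hm : 1 ≤ m)
    (i : ι) (hi : i ∉ Cs Φ m) (h : 21/19 * m < y i) : y i ≤ Zb Φ y i := by
  have hm0 : 0 < m := by linarith
  have hc : |m * cn Φ i - 1| ≤ 1/20 := by
    by_contra hcon
    exact hi (Finset.mem_filter.mpr ⟨Finset.mem_univ _, not_le.mp hcon⟩)
  have hc1 : 19/20 ≤ m * cn Φ i := by
    have := (abs_le.mp hc).1
    linarith
  have hcp : 0 < cn Φ i := by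
    by_contra hcon
    have : m * cn Φ i ≤ 0 := mul_nonpos_of_nonneg_of_nonpos hm0.le (not_lt.mp hcon)
    linarith
  have hes : 21/20 < es Φ y i := by
    unfold es
    rw [lt_div_iff₀ hcp]
    have h1 : (pp Φ i i)^2 * y i ≤ ∑ j, (pp Φ i j)^2 * y j :=
      Finset.single_le_sum (f := fun j => (pp Φ i j)^2 * y j)
        (fun j _ => mul_nonneg (sq_nonneg _) (hy j).le) (Finset.mem_univ i)
    rw [pp_self] at h1
    have h2 : 21/20 < cn Φ i * y i := by
      have h3 : cn Φ i * (21/19 * m) < cn Φ i * y i := mul_lt_mul_of_pos_left h hcp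
      nlinarith
    nlinarith
  unfold Zb
  rw [if_pos hes]
  have h4 : 0 ≤ y i * max (gr Φ y i - 5/4) 0 := mul_nonneg (hy i).le (le_max_right _ _)
  linarith

theorem rpow_small {m : ℝ} (hm : 256 ≤ m) : m ^ (-(3/4) : ℝ) ≤ 1/64 := by
  have h1 : m ^ (-(3/4) : ℝ) ≤ (256 : ℝ) ^ (-(3/4) : ℝ) :=
    Real.rpow_le_rpow_of_nonpos (by norm_num) hm (by norm_num)
  have h2 : (256 : ℝ) ^ (-(3/4) : ℝ) = 1/64 := by
    rw [show (256:ℝ) = (2:ℝ)^(8:ℝ) by norm_num, ← Real.rpow_mul (by norm_num),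
      show (8 : ℝ) * (-(3/4)) = -6 by norm_num, Real.rpow_neg (by norm_num)]
    norm_num
  linarith

/-- the error term of LCP -/
theorem err_small {m θ Z : ℝ} (hm : 1 ≤ m) (h0 : 0 < θ) (h1 : θ < 1/2) (hZ0 : 0 ≤ Z)
    (hZ : Z ≤ m ^ (-(3/4) : ℝ)) :
    4 * θ^2 * (m ^ (-(1/4) : ℝ)) ^ (2 * θ - 1) * Z ≤ m ^ (-(1/2) : ℝ) := by
  have hm0 : 0 < m := by linarith
  have e1 : (m ^ (-(1/4) : ℝ)) ^ (2 * θ - 1) = m ^ (-(1/4) * (2 * θ - 1)) :=
    (Real.rpow_mul hm0.le _ _).symm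
  have h2 : 0 ≤ m ^ (-(1/4) * (2 * θ - 1)) := Real.rpow_nonneg hm0.le _
  have h3 : m ^ (-(1/4) * (2 * θ - 1)) * Z ≤ m ^ (-(1/2) : ℝ) := by
    calc m ^ (-(1/4) * (2 * θ - 1)) * Z ≤ m ^ (-(1/4) * (2 * θ - 1)) * m ^ (-(3/4) : ℝ) :=
          mul_le_mul_of_nonneg_left hZ h2
      _ = m ^ (-(1/4) * (2 * θ - 1) + (-(3/4))) := (Real.rpow_add hm0 _ _).symm
      _ ≤ m ^ (-(1/2) : ℝ) := Real.rpow_le_rpow_of_exponent_le hm (by linarith)
  have h4 : 4 * θ^2 ≤ 1 := by nlinarith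
  rw [e1, mul_assoc]
  calc 4 * θ^2 * (m ^ (-(1/4) * (2 * θ - 1)) * Z) ≤ 1 * (m ^ (-(1/4) * (2 * θ - 1)) * Z) :=
        mul_le_mul_of_nonneg_right h4 (mul_nonneg h2 hZ0)
    _ ≤ m ^ (-(1/2) : ℝ) := by rw [one_mul]; exact h3

end LCI

open LCI in
theorem LCI_thm (hUPE : Stmt_UPE) (hLCP : Stmt_LCP) (hLCX : Stmt_LCX) (hYMO : Stmt_YMO)
    (hRES : Stmt_RES) (hPRB : Stmt_PRB) (hINT : Stmt_INT) : Stmt_LCI := by
  obtain ⟨c₁, M₁, hc0, hc1, hM1, hX⟩ := hLCX
  refine ⟨c₁ / 20, max M₁ 256, by positivity, by linarith, le_max_of_le_left hM1, ?_⟩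
  intro ι _ _ K Φ y m hm hΦ hC i hi hZ
  have hmM : M₁ ≤ m := (le_max_left _ _).trans hm
  have hm256 : 256 ≤ m := (le_max_right _ _).trans hm
  have hm1 : 1 ≤ m := by linarith
  have hm0 : 0 < m := by linarith
  obtain ⟨-, -, ⟨C, hC0, hCb⟩, -, -, -, hyi, -, hZb⟩ := hINT ι K Φ y hΦ hC
  obtain ⟨hZm, hZi⟩ := hZb i
  have hZnn : ∀ w, 0 ≤ Zb Φ (y w) i ∧ Zb Φ (y w) i ≤ C := fun w => (hCb w).2.2.2.2 i
  have hym : Measurable (fun w => y w i) := (measurable_pi_apply i).comp hC.meas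
  -- the value of the coordinate
  obtain ⟨ω, hω1, hω2, hω⟩ := hUPE ι i (fun w => ENNReal.ofReal (Zb Φ (y w) i)) hZm.ennreal_ofReal
  have hω0 : 0 < ω := by linarith
  have hup : Measurable (fun w : ι → ℝ => Function.update w i ω) := measurable_update_left
  have hZum : Measurable (fun w => Zb Φ (y (Function.update w i ω)) i) := hZm.comp hup
  have hZui : Integrable (fun w => Zb Φ (y (Function.update w i ω)) i) (Pw ι) :=
    Integrable.mono' (integrable_const C) hZum.aestronglyMeasurable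
      (Filter.Eventually.of_forall fun w => by
        rw [Real.norm_eq_abs, abs_of_nonneg (hZnn _).1]; exact (hZnn _).2)
  have hZu : ∫ w, Zb Φ (y (Function.update w i ω)) i ∂Pw ι ≤ m ^ (-(3/4) : ℝ) := by
    have h1 : ENNReal.ofReal (∫ w, Zb Φ (y (Function.update w i ω)) i ∂Pw ι) ≤
        ENNReal.ofReal (m ^ (-(3/4) : ℝ)) := by
      rw [ofReal_integral_eq_lintegral_ofReal hZui
        (Filter.Eventually.of_forall fun w => (hZnn _).1)]
      refine hω.trans ?_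
      rw [← ofReal_integral_eq_lintegral_ofReal hZi
        (Filter.Eventually.of_forall fun w => (hZnn _).1)]
      calc 5 * ENNReal.ofReal (∫ w, Zb Φ (y w) i ∂Pw ι) ≤
            5 * ENNReal.ofReal (m ^ (-(3/4) : ℝ) / 5) :=
            mul_le_mul_right (ENNReal.ofReal_le_ofReal hZ) 5
        _ = ENNReal.ofReal (m ^ (-(3/4) : ℝ)) := by
            rw [show (5 : ENNReal) = ENNReal.ofReal 5 by simp, ← ENNReal.ofReal_mul (by norm_num)]
            congr 1
            ring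
    exact (ENNReal.ofReal_le_ofReal_iff (Real.rpow_nonneg hm0.le _)).mp h1
  have hZu0 : 0 ≤ ∫ w, Zb Φ (y (Function.update w i ω)) i ∂Pw ι :=
    integral_nonneg fun w => (hZnn _).1
  -- the function `a`
  set a : (ι → ℝ) → ℝ := fun w => y (Function.update w i ω) i with ha
  have ham : Measurable a := hym.comp hup
  have hapos : ∀ w, 0 < a w := fun w => hC.pos _ _
  have hab : ∀ w, a w ≤ C := fun w => (hCb _).1 i
  have hai : Integrable a (Pw ι) :=
    Integrable.mono' (integrable_const C) ham.aestronglyMeasurable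
      (Filter.Eventually.of_forall fun w => by
        rw [Real.norm_eq_abs, abs_of_pos (hapos w)]; exact hab w)
  -- mean of `a`
  have hmi : Integrable (fun t : ℝ => max 1 t) e1 := by
    have h1 := hPRB.2.2.1 1
    simp only [pow_one] at h1
    exact (integrable_const (1 : ℝ)).sup h1
  obtain ⟨hri, hre⟩ := (hRES ι i).2.2 a (fun t => max 1 t) ham
    (measurable_const.max measurable_id) hai hmi
    (fun w t => by simp only [ha, Function.update_idem])
  have hmean : 73/100 ≤ ∫ w, a w ∂Pw ι := by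
    have h1 : ∫ w, y w i ∂Pw ι ≤ ∫ w : ι → ℝ, a w * max 1 (w i) ∂Pw ι := by
      refine integral_mono_ae (hyi i) hri ?_
      filter_upwards [hPRB.2.1 ι] with w hw
      have h2 := (hYMO ι K Φ y hΦ hC w hw i ω hω0).2
      refine h2.trans (mul_le_mul_of_nonneg_left ?_ (hapos w).le)
      refine max_le_max le_rfl ?_
      rw [div_le_iff₀ hω0]
      nlinarith [hw i]
    rw [hC.mean i, hre] at h1
    have h2 : ∫ t, max 1 t ∂e1 ≤ 1368/1000 := hPRB.2.2.2.2.2.2.2.2.2.2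
    have h3 : 0 ≤ ∫ w, a w ∂Pw ι := integral_nonneg fun w => (hapos w).le
    have h4 : (∫ w, a w ∂Pw ι) * ∫ t, max 1 t ∂e1 ≤ (∫ w, a w ∂Pw ι) * (1368/1000) :=
      mul_le_mul_of_nonneg_left h2 h3
    linarith
  -- the part with `a ≤ 21/19 m`
  have hS : MeasurableSet {x | a x ≤ 21/19 * m} := measurableSet_le ham measurable_const
  have hpart : 7/10 ≤ ∫ x in {x | a x ≤ 21/19 * m}, a x ∂Pw ι := by
    have h1 := integral_add_compl hS hai
    have h2 : ∫ x in {x | a x ≤ 21/19 * m}ᶜ, a x ∂Pw ι ≤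
        ∫ w, Zb Φ (y (Function.update w i ω)) i ∂Pw ι := by
      calc ∫ x in {x | a x ≤ 21/19 * m}ᶜ, a x ∂Pw ι ≤
            ∫ x in {x | a x ≤ 21/19 * m}ᶜ, Zb Φ (y (Function.update x i ω)) i ∂Pw ι := by
            refine setIntegral_mono_on hai.integrableOn hZui.integrableOn hS.compl ?_
            intro w hw
            have hw' : 21/19 * m < a w := not_le.mp hw
            exact le_Zb Φ _ (hC.pos _) m hm1 i hi hw'
        _ ≤ ∫ w, Zb Φ (y (Function.update w i ω)) i ∂Pw ι :=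
            setIntegral_le_integral hZui (Filter.Eventually.of_forall fun w => (hZnn _).1)
    have h3 := rpow_small hm256
    linarith
  -- LCX
  have hδ0 : 0 < m ^ (-(1/4) : ℝ) := Real.rpow_pos_of_pos hm0 _
  have hδ1 : m ^ (-(1/4) : ℝ) ≤ 1 := Real.rpow_le_one_of_one_le_of_nonpos hm1 (by norm_num)
  have h9 := hX (ι → ℝ) (Pw ι) a m hmM ham hapos ⟨C, hab⟩ (fun θ hθ => by
    have hθ0 : 0 < θ := by rcases hθ with h | h | h | h <;> rw [h] <;> norm_num
    have hθ1 : θ < 1/2 := by rcases hθ with h | h | h | h <;> rw [h] <;> norm_num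
    have h1 := hLCP ι K Φ y hΦ hC i ω θ (m ^ (-(1/4) : ℝ)) hω0 hθ0 hθ1 hδ0 hδ1
    have h2 := err_small hm1 hθ0 hθ1 hZu0 hZu
    exact h1.trans (by linarith)) hpart
  -- conclusion
  have hN : (Pw ι).real {w | w i < 1/10} ≤ 1/10 := by
    have h1 : (Pw ι) {w : ι → ℝ | w i < 1/10} = e1 (Set.Iio (1/10)) := by
      have h2 : MeasurePreserving (Function.eval i) (Pw ι) e1 :=
        measurePreserving_eval (μ := fun _ : ι => e1) i
      exact h2.measure_preimage measurableSet_Iio.nullMeasurableSet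
    rw [measureReal_def, h1, ← measureReal_def]
    exact hPRB.2.2.2.2.2.2.2.2.2.1
  have hO : (Pw ι).real (Orth ι)ᶜ = 0 := by
    have h1 : (Pw ι) (Orth ι)ᶜ = 0 := hPRB.2.1 ι
    rw [measureReal_def, h1, ENNReal.toReal_zero]
  have hsub : {x | c₁ * m ^ (-(1/7) : ℝ) ≤ a x} ⊆
      ({w | c₁ / 20 * m ^ (-(1/7) : ℝ) ≤ y w i} ∪ {w | w i < 1/10}) ∪ (Orth ι)ᶜ := by
    intro w hw
    by_cases hO' : w ∈ Orth ι
    · left
      by_cases hw' : w i < 1/10
      · right; exact hw'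
      · left
        have h1 := (hYMO ι K Φ y hΦ hC w hO' i ω hω0).1
        have h2 : 1/20 ≤ min 1 (w i / ω) := by
          refine le_min (by norm_num) ?_
          rw [le_div_iff₀ hω0]
          have := not_lt.mp hw'
          linarith
        have h3 : a w * (1/20) ≤ a w * min 1 (w i / ω) := mul_le_mul_of_nonneg_left h2 (hapos w).le
        have hw2 : c₁ * m ^ (-(1/7) : ℝ) ≤ a w := hw
        change c₁ / 20 * m ^ (-(1/7) : ℝ) ≤ y w i
        have h4 : a w * min 1 (w i / ω) ≤ y w i := h1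
        linarith
    · right; exact hO'
  have h10 := measureReal_mono (μ := Pw ι) hsub
  have h11 := measureReal_union_le (μ := Pw ι)
    ({w | c₁ / 20 * m ^ (-(1/7) : ℝ) ≤ y w i} ∪ {w | w i < 1/10}) (Orth ι)ᶜ
  have h12 := measureReal_union_le (μ := Pw ι)
    {w | c₁ / 20 * m ^ (-(1/7) : ℝ) ≤ y w i} {w | w i < 1/10}
  linarith

end Pool.LIN
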