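import Pool.Agent.Work.MP_1c7b0d_lin.Interface

/-! Block LCN of the L'huilier project (row MP_1c7b0d_gt), helper64. -/

open MeasureTheory Matrix Pool.LH60 Pool.LH73
open scoped BigOperators

namespace Pool.LIN

namespace LCN

variable {ι : Type} [Fintype ι] [DecidableEq ι] {K : ℕ}

theorem pp_self (Φ : Matrix ι (Fin K) ℝ) (i : ι) : pp Φ i i = cn Φ i := by
  unfold pp cn
  exact Finset.sum_congr rfl fun k _ => by rw [sq]

/-- `c_i y_i ≤ e_i*` -/
theorem cy_le_es (Φ : Matrix ι (Fin K) ℝ) (y : ι → ℝ) (hy : ∀ i, 0 < y i) (i : ι)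
    (hc : 0 < cn Φ i) : cn Φ i * y i ≤ es Φ y i := by
  unfold es
  rw [le_div_iff₀ hc]
  have h1 : (pp Φ i i)^2 * y i ≤ ∑ j, (pp Φ i j)^2 * y j :=
    Finset.single_le_sum (f := fun j => (pp Φ i j)^2 * y j)
      (fun j _ => mul_nonneg (sq_nonneg _) (hy j).le) (Finset.mem_univ i)
  rw [pp_self] at h1
  calc cn Φ i * y i * cn Φ i = (cn Φ i)^2 * y i := by ring
    _ ≤ _ := h1

theorem not_cs (Φ : Matrix ι (Fin K) ℝ) (m : ℝ) (hm : 0 < m) (i : ι) (hi : i ∉ Cs Φ m) :
    19 / 20 ≤ m * cn Φ i ∧ m * cn Φ i ≤ 21 / 20 ∧ 0 < cn Φ i := by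
  unfold Cs at hi
  simp only [Finset.mem_filter, Finset.mem_univ, true_and, not_lt] at hi
  rw [abs_le] at hi
  have h1 : 19 / 20 ≤ m * cn Φ i := by linarith [hi.1]
  refine ⟨h1, by linarith [hi.2], ?_⟩
  by_contra h
  push Not at h
  nlinarith

end LCN

theorem LCN_thm (hPEF : Stmt_PEF) (hHUB : Stmt_HUB) : Stmt_LCN := by
  intro ι _ _ K Φ y m hΦ hm hy
  obtain ⟨hub0, -, -, -, -, -, hubL, -, -, -⟩ := hHUB
  have hm0 : (0:ℝ) < m := by linarith
  have hcn : ∀ i, 0 ≤ cn Φ i := fun i => Finset.sum_nonneg fun k _ => sq_nonneg _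
  have key : ∀ i ∈ Finset.univ.filter (fun i => m^2 < y i),
      (1:ℝ) ≤ 1000 * (cn Φ i * hub (es Φ y i - 1)) + (if i ∈ Cs Φ m then y i / m^2 else 0) := by
    intro i hi
    simp only [Finset.mem_filter, Finset.mem_univ, true_and] at hi
    have h0 : 0 ≤ cn Φ i * hub (es Φ y i - 1) := mul_nonneg (hcn i) (hub0 _)
    by_cases hC : i ∈ Cs Φ m
    · rw [if_pos hC]
      have h1 : (1:ℝ) ≤ y i / m^2 := by
        rw [le_div_iff₀ (by positivity)]
        linarith
      linarith
    · rw [if_neg hC]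
      obtain ⟨c1, c2, c3⟩ := LCN.not_cs Φ m hm0 i hC
      have he := LCN.cy_le_es Φ y hy i c3
      have h1 := hubL (es Φ y i - 1)
      have h2 := le_abs_self (es Φ y i - 1)
      have h3 : m * (19/20) ≤ es Φ y i := by
        have h4 : cn Φ i * m^2 ≤ cn Φ i * y i := mul_le_mul_of_nonneg_left hi.le (hcn i)
        have h5 : m * (19/20) ≤ m * (m * cn Φ i) := mul_le_mul_of_nonneg_left c1 hm0.le
        nlinarith
      have h4 : (m * (19/20) - 3/2) ≤ hub (es Φ y i - 1) := by linarith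
      have h5 : cn Φ i * (m * (19/20) - 3/2) ≤ cn Φ i * hub (es Φ y i - 1) :=
        mul_le_mul_of_nonneg_left h4 (hcn i)
      have h6 : cn Φ i ≤ 21/2000 := by
        have : m * cn Φ i ≥ 100 * cn Φ i := mul_le_mul_of_nonneg_right hm (hcn i)
        linarith
      nlinarith
  have hsum : ((Finset.univ.filter (fun i => m^2 < y i)).card : ℝ) ≤
      ∑ i ∈ Finset.univ.filter (fun i => m^2 < y i),
        (1000 * (cn Φ i * hub (es Φ y i - 1)) + (if i ∈ Cs Φ m then y i / m^2 else 0)) := by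
    calc ((Finset.univ.filter (fun i => m^2 < y i)).card : ℝ)
        = ∑ i ∈ Finset.univ.filter (fun i => m^2 < y i), (1:ℝ) := by simp
      _ ≤ _ := Finset.sum_le_sum key
  refine hsum.trans ?_
  rw [Finset.sum_add_distrib]
  apply add_le_add
  · rw [← Finset.mul_sum]
    apply mul_le_mul_of_nonneg_left _ (by norm_num)
    refine le_trans ?_ (hPEF ι K Φ y hΦ hy)
    exact Finset.sum_le_sum_of_subset_of_nonneg (Finset.subset_univ _)
      fun i _ _ => mul_nonneg (hcn i) (hub0 _)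
  · calc ∑ i ∈ Finset.univ.filter (fun i => m^2 < y i), (if i ∈ Cs Φ m then y i / m^2 else 0)
        ≤ ∑ i, (if i ∈ Cs Φ m then y i / m^2 else 0) := by
          refine Finset.sum_le_sum_of_subset_of_nonneg (Finset.subset_univ _) fun i _ _ => ?_
          split_ifs
          · exact div_nonneg (hy i).le (by positivity)
          · exact le_rfl
      _ = (∑ i ∈ Cs Φ m, y i) / m^2 := by
          rw [Finset.sum_div, ← Finset.sum_filter]
          congr 1
          ext i
          simp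

end Pool.LIN
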