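import Pool.Agent.Work.MP_1c7b0d_lin.Interface

/-! Block LCP (row MP_1c7b0d_gt, linear range): Poincaré inequality for powers of `y_i`. helper22 -/

open MeasureTheory Matrix Pool.LH60 Pool.LH73
open scoped BigOperators

namespace Pool.LIN

section aux
variable {ι : Type} [Fintype ι] [DecidableEq ι] {K : ℕ}

private lemma lcp_upd_orth {w : ι → ℝ} (hw : w ∈ Orth ι) (i : ι) {ω : ℝ} (h : 0 < ω) :
    Function.update w i ω ∈ Orth ι := by
  intro j
  by_cases hj : j = i
  · subst hj; simpa using h
  · rw [Function.update_of_ne hj]; exact hw j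

private lemma lcp_upd_meas (i : ι) (ω : ℝ) : Measurable (fun w : ι → ℝ => Function.update w i ω) := by
  refine measurable_pi_iff.2 fun j => ?_
  by_cases hj : j = i
  · subst hj; simp
  · have : (fun w : ι → ℝ => Function.update w i ω j) = fun w => w j := by
      funext w; rw [Function.update_of_ne hj]
    rw [this]; exact measurable_pi_apply j

/-- `∑_{l ≠ i} T_il² ≤ y_i² gr_i` -/
private lemma lcp_sumT (Φ : Matrix ι (Fin K) ℝ) (y : ι → ℝ) (i : ι) :
    ∑ l, (if l = i then 0 else (Tm Φ y i l)^2) ≤ (y i)^2 * gr Φ y i := by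
  unfold gr
  rw [Finset.mul_sum]
  refine Finset.sum_le_sum fun l _ => ?_
  by_cases h : l = i
  · rw [if_pos h]; positivity
  · rw [if_neg h]
    have h' : ¬ (i = l) := fun e => h e.symm
    have : Tm Φ y i l = - (y i * (rho Φ y i l * y l)) := by
      simp only [Tm, Matrix.of_apply, if_neg h']; ring
    rw [this]
    have : (-(y i * (rho Φ y i l * y l)))^2 = (y i)^2 * (rho Φ y i l * y l)^2 := by ring
    rw [this]

private lemma lcp_bdd_int {f : (ι → ℝ) → ℝ} (hf : Measurable f) {C : ℝ} (hC : ∀ w, |f w| ≤ C) :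
    Integrable f (Pw ι) := by
  refine Integrable.of_bound (C := C) hf.aestronglyMeasurable ?_
  exact Filter.Eventually.of_forall fun w => by simpa [Real.norm_eq_abs] using hC w

end aux

theorem LCP_thm (hPOI : Stmt_POI) (hINT : Stmt_INT) : Stmt_LCP := by
  intro ι _ _ K Φ y hΦ hc i ω θ δ hω hθ0 hθ1 hδ0 hδ1
  obtain ⟨hmr, hmG, ⟨C, hC0, hCb⟩, -, -, -, -, -, hZ⟩ := hINT ι K Φ y hΦ hc
  -- notation
  set u : (ι → ℝ) → (ι → ℝ) := fun w => Function.update w i ω with hu
  have hum : Measurable u := lcp_upd_meas i ω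
  have hyi : Measurable (fun w => y (u w) i) := (measurable_pi_apply i).comp (hc.meas.comp hum)
  have hyl : ∀ l, Measurable (fun w => y (u w) l) := fun l =>
    (measurable_pi_apply l).comp (hc.meas.comp hum)
  have hapos : ∀ w, 0 < y (u w) i := fun w => hc.pos _ _
  have haC : ∀ w, y (u w) i ≤ C := fun w => (hCb (u w)).1 i
  have hTC : ∀ w l, |Tm Φ (y (u w)) i l| ≤ C := fun w l => (hCb (u w)).2.2.2.1 i l
  have hTm : ∀ l, Measurable (fun w => Tm Φ (y (u w)) i l) := by
    intro l
    have h1 : Measurable (fun w => rho Φ (y (u w)) i l) := (hmr i l).comp hum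
    have h2 : Measurable (fun w => (if i = l then y (u w) i else 0)) := by
      by_cases h : i = l
      · simpa only [if_pos h] using hyi
      · simpa only [if_neg h] using measurable_const
    have h3 := h2.sub ((hyi.mul h1).mul (hyl l))
    exact h3
  set A : (ι → ℝ) → ℝ := fun w => y (u w) i + δ with hA
  have hAm : Measurable A := hyi.add_const δ
  have hApos : ∀ w, 0 < A w := fun w => by have := hapos w; simp only [hA]; linarith
  have hAδ : ∀ w, δ ≤ A w := fun w => by have := hapos w; simp only [hA]; linarith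
  have hAC : ∀ w, A w ≤ C + 1 := fun w => by have := haC w; simp only [hA]; linarith
  -- the function and its derivatives
  set f : (ι → ℝ) → ℝ := fun w => (A w) ^ θ with hf
  set f' : ι → (ι → ℝ) → ℝ := fun l w => if l = i then 0 else
    θ * (A w) ^ (θ - 1) * Tm Φ (y (u w)) i l / w l with hf'
  have hfm : Measurable f := hAm.pow_const θ
  have hf'm : ∀ l, Measurable (f' l) := by
    intro l
    simp only [hf']
    by_cases h : l = i
    · simp only [if_pos h]; exact measurable_const
    · simp only [if_neg h]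
      exact ((measurable_const.mul (hAm.pow_const (θ-1))).mul (hTm l)).div (measurable_pi_apply l)
  have hAθ : ∀ w, (A w) ^ θ ≤ (C + 1) ^ θ := fun w =>
    Real.rpow_le_rpow (hApos w).le (hAC w) hθ0.le
  have hAθ1 : ∀ w, (A w) ^ (θ - 1) ≤ δ ^ (θ - 1) := fun w =>
    Real.rpow_le_rpow_of_nonpos hδ0 (hAδ w) (by linarith)
  have hwf' : ∀ w l, |w l * f' l w| ≤ θ * δ ^ (θ - 1) * C := by
    intro w l
    simp only [hf']
    have hnn : 0 ≤ θ * δ ^ (θ - 1) * C := by positivity
    by_cases h : l = i
    · simp only [if_pos h, mul_zero, abs_zero]; exact hnn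
    · simp only [if_neg h]
      by_cases hw : w l = 0
      · rw [hw]; simpa using hnn
      · have e : w l * (θ * (A w) ^ (θ - 1) * Tm Φ (y (u w)) i l / w l)
            = θ * (A w) ^ (θ - 1) * Tm Φ (y (u w)) i l := by
          field_simp
        rw [e, abs_mul, abs_mul, abs_of_pos hθ0, abs_of_pos (Real.rpow_pos_of_pos (hApos w) _)]
        have h1 := hAθ1 w
        have h2 := hTC w l
        have h3 : 0 < (A w) ^ (θ - 1) := Real.rpow_pos_of_pos (hApos w) _
        exact mul_le_mul (mul_le_mul_of_nonneg_left h1 hθ0.le) h2 (abs_nonneg _)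
          (by positivity)
  have key := hPOI ι f f' hfm hf'm
    ⟨max ((C + 1) ^ θ) (θ * δ ^ (θ - 1) * C), fun w => ⟨by
      rw [abs_of_pos (Real.rpow_pos_of_pos (hApos w) _)]
      exact (hAθ w).trans (le_max_left _ _), fun l => (hwf' w l).trans (le_max_right _ _)⟩⟩
    (by
      intro w hw l
      have huw : u w ∈ Orth ι := lcp_upd_orth hw i hω
      by_cases h : l = i
      · subst h
        have e : (fun t => f (Function.update w l t)) = fun _ => f w := by
          funext t
          simp only [hf, hA, hu, Function.update_idem]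
        rw [e]
        simp only [hf', if_true]
        exact hasDerivAt_const _ _
      · simp only [hf', if_neg h]
        have d := hc.der (u w) huw i l
        have hul : (u w) l = w l := by simp only [hu]; rw [Function.update_of_ne h]
        rw [hul] at d
        have e : (fun t => f (Function.update w l t))
            = fun t => (y (Function.update (u w) l t) i + δ) ^ θ := by
          funext t
          simp only [hf, hA, hu]
          rw [Function.update_comm h]
        rw [e]
        have hself : Function.update (u w) l (w l) = u w := by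
          rw [← hul, Function.update_eq_self]
        have d1 := d.add_const δ
        have d2 := d1.rpow_const (p := θ) (Or.inl (by
          simp only [hself]; exact (hApos w).ne'))
        simp only [hself] at d2
        have e2 : θ * (A w) ^ (θ - 1) * Tm Φ (y (u w)) i l / w l
            = Tm Φ (y (u w)) i l / w l * θ * (y (u w) i + δ) ^ (θ - 1) := by
          simp only [hA]; ring
        rw [e2]
        exact d2)
  -- square of f
  have hsq : ∀ w, (f w)^2 = (A w) ^ (2 * θ) := by
    intro w
    simp only [hf]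
    rw [← Real.rpow_natCast, ← Real.rpow_mul (hApos w).le]
    congr 1
    push_cast; ring
  have hZi := hZ i
  set Z : (ι → ℝ) → ℝ := fun w => Zb Φ (y (u w)) i with hZd
  have hZm : Measurable Z := hZi.1.comp hum
  have hZ0 : ∀ w, 0 ≤ Z w := fun w => ((hCb (u w)).2.2.2.2 i).1
  have hZC : ∀ w, Z w ≤ C := fun w => ((hCb (u w)).2.2.2.2 i).2
  have hZint : Integrable Z (Pw ι) := lcp_bdd_int hZm (C := C) (fun w => by
    rw [abs_of_nonneg (hZ0 w)]; exact hZC w)
  have hA2m : Measurable (fun w => (A w) ^ (2 * θ)) := hAm.pow_const _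
  have hA2int : Integrable (fun w => (A w) ^ (2 * θ)) (Pw ι) := lcp_bdd_int hA2m
    (C := (C + 1) ^ (2 * θ)) (fun w => by
      rw [abs_of_pos (Real.rpow_pos_of_pos (hApos w) _)]
      exact Real.rpow_le_rpow (hApos w).le (hAC w) (by linarith))
  have hwm : ∀ l, Measurable (fun w : ι → ℝ => (w l * f' l w)^2) := fun l =>
    ((measurable_pi_apply l).mul (hf'm l)).pow_const 2
  have hwint : ∀ l, Integrable (fun w : ι → ℝ => (w l * f' l w)^2) (Pw ι) := fun l =>
    lcp_bdd_int (hwm l) (C := (θ * δ ^ (θ - 1) * C)^2) (fun w => by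
      rw [abs_of_nonneg (sq_nonneg _), ← sq_abs (w l * f' l w)]
      exact pow_le_pow_left₀ (abs_nonneg _) (hwf' w l) 2)
  -- pointwise
  have hpt : ∀ w, 4 * ∑ l, (w l * f' l w)^2 ≤
      5 * θ^2 * (A w) ^ (2 * θ) + 4 * θ^2 * δ ^ (2 * θ - 1) * Z w := by
    intro w
    set a := y (u w) i with ha
    have ha0 : 0 < a := hapos w
    have hAa : A w = a + δ := rfl
    have haA : a ≤ A w := by rw [hAa]; linarith
    set g := gr Φ (y (u w)) i with hg
    have hg0 : 0 ≤ g := Finset.sum_nonneg fun l _ => sq_nonneg _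
    have s1 : ∑ l, (w l * f' l w)^2 ≤
        (θ * (A w) ^ (θ - 1))^2 * (a^2 * g) := by
      refine le_trans ?_ (mul_le_mul_of_nonneg_left (lcp_sumT Φ (y (u w)) i) (sq_nonneg _))
      rw [Finset.mul_sum]
      refine Finset.sum_le_sum fun l _ => ?_
      simp only [hf']
      by_cases h : l = i
      · simp only [if_pos h]; simp
      · simp only [if_neg h]
        by_cases hw : w l = 0
        · rw [hw]
          simp only [zero_mul, ne_eq, OfNat.ofNat_ne_zero, not_false_eq_true, zero_pow]
          positivity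
        · have e : w l * (θ * (A w) ^ (θ - 1) * Tm Φ (y (u w)) i l / w l)
            = θ * (A w) ^ (θ - 1) * Tm Φ (y (u w)) i l := by
            field_simp
          rw [e]
          exact le_of_eq (by ring)
    have s2 : ((A w) ^ (θ - 1))^2 = (A w) ^ (2 * θ - 2) := by
      rw [← Real.rpow_natCast, ← Real.rpow_mul (hApos w).le]
      congr 1
      push_cast; ring
    have p2 : 0 < (A w) ^ (2 * θ - 2) := Real.rpow_pos_of_pos (hApos w) _
    have s3 : (A w) ^ (2 * θ - 2) * (A w) = (A w) ^ (2 * θ - 1) := by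
      have := Real.rpow_add (hApos w) (2 * θ - 2) 1
      rw [Real.rpow_one] at this
      rw [← this]; congr 1; ring
    have s4 : (A w) ^ (2 * θ - 2) * (A w)^2 = (A w) ^ (2 * θ) := by
      have := Real.rpow_add (hApos w) (2 * θ - 2) 2
      rw [Real.rpow_two] at this
      rw [← this]; congr 1; ring
    have s5 : (A w) ^ (2 * θ - 1) ≤ δ ^ (2 * θ - 1) :=
      Real.rpow_le_rpow_of_nonpos hδ0 (hAδ w) (by linarith)
    have hgm : g ≤ 5/4 + max (g - 5/4) 0 := by
      have := le_max_left (g - 5/4) 0; linarith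
    have hm0 : 0 ≤ max (g - 5/4) 0 := le_max_right _ _
    have hZge : a * max (g - 5/4) 0 ≤ Z w := by
      simp only [hZd, Zb]
      have : 0 ≤ (if 21/20 < es Φ (y (u w)) i then y (u w) i else 0) := by
        split_ifs
        · exact ha0.le
        · exact le_rfl
      linarith
    have q1 : a^2 * g ≤ 5/4 * (A w)^2 + (A w) * (a * max (g - 5/4) 0) := by
      have t1 : a^2 * g ≤ a^2 * (5/4 + max (g - 5/4) 0) :=
        mul_le_mul_of_nonneg_left hgm (sq_nonneg _)
      have t2 : a^2 ≤ (A w)^2 := pow_le_pow_left₀ ha0.le haA 2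
      have t3 : a * (a * max (g - 5/4) 0) ≤ A w * (a * max (g - 5/4) 0) :=
        mul_le_mul_of_nonneg_right haA (mul_nonneg ha0.le hm0)
      nlinarith
    have q2 : (A w) ^ (2 * θ - 2) * (a^2 * g) ≤
        5/4 * (A w) ^ (2 * θ) + δ ^ (2 * θ - 1) * Z w := by
      have t1 := mul_le_mul_of_nonneg_left q1 p2.le
      have t2 : (A w) ^ (2 * θ - 2) * (5/4 * (A w)^2 + (A w) * (a * max (g - 5/4) 0))
          = 5/4 * ((A w) ^ (2 * θ - 2) * (A w)^2)
            + ((A w) ^ (2 * θ - 2) * (A w)) * (a * max (g - 5/4) 0) := by ring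
      rw [t2, s3, s4] at t1
      have t3 : (A w) ^ (2 * θ - 1) * (a * max (g - 5/4) 0) ≤ δ ^ (2 * θ - 1) * Z w :=
        mul_le_mul s5 hZge (mul_nonneg ha0.le hm0) (by positivity)
      linarith
    have q3 : (θ * (A w) ^ (θ - 1))^2 * (a^2 * g)
        = θ^2 * ((A w) ^ (2 * θ - 2) * (a^2 * g)) := by
      rw [mul_pow, s2]; ring
    rw [q3] at s1
    have q4 := mul_le_mul_of_nonneg_left q2 (sq_nonneg θ)
    nlinarith
  -- integrate
  have hR : Integrable (fun w => 5 * θ^2 * (A w) ^ (2 * θ) + 4 * θ^2 * δ ^ (2 * θ - 1) * Z w)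
      (Pw ι) := (hA2int.const_mul _).add (hZint.const_mul _)
  have hS : Integrable (fun w : ι → ℝ => 4 * ∑ l, (w l * f' l w)^2) (Pw ι) :=
    (integrable_finsetSum _ fun l _ => hwint l).const_mul _
  have hI := integral_mono hS hR hpt
  rw [integral_const_mul, integral_finsetSum _ (fun l _ => hwint l),
    integral_add (hA2int.const_mul _) (hZint.const_mul _), integral_const_mul,
    integral_const_mul] at hI
  have e1 : ∫ w, (f w)^2 ∂Pw ι = ∫ w, (A w) ^ (2 * θ) ∂Pw ι := by
    congr 1; funext w; exact hsq w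
  rw [e1] at key
  exact key.trans hI

end Pool.LIN
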