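import Pool.Agent.Work.MP_1c7b0d_lin.Interface

/-! Block LCX of the linear range (row MP_1c7b0d_gt), helper53: the chain of exponents -/

set_option autoImplicit false

open MeasureTheory Matrix Pool.LH60 Pool.LH73
open scoped BigOperators

namespace Pool.LIN

namespace LCX

section
variable {Ω : Type} [MeasurableSpace Ω] {μ : Measure Ω} [IsProbabilityMeasure μ]

/-- one step of the chain -/
lemma step {x z r s k l : ℝ} (hx : 0 ≤ x) (_hr0 : 0 ≤ r) (_hl : 0 ≤ l)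
    (h : z - x^2 ≤ r * z + s) (hr : r ≤ 1) (hz : k ≤ z) (hk : l^2 + s ≤ (1 - r) * k) : l ≤ x := by
  have h1 : (1 - r) * k ≤ (1 - r) * z := mul_le_mul_of_nonneg_left hz (by linarith)
  have h2 : l^2 ≤ x^2 := by nlinarith
  exact le_of_sq_le_sq h2 hx
where
  le_of_sq_le_sq {a b : ℝ} (h : a^2 ≤ b^2) (hb : 0 ≤ b) : a ≤ b := by
    by_contra hcon
    push Not at hcon
    nlinarith

/-- powers of a bounded positive function are integrable -/
lemma int_pow {A : Ω → ℝ} (hA : Measurable A) (hpos : ∀ x, 0 < A x) (hC : ∃ C, ∀ x, A x ≤ C)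
    (θ : ℝ) (hθ : 0 ≤ θ) : Integrable (fun x => (A x) ^ θ) μ := by
  obtain ⟨C, hC⟩ := hC
  refine Integrable.of_bound (C := C ^ θ) (hA.pow_const θ).aestronglyMeasurable ?_
  refine Filter.Eventually.of_forall fun x => ?_
  rw [Real.norm_of_nonneg (Real.rpow_nonneg (hpos x).le θ)]
  exact Real.rpow_le_rpow (hpos x).le (hC x) hθ

/-- Chebyshev -/
lemma cheb {B : Ω → ℝ} (hB1 : Integrable B μ) (hB2 : Integrable (fun x => (B x)^2) μ)
    (hpos : 0 < ∫ x, B x ∂μ)
    (h : ∫ x, (B x)^2 ∂μ - (∫ x, B x ∂μ)^2 ≤ 16/1000 * ∫ x, (B x)^2 ∂μ) :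
    μ.real {x | B x < (∫ x, B x ∂μ) / 2} ≤ 1/10 := by
  set β := ∫ x, B x ∂μ with hβ
  have hI : Integrable (fun x => (B x - β)^2) μ := by
    have : (fun x => (B x - β)^2) = fun x => (B x)^2 - 2 * β * B x + β^2 := by
      funext x; ring
    rw [this]
    exact (hB2.sub (hB1.const_mul _)).add (integrable_const _)
  have hE : ∫ x, (B x - β)^2 ∂μ = ∫ x, (B x)^2 ∂μ - β^2 := by
    have h1 : (fun x => (B x - β)^2) = fun x => ((B x)^2 - 2 * β * B x) + β^2 := by
      funext x; ring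
    have hs : Integrable (fun x => (B x)^2 - 2 * β * B x) μ := hB2.sub (hB1.const_mul _)
    rw [h1, integral_add hs (integrable_const _),
      integral_sub hB2 (hB1.const_mul _), integral_const_mul, ← hβ]
    simp
    ring
  have hM := mul_meas_ge_le_integral_of_nonneg (μ := μ)
    (Filter.Eventually.of_forall fun x => sq_nonneg (B x - β)) hI (β^2 / 4)
  have hsub : {x | B x < β / 2} ⊆ {x | β^2 / 4 ≤ (B x - β)^2} := by
    intro x hx
    have hx' : B x < β / 2 := hx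
    show β^2 / 4 ≤ (B x - β)^2
    nlinarith
  have hle : μ.real {x | B x < β / 2} ≤ μ.real {x | β^2 / 4 ≤ (B x - β)^2} :=
    measureReal_mono hsub
  have hb2 : 0 < β^2 / 4 := by positivity
  have h2 : β^2 / 4 * μ.real {x | B x < β / 2} ≤ ∫ x, (B x)^2 ∂μ - β^2 := by
    calc β^2 / 4 * μ.real {x | B x < β / 2}
        ≤ β^2 / 4 * μ.real {x | β^2 / 4 ≤ (B x - β)^2} := mul_le_mul_of_nonneg_left hle hb2.le
      _ ≤ ∫ x, (B x - β)^2 ∂μ := hM
      _ = _ := hE
  have h3 : ∫ x, (B x)^2 ∂μ ≤ 1000/984 * β^2 := by linarith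
  have h4 : β^2 / 4 * μ.real {x | B x < β / 2} ≤ β^2 / 4 * (1/10) := by
    nlinarith
  exact le_of_mul_le_mul_left h4 hb2

end

end LCX

set_option maxHeartbeats 4000000 in
theorem LCX_thm : Stmt_LCX := by
  refine ⟨(3/10 : ℝ) ^ (128/7 : ℝ) / 2, 8^128, by positivity, ?_, by norm_num, ?_⟩
  · have : (3/10 : ℝ) ^ (128/7 : ℝ) ≤ 1 :=
      Real.rpow_le_one (by norm_num) (by norm_num) (by norm_num)
    linarith
  intro Ω _ μ _ a m hm ha hpos ⟨C, hC⟩ hvar hmass
  have hm0 : 0 < m := lt_of_lt_of_le (by norm_num) hm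
  set t : ℝ := m ^ (-(1/128) : ℝ) with ht
  have ht0 : 0 < t := Real.rpow_pos_of_pos hm0 _
  have hpw : ∀ n : ℕ, t ^ n = m ^ (-((n:ℝ) / 128)) := by
    intro n
    rw [ht, ← Real.rpow_natCast, ← Real.rpow_mul hm0.le]
    congr 1
    ring
  have ht1 : t ≤ 1/8 := by
    rw [ht, Real.rpow_neg hm0.le, ← one_div]
    apply one_div_le_one_div_of_le (by norm_num)
    calc (8:ℝ) = ((8:ℝ)^(128:ℕ)) ^ (1/128 : ℝ) := by
          rw [← Real.rpow_natCast, ← Real.rpow_mul (by norm_num)]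
          norm_num
      _ ≤ m ^ (1/128 : ℝ) := Real.rpow_le_rpow (by norm_num) hm (by norm_num)
  have e16 : m ^ (-(1/8) : ℝ) = t^16 := by rw [hpw]; congr 1; norm_num
  have e64 : m ^ (-(1/2) : ℝ) = t^64 := by rw [hpw]; congr 1; norm_num
  have e32 : m ^ (-(1/4) : ℝ) = t^32 := by rw [hpw]; congr 1; norm_num
  set A : Ω → ℝ := fun x => a x + m ^ (-(1/4) : ℝ) with hA
  have hAm : Measurable A := ha.add_const _
  have hη : 0 < m ^ (-(1/4) : ℝ) := Real.rpow_pos_of_pos hm0 _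
  have hA0 : ∀ x, 0 < A x := fun x => add_pos (hpos x) hη
  have hAC : ∃ C, ∀ x, A x ≤ C := ⟨C + m ^ (-(1/4) : ℝ), fun x => by
    show a x + _ ≤ _; linarith [hC x]⟩
  have hint : ∀ θ : ℝ, 0 ≤ θ → Integrable (fun x => (A x) ^ θ) μ := fun θ hθ =>
    LCX.int_pow hAm hA0 hAC θ hθ
  have hI0 : ∀ θ : ℝ, 0 ≤ ∫ x, (A x) ^ θ ∂μ := fun θ =>
    integral_nonneg fun x => Real.rpow_nonneg (hA0 x).le θ
  -- small powers of `t`
  have htp : ∀ n k : ℕ, t ^ (n + k) ≤ t ^ n * (1/8)^k := by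
    intro n k
    rw [pow_add]
    exact mul_le_mul_of_nonneg_left (pow_le_pow_left₀ ht0.le ht1 k) (pow_nonneg ht0.le n)
  -- step 0
  have s0 : 68/100 * t^16 ≤ ∫ x, (A x) ^ (7/8 : ℝ) ∂μ := by
    set S := {x | a x ≤ 21/19 * m} with hS
    have hSm : MeasurableSet S := measurableSet_le ha measurable_const
    have h1 : ∫ x in S, (A x) ^ (7/8 : ℝ) ∂μ ≤ ∫ x, (A x) ^ (7/8 : ℝ) ∂μ :=
      setIntegral_le_integral (hint _ (by norm_num))
        (Filter.Eventually.of_forall fun x => Real.rpow_nonneg (hA0 x).le _)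
    have hai : Integrable a μ := by
      refine Integrable.of_bound (C := C) ha.aestronglyMeasurable ?_
      refine Filter.Eventually.of_forall fun x => ?_
      rw [Real.norm_of_nonneg (hpos x).le]
      exact hC x
    have h2 : ∫ x in S, (98/100 * t^16) * a x ∂μ ≤ ∫ x in S, (A x) ^ (7/8 : ℝ) ∂μ := by
      refine setIntegral_mono_on (hai.const_mul _).integrableOn (hint _ (by norm_num)).integrableOn
        hSm ?_
      intro x hx
      have hx' : a x ≤ 21/19 * m := hx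
      have h3 : a x ^ (7/8 : ℝ) ≤ (A x) ^ (7/8 : ℝ) :=
        Real.rpow_le_rpow (hpos x).le (by show a x ≤ a x + _; linarith) (by norm_num)
      have h4 : a x ^ (7/8 : ℝ) = a x ^ (-(1/8) : ℝ) * a x := by
        rw [← Real.rpow_add_one (hpos x).ne']
        norm_num
      have h5 : (21/19 * m) ^ (-(1/8) : ℝ) ≤ a x ^ (-(1/8) : ℝ) :=
        Real.rpow_le_rpow_of_nonpos (hpos x) hx' (by norm_num)
      have h6 : 98/100 * t^16 ≤ (21/19 * m) ^ (-(1/8) : ℝ) := by
        rw [Real.mul_rpow (by norm_num) hm0.le, e16]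
        apply mul_le_mul_of_nonneg_right _ (pow_nonneg ht0.le _)
        rw [Real.rpow_neg (by norm_num), ← Real.inv_rpow (by norm_num)]
        have h7 : ((98/100 : ℝ)^(8:ℕ)) ^ (1/8 : ℝ) = 98/100 := by
          rw [← Real.rpow_natCast, ← Real.rpow_mul (by norm_num)]
          norm_num
        rw [← h7]
        exact Real.rpow_le_rpow (by norm_num) (by norm_num) (by norm_num)
      rw [h4] at h3
      exact (mul_le_mul_of_nonneg_right (h6.trans h5) (hpos x).le).trans h3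
    rw [integral_const_mul] at h2
    have h8 : 68/100 * t^16 ≤ 98/100 * t^16 * ∫ x in S, a x ∂μ := by
      have h9 : 0 < t^16 := pow_pos ht0 _
      nlinarith
    linarith
  have q1 := hvar (7/16) (Or.inl rfl)
  have q2 := hvar (7/32) (Or.inr (Or.inl rfl))
  have q3 := hvar (7/64) (Or.inr (Or.inr (Or.inl rfl)))
  have q4 := hvar (7/128) (Or.inr (Or.inr (Or.inr rfl)))
  rw [show (2 * (7/16) : ℝ) = 7/8 by norm_num, e64] at q1
  rw [show (2 * (7/32) : ℝ) = 7/16 by norm_num, e64] at q2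
  rw [show (2 * (7/64) : ℝ) = 7/32 by norm_num, e64] at q3
  rw [show (2 * (7/128) : ℝ) = 7/64 by norm_num, e64] at q4
  have s1 : 1/10 * t^8 ≤ ∫ x, (A x) ^ (7/16 : ℝ) ∂μ := by
    refine LCX.step (hI0 _) (r := 5 * (7/16)^2) (by norm_num) (by positivity) q1 (by norm_num) s0 ?_
    have h1 := htp 16 48
    have h2 : 0 < t^16 := pow_pos ht0 _
    have h3 : t^16 * (1/8)^48 ≤ t^16 * (1/10^4) :=
      mul_le_mul_of_nonneg_left (by norm_num) h2.le
    have e : (1/10 * t^8)^2 = 1/100 * t^16 := by ring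
    rw [e]
    norm_num at h1 ⊢
    linarith
  have s2 : 2/10 * t^4 ≤ ∫ x, (A x) ^ (7/32 : ℝ) ∂μ := by
    refine LCX.step (hI0 _) (r := 5 * (7/32)^2) (by norm_num) (by positivity) q2 (by norm_num) s1 ?_
    have h1 := htp 8 56
    have h2 : 0 < t^8 := pow_pos ht0 _
    have h3 : t^8 * (1/8)^56 ≤ t^8 * (1/10^4) :=
      mul_le_mul_of_nonneg_left (by norm_num) h2.le
    have e : (2/10 * t^4)^2 = 4/100 * t^8 := by ring
    rw [e]
    norm_num at h1 ⊢
    linarith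
  have s3 : 4/10 * t^2 ≤ ∫ x, (A x) ^ (7/64 : ℝ) ∂μ := by
    refine LCX.step (hI0 _) (r := 5 * (7/64)^2) (by norm_num) (by positivity) q3 (by norm_num) s2 ?_
    have h1 := htp 4 60
    have h2 : 0 < t^4 := pow_pos ht0 _
    have h3 : t^4 * (1/8)^60 ≤ t^4 * (1/10^4) :=
      mul_le_mul_of_nonneg_left (by norm_num) h2.le
    have e : (4/10 * t^2)^2 = 16/100 * t^4 := by ring
    rw [e]
    norm_num at h1 ⊢
    linarith
  -- the last step
  set B : Ω → ℝ := fun x => (A x) ^ (7/128 : ℝ) with hB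
  have hB2 : ∀ x, (B x)^2 = (A x) ^ (7/64 : ℝ) := by
    intro x
    show ((A x) ^ (7/128 : ℝ))^2 = _
    rw [← Real.rpow_natCast, ← Real.rpow_mul (hA0 x).le]
    norm_num
  have hEB2 : ∫ x, (B x)^2 ∂μ = ∫ x, (A x) ^ (7/64 : ℝ) ∂μ := by simp only [hB2]
  have hBi : Integrable B μ := hint _ (by norm_num)
  have hB2i : Integrable (fun x => (B x)^2) μ := by
    simp only [hB2]; exact hint _ (by norm_num)
  have hv : ∫ x, (B x)^2 ∂μ - (∫ x, B x ∂μ)^2 ≤ 16/1000 * ∫ x, (B x)^2 ∂μ := by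
    rw [hEB2]
    have h1 := htp 2 62
    have h2 : 0 < t^2 := pow_pos ht0 _
    have h3 : t^2 * (1/8)^62 ≤ t^2 * (1/10^4) :=
      mul_le_mul_of_nonneg_left (by norm_num) h2.le
    have h4 : t^64 ≤ 1/1000 * ∫ x, (A x) ^ (7/64 : ℝ) ∂μ := by
      norm_num at h1 h3 ⊢
      linarith
    have h5 : (∫ x, (A x) ^ (7/64 : ℝ) ∂μ) - (∫ x, B x ∂μ)^2 ≤
      5 * (7/128)^2 * (∫ x, (A x) ^ (7/64 : ℝ) ∂μ) + t^64 := q4
    have h6 := hI0 (7/64)
    norm_num at h5
    linarith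
  have hEB : 6/10 * t ≤ ∫ x, B x ∂μ := by
    have h1 : (6/10 * t)^2 ≤ (∫ x, B x ∂μ)^2 := by
      rw [hEB2] at hv
      have e : (6/10 * t)^2 = 36/100 * t^2 := by ring
      rw [e]
      have h2 : 0 < t^2 := pow_pos ht0 _
      linarith
    exact LCX.step.le_of_sq_le_sq h1 (integral_nonneg fun x => Real.rpow_nonneg (hA0 x).le _)
  have hEBpos : 0 < ∫ x, B x ∂μ := lt_of_lt_of_le (by positivity) hEB
  have hch := LCX.cheb hBi hB2i hEBpos hv
  -- conclusion
  set T := {x | (3/10 : ℝ) ^ (128/7 : ℝ) / 2 * m ^ (-(1/7) : ℝ) ≤ a x} with hT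
  have hTm : MeasurableSet T := measurableSet_le measurable_const ha
  have hsub : Tᶜ ⊆ {x | B x < (∫ x, B x ∂μ) / 2} := by
    intro x hx
    by_contra hcon
    apply hx
    have h1 : (∫ x, B x ∂μ) / 2 ≤ B x := not_lt.1 hcon
    have h2 : 3/10 * t ≤ (A x) ^ (7/128 : ℝ) := le_trans (by linarith) h1
    have h3 : (3/10 * t) ^ (128/7 : ℝ) ≤ A x := by
      calc (3/10 * t) ^ (128/7 : ℝ) ≤ ((A x) ^ (7/128 : ℝ)) ^ (128/7 : ℝ) :=
            Real.rpow_le_rpow (by positivity) h2 (by norm_num)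
        _ = A x := by
            rw [← Real.rpow_mul (hA0 x).le]
            norm_num
    have h4 : 2 * t^32 ≤ (3/10 * t) ^ (128/7 : ℝ) := by
      have h5 : (3/10 * t)^(19:ℕ) ≤ (3/10 * t) ^ (128/7 : ℝ) := by
        rw [← Real.rpow_natCast]
        apply Real.rpow_le_rpow_of_exponent_ge (by positivity) (by linarith)
        norm_num
      refine le_trans ?_ h5
      have h6 := htp 19 13
      have h7 : 0 < t^19 := pow_pos ht0 _
      rw [mul_pow]
      have h8 : t^19 * (1/8)^13 * 2 ≤ (3/10)^19 * t^19 := by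
        nlinarith [h7, show (2 : ℝ) * (1/8)^13 ≤ (3/10)^19 by norm_num]
      have e : (19 + 13 : ℕ) = 32 := rfl
      rw [e] at h6
      linarith
    have h9 : (3/10 * t) ^ (128/7 : ℝ) = (3/10 : ℝ) ^ (128/7 : ℝ) * m ^ (-(1/7) : ℝ) := by
      rw [Real.mul_rpow (by norm_num) ht0.le, ht, ← Real.rpow_mul hm0.le]
      norm_num
    show (3/10 : ℝ) ^ (128/7 : ℝ) / 2 * m ^ (-(1/7) : ℝ) ≤ a x
    have h10 : A x = a x + t^32 := by
      show a x + m ^ (-(1/4) : ℝ) = _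
      rw [e32]
    rw [h9] at h3 h4
    rw [h10] at h3
    linarith
  have h1 : μ.real Tᶜ ≤ 1/10 := (measureReal_mono hsub).trans hch
  rw [probReal_compl_eq_one_sub hTm] at h1
  linarith

end Pool.LIN
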