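import Pool.Agent.Work.MP_1c7b0d_lin.Interface
import Pool.Agent.Work.MP_1c7b0d_lh73.LOW73

open MeasureTheory Matrix Pool.LH60 Pool.LH73
open scoped BigOperators

namespace Pool.LIN

namespace LOWL

variable {ι : Type} [Fintype ι]

/-- a labelling without rest -/
theorem total {L : ℕ} (a : ι → Option (Fin L)) (h : (rs a).card = 0) :
    ∃ a' : ι → Fin L, (∀ i, a i = some (a' i)) ∧ ∀ b, msz a' b = mz a b := by
  have h1 : ∀ i, ∃ b, a i = some b := by
    intro i
    rw [← Option.ne_none_iff_exists']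
    intro hi
    have h2 : i ∈ rs a := by simp [rs, hi]
    rw [Finset.card_eq_zero] at h
    rw [h] at h2
    simp at h2
  choose a' ha' using h1
  refine ⟨a', ha', fun b => ?_⟩
  unfold msz fib mz fb
  congr 1
  ext i
  simp [ha']

end LOWL

open LOWL in
theorem LOWL_thm (hFN3 : Stmt_FN3) (hVNL : Stmt_VNL) (hDEF1 : Stmt_DEF1)
    (hDETS : Stmt_DETS) (hDETE : Stmt_DETE) (hFRI : Stmt_FRI) (hONC : Stmt_ONC)
    (hDEGEN : Stmt_DEGEN) : Stmt_LOWL := by
  obtain ⟨M₀, hM₀, hFN⟩ := hFN3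
  refine ⟨M₀, hM₀, fun d K U hK hd hU => ?_⟩
  by_cases hdet : (Uᵀ * U).det = 0
  · have hv := hDEGEN d K U hdet
    refine ⟨by rw [hv]; exact le_top, fun h => ?_⟩
    rw [hv] at h
    exact absurd h.symm ENNReal.ofReal_ne_top
  by_cases htop : volume (Pol U) = ⊤
  · refine ⟨by rw [htop]; exact le_top, fun h => ?_⟩
    rw [htop] at h
    exact absurd h.symm ENNReal.ofReal_ne_top
  obtain ⟨Φ, hΦ1, hΦ2⟩ := hONC (Ix d K) d K (by simp [Fintype.card_sum]) U
  have hF : IsFrame U Φ := ⟨hΦ1, hΦ2, hdet⟩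
  obtain ⟨hid, hpd, hsum, hnn, hrow⟩ := hFRI d K U Φ hF
  have hrow := hrow hU
  have hdK : K ≤ d := by nlinarith
  obtain ⟨hV0, -⟩ := hVNL d K hK hdK
  obtain ⟨L, a, ms, hC, hms1, hms2, hch1, hch2, hvol⟩ := hFN d K U Φ hK hd hU hF htop
  obtain ⟨-, -, -, -, -, hD0⟩ := hDEF1 (Ix d K) K Φ hF.1
  have hdets := hDETS d K U hU hdet
  have ht : ∀ i, (U * (Uᵀ * U)⁻¹ * Uᵀ) i i = 1 - cn Φ i := fun i => by
    have := (hrow i).2; linarith
  simp only [ht] at hdets
  have hCcc : 0 ≤ Ccc Φ a ms := Finset.sum_nonneg fun i _ => sq_nonneg _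
  have hKr : (0:ℝ) < K := by exact_mod_cast hK
  have hdr : (M₀:ℝ) * K ≤ d := by exact_mod_cast hd
  have hM₀r : (10000:ℝ) ≤ M₀ := by exact_mod_cast hM₀
  set m : ℝ := ((d:ℝ) + K) / K with hm
  have hm1 : (M₀:ℝ) + 1 ≤ m := by
    rw [hm, le_div_iff₀ hKr]
    linarith
  have hm0 : 0 < m := by linarith
  have hDm : 0 ≤ Dfc Φ / m := div_nonneg hD0 hm0.le
  have hS : 0 ≤ ∑ b, (Fs (mz a b) - ch (d / K) (mz a b)) :=
    Finset.sum_nonneg fun b _ => by linarith [hch1 b]
  have hlow : ENNReal.ofReal (Vne d K) ≤ volume (Pol U) := by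
    refine le_trans ?_ hvol
    apply ENNReal.ofReal_le_ofReal
    rw [← Real.exp_log hV0]
    apply Real.exp_le_exp.2
    rw [Real.log_exp]
    linarith
  refine ⟨hlow, fun heq => ?_⟩
  rw [heq] at hvol
  have hE1 := (ENNReal.ofReal_le_ofReal_iff hV0.le).1 hvol
  have hE2 := (Real.log_le_log_iff (Real.exp_pos _) hV0).2 hE1
  rw [Real.log_exp] at hE2
  have e1 : ∑ b, (Fs (mz a b) - ch (d / K) (mz a b)) = 0 := by linarith
  have e2 : Dfc Φ = 0 := by
    have : Dfc Φ / m = 0 := by linarith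
    rcases div_eq_zero_iff.1 this with h | h
    · exact h
    · exact absurd h hm0.ne'
  have e3 : Ccc Φ a ms = 0 := by linarith
  have e4 : -Real.log (Uᵀ * U).det ≤ ∑ i, (1 - cn Φ i) * Real.log (1 - cn Φ i) := by linarith
  have hc : ∀ i, cn Φ i = 1 / rf a ms i := by
    intro i
    have h1 := (Finset.sum_eq_zero_iff_of_nonneg (fun i _ => sq_nonneg _)).1 e3 i (Finset.mem_univ i)
    have h2 := pow_eq_zero_iff (two_ne_zero) |>.1 h1
    linarith
  -- m and ms are close
  have hq1 : ((d / K : ℕ) : ℝ) * K ≤ d := by exact_mod_cast Nat.div_mul_le_self d K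
  have hq2 : (d:ℝ) < (((d / K : ℕ) : ℝ) + 1) * K := by
    have h : d < (d / K + 1) * K := by
      have h1 := Nat.div_add_mod d K
      have h2 := Nat.mod_lt d hK
      calc d = K * (d / K) + d % K := h1.symm
        _ < K * (d / K) + K := by omega
        _ = (d / K + 1) * K := by ring
    exact_mod_cast h
  have hmq1 : ((d / K : ℕ) : ℝ) + 1 ≤ m := by
    rw [hm, le_div_iff₀ hKr]
    linarith
  have hmq2 : m ≤ ((d / K : ℕ) : ℝ) + 2 := by
    rw [hm, div_le_iff₀ hKr]
    linarith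
  have hmsm : |m - ms| ≤ 1 := by
    rw [abs_le]
    constructor <;> linarith
  have hms0 : 9999 ≤ ms := by linarith
  have hN1 : N1 Φ m = 0 := by
    unfold N1
    rw [Finset.card_eq_zero, Finset.filter_eq_empty_iff]
    intro i _
    push Not
    rcases hai : a i with _ | b
    · have h1 := hc i
      rw [show rf a ms i = ms by simp [rf, hai]] at h1
      rw [h1, show m * (1 / ms) - 1 = (m - ms) / ms by field_simp, abs_div,
        abs_of_pos (by linarith : (0:ℝ) < ms), div_le_iff₀ (by linarith)]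
      linarith
    · exact hC.row i b hai
  have hrs : (rs a).card = 0 := by
    have h1 := hC.rst
    rw [e2, hN1] at h1
    have h2 : ((rs a).card : ℝ) ≤ 0 := by simpa using h1
    exact_mod_cast le_antisymm h2 (Nat.cast_nonneg _)
  obtain ⟨a', ha', hmz⟩ := total a hrs
  have hsiz : ∀ b, 2 ≤ mz a b := by
    intro b
    have h1 := abs_le.1 (hC.siz b)
    have h2 : (2:ℝ) ≤ (mz a b : ℝ) := by linarith [h1.1]
    exact_mod_cast h2
  have hc' : ∀ i, cn Φ i = 1 / (msz a' (a' i) : ℝ) := by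
    intro i
    rw [hc i, hmz]
    simp [rf, ha']
  -- the number of classes is K
  have hLK : L = K := by
    have h1 : ∑ i, cn Φ i = ∑ b : Fin L, ∑ i ∈ fib a' b, cn Φ i := by
      unfold fib
      rw [Finset.sum_fiberwise]
    have h2 : ∀ b : Fin L, ∑ i ∈ fib a' b, cn Φ i = 1 := by
      intro b
      have h3 : ∀ i ∈ fib a' b, cn Φ i = 1 / (msz a' b : ℝ) := by
        intro i hi
        unfold fib at hi
        rw [Finset.mem_filter] at hi
        rw [hc' i, hi.2]
      rw [Finset.sum_congr rfl h3, Finset.sum_const, nsmul_eq_mul]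
      have h4 : ((fib a' b).card : ℝ) = (msz a' b : ℝ) := rfl
      have h5 : (msz a' b : ℝ) ≠ 0 := by
        rw [hmz]
        have := hsiz b
        positivity
      rw [h4]
      field_simp
    rw [hsum, Finset.sum_congr rfl (fun b _ => h2 b)] at h1
    simp at h1
    exact_mod_cast h1.symm
  subst hLK
  have hE := hDETE d L U hU hdet (by simp only [ht]; exact e4)
  have h2' : ∀ b, 2 ≤ msz a' b := fun b => by rw [hmz]; exact hsiz b
  have hne : ∀ i j, a' i = a' j → pp Φ i j ≠ 0 := by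
    intro i j hij h0
    have := hC.inn i j (a' i) (ha' i) (by rw [hij]; exact ha' j)
    rw [h0] at this
    norm_num at this
  obtain ⟨p1, p2⟩ := LOW73.pattern hDEF1 hFRI U Φ hF a' h2' hne e2 hc' hE
  refine ⟨a', fun b => ?_, p1, p2⟩
  rw [hmz]
  by_contra hb
  push Not at hb
  have h1 := hch2 b hb.1 hb.2
  have h3 := (Finset.sum_eq_zero_iff_of_nonneg (fun b _ => by linarith [hch1 b])).1 e1 b
    (Finset.mem_univ b)
  linarith

end Pool.LIN
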