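import Pool.Agent.Work.MP_1c7b0d_lin.Interface

/-! Second and fourth moments of a random matrix (block M4). helper66 -/

open MeasureTheory Matrix Pool.LH60 Pool.LH73
open scoped BigOperators

namespace Pool.LIN

section M4
variable {ι : Type} [Fintype ι] [DecidableEq ι] {K : ℕ}

theorem m4_sq (B : ι → Matrix (Fin K) (Fin K) ℝ) (x : ι → ℝ) :
    (∑ l, x l • B l) * (∑ l, x l • B l) = ∑ a, ∑ b, (x a * x b) • (B a * B b) := by
  rw [Finset.sum_mul]
  refine Finset.sum_congr rfl fun a _ => ?_
  rw [Finset.mul_sum]
  refine Finset.sum_congr rfl fun b _ => ?_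
  rw [smul_mul_smul_comm]

theorem m4_tr2 (B : ι → Matrix (Fin K) (Fin K) ℝ) (x : ι → ℝ) :
    ((∑ l, x l • B l) * (∑ l, x l • B l)).trace
      = ∑ a, ∑ b, (x a * x b) * (B a * B b).trace := by
  rw [m4_sq, trace_sum]
  refine Finset.sum_congr rfl fun a _ => ?_
  rw [trace_sum]
  refine Finset.sum_congr rfl fun b _ => ?_
  rw [trace_smul, smul_eq_mul]

theorem m4_tr4 (B : ι → Matrix (Fin K) (Fin K) ℝ) (x : ι → ℝ) :
    ((∑ l, x l • B l)^4).trace
      = ∑ a, ∑ b, ∑ c, ∑ d, (x a * x b * x c * x d) * ((B a * B b) * (B c * B d)).trace := by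
  have h : (∑ l, x l • B l)^4
      = ((∑ l, x l • B l) * (∑ l, x l • B l)) * ((∑ l, x l • B l) * (∑ l, x l • B l)) := by
    simp only [pow_succ, pow_zero, one_mul, Matrix.mul_assoc]
  rw [h, m4_sq, Finset.sum_mul, trace_sum]
  refine Finset.sum_congr rfl fun a _ => ?_
  rw [Finset.sum_mul, trace_sum]
  refine Finset.sum_congr rfl fun b _ => ?_
  rw [Finset.mul_sum, trace_sum]
  refine Finset.sum_congr rfl fun c _ => ?_
  rw [Finset.mul_sum, trace_sum]
  refine Finset.sum_congr rfl fun d _ => ?_
  rw [smul_mul_smul_comm, trace_smul, smul_eq_mul]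
  ring

theorem m4_nonneg (A : Matrix (Fin K) (Fin K) ℝ) : 0 ≤ (A * Aᵀ).trace := by
  simp only [trace, diag_apply, mul_apply, transpose_apply]
  exact Finset.sum_nonneg fun i _ => Finset.sum_nonneg fun j _ => mul_self_nonneg _

theorem m4_comm (A B : Matrix (Fin K) (Fin K) ℝ) (hA : Aᵀ = A) (hB : Bᵀ = B) :
    ((A * B) * (A * B)).trace ≤ ((A * A) * (B * B)).trace := by
  have h := m4_nonneg (A * B - B * A)
  have e1 : (A * B - B * A)ᵀ = B * A - A * B := by
    rw [transpose_sub, transpose_mul, transpose_mul, hA, hB]
  rw [e1] at h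
  have e2 : (A * B - B * A) * (B * A - A * B)
      = (A * B) * (B * A) - (A * B) * (A * B) - (B * A) * (B * A) + (B * A) * (A * B) := by
    rw [sub_mul, mul_sub, mul_sub]; abel
  rw [e2, trace_add, trace_sub, trace_sub] at h
  have e3 : ((A * B) * (B * A)).trace = ((A * A) * (B * B)).trace := by
    rw [show (A * B) * (B * A) = (A * (B * B)) * A by simp only [Matrix.mul_assoc],
      trace_mul_comm, ← Matrix.mul_assoc]
  have e4 : ((B * A) * (A * B)).trace = ((A * A) * (B * B)).trace := by
    rw [show (B * A) * (A * B) = B * ((A * A) * B) by simp only [Matrix.mul_assoc],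
      trace_mul_comm, Matrix.mul_assoc]
  have e5 : ((B * A) * (B * A)).trace = ((A * B) * (A * B)).trace := by
    rw [show (B * A) * (B * A) = B * (A * (B * A)) by simp only [Matrix.mul_assoc],
      trace_mul_comm]
    simp only [Matrix.mul_assoc]
  rw [e3, e4, e5] at h
  linarith

theorem M4_thm (hM4A : Stmt_M4A) : Stmt_M4 := by
  intro ι _ _ K B hB
  obtain ⟨-, h2, h4⟩ := hM4A ι
  refine ⟨⟨?_, ?_⟩, ?_, ?_⟩
  · simp only [m4_tr2]
    exact integrable_finsetSum _ fun a _ => integrable_finsetSum _ fun b _ =>
      (h2 a b).1.mul_const _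
  · simp only [m4_tr2]
    rw [integral_finsetSum _ fun a _ => integrable_finsetSum _ fun b _ =>
      (h2 a b).1.mul_const _]
    refine Finset.sum_congr rfl fun a _ => ?_
    rw [integral_finsetSum _ fun b _ => (h2 a b).1.mul_const _]
    simp only [integral_mul_const, (h2 _ _).2]
    simp
  · simp only [m4_tr4]
    exact integrable_finsetSum _ fun a _ => integrable_finsetSum _ fun b _ =>
      integrable_finsetSum _ fun c _ => integrable_finsetSum _ fun d _ =>
      (h4 a b c d).1.mul_const _
  · simp only [m4_tr4]
    rw [integral_finsetSum _ fun a _ => integrable_finsetSum _ fun b _ =>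
      integrable_finsetSum _ fun c _ => integrable_finsetSum _ fun d _ =>
      (h4 a b c d).1.mul_const _]
    have e0 : ∀ a, ∫ w : ι → ℝ, ∑ b, ∑ c, ∑ d, ((w a - 1) * (w b - 1) * (w c - 1) * (w d - 1))
          * ((B a * B b) * (B c * B d)).trace ∂Pw ι
        = ∑ b, ((B a * B a) * (B b * B b)).trace + ∑ b, ((B a * B b) * (B a * B b)).trace
          + ∑ b, ((B a * B b) * (B b * B a)).trace + 6 * ((B a * B a) * (B a * B a)).trace := by
      intro a
      rw [integral_finsetSum _ fun b _ =>
        integrable_finsetSum _ fun c _ => integrable_finsetSum _ fun d _ =>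
        (h4 a b c d).1.mul_const _]
      have e1 : ∀ b, ∫ w : ι → ℝ, ∑ c, ∑ d, ((w a - 1) * (w b - 1) * (w c - 1) * (w d - 1))
          * ((B a * B b) * (B c * B d)).trace ∂Pw ι
          = ∑ c, ∑ d, ((if a = b then 1 else 0) * (if c = d then 1 else 0)
      + (if a = c then 1 else 0) * (if b = d then 1 else 0)
      + (if a = d then 1 else 0) * (if b = c then 1 else 0)
      + 6 * (if a = b ∧ b = c ∧ c = d then 1 else 0)) * ((B a * B b) * (B c * B d)).trace := by
        intro b
        rw [integral_finsetSum _ fun c _ => integrable_finsetSum _ fun d _ =>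
          (h4 a b c d).1.mul_const _]
        refine Finset.sum_congr rfl fun c _ => ?_
        rw [integral_finsetSum _ fun d _ => (h4 a b c d).1.mul_const _]
        refine Finset.sum_congr rfl fun d _ => ?_
        rw [integral_mul_const, (h4 a b c d).2]
      simp only [e1]
      have e2 : ∀ b, (∑ c, ∑ d, ((if a = b then (1:ℝ) else 0) * (if c = d then 1 else 0)
      + (if a = c then 1 else 0) * (if b = d then 1 else 0)
      + (if a = d then 1 else 0) * (if b = c then 1 else 0)
      + 6 * (if a = b ∧ b = c ∧ c = d then 1 else 0)) * ((B a * B b) * (B c * B d)).trace)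
          = (if a = b then ∑ c, ((B a * B b) * (B c * B c)).trace else 0)
            + ((B a * B b) * (B a * B b)).trace + ((B a * B b) * (B b * B a)).trace
            + (if a = b then 6 * ((B a * B a) * (B a * B a)).trace else 0) := by
        intro b
        simp only [add_mul, Finset.sum_add_distrib]
        congr 1
        · congr 1
          · congr 1
            · by_cases hab : a = b
              · simp [hab, ite_mul]
              · simp [hab]
            · simp [ite_mul, Finset.sum_ite_eq]
          · simp [ite_mul, Finset.sum_ite_eq]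
        · by_cases hab : a = b
          · subst hab
            have : ∀ c d, (6:ℝ) * (if a = a ∧ a = c ∧ c = d then (1:ℝ) else 0)
                * ((B a * B a) * (B c * B d)).trace
                = if a = c then (if c = d then 6 * ((B a * B a) * (B c * B d)).trace else 0)
                  else 0 := by
              intro c d
              by_cases h1 : a = c <;> by_cases h2 : c = d <;> simp [h1, h2]
            rw [Finset.sum_congr rfl fun c _ => Finset.sum_congr rfl fun d _ => this c d]
            simp [Finset.sum_ite_eq]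
          · simp [hab]
      simp only [e2, Finset.sum_add_distrib]
      simp [Finset.sum_ite_eq]
    simp only [e0, Finset.sum_add_distrib]
    have f1 : ∑ a, ∑ b, ((B a * B a) * (B b * B b)).trace
        = ((∑ l, B l * B l) * (∑ l, B l * B l)).trace := by
      rw [Finset.sum_mul, trace_sum]
      refine Finset.sum_congr rfl fun a _ => ?_
      rw [Finset.mul_sum, trace_sum]
    have f2 : ∑ a, ∑ b, ((B a * B b) * (B b * B a)).trace
        = ((∑ l, B l * B l) * (∑ l, B l * B l)).trace := by
      rw [← f1]
      refine Finset.sum_congr rfl fun a _ => Finset.sum_congr rfl fun b _ => ?_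
      rw [show (B a * B b) * (B b * B a) = (B a * (B b * B b)) * B a by
        simp only [Matrix.mul_assoc], trace_mul_comm, ← Matrix.mul_assoc]
    have f3 : ∑ a, ∑ b, ((B a * B b) * (B a * B b)).trace
        ≤ ((∑ l, B l * B l) * (∑ l, B l * B l)).trace := by
      rw [← f1]
      exact Finset.sum_le_sum fun a _ => Finset.sum_le_sum fun b _ => m4_comm _ _ (hB a) (hB b)
    have f4 : ∀ a, ((B a)^4).trace = ((B a * B a) * (B a * B a)).trace := by
      intro a
      congr 1
      simp only [pow_succ, pow_zero, one_mul, Matrix.mul_assoc]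
    have f5 : ∀ a, 0 ≤ ((B a * B a) * (B a * B a)).trace := by
      intro a
      have := m4_nonneg (B a * B a)
      rwa [transpose_mul, hB a] at this
    simp only [f4]
    have f6 := Finset.sum_nonneg (s := Finset.univ) fun a (_ : a ∈ Finset.univ) => f5 a
    rw [f1, f2, ← Finset.mul_sum]
    linarith

end M4

end Pool.LIN
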