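import Pool.Agent.Work.MP_1c7b0d_lin.Interface

/-! Block M4A: moments of products of centred exponentials. helper78 -/

open MeasureTheory Matrix Pool.LH60 Pool.LH73
open scoped BigOperators

namespace Pool.LIN

namespace M4Aux

/-- centred moment of order `n` -/
noncomputable def mom (n : ℕ) : ℝ := ∫ x, (x - 1)^n ∂e1

theorem int_pow (h : Stmt_PRB) (n : ℕ) : Integrable (fun x : ℝ => (x - 1)^n) e1 := by
  have e : (fun x : ℝ => (x - 1)^n) = fun x : ℝ => ∑ m ∈ Finset.range (n + 1),
      x^m * ((-1)^(n - m) * (n.choose m : ℝ)) := by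
    funext x
    rw [sub_eq_add_neg, add_pow]
    exact Finset.sum_congr rfl fun m _ => by ring
  rw [e]
  exact integrable_finset_sum _ fun m _ => (h.2.2.1 m).mul_const _

variable {ι : Type} [Fintype ι] [DecidableEq ι]

theorem gen (h : Stmt_PRB) (n : ι → ℕ) :
    Integrable (fun w : ι → ℝ => ∏ i, (w i - 1)^(n i)) (Pw ι) ∧
    ∫ w : ι → ℝ, ∏ i, (w i - 1)^(n i) ∂Pw ι = ∏ i, mom (n i) := by
  constructor
  · exact Integrable.fintype_prod (f := fun i (x : ℝ) => (x - 1)^(n i)) fun i => int_pow h (n i)
  · exact integral_fintype_prod_eq_prod (μ := fun _ : ι => e1) (fun i (x : ℝ) => (x - 1)^(n i))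

omit [Fintype ι] in
theorem pw1 [Fintype ι] (w : ι → ℝ) (a : ι) :
    ∏ i, (w i - 1)^(if a = i then 1 else 0) = w a - 1 := by
  simp [Finset.prod_ite_eq, pow_ite]

theorem moms (h : Stmt_PRB) : mom 0 = 1 ∧ mom 1 = 0 ∧ mom 2 = 1 ∧ mom 3 = 2 ∧ mom 4 = 9 := by
  obtain ⟨_, _, _, _, _, h1, h2, h3, h4, _, _⟩ := h
  refine ⟨?_, ?_, h2, h3, h4⟩
  · simp [mom]
  · simpa [mom] using h1

end M4Aux

open M4Aux in
theorem M4A_thm (hPRB : Stmt_PRB) : Stmt_M4A := by
  intro ι _ _
  obtain ⟨m0, m1, m2, m3, m4⟩ := moms hPRB
  refine ⟨fun l => ?_, fun l k => ?_, fun a b c d => ?_⟩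
  · have hg := gen (ι := ι) hPRB (fun i => if l = i then 1 else 0)
    simp only [pw1] at hg
    refine ⟨hg.1, hg.2.trans ?_⟩
    exact Finset.prod_eq_zero (Finset.mem_univ l) (by simpa using m1)
  · have hg := gen (ι := ι) hPRB (fun i => (if l = i then 1 else 0) + (if k = i then 1 else 0))
    simp only [pow_add, Finset.prod_mul_distrib, pw1] at hg
    refine ⟨hg.1, hg.2.trans ?_⟩
    by_cases hlk : l = k
    · subst hlk
      rw [if_pos rfl]
      refine Finset.prod_eq_one fun i _ => ?_
      by_cases hi : l = i
      · simpa [hi] using m2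
      · simpa [hi] using m0
    · rw [if_neg hlk]
      refine Finset.prod_eq_zero (Finset.mem_univ l) ?_
      simpa [Ne.symm hlk, eq_comm] using m1
  · have hg := gen (ι := ι) hPRB (fun i => (if a = i then 1 else 0) + (if b = i then 1 else 0)
      + (if c = i then 1 else 0) + (if d = i then 1 else 0))
    simp only [pow_add, Finset.prod_mul_distrib, pw1] at hg
    refine ⟨hg.1, hg.2.trans ?_⟩
    by_cases ha : a ≠ b ∧ a ≠ c ∧ a ≠ d
    · obtain ⟨h1, h2, h3⟩ := ha
      rw [Finset.prod_eq_zero (Finset.mem_univ a) (by
        simpa [h1.symm, h2.symm, h3.symm] using m1)]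
      simp [h1, h2, h3]
    by_cases hb : b ≠ a ∧ b ≠ c ∧ b ≠ d
    · obtain ⟨h1, h2, h3⟩ := hb
      rw [Finset.prod_eq_zero (Finset.mem_univ b) (by
        simpa [h1.symm, h2.symm, h3.symm] using m1)]
      simp [h1.symm, h2, h3]
    by_cases hc : c ≠ a ∧ c ≠ b ∧ c ≠ d
    · obtain ⟨h1, h2, h3⟩ := hc
      rw [Finset.prod_eq_zero (Finset.mem_univ c) (by
        simpa [h1.symm, h2.symm, h3.symm] using m1)]
      simp [h1.symm, h2.symm, h3]
    by_cases hd : d ≠ a ∧ d ≠ b ∧ d ≠ c
    · obtain ⟨h1, h2, h3⟩ := hd
      rw [Finset.prod_eq_zero (Finset.mem_univ d) (by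
        simpa [h1.symm, h2.symm, h3.symm] using m1)]
      simp [h1.symm, h2.symm, h3.symm]
    by_cases hab : a = b
    · subst hab
      have hcd : c = d := by
        by_contra hcd
        have h1 : c = a := by
          by_contra h; exact hc ⟨h, h, hcd⟩
        have h2 : d = a := by
          by_contra h; exact hd ⟨h, h, Ne.symm hcd⟩
        exact hcd (h1.trans h2.symm)
      subst hcd
      by_cases hac : a = c
      · subst hac
        rw [Finset.prod_eq_single a]
        · simp only [if_true]
          rw [show (1 + 1 + 1 + 1 : ℕ) = 4 from rfl, m4]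
          norm_num
        · intro i _ hi
          simpa [Ne.symm hi] using m0
        · intro h; exact absurd (Finset.mem_univ a) h
      · rw [Finset.prod_eq_one]
        · simp [hac]
        · intro i _
          by_cases h1 : a = i
          · subst h1
            simpa [Ne.symm hac] using m2
          · by_cases h2 : c = i
            · simpa [h1, h2] using m2
            · simpa [h1, h2] using m0
    · by_cases hac : a = c
      · subst hac
        have hbd : b = d := by
          by_contra h
          exact hb ⟨Ne.symm hab, Ne.symm hab, h⟩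
        subst hbd
        rw [Finset.prod_eq_one]
        · simp [hab]
        · intro i _
          by_cases h1 : a = i
          · subst h1
            simpa [Ne.symm hab] using m2
          · by_cases h2 : b = i
            · simpa [h1, h2] using m2
            · simpa [h1, h2] using m0
      · have had : a = d := by
          by_contra h
          exact ha ⟨hab, hac, h⟩
        subst had
        have hbc : b = c := by
          by_contra h
          exact hb ⟨Ne.symm hab, h, Ne.symm hab⟩
        subst hbc
        rw [Finset.prod_eq_one]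
        · simp [hab]
        · intro i _
          by_cases h1 : a = i
          · subst h1
            simpa [Ne.symm hab] using m2
          · by_cases h2 : b = i
            · simpa [h1, h2] using m2
            · simpa [h1, h2] using m0

end Pool.LIN
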