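import Pool.Agent.Work.MP_1c7b0d_lin.Interface

/-! Block MAL (helper51): the main lower bound. -/

open MeasureTheory Matrix Pool.LH60 Pool.LH73
open scoped BigOperators

namespace Pool.LIN

namespace MALb

variable {d K : ℕ}

theorem isOpen_Orth (ι : Type) [Fintype ι] : IsOpen (Orth ι) := by
  have : Orth ι = ⋂ i, {w | 0 < w i} := by
    ext w; simp [Orth]
  rw [this]
  exact isOpen_iInter_of_finite fun i => isOpen_lt continuous_const (continuous_apply i)

theorem continuous_yv (U : Matrix (Ix d K) (Fin d) ℝ) (i : Ix d K) :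
    Continuous (fun x : Fin d → ℝ => yv U x i) := by
  unfold yv
  fun_prop

theorem isOpen_Pol (U : Matrix (Ix d K) (Fin d) ℝ) : IsOpen (Pol U) := by
  have : Pol U = ⋂ i, {x | 0 < yv U x i} := by
    ext x; simp [Pol]
  rw [this]
  exact isOpen_iInter_of_finite fun i => isOpen_lt continuous_const (continuous_yv U i)

theorem continuous_Dm (Φ : Matrix (Ix d K) (Fin K) ℝ) :
    Continuous (fun y : Ix d K → ℝ => Dm Φ y) := by
  unfold Dm
  exact (continuous_const.matrix_mul (Continuous.matrix_diagonal continuous_id)).matrix_mul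
    continuous_const

theorem contOn_rho (hPDG : Stmt_PDG) (Φ : Matrix (Ix d K) (Fin K) ℝ) (hΦ : Φᵀ * Φ = 1)
    (i j : Ix d K) : ContinuousOn (fun y => rho Φ y i j) (Orth (Ix d K)) := by
  have hdet : ∀ y ∈ Orth (Ix d K), (Dm Φ y).det ≠ 0 := fun y hy =>
    (hPDG (Ix d K) K Φ y hΦ hy).det_pos.ne'
  have hD := continuous_Dm Φ
  have hinv : ∀ a c, ContinuousOn (fun y => (Dm Φ y)⁻¹ a c) (Orth (Ix d K)) := by
    intro a c
    have h1 : ∀ y, (Dm Φ y)⁻¹ a c = ((Dm Φ y).det)⁻¹ * (Dm Φ y).adjugate a c := by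
      intro y
      rw [Matrix.inv_def, Matrix.smul_apply, smul_eq_mul, Ring.inverse_eq_inv']
    simp only [h1]
    refine ContinuousOn.mul ?_ ?_
    · exact ContinuousOn.inv₀ (hD.matrix_det).continuousOn hdet
    · have h2 : Continuous (fun y => (Dm Φ y).adjugate) := hD.matrix_adjugate
      exact ((continuous_apply c).comp ((continuous_apply a).comp h2)).continuousOn
  unfold rho
  simp only [Matrix.mul_apply, Matrix.transpose_apply]
  refine continuousOn_finsetSum _ fun a _ => ContinuousOn.mul ?_ continuousOn_const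
  exact continuousOn_finsetSum _ fun c _ => ContinuousOn.mul continuousOn_const (hinv c a)

theorem contOn_GG (hGGC : Stmt_GGC) (Φ : Matrix (Ix d K) (Fin K) ℝ) (hΦ : Φᵀ * Φ = 1) :
    ContinuousOn (fun y => GG (Dm Φ y)) (Orth (Ix d K)) := by
  intro y hy
  refine tendsto_iff_dist_tendsto_zero.2 ?_
  have hb : Filter.Tendsto (fun y' : Ix d K → ℝ => ∑ i, cn Φ i * |y' i - y i|)
      (nhdsWithin y (Orth (Ix d K))) (nhds 0) := by
    have hc : Continuous (fun y' : Ix d K → ℝ => ∑ i, cn Φ i * |y' i - y i|) := by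
      fun_prop
    have h0 := hc.tendsto y
    simp only [sub_self, abs_zero, mul_zero, Finset.sum_const_zero] at h0
    exact h0.mono_left nhdsWithin_le_nhds
  refine squeeze_zero' (Filter.Eventually.of_forall fun _ => dist_nonneg) ?_ hb
  filter_upwards [self_mem_nhdsWithin] with y' hy'
  rw [Real.dist_eq]
  exact (hGGC (Ix d K) K Φ y' y hΦ hy' hy).1

theorem contOn_Cx (hPDG : Stmt_PDG) (hGGC : Stmt_GGC) (Φ : Matrix (Ix d K) (Fin K) ℝ)
    (hΦ : Φᵀ * Φ = 1) (b α A : Ix d K → ℝ) :
    ContinuousOn (fun y => Cx Φ b α A y) (Orth (Ix d K)) := by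
  unfold Cx
  have hy : ∀ i, ContinuousOn (fun y : Ix d K → ℝ => y i) (Orth (Ix d K)) := fun i =>
    (continuous_apply i).continuousOn
  refine ContinuousOn.sub (ContinuousOn.add (ContinuousOn.add (ContinuousOn.sub
    (ContinuousOn.sub continuousOn_const ?_) ?_) ?_) ?_) ?_
  · exact continuousOn_finsetSum _ fun i _ => hy i
  · exact continuousOn_finsetSum _ fun i _ => continuousOn_const.mul ((hy i).sub continuousOn_const)
  · exact continuousOn_finsetSum _ fun i _ =>
      continuousOn_const.mul ((hy i).mul (contOn_rho hPDG Φ hΦ i i))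
  · exact continuousOn_finsetSum _ fun i _ => continuousOn_const.mul (hy i)
  · exact (contOn_GG hGGC Φ hΦ).div_const _

/-- Jensen for the lower integral -/
theorem jensen {Ω : Type*} [MeasurableSpace Ω] (μ : Measure Ω) [IsProbabilityMeasure μ]
    (f : Ω → ℝ) (hf : Integrable f μ) :
    ENNReal.ofReal (Real.exp (∫ w, f w ∂μ)) ≤ ∫⁻ w, ENNReal.ofReal (Real.exp (f w)) ∂μ := by
  by_cases htop : ∫⁻ w, ENNReal.ofReal (Real.exp (f w)) ∂μ = ⊤
  · rw [htop]; exact le_top
  · have hm : AEStronglyMeasurable (fun w => Real.exp (f w)) μ :=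
      Real.continuous_exp.comp_aestronglyMeasurable hf.1
    have hI : Integrable (fun w => Real.exp (f w)) μ := by
      refine ⟨hm, ?_⟩
      rw [hasFiniteIntegral_iff_ofReal (Filter.Eventually.of_forall fun _ => (Real.exp_pos _).le)]
      exact lt_top_iff_ne_top.2 htop
    rw [← ofReal_integral_eq_lintegral_ofReal hI
      (Filter.Eventually.of_forall fun _ => (Real.exp_pos _).le)]
    refine ENNReal.ofReal_le_ofReal ?_
    exact ConvexOn.map_integral_le (g := Real.exp) (s := Set.univ) convexOn_exp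
      Real.continuous_exp.continuousOn isClosed_univ (Filter.Eventually.of_forall fun _ => trivial)
      hf hI

end MALb

open MALb in
theorem MAL_thm (hCPL : Stmt_CPL) (hLAW : Stmt_LAW) (hPTW : Stmt_PTW) (hINT : Stmt_INT)
    (hGGC : Stmt_GGC) (hPDG : Stmt_PDG) : Stmt_MAL := by
  classical
  intro d K V Φ hF hvol
  obtain ⟨b, hy⟩ := hCPL d K V Φ hF hvol
  refine ⟨_, hy, ?_⟩
  intro α A hA0 hA
  set y : (Ix d K → ℝ) → Ix d K → ℝ := fun w => Yc Φ (fun j => Real.exp (-b j) * w j) with hydef
  have hΦ := hF.2.1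
  obtain ⟨-, -, -, hiGG, -, -, hiy, hiyr, -⟩ := hINT (Ix d K) K Φ y hΦ hy
  -- the test function
  set h : (Ix d K → ℝ) → ENNReal := (Orth (Ix d K)).piecewise
    (fun y => ENNReal.ofReal (Real.exp (-Cx Φ b α A y))) (fun _ => 0) with hh
  have hmeas : Measurable h := by
    refine ContinuousOn.measurable_piecewise ?_ continuousOn_const
      (isOpen_Orth (Ix d K)).measurableSet
    exact ENNReal.continuous_ofReal.comp_continuousOn
      (Real.continuous_exp.comp_continuousOn (contOn_Cx hPDG hGGC Φ hΦ b α A).neg)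
  have hlaw := hLAW d K V Φ b hF h hmeas
  -- integrability and the value of the exponent
  have hIC : Integrable (fun w => Cx Φ b α A (y w)) (Pw (Ix d K)) := by
    unfold Cx
    refine Integrable.sub (Integrable.add (Integrable.add (Integrable.sub
      (Integrable.sub (integrable_const _) ?_) ?_) ?_) ?_) ?_
    · exact integrable_finsetSum _ fun i _ => hiy i
    · exact integrable_finsetSum _ fun i _ => ((hiy i).sub (integrable_const _)).const_mul _
    · exact integrable_finsetSum _ fun i _ => (hiyr i).const_mul _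
    · exact integrable_finsetSum _ fun i _ => (hiy i).const_mul _
    · exact hiGG.div_const _
  have hval : ∫ w, Cx Φ b α A (y w) ∂Pw (Ix d K) =
      (K:ℝ) / 2 * Real.log (2 * Real.pi) - ((d:ℝ) + K)
        + ∑ i, α i * ∫ w, y w i * rho Φ (y w) i i ∂Pw (Ix d K) + ∑ i, A i - EG Φ y / 400 := by
    unfold Cx EG
    have i1 : Integrable (fun w => ∑ i, y w i) (Pw (Ix d K)) :=
      integrable_finsetSum _ fun i _ => hiy i
    have i2 : Integrable (fun w => ∑ i, b i * (y w i - 1)) (Pw (Ix d K)) :=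
      integrable_finsetSum _ fun i _ => ((hiy i).sub (integrable_const _)).const_mul _
    have i3 : Integrable (fun w => ∑ i, α i * (y w i * rho Φ (y w) i i)) (Pw (Ix d K)) :=
      integrable_finsetSum _ fun i _ => (hiyr i).const_mul _
    have i4 : Integrable (fun w => ∑ i, A i * y w i) (Pw (Ix d K)) :=
      integrable_finsetSum _ fun i _ => (hiy i).const_mul _
    have i5 : Integrable (fun w => GG (Dm Φ (y w)) / 400) (Pw (Ix d K)) := hiGG.div_const _
    have i0 : Integrable (fun _ : Ix d K → ℝ => (K:ℝ) / 2 * Real.log (2 * Real.pi))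
      (Pw (Ix d K)) := integrable_const _
    have k2 : ∀ i, Integrable (fun w => b i * (y w i - 1)) (Pw (Ix d K)) := fun i =>
      ((hiy i).sub (integrable_const _)).const_mul _
    have k3 : ∀ i, Integrable (fun w => α i * (y w i * rho Φ (y w) i i)) (Pw (Ix d K)) := fun i =>
      (hiyr i).const_mul _
    have k4 : ∀ i, Integrable (fun w => A i * y w i) (Pw (Ix d K)) := fun i =>
      (hiy i).const_mul _
    have j1 : Integrable (fun w => (K:ℝ) / 2 * Real.log (2 * Real.pi) - ∑ i, y w i)
      (Pw (Ix d K)) := i0.sub i1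
    have j2 : Integrable (fun w => (K:ℝ) / 2 * Real.log (2 * Real.pi) - ∑ i, y w i
      - ∑ i, b i * (y w i - 1)) (Pw (Ix d K)) := j1.sub i2
    have j3 : Integrable (fun w => (K:ℝ) / 2 * Real.log (2 * Real.pi) - ∑ i, y w i
      - ∑ i, b i * (y w i - 1) + ∑ i, α i * (y w i * rho Φ (y w) i i)) (Pw (Ix d K)) := j2.add i3
    have j4 : Integrable (fun w => (K:ℝ) / 2 * Real.log (2 * Real.pi) - ∑ i, y w i
      - ∑ i, b i * (y w i - 1) + ∑ i, α i * (y w i * rho Φ (y w) i i) + ∑ i, A i * y w i)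
      (Pw (Ix d K)) := j3.add i4
    rw [integral_sub j4 i5, integral_add j3 i4, integral_add j2 i3, integral_sub j1 i2,
      integral_sub i0 i1,
      integral_finsetSum _ (fun i _ => hiy i),
      integral_finsetSum _ (fun i _ => k2 i),
      integral_finsetSum _ (fun i _ => k3 i),
      integral_finsetSum _ (fun i _ => k4 i)]
    have hy1 : ∀ i, ∫ w, y w i ∂Pw (Ix d K) = 1 := hy.mean
    have e0 : ∫ _ : Ix d K → ℝ, (K:ℝ) / 2 * Real.log (2 * Real.pi) ∂Pw (Ix d K)
        = (K:ℝ) / 2 * Real.log (2 * Real.pi) := by simp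
    have e2 : ∀ i, ∫ w, b i * (y w i - 1) ∂Pw (Ix d K) = 0 := by
      intro i
      rw [integral_const_mul, integral_sub (hiy i) (integrable_const _), hy1 i]
      simp
    have e3 : ∀ i, ∫ w, α i * (y w i * rho Φ (y w) i i) ∂Pw (Ix d K)
        = α i * ∫ w, y w i * rho Φ (y w) i i ∂Pw (Ix d K) := fun i => integral_const_mul _ _
    have e4 : ∀ i, ∫ w, A i * y w i ∂Pw (Ix d K) = A i := by
      intro i
      rw [integral_const_mul, hy1 i, mul_one]
    have e5 : ∫ w, GG (Dm Φ (y w)) / 400 ∂Pw (Ix d K)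
        = (∫ w, GG (Dm Φ (y w)) ∂Pw (Ix d K)) / 400 := integral_div _ _
    simp only [e0, hy1, e2, e3, e4, e5]
    simp
  -- the chain
  have hstep : ∀ x ∈ Pol V, Ing V Φ b x * h (yv V x) ≤ 1 := by
    intro x hx
    have hO : yv V x ∈ Orth (Ix d K) := hx
    have h1 : h (yv V x) = ENNReal.ofReal (Real.exp (-Cx Φ b α A (yv V x))) := by
      simp only [hh, Set.piecewise, if_pos hO]
    rw [h1]
    calc Ing V Φ b x * ENNReal.ofReal (Real.exp (-Cx Φ b α A (yv V x)))
        ≤ ENNReal.ofReal (Real.exp (Cx Φ b α A (yv V x))) *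
          ENNReal.ofReal (Real.exp (-Cx Φ b α A (yv V x))) := by
          gcongr
          exact hPTW d K V Φ b α A hF hA0 hA x hx
      _ = 1 := by
          rw [← ENNReal.ofReal_mul (Real.exp_pos _).le, ← Real.exp_add, add_neg_cancel,
            Real.exp_zero, ENNReal.ofReal_one]
  calc ENNReal.ofReal (Real.exp (((d:ℝ) + K) - (K:ℝ) / 2 * Real.log (2 * Real.pi)
        - ∑ i, α i * ∫ w, y w i * rho Φ (y w) i i ∂Pw (Ix d K) - ∑ i, A i + EG Φ y / 400))
      = ENNReal.ofReal (Real.exp (∫ w, -Cx Φ b α A (y w) ∂Pw (Ix d K))) := by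
        rw [integral_neg, hval]
        congr 2
        ring
    _ ≤ ∫⁻ w, ENNReal.ofReal (Real.exp (-Cx Φ b α A (y w))) ∂Pw (Ix d K) :=
        jensen _ _ hIC.neg
    _ = ∫⁻ w, h (y w) ∂Pw (Ix d K) := by
        refine lintegral_congr fun w => ?_
        have hO : y w ∈ Orth (Ix d K) := hy.pos w
        simp only [hh, Set.piecewise, if_pos hO]
    _ = ∫⁻ x in Pol V, Ing V Φ b x * h (yv V x) := hlaw.symm
    _ ≤ ∫⁻ x in Pol V, 1 := by
        refine setLIntegral_mono measurable_const fun x hx => hstep x hx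
    _ = volume (Pol V) := by simp

end Pool.LIN
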