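import Pool.Agent.Work.MP_1c7b0d_lin.Interface

/-! Block PA2 of the linear range (row MP_1c7b0d_gt), helper53 -/

set_option autoImplicit false

open MeasureTheory Matrix Pool.LH60 Pool.LH73
open scoped BigOperators

namespace Pool.LIN

namespace PA2

section
variable {ι : Type} [Fintype ι] {K : ℕ}

/-- Parseval for the columns in `G` -/
lemma parseval (Φ : Matrix ι (Fin K) ℝ) (hO : ∀ a b, ∑ i, Φ i a * Φ i b = if a = b then 1 else 0)
    (G : Finset (Fin K)) (c : Fin K → ℝ) :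
    ∑ j, (∑ b ∈ G, c b * Φ j b)^2 = ∑ b ∈ G, (c b)^2 := by
  have h1 : ∀ j, (∑ b ∈ G, c b * Φ j b)^2 = ∑ b ∈ G, ∑ b' ∈ G, c b * c b' * (Φ j b * Φ j b') := by
    intro j
    rw [pow_two, Finset.sum_mul_sum]
    refine Finset.sum_congr rfl fun b _ => Finset.sum_congr rfl fun b' _ => ?_
    ring
  simp only [h1]
  rw [Finset.sum_comm]
  refine Finset.sum_congr rfl fun b hb => ?_
  rw [Finset.sum_comm]
  have h2 : ∀ b' ∈ G, ∑ j, c b * c b' * (Φ j b * Φ j b') = if b = b' then (c b)^2 else 0 := by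
    intro b' _
    rw [← Finset.mul_sum, hO]
    by_cases h : b = b'
    · subst h; simp [pow_two]
    · simp [h]
  rw [Finset.sum_congr rfl h2, Finset.sum_ite_eq, if_pos hb]

/-- projection on the columns in `G`, with weights -/
lemma weighted (Φ : Matrix ι (Fin K) ℝ) (y : ι → ℝ) (e : Fin K → ℝ) (he : ∀ k, 0 < e k)
    (hE : ∀ a b, ∑ i, y i * (Φ i a * Φ i b) = if a = b then e a else 0)
    (G : Finset (Fin K)) (u : ι → ℝ) (t : Fin K → ℝ) (ht : ∀ k, t k = ∑ i, y i * (u i * Φ i k)) :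
    ∑ i, y i * (u i - ∑ k ∈ G, t k / e k * Φ i k)^2 =
      ∑ i, y i * (u i)^2 - ∑ k ∈ G, (t k)^2 / e k := by
  have h1 : ∀ i, y i * (u i - ∑ k ∈ G, t k / e k * Φ i k)^2 = y i * (u i)^2
      - 2 * ∑ k ∈ G, t k / e k * (y i * (u i * Φ i k))
      + ∑ k ∈ G, ∑ k' ∈ G, (t k / e k) * (t k' / e k') * (y i * (Φ i k * Φ i k')) := by
    intro i
    have h2 : (∑ k ∈ G, t k / e k * Φ i k)^2 =
        ∑ k ∈ G, ∑ k' ∈ G, (t k / e k) * (t k' / e k') * (Φ i k * Φ i k') := by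
      rw [pow_two, Finset.sum_mul_sum]
      refine Finset.sum_congr rfl fun b _ => Finset.sum_congr rfl fun b' _ => ?_
      ring
    have h3 : ∑ k ∈ G, t k / e k * (y i * (u i * Φ i k)) =
        y i * u i * ∑ k ∈ G, t k / e k * Φ i k := by
      rw [Finset.mul_sum]
      refine Finset.sum_congr rfl fun k _ => ?_
      ring
    have h4 : ∑ k ∈ G, ∑ k' ∈ G, (t k / e k) * (t k' / e k') * (y i * (Φ i k * Φ i k')) =
        y i * (∑ k ∈ G, t k / e k * Φ i k)^2 := by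
      rw [h2, Finset.mul_sum]
      refine Finset.sum_congr rfl fun k _ => ?_
      rw [Finset.mul_sum]
      refine Finset.sum_congr rfl fun k' _ => ?_
      ring
    rw [h3, h4]
    ring
  simp only [h1]
  rw [Finset.sum_add_distrib, Finset.sum_sub_distrib]
  have h5 : ∑ i, 2 * ∑ k ∈ G, t k / e k * (y i * (u i * Φ i k)) = 2 * ∑ k ∈ G, (t k)^2 / e k := by
    rw [← Finset.mul_sum, Finset.sum_comm]
    congr 1
    refine Finset.sum_congr rfl fun k _ => ?_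
    rw [← Finset.mul_sum, ← ht k]
    ring
  have h6 : ∑ i, ∑ k ∈ G, ∑ k' ∈ G, (t k / e k) * (t k' / e k') * (y i * (Φ i k * Φ i k')) =
      ∑ k ∈ G, (t k)^2 / e k := by
    rw [Finset.sum_comm]
    refine Finset.sum_congr rfl fun k hk => ?_
    rw [Finset.sum_comm]
    have h7 : ∀ k' ∈ G, ∑ i, (t k / e k) * (t k' / e k') * (y i * (Φ i k * Φ i k')) =
        if k = k' then (t k)^2 / e k else 0 := by
      intro k' _
      rw [← Finset.mul_sum, hE]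
      by_cases h : k = k'
      · subst h
        have := (he k).ne'
        rw [if_pos rfl, if_pos rfl]
        field_simp
      · rw [if_neg h, if_neg h, mul_zero]
    rw [Finset.sum_congr rfl h7, Finset.sum_ite_eq, if_pos hk]
  rw [h5, h6]
  ring

/-- `R_i^ab` -/
noncomputable def RR (Φ : Matrix ι (Fin K) ℝ) (y : ι → ℝ) (e : Fin K → ℝ) (a b : Fin K) (i : ι) : ℝ :=
  Φ i a * Φ i b - ∑ k ∈ Gd e, Tt Φ y a b k / e k * Φ i k

noncomputable def X1 (Φ : Matrix ι (Fin K) ℝ) (y : ι → ℝ) (e : Fin K → ℝ) (a : Fin K) (i j : ι) : ℝ :=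
  ∑ b ∈ Gd e, RR Φ y e a b i * Φ j b

noncomputable def X3 (Φ : Matrix ι (Fin K) ℝ) (y : ι → ℝ) (e : Fin K → ℝ) (a : Fin K) (i j : ι) : ℝ :=
  ∑ b ∈ Gd e, (∑ k ∈ Gd e, (Tt Φ y a b k * (1 / e k - 1)) * Φ i k) * Φ j b

lemma Tt_swap (Φ : Matrix ι (Fin K) ℝ) (y : ι → ℝ) (a b k : Fin K) :
    Tt Φ y a b k = Tt Φ y a k b := by
  unfold Tt
  refine Finset.sum_congr rfl fun i _ => ?_
  ring

/-- the identity -/
lemma ident (Φ : Matrix ι (Fin K) ℝ) (y : ι → ℝ) (e : Fin K → ℝ) (a : Fin K) (i j : ι) :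
    kg Φ e i j * (Φ i a - Φ j a) =
      X1 Φ y e a i j - X1 Φ y e a j i + (X3 Φ y e a i j - X3 Φ y e a j i) := by
  set G := Gd e with hG
  have hx1 : ∀ i j, X1 Φ y e a i j = ∑ b ∈ G, Φ i a * (Φ i b * Φ j b) -
      ∑ b ∈ G, ∑ k ∈ G, Tt Φ y a b k / e k * (Φ i k * Φ j b) := by
    intro i j
    unfold X1 RR
    rw [← hG, ← Finset.sum_sub_distrib]
    refine Finset.sum_congr rfl fun b _ => ?_
    rw [sub_mul, Finset.sum_mul]
    congr 1
    · ring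
    · refine Finset.sum_congr rfl fun k _ => ?_
      ring
  have hx3 : ∀ i j, X3 Φ y e a i j = ∑ b ∈ G, ∑ k ∈ G, Tt Φ y a b k / e k * (Φ i k * Φ j b) -
      ∑ b ∈ G, ∑ k ∈ G, Tt Φ y a b k * (Φ i k * Φ j b) := by
    intro i j
    unfold X3
    rw [← hG, ← Finset.sum_sub_distrib]
    refine Finset.sum_congr rfl fun b _ => ?_
    rw [← Finset.sum_sub_distrib, Finset.sum_mul]
    refine Finset.sum_congr rfl fun k _ => ?_
    ring
  have hsym : ∑ b ∈ G, ∑ k ∈ G, Tt Φ y a b k * (Φ i k * Φ j b) =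
      ∑ b ∈ G, ∑ k ∈ G, Tt Φ y a b k * (Φ j k * Φ i b) := by
    rw [Finset.sum_comm]
    refine Finset.sum_congr rfl fun b _ => Finset.sum_congr rfl fun k _ => ?_
    rw [Tt_swap]
    ring
  have hk : kg Φ e i j * (Φ i a - Φ j a) = ∑ b ∈ G, Φ i a * (Φ i b * Φ j b) -
      ∑ b ∈ G, Φ j a * (Φ j b * Φ i b) := by
    unfold kg
    rw [← hG, Finset.sum_mul, ← Finset.sum_sub_distrib]
    refine Finset.sum_congr rfl fun b _ => ?_
    ring
  rw [hx1 i j, hx1 j i, hx3 i j, hx3 j i, hk, hsym]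
  ring

lemma pointwise (Φ : Matrix ι (Fin K) ℝ) (y : ι → ℝ) (e : Fin K → ℝ) (i j : ι) :
    (kg Φ e i j)^2 * dg Φ e i j ≤
      3 * (∑ a ∈ Gd e, (X1 Φ y e a i j)^2) + 3 * (∑ a ∈ Gd e, (X1 Φ y e a j i)^2) +
      6 * (∑ a ∈ Gd e, (X3 Φ y e a i j)^2) + 6 * (∑ a ∈ Gd e, (X3 Φ y e a j i)^2) := by
  unfold dg
  rw [Finset.mul_sum, Finset.mul_sum, Finset.mul_sum, Finset.mul_sum, Finset.mul_sum,
    ← Finset.sum_add_distrib, ← Finset.sum_add_distrib, ← Finset.sum_add_distrib]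
  refine Finset.sum_le_sum fun a _ => ?_
  rw [← mul_pow, ident Φ y e a i j]
  set p := X1 Φ y e a i j
  set q := X1 Φ y e a j i
  set r := X3 Φ y e a i j
  set s := X3 Φ y e a j i
  nlinarith [sq_nonneg (p + q), sq_nonneg (p - (r - s)), sq_nonneg (q + (r - s)), sq_nonneg (r + s)]

lemma sum_X1 (Φ : Matrix ι (Fin K) ℝ) (y : ι → ℝ) (e : Fin K → ℝ) (he : ∀ k, 0 < e k)
    (hO : ∀ a b, ∑ i, Φ i a * Φ i b = if a = b then 1 else 0)
    (hE : ∀ a b, ∑ i, y i * (Φ i a * Φ i b) = if a = b then e a else 0) :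
    ∑ i, ∑ j, y i * ∑ a ∈ Gd e, (X1 Φ y e a i j)^2 = Dg Φ y e := by
  have h1 : ∀ i, ∑ j, y i * ∑ a ∈ Gd e, (X1 Φ y e a i j)^2 =
      ∑ a ∈ Gd e, ∑ b ∈ Gd e, y i * (RR Φ y e a b i)^2 := by
    intro i
    rw [← Finset.mul_sum, Finset.sum_comm, Finset.mul_sum]
    refine Finset.sum_congr rfl fun a _ => ?_
    unfold X1
    rw [parseval Φ hO (Gd e) (fun b => RR Φ y e a b i), Finset.mul_sum]
  simp only [h1]
  unfold Dg
  rw [Finset.sum_comm]
  refine Finset.sum_congr rfl fun a _ => ?_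
  rw [Finset.sum_comm]
  refine Finset.sum_congr rfl fun b _ => ?_
  have h2 := weighted Φ y e he hE (Gd e) (fun i => Φ i a * Φ i b) (fun k => Tt Φ y a b k) (by
    intro k
    unfold Tt
    refine Finset.sum_congr rfl fun i _ => ?_
    ring)
  unfold RR
  rw [h2]
  congr 1
  refine Finset.sum_congr rfl fun i _ => ?_
  ring

lemma sum_X3 (Φ : Matrix ι (Fin K) ℝ) (y : ι → ℝ) (e : Fin K → ℝ)
    (hO : ∀ a b, ∑ i, Φ i a * Φ i b = if a = b then 1 else 0) :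
    ∑ i, ∑ j, ∑ a ∈ Gd e, (X3 Φ y e a i j)^2 =
      ∑ a ∈ Gd e, ∑ b ∈ Gd e, ∑ k ∈ Gd e, (Tt Φ y a b k * (1 / e k - 1))^2 := by
  have h1 : ∀ i, ∑ j, ∑ a ∈ Gd e, (X3 Φ y e a i j)^2 =
      ∑ a ∈ Gd e, ∑ b ∈ Gd e, (∑ k ∈ Gd e, (Tt Φ y a b k * (1 / e k - 1)) * Φ i k)^2 := by
    intro i
    rw [Finset.sum_comm]
    refine Finset.sum_congr rfl fun a _ => ?_
    unfold X3
    exact parseval Φ hO (Gd e) (fun b => ∑ k ∈ Gd e, (Tt Φ y a b k * (1 / e k - 1)) * Φ i k)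
  simp only [h1]
  rw [Finset.sum_comm]
  refine Finset.sum_congr rfl fun a _ => ?_
  rw [Finset.sum_comm]
  refine Finset.sum_congr rfl fun b _ => ?_
  exact parseval Φ hO (Gd e) (fun k => Tt Φ y a b k * (1 / e k - 1))

end

end PA2

theorem PA2_thm (hHUB : Stmt_HUB) : Stmt_PA2 := by
  intro ι _ _ K Φ y e hΦ hy he hD hT
  have hO : ∀ a b, ∑ i, Φ i a * Φ i b = if a = b then 1 else 0 := by
    intro a b
    have h := congrFun (congrFun hΦ a) b
    rw [Matrix.mul_apply, Matrix.one_apply] at h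
    simpa [Matrix.transpose_apply] using h
  have hE : ∀ a b, ∑ i, y i * (Φ i a * Φ i b) = if a = b then e a else 0 := by
    intro a b
    have h := congrFun (congrFun hD a) b
    unfold Dm at h
    rw [Matrix.mul_apply, Matrix.diagonal_apply] at h
    rw [← h]
    refine Finset.sum_congr rfl fun i _ => ?_
    rw [Matrix.mul_diagonal, Matrix.transpose_apply]
    ring
  set w : ι → ℝ := fun i => min (y i) 1 with hw
  have hw0 : ∀ i, 0 ≤ w i := fun i => le_min (hy i).le zero_le_one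
  have hwy : ∀ i, w i ≤ y i := fun i => min_le_left _ _
  have hw1 : ∀ i, w i ≤ 1 := fun i => min_le_right _ _
  -- the four sums
  have s1 : ∑ i, ∑ j, w i * w j * (∑ a ∈ Gd e, (PA2.X1 Φ y e a i j)^2) ≤ Dg Φ y e := by
    rw [← PA2.sum_X1 Φ y e he hO hE]
    refine Finset.sum_le_sum fun i _ => Finset.sum_le_sum fun j _ => ?_
    apply mul_le_mul_of_nonneg_right _ (Finset.sum_nonneg fun a _ => sq_nonneg _)
    calc w i * w j ≤ w i * 1 := mul_le_mul_of_nonneg_left (hw1 j) (hw0 i)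
      _ ≤ y i := by rw [mul_one]; exact hwy i
  have s2 : ∑ i, ∑ j, w i * w j * (∑ a ∈ Gd e, (PA2.X1 Φ y e a j i)^2) ≤ Dg Φ y e := by
    rw [Finset.sum_comm]
    refine le_trans (le_of_eq ?_) s1
    refine Finset.sum_congr rfl fun i _ => Finset.sum_congr rfl fun j _ => ?_
    ring
  have k3 : ∑ i, ∑ j, ∑ a ∈ Gd e, (PA2.X3 Φ y e a i j)^2 ≤ 8 * ∑ k ∈ Gd e, hub (e k - 1) := by
    rw [PA2.sum_X3 Φ y e hO]
    have h1 : ∑ a ∈ Gd e, ∑ b ∈ Gd e, ∑ k ∈ Gd e, (Tt Φ y a b k * (1 / e k - 1))^2 =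
        ∑ k ∈ Gd e, (1 / e k - 1)^2 * ∑ a ∈ Gd e, ∑ b ∈ Gd e, (Tt Φ y a b k)^2 := by
      have h2 : ∀ a ∈ Gd e, ∑ b ∈ Gd e, ∑ k ∈ Gd e, (Tt Φ y a b k * (1 / e k - 1))^2 =
          ∑ k ∈ Gd e, ∑ b ∈ Gd e, (1 / e k - 1)^2 * (Tt Φ y a b k)^2 := by
        intro a _
        rw [Finset.sum_comm]
        refine Finset.sum_congr rfl fun k _ => Finset.sum_congr rfl fun b _ => ?_
        ring
      rw [Finset.sum_congr rfl h2, Finset.sum_comm]
      refine Finset.sum_congr rfl fun k _ => ?_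
      rw [Finset.mul_sum]
      refine Finset.sum_congr rfl fun a _ => ?_
      rw [Finset.mul_sum]
    rw [h1, Finset.mul_sum]
    refine Finset.sum_le_sum fun k hk => ?_
    have hk' : 1/2 ≤ e k ∧ e k ≤ 2 := (Finset.mem_filter.1 hk).2
    have habs : |e k - 1| ≤ 1 := by
      rw [abs_le]; constructor <;> linarith [hk'.1, hk'.2]
    rw [hHUB.2.2.2.2.1 _ habs]
    have hek := he k
    calc (1 / e k - 1)^2 * ∑ a ∈ Gd e, ∑ b ∈ Gd e, (Tt Φ y a b k)^2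
        ≤ (1 / e k - 1)^2 * (2 * e k) := mul_le_mul_of_nonneg_left (hT k) (sq_nonneg _)
      _ = 2 * (e k - 1)^2 / e k := by field_simp; ring
      _ ≤ 8 * ((e k - 1)^2 / 2) := by
        rw [div_le_iff₀ hek]
        nlinarith [sq_nonneg (e k - 1)]
  have s3 : ∑ i, ∑ j, w i * w j * (∑ a ∈ Gd e, (PA2.X3 Φ y e a i j)^2) ≤
      8 * ∑ k ∈ Gd e, hub (e k - 1) := by
    refine le_trans ?_ k3
    refine Finset.sum_le_sum fun i _ => Finset.sum_le_sum fun j _ => ?_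
    have h0 : 0 ≤ ∑ a ∈ Gd e, (PA2.X3 Φ y e a i j)^2 := Finset.sum_nonneg fun a _ => sq_nonneg _
    have h1 : w i * w j ≤ 1 := by
      calc w i * w j ≤ 1 * 1 := mul_le_mul (hw1 i) (hw1 j) (hw0 j) zero_le_one
        _ = 1 := one_mul 1
    calc w i * w j * (∑ a ∈ Gd e, (PA2.X3 Φ y e a i j)^2)
        ≤ 1 * (∑ a ∈ Gd e, (PA2.X3 Φ y e a i j)^2) := mul_le_mul_of_nonneg_right h1 h0
      _ = _ := one_mul _
  have s4 : ∑ i, ∑ j, w i * w j * (∑ a ∈ Gd e, (PA2.X3 Φ y e a j i)^2) ≤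
      8 * ∑ k ∈ Gd e, hub (e k - 1) := by
    rw [Finset.sum_comm]
    refine le_trans (le_of_eq ?_) s3
    refine Finset.sum_congr rfl fun i _ => Finset.sum_congr rfl fun j _ => ?_
    ring
  have key : ∑ i, ∑ j, w i * w j * ((kg Φ e i j)^2 * dg Φ e i j) ≤
      3 * (∑ i, ∑ j, w i * w j * (∑ a ∈ Gd e, (PA2.X1 Φ y e a i j)^2)) +
      3 * (∑ i, ∑ j, w i * w j * (∑ a ∈ Gd e, (PA2.X1 Φ y e a j i)^2)) +
      6 * (∑ i, ∑ j, w i * w j * (∑ a ∈ Gd e, (PA2.X3 Φ y e a i j)^2)) +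
      6 * (∑ i, ∑ j, w i * w j * (∑ a ∈ Gd e, (PA2.X3 Φ y e a j i)^2)) := by
    simp only [Finset.mul_sum (s := (Finset.univ : Finset ι)), ← Finset.sum_add_distrib]
    refine Finset.sum_le_sum fun i _ => Finset.sum_le_sum fun j _ => ?_
    have h1 := mul_le_mul_of_nonneg_left (PA2.pointwise Φ y e i j)
      (mul_nonneg (hw0 i) (hw0 j))
    refine h1.trans (le_of_eq ?_)
    ring
  linarith

end Pool.LIN
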