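import Pool.Agent.Work.MP_1c7b0d_lin.Interface

/-! Block PA3 (helper6). -/

open MeasureTheory Matrix Pool.LH60 Pool.LH73
open scoped BigOperators

namespace Pool.LIN

namespace PA3aux

variable {ι : Type} [Fintype ι] [DecidableEq ι] {K : ℕ}

set_option linter.unusedSectionVars false

lemma orth (Φ : Matrix ι (Fin K) ℝ) (h : Φᵀ * Φ = 1) (k l : Fin K) :
    ∑ j, Φ j k * Φ j l = if k = l then 1 else 0 := by
  have h1 := congrFun (congrFun h k) l
  rw [Matrix.mul_apply, Matrix.one_apply] at h1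
  simpa using h1

lemma sumsq (Φ : Matrix ι (Fin K) ℝ) (h : Φᵀ * Φ = 1) (S : Finset (Fin K)) (i : ι) :
    ∑ j, (∑ k ∈ S, Φ i k * Φ j k)^2 = ∑ k ∈ S, (Φ i k)^2 := by
  calc ∑ j, (∑ k ∈ S, Φ i k * Φ j k)^2
      = ∑ j, ∑ k ∈ S, ∑ l ∈ S, Φ i k * Φ i l * (Φ j k * Φ j l) := by
        refine Finset.sum_congr rfl fun j _ => ?_
        rw [sq, Finset.sum_mul_sum]
        refine Finset.sum_congr rfl fun k _ => Finset.sum_congr rfl fun l _ => by ring
    _ = ∑ k ∈ S, ∑ l ∈ S, Φ i k * Φ i l * ∑ j, Φ j k * Φ j l := by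
        rw [Finset.sum_comm]
        refine Finset.sum_congr rfl fun k _ => ?_
        rw [Finset.sum_comm]
        refine Finset.sum_congr rfl fun l _ => by rw [Finset.mul_sum]
    _ = ∑ k ∈ S, (Φ i k)^2 := by
        refine Finset.sum_congr rfl fun k hk => ?_
        simp_rw [orth Φ h]
        simp [hk, sq]

/-- the bad part of the norm -/
def cb (Φ : Matrix ι (Fin K) ℝ) (S : Finset (Fin K)) (i : ι) : ℝ := ∑ k ∈ S, (Φ i k)^2

lemma cb_le (Φ : Matrix ι (Fin K) ℝ) (S : Finset (Fin K)) (i : ι) : cb Φ S i ≤ cn Φ i := by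
  unfold cb cn
  exact Finset.sum_le_sum_of_subset_of_nonneg (Finset.subset_univ _) (fun _ _ _ => sq_nonneg _)

lemma cb_nonneg (Φ : Matrix ι (Fin K) ℝ) (S : Finset (Fin K)) (i : ι) : 0 ≤ cb Φ S i :=
  Finset.sum_nonneg fun _ _ => sq_nonneg _

lemma cb_sum (Φ : Matrix ι (Fin K) ℝ) (h : Φᵀ * Φ = 1) (S : Finset (Fin K)) :
    ∑ i, cb Φ S i = (S.card : ℝ) := by
  unfold cb
  rw [Finset.sum_comm]
  have : ∀ k ∈ S, ∑ i, (Φ i k)^2 = 1 := by
    intro k _
    have := orth Φ h k k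
    simpa [sq] using this
  rw [Finset.sum_congr rfl this]
  simp

lemma diff_le (Φ : Matrix ι (Fin K) ℝ) (S : Finset (Fin K)) (i j : ι) :
    ∑ k ∈ S, (Φ i k - Φ j k)^2 ≤ 2 * (cb Φ S i + cb Φ S j) := by
  unfold cb
  rw [← Finset.sum_add_distrib, Finset.mul_sum]
  refine Finset.sum_le_sum fun k _ => ?_
  nlinarith [sq_nonneg (Φ i k + Φ j k)]

/-- weighted double sum -/
lemma dbl (M : ι → ι → ℝ) (c r : ι → ℝ) (hs : ∀ i j, M i j = M j i) (hM : ∀ i, ∑ j, M i j = r i) :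
    ∑ i, ∑ j, M i j * (2 * (c i + c j)) = 4 * ∑ i, c i * r i := by
  have h1 : ∑ i, ∑ j, M i j * (2 * (c i + c j))
      = 2 * ∑ i, ∑ j, M i j * c i + 2 * ∑ i, ∑ j, M i j * c j := by
    rw [Finset.mul_sum, Finset.mul_sum, ← Finset.sum_add_distrib]
    refine Finset.sum_congr rfl fun i _ => ?_
    rw [Finset.mul_sum, Finset.mul_sum, ← Finset.sum_add_distrib]
    refine Finset.sum_congr rfl fun j _ => by ring
  have h2 : ∑ i, ∑ j, M i j * c i = ∑ i, c i * r i := by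
    refine Finset.sum_congr rfl fun i _ => ?_
    rw [← Finset.sum_mul, hM i]; ring
  have h3 : ∑ i, ∑ j, M i j * c j = ∑ i, c i * r i := by
    rw [Finset.sum_comm]
    refine Finset.sum_congr rfl fun i _ => ?_
    rw [← Finset.sum_mul, ← hM i]
    simp_rw [fun j => hs j i]
    ring
  rw [h1, h2, h3]; ring

end PA3aux

open PA3aux in
theorem PA3_thm (hDEF1 : Stmt_DEF1) : Stmt_PA3 := by
  intro ι _ _ K Φ y e hΦ hy
  obtain ⟨hrow, -, hc, -, -⟩ := hDEF1 ι K Φ hΦ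
  set B : Finset (Fin K) := Finset.univ.filter (fun k => ¬ (1/2 ≤ e k ∧ e k ≤ 2)) with hB
  have hsplit : ∀ f : Fin K → ℝ, ∑ k, f k = ∑ k ∈ Gd e, f k + ∑ k ∈ B, f k := by
    intro f
    unfold Gd
    rw [hB, Finset.sum_filter_add_sum_filter_not]
  set kb : ι → ι → ℝ := fun i j => ∑ k ∈ B, Φ i k * Φ j k with hkb
  set db : ι → ι → ℝ := fun i j => ∑ k ∈ B, (Φ i k - Φ j k)^2 with hdb
  have hpp : ∀ i j, pp Φ i j = kg Φ e i j + kb i j := by
    intro i j; unfold pp kg; rw [hsplit]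
  have hds : ∀ i j, ds Φ i j = dg Φ e i j + db i j := by
    intro i j; unfold ds dg; rw [hsplit]
  have hdg0 : ∀ i j, 0 ≤ dg Φ e i j := fun i j => Finset.sum_nonneg fun _ _ => sq_nonneg _
  have hdb0 : ∀ i j, 0 ≤ db i j := fun i j => Finset.sum_nonneg fun _ _ => sq_nonneg _
  have hdgle : ∀ i j, dg Φ e i j ≤ 2 * (cn Φ i + cn Φ j) := by
    intro i j
    have h1 := diff_le Φ (Gd e) i j
    have h2 := cb_le Φ (Gd e) i
    have h3 := cb_le Φ (Gd e) j
    unfold dg; linarith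
  have hdble : ∀ i j, db i j ≤ 2 * (cb Φ B i + cb Φ B j) := fun i j => diff_le Φ B i j
  have hw0 : ∀ i j, 0 ≤ min (y i) 1 * min (y j) 1 := by
    intro i j
    have h1 : 0 ≤ min (y i) 1 := le_min (hy i).le zero_le_one
    have h2 : 0 ≤ min (y j) 1 := le_min (hy j).le zero_le_one
    positivity
  have hw1 : ∀ i j, min (y i) 1 * min (y j) 1 ≤ 1 := by
    intro i j
    have h1 : 0 ≤ min (y i) 1 := le_min (hy i).le zero_le_one
    have h2 : 0 ≤ min (y j) 1 := le_min (hy j).le zero_le_one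
    have h3 : min (y i) 1 ≤ 1 := min_le_right _ _
    have h4 : min (y j) 1 ≤ 1 := min_le_right _ _
    nlinarith
  -- pointwise
  have hpt : ∀ i j, min (y i) 1 * min (y j) 1 * ((pp Φ i j)^2 * ds Φ i j)
      ≤ 2 * (min (y i) 1 * min (y j) 1 * ((kg Φ e i j)^2 * dg Φ e i j))
        + (2 * ((kb i j)^2 * (2 * (cn Φ i + cn Φ j)))
            + (pp Φ i j)^2 * (2 * (cb Φ B i + cb Φ B j))) := by
    intro i j
    have hA : (pp Φ i j)^2 * ds Φ i j ≤ 2 * ((kg Φ e i j)^2 * dg Φ e i j)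
        + (2 * ((kb i j)^2 * dg Φ e i j) + (pp Φ i j)^2 * db i j) := by
      rw [hds i j, mul_add]
      have h1 : (pp Φ i j)^2 ≤ 2 * (kg Φ e i j)^2 + 2 * (kb i j)^2 := by
        rw [hpp i j]; nlinarith [sq_nonneg (kg Φ e i j - kb i j)]
      nlinarith [mul_le_mul_of_nonneg_right h1 (hdg0 i j)]
    have hR0 : 0 ≤ 2 * ((kb i j)^2 * dg Φ e i j) + (pp Φ i j)^2 * db i j := by
      have := hdg0 i j
      have := hdb0 i j
      positivity
    have hR1 : 2 * ((kb i j)^2 * dg Φ e i j) + (pp Φ i j)^2 * db i j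
        ≤ 2 * ((kb i j)^2 * (2 * (cn Φ i + cn Φ j)))
            + (pp Φ i j)^2 * (2 * (cb Φ B i + cb Φ B j)) := by
      have h1 := mul_le_mul_of_nonneg_left (hdgle i j) (sq_nonneg (kb i j))
      have h2 := mul_le_mul_of_nonneg_left (hdble i j) (sq_nonneg (pp Φ i j))
      linarith
    have hB1 := mul_le_mul_of_nonneg_left hA (hw0 i j)
    have hB2 : min (y i) 1 * min (y j) 1 * (2 * ((kb i j)^2 * dg Φ e i j) + (pp Φ i j)^2 * db i j)
        ≤ 1 * (2 * ((kb i j)^2 * dg Φ e i j) + (pp Φ i j)^2 * db i j) :=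
      mul_le_mul_of_nonneg_right (hw1 i j) hR0
    calc _ ≤ _ := hB1
      _ = 2 * (min (y i) 1 * min (y j) 1 * ((kg Φ e i j)^2 * dg Φ e i j))
          + min (y i) 1 * min (y j) 1 *
            (2 * ((kb i j)^2 * dg Φ e i j) + (pp Φ i j)^2 * db i j) := by ring
      _ ≤ _ := by linarith
  have hsum := Finset.sum_le_sum fun i (_ : i ∈ (Finset.univ : Finset ι)) =>
    Finset.sum_le_sum fun j (_ : j ∈ (Finset.univ : Finset ι)) => hpt i j
  have hkbs : ∀ i j, (kb i j)^2 = (kb j i)^2 := by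
    intro i j
    have : kb i j = kb j i := by
      simp only [hkb]
      exact Finset.sum_congr rfl fun k _ => mul_comm _ _
    rw [this]
  have hpps : ∀ i j, (pp Φ i j)^2 = (pp Φ j i)^2 := by
    intro i j
    have : pp Φ i j = pp Φ j i := by
      unfold pp
      exact Finset.sum_congr rfl fun k _ => mul_comm _ _
    rw [this]
  have e1 := dbl (fun i j => (kb i j)^2) (fun i => cn Φ i) (fun i => cb Φ B i) hkbs
    (fun i => sumsq Φ hΦ B i)
  have e2 := dbl (fun i j => (pp Φ i j)^2) (fun i => cb Φ B i) (fun i => cn Φ i) hpps hrow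
  have hcb : ∑ i, cn Φ i * cb Φ B i ≤ (Bd e : ℝ) := by
    have h1 : ∑ i, cn Φ i * cb Φ B i ≤ ∑ i, cb Φ B i := by
      refine Finset.sum_le_sum fun i _ => ?_
      have := (hc i).2
      have h0 := cb_nonneg Φ B i
      nlinarith
    rw [cb_sum Φ hΦ B] at h1
    exact h1
  have hcb' : ∑ i, cb Φ B i * cn Φ i ≤ (Bd e : ℝ) := by
    refine le_trans (le_of_eq ?_) hcb
    exact Finset.sum_congr rfl fun i _ => mul_comm _ _
  have hsplit2 : ∑ i, ∑ j, (2 * (min (y i) 1 * min (y j) 1 * ((kg Φ e i j)^2 * dg Φ e i j))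
        + (2 * ((kb i j)^2 * (2 * (cn Φ i + cn Φ j)))
            + (pp Φ i j)^2 * (2 * (cb Φ B i + cb Φ B j))))
      = 2 * ∑ i, ∑ j, min (y i) 1 * min (y j) 1 * ((kg Φ e i j)^2 * dg Φ e i j)
        + (2 * ∑ i, ∑ j, (kb i j)^2 * (2 * (cn Φ i + cn Φ j))
          + ∑ i, ∑ j, (pp Φ i j)^2 * (2 * (cb Φ B i + cb Φ B j))) := by
    simp only [Finset.sum_add_distrib, Finset.mul_sum]
  rw [hsplit2] at hsum
  unfold Pt
  have : (∑ i, ∑ j, min (y i) 1 * min (y j) 1 * ((pp Φ i j)^2 * ds Φ i j)) / 2 * 2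
      = ∑ i, ∑ j, min (y i) 1 * min (y j) 1 * ((pp Φ i j)^2 * ds Φ i j) := by ring
  linarith

end Pool.LIN
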