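import Pool.Agent.Work.MP_1c7b0d_lin.Interface

/-! Block PAIR (helper6). -/

open MeasureTheory Matrix Pool.LH60 Pool.LH73
open scoped BigOperators

namespace Pool.LIN

namespace PAIRaux

variable {ι : Type} [Fintype ι] [DecidableEq ι] {K : ℕ}

set_option linter.unusedSectionVars false

lemma pp_eq (Φ : Matrix ι (Fin K) ℝ) (i j : ι) : pp Φ i j = (Φ * Φᵀ) i j := by
  unfold pp; rw [Matrix.mul_apply]; rfl

lemma pp_rot (Φ : Matrix ι (Fin K) ℝ) (Q : Matrix (Fin K) (Fin K) ℝ) (hQ : Q * Qᵀ = 1) (i j : ι) :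
    pp (Φ * Q) i j = pp Φ i j := by
  rw [pp_eq, pp_eq, Matrix.transpose_mul]
  have : Φ * Q * (Qᵀ * Φᵀ) = Φ * Φᵀ := by
    calc Φ * Q * (Qᵀ * Φᵀ) = Φ * (Q * Qᵀ) * Φᵀ := by simp only [Matrix.mul_assoc]
      _ = Φ * Φᵀ := by rw [hQ, Matrix.mul_one]
  rw [this]

lemma ds_eq (Φ : Matrix ι (Fin K) ℝ) (i j : ι) :
    ds Φ i j = pp Φ i i + pp Φ j j - 2 * pp Φ i j := by
  unfold ds pp
  rw [Finset.mul_sum, ← Finset.sum_add_distrib, ← Finset.sum_sub_distrib]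
  exact Finset.sum_congr rfl fun k _ => by ring

lemma ds_rot (Φ : Matrix ι (Fin K) ℝ) (Q : Matrix (Fin K) (Fin K) ℝ) (hQ : Q * Qᵀ = 1) (i j : ι) :
    ds (Φ * Q) i j = ds Φ i j := by
  rw [ds_eq, ds_eq]
  simp only [pp_rot Φ Q hQ]

lemma Dm_rot (Φ : Matrix ι (Fin K) ℝ) (y : ι → ℝ) (Q : Matrix (Fin K) (Fin K) ℝ) :
    Dm (Φ * Q) y = Qᵀ * Dm Φ y * Q := by
  unfold Dm
  rw [Matrix.transpose_mul]
  simp only [Matrix.mul_assoc]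

lemma rho_rot (Φ : Matrix ι (Fin K) ℝ) (y : ι → ℝ) (Q : Matrix (Fin K) (Fin K) ℝ)
    (hQ : Q * Qᵀ = 1) : rho (Φ * Q) y = rho Φ y := by
  have hQ' : Qᵀ * Q = 1 := mul_eq_one_comm.mp hQ
  have i1 : Q⁻¹ = Qᵀ := Matrix.inv_eq_right_inv hQ
  have i2 : (Qᵀ)⁻¹ = Q := Matrix.inv_eq_right_inv hQ'
  unfold rho
  rw [Dm_rot, Matrix.mul_inv_rev, Matrix.mul_inv_rev, i1, i2, Matrix.transpose_mul]
  calc Φ * Q * (Qᵀ * ((Dm Φ y)⁻¹ * Q)) * (Qᵀ * Φᵀ)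
      = Φ * (Q * Qᵀ) * (Dm Φ y)⁻¹ * (Q * Qᵀ) * Φᵀ := by simp only [Matrix.mul_assoc]
    _ = Φ * (Dm Φ y)⁻¹ * Φᵀ := by rw [hQ, Matrix.mul_one, Matrix.mul_one]

lemma DT_rot (Φ : Matrix ι (Fin K) ℝ) (y : ι → ℝ) (Q : Matrix (Fin K) (Fin K) ℝ)
    (hQ : Q * Qᵀ = 1) : DT (Φ * Q) y = DT Φ y := by
  unfold DT TMd Tm
  simp only [rho_rot Φ y Q hQ, pp_rot Φ Q hQ]

lemma Pt_rot (Φ : Matrix ι (Fin K) ℝ) (y : ι → ℝ) (Q : Matrix (Fin K) (Fin K) ℝ)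
    (hQ : Q * Qᵀ = 1) : Pt (Φ * Q) y = Pt Φ y := by
  unfold Pt
  simp only [ds_rot Φ Q hQ, pp_rot Φ Q hQ]

end PAIRaux

open PAIRaux in
theorem PAIR_thm (hPA1 : Stmt_PA1) (hPA2 : Stmt_PA2) (hPA3 : Stmt_PA3) (hGGE : Stmt_GGE)
    (hEIGX : Stmt_EIGX) (hPDG : Stmt_PDG) (hHUB : Stmt_HUB) : Stmt_PAIR := by
  intro ι _ _ K Φ y hΦ hy
  obtain ⟨hub0, -, -, -, hubs, hubl, -, -, -, -⟩ := hHUB
  have hPD := hPDG ι K Φ y hΦ hy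
  obtain ⟨e, Q, hE⟩ := hEIGX K _ hPD
  have hQ' : Qᵀ * Q = 1 := hE.orth
  have hQ : Q * Qᵀ = 1 := mul_eq_one_comm.mp hQ'
  have hΦ' : (Φ * Q)ᵀ * (Φ * Q) = 1 := by
    rw [Matrix.transpose_mul]
    calc Qᵀ * Φᵀ * (Φ * Q) = Qᵀ * (Φᵀ * Φ) * Q := by simp only [Matrix.mul_assoc]
      _ = 1 := by rw [hΦ, Matrix.mul_one, hQ']
  have hD : Dm (Φ * Q) y = Matrix.diagonal e := by
    rw [Dm_rot, hE.eq]
    calc Qᵀ * (Q * Matrix.diagonal e * Qᵀ) * Q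
        = (Qᵀ * Q) * Matrix.diagonal e * (Qᵀ * Q) := by simp only [Matrix.mul_assoc]
      _ = Matrix.diagonal e := by rw [hQ', Matrix.one_mul, Matrix.mul_one]
  have hGG := hGGE K (Dm Φ y) e Q hE
  obtain ⟨h1, h1'⟩ := hPA1 ι K (Φ * Q) y e hΦ' hy hE.pos hD
  have h2 := hPA2 ι K (Φ * Q) y e hΦ' hy hE.pos hD h1'
  have h3 := hPA3 ι K (Φ * Q) y e hΦ' hy
  rw [DT_rot Φ y Q hQ] at h1
  rw [Pt_rot Φ y Q hQ] at h3
  set B : Finset (Fin K) := Finset.univ.filter (fun k => ¬ (1/2 ≤ e k ∧ e k ≤ 2)) with hB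
  have hsplit : ∑ k, hub (e k - 1)
      = ∑ k ∈ Gd e, hub (e k - 1) + ∑ k ∈ B, hub (e k - 1) := by
    unfold Gd
    rw [hB, Finset.sum_filter_add_sum_filter_not]
  have hbad : (Bd e : ℝ) ≤ 8 * ∑ k ∈ B, hub (e k - 1) := by
    have hcard : (Bd e : ℝ) = ∑ k ∈ B, (1:ℝ) := by
      unfold Bd; rw [← hB]; simp
    rw [hcard, Finset.mul_sum]
    refine Finset.sum_le_sum fun k hk => ?_
    have hk' : ¬ (1/2 ≤ e k ∧ e k ≤ 2) := (Finset.mem_filter.mp hk).2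
    have hp := hE.pos k
    by_cases hlt : e k < 1/2
    · have ha : |e k - 1| ≤ 1 := by rw [abs_le]; constructor <;> linarith
      rw [hubs _ ha]
      nlinarith
    · have hgt : 2 < e k := by
        by_contra hcon
        exact hk' ⟨not_lt.mp hlt, not_lt.mp hcon⟩
      have ha : 1 ≤ |e k - 1| := by
        rw [le_abs]; left; linarith
      rw [hubl _ ha, abs_of_pos (by linarith)]
      linarith
  have hg0 : 0 ≤ ∑ k ∈ Gd e, hub (e k - 1) := Finset.sum_nonneg fun _ _ => hub0 _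
  have hb0 : 0 ≤ ∑ k ∈ B, hub (e k - 1) := Finset.sum_nonneg fun _ _ => hub0 _
  rw [hGG, hsplit]
  linarith

end Pool.LIN
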