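import Pool.Agent.Work.MP_1c7b0d_lin.Interface

open MeasureTheory Matrix Pool.LH60 Pool.LH73
open scoped BigOperators

namespace Pool.LIN

theorem PDG_thm : Stmt_PDG := by
  intro ι _ _ K Φ y hΦ hy
  have h1 : (Matrix.diagonal y).PosDef := Matrix.PosDef.diagonal hy
  have hinj : Function.Injective Φ.mulVec := by
    intro a b hab
    have : Φᵀ.mulVec (Φ.mulVec a) = Φᵀ.mulVec (Φ.mulVec b) := by rw [hab]
    simpa [Matrix.mulVec_mulVec, hΦ] using this
  have h2 := h1.conjTranspose_mul_mul_same hinj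
  rw [Matrix.conjTranspose_eq_transpose_of_trivial] at h2
  exact h2

end Pool.LIN
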