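import Pool.Agent.Work.MP_1c7b0d_lin.Interface
set_option autoImplicit false

/-! Block PEF: Peierls' inequality for the rows of `Φ` -/

open MeasureTheory Matrix Pool.LH60 Pool.LH73
open scoped BigOperators

namespace Pool.LIN

theorem PEF_thm (hPEI : Stmt_PEI) (hEIGX : Stmt_EIGX) (hPDG : Stmt_PDG) : Stmt_PEF := by
  intro ι _ _ K Φ y hΦ hy
  obtain ⟨e, Q, hQ⟩ := hEIGX K (Dm Φ y) (hPDG ι K Φ y hΦ hy)
  have h := hPEI ι K (Dm Φ y) e Q Φ 1 hQ ?_
  · rw [one_mul] at h
    refine le_of_eq_of_le (Finset.sum_congr rfl fun i _ => ?_) h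
    have h1 : ∑ a, ∑ b, Φ i a * Dm Φ y a b * Φ i b = ∑ j, (pp Φ i j)^2 * y j := by
      have hD : ∀ a b, Dm Φ y a b = ∑ j, Φ j a * y j * Φ j b := by
        intro a b
        simp [Dm, Matrix.mul_apply, Matrix.transpose_apply, Matrix.diagonal_apply]
      calc ∑ a, ∑ b, Φ i a * Dm Φ y a b * Φ i b
          = ∑ a, ∑ b, ∑ j, (Φ i a * Φ j a) * (Φ i b * Φ j b) * y j := by
            refine Finset.sum_congr rfl fun a _ => Finset.sum_congr rfl fun b _ => ?_
            rw [hD, Finset.mul_sum, Finset.sum_mul]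
            exact Finset.sum_congr rfl fun j _ => by ring
        _ = ∑ j, ∑ a, ∑ b, (Φ i a * Φ j a) * (Φ i b * Φ j b) * y j := by
            rw [Finset.sum_congr rfl fun a _ => Finset.sum_comm]
            rw [Finset.sum_comm]
        _ = ∑ j, (pp Φ i j)^2 * y j := by
            refine Finset.sum_congr rfl fun j _ => ?_
            rw [pp, sq, Finset.sum_mul_sum, Finset.sum_mul]
            exact Finset.sum_congr rfl fun a _ => by rw [Finset.sum_mul]
    rw [h1]
    rfl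
  · intro x
    have h2 : ∑ l, (∑ a, Φ l a * x a)^2 = (Φ *ᵥ x) ⬝ᵥ (Φ *ᵥ x) := by
      simp only [dotProduct, Matrix.mulVec, sq]
    have h3 : (Φ *ᵥ x) ⬝ᵥ (Φ *ᵥ x) = x ⬝ᵥ x := by
      rw [Matrix.dotProduct_mulVec, ← Matrix.mulVec_transpose, Matrix.mulVec_mulVec, hΦ,
        Matrix.one_mulVec]
    rw [h2, h3, one_mul]
    simp only [dotProduct, sq]
    exact le_refl _

end Pool.LIN
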