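import Pool.Agent.Work.MP_1c7b0d_lin.Interface

open MeasureTheory Matrix Pool.LH60 Pool.LH73
open scoped BigOperators

namespace Pool.LIN

theorem PEI_thm (hGGE : Stmt_GGE) (hHUB : Stmt_HUB) : Stmt_PEI := by
  intro ι _ K D e Q u c hE hu
  obtain ⟨hub0, -, hconv, -, -, -, -, -, -, -⟩ := hHUB
  rw [hGGE K D e Q hE]
  have hQQ : Q * Qᵀ = 1 := mul_eq_one_comm.mp hE.orth
  have hQtQ : Qᵀ * Q = 1 := hE.orth
  set w : ι → Fin K → ℝ := fun l k => ∑ a, u l a * Q a k with hw
  have hnorm : ∀ l, ∑ k, (w l k)^2 = ∑ a, (u l a)^2 := by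
    intro l
    have h1 : ∀ k, (w l k)^2 = ∑ a, ∑ b, u l a * u l b * (Q a k * Q b k) := by
      intro k
      simp only [hw]
      rw [sq, Finset.sum_mul_sum]
      refine Finset.sum_congr rfl fun a _ => Finset.sum_congr rfl fun b _ => ?_
      ring
    calc ∑ k, (w l k)^2 = ∑ k, ∑ a, ∑ b, u l a * u l b * (Q a k * Q b k) :=
          Finset.sum_congr rfl fun k _ => h1 k
      _ = ∑ a, ∑ b, u l a * u l b * ∑ k, (Q a k * Q b k) := by
          rw [Finset.sum_comm]
          refine Finset.sum_congr rfl fun a _ => ?_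
          rw [Finset.sum_comm]
          refine Finset.sum_congr rfl fun b _ => ?_
          rw [Finset.mul_sum]
      _ = ∑ a, ∑ b, u l a * u l b * (1 : Matrix (Fin K) (Fin K) ℝ) a b := by
          refine Finset.sum_congr rfl fun a _ => Finset.sum_congr rfl fun b _ => ?_
          rw [← hQQ, Matrix.mul_apply]
          rfl
      _ = ∑ a, (u l a)^2 := by
          refine Finset.sum_congr rfl fun a _ => ?_
          simp [Matrix.one_apply, sq]
  have hquad : ∀ l, ∑ a, ∑ b, u l a * D a b * u l b = ∑ k, (w l k)^2 * e k := by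
    intro l
    have hD : ∀ a b, D a b = ∑ k, Q a k * e k * Q b k := by
      intro a b
      rw [hE.eq, Matrix.mul_apply]
      refine Finset.sum_congr rfl fun k _ => ?_
      rw [Matrix.mul_diagonal, Matrix.transpose_apply]
    calc ∑ a, ∑ b, u l a * D a b * u l b
        = ∑ a, ∑ b, ∑ k, (u l a * Q a k) * (u l b * Q b k) * e k := by
          refine Finset.sum_congr rfl fun a _ => Finset.sum_congr rfl fun b _ => ?_
          rw [hD, Finset.mul_sum, Finset.sum_mul]
          refine Finset.sum_congr rfl fun k _ => ?_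
          ring
      _ = ∑ k, ∑ a, ∑ b, (u l a * Q a k) * (u l b * Q b k) * e k := by
          rw [Finset.sum_comm]
          have h2 : ∀ b, ∑ a, ∑ k, (u l a * Q a k) * (u l b * Q b k) * e k
              = ∑ k, ∑ a, (u l a * Q a k) * (u l b * Q b k) * e k :=
            fun b => Finset.sum_comm
          simp_rw [h2]
          rw [Finset.sum_comm]
          refine Finset.sum_congr rfl fun k _ => ?_
          rw [Finset.sum_comm]
      _ = ∑ k, (w l k)^2 * e k := by
          refine Finset.sum_congr rfl fun k _ => ?_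
          simp only [hw]
          rw [sq, Finset.sum_mul_sum, Finset.sum_mul]
          refine Finset.sum_congr rfl fun a _ => ?_
          rw [Finset.sum_mul]
  have hl : ∀ l, (∑ a, (u l a)^2) *
      hub ((∑ a, ∑ b, u l a * D a b * u l b) / (∑ a, (u l a)^2) - 1)
      ≤ ∑ k, (w l k)^2 * hub (e k - 1) := by
    intro l
    have hs0 : 0 ≤ ∑ a, (u l a)^2 := Finset.sum_nonneg fun a _ => sq_nonneg _
    rcases hs0.eq_or_lt with h | h
    · rw [← h, zero_mul]
      exact Finset.sum_nonneg fun k _ => mul_nonneg (sq_nonneg _) (hub0 _)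
    · set s := ∑ a, (u l a)^2 with hs
      have hsum : ∑ k, (w l k)^2 / s = 1 := by
        rw [← Finset.sum_div, hnorm l, div_self h.ne']
      have hJ := hconv.map_sum_le (t := Finset.univ) (w := fun k => (w l k)^2 / s)
        (p := fun k => e k - 1) (fun k _ => div_nonneg (sq_nonneg _) h.le) hsum
        (fun k _ => Set.mem_univ _)
      simp only [smul_eq_mul] at hJ
      have harg : ∑ k, (w l k)^2 / s * (e k - 1)
          = (∑ a, ∑ b, u l a * D a b * u l b) / s - 1 := by
        rw [hquad l]
        have : ∀ k, (w l k)^2 / s * (e k - 1) = (w l k)^2 * e k / s - (w l k)^2 / s := by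
          intro k; ring
        simp_rw [this]
        rw [Finset.sum_sub_distrib, hsum, ← Finset.sum_div]
      rw [harg] at hJ
      calc s * hub ((∑ a, ∑ b, u l a * D a b * u l b) / s - 1)
          ≤ s * ∑ k, (w l k)^2 / s * hub (e k - 1) := mul_le_mul_of_nonneg_left hJ h.le
        _ = ∑ k, (w l k)^2 * hub (e k - 1) := by
          rw [Finset.mul_sum]
          refine Finset.sum_congr rfl fun k _ => ?_
          field_simp
  calc ∑ l, (∑ a, (u l a)^2) *
        hub ((∑ a, ∑ b, u l a * D a b * u l b) / (∑ a, (u l a)^2) - 1)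
      ≤ ∑ l, ∑ k, (w l k)^2 * hub (e k - 1) := Finset.sum_le_sum fun l _ => hl l
    _ = ∑ k, (∑ l, (w l k)^2) * hub (e k - 1) := by
        rw [Finset.sum_comm]
        refine Finset.sum_congr rfl fun k _ => ?_
        rw [Finset.sum_mul]
    _ ≤ ∑ k, c * hub (e k - 1) := by
        refine Finset.sum_le_sum fun k _ => mul_le_mul_of_nonneg_right ?_ (hub0 _)
        have h1 := hu (fun a => Q a k)
        have h2 : ∑ a, (Q a k)^2 = 1 := by
          have := congrFun (congrFun hQtQ k) k
          rw [Matrix.mul_apply] at this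
          simp only [Matrix.transpose_apply, Matrix.one_apply_eq] at this
          rw [← this]
          exact Finset.sum_congr rfl fun a _ => sq _
        rw [h2, mul_one] at h1
        exact h1
    _ = c * ∑ k, hub (e k - 1) := by rw [Finset.mul_sum]

end Pool.LIN
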