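import Pool.Agent.Work.MP_1c7b0d_lin.Interface

/-! Block POI1: Poincaré inequality for the exponential distribution, one variable.
helper89 -/

open MeasureTheory Matrix Pool.LH60 Pool.LH73
open Set Filter Topology
open scoped BigOperators

namespace Pool.LIN

namespace POI1aux

lemma e1_integral (g : ℝ → ℝ) : ∫ x, g x ∂e1 = ∫ x in Ioi (0:ℝ), Real.exp (-x) * g x := by
  unfold e1
  rw [integral_withDensity_eq_integral_toReal_smul (by fun_prop)
    (Eventually.of_forall fun x => ENNReal.ofReal_lt_top)]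
  refine integral_congr_ae (Eventually.of_forall fun x => ?_)
  simp only [smul_eq_mul]
  rw [ENNReal.toReal_ofReal (Real.exp_pos _).le]

lemma intOn (g : ℝ → ℝ) (C : ℝ) (hm : Measurable g) (hb : ∀ x, 0 < x → |g x| ≤ C) :
    IntegrableOn (fun x => Real.exp (-x) * g x) (Ioi (0:ℝ)) := by
  have h1 : IntegrableOn (fun x : ℝ => Real.exp (-x)) (Ioi 0) :=
    exp_neg_integrableOn_Ioi 0 one_pos |>.congr (by simp)
  refine Integrable.mono' (h1.mul_const C) (by fun_prop) ?_
  rw [ae_restrict_iff' measurableSet_Ioi]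
  refine Eventually.of_forall fun x hx => ?_
  rw [norm_mul, Real.norm_eq_abs, Real.norm_eq_abs, abs_of_pos (Real.exp_pos _)]
  exact mul_le_mul_of_nonneg_left (hb x hx) (Real.exp_pos _).le

lemma alg (r x A B : ℝ) (hr : 0 < r) (hr1 : r ≠ 1) (hx : x = r^2 / 2) :
    (1/2) * ((1 - x) * A^2 / (r - 1) + 2 * x * A * B / (r - 1) - x * A^2 / (r-1)^2 / r)
      ≤ (x * B)^2 - A^2 / 4 := by
  have h1 : r - 1 ≠ 0 := sub_ne_zero.mpr hr1
  have h2 : (x * B)^2 - A^2 / 4 -
      (1/2) * ((1 - x) * A^2 / (r - 1) + 2 * x * A * B / (r - 1) - x * A^2 / (r-1)^2 / r)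
      = (x * B - A / (2 * (r - 1)))^2 + A^2 * r / 4 := by
    subst hx
    field_simp
    ring
  have h3 : 0 ≤ (x * B - A / (2 * (r - 1)))^2 + A^2 * r / 4 := by positivity
  linarith

end POI1aux

open POI1aux

theorem POI1_thm : Stmt_POI1 := by
  intro f f' hf hf' hC hd
  obtain ⟨C, hC⟩ := hC
  have hC0 : 0 ≤ C := le_trans (abs_nonneg _) (hC 1 one_pos).1
  set c : ℝ := f (1/2) with hc
  set G : ℝ → ℝ := fun x => (1/2) * (x * Real.exp (-x) * (f x - c)^2 / (Real.sqrt (2*x) - 1))
    with hG
  set φ : ℝ → ℝ := fun x => Real.exp (-x) * ((x * f' x)^2 - (f x - c)^2 / 4) with hφ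
  have hG12 : G (1/2) = 0 := by
    simp [hG, hc]
  have hG0 : G 0 = 0 := by
    simp [hG]
  -- derivative
  have hder : ∀ x, 0 < x → x ≠ 1/2 → ∃ g', HasDerivAt G g' x ∧ g' ≤ φ x := by
    intro x hx hx2
    have h2x : (0:ℝ) < 2 * x := by linarith
    have hr : 0 < Real.sqrt (2*x) := Real.sqrt_pos.mpr h2x
    have hrr : Real.sqrt (2*x) ^ 2 = 2 * x := Real.sq_sqrt h2x.le
    have hr1 : Real.sqrt (2*x) ≠ 1 := by
      intro h
      rw [h] at hrr
      apply hx2; linarith
    have hs : HasDerivAt (fun t : ℝ => Real.sqrt (2*t)) (2 / (2 * Real.sqrt (2*x))) x := by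
      have h1 : HasDerivAt (fun t : ℝ => 2 * t) 2 x := by
        simpa using (hasDerivAt_id x).const_mul 2
      exact h1.sqrt h2x.ne'
    have he : HasDerivAt (fun t : ℝ => Real.exp (-t)) (-Real.exp (-x)) x := by
      have := (hasDerivAt_neg x).exp
      simpa using this
    have hfx := (hd x hx).sub_const c
    have hN : HasDerivAt (fun t => t * Real.exp (-t) * (f t - c)^2)
        ((1 * Real.exp (-x) + x * (-Real.exp (-x))) * (f x - c)^2
          + x * Real.exp (-x) * (2 * (f x - c) * f' x)) x := by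
      have h1 := ((hasDerivAt_id x).mul he).mul (hfx.pow 2)
      refine h1.congr_deriv ?_
      simp
    have hq := (hN.div (hs.sub_const 1) (sub_ne_zero.mpr hr1)).const_mul (1/2)
    refine ⟨_, hq, ?_⟩
    have key := alg (Real.sqrt (2*x)) x (f x - c) (f' x) hr hr1 (by rw [hrr]; ring)
    have hE := Real.exp_pos (-x)
    have h1 : Real.sqrt (2*x) - 1 ≠ 0 := sub_ne_zero.mpr hr1
    have : (1/2) * ((((1 * Real.exp (-x) + x * (-Real.exp (-x))) * (f x - c)^2
          + x * Real.exp (-x) * (2 * (f x - c) * f' x)) * (Real.sqrt (2*x) - 1)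
          - x * Real.exp (-x) * (f x - c)^2 * (2 / (2 * Real.sqrt (2*x))))
          / (Real.sqrt (2*x) - 1)^2)
        = Real.exp (-x) * ((1/2) * ((1 - x) * (f x - c)^2 / (Real.sqrt (2*x) - 1)
          + 2 * x * (f x - c) * f' x / (Real.sqrt (2*x) - 1)
          - x * (f x - c)^2 / (Real.sqrt (2*x)-1)^2 / Real.sqrt (2*x))) := by
      field_simp
      ring
    calc _ = _ := this
      _ ≤ _ := by
        simp only [hφ]
        exact mul_le_mul_of_nonneg_left key hE.le
  -- continuity at positive points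
  have hcont : ∀ x, 0 < x → ContinuousAt G x := by
    intro x hx
    by_cases hx2 : x = 1/2
    · subst hx2
      rw [← continuousWithinAt_compl_self]
      unfold ContinuousWithinAt
      rw [hG12]
      have hsl : Tendsto (fun y => slope f (1/2) y) (𝓝[≠] (1/2:ℝ)) (𝓝 (f' (1/2))) :=
        (hasDerivAt_iff_tendsto_slope.mp (hd (1/2) hx))
      have hcf : ContinuousAt f (1/2) := (hd (1/2) hx).continuousAt
      have hFt : Tendsto (fun y : ℝ => (1/2) * (y * Real.exp (-y)) * (f y - c) *
          ((Real.sqrt (2*y) + 1) / 2)) (𝓝[≠] (1/2:ℝ)) (𝓝 0) := by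
        have : ContinuousAt (fun y : ℝ => (1/2) * (y * Real.exp (-y)) * (f y - c) *
          ((Real.sqrt (2*y) + 1) / 2)) (1/2) := by fun_prop
        have h2 := this.tendsto
        have h3 : (1/2:ℝ) * ((1/2) * Real.exp (-(1/2))) * (f (1/2) - c) *
          ((Real.sqrt (2*(1/2)) + 1) / 2) = 0 := by
          rw [hc]; ring
        rw [h3] at h2
        exact h2.mono_left nhdsWithin_le_nhds
      have hmul := hFt.mul hsl
      rw [zero_mul] at hmul
      refine hmul.congr' ?_
      have hpos : ∀ᶠ y in 𝓝[≠] (1/2:ℝ), 0 < y :=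
        nhdsWithin_le_nhds (lt_mem_nhds hx)
      filter_upwards [self_mem_nhdsWithin, hpos] with y hy hy0
      have hy' : y ≠ 1/2 := hy
      have hrr : Real.sqrt (2*y) ^ 2 = 2 * y := Real.sq_sqrt (by linarith)
      have hr1 : Real.sqrt (2*y) - 1 ≠ 0 := by
        intro h
        apply hy'
        have : Real.sqrt (2*y) = 1 := by linarith
        rw [this] at hrr; linarith
      have hr2 : Real.sqrt (2*y) + 1 ≠ 0 := by
        have := Real.sqrt_nonneg (2*y)
        linarith
      have hy2 : y - 1/2 = (Real.sqrt (2*y) - 1) * (Real.sqrt (2*y) + 1) / 2 := by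
        have : (Real.sqrt (2*y) - 1) * (Real.sqrt (2*y) + 1) = Real.sqrt (2*y) ^ 2 - 1 := by ring
        rw [this, hrr]; ring
      rw [slope_def_field, hy2, ← hc]
      simp only [hG]
      field_simp
    · obtain ⟨g', hg', _⟩ := hder x hx hx2
      exact hg'.continuousAt
  -- continuity at 0 from the right
  have hcont0 : ContinuousWithinAt G (Ici 0) 0 := by
    unfold ContinuousWithinAt
    rw [hG0]
    have hb : ∀ᶠ x in 𝓝[≥] (0:ℝ), ‖G x‖ ≤ x * (2*C)^2 := by
      have h8 : ∀ᶠ x in 𝓝[≥] (0:ℝ), x < 1/8 :=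
        nhdsWithin_le_nhds (gt_mem_nhds (by norm_num))
      filter_upwards [self_mem_nhdsWithin, h8] with x hx0 hx8
      rcases (show (0:ℝ) ≤ x from hx0).eq_or_lt with h | h
      · rw [← h, hG0]; simp
      · have hs : Real.sqrt (2*x) ≤ 1/2 := by
          rw [Real.sqrt_le_left (by norm_num)]
          nlinarith
        have hF : |f x - c| ≤ 2 * C := by
          have h1 := (hC x h).1
          have h2 := (hC (1/2) (by norm_num)).1
          calc |f x - c| ≤ |f x| + |c| := abs_sub _ _
            _ ≤ 2 * C := by rw [hc]; linarith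
        have hF2 : (f x - c)^2 ≤ (2*C)^2 := by
          rw [← sq_abs]
          exact pow_le_pow_left₀ (abs_nonneg _) hF 2
        have hd1 : 1/2 ≤ |Real.sqrt (2*x) - 1| := by
          rw [abs_of_nonpos (by linarith)]; linarith
        have hE1 : Real.exp (-x) ≤ 1 := Real.exp_le_one_iff.mpr (by linarith)
        have hE := Real.exp_pos (-x)
        simp only [hG]
        rw [Real.norm_eq_abs, abs_mul, abs_of_pos (by norm_num : (0:ℝ) < 1/2), abs_div]
        have hn : |x * Real.exp (-x) * (f x - c)^2| ≤ x * (2*C)^2 := by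
          rw [abs_of_nonneg (by positivity)]
          calc x * Real.exp (-x) * (f x - c)^2 ≤ x * 1 * (2*C)^2 := by gcongr
            _ = _ := by ring
        have hd0 : 0 < |Real.sqrt (2*x) - 1| := by linarith
        rw [← le_div_iff₀' (by norm_num : (0:ℝ) < 1/2), div_le_iff₀ hd0]
        have : x * (2*C)^2 ≤ x * (2*C)^2 / (1/2) * |Real.sqrt (2*x) - 1| := by
          have h0 : 0 ≤ x * (2*C)^2 := by positivity
          nlinarith
        linarith
    refine squeeze_zero_norm' hb ?_
    have : ContinuousAt (fun x : ℝ => x * (2*C)^2) 0 := by fun_prop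
    have h2 := this.tendsto
    simp only [zero_mul] at h2
    exact h2.mono_left nhdsWithin_le_nhds
  -- integrability
  have hφm : Measurable (fun x => (x * f' x)^2 - (f x - c)^2 / 4) := by fun_prop
  have hb1 : ∀ x, 0 < x → |(x * f' x)^2| ≤ C^2 := by
    intro x hx
    rw [abs_of_nonneg (by positivity), ← sq_abs]
    exact pow_le_pow_left₀ (abs_nonneg _) (hC x hx).2 2
  have hb2 : ∀ x, 0 < x → |(f x - c)^2| ≤ (2*C)^2 := by
    intro x hx
    have h1 := (hC x hx).1
    have h2 := (hC (1/2) (by norm_num)).1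
    have hF : |f x - c| ≤ 2 * C :=
      calc |f x - c| ≤ |f x| + |c| := abs_sub _ _
        _ ≤ 2 * C := by rw [hc]; linarith
    rw [abs_of_nonneg (by positivity), ← sq_abs]
    exact pow_le_pow_left₀ (abs_nonneg _) hF 2
  have hI1 : IntegrableOn (fun x => Real.exp (-x) * (x * f' x)^2) (Ioi (0:ℝ)) :=
    intOn _ (C^2) (by fun_prop) hb1
  have hI2 : IntegrableOn (fun x => Real.exp (-x) * (f x - c)^2) (Ioi (0:ℝ)) :=
    intOn _ ((2*C)^2) (by fun_prop) hb2
  have hφe : φ = fun x => Real.exp (-x) * (x * f' x)^2 - (Real.exp (-x) * (f x - c)^2) / 4 := by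
    funext x; simp only [hφ]; ring
  have hIφ : IntegrableOn φ (Ioi (0:ℝ)) := by
    rw [hφe]
    exact hI1.sub (hI2.div_const 4)
  -- sign of G
  have hGpos : ∀ x, 1/2 ≤ x → 0 ≤ G x := by
    intro x hx
    have : 1 ≤ Real.sqrt (2*x) := by
      rw [show (1:ℝ) = Real.sqrt 1 by simp]
      exact Real.sqrt_le_sqrt (by linarith)
    simp only [hG]
    have h1 : 0 ≤ Real.sqrt (2*x) - 1 := by linarith
    have h2 : 0 ≤ x := by linarith
    have hE := Real.exp_pos (-x)
    positivity
  -- the two halves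
  have hA : 0 ≤ ∫ x in (0:ℝ)..(1/2), φ x := by
    have hci : ContinuousOn G (Icc 0 (1/2)) := by
      intro x hx
      rcases hx.1.eq_or_lt with h | h
      · rw [← h]
        exact hcont0.mono (fun y hy => hy.1)
      · exact (hcont x h).continuousWithinAt
    have hdd : ∀ x ∈ Ioo (0:ℝ) (1/2), ∃ g', HasDerivAt G g' x ∧ g' ≤ φ x :=
      fun x hx => hder x hx.1 hx.2.ne
    choose! g' hg' using hdd
    have := intervalIntegral.sub_le_integral_of_hasDeriv_right_of_le (g := G) (g' := g')
      (φ := φ) (by norm_num : (0:ℝ) ≤ 1/2) hci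
      (fun x hx => (hg' x hx).1.hasDerivWithinAt)
      ((integrableOn_Icc_iff_integrableOn_Ioc).mpr (hIφ.mono_set (fun y hy => hy.1)))
      (fun x hx => (hg' x hx).2)
    rw [hG12, hG0] at this
    linarith
  have hB : ∀ b : ℝ, 1/2 ≤ b → 0 ≤ ∫ x in (1/2:ℝ)..b, φ x := by
    intro b hb
    have hci : ContinuousOn G (Icc (1/2) b) := by
      intro x hx
      exact (hcont x (by linarith [hx.1])).continuousWithinAt
    have hdd : ∀ x ∈ Ioo (1/2:ℝ) b, ∃ g', HasDerivAt G g' x ∧ g' ≤ φ x :=
      fun x hx => hder x (by linarith [hx.1]) hx.1.ne'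
    choose! g' hg' using hdd
    have := intervalIntegral.sub_le_integral_of_hasDeriv_right_of_le (g := G) (g' := g')
      (φ := φ) hb hci
      (fun x hx => (hg' x hx).1.hasDerivWithinAt)
      (hIφ.mono_set (fun y hy => by
        have := hy.1
        show (0:ℝ) < y
        linarith))
      (fun x hx => (hg' x hx).2)
    rw [hG12] at this
    have h2 := hGpos b hb
    linarith
  have hB2 : 0 ≤ ∫ x in Ioi (1/2:ℝ), φ x := by
    have ht := intervalIntegral_tendsto_integral_Ioi (1/2:ℝ) (f := φ) (μ := volume)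
      (hIφ.mono_set (fun y hy => by
        have : (1/2:ℝ) < y := hy
        show (0:ℝ) < y
        linarith)) (tendsto_id (α := ℝ) (x := atTop))
    refine ge_of_tendsto ht ?_
    filter_upwards [eventually_ge_atTop (1/2:ℝ)] with b hb
    exact hB b hb
  have hsum : ∫ x in Ioi (0:ℝ), φ x = (∫ x in (0:ℝ)..(1/2), φ x) + ∫ x in Ioi (1/2:ℝ), φ x := by
    rw [intervalIntegral.integral_of_le (by norm_num)]
    rw [← setIntegral_union (Ioc_disjoint_Ioi le_rfl) measurableSet_Ioi
      (hIφ.mono_set (fun y hy => hy.1))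
      (hIφ.mono_set (fun y hy => by
        have : (1/2:ℝ) < y := hy
        show (0:ℝ) < y
        linarith))]
    rw [Ioc_union_Ioi_eq_Ioi (by norm_num)]
  have hfin : 0 ≤ ∫ x in Ioi (0:ℝ), φ x := by rw [hsum]; linarith
  rw [hφe, integral_sub hI1 (hI2.div_const 4), integral_div] at hfin
  rw [e1_integral, e1_integral]
  linarith

end Pool.LIN
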