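import Pool.Agent.Work.MP_1c7b0d_lin.EFS

/-! Poincaré inequality for the product of exponential distributions (helper73). -/

open MeasureTheory Matrix Pool.LH60 Pool.LH73
open scoped BigOperators

namespace Pool.LIN

open EFSaux in
theorem POI73_thm (hPOI1 : Stmt_POI1) (hEFS : Stmt_EFS) (hPRB : Stmt_PRB) : Stmt_POI := by
  intro ι _ _ f f' hf hf' hC hder
  obtain ⟨C, hC⟩ := hC
  have hupd : ∀ l : ι, Measurable (fun w : ι → ℝ => Function.update w l (1/2 : ℝ)) := fun l =>
    (RES_map ι l).1.comp (measurable_id.prodMk measurable_const)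
  have hmain := hEFS ι f (fun l w => f (Function.update w l (1/2))) hf
    (fun l => hf.comp (hupd l)) ⟨C, fun w => ⟨(hC w).1, fun l => (hC _).1⟩⟩
    (fun l w t => by simp [Function.update_idem])
  refine hmain.trans ?_
  rw [Finset.mul_sum]
  refine Finset.sum_le_sum fun l _ => ?_
  have hu : BM ((C + C)^2) (fun w => (f w - f (Function.update w l (1/2)))^2) :=
    (BM.sub ⟨hf, fun w => (hC w).1⟩ ⟨hf.comp (hupd l), fun w => (hC _).1⟩).sq
  have hv : BM (C^2) (fun w : ι → ℝ => (w l * f' l w)^2) :=
    BM.sq ⟨(measurable_pi_apply l).mul (hf' l), fun w => (hC w).2 l⟩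
  rw [← El_int hu l, ← El_int hv l, ← integral_const_mul]
  refine integral_mono_ae (El_BM hu l).int ((El_BM hv l).int.const_mul 4) ?_
  filter_upwards [hPRB.2.1 ι] with w hw
  have hOr : ∀ x, 0 < x → Function.update w l x ∈ Orth ι := by
    intro x hx i
    by_cases h : i = l
    · subst h
      simpa using hx
    · rw [Function.update_of_ne h]
      exact hw i
  have key := hPOI1 (fun t => f (Function.update w l t)) (fun t => f' l (Function.update w l t))
    (hf.comp (upd_meas l w)) ((hf' l).comp (upd_meas l w))
    ⟨C, fun x _ => ⟨(hC _).1, by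
      have := (hC (Function.update w l x)).2 l
      rwa [Function.update_self] at this⟩⟩
    (fun x hx => by
      have := hder (Function.update w l x) (hOr x hx) l
      simpa [Function.update_idem] using this)
  simpa [El, Function.update_idem, Function.update_self] using key

end Pool.LIN
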