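import Pool.Agent.Work.MP_1c7b0d_lin.Interface

/-! Block PRB: basics of the exponential distribution. helper96 -/

open MeasureTheory Matrix Pool.LH60 Pool.LH73

namespace Pool.LIN

namespace PRB

open Set Real

theorem e1_integrable_iff {f : ℝ → ℝ} :
    Integrable f e1 ↔ IntegrableOn (fun x => Real.exp (-x) * f x) (Ioi 0) := by
  unfold e1
  rw [integrable_withDensity_iff_integrable_smul']
  · unfold IntegrableOn
    refine integrable_congr (Filter.Eventually.of_forall fun x => ?_)
    simp only [smul_eq_mul]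
    rw [ENNReal.toReal_ofReal (Real.exp_pos _).le]
  · fun_prop
  · exact Filter.Eventually.of_forall fun x => ENNReal.ofReal_lt_top

theorem e1_integral (f : ℝ → ℝ) :
    ∫ x, f x ∂e1 = ∫ x in Ioi 0, Real.exp (-x) * f x := by
  unfold e1
  rw [integral_withDensity_eq_integral_toReal_smul]
  · refine integral_congr_ae (Filter.Eventually.of_forall fun x => ?_)
    simp only [smul_eq_mul]
    rw [ENNReal.toReal_ofReal (Real.exp_pos _).le]
  · fun_prop
  · exact Filter.Eventually.of_forall fun x => ENNReal.ofReal_lt_top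

theorem ae_pos : ∀ᵐ x ∂e1, 0 < x := by
  have h1 : ∀ᵐ x ∂(volume.restrict (Set.Ioi (0 : ℝ))), 0 < x :=
    ae_restrict_mem measurableSet_Ioi
  exact (withDensity_absolutelyContinuous _ _).ae_le h1

theorem gam_eq (n : ℕ) : (fun x : ℝ => Real.exp (-x) * x ^ ((n : ℝ) + 1 - 1)) =
    fun x : ℝ => Real.exp (-x) * x ^ n := by
  funext x
  rw [add_sub_cancel_right, Real.rpow_natCast]

theorem int_pow (n : ℕ) : Integrable (fun x : ℝ => x ^ n) e1 := by
  rw [e1_integrable_iff, ← gam_eq n]
  exact Real.GammaIntegral_convergent (by positivity)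

theorem mom (n : ℕ) : ∫ x, x ^ n ∂e1 = n.factorial := by
  rw [e1_integral, ← gam_eq n, ← Real.Gamma_eq_integral (by positivity),
    Real.Gamma_nat_eq_factorial]

theorem int_const (c : ℝ) : Integrable (fun _ : ℝ => c) e1 := integrable_const c

theorem int_log : Integrable (fun x : ℝ => Real.log x) e1 := by
  have h1 : Integrable (fun x : ℝ => 2 * x ^ (-(1 : ℝ) / 2) + x) e1 := by
    refine Integrable.add (Integrable.const_mul ?_ 2) ?_
    · rw [e1_integrable_iff]
      have := Real.GammaIntegral_convergent (s := 1 / 2) (by norm_num)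
      have h2 : (fun x : ℝ => Real.exp (-x) * x ^ ((1 : ℝ) / 2 - 1)) =
          fun x : ℝ => Real.exp (-x) * x ^ (-(1 : ℝ) / 2) := by
        funext x; norm_num
      rw [← h2]; exact this
    · simpa using int_pow 1
  refine h1.mono' Real.measurable_log.aestronglyMeasurable ?_
  filter_upwards [ae_pos] with x hx
  rw [Real.norm_eq_abs, abs_le]
  have hr : 0 < x ^ (-(1 : ℝ) / 2) := Real.rpow_pos_of_pos hx _
  constructor
  · -- `- log x = 2 log (x^{-1/2}) ≤ 2 x^{-1/2}`
    have h2 : Real.log (x ^ (-(1 : ℝ) / 2)) = -(1 : ℝ) / 2 * Real.log x := Real.log_rpow hx _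
    have h3 := Real.log_le_sub_one_of_pos hr
    rw [h2] at h3
    linarith
  · have := Real.log_le_sub_one_of_pos hx
    linarith

theorem int_poly1 (a b : ℝ) : Integrable (fun x : ℝ => a + b * x ^ 1) e1 :=
  (int_const a).add ((int_pow 1).const_mul b)

theorem int_poly2 (a b c : ℝ) : Integrable (fun x : ℝ => a + b * x ^ 1 + c * x ^ 2) e1 :=
  (int_poly1 a b).add ((int_pow 2).const_mul c)

theorem int_poly3 (a b c d : ℝ) :
    Integrable (fun x : ℝ => a + b * x ^ 1 + c * x ^ 2 + d * x ^ 3) e1 :=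
  (int_poly2 a b c).add ((int_pow 3).const_mul d)

theorem integral_poly (a b c d f : ℝ) :
    ∫ x, (a + b * x ^ 1 + c * x ^ 2 + d * x ^ 3 + f * x ^ 4) ∂e1 =
      a + b + 2 * c + 6 * d + 24 * f := by
  rw [integral_add (int_poly3 a b c d) ((int_pow 4).const_mul f),
    integral_add (int_poly2 a b c) ((int_pow 3).const_mul d),
    integral_add (int_poly1 a b) ((int_pow 2).const_mul c),
    integral_add (int_const a) ((int_pow 1).const_mul b)]
  rw [integral_const_mul, integral_const_mul, integral_const_mul, integral_const_mul,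
    mom, mom, mom, mom]
  simp [Nat.factorial]
  ring

theorem prob_small : e1.real (Set.Iio (1 / 10)) ≤ 1 / 10 := by
  have h1 : e1 (Set.Iio (1 / 10)) ≤ ENNReal.ofReal (1 / 10) := by
    unfold e1
    rw [withDensity_apply _ measurableSet_Iio, Measure.restrict_restrict measurableSet_Iio]
    calc ∫⁻ a in Iio (1 / 10 : ℝ) ∩ Ioi 0, ENNReal.ofReal (Real.exp (-a))
        ≤ ∫⁻ _a in Iio (1 / 10 : ℝ) ∩ Ioi 0, 1 := by
          apply setLIntegral_mono measurable_const
          intro x hx
          rw [← ENNReal.ofReal_one]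
          apply ENNReal.ofReal_le_ofReal
          rw [Real.exp_le_one_iff]
          have : (0 : ℝ) < x := hx.2
          linarith
      _ = volume (Iio (1 / 10 : ℝ) ∩ Ioi 0) := by
          rw [setLIntegral_const, one_mul]
      _ = ENNReal.ofReal (1 / 10) := by
          rw [Set.inter_comm, Ioi_inter_Iio, Real.volume_Ioo, sub_zero]
  unfold Measure.real
  calc _ ≤ (ENNReal.ofReal (1 / 10)).toReal := ENNReal.toReal_mono ENNReal.ofReal_ne_top h1
    _ = 1 / 10 := ENNReal.toReal_ofReal (by norm_num)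

theorem int_tail : IntegrableOn (fun x : ℝ => (x - 1) * Real.exp (-x)) (Ioi 1) ∧
    ∫ x in Ioi (1 : ℝ), (x - 1) * Real.exp (-x) = Real.exp (-1) := by
  have hd : ∀ x ∈ Ici (1 : ℝ), HasDerivAt (fun x : ℝ => -(x * Real.exp (-x)))
      ((x - 1) * Real.exp (-x)) x := by
    intro x _
    have h1 : HasDerivAt (fun x : ℝ => Real.exp (-x)) (Real.exp (-x) * -1) x :=
      (hasDerivAt_neg x).exp
    have h2 : HasDerivAt (fun x : ℝ => -(x * Real.exp (-x)))
        (-(1 * Real.exp (-x) + x * (Real.exp (-x) * -1))) x := ((hasDerivAt_id' x).mul h1).neg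
    exact h2.congr_deriv (by ring)
  have hlim : Filter.Tendsto (fun x : ℝ => -(x * Real.exp (-x))) Filter.atTop (nhds 0) := by
    have := Real.tendsto_pow_mul_exp_neg_atTop_nhds_zero 1
    simpa using this.neg
  have hpos : ∀ x ∈ Ioi (1 : ℝ), 0 ≤ (x - 1) * Real.exp (-x) := by
    intro x hx
    have : (1 : ℝ) < x := hx
    have := Real.exp_pos (-x)
    nlinarith
  refine ⟨integrableOn_Ioi_deriv_of_nonneg' hd hpos hlim, ?_⟩
  rw [integral_Ioi_of_hasDerivAt_of_nonneg' hd hpos hlim]
  ring

theorem integral_max : ∫ x, max 1 x ∂e1 ≤ 1368 / 1000 := by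
  have h1 : ∀ x : ℝ, max 1 x = 1 + (Ioi (1 : ℝ)).indicator (fun x => x - 1) x := by
    intro x
    by_cases h : x ∈ Ioi (1 : ℝ)
    · rw [indicator_of_mem h, max_eq_right (le_of_lt h)]; ring
    · rw [indicator_of_notMem h, max_eq_left (not_lt.1 h)]; ring
  have h2 : (fun x : ℝ => Real.exp (-x) * (Ioi (1 : ℝ)).indicator (fun x => x - 1) x) =
      (Ioi (1 : ℝ)).indicator (fun x => (x - 1) * Real.exp (-x)) := by
    funext x
    by_cases h : x ∈ Ioi (1 : ℝ)
    · rw [indicator_of_mem h, indicator_of_mem h]; ring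
    · rw [indicator_of_notMem h, indicator_of_notMem h]; ring
  have h3 : Integrable (fun x : ℝ => (Ioi (1 : ℝ)).indicator (fun x => x - 1) x) e1 := by
    rw [e1_integrable_iff, h2, IntegrableOn, integrable_indicator_iff measurableSet_Ioi,
      IntegrableOn, Measure.restrict_restrict measurableSet_Ioi]
    exact Integrable.mono_measure int_tail.1 (Measure.restrict_mono inter_subset_left le_rfl)
  have h4 : ∫ x, (Ioi (1 : ℝ)).indicator (fun x => x - 1) x ∂e1 = Real.exp (-1) := by
    rw [e1_integral, h2, setIntegral_indicator measurableSet_Ioi]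
    have : Ioi (0 : ℝ) ∩ Ioi 1 = Ioi 1 := by
      rw [Ioi_inter_Ioi]; norm_num
    rw [this, int_tail.2]
  simp_rw [h1]
  rw [integral_add (int_const 1) h3, h4]
  have h5 := Real.exp_neg_one_lt_d9
  simp only [integral_const, probReal_univ, smul_eq_mul, mul_one]
  linarith

end PRB

open PRB in
theorem PRB_thm : Stmt_PRB := by
  refine ⟨ae_pos, ?_, int_pow, int_log, ?_, ?_, ?_, ?_, ?_, prob_small, integral_max⟩
  · intro ι _
    have h1 : ∀ i : ι, ∀ᵐ w ∂Pw ι, 0 < w i := by
      intro i
      exact (Measure.quasiMeasurePreserving_eval (fun _ : ι => e1) i).ae ae_pos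
    exact ae_all_iff.2 h1
  · simpa using mom 1
  · have := integral_poly (-1) 1 0 0 0
    have h : (fun x : ℝ => x - 1) = fun x : ℝ => (-1) + 1 * x ^ 1 + 0 * x ^ 2 + 0 * x ^ 3 +
      0 * x ^ 4 := by funext x; ring
    rw [h, this]; norm_num
  · have := integral_poly 1 (-2) 1 0 0
    have h : (fun x : ℝ => (x - 1) ^ 2) = fun x : ℝ => 1 + (-2) * x ^ 1 + 1 * x ^ 2 + 0 * x ^ 3 +
      0 * x ^ 4 := by funext x; ring
    rw [h, this]; norm_num
  · have := integral_poly (-1) 3 (-3) 1 0
    have h : (fun x : ℝ => (x - 1) ^ 3) = fun x : ℝ => (-1) + 3 * x ^ 1 + (-3) * x ^ 2 +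
      1 * x ^ 3 + 0 * x ^ 4 := by funext x; ring
    rw [h, this]; norm_num
  · have := integral_poly 1 (-4) 6 (-4) 1
    have h : (fun x : ℝ => (x - 1) ^ 4) = fun x : ℝ => 1 + (-4) * x ^ 1 + 6 * x ^ 2 +
      (-4) * x ^ 3 + 1 * x ^ 4 := by funext x; ring
    rw [h, this]; norm_num

end Pool.LIN
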