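import Pool.Agent.Work.MP_1c7b0d_lin.Interface
import Pool.Agent.Work.MP_1c7b0d_lh73.RCL

/-!
# MP_1c7b0d_gt, block RBE (helper72): the traces of the classes against the scatter
-/

open MeasureTheory Matrix Pool.LH60 Pool.LH73
open scoped BigOperators

namespace Pool.LIN

namespace RBE

section core
variable {ι : Type} [Fintype ι] [DecidableEq ι] {K L : ℕ} {p : ι → Fin K → ℝ} {e : Fin K → ℝ}
  {y : ι → ℝ}

/-- the classes are disjoint -/
theorem fib_le (a : ι → Option (Fin L)) (f : ι → ℝ) (hf : ∀ i, 0 ≤ f i) :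
    ∑ b, ∑ i ∈ fb a b, f i ≤ ∑ i, f i := by
  have h1 : ∀ b ∈ Finset.univ, ∑ i ∈ fb a b, f i = ∑ i, if a i = some b then f i else 0 := by
    intro b _
    unfold fb
    rw [Finset.sum_filter]
  rw [Finset.sum_congr rfl h1, Finset.sum_comm]
  refine Finset.sum_le_sum fun i _ => ?_
  cases hi : a i with
  | none => simpa using hf i
  | some c => simp

/-- the upper part -/
theorem up (hy : ∀ i, 0 < y i) (he : ∀ k, 0 < e k)
    (ho : ∀ k l, ∑ i, y i * p i k * p i l = if k = l then e k else 0)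
    (a : ι → Option (Fin L)) (u : Fin L → Fin K → ℝ) (α : Fin L → ℝ) (B : ℝ)
    (hα0 : ∀ b, 0 ≤ α b) (hα : ∀ b, α b ≤ B) (hB : 0 ≤ B) (h : Fin K → ℝ) (hh0 : ∀ k, 0 ≤ h k)
    (hh : ∀ k, e k < 1/2 → 1 ≤ 8 * h k) :
    ∃ ρ : Fin L → ℝ, (∀ b, 0 ≤ ρ b) ∧
      (∀ b, ∑ i ∈ fb a b, y i * ∑ k, p i k ^ 2 / e k - 1 ≤ ρ b) ∧
      ∑ b, α b * ρ b ≤ 2 * ∑ b, α b * ∑ i ∈ fb a b, y i * ∑ k, (p i k - u b k)^2
        + 8 * B * ∑ k, h k := by
  set w : Fin L → Fin K → ℝ := fun b k => (∑ j ∈ fb a b, y j * p j k) / ∑ j ∈ fb a b, y j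
    with hw
  refine ⟨fun b => ∑ i ∈ fb a b, y i * ∑ k, (p i k - w b k) ^ 2 / e k, ?_, ?_, ?_⟩
  · exact fun b => Finset.sum_nonneg fun i _ =>
      mul_nonneg (hy i).le (Finset.sum_nonneg fun k _ => div_nonneg (sq_nonneg _) (he k).le)
  · exact fun b => Pool.LH73.RCL.Rb hy he ho (fb a b) (w b)
      (fun k => Pool.LH73.RCL.wmean_mul _ _ hy)
  -- the scatter in the direction `k`
  have h1 : ∑ b, α b * ∑ i ∈ fb a b, y i * ∑ k, (p i k - w b k) ^ 2 / e k
      = ∑ k, (∑ b, α b * ∑ i ∈ fb a b, y i * (p i k - w b k) ^ 2) / e k := by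
    have h2 : ∀ b ∈ Finset.univ, α b * ∑ i ∈ fb a b, y i * ∑ k, (p i k - w b k) ^ 2 / e k
        = ∑ k, (α b * ∑ i ∈ fb a b, y i * (p i k - w b k) ^ 2) / e k := by
      intro b _
      simp_rw [Finset.mul_sum, Finset.sum_div]
      rw [Finset.sum_comm]
      refine Finset.sum_congr rfl fun k _ => Finset.sum_congr rfl fun i _ => ?_
      ring
    rw [Finset.sum_congr rfl h2, Finset.sum_comm]
    refine Finset.sum_congr rfl fun k _ => ?_
    rw [Finset.sum_div]
  have h3 : ∑ b, α b * ∑ i ∈ fb a b, y i * ∑ k, (p i k - u b k) ^ 2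
      = ∑ k, ∑ b, α b * ∑ i ∈ fb a b, y i * (p i k - u b k) ^ 2 := by
    rw [Finset.sum_comm]
    refine Finset.sum_congr rfl fun b _ => ?_
    simp_rw [Finset.mul_sum]
    rw [Finset.sum_comm]
  have h4 : ∀ b k, ∀ t : ℝ, ∑ i ∈ fb a b, y i * (p i k - w b k) ^ 2
      ≤ ∑ i ∈ fb a b, y i * (p i k - t) ^ 2 := by
    intro b k t
    have h5 := Pool.LH73.RCL.wexp (fb a b) y (fun i => p i k) (w b k) t
      (Pool.LH73.RCL.wmean_mul _ _ hy)
    rw [h5]
    have : 0 ≤ (∑ j ∈ fb a b, y j) * (w b k - t) ^ 2 :=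
      mul_nonneg (Finset.sum_nonneg fun i _ => (hy i).le) (sq_nonneg _)
    linarith
  have h0 : ∀ b k, ∀ t : ℝ, 0 ≤ ∑ i ∈ fb a b, y i * (p i k - t) ^ 2 := fun b k t =>
    Finset.sum_nonneg fun i _ => mul_nonneg (hy i).le (sq_nonneg _)
  have h5 : ∀ k, (∑ b, α b * ∑ i ∈ fb a b, y i * (p i k - w b k) ^ 2) / e k
      ≤ 2 * (∑ b, α b * ∑ i ∈ fb a b, y i * (p i k - u b k) ^ 2) + 8 * B * h k := by
    intro k
    have hw0 : 0 ≤ ∑ b, α b * ∑ i ∈ fb a b, y i * (p i k - w b k) ^ 2 :=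
      Finset.sum_nonneg fun b _ => mul_nonneg (hα0 b) (h0 b k _)
    have hu0 : 0 ≤ ∑ b, α b * ∑ i ∈ fb a b, y i * (p i k - u b k) ^ 2 :=
      Finset.sum_nonneg fun b _ => mul_nonneg (hα0 b) (h0 b k _)
    have hBh : 0 ≤ 8 * B * h k := mul_nonneg (by linarith) (hh0 k)
    rcases le_or_gt (1/2) (e k) with hk | hk
    · have h6 : ∑ b, α b * ∑ i ∈ fb a b, y i * (p i k - w b k) ^ 2
          ≤ ∑ b, α b * ∑ i ∈ fb a b, y i * (p i k - u b k) ^ 2 :=
        Finset.sum_le_sum fun b _ => mul_le_mul_of_nonneg_left (h4 b k _) (hα0 b)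
      have h7 : (∑ b, α b * ∑ i ∈ fb a b, y i * (p i k - w b k) ^ 2) / e k
          ≤ 2 * ∑ b, α b * ∑ i ∈ fb a b, y i * (p i k - w b k) ^ 2 := by
        rw [div_le_iff₀ (he k)]
        nlinarith
      linarith
    · have h6 : ∑ b, α b * ∑ i ∈ fb a b, y i * (p i k - w b k) ^ 2 ≤ B * e k := by
        have h7 : ∑ b, α b * ∑ i ∈ fb a b, y i * (p i k - w b k) ^ 2
            ≤ ∑ b, B * ∑ i ∈ fb a b, y i * p i k ^ 2 := by
          refine Finset.sum_le_sum fun b _ => ?_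
          have h8 := h4 b k 0
          simp only [sub_zero] at h8
          exact mul_le_mul (hα b) h8 (h0 b k _) hB
        rw [← Finset.mul_sum] at h7
        refine h7.trans (mul_le_mul_of_nonneg_left ?_ hB)
        have h9 := ho k k
        rw [if_pos rfl] at h9
        rw [← h9]
        refine (fib_le a (fun i => y i * p i k ^ 2) fun i =>
          mul_nonneg (hy i).le (sq_nonneg _)).trans (le_of_eq ?_)
        refine Finset.sum_congr rfl fun i _ => ?_
        ring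
      have h7 : (∑ b, α b * ∑ i ∈ fb a b, y i * (p i k - w b k) ^ 2) / e k ≤ B := by
        rw [div_le_iff₀ (he k)]
        exact h6
      have h8 := mul_le_mul_of_nonneg_left (hh k hk) hB
      linarith
  rw [h1, h3]
  refine (Finset.sum_le_sum fun k _ => h5 k).trans (le_of_eq ?_)
  rw [Finset.sum_add_distrib, ← Finset.mul_sum, ← Finset.mul_sum]

omit [DecidableEq ι] in
/-- the quadratic form in the eigenbasis -/
theorem form (ho : ∀ k l, ∑ i, y i * p i k * p i l = if k = l then e k else 0)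
    (u : Fin K → ℝ) : ∑ i, y i * (∑ k, p i k * u k) ^ 2 = ∑ k, e k * u k ^ 2 := by
  have h : ∀ i ∈ Finset.univ, y i * (∑ k, p i k * u k) ^ 2
      = ∑ k, ∑ l, (u k * u l) * (y i * p i k * p i l) := by
    intro i _
    rw [sq, Finset.sum_mul_sum, Finset.mul_sum]
    refine Finset.sum_congr rfl fun k _ => ?_
    rw [Finset.mul_sum]
    refine Finset.sum_congr rfl fun l _ => ?_
    ring
  rw [Finset.sum_congr rfl h, Finset.sum_comm]
  refine Finset.sum_congr rfl fun k _ => ?_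
  rw [Finset.sum_comm]
  have h2 : ∀ l ∈ Finset.univ, ∑ i, (u k * u l) * (y i * p i k * p i l)
      = (u k * u l) * (if k = l then e k else 0) := by
    intro l _
    rw [← Finset.mul_sum, ho]
  rw [Finset.sum_congr rfl h2]
  simp only [mul_ite, mul_zero, Finset.sum_ite_eq, Finset.mem_univ, if_true]
  ring

/-- the lower part -/
theorem low (hy : ∀ i, 0 < y i) (he : ∀ k, 0 < e k)
    (ho : ∀ k l, ∑ i, y i * p i k * p i l = if k = l then e k else 0)
    (a : ι → Option (Fin L)) (b : Fin L) (u : Fin K → ℝ) :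
    (1 - ∑ i ∈ fb a b, y i * ∑ k, p i k ^ 2 / e k) * ∑ k, e k * u k ^ 2
      ≤ ∑ i, if a i = some b then 0 else y i * (∑ k, p i k * u k) ^ 2 := by
  have h1 : ∀ i, (∑ k, p i k * u k) ^ 2 ≤ (∑ k, p i k ^ 2 / e k) * ∑ k, e k * u k ^ 2 := by
    intro i
    refine Finset.sum_sq_le_sum_mul_sum_of_sq_le_mul Finset.univ
      (fun k _ => div_nonneg (sq_nonneg _) (he k).le)
      (fun k _ => mul_nonneg (he k).le (sq_nonneg _)) (fun k _ => le_of_eq ?_)
    have := (he k).ne'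
    field_simp
  have h2 := form ho u
  have h3 : ∑ i, y i * (∑ k, p i k * u k) ^ 2
      = (∑ i ∈ fb a b, y i * (∑ k, p i k * u k) ^ 2)
        + ∑ i, if a i = some b then 0 else y i * (∑ k, p i k * u k) ^ 2 := by
    unfold fb
    rw [Finset.sum_filter, ← Finset.sum_add_distrib]
    refine Finset.sum_congr rfl fun i _ => ?_
    split_ifs <;> simp
  have h4 : ∑ i ∈ fb a b, y i * (∑ k, p i k * u k) ^ 2
      ≤ (∑ i ∈ fb a b, y i * ∑ k, p i k ^ 2 / e k) * ∑ k, e k * u k ^ 2 := by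
    rw [Finset.sum_mul]
    refine Finset.sum_le_sum fun i _ => ?_
    rw [mul_assoc]
    exact mul_le_mul_of_nonneg_left (h1 i) (hy i).le
  rw [sub_mul, one_mul]
  rw [h2] at h3
  linarith

end core

end RBE

open RBE in
theorem RBE_thm (hEIGX : Stmt_EIGX) (hGGE : Stmt_GGE) (hPDG : Stmt_PDG) (hHUB : Stmt_HUB)
    (hPEI : Stmt_PEI) : Stmt_RBE := by
  intro ι _ _ K L Φ y a β B hΦ hy hm hmv hβ hB
  obtain ⟨e, Q, hE⟩ := hEIGX K (Dm Φ y) (hPDG ι K Φ y hΦ hy)
  have hGG := hGGE K (Dm Φ y) e Q hE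
  obtain ⟨hub0, -, -, -, hub2, -⟩ := hHUB
  have hQ : Qᵀ * Q = 1 := hE.orth
  have hQ' : Q * Qᵀ = 1 := mul_eq_one_comm.1 hQ
  have he := hE.pos
  have hD := hE.eq
  set p : ι → Fin K → ℝ := fun i k => (Φ * Q) i k with hp
  set u : Fin L → Fin K → ℝ := fun b k => ∑ l, vb Φ a b l * Q l k with hu
  have hinv : (Dm Φ y)⁻¹ = Q * Matrix.diagonal (fun k => (e k)⁻¹) * Qᵀ := by
    apply Matrix.inv_eq_right_inv
    rw [hD]
    have h1 : Q * Matrix.diagonal e * Qᵀ * (Q * Matrix.diagonal (fun k => (e k)⁻¹) * Qᵀ)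
        = Q * (Matrix.diagonal e * (Qᵀ * Q) * Matrix.diagonal (fun k => (e k)⁻¹)) * Qᵀ := by
      simp only [Matrix.mul_assoc]
    rw [h1, hQ, Matrix.mul_one, Matrix.diagonal_mul_diagonal]
    have h2 : (fun i => e i * (e i)⁻¹) = fun _ => (1:ℝ) := by
      funext i
      exact mul_inv_cancel₀ (he i).ne'
    rw [h2, Matrix.diagonal_one, Matrix.mul_one, hQ']
  have hqf : ∀ i, rho Φ y i i = ∑ k, p i k ^ 2 / e k := by
    intro i
    unfold rho
    rw [hinv]
    have h1 : Φ * (Q * Matrix.diagonal (fun k => (e k)⁻¹) * Qᵀ) * Φᵀ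
        = (Φ * Q) * Matrix.diagonal (fun k => (e k)⁻¹) * (Φ * Q)ᵀ := by
      rw [Matrix.transpose_mul]
      simp only [Matrix.mul_assoc]
    rw [h1, Matrix.mul_apply]
    refine Finset.sum_congr rfl fun k _ => ?_
    rw [Matrix.mul_diagonal, Matrix.transpose_apply]
    simp only [hp]
    ring
  have ho : ∀ k l, ∑ i, y i * p i k * p i l = if k = l then e k else 0 := by
    intro k l
    have h1 : (Φ * Q)ᵀ * Matrix.diagonal y * (Φ * Q) = Matrix.diagonal e := by
      have h2 : (Φ * Q)ᵀ * Matrix.diagonal y * (Φ * Q) = Qᵀ * (Dm Φ y) * Q := by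
        unfold Dm
        rw [Matrix.transpose_mul]
        simp only [Matrix.mul_assoc]
      rw [h2, hD]
      have h3 : Qᵀ * (Q * Matrix.diagonal e * Qᵀ) * Q
          = (Qᵀ * Q) * Matrix.diagonal e * (Qᵀ * Q) := by
        simp only [Matrix.mul_assoc]
      rw [h3, hQ, Matrix.one_mul, Matrix.mul_one]
    have h2 := congrFun (congrFun h1 k) l
    rw [Matrix.mul_apply, Matrix.diagonal_apply] at h2
    rw [← h2]
    refine Finset.sum_congr rfl fun i _ => ?_
    rw [Matrix.mul_diagonal, Matrix.transpose_apply]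
    simp only [hp]
    ring
  -- scalar products in the eigenbasis
  have hdot : ∀ x z : Fin K → ℝ, (x ᵥ* Q) ⬝ᵥ (z ᵥ* Q) = x ⬝ᵥ z := by
    intro x z
    rw [← Matrix.dotProduct_mulVec, ← Matrix.mulVec_transpose, Matrix.mulVec_mulVec, hQ',
      Matrix.one_mulVec]
  have hsc : ∀ i b, ∑ k, (p i k - u b k) ^ 2 = ∑ k, (Φ i k - vb Φ a b k) ^ 2 := by
    intro i b
    set z : Fin K → ℝ := fun l => Φ i l - vb Φ a b l with hz
    have h1 : ∀ k, p i k - u b k = (z ᵥ* Q) k := by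
      intro k
      simp only [hp, hu, hz, Matrix.mul_apply, Matrix.vecMul, dotProduct]
      rw [← Finset.sum_sub_distrib]
      refine Finset.sum_congr rfl fun l _ => ?_
      ring
    have h3 : ∑ k, (p i k - u b k) ^ 2 = (z ᵥ* Q) ⬝ᵥ (z ᵥ* Q) := by
      unfold dotProduct
      refine Finset.sum_congr rfl fun k _ => ?_
      rw [h1 k, sq]
    have h4 : ∑ k, (Φ i k - vb Φ a b k) ^ 2 = z ⬝ᵥ z := by
      unfold dotProduct
      refine Finset.sum_congr rfl fun k _ => ?_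
      rw [sq]
    rw [h3, hdot, h4]
  have hpu : ∀ i b, ∑ k, p i k * u b k = ∑ k, Φ i k * vb Φ a b k := by
    intro i b
    exact hdot (fun l => Φ i l) (vb Φ a b)
  -- abbreviations
  set n : Fin L → ℝ := fun b => ∑ k, (vb Φ a b k)^2 with hn
  set s : Fin L → ℝ := fun b => ∑ k, e k * u b k ^ 2 with hs
  set o : Fin L → ℝ := fun b =>
    ∑ i, (if a i = some b then 0 else y i * (∑ k, Φ i k * vb Φ a b k)^2) with ho'
  set R : Fin L → ℝ := fun b => ∑ i ∈ fb a b, y i * rho Φ y i i with hR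
  have hm' : ∀ b, (0:ℝ) < (mz a b : ℝ) := fun b => by exact_mod_cast hm b
  have hs0 : ∀ b, 0 ≤ s b := fun b => Finset.sum_nonneg fun k _ =>
    mul_nonneg (he k).le (sq_nonneg _)
  have hn0 : ∀ b, 0 < n b := by
    intro b
    by_contra hneg
    push Not at hneg
    have h1 := hmv b
    have h2 : (mz a b : ℝ) * n b ≤ 0 := mul_nonpos_of_nonneg_of_nonpos (hm' b).le hneg
    linarith
  have ho0 : ∀ b, 0 ≤ o b := fun b => Finset.sum_nonneg fun i _ => by
    split_ifs
    · exact le_rfl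
    · exact mul_nonneg (hy i).le (sq_nonneg _)
  have hR' : ∀ b, R b = ∑ i ∈ fb a b, y i * ∑ k, p i k ^ 2 / e k := fun b =>
    Finset.sum_congr rfl fun i _ => by rw [hqf i]
  have hR0 : ∀ b, 0 ≤ R b := fun b => by
    rw [hR' b]
    exact Finset.sum_nonneg fun i _ => mul_nonneg (hy i).le
      (Finset.sum_nonneg fun k _ => div_nonneg (sq_nonneg _) (he k).le)
  -- the quadratic form of `D`
  have hDm : ∀ k l, Dm Φ y k l = ∑ i, y i * Φ i k * Φ i l := by
    intro k l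
    unfold Dm
    rw [Matrix.mul_apply]
    refine Finset.sum_congr rfl fun i _ => ?_
    rw [Matrix.mul_diagonal, Matrix.transpose_apply]
    ring
  have hquad : ∀ x : Fin K → ℝ, ∑ k, ∑ l, x k * Dm Φ y k l * x l
      = ∑ i, y i * (∑ k, Φ i k * x k)^2 := by
    intro x
    have h1 : ∀ i ∈ Finset.univ, y i * (∑ k, Φ i k * x k)^2
        = ∑ k, ∑ l, x k * (y i * Φ i k * Φ i l) * x l := by
      intro i _
      rw [sq, Finset.sum_mul_sum, Finset.mul_sum]
      refine Finset.sum_congr rfl fun k _ => ?_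
      rw [Finset.mul_sum]
      refine Finset.sum_congr rfl fun l _ => ?_
      ring
    rw [Finset.sum_congr rfl h1]
    symm
    rw [Finset.sum_comm]
    refine Finset.sum_congr rfl fun k _ => ?_
    rw [Finset.sum_comm]
    refine Finset.sum_congr rfl fun l _ => ?_
    rw [hDm, Finset.mul_sum, Finset.sum_mul]
  have hsq : ∀ b, ∑ i, y i * (∑ k, Φ i k * vb Φ a b k)^2 = s b := by
    intro b
    have h1 : s b = ∑ i, y i * (∑ k, p i k * u b k) ^ 2 := (form ho (u b)).symm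
    rw [h1]
    exact Finset.sum_congr rfl fun i _ => by rw [hpu i b]
  -- the frame of the means
  have hframe : ∀ x : Fin K → ℝ,
      ∑ b, (∑ k, (Real.sqrt (mz a b : ℝ) * vb Φ a b k) * x k)^2 ≤ 1 * ∑ k, (x k)^2 := by
    intro x
    have h1 : ∀ b, (∑ k, (Real.sqrt (mz a b : ℝ) * vb Φ a b k) * x k)^2
        ≤ ∑ i ∈ fb a b, (∑ k, Φ i k * x k)^2 := by
      intro b
      have h2 : ∑ k, (Real.sqrt (mz a b : ℝ) * vb Φ a b k) * x k
          = Real.sqrt (mz a b : ℝ) * ((∑ i ∈ fb a b, ∑ k, Φ i k * x k) / (mz a b : ℝ)) := by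
        rw [Finset.sum_comm, Finset.sum_div, Finset.mul_sum]
        refine Finset.sum_congr rfl fun k _ => ?_
        unfold vb
        rw [← Finset.sum_mul]
        ring
      rw [h2, mul_pow, Real.sq_sqrt (hm' b).le, div_pow]
      have h3 : (∑ i ∈ fb a b, ∑ k, Φ i k * x k)^2
          ≤ (mz a b : ℝ) * ∑ i ∈ fb a b, (∑ k, Φ i k * x k)^2 := by
        unfold mz
        exact sq_sum_le_card_mul_sum_sq
      have h4 : (mz a b : ℝ) * ((∑ i ∈ fb a b, ∑ k, Φ i k * x k)^2 / (mz a b : ℝ)^2)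
          = (∑ i ∈ fb a b, ∑ k, Φ i k * x k)^2 / (mz a b : ℝ) := by
        have := (hm' b).ne'
        field_simp
      rw [h4, div_le_iff₀ (hm' b), mul_comm]
      exact h3
    refine (Finset.sum_le_sum fun b _ => h1 b).trans ?_
    refine (fib_le a _ fun i => sq_nonneg _).trans (le_of_eq ?_)
    have h2 : ∑ i, (∑ k, Φ i k * x k)^2 = (Φ *ᵥ x) ⬝ᵥ (Φ *ᵥ x) := by
      unfold dotProduct Matrix.mulVec dotProduct
      exact Finset.sum_congr rfl fun i _ => sq _
    have h3 : (Φ *ᵥ x) ⬝ᵥ (Φ *ᵥ x) = x ⬝ᵥ x := by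
      rw [Matrix.dotProduct_mulVec, ← Matrix.mulVec_transpose, Matrix.mulVec_mulVec, hΦ,
        Matrix.one_mulVec]
    rw [h2, h3, one_mul]
    unfold dotProduct
    exact Finset.sum_congr rfl fun i _ => (sq _).symm
  have hpei := hPEI (Fin L) K (Dm Φ y) e Q
    (fun b k => Real.sqrt (mz a b : ℝ) * vb Φ a b k) 1 hE hframe
  have hterm : ∀ b, (∑ k, (Real.sqrt (mz a b : ℝ) * vb Φ a b k)^2) *
      hub ((∑ k, ∑ l, (Real.sqrt (mz a b : ℝ) * vb Φ a b k) * Dm Φ y k l *
        (Real.sqrt (mz a b : ℝ) * vb Φ a b l)) /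
          (∑ k, (Real.sqrt (mz a b : ℝ) * vb Φ a b k)^2) - 1)
      = (mz a b : ℝ) * n b * hub (s b / n b - 1) := by
    intro b
    have h1 : ∑ k, (Real.sqrt (mz a b : ℝ) * vb Φ a b k)^2 = (mz a b : ℝ) * n b := by
      have h0 : (mz a b : ℝ) * n b = ∑ k, (mz a b : ℝ) * (vb Φ a b k)^2 := Finset.mul_sum _ _ _
      rw [h0]
      refine Finset.sum_congr rfl fun k _ => ?_
      rw [mul_pow, Real.sq_sqrt (hm' b).le]
    have h2 : ∑ k, ∑ l, (Real.sqrt (mz a b : ℝ) * vb Φ a b k) * Dm Φ y k l *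
        (Real.sqrt (mz a b : ℝ) * vb Φ a b l) = (mz a b : ℝ) * s b := by
      rw [hquad (fun k => Real.sqrt (mz a b : ℝ) * vb Φ a b k), ← hsq b, Finset.mul_sum]
      refine Finset.sum_congr rfl fun i _ => ?_
      have h3 : ∑ k, Φ i k * (Real.sqrt (mz a b : ℝ) * vb Φ a b k)
          = Real.sqrt (mz a b : ℝ) * ∑ k, Φ i k * vb Φ a b k := by
        rw [Finset.mul_sum]
        refine Finset.sum_congr rfl fun k _ => ?_
        ring
      rw [h3, mul_pow, Real.sq_sqrt (hm' b).le]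
      ring
    rw [h1, h2, mul_div_mul_left _ _ (hm' b).ne']
  have hhub : ∑ b, hub (s b / n b - 1) ≤ 2 * GG (Dm Φ y) := by
    have h1 : ∑ b, hub (s b / n b - 1) ≤ ∑ b, 2 * ((mz a b : ℝ) * n b * hub (s b / n b - 1)) := by
      refine Finset.sum_le_sum fun b _ => ?_
      have h2 := hmv b
      have h3 := hub0 (s b / n b - 1)
      have h4 : (1:ℝ)/2 ≤ (mz a b : ℝ) * n b := h2
      nlinarith
    rw [← Finset.mul_sum] at h1
    refine h1.trans (mul_le_mul_of_nonneg_left ?_ (by norm_num))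
    rw [one_mul] at hpei
    refine le_trans (le_of_eq ?_) hpei
    exact Finset.sum_congr rfl fun b _ => (hterm b).symm
  -- the upper part
  obtain ⟨ρ, hρ0, hρ1, hρ2⟩ := up hy he ho a u (fun b => |β b|) B (fun b => abs_nonneg _) hβ hB
    (fun k => hub (e k - 1)) (fun k => hub0 _) (by
      intro k hk
      have h1 := he k
      have h2 : |e k - 1| ≤ 1 := by rw [abs_le]; constructor <;> linarith
      rw [hub2 _ h2]
      nlinarith)
  rw [← hGG] at hρ2
  -- the lower part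
  have hlow : ∀ b, 1 - R b ≤ 4 * (mz a b : ℝ) * o b + 8 * hub (s b / n b - 1) := by
    intro b
    have h1 := low hy he ho a b (u b)
    have h2 : (1 - R b) * s b ≤ o b := by
      rw [hR' b]
      refine h1.trans (le_of_eq ?_)
      rw [ho']
      exact Finset.sum_congr rfl fun i _ => by rw [hpu i b]
    have h3 := hub0 (s b / n b - 1)
    have h4 : 0 ≤ 4 * (mz a b : ℝ) * o b :=
      mul_nonneg (mul_nonneg (by norm_num) (hm' b).le) (ho0 b)
    rcases le_or_gt (1/2) (s b / n b) with h5 | h5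
    · rcases le_or_gt (1 - R b) 0 with h6 | h6
      · linarith
      · rw [le_div_iff₀ (hn0 b)] at h5
        have h7 : (1:ℝ)/2 ≤ (mz a b : ℝ) * n b := hmv b
        have h8 : 1 ≤ 4 * (mz a b : ℝ) * s b := by
          have := mul_le_mul_of_nonneg_left h5 (hm' b).le
          nlinarith
        have h9 : 1 - R b ≤ (1 - R b) * (4 * (mz a b : ℝ) * s b) := by
          have := mul_le_mul_of_nonneg_left h8 h6.le
          linarith
        have h10 : (1 - R b) * (4 * (mz a b : ℝ) * s b) ≤ 4 * (mz a b : ℝ) * o b := by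
          have := mul_le_mul_of_nonneg_left h2 (mul_nonneg (by norm_num : (0:ℝ) ≤ 4) (hm' b).le)
          linarith
        linarith
    · have h6 : 0 ≤ s b / n b := div_nonneg (hs0 b) (hn0 b).le
      have h7 : |s b / n b - 1| ≤ 1 := by rw [abs_le]; constructor <;> linarith
      have h8 : 1 ≤ 8 * hub (s b / n b - 1) := by
        rw [hub2 _ h7]
        nlinarith
      have := hR0 b
      linarith
  -- the end
  set S : Fin L → ℝ := fun b => ∑ i ∈ fb a b, y i * ∑ k, (Φ i k - vb Φ a b k)^2 with hS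
  have hS0 : ∀ b, 0 ≤ S b := fun b => Finset.sum_nonneg fun i _ =>
    mul_nonneg (hy i).le (Finset.sum_nonneg fun k _ => sq_nonneg _)
  have hS' : ∀ b, ∑ i ∈ fb a b, y i * ∑ k, (p i k - u b k)^2 = S b := fun b =>
    Finset.sum_congr rfl fun i _ => by rw [hsc i b]
  simp only [hS'] at hρ2
  have habs : ∀ b, |R b - 1| ≤ ρ b + 4 * (mz a b : ℝ) * o b + 8 * hub (s b / n b - 1) := by
    intro b
    have h1 := hlow b
    have h2 : R b - 1 ≤ ρ b := by
      rw [hR' b]
      exact hρ1 b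
    have h3 := hρ0 b
    have h4 := hub0 (s b / n b - 1)
    have h5 : 0 ≤ 4 * (mz a b : ℝ) * o b :=
      mul_nonneg (mul_nonneg (by norm_num) (hm' b).le) (ho0 b)
    rw [abs_le]
    constructor <;> linarith
  have h1 : ∑ b, |β b| * |R b - 1| ≤ ∑ b, |β b| * ρ b
      + ∑ b, |β b| * (4 * (mz a b : ℝ) * o b) + 8 * (B * ∑ b, hub (s b / n b - 1)) := by
    rw [Finset.mul_sum, Finset.mul_sum, ← Finset.sum_add_distrib, ← Finset.sum_add_distrib]
    refine Finset.sum_le_sum fun b _ => ?_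
    have h2 := mul_le_mul_of_nonneg_left (habs b) (abs_nonneg (β b))
    have h3 := mul_le_mul_of_nonneg_right (hβ b) (hub0 (s b / n b - 1))
    nlinarith
  have h2 := mul_le_mul_of_nonneg_left hhub hB
  have h3 : 0 ≤ ∑ b, |β b| * S b := Finset.sum_nonneg fun b _ => mul_nonneg (abs_nonneg _) (hS0 b)
  have h4 : ∑ b, |β b| * (4 * S b + 4 * (mz a b : ℝ) * o b)
      = 4 * ∑ b, |β b| * S b + ∑ b, |β b| * (4 * (mz a b : ℝ) * o b) := by
    rw [Finset.mul_sum, ← Finset.sum_add_distrib]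
    refine Finset.sum_congr rfl fun b _ => ?_
    ring
  have h5 : ∑ b, |β b| * |R b - 1| ≤ ∑ b, |β b| * (4 * S b + 4 * (mz a b : ℝ) * o b)
      + 24 * B * GG (Dm Φ y) := by
    rw [h4]
    linarith
  exact h5

end Pool.LIN
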