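import Pool.Agent.Work.MP_1c7b0d_lin.Interface

open MeasureTheory Matrix Pool.LH60 Pool.LH73
open scoped BigOperators

namespace Pool.LIN

theorem RES_map (ι : Type) [Fintype ι] [DecidableEq ι] (l : ι) :
    Measurable (fun p : (ι → ℝ) × ℝ => Function.update p.1 l p.2) ∧
    Measure.map (fun p : (ι → ℝ) × ℝ => Function.update p.1 l p.2) ((Pw ι).prod e1) = Pw ι := by
  have hm : Measurable (fun p : (ι → ℝ) × ℝ => Function.update p.1 l p.2) := by
    rw [measurable_pi_iff]
    intro i
    by_cases h : i = l
    · subst h
      simpa using measurable_snd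
    · simp only [Function.update_of_ne h]
      exact (measurable_pi_apply i).comp measurable_fst
  refine ⟨hm, ?_⟩
  have key : Measure.pi (fun _ : ι => e1) =
      Measure.map (fun p : (ι → ℝ) × ℝ => Function.update p.1 l p.2) ((Pw ι).prod e1) := by
    refine Measure.pi_eq ?_
    intro s hs
    rw [Measure.map_apply hm (MeasurableSet.univ_pi hs)]
    have hpre : (fun p : (ι → ℝ) × ℝ => Function.update p.1 l p.2) ⁻¹' (Set.pi Set.univ s) =
        (Set.pi Set.univ (Function.update s l Set.univ)) ×ˢ (s l) := by
      ext p
      simp only [Set.mem_preimage, Set.mem_pi, Set.mem_univ, forall_true_left, Set.mem_prod]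
      constructor
      · intro h
        refine ⟨fun i => ?_, by simpa using h l⟩
        by_cases hi : i = l
        · subst hi; simp
        · rw [Function.update_of_ne hi]
          simpa [Function.update_of_ne hi] using h i
      · rintro ⟨h1, h2⟩ i
        by_cases hi : i = l
        · subst hi; simpa using h2
        · have := h1 i
          rw [Function.update_of_ne hi] at this
          simpa [Function.update_of_ne hi] using this
    rw [hpre, Measure.prod_prod]
    unfold Pw
    rw [Measure.pi_pi, ← Finset.mul_prod_erase _ _ (Finset.mem_univ l),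
      ← Finset.mul_prod_erase (Finset.univ) (fun i => e1 (s i)) (Finset.mem_univ l)]
    simp only [Function.update_self, measure_univ, one_mul]
    rw [mul_comm]
    congr 1
    refine Finset.prod_congr rfl fun i hi => ?_
    rw [Function.update_of_ne (Finset.ne_of_mem_erase hi)]
  exact key.symm

theorem RES_thm : Stmt_RES := by
  intro ι _ _ l
  obtain ⟨hm, hmap⟩ := RES_map ι l
  refine ⟨?_, ?_, ?_⟩
  · intro f hf
    conv_lhs => rw [← hmap]
    rw [lintegral_map hf hm, lintegral_prod (fun p : (ι → ℝ) × ℝ => f (Function.update p.1 l p.2)) (hf.comp hm).aemeasurable]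
  · intro f hf hi
    conv_lhs => rw [← hmap]
    rw [integral_map hm.aemeasurable hf.aestronglyMeasurable]
    rw [integral_prod (fun p : (ι → ℝ) × ℝ => f (Function.update p.1 l p.2))]
    rw [← hmap] at hi
    exact (integrable_map_measure hf.aestronglyMeasurable hm.aemeasurable).1 hi
  · intro f h hf hh hfi hhi hfl
    have hF : Measurable fun w : ι → ℝ => f w * h (w l) :=
      hf.mul (hh.comp (measurable_pi_apply l))
    have e : ∀ p : (ι → ℝ) × ℝ, f (Function.update p.1 l p.2) * h ((Function.update p.1 l p.2) l) =
        f p.1 * h p.2 := by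
      intro p
      rw [hfl, Function.update_self]
    have hint : Integrable (fun p : (ι → ℝ) × ℝ => f p.1 * h p.2) ((Pw ι).prod e1) :=
      hfi.mul_prod hhi
    constructor
    · rw [← hmap]
      rw [integrable_map_measure hF.aestronglyMeasurable hm.aemeasurable]
      refine hint.congr (Filter.Eventually.of_forall fun p => ?_)
      exact (e p).symm
    · conv_lhs => rw [← hmap]
      rw [integral_map hm.aemeasurable hF.aestronglyMeasurable]
      rw [integral_congr_ae (Filter.Eventually.of_forall e)]
      exact integral_prod_mul f h

end Pool.LIN
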