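import Pool.Agent.Work.MP_1c7b0d_lin.Interface

/-! Block SCH (helper76): the scalar inequality with the Huber loss. -/

open MeasureTheory Matrix Pool.LH60 Pool.LH73

namespace Pool.LIN

namespace Sch

theorem log_tan {a x : ℝ} (ha : 0 < a) (hx : 0 < x) :
    Real.log x ≤ Real.log a + (x / a - 1) := by
  have h := Real.log_le_sub_one_of_pos (show 0 < x / a by positivity)
  rw [Real.log_div hx.ne' ha.ne'] at h
  linarith

theorem log3 : (10974 / 10000 : ℝ) ≤ Real.log 3 := by
  have h1 : Real.log ((2:ℝ) ^ 19) ≤ Real.log ((3:ℝ) ^ 12) :=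
    Real.log_le_log (by norm_num) (by norm_num)
  rw [Real.log_pow, Real.log_pow] at h1
  have h2 := Real.log_two_gt_d9
  norm_num at h1 h2 ⊢
  linarith

theorem log49 : Real.log (49 / 100) ≤ -(7131 / 10000) := by
  have h1 : Real.log (49 / 100) = Real.log (49 / 50) - Real.log 2 := by
    rw [← Real.log_div (by norm_num) (by norm_num)]
    norm_num
  have h2 := Real.log_le_sub_one_of_pos (show (0:ℝ) < 49 / 50 by norm_num)
  have h3 := Real.log_two_gt_d9
  rw [h1]
  norm_num at h2 h3 ⊢
  linarith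

/-- `e ≥ 1`: `e - 1 - log e ≥ (e-1)²/(2e)` -/
theorem low1 {e : ℝ} (he : 1 ≤ e) : (e - 1) ^ 2 / (2 * e) ≤ e - 1 - Real.log e := by
  have hder : ∀ x : ℝ, 0 < x → HasDerivAt (fun s : ℝ => s / 2 - 1 / 2 * s⁻¹ - Real.log s)
      (1 / 2 - 1 / 2 * (-(x ^ 2)⁻¹) - x⁻¹) x := by
    intro x hx
    have a1 : HasDerivAt (fun s : ℝ => s / 2) (1 / 2) x := (hasDerivAt_id x).div_const 2
    have a2 : HasDerivAt (fun s : ℝ => 1 / 2 * s⁻¹) (1 / 2 * (-(x ^ 2)⁻¹)) x :=
      (hasDerivAt_inv hx.ne').const_mul _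
    exact (a1.sub a2).sub (Real.hasDerivAt_log hx.ne')
  have hmono : MonotoneOn (fun s : ℝ => s / 2 - 1 / 2 * s⁻¹ - Real.log s) (Set.Ici 1) := by
    refine monotoneOn_of_deriv_nonneg (convex_Ici _) ?_ ?_ ?_
    · intro x hx
      have hx1 : (1 : ℝ) ≤ x := hx
      exact (hder x (by linarith)).continuousAt.continuousWithinAt
    · intro x hx
      rw [interior_Ici] at hx
      have hx1 : (1 : ℝ) < x := hx
      exact (hder x (by linarith)).differentiableAt.differentiableWithinAt
    · intro x hx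
      rw [interior_Ici] at hx
      have hx1 : (1 : ℝ) < x := hx
      have hx0 : 0 < x := by linarith
      rw [(hder x hx0).deriv]
      have e1 : 1 / 2 - 1 / 2 * (-(x ^ 2)⁻¹) - x⁻¹ = (x - 1) ^ 2 / (2 * x ^ 2) := by
        field_simp
        ring
      rw [e1]
      positivity
  have h := hmono (show (1:ℝ) ∈ Set.Ici 1 by simp) (show e ∈ Set.Ici (1:ℝ) from he) he
  have he0 : 0 < e := by linarith
  norm_num at h
  have e2 : (e - 1) ^ 2 / (2 * e) = e / 2 - 1 + 1 / 2 * e⁻¹ := by
    field_simp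
    ring
  rw [e2]
  linarith

/-- `e ≤ 1`: `log e ≤ 2 (e-1)/(e+1)` in the form `(1-e)²/(1+e) ≤ e - 1 - log e` -/
theorem low2 {e : ℝ} (he : 0 < e) (he1 : e ≤ 1) :
    (1 - e) ^ 2 / (1 + e) ≤ e - 1 - Real.log e := by
  have hder : ∀ x : ℝ, 0 < x → HasDerivAt (fun s : ℝ => 4 * (s + 1)⁻¹ + Real.log s)
      (4 * (-1 / (x + 1) ^ 2) + x⁻¹) x := by
    intro x hx
    have hx1 : x + 1 ≠ 0 := by linarith
    have a2 : HasDerivAt (fun s : ℝ => (s + 1)⁻¹) (-1 / (x + 1) ^ 2) x :=
      ((hasDerivAt_id x).add_const 1).inv hx1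
    exact (a2.const_mul 4).add (Real.hasDerivAt_log hx.ne')
  have hmono : MonotoneOn (fun s : ℝ => 4 * (s + 1)⁻¹ + Real.log s) (Set.Ioc 0 1) := by
    refine monotoneOn_of_deriv_nonneg (convex_Ioc _ _) ?_ ?_ ?_
    · intro x hx
      exact (hder x hx.1).continuousAt.continuousWithinAt
    · intro x hx
      rw [interior_Ioc] at hx
      exact (hder x hx.1).differentiableAt.differentiableWithinAt
    · intro x hx
      rw [interior_Ioc] at hx
      have hx0 : 0 < x := hx.1
      rw [(hder x hx0).deriv]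
      have hx1 : x + 1 ≠ 0 := by linarith
      have e1 : 4 * (-1 / (x + 1) ^ 2) + x⁻¹ = (x - 1) ^ 2 / (x * (x + 1) ^ 2) := by
        field_simp
        ring
      rw [e1]
      positivity
  have h := hmono ⟨he, he1⟩ (show (1:ℝ) ∈ Set.Ioc (0:ℝ) 1 by constructor <;> norm_num) he1
  norm_num at h
  have e2 : (1 - e) ^ 2 / (1 + e) = e - 3 + 4 * (e + 1)⁻¹ := by
    have : e + 1 ≠ 0 := by linarith
    have : 1 + e ≠ 0 := by linarith
    field_simp
    ring
  rw [e2]
  linarith

theorem hub_small {t : ℝ} (h : |t| ≤ 1) : hub t = t ^ 2 / 2 := by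
  unfold hub; rw [if_pos h]

theorem hub_le {t : ℝ} (h : 1 ≤ t) : hub t ≤ t := by
  unfold hub
  split_ifs with h1
  · rw [abs_of_nonneg (by linarith)] at h1
    have : t = 1 := le_antisymm h1 h
    subst this
    norm_num
  · rw [abs_of_nonneg (by linarith)]
    linarith

/-- region A -/
theorem regA {u e : ℝ} (hu : 29 / 100 ≤ u) (he : 0 < e) (heu : e ≤ u) :
    (e - 1) ^ 2 / (7 * u) + hub (e - 1) / 400 ≤ 1 / 2 * (e - 1 - Real.log e) := by
  have hu0 : 0 < u := by linarith
  rcases le_total 1 e with h1 | h1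
  · have h2 := low1 h1
    have h3 : (e - 1) ^ 2 / (7 * u) ≤ (e - 1) ^ 2 / (7 * e) :=
      div_le_div_of_nonneg_left (sq_nonneg _) (by positivity) (by linarith)
    have h4 : hub (e - 1) / 400 ≤ 3 / 28 * ((e - 1) ^ 2 / e) := by
      rcases le_total e 2 with h5 | h5
      · rw [hub_small (by rw [abs_of_nonneg (by linarith)]; linarith)]
        have h6 : (e - 1) ^ 2 / 2 ≤ (e - 1) ^ 2 / e :=
          div_le_div_of_nonneg_left (sq_nonneg _) (by positivity) h5
        have h7 : 0 ≤ (e - 1) ^ 2 / 2 := by positivity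
        linarith
      · have h6 := hub_le (t := e - 1) (by linarith)
        have h7 : (e - 1) / 2 ≤ (e - 1) ^ 2 / e := by
          rw [div_le_div_iff₀ (by norm_num) he]
          nlinarith
        linarith
    have e1 : (e - 1) ^ 2 / (2 * e) = (e - 1) ^ 2 / e / 2 := by field_simp
    have e2 : (e - 1) ^ 2 / (7 * e) = (e - 1) ^ 2 / e / 7 := by field_simp
    rw [e1] at h2
    rw [e2] at h3
    linarith
  · rw [hub_small (by rw [abs_le]; constructor <;> linarith)]
    rcases le_total (45 / 100) e with h2 | h2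
    · have h3 := low2 he h1
      have h4 : (e - 1) ^ 2 / (7 * u) ≤ (e - 1) ^ 2 / (7 * e) :=
        div_le_div_of_nonneg_left (sq_nonneg _) (by positivity) (by linarith)
      have h5 : 1 / (7 * e) + 1 / 800 ≤ 1 / 2 * (1 / (1 + e)) := by
        rw [div_add_div _ _ (by positivity) (by norm_num), div_mul_div_comm,
          div_le_div_iff₀ (by positivity) (by positivity)]
        nlinarith
      have h6 : (e - 1) ^ 2 * (1 / (7 * e) + 1 / 800) ≤ (e - 1) ^ 2 * (1 / 2 * (1 / (1 + e))) :=
        mul_le_mul_of_nonneg_left h5 (sq_nonneg _)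
      have e1 : (1 - e) ^ 2 / (1 + e) = (e - 1) ^ 2 * (1 / (1 + e)) := by ring
      rw [e1] at h3
      have e2 : (e - 1) ^ 2 / (7 * e) = (e - 1) ^ 2 * (1 / (7 * e)) := by ring
      rw [e2] at h4
      linarith
    · have h3 := log_tan (a := 1 / 3) (by norm_num) he
      have h4 : Real.log (1 / 3) = -Real.log 3 := by rw [one_div, Real.log_inv]
      rw [h4] at h3
      have h5 := log3
      rcases le_total (29 / 100) e with h6 | h6
      · have h7 : (e - 1) ^ 2 / (7 * u) ≤ (e - 1) ^ 2 / (7 * e) :=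
          div_le_div_of_nonneg_left (sq_nonneg _) (by positivity) (by linarith)
        have h8 : (e - 1) ^ 2 / (7 * e) + (e - 1) ^ 2 / 800
            ≤ 1 / 2 * (10974 / 10000 - 2 * e) := by
          rw [div_add_div _ _ (by positivity) (by norm_num), div_le_iff₀ (by positivity)]
          nlinarith [mul_nonneg (sub_nonneg.2 h6) (sub_nonneg.2 h2),
            mul_nonneg (mul_nonneg (sub_nonneg.2 h6) (sub_nonneg.2 h2)) he.le]
        norm_num at h3 ⊢
        linarith
      · have h7 : (e - 1) ^ 2 / (7 * u) ≤ (e - 1) ^ 2 / (7 * (29 / 100)) :=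
          div_le_div_of_nonneg_left (sq_nonneg _) (by norm_num) (by linarith)
        have h8 : (e - 1) ^ 2 / (7 * (29 / 100)) + (e - 1) ^ 2 / 800
            ≤ 1 / 2 * (10974 / 10000 - 2 * e) := by
          norm_num
          nlinarith [mul_nonneg he.le (sub_nonneg.2 h6)]
        norm_num at h3 h7 h8 ⊢
        linarith

end Sch

theorem SCH_thm (hGM1 : Stmt_GM1) : Stmt_SCH := by
  intro m p hm hT c e hc0 hc1 he
  have hm0 : 0 < m := by linarith
  set u := e / c with hu_def
  have hu : 0 < u := by positivity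
  have hcu : c * u = e := by rw [hu_def]; field_simp
  have heu : e ≤ u := by rw [← hcu]; nlinarith
  obtain ⟨hp0, hp1, htan⟩ := hT
  obtain ⟨ht1, ht2⟩ := htan u hu
  have hgoal : Real.log e / 2 + mu u + hub (e - 1) / 400 ≤
      mu m - 1 / 2 - m * p + (e / 2 + p * u + u / 5 * (c - 1 / m) ^ 2) := by
    rcases le_total (29 / 100) u with h | h
    · have h1 := Sch.regA h he heu
      have h2 : (u - m) ^ 2 / (12 * u * m ^ 2) ≤
          (e - 1) ^ 2 / (7 * u) + u / 5 * (c - 1 / m) ^ 2 := by
        rw [← hcu]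
        have e1 : (c * u - 1) ^ 2 / (7 * u) + u / 5 * (c - 1 / m) ^ 2
            - (u - m) ^ 2 / (12 * u * m ^ 2)
            = (5 * (c * u - 1) + 7 * (c * u - u / m)) ^ 2 / (420 * u) := by
          field_simp
          ring
        have e2 : 0 ≤ (5 * (c * u - 1) + 7 * (c * u - u / m)) ^ 2 / (420 * u) := by positivity
        linarith
      linarith
    · have h1 := (hGM1 u hu).2.2
      have h2 := (hGM1 m hm0).1
      have h3 : 0 ≤ p * (u - m) := mul_nonneg_of_nonpos_of_nonpos hp0 (by linarith)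
      have h4 : 0 ≤ u / 5 * (c - 1 / m) ^ 2 := by positivity
      have h5 : hub (e - 1) ≤ 1 / 2 := by
        rw [Sch.hub_small (by rw [abs_le]; constructor <;> linarith)]
        nlinarith
      have h6 : Real.log (1 + 1 / (5 * u)) = Real.log (u + 1 / 5) - Real.log u := by
        rw [← Real.log_div (by positivity) hu.ne']
        congr 1
        field_simp
      have h7 := Sch.log_tan (a := 49 / 100) (by norm_num) (show 0 < u + 1 / 5 by positivity)
      have h8 := Sch.log49
      have h9 : Real.log (u + 1 / 5) ≤ u - 1 - 1 / 400 := by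
        norm_num at h7 h8 ⊢
        linarith
      -- `u - 1 - log u ≤ e - 1 - log e`
      have h10 := Sch.log_tan (a := u) hu he
      have h11 : e / u - 1 ≤ e - u := by
        have : e / u - 1 = (e - u) / u := by field_simp
        rw [this, div_le_iff₀ hu]
        nlinarith
      rw [h6] at h1
      nlinarith
  have e3 : Ac5 m p c / c * e = e / 2 + p * u + u / 5 * (c - 1 / m) ^ 2 := by
    unfold Ac5
    have e4 : (c / 2 + p + (c - 1 / m) ^ 2 / 5) / c * e
        = (c / 2 + p + (c - 1 / m) ^ 2 / 5) * u := by rw [hu_def]; ring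
    rw [e4, ← hcu]
    ring
  rw [e3]
  unfold al
  exact hgoal

end Pool.LIN
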