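import Pool.Agent.Work.MP_1c7b0d_lin.Interface
import Pool.Agent.Work.MP_1c7b0d_lh73.SPECL

/-! Block SPECH (helper45, adapted from helper58): the spectral step with the Huber loss. -/

open MeasureTheory Matrix Pool.LH60 Pool.LH73
open scoped BigOperators

namespace Pool.LIN

namespace SPECH

theorem core {ι : Type} [Fintype ι] {K : ℕ} {a : ι → Fin K → ℝ} {e : Fin K → ℝ}
    {y c A α : ι → ℝ} (F : ℝ → ℝ)
    (hg : ConvexOn ℝ (Set.Ioi 0) g) (hy : ∀ i, 0 < y i) (he : ∀ k, 0 < e k)
    (ha : ∀ i k, 0 ≤ a i k) (hsum : ∀ i, ∑ k, a i k = c i) (hes : ∀ k, ∑ i, y i * a i k = e k)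
    (hA : ∀ i, c i = 0 → 0 ≤ A i)
    (hsc : ∀ i, 0 < c i → ∀ t : ℝ, 0 < t →
      Real.log t / 2 + mu (t / c i) + F t ≤ α i + A i / c i * t) :
    (∑ k, Real.log (e k)) / 2 + ∑ i, y i * g (∑ k, a i k / e k) + ∑ k, F (e k) ≤
      ∑ i, α i * (y i * ∑ k, a i k / e k) + ∑ i, A i * y i := by
  have h1 := Pool.LH60.SPEC.lhs_le hg hy he ha hsum hes
  have h2 : ∑ k, F (e k) = ∑ i, ∑ k, y i * a i k / e k * F (e k) := by
    rw [Finset.sum_comm]
    refine Finset.sum_congr rfl fun k _ => ?_
    rw [← Finset.sum_mul, ← Finset.sum_div, hes k, div_self (he k).ne', one_mul]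
  have h3 : ∀ i k, Pool.LH60.SPEC.TT a e y c i k + y i * a i k / e k * F (e k) ≤
      y i * a i k / e k * α i + y i * a i k * (A i / c i) := by
    intro i k
    unfold Pool.LH60.SPEC.TT
    rcases (Pool.LH60.SPEC.c_nonneg ha hsum i).eq_or_lt' with hc | hc
    · rw [Pool.LH60.SPEC.a_zero ha hsum hc k]
      simp
    · have h4 := mul_le_mul_of_nonneg_left (hsc i hc _ (he k))
        (div_nonneg (mul_nonneg (hy i).le (ha i k)) (he k).le)
      have h5 : y i * a i k / e k * (α i + A i / c i * e k) =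
          y i * a i k / e k * α i + y i * a i k * (A i / c i) := by
        have := (he k).ne'
        rw [mul_add]
        refine congrArg _ ?_
        rw [div_mul_eq_mul_div, div_eq_iff this]
        ring
      rw [h5] at h4
      calc y i * a i k / e k * (Real.log (e k) / 2 + mu (e k / c i)) + y i * a i k / e k * F (e k)
          = y i * a i k / e k * (Real.log (e k) / 2 + mu (e k / c i) + F (e k)) := by ring
        _ ≤ _ := h4
  have h6 : ∑ i, ∑ k, (y i * a i k / e k * α i + y i * a i k * (A i / c i)) ≤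
      ∑ i, α i * (y i * ∑ k, a i k / e k) + ∑ i, A i * y i := by
    rw [← Finset.sum_add_distrib]
    refine Finset.sum_le_sum fun i _ => ?_
    rw [Finset.sum_add_distrib, ← Finset.sum_mul, ← Finset.sum_mul, ← Finset.mul_sum, hsum i]
    have h7 : (∑ k, y i * a i k / e k) * α i = α i * (y i * ∑ k, a i k / e k) := by
      rw [mul_comm, Finset.mul_sum (a := y i)]
      refine congrArg _ (Finset.sum_congr rfl fun k _ => ?_)
      ring
    rw [h7]
    refine add_le_add_right ?_ _
    rcases (Pool.LH60.SPEC.c_nonneg ha hsum i).eq_or_lt' with hc | hc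
    · rw [hc, mul_zero, zero_mul]
      exact mul_nonneg (hA i hc) (hy i).le
    · refine le_of_eq ?_
      have := hc.ne'
      field_simp
  calc (∑ k, Real.log (e k)) / 2 + ∑ i, y i * g (∑ k, a i k / e k) + ∑ k, F (e k)
      ≤ ∑ i, ∑ k, Pool.LH60.SPEC.TT a e y c i k + ∑ i, ∑ k, y i * a i k / e k * F (e k) := by
        rw [← h2]
        exact add_le_add_left h1 _
    _ = ∑ i, ∑ k, (Pool.LH60.SPEC.TT a e y c i k + y i * a i k / e k * F (e k)) := by
        rw [← Finset.sum_add_distrib]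
        refine Finset.sum_congr rfl fun i _ => ?_
        rw [← Finset.sum_add_distrib]
    _ ≤ ∑ i, ∑ k, (y i * a i k / e k * α i + y i * a i k * (A i / c i)) :=
        Finset.sum_le_sum fun i _ => Finset.sum_le_sum fun k _ => h3 i k
    _ ≤ _ := h6

end SPECH

theorem SPECH_thm (hGCV : Stmt_GCV) : Stmt_SPECH := by
  intro ι _ _ K Φ y A α e Q hy hE hA hsc
  obtain ⟨hsum, hes, hdet, hqf⟩ := Pool.LH73.SPECL.data Φ y e Q hE
  have h1 := SPECH.core (α := α) (fun t => hub (t - 1) / 400) hGCV hy hE.pos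
    (fun i k => sq_nonneg ((Φ * Q) i k)) hsum hes hA hsc
  have h2 : (∑ k, hub (e k - 1)) / 400 = ∑ k, hub (e k - 1) / 400 := Finset.sum_div _ _ _
  rw [hdet, h2]
  simp only [hqf]
  exact h1

end Pool.LIN
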