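import Pool.Agent.Work.MP_1c7b0d_lin.Interface
import Pool.Agent.Work.MP_1c7b0d_lh60.GM3

/-! Block TDE (helper79): the slope of the tangent of `mu` is its derivative. -/

open MeasureTheory Matrix Pool.LH60 Pool.LH73
open scoped BigOperators

namespace Pool.LIN

theorem TDE_thm (hGM3 : Stmt_GM3) : Stmt_TDE := by
  intro m hm
  have hd := mu_differentiableAt_GM3 m hm
  refine ⟨hd, ?_⟩
  obtain ⟨p, hp⟩ := hGM3 m hm
  have hder : HasDerivAt (fun u => mu u - mu m - p * (u - m)) (deriv mu m - p * 1) m := by
    have h1 := hd.hasDerivAt.sub_const (mu m)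
    have h2 := (((hasDerivAt_id m).sub_const m).const_mul p)
    exact h1.sub h2
  have hmin : IsLocalMin (fun u => mu u - mu m - p * (u - m)) m := by
    have hnear : ∀ᶠ u in nhds m, 0 < u := lt_mem_nhds hm
    filter_upwards [hnear] with u hu
    have h := (hp.2.2 u hu).1
    simp only [sub_self, mul_zero]
    exact h
  have h0 := hmin.hasDerivAt_eq_zero hder
  have h1 : deriv mu m = p := by linarith
  rw [h1]
  exact hp

end Pool.LIN
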