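import Pool.Agent.Work.MP_1c7b0d_lin.Interface

/-! Block TFA: facts on `ρ = Φ D⁻¹ Φᵀ` and `T = Y - YρY`. -/

open MeasureTheory Matrix Pool.LH60 Pool.LH73
open scoped BigOperators

namespace Pool.LIN

theorem TFA_thm (hPDG : Stmt_PDG) : Stmt_TFA := by
  intro ι _ _ K Φ y hΦ hy
  have hD : (Dm Φ y).PosDef := hPDG ι K Φ y hΦ hy
  have hu : IsUnit (Dm Φ y).det := (Matrix.isUnit_iff_isUnit_det _).mp hD.isUnit
  have hDt : (Dm Φ y)ᵀ = Dm Φ y := by
    unfold Dm
    rw [transpose_mul, transpose_mul, transpose_transpose, diagonal_transpose, Matrix.mul_assoc]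
  have hR : (rho Φ y)ᵀ = rho Φ y := by
    unfold rho
    rw [transpose_mul, transpose_mul, transpose_transpose, transpose_nonsing_inv, hDt,
      Matrix.mul_assoc]
  have hsym : ∀ i j, rho Φ y i j = rho Φ y j i := fun i j => by
    conv_lhs => rw [← hR]
    rfl
  have hRYR : rho Φ y * diagonal y * rho Φ y = rho Φ y := by
    have e : rho Φ y * diagonal y * rho Φ y =
        Φ * ((Dm Φ y)⁻¹ * (Dm Φ y)) * (Dm Φ y)⁻¹ * Φᵀ := by
      unfold rho Dm
      simp only [Matrix.mul_assoc]
    rw [e, Matrix.nonsing_inv_mul _ hu, Matrix.mul_one]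
    rfl
  have h6 : ∀ i, ∑ l, y l * (rho Φ y i l)^2 = rho Φ y i i := by
    intro i
    have h := congrFun (congrFun hRYR i) i
    rw [Matrix.mul_apply] at h
    rw [← h]
    refine Finset.sum_congr rfl fun l _ => ?_
    rw [Matrix.mul_diagonal, hsym l i]
    ring
  have h0 : ∀ i, 0 ≤ rho Φ y i i := fun i => by
    rw [← h6 i]
    exact Finset.sum_nonneg fun l _ => mul_nonneg (hy l).le (sq_nonneg _)
  have hle : ∀ i l, y l * (rho Φ y i l)^2 ≤ rho Φ y i i := fun i l => by
    rw [← h6 i]
    exact Finset.single_le_sum (f := fun l => y l * (rho Φ y i l)^2)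
      (fun l _ => mul_nonneg (hy l).le (sq_nonneg _)) (Finset.mem_univ l)
  have h1 : ∀ i, y i * rho Φ y i i ≤ 1 := by
    intro i
    rcases (h0 i).eq_or_lt with h | h
    · rw [← h]; simp
    · have := hle i i
      by_contra hc
      push Not at hc
      nlinarith
  have hT : Tm Φ y = diagonal y - diagonal y * rho Φ y * diagonal y := by
    ext i j
    rw [Matrix.sub_apply, Matrix.mul_diagonal, Matrix.diagonal_mul, Matrix.diagonal_apply]
    rfl
  have hTii : ∀ i, Tm Φ y i i = y i * (1 - y i * rho Φ y i i) := by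
    intro i
    simp only [Tm, Matrix.of_apply, if_true]
    ring
  have h9 : ∀ i, 0 ≤ Tm Φ y i i ∧ Tm Φ y i i ≤ y i := by
    intro i
    rw [hTii]
    have a := h0 i
    have b := h1 i
    have c := hy i
    have d : 0 ≤ y i * rho Φ y i i := mul_nonneg c.le a
    constructor <;> nlinarith
  refine ⟨hR, ?_, ?_, ?_, fun i => ⟨h0 i, h1 i⟩, h6, ?_, ?_, h9⟩
  · rw [hT, transpose_sub, transpose_mul, transpose_mul, diagonal_transpose, hR, Matrix.mul_assoc]
  · rw [hT, Matrix.sub_mul]
    have e : diagonal y * rho Φ y * diagonal y * Φ =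
        diagonal y * Φ * ((Dm Φ y)⁻¹ * (Dm Φ y)) := by
      unfold rho Dm
      simp only [Matrix.mul_assoc]
    rw [e, Matrix.nonsing_inv_mul _ hu, Matrix.mul_one, sub_self]
  · intro x
    -- `v = R (Y x)`
    obtain ⟨v, hvd⟩ : ∃ v : ι → ℝ, ∀ i, v i = ∑ j, rho Φ y i j * (y j * x j) :=
      ⟨fun i => ∑ j, rho Φ y i j * (y j * x j), fun _ => rfl⟩
    have e1 : ∑ i, ∑ j, x i * Tm Φ y i j * x j = ∑ i, y i * (x i)^2 - ∑ i, y i * x i * v i := by
      rw [← Finset.sum_sub_distrib]
      refine Finset.sum_congr rfl fun i _ => ?_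
      have : ∀ j, x i * Tm Φ y i j * x j =
          (if i = j then x i * y i * x j else 0) - y i * x i * (rho Φ y i j * (y j * x j)) := by
        intro j
        simp only [Tm, Matrix.of_apply]
        split_ifs <;> ring
      simp only [this]
      rw [Finset.sum_sub_distrib, Finset.sum_ite_eq, if_pos (Finset.mem_univ _), ← Finset.mul_sum,
        ← hvd i]
      ring
    have e2 : ∑ i, y i * x i * v i = ∑ i, y i * (v i)^2 := by
      have hv : ∀ i, v i = ∑ l, rho Φ y i l * (y l * v l) := by
        intro i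
        have h : ∀ j, rho Φ y i j = ∑ l, rho Φ y i l * y l * rho Φ y l j := by
          intro j
          have h := congrFun (congrFun hRYR i) j
          rw [Matrix.mul_apply] at h
          rw [← h]
          refine Finset.sum_congr rfl fun l _ => ?_
          rw [Matrix.mul_diagonal]
        calc v i = ∑ j, rho Φ y i j * (y j * x j) := hvd i
          _ = ∑ j, ∑ l, rho Φ y i l * y l * rho Φ y l j * (y j * x j) := by
              refine Finset.sum_congr rfl fun j _ => ?_
              conv_lhs => rw [h j]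
              rw [Finset.sum_mul]
          _ = ∑ l, ∑ j, rho Φ y i l * y l * rho Φ y l j * (y j * x j) := Finset.sum_comm
          _ = _ := by
              refine Finset.sum_congr rfl fun l _ => ?_
              rw [hvd l, Finset.mul_sum, Finset.mul_sum]
              refine Finset.sum_congr rfl fun j _ => ?_
              ring
      calc ∑ i, y i * x i * v i = ∑ i, ∑ l, y i * x i * (rho Φ y i l * (y l * v l)) := by
            refine Finset.sum_congr rfl fun i _ => ?_
            conv_lhs => rw [hv i]
            rw [Finset.mul_sum]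
        _ = ∑ l, ∑ i, y i * x i * (rho Φ y i l * (y l * v l)) := Finset.sum_comm
        _ = ∑ l, y l * (v l)^2 := by
            refine Finset.sum_congr rfl fun l _ => ?_
            have : y l * (v l)^2 = (y l * v l) * ∑ j, rho Φ y l j * (y j * x j) := by
              rw [← hvd l]
              ring
            rw [this, Finset.mul_sum]
            refine Finset.sum_congr rfl fun i _ => ?_
            rw [hsym i l]
            ring
    have p2 : 0 ≤ ∑ i, y i * (v i)^2 :=
      Finset.sum_nonneg fun i _ => mul_nonneg (hy i).le (sq_nonneg _)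
    have p3 : 0 ≤ ∑ i, y i * (x i - v i)^2 :=
      Finset.sum_nonneg fun i _ => mul_nonneg (hy i).le (sq_nonneg _)
    have e3 : ∑ i, y i * (x i - v i)^2 =
        ∑ i, y i * (x i)^2 - 2 * ∑ i, y i * x i * v i + ∑ i, y i * (v i)^2 := by
      rw [Finset.mul_sum, ← Finset.sum_sub_distrib, ← Finset.sum_add_distrib]
      refine Finset.sum_congr rfl fun i _ => ?_
      ring
    rw [e1]
    constructor <;> linarith
  · intro i l
    rcases eq_or_ne i l with rfl | hil
    · have h := h9 i
      nlinarith [hy i]
    · have e : Tm Φ y i l = - (y i * rho Φ y i l * y l) := by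
        simp only [Tm, Matrix.of_apply, if_neg hil]
        ring
      have h2 : y i * (rho Φ y i i)^2 + y l * (rho Φ y i l)^2 ≤ rho Φ y i i := by
        have := Finset.sum_le_sum_of_subset_of_nonneg (s := {i, l}) (t := Finset.univ)
          (f := fun l => y l * (rho Φ y i l)^2) (Finset.subset_univ _)
          (fun l _ _ => mul_nonneg (hy l).le (sq_nonneg _))
        rw [Finset.sum_pair hil, h6 i] at this
        exact this
      have h3 : y i * y l * (rho Φ y i l)^2 ≤ 1 := by
        have h4 := h1 i
        have h5 := h0 i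
        have h6' := hy i
        nlinarith [mul_nonneg h6'.le h5, sq_nonneg (y i * rho Φ y i i)]
      rw [e]
      have : (-(y i * rho Φ y i l * y l))^2 = y i * y l * (y i * y l * (rho Φ y i l)^2) := by ring
      rw [this]
      have hyy : 0 < y i * y l := mul_pos (hy i) (hy l)
      nlinarith
  · have : ∑ i, y i * rho Φ y i i = (diagonal y * rho Φ y).trace := by
      rw [Matrix.trace]
      refine Finset.sum_congr rfl fun i _ => ?_
      rw [Matrix.diag_apply, Matrix.diagonal_mul]
    rw [this]
    have e : (diagonal y * rho Φ y).trace = ((Dm Φ y) * (Dm Φ y)⁻¹).trace := by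
      have e1 : diagonal y * rho Φ y = (diagonal y * Φ * (Dm Φ y)⁻¹) * Φᵀ := by
        unfold rho
        simp only [Matrix.mul_assoc]
      have e2 : Dm Φ y * (Dm Φ y)⁻¹ = Φᵀ * (diagonal y * Φ * (Dm Φ y)⁻¹) := by
        have e3 : Dm Φ y * (Dm Φ y)⁻¹ = (Φᵀ * diagonal y * Φ) * (Dm Φ y)⁻¹ := rfl
        rw [e3]
        simp only [Matrix.mul_assoc]
      rw [e1, e2, Matrix.trace_mul_comm]
    rw [e, Matrix.mul_nonsing_inv _ hu, Matrix.trace_one, Fintype.card_fin]

end Pool.LIN
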