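import Pool.Agent.Work.MP_1c7b0d_lin.Interface
import Pool.Agent.Work.MP_1c7b0d_lh73.TOP73

open MeasureTheory Matrix Pool.LH60 Pool.LH73
open scoped BigOperators

namespace Pool.LIN

open TOP73 in
theorem TOPL_thm (hL : Stmt_LOWL) (hX : Stmt_EXVG) (hE : Stmt_EXIG) (hI : Stmt_ISOG)
    (hT : Stmt_TRF) : Stmt_TOPL := by
  obtain ⟨M₀, hM₀, hL⟩ := hL
  refine ⟨M₀, fun d K hK hd => ?_⟩
  have hKd : K ≤ d := by nlinarith
  refine ⟨?_, ?_, ?_⟩
  · intro u hu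
    obtain ⟨hv, hun⟩ := hT d K u hu
    obtain ⟨h1, h2⟩ := hL d K (matU u) hK hd hun
    rw [hv]
    refine ⟨h1, ?_⟩
    rw [← patG_iff]
    exact ⟨h2, fun h => hX d K (matU u) hK hKd hun h⟩
  · obtain ⟨U, hU, hp⟩ := hE d K hK hKd
    have hn := norm_vecU U hU
    refine ⟨vecU U, hn, ?_⟩
    obtain ⟨hv, hun⟩ := hT d K (vecU U) hn
    rw [hv, matU_vecU]
    exact hX d K U hK hKd hU hp
  · intro u u' hu hu' h h'
    obtain ⟨hv, hun⟩ := hT d K u hu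
    obtain ⟨hv', hun'⟩ := hT d K u' hu'
    refine hI d K u u' hK hKd hu hu' ?_ ?_
    · exact (hL d K (matU u) hK hd hun).2 (hv ▸ h)
    · exact (hL d K (matU u') hK hd hun').2 (hv' ▸ h')

end Pool.LIN
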