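import Pool.Agent.Work.MP_1c7b0d_lin.Interface

/-! TOT (helper73): the exact identity behind the comparison with the product of simplices. -/

open MeasureTheory Matrix Pool.LH60 Pool.LH73
open scoped BigOperators

namespace Pool.LIN

namespace TOT

variable {ι : Type} [Fintype ι] [DecidableEq ι] {L : ℕ}

omit [DecidableEq ι] in
theorem split (a : ι → Option (Fin L)) (F : ι → ℝ) :
    ∑ i, F i = ∑ b, ∑ i ∈ fb a b, F i + ∑ i ∈ rs a, F i := by
  have h : ∑ i, F i = ∑ o : Option (Fin L), ∑ i ∈ Finset.univ.filter (fun i => a i = o), F i :=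
    (Finset.sum_fiberwise Finset.univ a F).symm
  rw [h, Fintype.sum_option, add_comm]
  rfl

omit [DecidableEq ι] in
theorem sum_fb (a : ι → Option (Fin L)) (b : Fin L) (F G : ι → ℝ)
    (h : ∀ i, a i = some b → F i = G i) : ∑ i ∈ fb a b, F i = ∑ i ∈ fb a b, G i := by
  refine Finset.sum_congr rfl fun i hi => h i ?_
  unfold fb at hi
  exact (Finset.mem_filter.1 hi).2

omit [DecidableEq ι] in
theorem sum_rs (a : ι → Option (Fin L)) (F G : ι → ℝ)
    (h : ∀ i, a i = none → F i = G i) : ∑ i ∈ rs a, F i = ∑ i ∈ rs a, G i := by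
  refine Finset.sum_congr rfl fun i hi => h i ?_
  unfold rs at hi
  exact (Finset.mem_filter.1 hi).2

end TOT

open TOT in
theorem TOT_thm : Stmt_TOT := by
  intro ι _ _ L a K ms ps l0 pb c R hmz hms hc hR hl
  have hmz' : ∀ b, (mz a b : ℝ) ≠ 0 := fun b => by
    have : (2:ℝ) ≤ mz a b := by exact_mod_cast hmz b
    linarith
  have hms' : ms ≠ 0 := by linarith
  -- names
  set N : ℝ := ((rs a).card : ℝ) with hN
  set ll : ℝ := Real.log (1 - 1/ms) with hll
  set lb : Fin L → ℝ := fun b => Real.log (1 - 1/(mz a b : ℝ)) with hlb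
  set Rb : Fin L → ℝ := fun b => ∑ i ∈ fb a b, R i with hRb
  set Cb' : Fin L → ℝ := fun b => ∑ i ∈ fb a b, c i with hCb
  have rfb : ∀ i b, a i = some b → rf a ms i = mz a b := fun i b h => by simp [rf, h]
  have pfb : ∀ i b, a i = some b → pf a ps pb i = pb b := fun i b h => by simp [pf, h]
  have rfn : ∀ i, a i = none → rf a ms i = ms := fun i h => by simp [rf, h]
  have pfn : ∀ i, a i = none → pf a ps pb i = ps := fun i h => by simp [pf, h]
  -- cardinality
  have c1 : (Fintype.card ι : ℝ) = ∑ b, (mz a b : ℝ) + N := by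
    have h := split a (fun _ => (1:ℝ))
    simp only [Finset.sum_const, nsmul_eq_mul, mul_one, Finset.card_univ] at h
    exact h
  have c2 : ∑ i ∈ rs a, R i = K - ∑ b, Rb b := by
    have h := split a R
    rw [hR] at h
    linarith
  have c3 : ∑ i ∈ rs a, c i = K - ∑ b, Cb' b := by
    have h := split a c
    rw [hc] at h
    linarith
  have s1 : ∑ i, al (rf a ms i) (pf a ps pb i) * R i =
      ∑ b, al (mz a b) (pb b) * Rb b + al ms ps * (K - ∑ b, Rb b) := by
    rw [split a, ← c2, Finset.mul_sum]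
    congr 1
    · refine Finset.sum_congr rfl fun b _ => ?_
      rw [sum_fb a b _ (fun i => al (mz a b) (pb b) * R i) (fun i h => by rw [rfb i b h, pfb i b h]),
        ← Finset.mul_sum]
    · exact sum_rs a _ _ (fun i h => by rw [rfn i h, pfn i h])
  have s2 : ∑ i, (c i / 2 + pf a ps pb i) = K / 2 + ∑ b, (mz a b : ℝ) * pb b + N * ps := by
    rw [Finset.sum_add_distrib, ← Finset.sum_div, hc, split a (pf a ps pb), add_assoc]
    congr 2
    · refine Finset.sum_congr rfl fun b _ => ?_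
      rw [sum_fb a b _ (fun i => pb b) (fun i h => pfb i b h), Finset.sum_const, nsmul_eq_mul]
      rfl
    · rw [sum_rs a _ (fun i => ps) (fun i h => pfn i h), Finset.sum_const, nsmul_eq_mul]
  have s3 : ∑ i, ((1 - 1/rf a ms i) * Real.log (1 - 1/rf a ms i)
        - (1 + Real.log (1 - 1/rf a ms i)) * (c i - 1/rf a ms i)) =
      ∑ b, (((mz a b : ℝ) - 1) * lb b - (1 + lb b) * (Cb' b - 1)) +
      (N * (1 - 1/ms) * ll - (1 + ll) * (K - ∑ b, Cb' b - N / ms)) := by
    rw [split a, ← c3]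
    congr 1
    · refine Finset.sum_congr rfl fun b _ => ?_
      rw [sum_fb a b _ (fun i => (1 - 1/(mz a b : ℝ)) * lb b - (1 + lb b) * (c i - 1/(mz a b : ℝ)))
        (fun i h => by rw [rfb i b h]), Finset.sum_sub_distrib, Finset.sum_const, nsmul_eq_mul,
        ← Finset.mul_sum, Finset.sum_sub_distrib, Finset.sum_const, nsmul_eq_mul]
      have h1 : ((fb a b).card : ℝ) = (mz a b : ℝ) := rfl
      rw [h1]
      have h2 := hmz' b
      have h3 : (mz a b : ℝ) * ((1 - 1/(mz a b : ℝ)) * lb b) = ((mz a b : ℝ) - 1) * lb b := by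
        field_simp
      have h4 : (mz a b : ℝ) * (1/(mz a b : ℝ)) = 1 := by field_simp
      rw [h3, h4]
    · rw [sum_rs a _ (fun i => (1 - 1/ms) * ll - (1 + ll) * (c i - 1/ms))
        (fun i h => by rw [rfn i h]), Finset.sum_sub_distrib, Finset.sum_const, nsmul_eq_mul,
        ← Finset.mul_sum, Finset.sum_sub_distrib, Finset.sum_const, nsmul_eq_mul]
      ring
  -- expansions of the sums over the classes
  have t1 : ∑ b, Fs (mz a b) = (∑ b, ((mz a b : ℝ) - 1) * lb b) / 2 + ∑ b, (mz a b : ℝ)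
      - L * (Real.log (2 * Real.pi) / 2) - ∑ b, mu (mz a b) := by
    have h : ∀ b, Fs (mz a b) = ((mz a b : ℝ) - 1) * lb b / 2 + (mz a b : ℝ)
        - Real.log (2 * Real.pi) / 2 - mu (mz a b) := fun b => by
      unfold Fs
      simp only [hlb]
      ring
    rw [Finset.sum_congr rfl (fun b _ => h b), Finset.sum_sub_distrib, Finset.sum_sub_distrib,
      Finset.sum_add_distrib, ← Finset.sum_div, Finset.sum_const, Finset.card_univ,
      Fintype.card_fin, nsmul_eq_mul]
  have t2 : ∑ b, (al (mz a b) (pb b) - al ms ps) * (1 - Rb b) =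
      ∑ b, mu (mz a b) - L * (1/2) - ∑ b, (mz a b : ℝ) * pb b - L * al ms ps
      - ∑ b, al (mz a b) (pb b) * Rb b + al ms ps * ∑ b, Rb b := by
    have h : ∀ b, (al (mz a b) (pb b) - al ms ps) * (1 - Rb b) =
        mu (mz a b) - 1/2 - (mz a b : ℝ) * pb b - al ms ps - al (mz a b) (pb b) * Rb b
        + al ms ps * Rb b := fun b => by
      rw [show al (mz a b) (pb b) = mu (mz a b) - 1/2 - (mz a b : ℝ) * pb b from rfl]
      ring
    rw [Finset.sum_congr rfl (fun b _ => h b), Finset.sum_add_distrib, Finset.sum_sub_distrib,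
      Finset.sum_sub_distrib, Finset.sum_sub_distrib, Finset.sum_sub_distrib, Finset.mul_sum,
      Finset.sum_const, Finset.sum_const, Finset.card_univ, Fintype.card_fin, nsmul_eq_mul,
      nsmul_eq_mul]
  have t3 : ∑ b, (lb b - ll) * (Cb' b - 1) = ∑ b, lb b * (Cb' b - 1)
      - ll * (∑ b, Cb' b - L) := by
    have h : ∀ b, (lb b - ll) * (Cb' b - 1) = lb b * (Cb' b - 1) - (ll * Cb' b - ll) := fun b => by
      ring
    rw [Finset.sum_congr rfl (fun b _ => h b), Finset.sum_sub_distrib, Finset.sum_sub_distrib,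
      ← Finset.mul_sum, Finset.sum_const, Finset.card_univ, Fintype.card_fin, nsmul_eq_mul]
    ring
  have t4 : ∑ b, (((mz a b : ℝ) - 1) * lb b - (1 + lb b) * (Cb' b - 1)) =
      ∑ b, ((mz a b : ℝ) - 1) * lb b - (∑ b, Cb' b - L) - ∑ b, lb b * (Cb' b - 1) := by
    have h : ∀ b, (((mz a b : ℝ) - 1) * lb b - (1 + lb b) * (Cb' b - 1)) =
        ((mz a b : ℝ) - 1) * lb b - (Cb' b - 1) - lb b * (Cb' b - 1) := fun b => by ring
    rw [Finset.sum_congr rfl (fun b _ => h b), Finset.sum_sub_distrib, Finset.sum_sub_distrib,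
      Finset.sum_sub_distrib, Finset.sum_const, Finset.card_univ, Fintype.card_fin, nsmul_eq_mul,
      mul_one]
  have t5 : Fs ms = (ms - 1) / 2 * ll + ms - Real.log (2 * Real.pi) / 2 - mu ms := rfl
  have t6 : al ms ps = mu ms - 1/2 - ms * ps := rfl
  have t7 : N * (1 - 1/ms) * ll - (1 + ll) * (K - ∑ b, Cb' b - N / ms) =
      N * ll - (1 + ll) * (K - ∑ b, Cb' b) + N * (1/ms) := by
    ring
  have t8 : ms * l0 = ms * ll / 2 + 1/2 + ms - ms * ps := by
    rw [← hl]
    field_simp
  rw [s1, s2, s3, c1, t1, t2, t3, t4, t7, t5, t8, ← hl, t6]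
  ring

end Pool.LIN
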