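import Pool.Agent.Work.MP_1c7b0d_lin.Interface

/-! Block TRC: counting of small eigenvalues. helper96 -/

open MeasureTheory Matrix Pool.LH60 Pool.LH73

namespace Pool.LIN

namespace TRC

theorem quad {K : ℕ} {D : Matrix (Fin K) (Fin K) ℝ} {e : Fin K → ℝ}
    {Q : Matrix (Fin K) (Fin K) ℝ} (h : EigD D e Q) (x : Fin K → ℝ) :
    x ⬝ᵥ (D *ᵥ x) = ∑ k, e k * (Qᵀ *ᵥ x) k ^ 2 := by
  rw [h.eq, ← Matrix.mulVec_mulVec, ← Matrix.mulVec_mulVec, Matrix.dotProduct_mulVec,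
    ← Matrix.mulVec_transpose]
  simp only [dotProduct, Matrix.mulVec_diagonal]
  exact Finset.sum_congr rfl fun k _ => by ring

theorem normsq {K : ℕ} {D : Matrix (Fin K) (Fin K) ℝ} {e : Fin K → ℝ}
    {Q : Matrix (Fin K) (Fin K) ℝ} (h : EigD D e Q) (x : Fin K → ℝ) :
    x ⬝ᵥ x = ∑ k, (Qᵀ *ᵥ x) k ^ 2 := by
  have h1 : Q * Qᵀ = 1 := mul_eq_one_comm.1 h.orth
  have h2 : x = Q *ᵥ (Qᵀ *ᵥ x) := by
    rw [Matrix.mulVec_mulVec, h1, Matrix.one_mulVec]
  have h3 : x ⬝ᵥ x = x ⬝ᵥ (Q *ᵥ (Qᵀ *ᵥ x)) := by rw [← h2]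
  rw [h3, Matrix.dotProduct_mulVec, ← Matrix.mulVec_transpose]
  simp only [dotProduct]
  exact Finset.sum_congr rfl fun k _ => by ring

theorem quadDm {ι : Type} [Fintype ι] [DecidableEq ι] {K : ℕ} (Φ : Matrix ι (Fin K) ℝ)
    (y : ι → ℝ) (x : Fin K → ℝ) :
    x ⬝ᵥ (Dm Φ y *ᵥ x) = ∑ i, y i * (Φ *ᵥ x) i ^ 2 := by
  rw [Dm, ← Matrix.mulVec_mulVec, ← Matrix.mulVec_mulVec, Matrix.dotProduct_mulVec,
    ← Matrix.mulVec_transpose, Matrix.transpose_transpose]
  simp only [dotProduct, Matrix.mulVec_diagonal]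
  exact Finset.sum_congr rfl fun k _ => by ring

end TRC

open TRC in
theorem TRC_thm : Stmt_TRC := by
  intro ι _ _ K Φ y z e e' Q Q' c hz hy
  by_contra hlt
  rw [not_le] at hlt
  -- a vector orthogonal to everything
  let M : Matrix (({k : Fin K // ¬ e k < c} ⊕ {k : Fin K // e' k < c}) ⊕ {i : ι // z i ≠ y i})
      (Fin K) ℝ :=
    Matrix.of (Sum.elim (Sum.elim (fun k j => Q j k.1) (fun k j => Q' j k.1)) (fun i j => Φ i.1 j))
  have hfr : Module.finrank ℝ (({k : Fin K // ¬ e k < c} ⊕ {k : Fin K // e' k < c}) ⊕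
      {i : ι // z i ≠ y i} → ℝ) < Module.finrank ℝ (Fin K → ℝ) := by
    rw [Module.finrank_fintype_fun_eq_card, Module.finrank_fintype_fun_eq_card,
      Fintype.card_sum, Fintype.card_sum, Fintype.card_subtype, Fintype.card_subtype,
      Fintype.card_subtype, Fintype.card_fin]
    have h1 : (Finset.univ.filter (fun k => e k < c)).card +
        (Finset.univ.filter (fun k => ¬ e k < c)).card = K := by
      rw [Finset.card_filter_add_card_filter_not, Finset.card_univ, Fintype.card_fin]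
    omega
  have hker := LinearMap.ker_ne_bot_of_finrank_lt (f := M.mulVecLin) hfr
  obtain ⟨x, hx, hx0⟩ := (Submodule.ne_bot_iff _).1 hker
  rw [LinearMap.mem_ker, Matrix.mulVecLin_apply] at hx
  have a1 : ∀ k, ¬ e k < c → (Qᵀ *ᵥ x) k = 0 := by
    intro k hk
    have := congrFun hx (Sum.inl (Sum.inl ⟨k, hk⟩))
    exact this
  have a2 : ∀ k, e' k < c → (Q'ᵀ *ᵥ x) k = 0 := by
    intro k hk
    have := congrFun hx (Sum.inl (Sum.inr ⟨k, hk⟩))
    exact this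
  have a3 : ∀ i, z i ≠ y i → (Φ *ᵥ x) i = 0 := by
    intro i hi
    have := congrFun hx (Sum.inr ⟨i, hi⟩)
    exact this
  have b1 : x ⬝ᵥ (Dm Φ z *ᵥ x) = x ⬝ᵥ (Dm Φ y *ᵥ x) := by
    rw [quadDm, quadDm]
    refine Finset.sum_congr rfl fun i _ => ?_
    by_cases h : z i = y i
    · rw [h]
    · rw [a3 i h]; ring
  have b2 : c * (x ⬝ᵥ x) ≤ x ⬝ᵥ (Dm Φ y *ᵥ x) := by
    rw [quad hy, normsq hy, Finset.mul_sum]
    refine Finset.sum_le_sum fun k _ => ?_
    by_cases h : e' k < c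
    · rw [a2 k h]; simp
    · exact mul_le_mul_of_nonneg_right (not_lt.1 h) (sq_nonneg _)
  have b3 : x ⬝ᵥ (Dm Φ z *ᵥ x) < c * (x ⬝ᵥ x) := by
    rw [quad hz, normsq hz, Finset.mul_sum]
    have hne : ∃ k, (Qᵀ *ᵥ x) k ≠ 0 := by
      by_contra hcon
      push Not at hcon
      apply hx0
      have h1 : x ⬝ᵥ x = 0 := by
        rw [normsq hz]
        exact Finset.sum_eq_zero fun k _ => by rw [hcon k]; ring
      exact dotProduct_self_eq_zero.1 h1
    obtain ⟨k₀, hk₀⟩ := hne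
    apply Finset.sum_lt_sum
    · intro k _
      by_cases h : e k < c
      · exact mul_le_mul_of_nonneg_right h.le (sq_nonneg _)
      · rw [a1 k h]; simp
    · refine ⟨k₀, Finset.mem_univ _, ?_⟩
      have h : e k₀ < c := by
        by_contra h
        exact hk₀ (a1 k₀ h)
      exact mul_lt_mul_of_pos_right h (by positivity)
  linarith

end Pool.LIN
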