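import Pool.Agent.Work.MP_1c7b0d_lin.Interface
set_option autoImplicit false

/-! Block TRU: lowering some of the weights -/

open MeasureTheory Matrix Pool.LH60 Pool.LH73
open scoped BigOperators

namespace Pool.LIN

theorem tru_hub_mono {s t : ℝ} (hs : 0 ≤ s) (hst : s ≤ t) : hub s ≤ hub t := by
  have ht : 0 ≤ t := hs.trans hst
  unfold hub
  rw [abs_of_nonneg hs, abs_of_nonneg ht]
  split_ifs with h1 h2 h2
  · nlinarith
  · nlinarith
  · exfalso; linarith
  · linarith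

theorem tru_hp_eq (e : ℝ) : hp e = hub (max (e - 1) 0) := by
  unfold hp
  split_ifs with h
  · rw [max_eq_left (by linarith)]
  · rw [max_eq_right (by linarith)]
    unfold hub
    simp

theorem tru_hp_mono {s t : ℝ} (hst : s ≤ t) : hp s ≤ hp t := by
  rw [tru_hp_eq, tru_hp_eq]
  exact tru_hub_mono (le_max_right _ _) (max_le_max (by linarith) le_rfl)

theorem tru_hp_jensen {K : ℕ} (hc : ConvexOn ℝ Set.univ hub) (w e : Fin K → ℝ)
    (hw : ∀ j, 0 ≤ w j) (h1 : ∑ j, w j = 1) : hp (∑ j, w j * e j) ≤ ∑ j, w j * hp (e j) := by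
  have h2 : max (∑ j, w j * e j - 1) 0 ≤ ∑ j, w j * max (e j - 1) 0 := by
    apply max_le
    · calc ∑ j, w j * e j - 1 = ∑ j, w j * e j - ∑ j, w j := by rw [h1]
        _ = ∑ j, w j * (e j - 1) := by
            rw [← Finset.sum_sub_distrib]
            exact Finset.sum_congr rfl fun j _ => by ring
        _ ≤ _ := Finset.sum_le_sum fun j _ => mul_le_mul_of_nonneg_left (le_max_left _ _) (hw j)
    · exact Finset.sum_nonneg fun j _ => mul_nonneg (hw j) (le_max_right _ _)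
  have h3 := hc.map_sum_le (t := Finset.univ) (w := w) (p := fun j => max (e j - 1) 0)
    (fun j _ => hw j) h1 (fun j _ => Set.mem_univ _)
  simp only [smul_eq_mul] at h3
  rw [tru_hp_eq]
  calc hub (max (∑ j, w j * e j - 1) 0) ≤ hub (∑ j, w j * max (e j - 1) 0) :=
        tru_hub_mono (le_max_right _ _) h2
    _ ≤ ∑ j, w j * hub (max (e j - 1) 0) := h3
    _ = _ := Finset.sum_congr rfl fun j _ => by rw [tru_hp_eq]

theorem TRU_thm (hTRC : Stmt_TRC) (hTRS : Stmt_TRS) (hGGE : Stmt_GGE) (hEIGX : Stmt_EIGX)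
    (hPDG : Stmt_PDG) (hHUB : Stmt_HUB) : Stmt_TRU := by
  intro ι _ _ K Φ y z hΦ hzy
  have hz : ∀ i, 0 < z i := fun i => (hzy i).1
  have hy : ∀ i, 0 < y i := fun i => (hzy i).1.trans_le (hzy i).2
  obtain ⟨e, Q, hQ⟩ := hEIGX K (Dm Φ z) (hPDG ι K Φ z hΦ hz)
  obtain ⟨e', Q', hQ'⟩ := hEIGX K (Dm Φ y) (hPDG ι K Φ y hΦ hy)
  have hhub := hHUB.2.2.2.2.2.2.2.2.2
  have hG : GG (Dm Φ z) = ∑ k, hm (e k) + ∑ k, hp (e k) := by
    rw [hGGE K _ e Q hQ, ← Finset.sum_add_distrib]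
    exact Finset.sum_congr rfl fun k _ => hhub _ (hQ.pos k)
  have hG' : GG (Dm Φ y) = ∑ k, hm (e' k) + ∑ k, hp (e' k) := by
    rw [hGGE K _ e' Q' hQ', ← Finset.sum_add_distrib]
    exact Finset.sum_congr rfl fun k _ => hhub _ (hQ'.pos k)
  have h1 : ∑ k, hm (e k) ≤ ∑ k, hm (e' k) +
      ((Finset.univ.filter (fun i => z i ≠ y i)).card : ℝ) / 2 :=
    hTRS K _ e e' hQ.pos hQ'.pos fun c => hTRC ι K Φ y z e e' Q Q' c hQ hQ'
  -- the convex part
  let P : Matrix (Fin K) (Fin K) ℝ := Qᵀ * Q'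
  have hQQ : Q * Qᵀ = 1 := mul_eq_one_comm.1 hQ.orth
  have hQQ' : Q' * Q'ᵀ = 1 := mul_eq_one_comm.1 hQ'.orth
  have hP1 : P * Pᵀ = 1 := by
    show (Qᵀ * Q') * (Qᵀ * Q')ᵀ = 1
    rw [Matrix.transpose_mul, Matrix.transpose_transpose, Matrix.mul_assoc, ← Matrix.mul_assoc Q',
      hQQ', Matrix.one_mul, hQ.orth]
  have hP2 : Pᵀ * P = 1 := mul_eq_one_comm.1 hP1
  have hrow : ∀ k, ∑ j, (P k j)^2 = 1 := by
    intro k
    have := congrFun (congrFun hP1 k) k
    rw [Matrix.mul_apply, Matrix.one_apply_eq] at this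
    rw [← this]
    exact Finset.sum_congr rfl fun j _ => by rw [Matrix.transpose_apply, sq]
  have hcol : ∀ j, ∑ k, (P k j)^2 = 1 := by
    intro j
    have := congrFun (congrFun hP2 j) j
    rw [Matrix.mul_apply, Matrix.one_apply_eq] at this
    rw [← this]
    exact Finset.sum_congr rfl fun k _ => by rw [Matrix.transpose_apply, sq]
  have hDz : Qᵀ * Dm Φ z * Q = Matrix.diagonal e := by
    rw [hQ.eq]
    calc Qᵀ * (Q * Matrix.diagonal e * Qᵀ) * Q = (Qᵀ * Q) * Matrix.diagonal e * (Qᵀ * Q) := by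
          simp only [Matrix.mul_assoc]
      _ = _ := by rw [hQ.orth, Matrix.one_mul, Matrix.mul_one]
  have hDy : Qᵀ * Dm Φ y * Q = P * Matrix.diagonal e' * Pᵀ := by
    rw [hQ'.eq]
    show _ = (Qᵀ * Q') * Matrix.diagonal e' * (Qᵀ * Q')ᵀ
    rw [Matrix.transpose_mul, Matrix.transpose_transpose]
    simp only [Matrix.mul_assoc]
  have hqf : ∀ (x : ι → ℝ) (k : Fin K), (Qᵀ * Dm Φ x * Q) k k = ∑ i, x i * ((Φ * Q) i k)^2 := by
    intro x k
    have h : Qᵀ * Dm Φ x * Q = (Φ * Q)ᵀ * Matrix.diagonal x * (Φ * Q) := by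
      unfold Dm
      rw [Matrix.transpose_mul]
      simp only [Matrix.mul_assoc]
    rw [h, Matrix.mul_apply]
    refine Finset.sum_congr rfl fun i _ => ?_
    rw [Matrix.mul_diagonal, Matrix.transpose_apply]
    ring
  have hle : ∀ k, e k ≤ ∑ j, (P k j)^2 * e' j := by
    intro k
    have h2 : e k = (Qᵀ * Dm Φ z * Q) k k := by rw [hDz, Matrix.diagonal_apply_eq]
    have h3 : (Qᵀ * Dm Φ y * Q) k k = ∑ j, (P k j)^2 * e' j := by
      rw [hDy, Matrix.mul_apply]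
      refine Finset.sum_congr rfl fun j _ => ?_
      rw [Matrix.mul_diagonal, Matrix.transpose_apply]
      ring
    rw [h2, ← h3, hqf, hqf]
    exact Finset.sum_le_sum fun i _ => mul_le_mul_of_nonneg_right (hzy i).2 (sq_nonneg _)
  have h2 : ∑ k, hp (e k) ≤ ∑ k, hp (e' k) := by
    calc ∑ k, hp (e k) ≤ ∑ k, ∑ j, (P k j)^2 * hp (e' j) := by
          refine Finset.sum_le_sum fun k _ => ?_
          exact (tru_hp_mono (hle k)).trans
            (tru_hp_jensen hHUB.2.2.1 (fun j => (P k j)^2) e' (fun j => sq_nonneg _) (hrow k))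
      _ = ∑ j, ∑ k, (P k j)^2 * hp (e' j) := Finset.sum_comm
      _ = ∑ j, hp (e' j) := by
          refine Finset.sum_congr rfl fun j _ => ?_
          rw [← Finset.sum_mul, hcol, one_mul]
  rw [hG, hG']
  linarith

end Pool.LIN
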