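import Pool.Agent.Work.MP_1c7b0d_lin.RES

/-! Freezing one coordinate (helper73). -/

open MeasureTheory Matrix Pool.LH60 Pool.LH73
open scoped BigOperators

namespace Pool.LIN

namespace UPE73

theorem e1_Icc : ENNReal.ofReal (1/5) ≤ e1 (Set.Icc 1 2) := by
  unfold e1
  rw [withDensity_apply _ measurableSet_Icc, Measure.restrict_restrict measurableSet_Icc]
  have hsub : Set.Icc (1:ℝ) (3/2) ⊆ Set.Icc 1 2 ∩ Set.Ioi 0 := by
    intro x hx
    exact ⟨⟨hx.1, hx.2.trans (by norm_num)⟩, lt_of_lt_of_le one_pos hx.1⟩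
  have hsub2 : Set.Ioc (3/2:ℝ) 2 ⊆ Set.Icc 1 2 ∩ Set.Ioi 0 := by
    intro x hx
    exact ⟨⟨by linarith [hx.1], hx.2⟩, by simp only [Set.mem_Ioi]; linarith [hx.1]⟩
  have hun : Set.Icc (1:ℝ) 2 ∩ Set.Ioi 0 = Set.Icc (1:ℝ) 2 := by
    rw [Set.inter_eq_left]
    intro x hx
    exact lt_of_lt_of_le one_pos hx.1
  rw [hun, ← ofReal_integral_eq_lintegral_ofReal]
  · apply ENNReal.ofReal_le_ofReal
    rw [integral_Icc_eq_integral_Ioc, ← intervalIntegral.integral_of_le (by norm_num)]
    have h1 : ∫ x in (1:ℝ)..2, Real.exp (-x) = Real.exp (-1) - Real.exp (-2) := by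
      rw [intervalIntegral.integral_comp_neg (f := Real.exp), integral_exp]
    rw [h1]
    have h2 : Real.exp (-2) = Real.exp (-1) ^ 2 := by
      rw [← Real.exp_nat_mul]
      norm_num
    have h3 := Real.exp_neg_one_gt_d9
    have h4 := Real.exp_neg_one_lt_d9
    rw [h2]
    nlinarith
  · exact (Real.continuous_exp.comp continuous_neg).continuousOn.integrableOn_compact isCompact_Icc
  · exact Filter.Eventually.of_forall fun x => (Real.exp_pos _).le

end UPE73

open UPE73 in
theorem UPE73_thm : Stmt_UPE := by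
  intro ι _ _ i H hH
  by_contra hcon
  push Not at hcon
  set I := ∫⁻ w, H w ∂Pw ι with hI
  set g : ℝ → ENNReal := fun t => ∫⁻ w, H (Function.update w i t) ∂Pw ι with hg
  have hmap := (RES_map ι i).1
  have hgm : Measurable g := by
    have h1 : Measurable (fun p : ℝ × (ι → ℝ) => H (Function.update p.2 i p.1)) :=
      hH.comp (hmap.comp (measurable_snd.prodMk measurable_fst))
    exact h1.lintegral_prod_right'
  have h1 : I = ∫⁻ t, g t ∂e1 := by
    rw [hI, (RES_thm ι i).1 H hH]
    exact lintegral_lintegral_swap (hH.comp hmap).aemeasurable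
  have hgt : ∀ t ∈ Set.Icc (1:ℝ) 2, 5 * I < g t := fun t ht => hcon t ht.1 ht.2
  have hItop : I ≠ ⊤ := by
    intro h
    have := hgt 1 ⟨le_refl _, by norm_num⟩
    rw [h] at this
    simp at this
  have h2 : ∫⁻ t in Set.Icc (1:ℝ) 2, g t ∂e1 ≤ I := by
    rw [h1]
    exact setLIntegral_le_lintegral _ _
  have h3 : ∫⁻ _t in Set.Icc (1:ℝ) 2, 5 * I ∂e1 < ∫⁻ t in Set.Icc (1:ℝ) 2, g t ∂e1 := by
    refine setLIntegral_strict_mono measurableSet_Icc ?_ hgm ?_ ?_
    · intro h0
      have := e1_Icc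
      rw [h0] at this
      have h5 : (0:ENNReal) < ENNReal.ofReal (1/5) := by
        rw [ENNReal.ofReal_pos]; norm_num
      exact absurd (le_antisymm this bot_le) h5.ne'
    · rw [setLIntegral_const]
      exact ENNReal.mul_ne_top (ENNReal.mul_ne_top (by norm_num) hItop) (measure_ne_top _ _)
    · exact Filter.Eventually.of_forall fun t ht => hgt t ht
  rw [setLIntegral_const] at h3
  have h4 : I ≤ 5 * I * e1 (Set.Icc 1 2) := by
    calc I = 5 * I * ENNReal.ofReal (1/5) := by
          rw [mul_comm 5 I, mul_assoc]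
          have : (5:ENNReal) * ENNReal.ofReal (1/5) = 1 := by
            rw [show (5:ENNReal) = ENNReal.ofReal 5 by simp, ← ENNReal.ofReal_mul (by norm_num)]
            norm_num
          rw [this, mul_one]
      _ ≤ 5 * I * e1 (Set.Icc 1 2) := by gcongr; exact e1_Icc
  exact absurd (lt_of_lt_of_le h3 h2) (not_lt.2 h4)

end Pool.LIN
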