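import Pool.Agent.Work.MP_1c7b0d_lin.Interface

open MeasureTheory Matrix Pool.LH60 Pool.LH73
open scoped BigOperators

namespace Pool.LIN

theorem VNL_thm (hSVM : Stmt_SVM) : Stmt_VNL := by
  intro d K hK hKd
  set q := d / K with hq
  set r := d % K with hr
  have hK0 : 0 < K := hK
  have hq1 : 1 ≤ q := (Nat.one_le_div_iff hK0).2 hKd
  have hrK : r < K := Nat.mod_lt _ hK0
  have hdiv : K * q + r = d := Nat.div_add_mod d K
  obtain ⟨hp1, hl1⟩ := hSVM (q + 1) (by omega)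
  obtain ⟨hp2, hl2⟩ := hSVM (q + 2) (by omega)
  have e1 : q + 1 - 1 = q := by omega
  have e2 : q + 2 - 1 = q + 1 := by omega
  rw [e1] at hp1 hl1
  rw [e2] at hp2 hl2
  have hf1 : Real.log (Pool.Agent.Work.MP_1c7b0d_gt.sv q) = Fs ((q:ℝ) + 1) := by
    rw [hl1]; unfold Fs; push_cast; ring_nf
  have hf2 : Real.log (Pool.Agent.Work.MP_1c7b0d_gt.sv (q + 1)) = Fs ((q:ℝ) + 2) := by
    rw [hl2]; unfold Fs; push_cast; ring_nf
  have hV : Vne d K = Pool.Agent.Work.MP_1c7b0d_gt.sv q ^ (K - r) *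
      Pool.Agent.Work.MP_1c7b0d_gt.sv (q + 1) ^ r := rfl
  refine ⟨by rw [hV]; positivity, ?_⟩
  rw [hV, Real.log_mul (by positivity) (by positivity), Real.log_pow, Real.log_pow, hf1, hf2,
    Nat.cast_sub hrK.le]
  unfold ch la
  have hKr : (K:ℝ) ≠ 0 := by positivity
  have hd : (d:ℝ) = K * q + r := by exact_mod_cast hdiv.symm
  have hu : ((d:ℝ) + K) / K - ((q:ℝ) + 1) = r / K := by
    rw [hd]; field_simp; ring
  rw [hu]
  field_simp
  ring

end Pool.LIN
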