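import Pool.Agent.Work.MP_1c7b0d_lin.Interface

/-! Block `YBD` (helper63): the slacks are bounded when the polytope has finite volume. -/

open MeasureTheory Matrix Pool.LH60 Pool.LH73
open scoped BigOperators

namespace Pool.LIN

namespace YBD

lemma yv_continuous {d K : ℕ} (U : Matrix (Ix d K) (Fin d) ℝ) (i : Ix d K) :
    Continuous (fun x : Fin d → ℝ => yv U x i) := by
  unfold yv
  fun_prop

lemma Pol_isOpen {d K : ℕ} (U : Matrix (Ix d K) (Fin d) ℝ) : IsOpen (Pol U) := by
  have : Pol U = ⋂ i, {x : Fin d → ℝ | 0 < yv U x i} := by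
    ext x; simp [Pol]
  rw [this]
  exact isOpen_iInter_of_finite (fun i => isOpen_lt continuous_const (yv_continuous U i))

lemma zero_mem_Pol {d K : ℕ} (U : Matrix (Ix d K) (Fin d) ℝ) : (0 : Fin d → ℝ) ∈ Pol U := by
  intro i; simp [yv]

/-- a recession direction makes the volume infinite -/
lemma top_of_recession {d K : ℕ} (U : Matrix (Ix d K) (Fin d) ℝ) (v : Fin d → ℝ) (hv0 : v ≠ 0)
    (hv : ∀ i, ∑ a, U i a * v a ≤ 0) : volume (Pol U) = ⊤ := by
  obtain ⟨r, hr, hball⟩ := Metric.isOpen_iff.1 (Pol_isOpen U) 0 (zero_mem_Pol U)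
  have hvn : 0 < ‖v‖ := norm_pos_iff.2 hv0
  set w : Fin d → ℝ := (2 * r / ‖v‖) • v with hw
  have hwn : ‖w‖ = 2 * r := by
    rw [hw, norm_smul, Real.norm_eq_abs, abs_of_pos (by positivity)]
    field_simp
  have hUw : ∀ i, ∑ a, U i a * w a ≤ 0 := by
    intro i
    have h4 : ∑ a, U i a * w a = (2 * r / ‖v‖) * ∑ a, U i a * v a := by
      rw [Finset.mul_sum]
      refine Finset.sum_congr rfl (fun a _ => ?_)
      simp only [hw, Pi.smul_apply, smul_eq_mul]; ring
    rw [h4]
    exact mul_nonpos_of_nonneg_of_nonpos (by positivity) (hv i)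
  have hsub : (⋃ k : ℕ, Metric.ball ((k : ℝ) • w) r) ⊆ Pol U := by
    intro x hx
    obtain ⟨k, hk⟩ := Set.mem_iUnion.1 hx
    have h5 : x - (k : ℝ) • w ∈ Pol U := by
      apply hball
      rw [Metric.mem_ball, dist_zero_right]
      rw [Metric.mem_ball, dist_eq_norm] at hk
      exact hk
    intro i
    have h6 := h5 i
    have h7 : yv U (x - (k : ℝ) • w) i ≤ yv U x i := by
      unfold yv
      have h8 : ∑ a, U i a * (x - (k : ℝ) • w) a = ∑ a, U i a * x a - (k : ℝ) * ∑ a, U i a * w a := by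
        rw [Finset.mul_sum, ← Finset.sum_sub_distrib]
        refine Finset.sum_congr rfl (fun a _ => ?_)
        simp only [Pi.sub_apply, Pi.smul_apply, smul_eq_mul]; ring
      rw [h8]
      have h9 : (k : ℝ) * ∑ a, U i a * w a ≤ 0 :=
        mul_nonpos_of_nonneg_of_nonpos (Nat.cast_nonneg k) (hUw i)
      linarith
    linarith
  have hdisj : Pairwise (Function.onFun Disjoint (fun k : ℕ => Metric.ball ((k : ℝ) • w) r)) := by
    intro k l hkl
    refine Metric.ball_disjoint_ball ?_
    rw [dist_eq_norm, ← sub_smul, norm_smul, hwn, Real.norm_eq_abs]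
    have h9 : (1 : ℝ) ≤ |(k : ℝ) - l| := by
      have h10 : ((k : ℤ) - l) ≠ 0 := by omega
      have h11 : (1 : ℤ) ≤ |(k : ℤ) - l| := Int.one_le_abs h10
      have h12 : ((|(k : ℤ) - l| : ℤ) : ℝ) = |(k : ℝ) - l| := by push_cast; rfl
      rw [← h12]; exact_mod_cast h11
    nlinarith
  have hmeas : volume (⋃ k : ℕ, Metric.ball ((k : ℝ) • w) r) = ⊤ := by
    rw [measure_iUnion hdisj (fun k => Metric.isOpen_ball.measurableSet)]
    have h13 : ∀ k : ℕ, volume (Metric.ball ((k : ℝ) • w) r) = volume (Metric.ball (0 : Fin d → ℝ) r) :=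
      fun k => Measure.addHaar_ball_center _ _ _
    simp_rw [h13]
    exact ENNReal.tsum_const_eq_top_of_ne_zero (Metric.measure_ball_pos volume _ hr).ne'
  exact top_le_iff.1 (hmeas ▸ measure_mono hsub)

/-- finite volume implies bounded -/
lemma bounded_of_ne_top {d K : ℕ} (U : Matrix (Ix d K) (Fin d) ℝ) (hfin : volume (Pol U) ≠ ⊤) :
    ∃ R : ℝ, 0 ≤ R ∧ ∀ x ∈ Pol U, ‖x‖ ≤ R := by
  -- the function `x ↦ sum of positive parts`
  set M : (Fin d → ℝ) → ℝ := fun x => ∑ i, max (∑ a, U i a * x a) 0 with hM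
  have hMc : Continuous M := by
    rw [hM]; fun_prop
  have hM0 : ∀ x, 0 ≤ M x := fun x => Finset.sum_nonneg fun i _ => le_max_right _ _
  have hMpos : ∀ x ∈ Metric.sphere (0 : Fin d → ℝ) 1, 0 < M x := by
    intro x hx
    have hx0 : x ≠ 0 := by
      intro h
      rw [h] at hx
      simp at hx
    rcases (hM0 x).lt_or_eq with h | h
    · exact h
    · exfalso
      apply hfin
      apply top_of_recession U x hx0
      intro i
      have h1 : max (∑ a, U i a * x a) 0 ≤ M x :=
        Finset.single_le_sum (f := fun i => max (∑ a, U i a * x a) 0)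
          (fun i _ => le_max_right _ _) (Finset.mem_univ i)
      rw [← h] at h1
      exact le_trans (le_max_left _ _) h1
  have hhom : ∀ (c : ℝ) (x : Fin d → ℝ), 0 ≤ c → M (c • x) = c * M x := by
    intro c x hc
    rw [hM]
    simp only
    rw [Finset.mul_sum]
    refine Finset.sum_congr rfl fun i _ => ?_
    have h1 : ∑ a, U i a * (c • x) a = c * ∑ a, U i a * x a := by
      rw [Finset.mul_sum]
      refine Finset.sum_congr rfl fun a _ => ?_
      simp only [Pi.smul_apply, smul_eq_mul]; ring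
    rw [h1, mul_max_of_nonneg _ _ hc, mul_zero]
  have hcard : ∀ x ∈ Pol U, M x ≤ (Fintype.card (Ix d K) : ℝ) := by
    intro x hx
    have h1 : M x ≤ ∑ _i : Ix d K, (1 : ℝ) := by
      refine Finset.sum_le_sum fun i _ => ?_
      have h2 := hx i
      unfold yv at h2
      exact max_le (by linarith) zero_le_one
    simpa using h1
  by_cases hne : (Metric.sphere (0 : Fin d → ℝ) 1).Nonempty
  · obtain ⟨x0, hx0, hmin⟩ := (isCompact_sphere (0 : Fin d → ℝ) 1).exists_isMinOn hne hMc.continuousOn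
    have hδ := hMpos x0 hx0
    refine ⟨(Fintype.card (Ix d K) : ℝ) / M x0, by positivity, fun x hx => ?_⟩
    by_cases hx00 : x = 0
    · rw [hx00, norm_zero]; positivity
    · have hn : 0 < ‖x‖ := norm_pos_iff.2 hx00
      have h1 : (‖x‖⁻¹ • x) ∈ Metric.sphere (0 : Fin d → ℝ) 1 := by
        rw [mem_sphere_zero_iff_norm, norm_smul, norm_inv, norm_norm]
        exact inv_mul_cancel₀ hn.ne'
      have h2 : M x0 ≤ M (‖x‖⁻¹ • x) := hmin h1
      rw [hhom _ _ (by positivity)] at h2
      have h3 := hcard x hx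
      rw [le_div_iff₀ hδ]
      have h4 : ‖x‖ * M x0 ≤ ‖x‖ * (‖x‖⁻¹ * M x) := mul_le_mul_of_nonneg_left h2 hn.le
      rw [← mul_assoc, mul_inv_cancel₀ hn.ne', one_mul] at h4
      linarith
  · refine ⟨0, le_refl 0, fun x _ => ?_⟩
    by_contra hx
    push Not at hx
    apply hne
    refine ⟨‖x‖⁻¹ • x, ?_⟩
    rw [mem_sphere_zero_iff_norm, norm_smul, norm_inv, norm_norm]
    exact inv_mul_cancel₀ hx.ne'

end YBD

theorem YBD_thm (hFRI : Stmt_FRI) : Stmt_YBD := by
  intro d K V Φ hF hfin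
  obtain ⟨hV, hΦ, hΦV⟩ := hF
  obtain ⟨R, hR, hbd⟩ := YBD.bounded_of_ne_top V hfin
  have hproj : Φ * Φᵀ + V * Vᵀ = 1 := by
    have h := (hFRI d K V Φ ⟨hΦ, hΦV, by rw [hV]; simp⟩).1
    rw [hV] at h
    simpa using h
  refine ⟨1 + ∑ i, ∑ a, |V i a| * R, ?_, ?_⟩
  · have : 0 ≤ ∑ i, ∑ a, |V i a| * R :=
      Finset.sum_nonneg fun i _ => Finset.sum_nonneg fun a _ => by positivity
    linarith
  · intro w _ y hy i
    obtain ⟨hpos, horth, -⟩ := hy
    set x : Fin d → ℝ := fun a => - ∑ i, V i a * (y i - 1) with hx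
    have hyx : ∀ i, yv V x i = y i := by
      intro i
      have h1 : (Φ * Φᵀ + V * Vᵀ) *ᵥ (fun i => y i - 1) = fun i => y i - 1 := by
        rw [hproj, Matrix.one_mulVec]
      rw [Matrix.add_mulVec, ← Matrix.mulVec_mulVec, ← Matrix.mulVec_mulVec] at h1
      have h2 : Φᵀ *ᵥ (fun i => y i - 1) = 0 := by
        ext k
        simp only [Matrix.mulVec, dotProduct, Matrix.transpose_apply, Pi.zero_apply]
        rw [← horth k]
        exact Finset.sum_congr rfl fun i _ => mul_comm _ _
      rw [h2, Matrix.mulVec_zero, zero_add] at h1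
      have h3 : (V *ᵥ (Vᵀ *ᵥ fun i => y i - 1)) i = y i - 1 := congrFun h1 i
      have h4 : (V *ᵥ (Vᵀ *ᵥ fun i => y i - 1)) i = - ∑ a, V i a * x a := by
        simp only [Matrix.mulVec, dotProduct, Matrix.transpose_apply, hx]
        rw [← Finset.sum_neg_distrib]
        refine Finset.sum_congr rfl fun a _ => ?_
        ring
      rw [h4] at h3
      unfold yv
      linarith
    have hxP : x ∈ Pol V := fun i => by rw [hyx i]; exact hpos i
    have hxR := hbd x hxP
    have h1 : y i ≤ 1 + ∑ a, |V i a| * R := by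
      rw [← hyx i]
      unfold yv
      have h2 : -∑ a, V i a * x a ≤ ∑ a, |V i a| * R := by
        rw [← Finset.sum_neg_distrib]
        refine Finset.sum_le_sum fun a _ => ?_
        have h3 : |x a| ≤ R := le_trans (norm_le_pi_norm x a) hxR
        have h4 : -(V i a * x a) ≤ |V i a * x a| := neg_le_abs _
        rw [abs_mul] at h4
        exact h4.trans (mul_le_mul_of_nonneg_left h3 (abs_nonneg _))
      linarith
    refine h1.trans ?_
    have h5 : ∑ a, |V i a| * R ≤ ∑ i, ∑ a, |V i a| * R :=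
      Finset.single_le_sum (f := fun i => ∑ a, |V i a| * R)
        (fun i _ => Finset.sum_nonneg fun a _ => by positivity) (Finset.mem_univ i)
    linarith

end Pool.LIN
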