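import Pool.Agent.Work.MP_1c7b0d_lin.Interface

/-! Block `YCO` (helper63): continuity, measurability and derivative of the coupling `Y(w)`. -/

open MeasureTheory Matrix Pool.LH60 Pool.LH73
open scoped BigOperators

namespace Pool.LIN

namespace YCO

variable {ι : Type} [Fintype ι] [DecidableEq ι] {K : ℕ}

lemma isOpen_Orth : IsOpen (Orth ι) := by
  have : Orth ι = ⋂ i, {w : ι → ℝ | 0 < w i} := by
    ext x; simp [Orth]
  rw [this]
  exact isOpen_iInter_of_finite (fun i => isOpen_lt continuous_const (continuous_apply i))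

lemma continuous_Dm (Φ : Matrix ι (Fin K) ℝ) : Continuous (fun y : ι → ℝ => Dm Φ y) := by
  unfold Dm
  fun_prop

lemma continuousAt_rho (hPDG : Stmt_PDG) (Φ : Matrix ι (Fin K) ℝ) (hΦ : Φᵀ * Φ = 1)
    (y : ι → ℝ) (hy : ∀ i, 0 < y i) : ContinuousAt (fun y : ι → ℝ => rho Φ y) y := by
  have hdet : (Dm Φ y).det ≠ 0 := (hPDG ι K Φ y hΦ hy).det_pos.ne'
  have h1 : ContinuousAt (fun A : Matrix (Fin K) (Fin K) ℝ => A⁻¹) (Dm Φ y) := by
    refine continuousAt_matrix_inv _ ?_
    rw [Ring.inverse_eq_inv']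
    exact continuousAt_inv₀ hdet
  have h2 : ContinuousAt (fun y : ι → ℝ => (Dm Φ y)⁻¹) y :=
    ContinuousAt.comp (f := fun y : ι → ℝ => Dm Φ y) h1 (continuous_Dm Φ).continuousAt
  have h3 : Continuous (fun A : Matrix (Fin K) (Fin K) ℝ => Φ * A * Φᵀ) := by fun_prop
  exact ContinuousAt.comp (f := fun y : ι → ℝ => (Dm Φ y)⁻¹) h3.continuousAt h2

lemma continuousAt_Tm (hPDG : Stmt_PDG) (Φ : Matrix ι (Fin K) ℝ) (hΦ : Φᵀ * Φ = 1)
    (y : ι → ℝ) (hy : ∀ i, 0 < y i) (i l : ι) :
    ContinuousAt (fun y : ι → ℝ => Tm Φ y i l) y := by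
  have h1 : ContinuousAt (fun y : ι → ℝ => rho Φ y i l) y := by
    have h := continuousAt_rho hPDG Φ hΦ y hy
    have h2 : Continuous (fun A : Matrix ι ι ℝ => A i l) := by fun_prop
    exact ContinuousAt.comp (f := fun y : ι → ℝ => rho Φ y) h2.continuousAt h
  have hi : ContinuousAt (fun y : ι → ℝ => y i) y := (continuous_apply i).continuousAt
  have hl : ContinuousAt (fun y : ι → ℝ => y l) y := (continuous_apply l).continuousAt
  unfold Tm
  simp only [Matrix.of_apply]
  by_cases hil : i = l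
  · simp only [hil, if_true]
    rw [hil] at h1
    exact hl.sub ((hl.mul h1).mul hl)
  · simp only [hil, if_false]
    exact continuousAt_const.sub ((hi.mul h1).mul hl)

lemma isY (Φ : Matrix ι (Fin K) ℝ) (hex : Hex Φ) (w : ι → ℝ) (hw : w ∈ Orth ι) :
    IsY Φ w (Yc Φ w) := by
  have h : w ∈ Orth ι ∧ ∃ y, IsY Φ w y := ⟨hw, hex w hw⟩
  unfold Yc
  rw [dif_pos h]
  exact h.2.choose_spec

lemma off (Φ : Matrix ι (Fin K) ℝ) (w : ι → ℝ) (hw : w ∉ Orth ι) : Yc Φ w = fun _ => 1 := by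
  unfold Yc
  rw [dif_neg (fun h => hw h.1)]

/-- bound of the entries of `T` -/
lemma abs_Tm_le (hTFA : Stmt_TFA) (Φ : Matrix ι (Fin K) ℝ) (hΦ : Φᵀ * Φ = 1) (C : ℝ)
    (z : ι → ℝ) (hz : ∀ i, 0 < z i) (hzC : ∀ i, z i ≤ C) (i l : ι) : |Tm Φ z i l| ≤ C := by
  obtain ⟨-, -, -, -, -, -, h, -, -⟩ := hTFA ι K Φ z hΦ hz
  have hC : 0 ≤ C := (hz i).le.trans (hzC i)
  refine abs_le_of_sq_le_sq ?_ hC
  refine (h i l).trans ?_
  rw [sq]
  exact mul_le_mul (hzC i) (hzC l) (hz l).le hC

lemma diff_bound (hYDI : Stmt_YDI) (hTFA : Stmt_TFA) (Φ : Matrix ι (Fin K) ℝ)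
    (hΦ : Φᵀ * Φ = 1) (C : ℝ) (hex : Hex Φ) (hbd : Hbd Φ C) (w w' : ι → ℝ) (hw : w ∈ Orth ι)
    (hw' : w' ∈ Orth ι) (i : ι) :
    |Yc Φ w' i - Yc Φ w i| ≤ C * ∑ l, |Real.log (w' l) - Real.log (w l)| := by
  obtain ⟨z, hz, hd⟩ := (hYDI ι K Φ hΦ).1 w w' _ _ (isY Φ hex w hw) (isY Φ hex w' hw')
  have hy := (isY Φ hex w hw).1
  have hy' := (isY Φ hex w' hw').1
  have hyC := hbd w hw _ (isY Φ hex w hw)
  have hyC' := hbd w' hw' _ (isY Φ hex w' hw')
  have hzp : ∀ i, 0 < z i := fun i => (lt_min (hy i) (hy' i)).trans_le (hz i).1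
  have hzC : ∀ i, z i ≤ C := fun i => (hz i).2.trans (max_le (hyC i) (hyC' i))
  rw [hd i, Finset.mul_sum]
  refine (Finset.abs_sum_le_sum_abs _ _).trans (Finset.sum_le_sum fun l _ => ?_)
  rw [abs_mul]
  exact mul_le_mul_of_nonneg_right (abs_Tm_le hTFA Φ hΦ C z hzp hzC i l) (abs_nonneg _)

lemma continuousOn (hYDI : Stmt_YDI) (hTFA : Stmt_TFA) (Φ : Matrix ι (Fin K) ℝ)
    (hΦ : Φᵀ * Φ = 1) (C : ℝ) (hex : Hex Φ) (hbd : Hbd Φ C) :
    ContinuousOn (Yc Φ) (Orth ι) := by
  intro w hw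
  refine tendsto_pi_nhds.2 fun i => ?_
  rw [tendsto_iff_norm_sub_tendsto_zero]
  have hlog : Filter.Tendsto (fun w' : ι → ℝ => C * ∑ l, |Real.log (w' l) - Real.log (w l)|)
      (nhdsWithin w (Orth ι)) (nhds 0) := by
    have h0 : (0 : ℝ) = C * ∑ l, |Real.log (w l) - Real.log (w l)| := by simp
    rw [h0]
    refine Filter.Tendsto.const_mul _ (tendsto_finsetSum _ fun l _ => ?_)
    refine (Filter.Tendsto.sub_const ?_ _).abs
    have h1 : Filter.Tendsto (fun w' : ι → ℝ => w' l) (nhdsWithin w (Orth ι)) (nhds (w l)) :=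
      (continuous_apply l).continuousAt.tendsto.mono_left nhdsWithin_le_nhds
    exact h1.log (hw l).ne'
  refine squeeze_zero' (Filter.Eventually.of_forall fun _ => norm_nonneg _) ?_ hlog
  filter_upwards [self_mem_nhdsWithin] with w' hw'
  rw [Real.norm_eq_abs]
  exact diff_bound hYDI hTFA Φ hΦ C hex hbd w w' hw hw' i

lemma update_mem (w : ι → ℝ) (hw : w ∈ Orth ι) (l : ι) (t : ℝ) (ht : 0 < t) :
    Function.update w l t ∈ Orth ι := by
  intro i
  by_cases h : i = l
  · rw [h, Function.update_self]; exact ht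
  · rw [Function.update_of_ne h]; exact hw i

end YCO

open YCO in
theorem YCO_thm (hYDI : Stmt_YDI) (hTFA : Stmt_TFA) (hPDG : Stmt_PDG) : Stmt_YCO := by
  classical
  intro ι _ _ K Φ C hΦ hex hbd
  have hcont := YCO.continuousOn hYDI hTFA Φ hΦ C hex hbd
  refine ⟨fun w hw => isY Φ hex w hw, hcont, ?_, ?_⟩
  · have h1 : Yc Φ = (Orth ι).piecewise (Yc Φ) (fun _ => fun _ => 1) := by
      funext w
      by_cases hw : w ∈ Orth ι
      · rw [Set.piecewise_eq_of_mem _ _ _ hw]
      · rw [Set.piecewise_eq_of_notMem _ _ _ hw, off Φ w hw]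
    rw [h1]
    exact ContinuousOn.measurable_piecewise hcont continuousOn_const isOpen_Orth.measurableSet
  · intro w hw i l
    -- intermediate points
    have hex1 : ∀ t : ℝ, ∃ z : ι → ℝ, 0 < t →
        (∀ i, min (Yc Φ w i) (Yc Φ (Function.update w l t) i) ≤ z i ∧
          z i ≤ max (Yc Φ w i) (Yc Φ (Function.update w l t) i)) ∧
        ∀ i, Yc Φ (Function.update w l t) i - Yc Φ w i =
          Tm Φ z i l * (Real.log t - Real.log (w l)) := by
      intro t
      by_cases ht : 0 < t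
      · have hw' := update_mem w hw l t ht
        obtain ⟨z, hz, hd⟩ := (hYDI ι K Φ hΦ).1 w (Function.update w l t) _ _
          (isY Φ hex w hw) (isY Φ hex _ hw')
        refine ⟨z, fun _ => ⟨hz, fun i => ?_⟩⟩
        rw [hd i]
        rw [Finset.sum_eq_single l]
        · rw [Function.update_self]
        · intro k _ hk
          rw [Function.update_of_ne hk, sub_self, mul_zero]
        · intro h
          exact absurd (Finset.mem_univ l) h
      · exact ⟨fun _ => 1, fun h => absurd h ht⟩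
    choose z hz using hex1
    have hpos : ∀ᶠ t in nhdsWithin (w l) {w l}ᶜ, 0 < t :=
      (lt_mem_nhds (hw l)).filter_mono nhdsWithin_le_nhds
    -- continuity of `Y` along the line
    have hup : Filter.Tendsto (fun t => Function.update w l t) (nhdsWithin (w l) {w l}ᶜ)
        (nhdsWithin w (Orth ι)) := by
      refine tendsto_nhdsWithin_iff.2 ⟨?_, ?_⟩
      · have h1 : Continuous (fun t : ℝ => Function.update w l t) :=
          continuous_const.update l continuous_id
        have h2 := h1.tendsto (w l)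
        rw [Function.update_eq_self] at h2
        exact h2.mono_left nhdsWithin_le_nhds
      · filter_upwards [hpos] with t ht
        exact update_mem w hw l t ht
    have hY : Filter.Tendsto (fun t => Yc Φ (Function.update w l t)) (nhdsWithin (w l) {w l}ᶜ)
        (nhds (Yc Φ w)) := (hcont w hw).tendsto.comp hup
    have hzt : Filter.Tendsto z (nhdsWithin (w l) {w l}ᶜ) (nhds (Yc Φ w)) := by
      refine tendsto_pi_nhds.2 fun j => ?_
      have hYj : Filter.Tendsto (fun t => Yc Φ (Function.update w l t) j)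
          (nhdsWithin (w l) {w l}ᶜ) (nhds (Yc Φ w j)) := (tendsto_pi_nhds.1 hY) j
      have h1 : Filter.Tendsto (fun t => min (Yc Φ w j) (Yc Φ (Function.update w l t) j))
          (nhdsWithin (w l) {w l}ᶜ) (nhds (Yc Φ w j)) := by
        have := (tendsto_const_nhds (x := Yc Φ w j)).min hYj
        rwa [min_self] at this
      have h2 : Filter.Tendsto (fun t => max (Yc Φ w j) (Yc Φ (Function.update w l t) j))
          (nhdsWithin (w l) {w l}ᶜ) (nhds (Yc Φ w j)) := by
        have := (tendsto_const_nhds (x := Yc Φ w j)).max hYj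
        rwa [max_self] at this
      refine tendsto_of_tendsto_of_tendsto_of_le_of_le' h1 h2 ?_ ?_
      · filter_upwards [hpos] with t ht
        exact ((hz t ht).1 j).1
      · filter_upwards [hpos] with t ht
        exact ((hz t ht).1 j).2
    have hT : Filter.Tendsto (fun t => Tm Φ (z t) i l) (nhdsWithin (w l) {w l}ᶜ)
        (nhds (Tm Φ (Yc Φ w) i l)) :=
      (continuousAt_Tm hPDG Φ hΦ (Yc Φ w) (isY Φ hex w hw).1 i l).tendsto.comp hzt
    have hlog := (Real.hasDerivAt_log (hw l).ne').tendsto_slope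
    have hprod := hT.mul hlog
    rw [hasDerivAt_iff_tendsto_slope]
    rw [div_eq_mul_inv]
    refine hprod.congr' ?_
    filter_upwards [hpos] with t ht
    have h1 := (hz t ht).2 i
    rw [slope_def_field, slope_def_field, Function.update_eq_self, h1]
    ring

end Pool.LIN
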