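import Pool.Agent.Work.MP_1c7b0d_lin.Interface

/-! Block YDI (helper29): difference identity and uniqueness of `Y(w)`. -/

open MeasureTheory Matrix Pool.LH60 Pool.LH73
open scoped BigOperators

namespace Pool.LIN

/-- logarithmic mean, by the mean value theorem -/
lemma ydi_mean_lt {a b : ℝ} (ha : 0 < a) (hab : a < b) :
    ∃ z, a ≤ z ∧ z ≤ b ∧ b - a = z * (Real.log b - Real.log a) := by
  obtain ⟨c, hc, h⟩ := exists_hasDerivAt_eq_slope Real.log (fun x => x⁻¹) hab
    (Real.continuousOn_log.mono (by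
      intro x hx; have := lt_of_lt_of_le ha hx.1; simpa using this.ne'))
    (fun x hx => Real.hasDerivAt_log (lt_trans ha hx.1).ne')
  have hc0 : 0 < c := lt_trans ha hc.1
  have hba : b - a ≠ 0 := (sub_pos.mpr hab).ne'
  refine ⟨c, hc.1.le, hc.2.le, ?_⟩
  have h' : c⁻¹ = (Real.log b - Real.log a) / (b - a) := h
  field_simp at h'
  linarith

lemma ydi_mean {a b : ℝ} (ha : 0 < a) (hb : 0 < b) :
    ∃ z, min a b ≤ z ∧ z ≤ max a b ∧ b - a = z * (Real.log b - Real.log a) := by
  rcases lt_trichotomy a b with h | h | h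
  · obtain ⟨z, h1, h2, h3⟩ := ydi_mean_lt ha h
    exact ⟨z, by rw [min_eq_left h.le]; exact h1, by rw [max_eq_right h.le]; exact h2, h3⟩
  · subst h
    exact ⟨a, by simp, by simp, by simp⟩
  · obtain ⟨z, h1, h2, h3⟩ := ydi_mean_lt hb h
    exact ⟨z, by rw [min_eq_right h.le]; exact h1, by rw [max_eq_left h.le]; exact h2,
      by linarith⟩

theorem YDI_thm (hTFA : Stmt_TFA) : Stmt_YDI := by
  intro ι _ _ K Φ hΦ
  have main : ∀ w w' y y' : ι → ℝ, IsY Φ w y → IsY Φ w' y' → ∃ z : ι → ℝ,
    (∀ i, min (y i) (y' i) ≤ z i ∧ z i ≤ max (y i) (y' i)) ∧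
    ∀ i, y' i - y i = ∑ l, Tm Φ z i l * (Real.log (w' l) - Real.log (w l)) := by
    intro w w' y y' hw hw'
    obtain ⟨hy, hyk, f, hf⟩ := hw
    obtain ⟨hy', hyk', f', hf'⟩ := hw'
    choose z hz1 hz2 hz3 using fun i => ydi_mean (hy i) (hy' i)
    have hz0 : ∀ i, 0 < z i := fun i => lt_of_lt_of_le (lt_min (hy i) (hy' i)) (hz1 i)
    refine ⟨z, fun i => ⟨hz1 i, hz2 i⟩, fun i => ?_⟩
    obtain ⟨-, -, hT, -⟩ := hTFA ι K Φ z hΦ hz0
    -- the difference of the logarithms
    have hlog : ∀ l, Real.log (w' l) - Real.log (w l)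
        = (y' l - y l) / z l + ∑ a, Φ l a * (f' a - f a) := by
      intro l
      rw [hf l, hf' l, Real.log_mul (hy l).ne' (Real.exp_pos _).ne',
        Real.log_mul (hy' l).ne' (Real.exp_pos _).ne', Real.log_exp, Real.log_exp, hz3 l]
      have h1 : z l * (Real.log (y' l) - Real.log (y l)) / z l
          = Real.log (y' l) - Real.log (y l) := by
        field_simp [(hz0 l).ne']
      rw [h1]
      have h2 : ∑ a, Φ l a * (f' a - f a) = ∑ a, Φ l a * f' a - ∑ a, Φ l a * f a := by
        rw [← Finset.sum_sub_distrib]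
        exact Finset.sum_congr rfl fun a _ => by ring
      rw [h2]; ring
    have hTΦ : ∀ a, ∑ l, Tm Φ z i l * Φ l a = 0 := by
      intro a
      have := congrFun (congrFun hT i) a
      rwa [Matrix.mul_apply] at this
    have hpart2 : ∑ l, Tm Φ z i l * ∑ a, Φ l a * (f' a - f a) = 0 := by
      have : ∀ l, Tm Φ z i l * ∑ a, Φ l a * (f' a - f a)
          = ∑ a, (Tm Φ z i l * Φ l a) * (f' a - f a) := by
        intro l; rw [Finset.mul_sum]; exact Finset.sum_congr rfl fun a _ => by ring
      simp_rw [this]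
      rw [Finset.sum_comm]
      refine Finset.sum_eq_zero fun a _ => ?_
      rw [← Finset.sum_mul, hTΦ a, zero_mul]
    have hδ : ∀ a, ∑ l, Φ l a * (y' l - y l) = 0 := by
      intro a
      have e : ∀ l, Φ l a * (y' l - y l) = (y' l - 1) * Φ l a - (y l - 1) * Φ l a := by
        intro l; ring
      simp_rw [e]
      rw [Finset.sum_sub_distrib, hyk a, hyk' a, sub_zero]
    have hρ : ∑ l, rho Φ z i l * (y' l - y l) = 0 := by
      have e : ∀ l, rho Φ z i l * (y' l - y l)
          = ∑ a, (Φ * (Dm Φ z)⁻¹) i a * (Φ l a * (y' l - y l)) := by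
        intro l
        unfold rho
        rw [Matrix.mul_apply, Finset.sum_mul]
        refine Finset.sum_congr rfl fun a _ => ?_
        rw [Matrix.transpose_apply]; ring
      simp_rw [e]
      rw [Finset.sum_comm]
      refine Finset.sum_eq_zero fun a _ => ?_
      rw [← Finset.mul_sum, hδ a, mul_zero]
    have hpart1 : ∑ l, Tm Φ z i l * ((y' l - y l) / z l) = y' i - y i := by
      have e : ∀ l, Tm Φ z i l * ((y' l - y l) / z l)
          = (if i = l then y' i - y i else 0) - z i * (rho Φ z i l * (y' l - y l)) := by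
        intro l
        have hzl := (hz0 l).ne'
        unfold Tm
        simp only [Matrix.of_apply]
        by_cases h : i = l
        · subst h
          simp only [if_true]
          field_simp
        · simp only [if_neg h]
          field_simp
          ring
      simp_rw [e]
      rw [Finset.sum_sub_distrib, ← Finset.mul_sum, hρ, mul_zero, sub_zero]
      simp
    simp_rw [hlog, mul_add]
    rw [Finset.sum_add_distrib, hpart1, hpart2, add_zero]
  refine ⟨main, fun w y y' h h' => ?_⟩
  obtain ⟨z, -, hz⟩ := main w w y y' h h'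
  funext i
  have := hz i
  simp only [sub_self, mul_zero, Finset.sum_const_zero] at this
  linarith

end Pool.LIN
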