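import Pool.Agent.Work.MP_1c7b0d_lin.Interface

/-! Block YEX (helper23): existence of `Y(w)` from the change of variables. -/

open MeasureTheory Matrix Pool.LH60 Pool.LH73
open scoped BigOperators

namespace Pool.LIN

theorem YEX_thm (hCVS : Stmt_CVS) : Stmt_YEX := by
  intro d K V Φ hF w hw
  obtain ⟨hV, hΦ, hO⟩ := hF
  have hfr : IsFrame V Φ := by
    refine ⟨hΦ, hO, ?_⟩
    rw [hV, Matrix.det_one]
    exact one_ne_zero
  obtain ⟨z, hz, hTh⟩ := hCVS d K V Φ (fun _ => 0) hfr w hw
  refine ⟨yv V (fun a => z (Sum.inl a)), hz, ?_, fun a => z (Sum.inr a), ?_⟩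
  · intro k
    have h1 : ∀ a, ∑ i, Φ i k * V i a = 0 := by
      intro a
      have := congrFun (congrFun hO k) a
      simpa [Matrix.mul_apply] using this
    have h2 : ∀ i, (yv V (fun a => z (Sum.inl a)) i - 1) * Φ i k
        = ∑ a, -(z (Sum.inl a)) * (Φ i k * V i a) := by
      intro i
      unfold yv
      rw [show (1 - ∑ a, V i a * z (Sum.inl a) - 1) = -∑ a, V i a * z (Sum.inl a) by ring,
        neg_mul, Finset.sum_mul, ← Finset.sum_neg_distrib]
      apply Finset.sum_congr rfl
      intro a _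
      ring
    rw [Finset.sum_congr rfl (fun i _ => h2 i), Finset.sum_comm]
    apply Finset.sum_eq_zero
    intro a _
    rw [← Finset.mul_sum, h1 a, mul_zero]
  · intro i
    have := congrFun hTh i
    rw [← this]
    unfold Th sl
    simp

end Pool.LIN
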