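import Pool.Agent.Work.MP_1c7b0d_lin.Interface

/-! Block YMO (helper23): monotonicity of `y_i` and of `y_i / w_i` in `w_i`. -/

open MeasureTheory Matrix Pool.LH60 Pool.LH73
open scoped BigOperators

namespace Pool.LIN

theorem YMO_thm (hTFA : Stmt_TFA) : Stmt_YMO := by
  classical
  intro ι _ _ K Φ y hΦ hC w hw i ω hω
  have hupd : ∀ t : ℝ, 0 < t → Function.update w i t ∈ Orth ι := by
    intro t ht j
    by_cases h : j = i
    · subst h; simpa using ht
    · rw [Function.update_of_ne h]; exact hw j
  set g : ℝ → ℝ := fun t => y (Function.update w i t) i with hg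
  set T : ℝ → ℝ := fun t => Tm Φ (y (Function.update w i t)) i i with hT
  have hder : ∀ t : ℝ, 0 < t → HasDerivAt g (T t / t) t := by
    intro t ht
    have h := hC.der (Function.update w i t) (hupd t ht) i i
    simp only [Function.update_idem, Function.update_self] at h
    exact h
  have hTb : ∀ t : ℝ, 0 ≤ T t ∧ T t ≤ g t := by
    intro t
    exact (hTFA ι K Φ (y (Function.update w i t)) hΦ (fun j => hC.pos _ j)).2.2.2.2.2.2.2.2 i
  have hmono : MonotoneOn g (Set.Ioi 0) := by
    apply monotoneOn_of_deriv_nonneg (convex_Ioi 0)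
    · intro t ht; exact (hder t ht).continuousAt.continuousWithinAt
    · intro t ht
      rw [interior_Ioi] at ht
      exact (hder t ht).differentiableAt.differentiableWithinAt
    · intro t ht
      rw [interior_Ioi] at ht
      rw [(hder t ht).deriv]
      exact div_nonneg (hTb t).1 (le_of_lt ht)
  have hder2 : ∀ t : ℝ, 0 < t → HasDerivAt (fun t => g t / t) ((T t - g t) / t ^ 2) t := by
    intro t ht
    have h := (hder t ht).div (hasDerivAt_id t) (ne_of_gt ht)
    have e : (T t / t * id t - g t * 1) / id t ^ 2 = (T t - g t) / t ^ 2 := by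
      simp only [id]
      rw [div_mul_cancel₀ _ (ne_of_gt ht), mul_one]
    rw [← e]
    exact h
  have hanti : AntitoneOn (fun t => g t / t) (Set.Ioi 0) := by
    apply antitoneOn_of_deriv_nonpos (convex_Ioi 0)
    · intro t ht; exact (hder2 t ht).continuousAt.continuousWithinAt
    · intro t ht
      rw [interior_Ioi] at ht
      exact (hder2 t ht).differentiableAt.differentiableWithinAt
    · intro t ht
      rw [interior_Ioi] at ht
      rw [(hder2 t ht).deriv]
      apply div_nonpos_of_nonpos_of_nonneg
      · linarith [(hTb t).2]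
      · positivity
  have hwi : 0 < w i := hw i
  have hgw : g (w i) = y w i := by
    simp only [hg, Function.update_eq_self]
  have hgpos : ∀ t, 0 < g t := fun t => hC.pos _ _
  rw [← hgw]
  show g ω * min 1 (w i / ω) ≤ g (w i) ∧ g (w i) ≤ g ω * max 1 (w i / ω)
  rcases le_total ω (w i) with h | h
  · have h1 : 1 ≤ w i / ω := by rw [le_div_iff₀ hω]; linarith
    rw [min_eq_left h1, max_eq_right h1, mul_one]
    refine ⟨hmono hω hwi h, ?_⟩
    have h2 : g (w i) / w i ≤ g ω / ω := hanti hω hwi h
    rw [div_le_iff₀ hwi] at h2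
    calc g (w i) ≤ g ω / ω * w i := h2
      _ = g ω * (w i / ω) := by ring
  · have h1 : w i / ω ≤ 1 := by rw [div_le_iff₀ hω]; linarith
    rw [min_eq_right h1, max_eq_left h1, mul_one]
    refine ⟨?_, hmono hwi hω h⟩
    have h2 : g ω / ω ≤ g (w i) / w i := hanti hwi hω h
    rw [le_div_iff₀ hwi] at h2
    calc g ω * (w i / ω) = g ω / ω * w i := by ring
      _ ≤ g (w i) := h2

end Pool.LIN
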