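import Pool.Agent.Work.MP_1c7b0d_lh60.BLG
import Pool.Agent.Work.MP_1c7b0d_lh60.BLI
import Pool.Agent.Work.MP_1c7b0d_lh60.CVD
import Pool.Agent.Work.MP_1c7b0d_lh60.CVI
import Pool.Agent.Work.MP_1c7b0d_lh60.CVS
import Pool.Agent.Work.MP_1c7b0d_lh60.CVT
import Pool.Agent.Work.MP_1c7b0d_lh60.DEGEN
import Pool.Agent.Work.MP_1c7b0d_lh60.DETS
import Pool.Agent.Work.MP_1c7b0d_lh60.FRI
import Pool.Agent.Work.MP_1c7b0d_lh60.GCV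
import Pool.Agent.Work.MP_1c7b0d_lh60.GLIM
import Pool.Agent.Work.MP_1c7b0d_lh60.GM1
import Pool.Agent.Work.MP_1c7b0d_lh60.GM2
import Pool.Agent.Work.MP_1c7b0d_lh60.GM3
import Pool.Agent.Work.MP_1c7b0d_lh60.ONC
import Pool.Agent.Work.MP_1c7b0d_lh60.PDY
import Pool.Agent.Work.MP_1c7b0d_lh60.RHO
import Pool.Agent.Work.MP_1c7b0d_lh60.TRF
import Pool.Agent.Work.MP_1c7b0d_lh60.ZB
import Pool.Agent.Work.MP_1c7b0d_lh73.ALD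
import Pool.Agent.Work.MP_1c7b0d_lh73.DEF1
import Pool.Agent.Work.MP_1c7b0d_lh73.DETE
import Pool.Agent.Work.MP_1c7b0d_lh73.EIGX
import Pool.Agent.Work.MP_1c7b0d_lh73.EXIG
import Pool.Agent.Work.MP_1c7b0d_lh73.EXVG
import Pool.Agent.Work.MP_1c7b0d_lh73.ISOG
import Pool.Agent.Work.MP_1c7b0d_lh73.ISOT
import Pool.Agent.Work.MP_1c7b0d_lh73.SVM
import Pool.Agent.Work.MP_1c7b0d_lin.ALB
import Pool.Agent.Work.MP_1c7b0d_lin.AMG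
import Pool.Agent.Work.MP_1c7b0d_lin.BLM1
import Pool.Agent.Work.MP_1c7b0d_lin.BLM2
import Pool.Agent.Work.MP_1c7b0d_lin.BLM3
import Pool.Agent.Work.MP_1c7b0d_lin.BST
import Pool.Agent.Work.MP_1c7b0d_lin.CHA
import Pool.Agent.Work.MP_1c7b0d_lin.CHI
import Pool.Agent.Work.MP_1c7b0d_lin.CHO
import Pool.Agent.Work.MP_1c7b0d_lin.CL1
import Pool.Agent.Work.MP_1c7b0d_lin.CL2
import Pool.Agent.Work.MP_1c7b0d_lin.CLC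
import Pool.Agent.Work.MP_1c7b0d_lin.CLS
import Pool.Agent.Work.MP_1c7b0d_lin.CPL
import Pool.Agent.Work.MP_1c7b0d_lin.DU1
import Pool.Agent.Work.MP_1c7b0d_lin.DUA
import Pool.Agent.Work.MP_1c7b0d_lin.DWT
import Pool.Agent.Work.MP_1c7b0d_lin.EFS
import Pool.Agent.Work.MP_1c7b0d_lin.FN1
import Pool.Agent.Work.MP_1c7b0d_lin.FN2
import Pool.Agent.Work.MP_1c7b0d_lin.FN3
import Pool.Agent.Work.MP_1c7b0d_lin.GGC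
import Pool.Agent.Work.MP_1c7b0d_lin.GGE
import Pool.Agent.Work.MP_1c7b0d_lin.GNL
import Pool.Agent.Work.MP_1c7b0d_lin.HOL73
import Pool.Agent.Work.MP_1c7b0d_lin.HUB
import Pool.Agent.Work.MP_1c7b0d_lin.IBP
import Pool.Agent.Work.MP_1c7b0d_lin.INT
import Pool.Agent.Work.MP_1c7b0d_lin.KLE
import Pool.Agent.Work.MP_1c7b0d_lin.LAW
import Pool.Agent.Work.MP_1c7b0d_lin.LCB
import Pool.Agent.Work.MP_1c7b0d_lin.LCD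
import Pool.Agent.Work.MP_1c7b0d_lin.LCE
import Pool.Agent.Work.MP_1c7b0d_lin.LCI
import Pool.Agent.Work.MP_1c7b0d_lin.LCN
import Pool.Agent.Work.MP_1c7b0d_lin.LCP
import Pool.Agent.Work.MP_1c7b0d_lin.LCX
import Pool.Agent.Work.MP_1c7b0d_lin.LOWL
import Pool.Agent.Work.MP_1c7b0d_lin.M4
import Pool.Agent.Work.MP_1c7b0d_lin.M4A
import Pool.Agent.Work.MP_1c7b0d_lin.MAL
import Pool.Agent.Work.MP_1c7b0d_lin.PA1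
import Pool.Agent.Work.MP_1c7b0d_lin.PA2
import Pool.Agent.Work.MP_1c7b0d_lin.PA3
import Pool.Agent.Work.MP_1c7b0d_lin.PAIR
import Pool.Agent.Work.MP_1c7b0d_lin.PDG
import Pool.Agent.Work.MP_1c7b0d_lin.PEF
import Pool.Agent.Work.MP_1c7b0d_lin.PEI
import Pool.Agent.Work.MP_1c7b0d_lin.POI1
import Pool.Agent.Work.MP_1c7b0d_lin.POI73
import Pool.Agent.Work.MP_1c7b0d_lin.PRB
import Pool.Agent.Work.MP_1c7b0d_lin.PTW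
import Pool.Agent.Work.MP_1c7b0d_lin.RBE
import Pool.Agent.Work.MP_1c7b0d_lin.RES
import Pool.Agent.Work.MP_1c7b0d_lin.SCH
import Pool.Agent.Work.MP_1c7b0d_lin.SPECH
import Pool.Agent.Work.MP_1c7b0d_lin.TDE
import Pool.Agent.Work.MP_1c7b0d_lin.TFA
import Pool.Agent.Work.MP_1c7b0d_lin.TOPL
import Pool.Agent.Work.MP_1c7b0d_lin.TOT
import Pool.Agent.Work.MP_1c7b0d_lin.TRC
import Pool.Agent.Work.MP_1c7b0d_lin.TRS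
import Pool.Agent.Work.MP_1c7b0d_lin.TRU
import Pool.Agent.Work.MP_1c7b0d_lin.UPE73
import Pool.Agent.Work.MP_1c7b0d_lin.VNL
import Pool.Agent.Work.MP_1c7b0d_lin.YBD
import Pool.Agent.Work.MP_1c7b0d_lin.YCO
import Pool.Agent.Work.MP_1c7b0d_lin.YDI
import Pool.Agent.Work.MP_1c7b0d_lin.YEX
import Pool.Agent.Work.MP_1c7b0d_lin.YMO

/-! Assembly (helper73). -/

namespace Pool.LIN

open Pool.LH60 Pool.LH73

theorem final : Stmt_TOPL := by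
  have hISOT : Pool.LH73.Stmt_ISOT := Pool.LH73.ISOT_thm 
  have hFRI : Pool.LH60.Stmt_FRI := Pool.LH60.FRI_thm 
  have hCVS : Pool.LH60.Stmt_CVS := Pool.LH60.CVS_thm hFRI
  have hYEX : Pool.LIN.Stmt_YEX := Pool.LIN.YEX_thm hCVS
  have hYBD : Pool.LIN.Stmt_YBD := Pool.LIN.YBD_thm hFRI
  have hPDG : Pool.LIN.Stmt_PDG := Pool.LIN.PDG_thm 
  have hTFA : Pool.LIN.Stmt_TFA := Pool.LIN.TFA_thm hPDG
  have hYDI : Pool.LIN.Stmt_YDI := Pool.LIN.YDI_thm hTFA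
  have hYCO : Pool.LIN.Stmt_YCO := Pool.LIN.YCO_thm hYDI hTFA hPDG
  have hPRB : Pool.LIN.Stmt_PRB := Pool.LIN.PRB_thm 
  have hBST : Pool.LIN.Stmt_BST := Pool.LIN.BST_thm hYCO hPRB
  have hCPL : Pool.LIN.Stmt_CPL := Pool.LIN.CPL_thm hYEX hYBD hYCO hBST
  have hCVI : Pool.LH60.Stmt_CVI := Pool.LH60.CVI_thm 
  have hCVD : Pool.LH60.Stmt_CVD := Pool.LH60.CVD_thm 
  have hPDY : Pool.LH60.Stmt_PDY := Pool.LH60.PDY_thm 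
  have hLAW : Pool.LIN.Stmt_LAW := Pool.LIN.LAW_thm hCVI hCVS hCVD hPDY hYDI
  have hGLIM : Pool.LH60.Stmt_GLIM := Pool.LH60.GLIM_thm 
  have hGM2 : Pool.LH60.Stmt_GM2 := Pool.LH60.GM2_thm hGLIM
  have hGCV : Pool.LH60.Stmt_GCV := Pool.LH60.GCV_thm hGM2
  have hSPECH : Pool.LIN.Stmt_SPECH := Pool.LIN.SPECH_thm hGCV
  have hBLI : Pool.LH60.Stmt_BLI := Pool.LH60.BLI_thm 
  have hBLG : Pool.LH60.Stmt_BLG := Pool.LH60.BLG_thm hBLI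
  have hEIGX : Pool.LH73.Stmt_EIGX := Pool.LH73.EIGX_thm 
  have hGGE : Pool.LIN.Stmt_GGE := Pool.LIN.GGE_thm 
  have hPTW : Pool.LIN.Stmt_PTW := Pool.LIN.PTW_thm hSPECH hBLG hEIGX hPDG hGGE
  have hHUB : Pool.LIN.Stmt_HUB := Pool.LIN.HUB_thm 
  have hGGC : Pool.LIN.Stmt_GGC := Pool.LIN.GGC_thm hGGE hHUB hEIGX hPDG
  have hDEF1 : Pool.LH73.Stmt_DEF1 := Pool.LH73.DEF1_thm 
  have hINT : Pool.LIN.Stmt_INT := Pool.LIN.INT_thm hTFA hGGC hDEF1 hPDG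
  have hMAL : Pool.LIN.Stmt_MAL := Pool.LIN.MAL_thm hCPL hLAW hPTW hINT hGGC hPDG
  have hGM1 : Pool.LH60.Stmt_GM1 := Pool.LH60.GM1_thm hGLIM
  have hSCH : Pool.LIN.Stmt_SCH := Pool.LIN.SCH_thm hGM1
  have hRHO : Pool.LH60.Stmt_RHO := Pool.LH60.RHO_thm 
  have hTOT : Pool.LIN.Stmt_TOT := Pool.LIN.TOT_thm 
  have hFN1 : Pool.LIN.Stmt_FN1 := Pool.LIN.FN1_thm hISOT hMAL hSCH hRHO hTOT hTFA hFRI hINT
  have hPEI : Pool.LIN.Stmt_PEI := Pool.LIN.PEI_thm hGGE hHUB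
  have hRBE : Pool.LIN.Stmt_RBE := Pool.LIN.RBE_thm hEIGX hGGE hPDG hHUB hPEI
  have hCLC : Pool.LIN.Stmt_CLC := Pool.LIN.CLC_thm hDEF1
  have hFN2 : Pool.LIN.Stmt_FN2 := Pool.LIN.FN2_thm hRBE hCLC hINT
  have hCL1 : Pool.LIN.Stmt_CL1 := Pool.LIN.CL1_thm hDEF1
  have hCL2 : Pool.LIN.Stmt_CL2 := Pool.LIN.CL2_thm hDEF1
  have hCLS : Pool.LIN.Stmt_CLS := Pool.LIN.CLS_thm hCL1 hCL2 hDEF1
  have hCHA : Pool.LIN.Stmt_CHA := Pool.LIN.CHA_thm hGM2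
  have hGM3 : Pool.LH60.Stmt_GM3 := Pool.LH60.GM3_thm hGM1 hGM2
  have hTDE : Pool.LIN.Stmt_TDE := Pool.LIN.TDE_thm hGM3
  have hCHO : Pool.LIN.Stmt_CHO := Pool.LIN.CHO_thm hCHA hTDE
  have hSVM : Pool.LH73.Stmt_SVM := Pool.LH73.SVM_thm 
  have hVNL : Pool.LIN.Stmt_VNL := Pool.LIN.VNL_thm hSVM
  have hALD : Pool.LH73.Stmt_ALD := Pool.LH73.ALD_thm 
  have hALB : Pool.LIN.Stmt_ALB := Pool.LIN.ALB_thm hALD
  have hAMG : Pool.LIN.Stmt_AMG := Pool.LIN.AMG_thm 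
  have hKLE : Pool.LIN.Stmt_KLE := Pool.LIN.KLE_thm hCLC hDEF1
  have hPA1 : Pool.LIN.Stmt_PA1 := Pool.LIN.PA1_thm hDEF1
  have hPA2 : Pool.LIN.Stmt_PA2 := Pool.LIN.PA2_thm hHUB
  have hPA3 : Pool.LIN.Stmt_PA3 := Pool.LIN.PA3_thm hDEF1
  have hPAIR : Pool.LIN.Stmt_PAIR := Pool.LIN.PAIR_thm hPA1 hPA2 hPA3 hGGE hEIGX hPDG hHUB
  have hUPE : Pool.LIN.Stmt_UPE := Pool.LIN.UPE73_thm 
  have hPOI1 : Pool.LIN.Stmt_POI1 := Pool.LIN.POI1_thm 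
  have hEFS : Pool.LIN.Stmt_EFS := Pool.LIN.EFS_thm 
  have hPOI : Pool.LIN.Stmt_POI := Pool.LIN.POI73_thm hPOI1 hEFS hPRB
  have hLCP : Pool.LIN.Stmt_LCP := Pool.LIN.LCP_thm hPOI hINT
  have hLCX : Pool.LIN.Stmt_LCX := Pool.LIN.LCX_thm 
  have hYMO : Pool.LIN.Stmt_YMO := Pool.LIN.YMO_thm hTFA
  have hRES : Pool.LIN.Stmt_RES := Pool.LIN.RES_thm 
  have hLCI : Pool.LIN.Stmt_LCI := Pool.LIN.LCI_thm hUPE hLCP hLCX hYMO hRES hPRB hINT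
  have hPEF : Pool.LIN.Stmt_PEF := Pool.LIN.PEF_thm hPEI hEIGX hPDG
  have hLCD : Pool.LIN.Stmt_LCD := Pool.LIN.LCD_thm hPEF hTFA hEIGX hPDG hGGE hHUB
  have hDWT : Pool.LIN.Stmt_DWT := Pool.LIN.DWT_thm hDEF1
  have hLCB : Pool.LIN.Stmt_LCB := Pool.LIN.LCB_thm hLCI hLCD hDWT hINT hDEF1
  have hIBP : Pool.LIN.Stmt_IBP := Pool.LIN.IBP_thm hRES hPRB
  have hM4A : Pool.LIN.Stmt_M4A := Pool.LIN.M4A_thm hPRB
  have hBLM1 : Pool.LIN.Stmt_BLM1 := Pool.LIN.BLM1_thm hTFA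
  have hCHI : Pool.LIN.Stmt_CHI := Pool.LIN.CHI_thm 
  have hDU1 : Pool.LIN.Stmt_DU1 := Pool.LIN.DU1_thm hIBP hM4A hBLM1 hINT hCHI hPRB
  have hHOL : Pool.LIN.Stmt_HOL := Pool.LIN.HOL73_thm hGGE hHUB
  have hTRC : Pool.LIN.Stmt_TRC := Pool.LIN.TRC_thm 
  have hTRS : Pool.LIN.Stmt_TRS := Pool.LIN.TRS_thm 
  have hTRU : Pool.LIN.Stmt_TRU := Pool.LIN.TRU_thm hTRC hTRS hGGE hEIGX hPDG hHUB
  have hLCN : Pool.LIN.Stmt_LCN := Pool.LIN.LCN_thm hPEF hHUB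
  have hLCE : Pool.LIN.Stmt_LCE := Pool.LIN.LCE_thm hPEF hTFA hDEF1 hHUB
  have hBLM2 : Pool.LIN.Stmt_BLM2 := Pool.LIN.BLM2_thm hDEF1 hBLM1
  have hBLM3 : Pool.LIN.Stmt_BLM3 := Pool.LIN.BLM3_thm hDEF1 hBLM1
  have hM4 : Pool.LIN.Stmt_M4 := Pool.LIN.M4_thm hM4A
  have hDUA : Pool.LIN.Stmt_DUA := Pool.LIN.DUA_thm hDU1 hHOL hTRU hLCN hLCE hBLM1 hBLM2 hBLM3 hM4 hCHI hINT hEIGX hPDG hDEF1
  have hGNL : Pool.LIN.Stmt_GNL := Pool.LIN.GNL_thm hPAIR hLCB hDUA hINT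
  have hFN3 : Pool.LIN.Stmt_FN3 := Pool.LIN.FN3_thm hFN1 hFN2 hCLS hCLC hCHO hVNL hALB hAMG hKLE hGNL hGM3 hGGC hDEF1
  have hDETS : Pool.LH60.Stmt_DETS := Pool.LH60.DETS_thm 
  have hDETE : Pool.LH73.Stmt_DETE := Pool.LH73.DETE_thm 
  have hONC : Pool.LH60.Stmt_ONC := Pool.LH60.ONC_thm 
  have hDEGEN : Pool.LH60.Stmt_DEGEN := Pool.LH60.DEGEN_thm 
  have hLOWL : Pool.LIN.Stmt_LOWL := Pool.LIN.LOWL_thm hFN3 hVNL hDEF1 hDETS hDETE hFRI hONC hDEGEN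
  have hCVT : Pool.LH60.Stmt_CVT := Pool.LH60.CVT_thm hCVI hCVS hCVD hPDY
  have hZB : Pool.LH60.Stmt_ZB := Pool.LH60.ZB_thm 
  have hEXVG : Pool.LH73.Stmt_EXVG := Pool.LH73.EXVG_thm hCVT hZB
  have hEXIG : Pool.LH73.Stmt_EXIG := Pool.LH73.EXIG_thm hONC
  have hISOG : Pool.LH73.Stmt_ISOG := Pool.LH73.ISOG_thm 
  have hTRF : Pool.LH60.Stmt_TRF := Pool.LH60.TRF_thm 
  have hTOPL : Pool.LIN.Stmt_TOPL := Pool.LIN.TOPL_thm hLOWL hEXVG hEXIG hISOG hTRF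
  exact hTOPL

end Pool.LIN
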