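import Pool.Agent.Work.MP_1c7b0d_lin.Interface

open MeasureTheory Matrix Pool.LH60 Pool.LH73
open scoped BigOperators

namespace Pool.LIN

namespace GGCaux

lemma one_side (hGGE : Stmt_GGE) (hHUB : Stmt_HUB) (hEIGX : Stmt_EIGX) (hPDG : Stmt_PDG)
    {ι : Type} [Fintype ι] [DecidableEq ι] {K : ℕ} (Φ : Matrix ι (Fin K) ℝ) (y y' : ι → ℝ)
    (hΦ : Φᵀ * Φ = 1) (hy : ∀ i, 0 < y i) (hy' : ∀ i, 0 < y' i) :
    GG (Dm Φ y) ≤ GG (Dm Φ y') + ∑ i, cn Φ i * |y i - y' i| := by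
  obtain ⟨e, Q, hE⟩ := hEIGX K _ (hPDG ι K Φ y hΦ hy)
  obtain ⟨e', Q', hE'⟩ := hEIGX K _ (hPDG ι K Φ y' hΦ hy')
  rw [hGGE K _ e Q hE, hGGE K _ e' Q' hE']
  obtain ⟨h0, hLip, hconv, -⟩ := hHUB
  have hQQ : Q * Qᵀ = 1 := mul_eq_one_comm.mp hE.orth
  have hQQ' : Q' * Q'ᵀ = 1 := mul_eq_one_comm.mp hE'.orth
  have hD : Qᵀ * Dm Φ y * Q = diagonal e := by
    rw [hE.eq]
    calc Qᵀ * (Q * diagonal e * Qᵀ) * Q = (Qᵀ * Q) * diagonal e * (Qᵀ * Q) := by
          simp only [Matrix.mul_assoc]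
      _ = diagonal e := by rw [hE.orth]; simp
  obtain ⟨W, hW⟩ : ∃ W : Matrix (Fin K) (Fin K) ℝ, W = Q'ᵀ * Q := ⟨_, rfl⟩
  have hWW : Wᵀ * W = 1 := by
    rw [hW, transpose_mul, transpose_transpose]
    calc Qᵀ * Q' * (Q'ᵀ * Q) = Qᵀ * (Q' * Q'ᵀ) * Q := by simp only [Matrix.mul_assoc]
      _ = 1 := by rw [hQQ', Matrix.mul_one, hE.orth]
  have hWW2 : W * Wᵀ = 1 := mul_eq_one_comm.mp hWW
  have hcol : ∀ k, ∑ j, (W j k)^2 = 1 := by
    intro k
    have := congrFun (congrFun hWW k) k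
    simp only [mul_apply, transpose_apply, one_apply_eq] at this
    rw [← this]; exact Finset.sum_congr rfl fun j _ => by ring
  have hrow : ∀ j, ∑ k, (W j k)^2 = 1 := by
    intro j
    have := congrFun (congrFun hWW2 j) j
    simp only [mul_apply, transpose_apply, one_apply_eq] at this
    rw [← this]; exact Finset.sum_congr rfl fun k _ => by ring
  obtain ⟨a, ha⟩ : ∃ a : Fin K → ℝ, a = fun k => (Qᵀ * Dm Φ y' * Q) k k := ⟨_, rfl⟩
  have ha' : ∀ k, a k = ∑ j, (W j k)^2 * e' j := by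
    intro k
    have h1 : Qᵀ * Dm Φ y' * Q = Wᵀ * diagonal e' * W := by
      rw [hE'.eq, hW, transpose_mul, transpose_transpose]; simp only [Matrix.mul_assoc]
    rw [ha]
    simp only [h1]
    rw [mul_apply]
    refine Finset.sum_congr rfl fun j _ => ?_
    rw [mul_diagonal, transpose_apply]; ring
  -- Peierls
  have hP : ∑ k, hub (a k - 1) ≤ ∑ j, hub (e' j - 1) := by
    have h1 : ∀ k, hub (a k - 1) ≤ ∑ j, (W j k)^2 * hub (e' j - 1) := by
      intro k
      have h2 := hconv.map_sum_le (t := Finset.univ) (w := fun j => (W j k)^2)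
        (p := fun j => e' j - 1) (fun j _ => sq_nonneg _) (hcol k) (fun j _ => Set.mem_univ _)
      simp only [smul_eq_mul] at h2
      have h3 : ∑ j, (W j k)^2 * (e' j - 1) = a k - 1 := by
        rw [ha' k]
        simp only [mul_sub, mul_one, Finset.sum_sub_distrib, hcol k]
      rw [h3] at h2
      exact h2
    calc ∑ k, hub (a k - 1) ≤ ∑ k, ∑ j, (W j k)^2 * hub (e' j - 1) :=
          Finset.sum_le_sum fun k _ => h1 k
      _ = ∑ j, ∑ k, (W j k)^2 * hub (e' j - 1) := Finset.sum_comm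
      _ = ∑ j, hub (e' j - 1) := by
          refine Finset.sum_congr rfl fun j _ => ?_
          rw [← Finset.sum_mul, hrow j, one_mul]
  -- difference
  obtain ⟨P, hPd⟩ : ∃ P : Matrix ι (Fin K) ℝ, P = Φ * Q := ⟨_, rfl⟩
  have hkk : ∀ (z : ι → ℝ) (k : Fin K), (Qᵀ * Dm Φ z * Q) k k = ∑ i, z i * (P i k)^2 := by
    intro z k
    have h1 : Qᵀ * Dm Φ z * Q = Pᵀ * diagonal z * P := by
      rw [hPd, Dm, transpose_mul]; simp only [Matrix.mul_assoc]
    rw [h1, mul_apply]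
    refine Finset.sum_congr rfl fun j _ => ?_
    rw [mul_diagonal, transpose_apply]; ring
  have hek : ∀ k, e k = ∑ i, y i * (P i k)^2 := by
    intro k
    rw [← hkk y k, hD, diagonal_apply_eq]
  have hak : ∀ k, a k = ∑ i, y' i * (P i k)^2 := by
    intro k
    rw [ha]; exact hkk y' k
  have hPc : ∀ i, ∑ k, (P i k)^2 = cn Φ i := by
    intro i
    have h1 : P * Pᵀ = Φ * Φᵀ := by
      rw [hPd, transpose_mul]
      calc Φ * Q * (Qᵀ * Φᵀ) = Φ * (Q * Qᵀ) * Φᵀ := by simp only [Matrix.mul_assoc]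
        _ = Φ * Φᵀ := by rw [hQQ, Matrix.mul_one]
    have h2 := congrFun (congrFun h1 i) i
    simp only [mul_apply, transpose_apply] at h2
    rw [cn]
    calc ∑ k, (P i k)^2 = ∑ k, P i k * P i k := Finset.sum_congr rfl fun k _ => by ring
      _ = ∑ k, Φ i k * Φ i k := h2
      _ = _ := Finset.sum_congr rfl fun k _ => by ring
  have hdiff : ∀ k, |e k - a k| ≤ ∑ i, |y i - y' i| * (P i k)^2 := by
    intro k
    rw [hek k, hak k, ← Finset.sum_sub_distrib]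
    refine (Finset.abs_sum_le_sum_abs _ _).trans (le_of_eq ?_)
    refine Finset.sum_congr rfl fun i _ => ?_
    rw [← sub_mul, abs_mul, abs_of_nonneg (sq_nonneg (P i k))]
  have hstep : ∀ k, hub (e k - 1) ≤ hub (a k - 1) + |e k - a k| := by
    intro k
    have h1 := hLip (e k - 1) (a k - 1)
    have h2 : e k - 1 - (a k - 1) = e k - a k := by ring
    rw [h2] at h1
    have h3 := le_abs_self (hub (e k - 1) - hub (a k - 1))
    linarith
  have hsum : ∑ k, |e k - a k| ≤ ∑ i, cn Φ i * |y i - y' i| := by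
    calc ∑ k, |e k - a k| ≤ ∑ k, ∑ i, |y i - y' i| * (P i k)^2 :=
          Finset.sum_le_sum fun k _ => hdiff k
      _ = ∑ i, ∑ k, |y i - y' i| * (P i k)^2 := Finset.sum_comm
      _ = _ := by
          refine Finset.sum_congr rfl fun i _ => ?_
          rw [← Finset.mul_sum, hPc i, mul_comm]
  calc ∑ k, hub (e k - 1) ≤ ∑ k, (hub (a k - 1) + |e k - a k|) :=
        Finset.sum_le_sum fun k _ => hstep k
    _ = ∑ k, hub (a k - 1) + ∑ k, |e k - a k| := Finset.sum_add_distrib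
    _ ≤ _ := add_le_add hP hsum

end GGCaux

theorem GGC_thm (hGGE : Stmt_GGE) (hHUB : Stmt_HUB) (hEIGX : Stmt_EIGX) (hPDG : Stmt_PDG) :
    Stmt_GGC := by
  intro ι _ _ K Φ y y' hΦ hy hy'
  have h1 := GGCaux.one_side hGGE hHUB hEIGX hPDG Φ y y' hΦ hy hy'
  have h2 := GGCaux.one_side hGGE hHUB hEIGX hPDG Φ y' y hΦ hy' hy
  have h3 : ∑ i, cn Φ i * |y' i - y i| = ∑ i, cn Φ i * |y i - y' i| :=
    Finset.sum_congr rfl fun i _ => by rw [abs_sub_comm]
  rw [h3] at h2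
  refine ⟨abs_le.mpr ⟨by linarith, by linarith⟩, ?_, ?_⟩
  · obtain ⟨e, Q, hE⟩ := hEIGX K _ (hPDG ι K Φ y hΦ hy)
    rw [hGGE K _ e Q hE]
    exact Finset.sum_nonneg fun k _ => hHUB.1 _
  · have h4 := GGCaux.one_side hGGE hHUB hEIGX hPDG Φ y (fun _ => 1) hΦ hy (fun _ => one_pos)
    have h5 : Dm Φ (fun _ => (1:ℝ)) = 1 := by
      have : (diagonal (fun _ : ι => (1:ℝ))) = 1 := diagonal_one
      rw [Dm, this, Matrix.mul_one, hΦ]
    have h6 : GG (1 : Matrix (Fin K) (Fin K) ℝ) = 0 := by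
      have hE : EigD (1 : Matrix (Fin K) (Fin K) ℝ) (fun _ => 1) 1 := by
        refine ⟨by simp, ?_, fun _ => one_pos⟩
        have : (diagonal (fun _ : Fin K => (1:ℝ))) = 1 := diagonal_one
        rw [this]; simp
      rw [hGGE K _ _ _ hE]
      refine Finset.sum_eq_zero fun k _ => ?_
      have := hHUB.2.2.2.2.2.2.2.1 ((1:ℝ) - 1)
      have h0 := hHUB.1 ((1:ℝ) - 1)
      have : hub ((1:ℝ) - 1) ≤ 0 := by
        refine this.trans (le_of_eq (by norm_num))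
      linarith
    rw [h5, h6, zero_add] at h4
    exact h4

end Pool.LIN
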