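import Pool.Agent.Work.MP_1c7b0d_lin.Basic

/-!
L'huilier's problem for `n ≤ (1+c) d` facets (row MP_1c7b0d_gt), helper73: the product of `K` regular
simplices of dimensions `⌊d/K⌋`, `⌊d/K⌋+1` is the unique optimum for `n = d + K`, `d ≥ M₀ K`.
All proofs: `BLUEPRINT.md` in this folder. Continues `MP_1c7b0d_lh60` (helper60), `MP_1c7b0d_lh73`.
Block `X` proves `theorem X_thm (dependencies as hypotheses) : Stmt_X` in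
`Pool/Agent/Work/MP_1c7b0d_lin/X.lean`, namespace `Pool.LIN`.
-/

open MeasureTheory Matrix Pool.LH60 Pool.LH73
open scoped BigOperators

namespace Pool.LIN

/-! ## Definitions -/

section generic
variable {ι : Type} [Fintype ι] [DecidableEq ι] {K L : ℕ}

/-- `ρ = Φ D_y⁻¹ Φᵀ` -/
noncomputable def rho (Φ : Matrix ι (Fin K) ℝ) (y : ι → ℝ) : Matrix ι ι ℝ :=
  Φ * (Dm Φ y)⁻¹ * Φᵀ

/-- `T = Y - YρY` -/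
noncomputable def Tm (Φ : Matrix ι (Fin K) ℝ) (y : ι → ℝ) : Matrix ι ι ℝ :=
  Matrix.of fun i j => (if i = j then y i else 0) - y i * rho Φ y i j * y j

/-- `|φ_i - φ_j|²` -/
def ds (Φ : Matrix ι (Fin K) ℝ) (i j : ι) : ℝ := ∑ k, (Φ i k - Φ j k)^2

/-- `e_i* = φ_iᵀ D_y φ_i / |φ_i|²` -/
noncomputable def es (Φ : Matrix ι (Fin K) ℝ) (y : ι → ℝ) (i : ι) : ℝ :=
  (∑ j, (pp Φ i j)^2 * y j) / cn Φ i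

/-- `(T M)_ii`, `M_ij = κ_ij²` -/
noncomputable def TMd (Φ : Matrix ι (Fin K) ℝ) (y : ι → ℝ) (i : ι) : ℝ :=
  ∑ l, Tm Φ y i l * (pp Φ i l)^2

/-- `tr (T M)` -/
noncomputable def DT (Φ : Matrix ι (Fin K) ℝ) (y : ι → ℝ) : ℝ := ∑ i, TMd Φ y i

/-- truncated pair sum -/
noncomputable def Pt (Φ : Matrix ι (Fin K) ℝ) (y : ι → ℝ) : ℝ :=
  (∑ i, ∑ j, min (y i) 1 * min (y j) 1 * ((pp Φ i j)^2 * ds Φ i j)) / 2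

/-- the share of row `i` in the defect -/
noncomputable def Dr (Φ : Matrix ι (Fin K) ℝ) (i : ι) : ℝ := (∑ j, (pp Φ i j)^2 * ds Φ i j) / 2

/-- exceptional rows -/
noncomputable def Cs (Φ : Matrix ι (Fin K) ℝ) (m : ℝ) : Finset ι :=
  Finset.univ.filter (fun i => 1/20 < |m * cn Φ i - 1|)

noncomputable def Nc (Φ : Matrix ι (Fin K) ℝ) (m : ℝ) : ℝ :=
  ((Cs Φ m).card : ℝ) / m^2 + ∑ i ∈ Cs Φ m, (cn Φ i)^2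

/-- `∑_l (ρ_il y_l)²` -/
noncomputable def gr (Φ : Matrix ι (Fin K) ℝ) (y : ι → ℝ) (i : ι) : ℝ :=
  ∑ l, (rho Φ y i l * y l)^2

noncomputable def Zb (Φ : Matrix ι (Fin K) ℝ) (y : ι → ℝ) (i : ι) : ℝ :=
  y i * max (gr Φ y i - 5/4) 0 + (if 21/20 < es Φ y i then y i else 0)

/-- `B_l = ∑_i (1-κ)_li φ_i φ_iᵀ` -/
noncomputable def Bl (Φ : Matrix ι (Fin K) ℝ) (l : ι) : Matrix (Fin K) (Fin K) ℝ :=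
  Matrix.of fun a b => Φ l a * Φ l b - ∑ i, pp Φ l i * (Φ i a * Φ i b)

/-- `(Π M)_li`, `Π = 1 - κ` -/
noncomputable def PM (Φ : Matrix ι (Fin K) ℝ) (l i : ι) : ℝ :=
  (pp Φ l i)^2 - ∑ j, pp Φ l j * (pp Φ j i)^2

/-- third moments -/
def Tt (Φ : Matrix ι (Fin K) ℝ) (y : ι → ℝ) (a b k : Fin K) : ℝ :=
  ∑ i, y i * Φ i a * Φ i b * Φ i k

/-- good eigenvalues -/
noncomputable def Gd (e : Fin K → ℝ) : Finset (Fin K) :=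
  Finset.univ.filter (fun k => 1/2 ≤ e k ∧ e k ≤ 2)

/-- number of bad eigenvalues -/
noncomputable def Bd (e : Fin K → ℝ) : ℕ :=
  (Finset.univ.filter (fun k => ¬ (1/2 ≤ e k ∧ e k ≤ 2))).card

noncomputable def Dg (Φ : Matrix ι (Fin K) ℝ) (y : ι → ℝ) (e : Fin K → ℝ) : ℝ :=
  ∑ a ∈ Gd e, ∑ b ∈ Gd e, (∑ i, y i * (Φ i a)^2 * (Φ i b)^2 - ∑ k ∈ Gd e, (Tt Φ y a b k)^2 / e k)

noncomputable def kg (Φ : Matrix ι (Fin K) ℝ) (e : Fin K → ℝ) (i j : ι) : ℝ :=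
  ∑ k ∈ Gd e, Φ i k * Φ j k

noncomputable def dg (Φ : Matrix ι (Fin K) ℝ) (e : Fin K → ℝ) (i j : ι) : ℝ :=
  ∑ k ∈ Gd e, (Φ i k - Φ j k)^2

/-- `w_i = y_i e^{⟨φ_i,f⟩}`, `Φᵀ(y - 1) = 0` -/
def IsY (Φ : Matrix ι (Fin K) ℝ) (w y : ι → ℝ) : Prop :=
  (∀ i, 0 < y i) ∧ (∀ k, ∑ i, (y i - 1) * Φ i k = 0) ∧
    ∃ f : Fin K → ℝ, ∀ i, w i = y i * Real.exp (∑ a, Φ i a * f a)

open Classical in
/-- the solution `y = Y(w)` (`1` off the orthant) -/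
noncomputable def Yc (Φ : Matrix ι (Fin K) ℝ) (w : ι → ℝ) : ι → ℝ :=
  if h : w ∈ Orth ι ∧ ∃ y, IsY Φ w y then h.2.choose else fun _ => 1

/-- existence of `Y` -/
def Hex (Φ : Matrix ι (Fin K) ℝ) : Prop := ∀ w ∈ Orth ι, ∃ y, IsY Φ w y

/-- boundedness of `Y` -/
def Hbd (Φ : Matrix ι (Fin K) ℝ) (C : ℝ) : Prop :=
  ∀ w ∈ Orth ι, ∀ y, IsY Φ w y → ∀ i, y i ≤ C

/-- the coupling: `w` with law `Pw`, `y = y(w)` -/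
structure Cpl (Φ : Matrix ι (Fin K) ℝ) (y : (ι → ℝ) → ι → ℝ) : Prop where
  pos : ∀ w i, 0 < y w i
  meas : Measurable y
  bdd : ∃ C, ∀ w i, y w i ≤ C
  orth : ∀ w k, ∑ i, (y w i - 1) * Φ i k = 0
  cont : ContinuousOn y (Orth ι)
  der : ∀ w ∈ Orth ι, ∀ i l,
    HasDerivAt (fun t => y (Function.update w l t) i) (Tm Φ (y w) i l / w l) (w l)
  mean : ∀ i, ∫ w, y w i ∂Pw ι = 1

/-- `E GG(D_y)` -/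
noncomputable def EG (Φ : Matrix ι (Fin K) ℝ) (y : (ι → ℝ) → ι → ℝ) : ℝ :=
  ∫ w, GG (Dm Φ (y w)) ∂Pw ι

/-- the class `b` of a partial labelling -/
def fb (a : ι → Option (Fin L)) (b : Fin L) : Finset ι := Finset.univ.filter (fun i => a i = some b)

/-- the rest -/
def rs (a : ι → Option (Fin L)) : Finset ι := Finset.univ.filter (fun i => a i = none)

def mz (a : ι → Option (Fin L)) (b : Fin L) : ℕ := (fb a b).card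

/-- mean of the class -/
noncomputable def vb (Φ : Matrix ι (Fin K) ℝ) (a : ι → Option (Fin L)) (b : Fin L) (k : Fin K) : ℝ :=
  (∑ i ∈ fb a b, Φ i k) / (mz a b : ℝ)

/-- scatter of the class -/
noncomputable def sc (Φ : Matrix ι (Fin K) ℝ) (a : ι → Option (Fin L)) (b : Fin L) : ℝ :=
  ∑ i ∈ fb a b, ∑ k, (Φ i k - vb Φ a b k)^2

def ou (Φ : Matrix ι (Fin K) ℝ) (a : ι → Option (Fin L)) (b : Fin L) : ℝ :=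
  ∑ i ∈ fb a b, ∑ j, if a j = some b then 0 else (pp Φ i j)^2

noncomputable def Db (Φ : Matrix ι (Fin K) ℝ) (a : ι → Option (Fin L)) (b : Fin L) : ℝ :=
  ∑ i ∈ fb a b, Dr Φ i

def Cb (Φ : Matrix ι (Fin K) ℝ) (a : ι → Option (Fin L)) (b : Fin L) : ℝ := ∑ i ∈ fb a b, cn Φ i

/-- number of rows with `|m c_i - 1| > 1/100` -/
noncomputable def N1 (Φ : Matrix ι (Fin K) ℝ) (m : ℝ) : ℕ :=
  (Finset.univ.filter (fun i => 1/100 < |m * cn Φ i - 1|)).card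

/-- good classes -/
structure Clu (Φ : Matrix ι (Fin K) ℝ) (m : ℝ) (a : ι → Option (Fin L)) : Prop where
  row : ∀ i b, a i = some b → |m * cn Φ i - 1| ≤ 1/100
  inn : ∀ i j b, a i = some b → a j = some b → 9/10 ≤ m * pp Φ i j
  siz : ∀ b, |(mz a b : ℝ) - m| ≤ m / 20
  sca : ∀ b, sc Φ a b ≤ 5/4 * m * Db Φ a b
  out : ∀ b, ou Φ a b ≤ 800 * m * Db Φ a b
  dbb : ∀ b, m^2 * Db Φ a b ≤ 1
  rst : ((rs a).card : ℝ) ≤ 3 * 10^5 * m^3 * Dfc Φ + 3 * m * N1 Φ m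

/-- good rows -/
def Gr (Φ : Matrix ι (Fin K) ℝ) (m : ℝ) (i : ι) : Prop :=
  |m * cn Φ i - 1| ≤ 1/100 ∧ m^2 * Dr Φ i ≤ 1/10^5

/-- reference size of row `i` (`ms` on the rest) -/
def rf (a : ι → Option (Fin L)) (ms : ℝ) (i : ι) : ℝ := (a i).elim ms (fun b => (mz a b : ℝ))

/-- reference slope of row `i` -/
def pf (a : ι → Option (Fin L)) (ps : ℝ) (pb : Fin L → ℝ) (i : ι) : ℝ := (a i).elim ps pb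

/-- `∑ (c_i - 1/ref_i)²` -/
noncomputable def Ccc (Φ : Matrix ι (Fin K) ℝ) (a : ι → Option (Fin L)) (ms : ℝ) : ℝ :=
  ∑ i, (cn Φ i - 1 / rf a ms i)^2

end generic

/-- `Fs j = log sv(j-1)` -/
noncomputable def Fs (u : ℝ) : ℝ :=
  (u - 1) / 2 * Real.log (1 - 1/u) + u - Real.log (2 * Real.pi) / 2 - mu u

noncomputable def la (q : ℕ) : ℝ := Fs ((q:ℝ) + 2) - Fs ((q:ℝ) + 1)

/-- the chord of `Fs` between `q+1` and `q+2` -/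
noncomputable def ch (q : ℕ) (u : ℝ) : ℝ := Fs ((q:ℝ) + 1) + la q * (u - ((q:ℝ) + 1))

/-- truncation -/
noncomputable def chi (L t : ℝ) : ℝ := if t ≤ L then t else 2 * L - L^2 / t
noncomputable def chi' (L t : ℝ) : ℝ := if t ≤ L then 1 else L^2 / t^2

/-- `(1-e)_+²/2` and the rest of `hub (e-1)` -/
noncomputable def hm (e : ℝ) : ℝ := (max (1 - e) 0)^2 / 2
noncomputable def hp (e : ℝ) : ℝ := if 1 ≤ e then hub (e - 1) else 0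

/-- exponent of the pointwise bound -/
noncomputable def Cx {d K : ℕ} (Φ : Matrix (Ix d K) (Fin K) ℝ) (b α A : Ix d K → ℝ)
    (y : Ix d K → ℝ) : ℝ :=
  (K:ℝ) / 2 * Real.log (2 * Real.pi) - ∑ i, y i - ∑ i, b i * (y i - 1)
    + ∑ i, α i * (y i * rho Φ y i i) + ∑ i, A i * y i - GG (Dm Φ y) / 400

/-! ## A. Scalars -/

def Stmt_HUB : Prop := (∀ t, 0 ≤ hub t) ∧ (∀ s t, |hub s - hub t| ≤ |s - t|) ∧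
  ConvexOn ℝ Set.univ hub ∧ (∀ t, hub t ≤ |t|) ∧ (∀ t, |t| ≤ 1 → hub t = t^2 / 2) ∧
  (∀ t, 1 ≤ |t| → hub t = |t| - 1/2) ∧ (∀ t, |t| - 1/2 ≤ hub t) ∧ (∀ t, hub t ≤ t^2 / 2) ∧
  Continuous hub ∧ (∀ e, 0 < e → hub (e - 1) = hm e + hp e)

/-- scalar inequality with the Huber loss -/
def Stmt_SCH : Prop := ∀ m p : ℝ, 1 ≤ m → Tang m p → ∀ c e : ℝ, 0 < c → c ≤ 1 → 0 < e →
  Real.log e / 2 + mu (e / c) + hub (e - 1) / 400 ≤ al m p + Ac5 m p c / c * e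

/-- second differences of `Fs` -/
def Stmt_CHA : Prop := ConvexOn ℝ (Set.Ici 2) (fun u => Fs u - 1 / (6 * u)) ∧
  ConcaveOn ℝ (Set.Ici 2) (fun u => Fs u - 1 / (2 * u)) ∧
  ∀ u, 1 < u → HasDerivAt Fs (Real.log (1 - 1/u) / 2 + 1 / (2 * u) + 1 - deriv mu u) u

/-- the slope of the tangent of `mu` is its derivative -/
def Stmt_TDE : Prop := ∀ m : ℝ, 0 < m → DifferentiableAt ℝ mu m ∧ Tang m (deriv mu m)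

def Stmt_CHO : Prop := ∀ q : ℕ, 10 ≤ q → ∃ ms ps : ℝ, (q:ℝ) + 1 ≤ ms ∧ ms ≤ (q:ℝ) + 2 ∧
  Tang ms ps ∧ Real.log (1 - 1/ms) / 2 + 1 / (2 * ms) + 1 - ps = la q ∧
  ch q ms - 1 / (q:ℝ)^3 ≤ Fs ms ∧ Fs ms ≤ ch q ms ∧
  ∀ j : ℕ, (q:ℝ) / 2 ≤ j → (j:ℝ) ≤ 2 * q → ch q j ≤ Fs j ∧
    ((j:ℝ) ≠ q + 1 → (j:ℝ) ≠ q + 2 → ch q j + ((j:ℝ) - ms)^2 / (200 * (q:ℝ)^3) ≤ Fs j)

def Stmt_VNL : Prop := ∀ d K : ℕ, 1 ≤ K → K ≤ d → 0 < Vne d K ∧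
  Real.log (Vne d K) = K * ch (d / K) (((d:ℝ) + K) / K)

/-- differences of the constants of two tangents, of two logarithms -/
def Stmt_ALB : Prop := ∀ m m' ms p' ps : ℝ, 100 ≤ m → |ms - m| ≤ 1 → |m' - m| ≤ m / 20 →
  Tang m' p' → Tang ms ps →
  |al m' p' - al ms ps| ≤ 1/5 * |m' - ms| / m^2 ∧
  |Real.log (1 - 1/m') - Real.log (1 - 1/ms)| ≤ 13/10 * |m' - ms| / m^2

def Stmt_CHI : Prop := ∀ L : ℝ, 0 < L → (∀ t, 0 < t → HasDerivAt (chi L) (chi' L t) t ∧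
  0 < chi L t ∧ chi L t ≤ t ∧ chi L t ≤ 2 * L ∧ 0 < chi' L t ∧ chi' L t ≤ 1 ∧
  (t ≤ L → chi L t = t ∧ chi' L t = 1) ∧ (L < t → chi L t < t)) ∧
  Measurable (chi L) ∧ Measurable (chi' L)

/-! ## B. Linear algebra -/

def Stmt_GGE : Prop := ∀ (K : ℕ) (D : Matrix (Fin K) (Fin K) ℝ) (e : Fin K → ℝ)
  (Q : Matrix (Fin K) (Fin K) ℝ), EigD D e Q → GG D = ∑ k, hub (e k - 1)

def Stmt_PDG : Prop := ∀ (ι : Type) [Fintype ι] [DecidableEq ι] (K : ℕ)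
  (Φ : Matrix ι (Fin K) ℝ) (y : ι → ℝ), Φᵀ * Φ = 1 → (∀ i, 0 < y i) → (Dm Φ y).PosDef

/-- Peierls' inequality for a frame -/
def Stmt_PEI : Prop := ∀ (ι : Type) [Fintype ι] (K : ℕ) (D : Matrix (Fin K) (Fin K) ℝ)
  (e : Fin K → ℝ) (Q : Matrix (Fin K) (Fin K) ℝ) (u : ι → Fin K → ℝ) (c : ℝ), EigD D e Q →
  (∀ x : Fin K → ℝ, ∑ l, (∑ a, u l a * x a)^2 ≤ c * ∑ a, (x a)^2) →
  ∑ l, (∑ a, (u l a)^2) *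
    hub ((∑ a, ∑ b, u l a * D a b * u l b) / (∑ a, (u l a)^2) - 1) ≤ c * GG D

def Stmt_PEF : Prop := ∀ (ι : Type) [Fintype ι] [DecidableEq ι] (K : ℕ)
  (Φ : Matrix ι (Fin K) ℝ) (y : ι → ℝ), Φᵀ * Φ = 1 → (∀ i, 0 < y i) →
  ∑ i, cn Φ i * hub (es Φ y i - 1) ≤ GG (Dm Φ y)

def Stmt_GGC : Prop := ∀ (ι : Type) [Fintype ι] [DecidableEq ι] (K : ℕ)
  (Φ : Matrix ι (Fin K) ℝ) (y y' : ι → ℝ), Φᵀ * Φ = 1 → (∀ i, 0 < y i) → (∀ i, 0 < y' i) →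
  |GG (Dm Φ y) - GG (Dm Φ y')| ≤ ∑ i, cn Φ i * |y i - y' i| ∧
  0 ≤ GG (Dm Φ y) ∧ GG (Dm Φ y) ≤ ∑ i, cn Φ i * |y i - 1|

def Stmt_TFA : Prop := ∀ (ι : Type) [Fintype ι] [DecidableEq ι] (K : ℕ)
  (Φ : Matrix ι (Fin K) ℝ) (y : ι → ℝ), Φᵀ * Φ = 1 → (∀ i, 0 < y i) →
  (rho Φ y)ᵀ = rho Φ y ∧ (Tm Φ y)ᵀ = Tm Φ y ∧ Tm Φ y * Φ = 0 ∧
  (∀ x : ι → ℝ, 0 ≤ ∑ i, ∑ j, x i * Tm Φ y i j * x j ∧
    ∑ i, ∑ j, x i * Tm Φ y i j * x j ≤ ∑ i, y i * (x i)^2) ∧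
  (∀ i, 0 ≤ rho Φ y i i ∧ y i * rho Φ y i i ≤ 1) ∧
  (∀ i, ∑ l, y l * (rho Φ y i l)^2 = rho Φ y i i) ∧
  (∀ i l, (Tm Φ y i l)^2 ≤ y i * y l) ∧
  (∑ i, y i * rho Φ y i i = K) ∧
  (∀ i, 0 ≤ Tm Φ y i i ∧ Tm Φ y i i ≤ y i)

def Stmt_PA1 : Prop := ∀ (ι : Type) [Fintype ι] [DecidableEq ι] (K : ℕ)
  (Φ : Matrix ι (Fin K) ℝ) (y : ι → ℝ) (e : Fin K → ℝ), Φᵀ * Φ = 1 → (∀ i, 0 < y i) →
  (∀ k, 0 < e k) → Dm Φ y = Matrix.diagonal e →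
  Dg Φ y e ≤ DT Φ y + 2 * Bd e ∧
  ∀ k, ∑ a ∈ Gd e, ∑ b ∈ Gd e, (Tt Φ y a b k)^2 ≤ 2 * e k

def Stmt_PA2 : Prop := ∀ (ι : Type) [Fintype ι] [DecidableEq ι] (K : ℕ)
  (Φ : Matrix ι (Fin K) ℝ) (y : ι → ℝ) (e : Fin K → ℝ), Φᵀ * Φ = 1 → (∀ i, 0 < y i) →
  (∀ k, 0 < e k) → Dm Φ y = Matrix.diagonal e →
  (∀ k, ∑ a ∈ Gd e, ∑ b ∈ Gd e, (Tt Φ y a b k)^2 ≤ 2 * e k) →
  ∑ i, ∑ j, min (y i) 1 * min (y j) 1 * ((kg Φ e i j)^2 * dg Φ e i j)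
    ≤ 6 * Dg Φ y e + 96 * ∑ k ∈ Gd e, hub (e k - 1)

def Stmt_PA3 : Prop := ∀ (ι : Type) [Fintype ι] [DecidableEq ι] (K : ℕ)
  (Φ : Matrix ι (Fin K) ℝ) (y : ι → ℝ) (e : Fin K → ℝ), Φᵀ * Φ = 1 → (∀ i, 0 < y i) →
  2 * Pt Φ y ≤ 2 * ∑ i, ∑ j, min (y i) 1 * min (y j) 1 * ((kg Φ e i j)^2 * dg Φ e i j)
    + 12 * Bd e

/-- the pair inequality -/
def Stmt_PAIR : Prop := ∀ (ι : Type) [Fintype ι] [DecidableEq ι] (K : ℕ)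
  (Φ : Matrix ι (Fin K) ℝ) (y : ι → ℝ), Φᵀ * Φ = 1 → (∀ i, 0 < y i) →
  Pt Φ y ≤ 6 * DT Φ y + 320 * GG (Dm Φ y)

def Stmt_LCD : Prop := ∀ (ι : Type) [Fintype ι] [DecidableEq ι] (K : ℕ)
  (Φ : Matrix ι (Fin K) ℝ) (y : ι → ℝ) (m : ℝ), Φᵀ * Φ = 1 → 1 ≤ m → (∀ i, 0 < y i) →
  ∑ i ∈ Finset.univ \ Cs Φ m, Zb Φ y i ≤ 3000 * m^2 * GG (Dm Φ y) + ∑ i ∈ Cs Φ m, y i

def Stmt_LCN : Prop := ∀ (ι : Type) [Fintype ι] [DecidableEq ι] (K : ℕ)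
  (Φ : Matrix ι (Fin K) ℝ) (y : ι → ℝ) (m : ℝ), Φᵀ * Φ = 1 → 100 ≤ m → (∀ i, 0 < y i) →
  ((Finset.univ.filter (fun i => m^2 < y i)).card : ℝ) ≤
    1000 * GG (Dm Φ y) + (∑ i ∈ Cs Φ m, y i) / m^2

def Stmt_LCE : Prop := ∀ (ι : Type) [Fintype ι] [DecidableEq ι] (K : ℕ)
  (Φ : Matrix ι (Fin K) ℝ) (y : ι → ℝ) (m : ℝ), Φᵀ * Φ = 1 → 100 ≤ m → (∀ i, 0 < y i) →
  ∑ i ∈ Finset.univ.filter (fun i => m^2 < y i), |TMd Φ y i| ≤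
    1000 * Real.sqrt m * GG (Dm Φ y) + 2 / Real.sqrt m * ∑ i ∈ Cs Φ m, cn Φ i * y i

def Stmt_BLM1 : Prop := ∀ (ι : Type) [Fintype ι] [DecidableEq ι] (K : ℕ)
  (Φ : Matrix ι (Fin K) ℝ), Φᵀ * Φ = 1 →
  (∀ l, (Bl Φ l)ᵀ = Bl Φ l) ∧ ∑ l, (Bl Φ l * Bl Φ l).trace = Dfc Φ ∧
  (∀ l (z : ι → ℝ), (Bl Φ l * Dm Φ z).trace = ∑ i, z i * PM Φ l i) ∧
  (∀ y : ι → ℝ, (∀ i, 0 < y i) → ∀ i, ∑ l, Tm Φ y i l * PM Φ l i = TMd Φ y i)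

def Stmt_BLM2 : Prop := ∀ (ι : Type) [Fintype ι] [DecidableEq ι] (K : ℕ)
  (Φ : Matrix ι (Fin K) ℝ) (m : ℝ), Φᵀ * Φ = 1 → 1 ≤ m →
  ((∑ l, Bl Φ l * Bl Φ l) * (∑ l, Bl Φ l * Bl Φ l)).trace ≤
    21 / (20 * m) * Dfc Φ + ∑ i ∈ Cs Φ m, (cn Φ i)^2

def Stmt_BLM3 : Prop := ∀ (ι : Type) [Fintype ι] [DecidableEq ι] (K : ℕ)
  (Φ : Matrix ι (Fin K) ℝ) (m : ℝ), Φᵀ * Φ = 1 → 1 ≤ m →
  ∑ l, ((Bl Φ l)^4).trace ≤ 21 / (5 * m) * Dfc Φ + 16 * ∑ i ∈ Cs Φ m, (cn Φ i)^2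

def Stmt_HOL : Prop := ∀ (K : ℕ) (A D : Matrix (Fin K) (Fin K) ℝ) (e : Fin K → ℝ)
  (Q : Matrix (Fin K) (Fin K) ℝ) (Λ R : ℝ), EigD D e Q → Aᵀ = A → 0 < Λ → (∀ k, e k ≤ R) →
  0 ≤ R → (A * (D - 1)).trace ≤ (A * A).trace / (2 * Λ) + 3 * Λ * GG D + R / Λ^3 * (A^4).trace

/-- counting of small eigenvalues -/
def Stmt_TRC : Prop := ∀ (ι : Type) [Fintype ι] [DecidableEq ι] (K : ℕ)
  (Φ : Matrix ι (Fin K) ℝ) (y z : ι → ℝ) (e e' : Fin K → ℝ) (Q Q' : Matrix (Fin K) (Fin K) ℝ)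
  (c : ℝ), EigD (Dm Φ z) e Q → EigD (Dm Φ y) e' Q' →
  (Finset.univ.filter (fun k => e k < c)).card ≤
    (Finset.univ.filter (fun k => e' k < c)).card + (Finset.univ.filter (fun i => z i ≠ y i)).card

def Stmt_TRS : Prop := ∀ (K s : ℕ) (e e' : Fin K → ℝ), (∀ k, 0 < e k) → (∀ k, 0 < e' k) →
  (∀ c : ℝ, (Finset.univ.filter (fun k => e k < c)).card ≤
    (Finset.univ.filter (fun k => e' k < c)).card + s) →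
  ∑ k, hm (e k) ≤ ∑ k, hm (e' k) + s / 2

/-- lowering some of the weights -/
def Stmt_TRU : Prop := ∀ (ι : Type) [Fintype ι] [DecidableEq ι] (K : ℕ)
  (Φ : Matrix ι (Fin K) ℝ) (y z : ι → ℝ), Φᵀ * Φ = 1 → (∀ i, 0 < z i ∧ z i ≤ y i) →
  GG (Dm Φ z) ≤ GG (Dm Φ y) + ((Finset.univ.filter (fun i => z i ≠ y i)).card : ℝ) / 2

/-- pairs touching a set -/
def Stmt_DWT : Prop := ∀ (ι : Type) [Fintype ι] [DecidableEq ι] (K : ℕ)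
  (Φ : Matrix ι (Fin K) ℝ) (m : ℝ) (E : Finset ι), Φᵀ * Φ = 1 → 1 ≤ m →
  ∑ i ∈ E, ∑ j, (pp Φ i j)^2 * ds Φ i j ≤ 5 * (E.card : ℝ) / m^2 + 5 * Nc Φ m

/-! ## C. Probability -/

def Stmt_PRB : Prop :=
  (∀ᵐ x ∂e1, 0 < x) ∧
  (∀ (ι : Type) [Fintype ι], ∀ᵐ w ∂Pw ι, w ∈ Orth ι) ∧
  (∀ n : ℕ, Integrable (fun x : ℝ => x^n) e1) ∧ Integrable (fun x : ℝ => Real.log x) e1 ∧
  ∫ x, x ∂e1 = 1 ∧ ∫ x, (x - 1) ∂e1 = 0 ∧ ∫ x, (x - 1)^2 ∂e1 = 1 ∧ ∫ x, (x - 1)^3 ∂e1 = 2 ∧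
  ∫ x, (x - 1)^4 ∂e1 = 9 ∧ e1.real (Set.Iio (1/10)) ≤ 1/10 ∧
  ∫ x, max 1 x ∂e1 ≤ 1368/1000

/-- resampling one coordinate -/
def Stmt_RES : Prop := ∀ (ι : Type) [Fintype ι] [DecidableEq ι] (l : ι),
  (∀ f : (ι → ℝ) → ENNReal, Measurable f →
    ∫⁻ w, f w ∂Pw ι = ∫⁻ w, (∫⁻ t, f (Function.update w l t) ∂e1) ∂Pw ι) ∧
  (∀ f : (ι → ℝ) → ℝ, Measurable f → Integrable f (Pw ι) →
    ∫ w, f w ∂Pw ι = ∫ w, (∫ t, f (Function.update w l t) ∂e1) ∂Pw ι) ∧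
  (∀ (f : (ι → ℝ) → ℝ) (h : ℝ → ℝ), Measurable f → Measurable h → Integrable f (Pw ι) →
    Integrable h e1 → (∀ w t, f (Function.update w l t) = f w) →
    Integrable (fun w => f w * h (w l)) (Pw ι) ∧
    ∫ w, f w * h (w l) ∂Pw ι = (∫ w, f w ∂Pw ι) * ∫ t, h t ∂e1)

def Stmt_UPE : Prop := ∀ (ι : Type) [Fintype ι] [DecidableEq ι] (i : ι) (H : (ι → ℝ) → ENNReal),
  Measurable H → ∃ ω : ℝ, 1 ≤ ω ∧ ω ≤ 2 ∧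
    ∫⁻ w, H (Function.update w i ω) ∂Pw ι ≤ 5 * ∫⁻ w, H w ∂Pw ι

/-- Poincaré inequality, one variable -/
def Stmt_POI1 : Prop := ∀ f f' : ℝ → ℝ, Measurable f → Measurable f' →
  (∃ C, ∀ x, 0 < x → |f x| ≤ C ∧ |x * f' x| ≤ C) → (∀ x, 0 < x → HasDerivAt f (f' x) x) →
  ∫ x, (f x - f (1/2))^2 ∂e1 ≤ 4 * ∫ x, (x * f' x)^2 ∂e1

/-- Efron-Stein -/
def Stmt_EFS : Prop := ∀ (ι : Type) [Fintype ι] [DecidableEq ι] (f : (ι → ℝ) → ℝ)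
  (h : ι → (ι → ℝ) → ℝ), Measurable f → (∀ l, Measurable (h l)) →
  (∃ C, ∀ w, |f w| ≤ C ∧ ∀ l, |h l w| ≤ C) → (∀ l w t, h l (Function.update w l t) = h l w) →
  ∫ w, (f w)^2 ∂Pw ι - (∫ w, f w ∂Pw ι)^2 ≤ ∑ l, ∫ w, (f w - h l w)^2 ∂Pw ι

/-- Poincaré inequality -/
def Stmt_POI : Prop := ∀ (ι : Type) [Fintype ι] [DecidableEq ι] (f : (ι → ℝ) → ℝ)
  (f' : ι → (ι → ℝ) → ℝ), Measurable f → (∀ l, Measurable (f' l)) →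
  (∃ C, ∀ w, |f w| ≤ C ∧ ∀ l, |w l * f' l w| ≤ C) →
  (∀ w ∈ Orth ι, ∀ l, HasDerivAt (fun t => f (Function.update w l t)) (f' l w) (w l)) →
  ∫ w, (f w)^2 ∂Pw ι - (∫ w, f w ∂Pw ι)^2 ≤ 4 * ∑ l, ∫ w, (w l * f' l w)^2 ∂Pw ι

/-- integration by parts -/
def Stmt_IBP : Prop := ∀ (ι : Type) [Fintype ι] [DecidableEq ι] (l : ι) (F F' : (ι → ℝ) → ℝ),
  Measurable F → Measurable F' → (∃ C, ∀ w, |F w| ≤ C ∧ |w l * F' w| ≤ C) →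
  (∀ w ∈ Orth ι, HasDerivAt (fun t => F (Function.update w l t)) (F' w) (w l)) →
  ∫ w, (w l - 1) * F w ∂Pw ι = ∫ w, w l * F' w ∂Pw ι

/-- moments -/
def Stmt_M4A : Prop := ∀ (ι : Type) [Fintype ι] [DecidableEq ι],
  (∀ l : ι, Integrable (fun w : ι → ℝ => w l - 1) (Pw ι) ∧ ∫ w, (w l - 1) ∂Pw ι = 0) ∧
  (∀ l k : ι, Integrable (fun w : ι → ℝ => (w l - 1) * (w k - 1)) (Pw ι) ∧
    ∫ w, (w l - 1) * (w k - 1) ∂Pw ι = if l = k then 1 else 0) ∧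
  (∀ a b c d : ι, Integrable (fun w : ι → ℝ => (w a - 1) * (w b - 1) * (w c - 1) * (w d - 1)) (Pw ι) ∧
    ∫ w, (w a - 1) * (w b - 1) * (w c - 1) * (w d - 1) ∂Pw ι =
      (if a = b then 1 else 0) * (if c = d then 1 else 0)
      + (if a = c then 1 else 0) * (if b = d then 1 else 0)
      + (if a = d then 1 else 0) * (if b = c then 1 else 0)
      + 6 * (if a = b ∧ b = c ∧ c = d then 1 else 0))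

/-- second and fourth moment of a random matrix -/
def Stmt_M4 : Prop := ∀ (ι : Type) [Fintype ι] [DecidableEq ι] (K : ℕ)
  (B : ι → Matrix (Fin K) (Fin K) ℝ), (∀ l, (B l)ᵀ = B l) →
  (Integrable (fun w : ι → ℝ =>
      ((∑ l, (w l - 1) • B l) * (∑ l, (w l - 1) • B l)).trace) (Pw ι) ∧
    ∫ w : ι → ℝ, ((∑ l, (w l - 1) • B l) * (∑ l, (w l - 1) • B l)).trace ∂Pw ι
      = ∑ l, (B l * B l).trace) ∧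
  (Integrable (fun w : ι → ℝ => ((∑ l, (w l - 1) • B l)^4).trace) (Pw ι) ∧
    ∫ w : ι → ℝ, ((∑ l, (w l - 1) • B l)^4).trace ∂Pw ι
      ≤ 3 * ((∑ l, B l * B l) * (∑ l, B l * B l)).trace + 9 * ∑ l, ((B l)^4).trace)

/-! ### Local control -/

/-- measurability and bounds -/
def Stmt_INT : Prop := ∀ (ι : Type) [Fintype ι] [DecidableEq ι] (K : ℕ)
  (Φ : Matrix ι (Fin K) ℝ) (y : (ι → ℝ) → ι → ℝ), Φᵀ * Φ = 1 → Cpl Φ y →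
  (∀ i l, Measurable (fun w => rho Φ (y w) i l)) ∧
  Measurable (fun w => GG (Dm Φ (y w))) ∧
  (∃ C, 0 ≤ C ∧ ∀ w, (∀ i, y w i ≤ C) ∧ 0 ≤ GG (Dm Φ (y w)) ∧ GG (Dm Φ (y w)) ≤ C ∧
    (∀ i l, |Tm Φ (y w) i l| ≤ C) ∧ (∀ i, 0 ≤ Zb Φ (y w) i ∧ Zb Φ (y w) i ≤ C)) ∧
  Integrable (fun w => GG (Dm Φ (y w))) (Pw ι) ∧ Integrable (fun w => DT Φ (y w)) (Pw ι) ∧
  Integrable (fun w => Pt Φ (y w)) (Pw ι) ∧ (∀ i, Integrable (fun w => y w i) (Pw ι)) ∧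
  (∀ i, Integrable (fun w => y w i * rho Φ (y w) i i) (Pw ι)) ∧
  (∀ i, Measurable (fun w => Zb Φ (y w) i) ∧ Integrable (fun w => Zb Φ (y w) i) (Pw ι))

/-- monotonicity in the own variable -/
def Stmt_YMO : Prop := ∀ (ι : Type) [Fintype ι] [DecidableEq ι] (K : ℕ)
  (Φ : Matrix ι (Fin K) ℝ) (y : (ι → ℝ) → ι → ℝ), Φᵀ * Φ = 1 → Cpl Φ y →
  ∀ w ∈ Orth ι, ∀ i, ∀ ω : ℝ, 0 < ω →
  y (Function.update w i ω) i * min 1 (w i / ω) ≤ y w i ∧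
  y w i ≤ y (Function.update w i ω) i * max 1 (w i / ω)

/-- Poincaré for powers of `y_i` -/
def Stmt_LCP : Prop := ∀ (ι : Type) [Fintype ι] [DecidableEq ι] (K : ℕ)
  (Φ : Matrix ι (Fin K) ℝ) (y : (ι → ℝ) → ι → ℝ), Φᵀ * Φ = 1 → Cpl Φ y →
  ∀ (i : ι) (ω θ δ : ℝ), 0 < ω → 0 < θ → θ < 1/2 → 0 < δ → δ ≤ 1 →
  ∫ w, (y (Function.update w i ω) i + δ) ^ (2 * θ) ∂Pw ι
    - (∫ w, (y (Function.update w i ω) i + δ) ^ θ ∂Pw ι)^2 ≤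
  5 * θ^2 * ∫ w, (y (Function.update w i ω) i + δ) ^ (2 * θ) ∂Pw ι
    + 4 * θ^2 * δ ^ (2 * θ - 1) * ∫ w, Zb Φ (y (Function.update w i ω)) i ∂Pw ι

/-- the chain of exponents -/
def Stmt_LCX : Prop := ∃ c₁ M₁ : ℝ, 0 < c₁ ∧ c₁ ≤ 1 ∧ 1 ≤ M₁ ∧
  ∀ (Ω : Type) [MeasurableSpace Ω] (μ : Measure Ω) [IsProbabilityMeasure μ] (a : Ω → ℝ) (m : ℝ),
  M₁ ≤ m → Measurable a → (∀ x, 0 < a x) → (∃ C, ∀ x, a x ≤ C) →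
  (∀ θ : ℝ, (θ = 7/16 ∨ θ = 7/32 ∨ θ = 7/64 ∨ θ = 7/128) →
    ∫ x, (a x + m ^ (-(1/4) : ℝ)) ^ (2 * θ) ∂μ - (∫ x, (a x + m ^ (-(1/4) : ℝ)) ^ θ ∂μ)^2 ≤
      5 * θ^2 * ∫ x, (a x + m ^ (-(1/4) : ℝ)) ^ (2 * θ) ∂μ + m ^ (-(1/2) : ℝ)) →
  7/10 ≤ ∫ x in {x | a x ≤ 21/19 * m}, a x ∂μ →
  9/10 ≤ μ.real {x | c₁ * m ^ (-(1/7) : ℝ) ≤ a x}

/-- lower bound of `y_i` with probability 4/5 -/
def Stmt_LCI : Prop := ∃ c₁ M₁ : ℝ, 0 < c₁ ∧ c₁ ≤ 1 ∧ 1 ≤ M₁ ∧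
  ∀ (ι : Type) [Fintype ι] [DecidableEq ι] (K : ℕ) (Φ : Matrix ι (Fin K) ℝ)
  (y : (ι → ℝ) → ι → ℝ) (m : ℝ), M₁ ≤ m → Φᵀ * Φ = 1 → Cpl Φ y →
  ∀ i, i ∉ Cs Φ m → ∫ w, Zb Φ (y w) i ∂Pw ι ≤ m ^ (-(3/4) : ℝ) / 5 →
  4/5 ≤ (Pw ι).real {w | c₁ * m ^ (-(1/7) : ℝ) ≤ y w i}

def Stmt_LCB : Prop := ∃ c₂ M₂ : ℝ, 0 < c₂ ∧ 1 ≤ M₂ ∧
  ∀ (ι : Type) [Fintype ι] [DecidableEq ι] (K : ℕ) (Φ : Matrix ι (Fin K) ℝ)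
  (y : (ι → ℝ) → ι → ℝ) (m : ℝ), M₂ ≤ m → Φᵀ * Φ = 1 → Cpl Φ y →
  c₂ * m ^ (-(2/7) : ℝ) * (Dfc Φ - 80000 * m ^ (3/4 : ℝ) * (EG Φ y + Nc Φ m)) ≤
    ∫ w, Pt Φ (y w) ∂Pw ι

/-- integration by parts for the test matrix -/
def Stmt_DU1 : Prop := ∀ (ι : Type) [Fintype ι] [DecidableEq ι] (K : ℕ)
  (Φ : Matrix ι (Fin K) ℝ) (y : (ι → ℝ) → ι → ℝ) (L : ℝ), Φᵀ * Φ = 1 → Cpl Φ y → 0 < L →
  Integrable (fun w => ((∑ l, (w l - 1) • Bl Φ l) * (Dm Φ (fun i => chi L (y w i)) - 1)).trace)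
    (Pw ι) ∧
  ∫ w, ((∑ l, (w l - 1) • Bl Φ l) * (Dm Φ (fun i => chi L (y w i)) - 1)).trace ∂Pw ι =
    ∫ w, ∑ i, chi' L (y w i) * TMd Φ (y w) i ∂Pw ι ∧
  ∫ w, DT Φ (y w) ∂Pw ι ≤ ∫ w, ∑ i, chi' L (y w i) * TMd Φ (y w) i ∂Pw ι +
    ∫ w, ∑ i ∈ Finset.univ.filter (fun i => L < y w i), |TMd Φ (y w) i| ∂Pw ι

def Stmt_DUA : Prop := ∀ (ι : Type) [Fintype ι] [DecidableEq ι] (K : ℕ)
  (Φ : Matrix ι (Fin K) ℝ) (y : (ι → ℝ) → ι → ℝ) (m : ℝ), 100 ≤ m → Φᵀ * Φ = 1 → Cpl Φ y →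
  ∫ w, DT Φ (y w) ∂Pw ι ≤ 90 * Dfc Φ / Real.sqrt m + 4000 * Real.sqrt m * (EG Φ y + Nc Φ m)

/-- the gain -/
def Stmt_GNL : Prop := ∃ c₃ M₃ : ℝ, 0 < c₃ ∧ 1 ≤ M₃ ∧
  ∀ (ι : Type) [Fintype ι] [DecidableEq ι] (K : ℕ) (Φ : Matrix ι (Fin K) ℝ)
  (y : (ι → ℝ) → ι → ℝ) (m : ℝ), M₃ ≤ m → Φᵀ * Φ = 1 → Cpl Φ y →
  c₃ * m ^ (-(4/5) : ℝ) * Dfc Φ ≤ EG Φ y + Nc Φ m

/-! ## D. The coupling -/

def Stmt_YEX : Prop := ∀ (d K : ℕ) (V : Matrix (Ix d K) (Fin d) ℝ)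
  (Φ : Matrix (Ix d K) (Fin K) ℝ), IsoFrame V Φ → Hex Φ

def Stmt_YBD : Prop := ∀ (d K : ℕ) (V : Matrix (Ix d K) (Fin d) ℝ)
  (Φ : Matrix (Ix d K) (Fin K) ℝ), IsoFrame V Φ → volume (Pol V) ≠ ⊤ → ∃ C, 1 ≤ C ∧ Hbd Φ C

/-- difference identity and uniqueness -/
def Stmt_YDI : Prop := ∀ (ι : Type) [Fintype ι] [DecidableEq ι] (K : ℕ)
  (Φ : Matrix ι (Fin K) ℝ), Φᵀ * Φ = 1 →
  (∀ w w' y y' : ι → ℝ, IsY Φ w y → IsY Φ w' y' → ∃ z : ι → ℝ,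
    (∀ i, min (y i) (y' i) ≤ z i ∧ z i ≤ max (y i) (y' i)) ∧
    ∀ i, y' i - y i = ∑ l, Tm Φ z i l * (Real.log (w' l) - Real.log (w l))) ∧
  (∀ w y y' : ι → ℝ, IsY Φ w y → IsY Φ w y' → y = y')

def Stmt_YCO : Prop := ∀ (ι : Type) [Fintype ι] [DecidableEq ι] (K : ℕ)
  (Φ : Matrix ι (Fin K) ℝ) (C : ℝ), Φᵀ * Φ = 1 → Hex Φ → Hbd Φ C →
  (∀ w ∈ Orth ι, IsY Φ w (Yc Φ w)) ∧ ContinuousOn (Yc Φ) (Orth ι) ∧ Measurable (Yc Φ) ∧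
  ∀ w ∈ Orth ι, ∀ i l,
    HasDerivAt (fun t => Yc Φ (Function.update w l t) i) (Tm Φ (Yc Φ w) i l / w l) (w l)

/-- the tilt with mean one -/
def Stmt_BST : Prop := ∀ (ι : Type) [Fintype ι] [DecidableEq ι] (K : ℕ)
  (Φ : Matrix ι (Fin K) ℝ) (C : ℝ), Φᵀ * Φ = 1 → Hex Φ → Hbd Φ C →
  ∃ b : ι → ℝ, ∀ i, ∫ w, Yc Φ (fun j => Real.exp (-b j) * w j) i ∂Pw ι = 1

def Stmt_CPL : Prop := ∀ (d K : ℕ) (V : Matrix (Ix d K) (Fin d) ℝ)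
  (Φ : Matrix (Ix d K) (Fin K) ℝ), IsoFrame V Φ → volume (Pol V) ≠ ⊤ →
  ∃ b : Ix d K → ℝ, Cpl Φ (fun w => Yc Φ (fun j => Real.exp (-b j) * w j))

/-- the law of `y` under the integrand -/
def Stmt_LAW : Prop := ∀ (d K : ℕ) (V : Matrix (Ix d K) (Fin d) ℝ)
  (Φ : Matrix (Ix d K) (Fin K) ℝ) (b : Ix d K → ℝ), IsoFrame V Φ →
  ∀ h : (Ix d K → ℝ) → ENNReal, Measurable h →
  ∫⁻ x in Pol V, Ing V Φ b x * h (yv V x) =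
    ∫⁻ w, h (Yc Φ (fun j => Real.exp (-b j) * w j)) ∂Pw (Ix d K)

def Stmt_SPECH : Prop := ∀ (ι : Type) [Fintype ι] [DecidableEq ι] (K : ℕ)
  (Φ : Matrix ι (Fin K) ℝ) (y A α : ι → ℝ) (e : Fin K → ℝ) (Q : Matrix (Fin K) (Fin K) ℝ),
  (∀ i, 0 < y i) → EigD (Dm Φ y) e Q →
  (∀ i, cn Φ i = 0 → 0 ≤ A i) →
  (∀ i, 0 < cn Φ i → ∀ t : ℝ, 0 < t →
    Real.log t / 2 + mu (t / cn Φ i) + hub (t - 1) / 400 ≤ α i + A i / cn Φ i * t) →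
  Real.log (Dm Φ y).det / 2 + ∑ i, y i * g (qf Φ (Dm Φ y)⁻¹ i) + (∑ k, hub (e k - 1)) / 400 ≤
    ∑ i, α i * (y i * qf Φ (Dm Φ y)⁻¹ i) + ∑ i, A i * y i

def Stmt_PTW : Prop := ∀ (d K : ℕ) (V : Matrix (Ix d K) (Fin d) ℝ)
  (Φ : Matrix (Ix d K) (Fin K) ℝ) (b α A : Ix d K → ℝ), IsoFrame V Φ →
  (∀ i, cn Φ i = 0 → 0 ≤ A i) →
  (∀ i, 0 < cn Φ i → ∀ t : ℝ, 0 < t →
    Real.log t / 2 + mu (t / cn Φ i) + hub (t - 1) / 400 ≤ α i + A i / cn Φ i * t) →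
  ∀ x ∈ Pol V, Ing V Φ b x ≤ ENNReal.ofReal (Real.exp (Cx Φ b α A (yv V x)))

/-- the main lower bound -/
def Stmt_MAL : Prop := ∀ (d K : ℕ) (V : Matrix (Ix d K) (Fin d) ℝ)
  (Φ : Matrix (Ix d K) (Fin K) ℝ), IsoFrame V Φ → volume (Pol V) ≠ ⊤ →
  ∃ y : (Ix d K → ℝ) → Ix d K → ℝ, Cpl Φ y ∧
  ∀ α A : Ix d K → ℝ, (∀ i, cn Φ i = 0 → 0 ≤ A i) →
  (∀ i, 0 < cn Φ i → ∀ t : ℝ, 0 < t →
    Real.log t / 2 + mu (t / cn Φ i) + hub (t - 1) / 400 ≤ α i + A i / cn Φ i * t) →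
  ENNReal.ofReal (Real.exp (((d:ℝ) + K) - (K:ℝ) / 2 * Real.log (2 * Real.pi)
    - ∑ i, α i * ∫ w, y w i * rho Φ (y w) i i ∂Pw (Ix d K) - ∑ i, A i + EG Φ y / 400))
    ≤ volume (Pol V)

/-! ## E. Clusters and assembly -/

/-- dichotomy for good rows -/
def Stmt_CL1 : Prop := ∀ (ι : Type) [Fintype ι] [DecidableEq ι] (K : ℕ)
  (Φ : Matrix ι (Fin K) ℝ) (m : ℝ), Φᵀ * Φ = 1 → 100 ≤ m →
  ∀ i k, Gr Φ m i → Gr Φ m k → m * ds Φ i k < 1/25 ∨ |m * pp Φ i k| ≤ 1/4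

/-- size, scatter, outer sum of a class of good rows -/
def Stmt_CL2 : Prop := ∀ (ι : Type) [Fintype ι] [DecidableEq ι] (K : ℕ)
  (Φ : Matrix ι (Fin K) ℝ) (m : ℝ) (B : Finset ι), Φᵀ * Φ = 1 → 100 ≤ m → B.Nonempty →
  (∀ i ∈ B, Gr Φ m i) → (∀ i ∈ B, ∀ j, j ∈ B ↔ (Gr Φ m j ∧ m * ds Φ i j < 1/25)) →
  (B.card : ℝ) ≤ 11/10 * m ∧ (∀ i ∈ B, ∀ j ∈ B, 9/10 ≤ m * pp Φ i j) ∧
  ((∀ i ∈ B, ∀ j, m * ds Φ i j ≤ 1/400 → j ∈ B) →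
    |(B.card : ℝ) - m| ≤ m / 20 ∧
    (∑ i ∈ B, ∑ k, (Φ i k - (∑ j ∈ B, Φ j k) / (B.card : ℝ))^2) ≤ 5/4 * m * ∑ i ∈ B, Dr Φ i ∧
    (∑ i ∈ B, ∑ j ∈ Finset.univ \ B, (pp Φ i j)^2) ≤ 800 * m * ∑ i ∈ B, Dr Φ i)

def Stmt_CLS : Prop := ∀ (ι : Type) [Fintype ι] [DecidableEq ι] (K : ℕ)
  (Φ : Matrix ι (Fin K) ℝ) (m : ℝ), Φᵀ * Φ = 1 → 100 ≤ m →
  ∃ (L : ℕ) (a : ι → Option (Fin L)), Clu Φ m a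

/-- consequences -/
def Stmt_CLC : Prop := ∀ (ι : Type) [Fintype ι] [DecidableEq ι] (K L : ℕ)
  (Φ : Matrix ι (Fin K) ℝ) (m : ℝ) (a : ι → Option (Fin L)), Φᵀ * Φ = 1 → 100 ≤ m → Clu Φ m a →
  (∀ b, |Cb Φ a b - 1| ≤ sc Φ a b + 2 * ou Φ a b) ∧
  (∀ b, 1/2 ≤ (mz a b : ℝ) * ∑ k, (vb Φ a b k)^2) ∧
  (∀ b, (mz a b : ℝ) * ∑ i, (if a i = some b then 0 else (∑ k, Φ i k * vb Φ a b k)^2)
    ≤ ou Φ a b) ∧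
  (∑ b, Db Φ a b ≤ Dfc Φ) ∧ (∀ b, 0 ≤ Db Φ a b ∧ 0 ≤ sc Φ a b ∧ 0 ≤ ou Φ a b)

def Stmt_RBE : Prop := ∀ (ι : Type) [Fintype ι] [DecidableEq ι] (K L : ℕ)
  (Φ : Matrix ι (Fin K) ℝ) (y : ι → ℝ) (a : ι → Option (Fin L)) (β : Fin L → ℝ) (B : ℝ),
  Φᵀ * Φ = 1 → (∀ i, 0 < y i) → (∀ b, 0 < mz a b) →
  (∀ b, 1/2 ≤ (mz a b : ℝ) * ∑ k, (vb Φ a b k)^2) → (∀ b, |β b| ≤ B) → 0 ≤ B →
  ∑ b, |β b| * |∑ i ∈ fb a b, y i * rho Φ y i i - 1| ≤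
    ∑ b, |β b| * (4 * ∑ i ∈ fb a b, y i * ∑ k, (Φ i k - vb Φ a b k)^2
      + 4 * (mz a b : ℝ) * ∑ i, (if a i = some b then 0 else y i * (∑ k, Φ i k * vb Φ a b k)^2))
    + 24 * B * GG (Dm Φ y)

/-- the same in expectation -/
def Stmt_FN2 : Prop := ∀ (ι : Type) [Fintype ι] [DecidableEq ι] (K L : ℕ)
  (Φ : Matrix ι (Fin K) ℝ) (y : (ι → ℝ) → ι → ℝ) (m : ℝ) (a : ι → Option (Fin L))
  (β : Fin L → ℝ) (B : ℝ), Φᵀ * Φ = 1 → 100 ≤ m → Cpl Φ y → Clu Φ m a → (∀ b, |β b| ≤ B) →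
  0 ≤ B →
  |∑ b, β b * (1 - ∑ i ∈ fb a b, ∫ w, y w i * rho Φ (y w) i i ∂Pw ι)| ≤
    3205 * m * ∑ b, |β b| * Db Φ a b + 24 * B * EG Φ y

/-- the identity -/
def Stmt_TOT : Prop := ∀ (ι : Type) [Fintype ι] [DecidableEq ι] (L : ℕ) (a : ι → Option (Fin L))
  (K ms ps l0 : ℝ) (pb : Fin L → ℝ) (c R : ι → ℝ), (∀ b, 2 ≤ mz a b) → 2 ≤ ms →
  ∑ i, c i = K → ∑ i, R i = K → Real.log (1 - 1/ms) / 2 + 1 / (2 * ms) + 1 - ps = l0 →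
  (Fintype.card ι : ℝ) - K / 2 * Real.log (2 * Real.pi)
    - ∑ i, al (rf a ms i) (pf a ps pb i) * R i - ∑ i, (c i / 2 + pf a ps pb i)
    + (∑ i, ((1 - 1/rf a ms i) * Real.log (1 - 1/rf a ms i)
        - (1 + Real.log (1 - 1/rf a ms i)) * (c i - 1/rf a ms i))) / 2
  = ∑ b, Fs (mz a b) + (K - L) * (Fs ms - ms * l0) + l0 * ((rs a).card : ℝ)
    + ∑ b, (al (mz a b) (pb b) - al ms ps) * (1 - ∑ i ∈ fb a b, R i)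
    - (∑ b, (Real.log (1 - 1/(mz a b : ℝ)) - Real.log (1 - 1/ms)) *
        (∑ i ∈ fb a b, c i - 1)) / 2

/-- the bound before the estimates -/
def Stmt_FN1 : Prop := ∀ (d K : ℕ) (U : Matrix (Ix d K) (Fin d) ℝ)
  (Φ : Matrix (Ix d K) (Fin K) ℝ), 1 ≤ K → UnitRows U → IsFrame U Φ → volume (Pol U) ≠ ⊤ →
  Φᵀ * Φ = 1 ∧ ∃ y : (Ix d K → ℝ) → Ix d K → ℝ, Cpl Φ y ∧
  ∀ (L : ℕ) (a : Ix d K → Option (Fin L)) (ms ps l0 : ℝ) (pb : Fin L → ℝ),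
  (∀ b, 2 ≤ mz a b) → 2 ≤ ms → Tang ms ps → (∀ b, Tang (mz a b) (pb b)) →
  Real.log (1 - 1/ms) / 2 + 1 / (2 * ms) + 1 - ps = l0 →
  ENNReal.ofReal (Real.exp (∑ b, Fs (mz a b) + (K - L) * (Fs ms - ms * l0)
    + l0 * ((rs a).card : ℝ)
    + ∑ b, (al (mz a b) (pb b) - al ms ps) *
        (1 - ∑ i ∈ fb a b, ∫ w, y w i * rho Φ (y w) i i ∂Pw (Ix d K))
    - (∑ b, (Real.log (1 - 1/(mz a b : ℝ)) - Real.log (1 - 1/ms)) * (Cb Φ a b - 1)) / 2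
    + Ccc Φ a ms / 20 + EG Φ y / 400
    + (-Real.log (Uᵀ * U).det - ∑ i, (1 - cn Φ i) * Real.log (1 - cn Φ i)) / 2))
    ≤ volume (Pol U)

/-- absorption of the cross terms -/
def Stmt_AMG : Prop := ∀ (m ms Dv : ℝ) (q j : ℕ), 100 ≤ m → 10 ≤ q → (q:ℝ) + 1 ≤ m →
  m ≤ (q:ℝ) + 2 → (q:ℝ) + 1 ≤ ms → ms ≤ (q:ℝ) + 2 → |(j:ℝ) - m| ≤ m / 20 → 0 ≤ Dv →
  m^2 * Dv ≤ 1 →
  (∀ j : ℕ, (q:ℝ) / 2 ≤ j → (j:ℝ) ≤ 2 * q → ch q j ≤ Fs j ∧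
    ((j:ℝ) ≠ q + 1 → (j:ℝ) ≠ q + 2 → ch q j + ((j:ℝ) - ms)^2 / (200 * (q:ℝ)^3) ≤ Fs j)) →
  1682 * |(j:ℝ) - ms| * Dv / m ≤ (Fs j - ch q j) / 2 + 3 * 10^8 * Dv / m

/-- the number of classes and the exceptional rows -/
def Stmt_KLE : Prop := ∀ (ι : Type) [Fintype ι] [DecidableEq ι] (K L : ℕ)
  (Φ : Matrix ι (Fin K) ℝ) (m ms : ℝ) (a : ι → Option (Fin L)), Φᵀ * Φ = 1 → 1000 ≤ m →
  |ms - m| ≤ 1 → Clu Φ m a →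
  ((K:ℝ) - L) ≤ 4 * 10^5 * m^2 * Dfc Φ + 5 * N1 Φ m ∧
  (N1 Φ m : ℝ) ≤ 40000 * m^2 * Ccc Φ a ms ∧
  Nc Φ m ≤ 2000 * Ccc Φ a ms

/-- the final bound -/
def Stmt_FN3 : Prop := ∃ M₀ : ℕ, 10000 ≤ M₀ ∧ ∀ (d K : ℕ) (U : Matrix (Ix d K) (Fin d) ℝ)
  (Φ : Matrix (Ix d K) (Fin K) ℝ), 1 ≤ K → M₀ * K ≤ d → UnitRows U → IsFrame U Φ →
  volume (Pol U) ≠ ⊤ →
  ∃ (L : ℕ) (a : Ix d K → Option (Fin L)) (ms : ℝ), Clu Φ (((d:ℝ) + K) / K) a ∧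
    ((d / K : ℕ):ℝ) + 1 ≤ ms ∧ ms ≤ ((d / K : ℕ):ℝ) + 2 ∧
    (∀ b, ch (d / K) (mz a b) ≤ Fs (mz a b)) ∧
    (∀ b, mz a b ≠ d / K + 1 → mz a b ≠ d / K + 2 → ch (d / K) (mz a b) < Fs (mz a b)) ∧
    ENNReal.ofReal (Real.exp (Real.log (Vne d K)
      + (∑ b, (Fs (mz a b) - ch (d / K) (mz a b))) / 2 + Ccc Φ a ms / 100
      + Dfc Φ / (((d:ℝ) + K) / K)
      + (-Real.log (Uᵀ * U).det - ∑ i, (1 - cn Φ i) * Real.log (1 - cn Φ i)) / 2))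
      ≤ volume (Pol U)

/-- lower bound and equality -/
def Stmt_LOWL : Prop := ∃ M₀ : ℕ, 10000 ≤ M₀ ∧ ∀ (d K : ℕ) (U : Matrix (Ix d K) (Fin d) ℝ),
  1 ≤ K → M₀ * K ≤ d → UnitRows U → ENNReal.ofReal (Vne d K) ≤ volume (Pol U) ∧
  (volume (Pol U) = ENNReal.ofReal (Vne d K) → PatG U)

/-- the final theorem -/
def Stmt_TOPL : Prop := ∃ M₀ : ℕ, ∀ (d K : ℕ), 1 ≤ K → M₀ * K ≤ d →
  (∀ u : Fin (d + K) → EuclideanSpace ℝ (Fin d), (∀ i, ‖u i‖ = 1) →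
    ENNReal.ofReal (Vne d K) ≤ volume (Pool.Agent.Work.MP_1c7b0d_gt.circ u) ∧
    (volume (Pool.Agent.Work.MP_1c7b0d_gt.circ u) = ENNReal.ofReal (Vne d K) ↔
      ∃ p : Fin (d + K) → Fin K,
        (∀ b, msz p b = d / K + 1 ∨ msz p b = d / K + 2) ∧
        (∀ i j, i ≠ j → p i = p j → inner ℝ (u i) (u j) = -1 / ((msz p (p i) : ℝ) - 1)) ∧
        (∀ i j, p i ≠ p j → inner ℝ (u i) (u j) = 0))) ∧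
  (∃ u : Fin (d + K) → EuclideanSpace ℝ (Fin d), (∀ i, ‖u i‖ = 1) ∧
      volume (Pool.Agent.Work.MP_1c7b0d_gt.circ u) = ENNReal.ofReal (Vne d K)) ∧
  (∀ u u' : Fin (d + K) → EuclideanSpace ℝ (Fin d), (∀ i, ‖u i‖ = 1) → (∀ i, ‖u' i‖ = 1) →
    volume (Pool.Agent.Work.MP_1c7b0d_gt.circ u) = ENNReal.ofReal (Vne d K) →
    volume (Pool.Agent.Work.MP_1c7b0d_gt.circ u') = ENNReal.ofReal (Vne d K) →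
    ∃ φ : EuclideanSpace ℝ (Fin d) ≃ₗᵢ[ℝ] EuclideanSpace ℝ (Fin d),
      φ '' Pool.Agent.Work.MP_1c7b0d_gt.circ u = Pool.Agent.Work.MP_1c7b0d_gt.circ u')

end Pool.LIN
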