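import Pool.Agent.Work.MP_1c7b0d_lin.Interface

/-! Block LCD of the L'huilier project (row MP_1c7b0d_gt), helper64. -/

open MeasureTheory Matrix Pool.LH60 Pool.LH73
open scoped BigOperators

namespace Pool.LIN

namespace LCD

variable {ι : Type} [Fintype ι] [DecidableEq ι] {K : ℕ}

theorem pp_self (Φ : Matrix ι (Fin K) ℝ) (i : ι) : pp Φ i i = cn Φ i := by
  unfold pp cn
  exact Finset.sum_congr rfl fun k _ => by rw [sq]

/-- `c_i y_i ≤ e_i*` -/
theorem cy_le_es (Φ : Matrix ι (Fin K) ℝ) (y : ι → ℝ) (hy : ∀ i, 0 < y i) (i : ι)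
    (hc : 0 < cn Φ i) : cn Φ i * y i ≤ es Φ y i := by
  unfold es
  rw [le_div_iff₀ hc]
  have h1 : (pp Φ i i)^2 * y i ≤ ∑ j, (pp Φ i j)^2 * y j :=
    Finset.single_le_sum (f := fun j => (pp Φ i j)^2 * y j)
      (fun j _ => mul_nonneg (sq_nonneg _) (hy j).le) (Finset.mem_univ i)
  rw [pp_self] at h1
  calc cn Φ i * y i * cn Φ i = (cn Φ i)^2 * y i := by ring
    _ ≤ _ := h1

theorem not_cs (Φ : Matrix ι (Fin K) ℝ) (m : ℝ) (hm : 0 < m) (i : ι) (hi : i ∉ Cs Φ m) :
    19 / 20 ≤ m * cn Φ i ∧ m * cn Φ i ≤ 21 / 20 ∧ 0 < cn Φ i := by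
  unfold Cs at hi
  simp only [Finset.mem_filter, Finset.mem_univ, true_and, not_lt] at hi
  rw [abs_le] at hi
  have h1 : 19 / 20 ≤ m * cn Φ i := by linarith [hi.1]
  refine ⟨h1, by linarith [hi.2], ?_⟩
  by_contra h
  push Not at h
  nlinarith

theorem sum_P_sq (Φ : Matrix ι (Fin K) ℝ) (Q : Matrix (Fin K) (Fin K) ℝ) (hQ : Q * Qᵀ = 1)
    (i : ι) : ∑ k, ((Φ * Q) i k)^2 = cn Φ i := by
  have h1 : ∑ k, ((Φ * Q) i k)^2 = ((Φ * Q) * (Φ * Q)ᵀ) i i := by
    rw [Matrix.mul_apply]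
    exact Finset.sum_congr rfl fun k _ => by rw [Matrix.transpose_apply, sq]
  have h2 : (Φ * Q) * (Φ * Q)ᵀ = Φ * Φᵀ := by
    rw [Matrix.transpose_mul, Matrix.mul_assoc, ← Matrix.mul_assoc Q, hQ, Matrix.one_mul]
  rw [h1, h2, Matrix.mul_apply]
  unfold cn
  exact Finset.sum_congr rfl fun k _ => by rw [Matrix.transpose_apply, sq]

theorem rho_eq (Φ : Matrix ι (Fin K) ℝ) (y : ι → ℝ) (e : Fin K → ℝ)
    (Q : Matrix (Fin K) (Fin K) ℝ) (h : EigD (Dm Φ y) e Q) (i : ι) :
    rho Φ y i i = ∑ k, ((Φ * Q) i k)^2 * (e k)⁻¹ := by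
  have hQ : Q * Qᵀ = 1 := mul_eq_one_comm.mp h.orth
  have hinv : (Dm Φ y)⁻¹ = Q * Matrix.diagonal (fun k => (e k)⁻¹) * Qᵀ := by
    apply Matrix.inv_eq_right_inv
    rw [h.eq]
    have h1 : Matrix.diagonal e * Matrix.diagonal (fun k => (e k)⁻¹) = 1 := by
      rw [Matrix.diagonal_mul_diagonal, ← Matrix.diagonal_one]
      congr 1
      funext k
      exact mul_inv_cancel₀ (h.pos k).ne'
    calc Q * Matrix.diagonal e * Qᵀ * (Q * Matrix.diagonal (fun k => (e k)⁻¹) * Qᵀ)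
        = Q * Matrix.diagonal e * (Qᵀ * Q) * Matrix.diagonal (fun k => (e k)⁻¹) * Qᵀ := by
          simp only [Matrix.mul_assoc]
      _ = Q * (Matrix.diagonal e * Matrix.diagonal (fun k => (e k)⁻¹)) * Qᵀ := by
          rw [h.orth, Matrix.mul_one, Matrix.mul_assoc Q]
      _ = 1 := by rw [h1, Matrix.mul_one, hQ]
  have h2 : rho Φ y = (Φ * Q) * Matrix.diagonal (fun k => (e k)⁻¹) * (Φ * Q)ᵀ := by
    unfold rho
    rw [hinv, Matrix.transpose_mul]
    simp only [Matrix.mul_assoc]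
  rw [h2, Matrix.mul_apply]
  refine Finset.sum_congr rfl fun k _ => ?_
  rw [Matrix.mul_diagonal, Matrix.transpose_apply]
  ring

theorem sum_y_P_sq (Φ : Matrix ι (Fin K) ℝ) (y : ι → ℝ) (e : Fin K → ℝ)
    (Q : Matrix (Fin K) (Fin K) ℝ) (h : EigD (Dm Φ y) e Q) (k : Fin K) :
    ∑ i, y i * ((Φ * Q) i k)^2 = e k := by
  have h1 : ∑ i, y i * ((Φ * Q) i k)^2 = ((Φ * Q)ᵀ * Matrix.diagonal y * (Φ * Q)) k k := by
    rw [Matrix.mul_apply]
    refine Finset.sum_congr rfl fun i _ => ?_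
    rw [Matrix.mul_diagonal, Matrix.transpose_apply]
    ring
  have h2 : (Φ * Q)ᵀ * Matrix.diagonal y * (Φ * Q) = Matrix.diagonal e := by
    calc (Φ * Q)ᵀ * Matrix.diagonal y * (Φ * Q) = Qᵀ * (Dm Φ y) * Q := by
          unfold Dm
          rw [Matrix.transpose_mul]
          simp only [Matrix.mul_assoc]
      _ = (Qᵀ * Q) * Matrix.diagonal e * (Qᵀ * Q) := by
          rw [h.eq]
          simp only [Matrix.mul_assoc]
      _ = Matrix.diagonal e := by rw [h.orth, Matrix.one_mul, Matrix.mul_one]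
  rw [h1, h2, Matrix.diagonal_apply_eq]

/-- `(1 - 1.077 e)^+ ≤ 8 hub (e - 1)` in the form used -/
theorem scal1 (hHUB : Stmt_HUB) (e : ℝ) (he : 0 < e) :
    e * max (e⁻¹ - 1077/1000) 0 ≤ 8 * hub (e - 1) := by
  obtain ⟨hub0, -, -, -, hubq, -, -, -, -, -⟩ := hHUB
  rcases le_or_gt (e⁻¹ - 1077/1000) 0 with h | h
  · rw [max_eq_right h, mul_zero]
    have := hub0 (e - 1)
    linarith
  · rw [max_eq_left h.le]
    have h1 : e * (e⁻¹ - 1077/1000) = 1 - 1077/1000 * e := by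
      rw [mul_sub, mul_inv_cancel₀ he.ne']
      ring
    rw [h1]
    have h2 : 0 < 1 - 1077/1000 * e := by rw [← h1]; exact mul_pos he h
    have h3 : |e - 1| ≤ 1 := by
      rw [abs_le]
      constructor <;> linarith
    rw [hubq _ h3]
    nlinarith [sq_nonneg (e - 1 + 1077/8000)]

/-- `hub (e - 1) ≥ e / 840` for `e > 21/20` -/
theorem scal2 (hHUB : Stmt_HUB) (e : ℝ) (he : 21/20 < e) : e ≤ 840 * hub (e - 1) := by
  obtain ⟨hub0, -, -, -, hubq, -, hubL, -, -, -⟩ := hHUB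
  rcases le_or_gt e 2 with h | h
  · have h3 : |e - 1| ≤ 1 := by
      rw [abs_le]
      constructor <;> linarith
    rw [hubq _ h3]
    nlinarith
  · have h1 := hubL (e - 1)
    have h2 := le_abs_self (e - 1)
    linarith

end LCD

theorem LCD_thm (hPEF : Stmt_PEF) (hTFA : Stmt_TFA) (hEIGX : Stmt_EIGX) (hPDG : Stmt_PDG)
    (hGGE : Stmt_GGE) (hHUB : Stmt_HUB) : Stmt_LCD := by
  intro ι _ _ K Φ y m hΦ hm hy
  have hub0 : ∀ t, 0 ≤ hub t := hHUB.1
  have hm0 : (0:ℝ) < m := by linarith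
  have hcn : ∀ i, 0 ≤ cn Φ i := fun i => Finset.sum_nonneg fun k _ => sq_nonneg _
  obtain ⟨e, Q, hE⟩ := hEIGX K (Dm Φ y) (hPDG ι K Φ y hΦ hy)
  have hQ : Q * Qᵀ = 1 := mul_eq_one_comm.mp hE.orth
  have hG : GG (Dm Φ y) = ∑ k, hub (e k - 1) := hGGE K (Dm Φ y) e Q hE
  have hG0 : 0 ≤ GG (Dm Φ y) := by rw [hG]; exact Finset.sum_nonneg fun k _ => hub0 _
  obtain ⟨hρs, -, -, -, hρ1, hρ2, -, -, -⟩ := hTFA ι K Φ y hΦ hy
  have hPEF' := hPEF ι K Φ y hΦ hy
  set G := GG (Dm Φ y) with hGdef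
  -- (a)
  have ha : ∀ l, l ∉ Cs Φ m → 21/20 < es Φ y l →
      y l ≤ 931 * m^2 * (cn Φ l * hub (es Φ y l - 1)) := by
    intro l hl he
    obtain ⟨c1, c2, c3⟩ := LCD.not_cs Φ m hm0 l hl
    have h1 := LCD.cy_le_es Φ y hy l c3
    have h2 := LCD.scal2 hHUB _ he
    have h3 := hub0 (es Φ y l - 1)
    set H := hub (es Φ y l - 1) with hH
    set c := cn Φ l with hc
    -- c y ≤ 840 H, and 1 ≤ (20/19)^2 m^2 c^2
    have h4 : c * y l ≤ 840 * H := h1.trans h2
    have h5 : (1:ℝ) ≤ (400/361) * (m * c)^2 := by nlinarith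
    have h6 : c * y l ≤ c * (931 * m^2 * (c * H)) := by
      calc c * y l ≤ 840 * H := h4
        _ ≤ 840 * H * ((400/361) * (m * c)^2) := le_mul_of_one_le_right (by positivity) h5
        _ ≤ 931 * (m * c)^2 * H := by
            have : 0 ≤ (m * c)^2 * H := by positivity
            nlinarith
        _ = c * (931 * m^2 * (c * H)) := by ring
    exact le_of_mul_le_mul_left h6 c3
  have haS : ∑ l ∈ Finset.univ \ Cs Φ m, (if 21/20 < es Φ y l then y l else 0)
      ≤ 931 * m^2 * G := by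
    calc ∑ l ∈ Finset.univ \ Cs Φ m, (if 21/20 < es Φ y l then y l else 0)
        ≤ ∑ l ∈ Finset.univ \ Cs Φ m, 931 * m^2 * (cn Φ l * hub (es Φ y l - 1)) := by
          refine Finset.sum_le_sum fun l hl => ?_
          have hl' : l ∉ Cs Φ m := (Finset.mem_sdiff.mp hl).2
          split_ifs with h
          · exact ha l hl' h
          · have := hub0 (es Φ y l - 1)
            have := hcn l
            positivity
      _ ≤ ∑ l, 931 * m^2 * (cn Φ l * hub (es Φ y l - 1)) :=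
          Finset.sum_le_sum_of_subset_of_nonneg (Finset.subset_univ _) fun l _ _ => by
            have := hub0 (es Φ y l - 1)
            have := hcn l
            positivity
      _ = 931 * m^2 * ∑ l, cn Φ l * hub (es Φ y l - 1) := by rw [Finset.mul_sum]
      _ ≤ 931 * m^2 * G := mul_le_mul_of_nonneg_left hPEF' (by positivity)
  -- (b): the set of the large rows
  set B : Finset ι := Finset.univ.filter (fun l => 21/19 * m < y l) with hB
  have hBsum : ∑ l ∈ B, y l ≤ 931 * m^2 * G + ∑ i ∈ Cs Φ m, y i := by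
    calc ∑ l ∈ B, y l
        ≤ ∑ l ∈ B, ((if l ∈ Cs Φ m then 0 else (if 21/20 < es Φ y l then y l else 0)) +
            (if l ∈ Cs Φ m then y l else 0)) := by
          refine Finset.sum_le_sum fun l hl => ?_
          by_cases hC : l ∈ Cs Φ m
          · simp [hC]
          · rw [if_neg hC, if_neg hC, add_zero]
            have hlB : 21/19 * m < y l := by
              rw [hB] at hl
              exact (Finset.mem_filter.mp hl).2
            obtain ⟨c1, c2, c3⟩ := LCD.not_cs Φ m hm0 l hC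
            have h1 := LCD.cy_le_es Φ y hy l c3
            have h2 : 21/20 < es Φ y l := by
              have h3 : cn Φ l * (21/19 * m) < cn Φ l * y l := mul_lt_mul_of_pos_left hlB c3
              nlinarith
            rw [if_pos h2]
      _ ≤ ∑ l, ((if l ∈ Cs Φ m then 0 else (if 21/20 < es Φ y l then y l else 0)) +
            (if l ∈ Cs Φ m then y l else 0)) := by
          refine Finset.sum_le_sum_of_subset_of_nonneg (Finset.subset_univ _) fun l _ _ => ?_
          have := (hy l).le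
          apply add_nonneg
          · split_ifs <;> first | exact le_rfl | exact this
          · split_ifs <;> first | exact le_rfl | exact this
      _ = ∑ l ∈ Finset.univ \ Cs Φ m, (if 21/20 < es Φ y l then y l else 0)
            + ∑ l ∈ Cs Φ m, y l := by
          rw [Finset.sum_add_distrib]
          congr 1
          · rw [← Finset.sum_sdiff (Finset.subset_univ (Cs Φ m))]
            rw [Finset.sum_congr (g := fun _ => (0:ℝ)) (rfl : Cs Φ m = Cs Φ m)
              (fun l hl => if_pos hl), Finset.sum_const_zero, add_zero]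
            exact Finset.sum_congr rfl fun l hl => if_neg (Finset.mem_sdiff.mp hl).2
          · rw [← Finset.sum_filter]
            congr 1
            ext l
            simp
      _ ≤ 931 * m^2 * G + ∑ i ∈ Cs Φ m, y i := by linarith [haS]
  have hgr : ∀ i, gr Φ y i ≤ 21/19 * m * rho Φ y i i + ∑ l ∈ B, (rho Φ y i l)^2 * (y l)^2 := by
    intro i
    have h1 : gr Φ y i = ∑ l, (rho Φ y i l)^2 * (y l)^2 := by
      unfold gr
      exact Finset.sum_congr rfl fun l _ => by ring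
    rw [h1, ← hρ2 i, Finset.mul_sum]
    have h2 : ∑ l ∈ B, (rho Φ y i l)^2 * (y l)^2 =
        ∑ l, (if 21/19 * m < y l then (rho Φ y i l)^2 * (y l)^2 else 0) := by
      rw [hB, Finset.sum_filter]
    rw [h2, ← Finset.sum_add_distrib]
    refine Finset.sum_le_sum fun l _ => ?_
    have hyl := hy l
    split_ifs with h
    · have : 0 ≤ 21/19 * m * (y l * (rho Φ y i l)^2) := by positivity
      linarith
    · push Not at h
      have : (rho Φ y i l)^2 * (y l)^2 ≤ (rho Φ y i l)^2 * (y l * (21/19 * m)) := by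
        apply mul_le_mul_of_nonneg_left _ (sq_nonneg _)
        rw [sq]
        exact mul_le_mul_of_nonneg_left h hyl.le
      linarith
  have hsymm : ∀ i l, rho Φ y i l = rho Φ y l i := by
    intro i l
    exact congrFun (congrFun hρs l) i ▸ rfl
  have hbB : ∑ i, y i * ∑ l ∈ B, (rho Φ y i l)^2 * (y l)^2 ≤ ∑ l ∈ B, y l := by
    calc ∑ i, y i * ∑ l ∈ B, (rho Φ y i l)^2 * (y l)^2
        = ∑ l ∈ B, (y l)^2 * ∑ i, y i * (rho Φ y l i)^2 := by
          simp only [Finset.mul_sum]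
          rw [Finset.sum_comm]
          refine Finset.sum_congr rfl fun l _ => Finset.sum_congr rfl fun i _ => ?_
          rw [hsymm i l]
          ring
      _ = ∑ l ∈ B, y l * (y l * rho Φ y l l) := by
          refine Finset.sum_congr rfl fun l _ => ?_
          rw [hρ2 l]
          ring
      _ ≤ ∑ l ∈ B, y l := by
          refine Finset.sum_le_sum fun l _ => ?_
          exact mul_le_of_le_one_right (hy l).le (hρ1 l).2
  -- (c)
  set s : ι → Fin K → ℝ := fun i k => ((Φ * Q) i k)^2 with hs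
  have hs0 : ∀ i k, 0 ≤ s i k := fun i k => sq_nonneg _
  have hc1 : ∀ i, i ∉ Cs Φ m →
      21/19 * m * rho Φ y i i - 5/4 ≤ 21/19 * m * ∑ k, s i k * max ((e k)⁻¹ - 1077/1000) 0 := by
    intro i hi
    obtain ⟨c1, c2, c3⟩ := LCD.not_cs Φ m hm0 i hi
    have h1 : rho Φ y i i - 1077/1000 * cn Φ i ≤
        ∑ k, s i k * max ((e k)⁻¹ - 1077/1000) 0 := by
      rw [LCD.rho_eq Φ y e Q hE i, ← LCD.sum_P_sq Φ Q hQ i, Finset.mul_sum,
        ← Finset.sum_sub_distrib]
      refine Finset.sum_le_sum fun k _ => ?_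
      calc ((Φ * Q) i k)^2 * (e k)⁻¹ - 1077/1000 * ((Φ * Q) i k)^2
          = s i k * ((e k)⁻¹ - 1077/1000) := by rw [hs]; ring
        _ ≤ s i k * max ((e k)⁻¹ - 1077/1000) 0 :=
            mul_le_mul_of_nonneg_left (le_max_left _ _) (hs0 i k)
    have h2 : 21/19 * m * (rho Φ y i i - 1077/1000 * cn Φ i) ≤
        21/19 * m * ∑ k, s i k * max ((e k)⁻¹ - 1077/1000) 0 :=
      mul_le_mul_of_nonneg_left h1 (by positivity)
    have h3 : 21/19 * m * (1077/1000 * cn Φ i) ≤ 5/4 := by nlinarith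
    linarith
  have hc2 : ∑ i, y i * (21/19 * m * ∑ k, s i k * max ((e k)⁻¹ - 1077/1000) 0)
      ≤ 9 * m^2 * G := by
    calc ∑ i, y i * (21/19 * m * ∑ k, s i k * max ((e k)⁻¹ - 1077/1000) 0)
        = 21/19 * m * ∑ k, (∑ i, y i * s i k) * max ((e k)⁻¹ - 1077/1000) 0 := by
          simp only [Finset.mul_sum, Finset.sum_mul]
          rw [Finset.sum_comm]
          refine Finset.sum_congr rfl fun k _ => Finset.sum_congr rfl fun i _ => ?_
          ring
      _ = 21/19 * m * ∑ k, e k * max ((e k)⁻¹ - 1077/1000) 0 := by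
          congr 1
          refine Finset.sum_congr rfl fun k _ => ?_
          rw [LCD.sum_y_P_sq Φ y e Q hE k]
      _ ≤ 21/19 * m * ∑ k, 8 * hub (e k - 1) := by
          apply mul_le_mul_of_nonneg_left _ (by positivity)
          exact Finset.sum_le_sum fun k _ => LCD.scal1 hHUB (e k) (hE.pos k)
      _ = 168/19 * m * G := by rw [hG, ← Finset.mul_sum]; ring
      _ ≤ 9 * m^2 * G := by
          apply mul_le_mul_of_nonneg_right _ hG0
          nlinarith
  -- assembly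
  have hpt : ∀ i, i ∉ Cs Φ m → y i * max (gr Φ y i - 5/4) 0 ≤
      y i * ∑ l ∈ B, (rho Φ y i l)^2 * (y l)^2 +
      y i * (21/19 * m * ∑ k, s i k * max ((e k)⁻¹ - 1077/1000) 0) := by
    intro i hi
    rw [← mul_add]
    apply mul_le_mul_of_nonneg_left _ (hy i).le
    have h1 := hgr i
    have h2 := hc1 i hi
    have h3 : 0 ≤ ∑ l ∈ B, (rho Φ y i l)^2 * (y l)^2 :=
      Finset.sum_nonneg fun l _ => mul_nonneg (sq_nonneg _) (sq_nonneg _)
    have h4 : 0 ≤ 21/19 * m * ∑ k, s i k * max ((e k)⁻¹ - 1077/1000) 0 := by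
      apply mul_nonneg (by positivity)
      exact Finset.sum_nonneg fun k _ => mul_nonneg (hs0 i k) (le_max_right _ _)
    apply max_le
    · linarith
    · linarith
  have hptn : ∀ i, 0 ≤ y i * ∑ l ∈ B, (rho Φ y i l)^2 * (y l)^2 +
      y i * (21/19 * m * ∑ k, s i k * max ((e k)⁻¹ - 1077/1000) 0) := by
    intro i
    have h3 : 0 ≤ ∑ l ∈ B, (rho Φ y i l)^2 * (y l)^2 :=
      Finset.sum_nonneg fun l _ => mul_nonneg (sq_nonneg _) (sq_nonneg _)
    have h4 : 0 ≤ 21/19 * m * ∑ k, s i k * max ((e k)⁻¹ - 1077/1000) 0 := by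
      apply mul_nonneg (by positivity)
      exact Finset.sum_nonneg fun k _ => mul_nonneg (hs0 i k) (le_max_right _ _)
    have := (hy i).le
    positivity
  have hfin : ∑ i ∈ Finset.univ \ Cs Φ m, y i * max (gr Φ y i - 5/4) 0 ≤
      ∑ l ∈ B, y l + 9 * m^2 * G := by
    calc ∑ i ∈ Finset.univ \ Cs Φ m, y i * max (gr Φ y i - 5/4) 0
        ≤ ∑ i ∈ Finset.univ \ Cs Φ m, (y i * ∑ l ∈ B, (rho Φ y i l)^2 * (y l)^2 +
            y i * (21/19 * m * ∑ k, s i k * max ((e k)⁻¹ - 1077/1000) 0)) :=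
          Finset.sum_le_sum fun i hi => hpt i (Finset.mem_sdiff.mp hi).2
      _ ≤ ∑ i, (y i * ∑ l ∈ B, (rho Φ y i l)^2 * (y l)^2 +
            y i * (21/19 * m * ∑ k, s i k * max ((e k)⁻¹ - 1077/1000) 0)) :=
          Finset.sum_le_sum_of_subset_of_nonneg (Finset.subset_univ _) fun i _ _ => hptn i
      _ = ∑ i, y i * ∑ l ∈ B, (rho Φ y i l)^2 * (y l)^2 +
            ∑ i, y i * (21/19 * m * ∑ k, s i k * max ((e k)⁻¹ - 1077/1000) 0) :=
          Finset.sum_add_distrib
      _ ≤ ∑ l ∈ B, y l + 9 * m^2 * G := add_le_add hbB hc2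
  have hZ : ∑ i ∈ Finset.univ \ Cs Φ m, Zb Φ y i =
      ∑ i ∈ Finset.univ \ Cs Φ m, y i * max (gr Φ y i - 5/4) 0 +
      ∑ i ∈ Finset.univ \ Cs Φ m, (if 21/20 < es Φ y i then y i else 0) := by
    rw [← Finset.sum_add_distrib]
    rfl
  rw [hZ]
  have hmG : 0 ≤ m^2 * G := by positivity
  linarith [hfin, haS, hBsum]

end Pool.LIN
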