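import Pool.Agent.Work.MP_1c7b0d_lin.Interface

/-! Block PA1: the good part of the defect is at most `tr(TM)` plus twice the number of bad
eigenvalues. -/

open MeasureTheory Matrix Pool.LH60 Pool.LH73
open scoped BigOperators

namespace Pool.LIN

section PA1
variable {ι : Type} [Fintype ι] [DecidableEq ι] {K : ℕ}

lemma PA1_orth (Φ : Matrix ι (Fin K) ℝ) (y : ι → ℝ) (e : Fin K → ℝ)
    (hD : Dm Φ y = Matrix.diagonal e) (a b : Fin K) :
    ∑ i, y i * Φ i a * Φ i b = if a = b then e a else 0 := by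
  have h := congrFun (congrFun hD a) b
  rw [Matrix.diagonal_apply] at h
  rw [← h]
  unfold Dm
  rw [Matrix.mul_apply]
  refine Finset.sum_congr rfl fun i _ => ?_
  rw [Matrix.mul_diagonal, Matrix.transpose_apply]
  ring

lemma PA1_bessel (Φ : Matrix ι (Fin K) ℝ) (y : ι → ℝ) (e : Fin K → ℝ) (hy : ∀ i, 0 < y i)
    (he : ∀ k, 0 < e k) (hD : Dm Φ y = Matrix.diagonal e) (a b : Fin K) :
    ∑ k, (Tt Φ y a b k)^2 / e k ≤ ∑ i, y i * (Φ i a)^2 * (Φ i b)^2 := by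
  obtain ⟨t, ht⟩ : ∃ t : Fin K → ℝ, ∀ k, t k = Tt Φ y a b k / e k := ⟨_, fun _ => rfl⟩
  have p : 0 ≤ ∑ i, y i * (Φ i a * Φ i b - ∑ k, t k * Φ i k)^2 :=
    Finset.sum_nonneg fun i _ => mul_nonneg (hy i).le (sq_nonneg _)
  have e1 : ∑ i, y i * (Φ i a * Φ i b - ∑ k, t k * Φ i k)^2 =
      ∑ i, y i * (Φ i a)^2 * (Φ i b)^2 - 2 * ∑ i, y i * Φ i a * Φ i b * (∑ k, t k * Φ i k)
      + ∑ i, y i * (∑ k, t k * Φ i k)^2 := by
    rw [Finset.mul_sum, ← Finset.sum_sub_distrib, ← Finset.sum_add_distrib]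
    refine Finset.sum_congr rfl fun i _ => ?_
    ring
  have e2 : ∑ i, y i * Φ i a * Φ i b * (∑ k, t k * Φ i k) = ∑ k, (Tt Φ y a b k)^2 / e k := by
    simp only [Finset.mul_sum]
    rw [Finset.sum_comm]
    refine Finset.sum_congr rfl fun k _ => ?_
    have : ∀ i, y i * Φ i a * Φ i b * (t k * Φ i k) = t k * (y i * Φ i a * Φ i b * Φ i k) :=
      fun i => by ring
    simp only [this]
    rw [← Finset.mul_sum, ht k]
    change Tt Φ y a b k / e k * Tt Φ y a b k = _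
    ring
  have e3 : ∑ i, y i * (∑ k, t k * Φ i k)^2 = ∑ k, (Tt Φ y a b k)^2 / e k := by
    have h1 : ∀ i, y i * (∑ k, t k * Φ i k)^2 =
        ∑ k, ∑ l, t k * t l * (y i * Φ i k * Φ i l) := by
      intro i
      rw [sq, Finset.sum_mul_sum, Finset.mul_sum]
      refine Finset.sum_congr rfl fun k _ => ?_
      rw [Finset.mul_sum]
      refine Finset.sum_congr rfl fun l _ => ?_
      ring
    simp only [h1]
    rw [Finset.sum_comm]
    refine Finset.sum_congr rfl fun k _ => ?_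
    rw [Finset.sum_comm]
    have h2 : ∀ l, ∑ i, t k * t l * (y i * Φ i k * Φ i l) = if k = l then t k * t l * e k else 0 := by
      intro l
      rw [← Finset.mul_sum, PA1_orth Φ y e hD]
      split_ifs <;> ring
    simp only [h2]
    rw [Finset.sum_ite_eq, if_pos (Finset.mem_univ _), ht k]
    have := (he k).ne'
    field_simp
  rw [e1, e2, e3] at p
  linarith

/-- the fourth moments are bounded by the second -/
lemma PA1_II (Φ : Matrix ι (Fin K) ℝ) (y : ι → ℝ) (e : Fin K → ℝ) (hy : ∀ i, 0 < y i)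
    (he : ∀ k, 0 < e k) (hD : Dm Φ y = Matrix.diagonal e) (hc : ∀ i, cn Φ i ≤ 1) (k : Fin K) :
    ∑ a ∈ Gd e, ∑ b ∈ Gd e, (Tt Φ y a b k)^2 ≤ 2 * e k := by
  have h1 : ∀ a, ∑ b ∈ Gd e, (Tt Φ y a b k)^2 ≤ 2 * ∑ i, y i * (Φ i a)^2 * (Φ i k)^2 := by
    intro a
    calc ∑ b ∈ Gd e, (Tt Φ y a b k)^2 ≤ ∑ b ∈ Gd e, 2 * ((Tt Φ y a k b)^2 / e b) := by
          refine Finset.sum_le_sum fun b hb => ?_
          have hb2 : e b ≤ 2 := (Finset.mem_filter.mp hb).2.2
          have hs : Tt Φ y a k b = Tt Φ y a b k := by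
            unfold Tt
            refine Finset.sum_congr rfl fun i _ => ?_
            ring
          rw [hs, ← mul_div_assoc, le_div_iff₀ (he b)]
          nlinarith [sq_nonneg (Tt Φ y a b k)]
      _ ≤ ∑ b, 2 * ((Tt Φ y a k b)^2 / e b) := by
          refine Finset.sum_le_sum_of_subset_of_nonneg (Finset.subset_univ _) fun b _ _ => ?_
          have := he b
          positivity
      _ = 2 * ∑ b, ((Tt Φ y a k b)^2 / e b) := by rw [Finset.mul_sum]
      _ ≤ _ := by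
          have := PA1_bessel Φ y e hy he hD a k
          linarith
  calc ∑ a ∈ Gd e, ∑ b ∈ Gd e, (Tt Φ y a b k)^2
      ≤ ∑ a, ∑ b ∈ Gd e, (Tt Φ y a b k)^2 :=
        Finset.sum_le_sum_of_subset_of_nonneg (Finset.subset_univ _)
          fun a _ _ => Finset.sum_nonneg fun b _ => sq_nonneg _
    _ ≤ ∑ a, 2 * ∑ i, y i * (Φ i a)^2 * (Φ i k)^2 := Finset.sum_le_sum fun a _ => h1 a
    _ = 2 * ∑ i, y i * cn Φ i * (Φ i k)^2 := by
        rw [← Finset.mul_sum, Finset.sum_comm]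
        congr 1
        refine Finset.sum_congr rfl fun i _ => ?_
        unfold cn
        rw [Finset.mul_sum, Finset.sum_mul]
    _ ≤ 2 * ∑ i, y i * Φ i k * Φ i k := by
        refine mul_le_mul_of_nonneg_left (Finset.sum_le_sum fun i _ => ?_) (by norm_num)
        have h2 : 0 ≤ y i * (Φ i k)^2 := mul_nonneg (hy i).le (sq_nonneg _)
        nlinarith [hc i]
    _ = 2 * e k := by rw [PA1_orth Φ y e hD, if_pos rfl]

/-- `D_y⁻¹` in the diagonal case -/
lemma PA1_rho (Φ : Matrix ι (Fin K) ℝ) (y : ι → ℝ) (e : Fin K → ℝ)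
    (he : ∀ k, 0 < e k) (hD : Dm Φ y = Matrix.diagonal e) (i l : ι) :
    rho Φ y i l = ∑ k, Φ i k * Φ l k / e k := by
  have h : (Matrix.diagonal e)⁻¹ = Matrix.diagonal (fun k => (e k)⁻¹) := by
    refine Matrix.inv_eq_right_inv ?_
    rw [Matrix.diagonal_mul_diagonal, ← Matrix.diagonal_one]
    congr 1
    ext k
    exact mul_inv_cancel₀ (he k).ne'
  unfold rho
  rw [hD, h, Matrix.mul_apply]
  refine Finset.sum_congr rfl fun k _ => ?_
  rw [Matrix.mul_diagonal, Matrix.transpose_apply]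
  ring

lemma PA1_DT (Φ : Matrix ι (Fin K) ℝ) (y : ι → ℝ) (e : Fin K → ℝ)
    (he : ∀ k, 0 < e k) (hD : Dm Φ y = Matrix.diagonal e) :
    DT Φ y = ∑ a, ∑ b, (∑ i, y i * (Φ i a)^2 * (Φ i b)^2 - ∑ k, (Tt Φ y a b k)^2 / e k) := by
  have h1 : ∀ i, TMd Φ y i = y i * (pp Φ i i)^2 - ∑ l, y i * rho Φ y i l * y l * (pp Φ i l)^2 := by
    intro i
    have : ∀ l, Tm Φ y i l * (pp Φ i l)^2 =
        (if i = l then y i * (pp Φ i l)^2 else 0) - y i * rho Φ y i l * y l * (pp Φ i l)^2 := by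
      intro l
      simp only [Tm, Matrix.of_apply]
      split_ifs <;> ring
    unfold TMd
    simp only [this]
    rw [Finset.sum_sub_distrib, Finset.sum_ite_eq, if_pos (Finset.mem_univ _)]
  have h2 : ∑ i, y i * (pp Φ i i)^2 = ∑ a, ∑ b, ∑ i, y i * (Φ i a)^2 * (Φ i b)^2 := by
    have : ∀ i, y i * (pp Φ i i)^2 = ∑ a, ∑ b, y i * (Φ i a)^2 * (Φ i b)^2 := by
      intro i
      unfold pp
      rw [sq, Finset.sum_mul_sum, Finset.mul_sum]
      refine Finset.sum_congr rfl fun a _ => ?_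
      rw [Finset.mul_sum]
      refine Finset.sum_congr rfl fun b _ => ?_
      ring
    simp only [this]
    rw [Finset.sum_comm]
    refine Finset.sum_congr rfl fun a _ => ?_
    rw [Finset.sum_comm]
  have h3 : ∑ i, ∑ l, y i * rho Φ y i l * y l * (pp Φ i l)^2 =
      ∑ a, ∑ b, ∑ k, (Tt Φ y a b k)^2 / e k := by
    have h4 : ∀ i l, y i * rho Φ y i l * y l * (pp Φ i l)^2 =
        ∑ a, ∑ b, ∑ k, (y i * Φ i a * Φ i b * Φ i k) * (y l * Φ l a * Φ l b * Φ l k) / e k := by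
      intro i l
      rw [PA1_rho Φ y e he hD]
      have h5 : (pp Φ i l)^2 = ∑ a, ∑ b, (Φ i a * Φ l a) * (Φ i b * Φ l b) := by
        unfold pp
        rw [sq, Finset.sum_mul_sum]
      rw [h5, Finset.mul_sum]
      refine Finset.sum_congr rfl fun a _ => ?_
      rw [Finset.mul_sum]
      refine Finset.sum_congr rfl fun b _ => ?_
      rw [Finset.mul_sum, Finset.sum_mul, Finset.sum_mul]
      refine Finset.sum_congr rfl fun k _ => ?_
      ring
    have h6 : ∀ a b k, (Tt Φ y a b k)^2 / e k = ∑ i, ∑ l,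
        (y i * Φ i a * Φ i b * Φ i k) * (y l * Φ l a * Φ l b * Φ l k) / e k := by
      intro a b k
      unfold Tt
      rw [sq, Finset.sum_mul_sum, Finset.sum_div]
      refine Finset.sum_congr rfl fun i _ => ?_
      rw [Finset.sum_div]
    simp only [h4, h6]
    calc ∑ i, ∑ l, ∑ a, ∑ b, ∑ k,
          (y i * Φ i a * Φ i b * Φ i k) * (y l * Φ l a * Φ l b * Φ l k) / e k
        = ∑ i, ∑ a, ∑ l, ∑ b, ∑ k,
          (y i * Φ i a * Φ i b * Φ i k) * (y l * Φ l a * Φ l b * Φ l k) / e k := by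
          refine Finset.sum_congr rfl fun i _ => ?_
          rw [Finset.sum_comm]
      _ = ∑ a, ∑ i, ∑ l, ∑ b, ∑ k,
          (y i * Φ i a * Φ i b * Φ i k) * (y l * Φ l a * Φ l b * Φ l k) / e k := by
          rw [Finset.sum_comm]
      _ = ∑ a, ∑ i, ∑ b, ∑ l, ∑ k,
          (y i * Φ i a * Φ i b * Φ i k) * (y l * Φ l a * Φ l b * Φ l k) / e k := by
          refine Finset.sum_congr rfl fun a _ => Finset.sum_congr rfl fun i _ => ?_
          rw [Finset.sum_comm]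
      _ = ∑ a, ∑ b, ∑ i, ∑ l, ∑ k,
          (y i * Φ i a * Φ i b * Φ i k) * (y l * Φ l a * Φ l b * Φ l k) / e k := by
          refine Finset.sum_congr rfl fun a _ => ?_
          rw [Finset.sum_comm]
      _ = ∑ a, ∑ b, ∑ i, ∑ k, ∑ l,
          (y i * Φ i a * Φ i b * Φ i k) * (y l * Φ l a * Φ l b * Φ l k) / e k := by
          refine Finset.sum_congr rfl fun a _ => Finset.sum_congr rfl fun b _ =>
            Finset.sum_congr rfl fun i _ => ?_
          rw [Finset.sum_comm]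
      _ = _ := by
          refine Finset.sum_congr rfl fun a _ => Finset.sum_congr rfl fun b _ => ?_
          rw [Finset.sum_comm]
  unfold DT
  simp only [h1]
  rw [Finset.sum_sub_distrib, h2, h3, ← Finset.sum_sub_distrib]
  refine Finset.sum_congr rfl fun a _ => ?_
  rw [← Finset.sum_sub_distrib]

end PA1

theorem PA1_thm (hDEF1 : Stmt_DEF1) : Stmt_PA1 := by
  intro ι _ _ K Φ y e hΦ hy he hD
  have hc : ∀ i, cn Φ i ≤ 1 := fun i => ((hDEF1 ι K Φ hΦ).2.2.1 i).2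
  have hII := PA1_II Φ y e hy he hD hc
  refine ⟨?_, hII⟩
  obtain ⟨B, hB⟩ : ∃ B : Fin K → Fin K → ℝ, ∀ a b, B a b =
      ∑ i, y i * (Φ i a)^2 * (Φ i b)^2 - ∑ k, (Tt Φ y a b k)^2 / e k := ⟨_, fun _ _ => rfl⟩
  have hB0 : ∀ a b, 0 ≤ B a b := by
    intro a b
    have := PA1_bessel Φ y e hy he hD a b
    rw [hB]
    linarith
  have h1 : ∑ a ∈ Gd e, ∑ b ∈ Gd e, B a b ≤ DT Φ y := by
    rw [PA1_DT Φ y e he hD]
    simp only [← hB]
    calc ∑ a ∈ Gd e, ∑ b ∈ Gd e, B a b ≤ ∑ a, ∑ b ∈ Gd e, B a b :=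
          Finset.sum_le_sum_of_subset_of_nonneg (Finset.subset_univ _)
            fun a _ _ => Finset.sum_nonneg fun b _ => hB0 a b
      _ ≤ ∑ a, ∑ b, B a b := Finset.sum_le_sum fun a _ =>
          Finset.sum_le_sum_of_subset_of_nonneg (Finset.subset_univ _) fun b _ _ => hB0 a b
  have h2 : Dg Φ y e = ∑ a ∈ Gd e, ∑ b ∈ Gd e, B a b +
      ∑ k ∈ Finset.univ.filter (fun k => ¬ (1/2 ≤ e k ∧ e k ≤ 2)),
        ∑ a ∈ Gd e, ∑ b ∈ Gd e, (Tt Φ y a b k)^2 / e k := by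
    have h3 : ∀ a b, ∑ i, y i * (Φ i a)^2 * (Φ i b)^2 - ∑ k ∈ Gd e, (Tt Φ y a b k)^2 / e k =
        B a b + ∑ k ∈ Finset.univ.filter (fun k => ¬ (1/2 ≤ e k ∧ e k ≤ 2)),
          (Tt Φ y a b k)^2 / e k := by
      intro a b
      have h4 := Finset.sum_filter_add_sum_filter_not (Finset.univ : Finset (Fin K))
        (fun k => 1/2 ≤ e k ∧ e k ≤ 2) (fun k => (Tt Φ y a b k)^2 / e k)
      rw [hB, ← h4]
      unfold Gd
      ring
    unfold Dg
    simp only [h3, Finset.sum_add_distrib]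
    congr 1
    calc ∑ a ∈ Gd e, ∑ b ∈ Gd e, ∑ k ∈ Finset.univ.filter (fun k => ¬ (1/2 ≤ e k ∧ e k ≤ 2)),
          (Tt Φ y a b k)^2 / e k
        = ∑ a ∈ Gd e, ∑ k ∈ Finset.univ.filter (fun k => ¬ (1/2 ≤ e k ∧ e k ≤ 2)),
          ∑ b ∈ Gd e, (Tt Φ y a b k)^2 / e k :=
          Finset.sum_congr rfl fun a _ => Finset.sum_comm
      _ = _ := Finset.sum_comm
  have h5 : ∑ k ∈ Finset.univ.filter (fun k => ¬ (1/2 ≤ e k ∧ e k ≤ 2)),
      ∑ a ∈ Gd e, ∑ b ∈ Gd e, (Tt Φ y a b k)^2 / e k ≤ 2 * (Bd e : ℝ) := by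
    calc ∑ k ∈ Finset.univ.filter (fun k => ¬ (1/2 ≤ e k ∧ e k ≤ 2)),
          ∑ a ∈ Gd e, ∑ b ∈ Gd e, (Tt Φ y a b k)^2 / e k
        ≤ ∑ k ∈ Finset.univ.filter (fun k => ¬ (1/2 ≤ e k ∧ e k ≤ 2)), (2:ℝ) := by
          refine Finset.sum_le_sum fun k _ => ?_
          have h6 : ∑ a ∈ Gd e, ∑ b ∈ Gd e, (Tt Φ y a b k)^2 / e k =
              (∑ a ∈ Gd e, ∑ b ∈ Gd e, (Tt Φ y a b k)^2) / e k := by
            rw [Finset.sum_div]
            refine Finset.sum_congr rfl fun a _ => ?_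
            rw [Finset.sum_div]
          rw [h6, div_le_iff₀ (he k)]
          exact hII k
      _ = 2 * (Bd e : ℝ) := by
          rw [Finset.sum_const, nsmul_eq_mul]
          unfold Bd
          ring
  rw [h2]
  linarith

end Pool.LIN
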