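import Pool.Agent.Work.MP_1c7b0d_lin.Interface

/-! Block POI: Poincare inequality for products of exponential variables. helper23 -/

open MeasureTheory Matrix Pool.LH60 Pool.LH73
open scoped BigOperators

namespace Pool.LIN

theorem POI_thm (hPOI1 : Stmt_POI1) (hEFS : Stmt_EFS) (hRES : Stmt_RES) (hPRB : Stmt_PRB) :
    Stmt_POI := by
  intro ι _ _ f f' hf hf' ⟨C, hC⟩ hder
  have hup : ∀ l : ι, Measurable (fun p : (ι → ℝ) × ℝ => Function.update p.1 l p.2) :=
    fun l => measurable_update'
  have hup1 : ∀ (l : ι) (t : ℝ), Measurable (fun w : ι → ℝ => Function.update w l t) :=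
    fun l t => (hup l).comp (measurable_id.prodMk measurable_const)
  have hup2 : ∀ (l : ι) (w : ι → ℝ), Measurable (fun t : ℝ => Function.update w l t) :=
    fun l w => (hup l).comp (measurable_const.prodMk measurable_id)
  have hE := hEFS ι f (fun l w => f (Function.update w l (1/2))) hf
    (fun l => hf.comp (hup1 l _))
    ⟨C, fun w => ⟨(hC w).1, fun l => (hC _).1⟩⟩
    (fun l w t => by simp)
  refine hE.trans ?_
  rw [Finset.mul_sum]
  refine Finset.sum_le_sum fun l _ => ?_
  have hC0 : 0 ≤ C := (abs_nonneg _).trans (hC 0).1
  -- the two functions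
  have hG1 : Measurable (fun w : ι → ℝ => (f w - f (Function.update w l (1/2)))^2) :=
    (hf.sub (hf.comp (hup1 l _))).pow_const 2
  have hG2 : Measurable (fun w : ι → ℝ => (w l * f' l w)^2) :=
    ((measurable_pi_apply l).mul (hf' l)).pow_const 2
  have hb1 : ∀ w : ι → ℝ, ‖(f w - f (Function.update w l (1/2)))^2‖ ≤ (2*C)^2 := by
    intro w
    rw [Real.norm_eq_abs, abs_of_nonneg (sq_nonneg _)]
    have h1 := abs_le.mp (hC w).1
    have h2 := abs_le.mp (hC (Function.update w l (1/2))).1
    apply sq_le_sq'
    · linarith [h1.1, h2.2]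
    · linarith [h1.2, h2.1]
  have hb2 : ∀ w : ι → ℝ, ‖(w l * f' l w)^2‖ ≤ C^2 := by
    intro w
    rw [Real.norm_eq_abs, abs_of_nonneg (sq_nonneg _), ← sq_abs]
    exact pow_le_pow_left₀ (abs_nonneg _) ((hC w).2 l) 2
  have hI1 : Integrable (fun w : ι → ℝ => (f w - f (Function.update w l (1/2)))^2) (Pw ι) :=
    Integrable.of_bound hG1.aestronglyMeasurable _ (Filter.Eventually.of_forall hb1)
  have hI2 : Integrable (fun w : ι → ℝ => (w l * f' l w)^2) (Pw ι) :=
    Integrable.of_bound hG2.aestronglyMeasurable _ (Filter.Eventually.of_forall hb2)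
  have e1' := (hRES ι l).2.1 _ hG1 hI1
  have e2' := (hRES ι l).2.1 _ hG2 hI2
  -- pointwise inequality
  have hpt : ∀ w ∈ Orth ι,
      ∫ t, (f (Function.update w l t)
          - f (Function.update (Function.update w l t) l (1/2)))^2 ∂e1
        ≤ 4 * ∫ t, ((Function.update w l t) l * f' l (Function.update w l t))^2 ∂e1 := by
    intro w hw
    have h := hPOI1 (fun t => f (Function.update w l t)) (fun t => f' l (Function.update w l t))
      (hf.comp (hup2 l w)) ((hf' l).comp (hup2 l w))
      ⟨C, fun x _ => ⟨(hC _).1, by
        have := (hC (Function.update w l x)).2 l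
        simpa using this⟩⟩
      (fun x hx => by
        have hmem : Function.update w l x ∈ Orth ι := by
          intro j
          by_cases hj : j = l
          · subst hj; simpa using hx
          · simpa [Function.update_of_ne hj] using hw j
        have := hder _ hmem l
        simpa using this)
    simpa using h
  have hs1 : Integrable (fun w : ι → ℝ => ∫ t, (f (Function.update w l t)
      - f (Function.update (Function.update w l t) l (1/2)))^2 ∂e1) (Pw ι) := by
    have hm : Measurable (fun p : (ι → ℝ) × ℝ => (f (Function.update p.1 l p.2)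
        - f (Function.update (Function.update p.1 l p.2) l (1/2)))^2) := hG1.comp (hup l)
    refine Integrable.of_bound (hm.stronglyMeasurable.integral_prod_right').aestronglyMeasurable
      ((2*C)^2) (Filter.Eventually.of_forall fun w => ?_)
    have := norm_integral_le_of_norm_le_const (μ := e1) (C := (2*C)^2)
      (Filter.Eventually.of_forall fun t : ℝ => hb1 (Function.update w l t))
    simpa using this
  have hs2 : Integrable (fun w : ι → ℝ =>
      ∫ t, ((Function.update w l t) l * f' l (Function.update w l t))^2 ∂e1) (Pw ι) := by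
    have hm : Measurable (fun p : (ι → ℝ) × ℝ =>
      ((Function.update p.1 l p.2) l * f' l (Function.update p.1 l p.2))^2) := hG2.comp (hup l)
    refine Integrable.of_bound (hm.stronglyMeasurable.integral_prod_right').aestronglyMeasurable
      (C^2) (Filter.Eventually.of_forall fun w => ?_)
    have := norm_integral_le_of_norm_le_const (μ := e1) (C := C^2)
      (Filter.Eventually.of_forall fun t : ℝ => hb2 (Function.update w l t))
    simpa using this
  rw [e1', e2', ← integral_const_mul]
  refine integral_mono_ae hs1 (hs2.const_mul 4) ?_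
  filter_upwards [hPRB.2.1 ι] with w hw
  exact hpt w hw

end Pool.LIN
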