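import Pool.Agent.Work.MP_1c7b0d_lin.Interface

/-! Block PTW (helper29): pointwise bound of the integrand. Pattern of lh60/MAIN1.lean. -/

open MeasureTheory Matrix Pool.LH60 Pool.LH73
open scoped BigOperators

namespace Pool.LIN

lemma ptw_perp {d K : ℕ} (V : Matrix (Ix d K) (Fin d) ℝ) (Φ : Matrix (Ix d K) (Fin K) ℝ)
    (hF : IsoFrame V Φ) (x : Fin d → ℝ) (f : Fin K → ℝ) :
    ∑ i, (yv V x i - 1) * ∑ a, Φ i a * f a = 0 := by
  have h : Φᵀ * V = 0 := hF.2.2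
  have h1 : ∀ i, (yv V x i - 1) * ∑ a, Φ i a * f a
      = - ∑ a, ∑ c, (Φᵀ a i * V i c) * (f a * x c) := by
    intro i
    have e1 : yv V x i - 1 = - ∑ c, V i c * x c := by unfold yv; ring
    rw [e1, Finset.sum_comm, neg_mul, Finset.sum_mul_sum]
    congr 1
    refine Finset.sum_congr rfl fun c _ => Finset.sum_congr rfl fun a _ => ?_
    simp only [Matrix.transpose_apply]; ring
  simp_rw [h1]
  rw [Finset.sum_neg_distrib, Finset.sum_comm]
  have h2 : ∀ a, ∑ i, ∑ c, (Φᵀ a i * V i c) * (f a * x c) = 0 := by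
    intro a
    rw [Finset.sum_comm]
    refine Finset.sum_eq_zero fun c _ => ?_
    rw [← Finset.sum_mul]
    have := congrFun (congrFun h a) c
    rw [Matrix.mul_apply] at this
    rw [this]; simp
  rw [Finset.sum_eq_zero (fun a _ => h2 a), neg_zero]

lemma ptw_expo {d K : ℕ} (V : Matrix (Ix d K) (Fin d) ℝ) (Φ : Matrix (Ix d K) (Fin K) ℝ)
    (hF : IsoFrame V Φ) (b : Ix d K → ℝ) (x : Fin d → ℝ) (f : Fin K → ℝ) :
    ∑ i, (sl Φ b f i - yv V x i * Real.exp (sl Φ b f i))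
      = - ∑ i, b i * (yv V x i - 1)
        + ∑ i, yv V x i * (sl Φ b f i - Real.exp (sl Φ b f i)) := by
  have h1 := ptw_perp V Φ hF x f
  have h2 : ∑ i, (yv V x i - 1) * sl Φ b f i = ∑ i, b i * (yv V x i - 1) := by
    have : ∀ i, (yv V x i - 1) * sl Φ b f i
        = b i * (yv V x i - 1) + (yv V x i - 1) * ∑ a, Φ i a * f a := by
      intro i; unfold sl; ring
    simp_rw [this]
    rw [Finset.sum_add_distrib, h1, add_zero]
  rw [← h2, ← Finset.sum_neg_distrib, ← Finset.sum_add_distrib]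
  refine Finset.sum_congr rfl fun i _ => ?_
  ring

theorem PTW_thm (hSPECH : Stmt_SPECH) (hBLG : Stmt_BLG) (hEIGX : Stmt_EIGX) (hPDG : Stmt_PDG)
    (hGGE : Stmt_GGE) : Stmt_PTW := by
  intro d K V Φ b α A hF hA0 hA x hx
  have hy : ∀ i, 0 < yv V x i := hx
  have hD : (Dm Φ (yv V x)).PosDef := hPDG (Ix d K) K Φ _ hF.2.1 hy
  have hD0 : 0 < (Dm Φ (yv V x)).det := hD.det_pos
  obtain ⟨e, Q, hE⟩ := hEIGX K _ hD
  have hG := hGGE K _ e Q hE
  have hS := hSPECH (Ix d K) K Φ (yv V x) A α e Q hy hE hA0 hA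
  have hB := hBLG (Ix d K) K Φ (yv V x) b hy hD
  have hV1 : Real.sqrt (Vᵀ * V).det = 1 := by
    rw [hF.1]; simp
  unfold Ing
  rw [hV1, one_mul]
  simp_rw [ptw_expo V Φ hF b x, Real.exp_add]
  have e1 : ∀ f : Fin K → ℝ, ENNReal.ofReal (Real.exp (-∑ i, b i * (yv V x i - 1)) *
      Real.exp (∑ i, yv V x i * (sl Φ b f i - Real.exp (sl Φ b f i))))
      = ENNReal.ofReal (Real.exp (-∑ i, b i * (yv V x i - 1))) *
        ENNReal.ofReal (Real.exp (∑ i, yv V x i * (sl Φ b f i - Real.exp (sl Φ b f i)))) := by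
    intro f; rw [ENNReal.ofReal_mul (Real.exp_pos _).le]
  simp_rw [e1]
  rw [lintegral_const_mul' _ _ ENNReal.ofReal_ne_top, ← mul_assoc,
    ← ENNReal.ofReal_mul hD0.le]
  refine (mul_le_mul_right hB _).trans ?_
  rw [← ENNReal.ofReal_mul (by positivity)]
  refine ENNReal.ofReal_le_ofReal ?_
  have e2 : (Dm Φ (yv V x)).det = Real.exp (Real.log (Dm Φ (yv V x)).det) := by
    rw [Real.exp_log hD0]
  have e2' : (Dm Φ (yv V x)).det * Real.exp (-∑ i, b i * (yv V x i - 1))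
      = Real.exp (Real.log (Dm Φ (yv V x)).det - ∑ i, b i * (yv V x i - 1)) := by
    rw [sub_eq_add_neg, Real.exp_add, Real.exp_log hD0]
  rw [e2', ← Real.exp_add]
  refine Real.exp_le_exp.mpr ?_
  have e3 : ∑ i, yv V x i * (-1 + g (qf Φ (Dm Φ (yv V x))⁻¹ i))
      = - ∑ i, yv V x i + ∑ i, yv V x i * g (qf Φ (Dm Φ (yv V x))⁻¹ i) := by
    rw [← Finset.sum_neg_distrib, ← Finset.sum_add_distrib]
    refine Finset.sum_congr rfl fun i _ => ?_
    ring
  have e4 : ∑ i, α i * (yv V x i * rho Φ (yv V x) i i)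
      = ∑ i, α i * (yv V x i * qf Φ (Dm Φ (yv V x))⁻¹ i) := rfl
  unfold Cx
  rw [e3, hG, e4]
  linarith

end Pool.LIN
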