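import Pool.Agent.Work.MP_1c7b0d_lin.Interface

/-! L'huilier's problem, linear range, block TRS (helper50): layer cake for `hm`. -/

open MeasureTheory Matrix Pool.LH60 Pool.LH73
open scoped BigOperators

namespace Pool.LIN

theorem TRS_hm (e : ℝ) (he : 0 < e) :
    ∫ c in Set.Ioc (0:ℝ) 1, Set.indicator (Set.Ioi e) (fun c => 1 - c) c = hm e := by
  rw [setIntegral_indicator measurableSet_Ioi]
  have h1 : Set.Ioc (0:ℝ) 1 ∩ Set.Ioi e = Set.Ioc e 1 := by
    ext x
    simp only [Set.mem_inter_iff, Set.mem_Ioc, Set.mem_Ioi]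
    constructor
    · rintro ⟨⟨h1, h2⟩, h3⟩; exact ⟨h3, h2⟩
    · rintro ⟨h1, h2⟩; exact ⟨⟨he.trans h1, h2⟩, h1⟩
  rw [h1, hm]
  rcases le_total e 1 with h | h
  · rw [← intervalIntegral.integral_of_le h, max_eq_left (by linarith)]
    rw [intervalIntegral.integral_sub (by simp) (by simp)]
    simp
    ring
  · rw [Set.Ioc_eq_empty (by linarith), max_eq_right (by linarith)]
    simp

theorem TRS_int (e : ℝ) :
    IntegrableOn (Set.indicator (Set.Ioi e) (fun c : ℝ => 1 - c)) (Set.Ioc 0 1) :=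
  Integrable.indicator ((by fun_prop : Continuous fun c : ℝ => 1 - c).integrableOn_Ioc)
    measurableSet_Ioi

theorem TRS_sum {K : ℕ} (e : Fin K → ℝ) (he : ∀ k, 0 < e k) :
    ∑ k, hm (e k) = ∫ c in Set.Ioc (0:ℝ) 1,
      ∑ k, Set.indicator (Set.Ioi (e k)) (fun c => 1 - c) c := by
  rw [integral_finsetSum _ (fun k _ => TRS_int (e k))]
  exact Finset.sum_congr rfl fun k _ => (TRS_hm _ (he k)).symm

theorem TRS_card {K : ℕ} (e : Fin K → ℝ) (c : ℝ) :
    ∑ k, Set.indicator (Set.Ioi (e k)) (fun c => 1 - c) c =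
      ((Finset.univ.filter (fun k => e k < c)).card : ℝ) * (1 - c) := by
  rw [Finset.card_filter, Nat.cast_sum, Finset.sum_mul]
  refine Finset.sum_congr rfl fun k _ => ?_
  by_cases h : e k < c
  · rw [Set.indicator_of_mem (show c ∈ Set.Ioi (e k) from h)]; simp [h]
  · rw [Set.indicator_of_notMem (show c ∉ Set.Ioi (e k) from h)]; simp [h]

theorem TRS_thm : Stmt_TRS := by
  intro K s e e' he he' h
  have h1 : ∫ c in Set.Ioc (0:ℝ) 1, (s:ℝ) * (1 - c) = s / 2 := by
    rw [← intervalIntegral.integral_of_le zero_le_one, intervalIntegral.integral_const_mul,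
      intervalIntegral.integral_sub (by simp) (by simp)]
    simp
    ring
  have hi : IntegrableOn (fun c : ℝ => (s:ℝ) * (1 - c)) (Set.Ioc 0 1) :=
    (by fun_prop : Continuous fun c : ℝ => (s:ℝ) * (1 - c)).integrableOn_Ioc
  have hi' : ∀ e : Fin K → ℝ, IntegrableOn (fun c : ℝ =>
      ∑ k, Set.indicator (Set.Ioi (e k)) (fun c => 1 - c) c) (Set.Ioc 0 1) := fun e =>
    integrable_finsetSum _ (fun k _ => TRS_int (e k))
  rw [TRS_sum e he, TRS_sum e' he', ← h1, ← integral_add (hi' e') hi]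
  refine setIntegral_mono_on (hi' e) ((hi' e').add hi) measurableSet_Ioc fun c hc => ?_
  rw [TRS_card, TRS_card, ← add_mul]
  exact mul_le_mul_of_nonneg_right (by exact_mod_cast h c) (by linarith [hc.2])

end Pool.LIN
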