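import Pool.Agent.Work.MP_1c7b0d_lin.Interface

/-! Block UPE: a good value of one coordinate in `[1,2]`. helper23 -/

open MeasureTheory Matrix Pool.LH60 Pool.LH73
open scoped BigOperators

namespace Pool.LIN

theorem UPE_e1_Icc : ENNReal.ofReal (1/5) ≤ e1 (Set.Icc 1 2) := by
  have hsub : Set.Icc (1:ℝ) 2 ⊆ Set.Ioi 0 := fun x hx => lt_of_lt_of_le one_pos hx.1
  unfold e1
  rw [withDensity_apply _ measurableSet_Icc, Measure.restrict_restrict measurableSet_Icc,
    Set.inter_eq_self_of_subset_left hsub]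
  have hint : IntegrableOn (fun x : ℝ => Real.exp (-x)) (Set.Icc 1 2) :=
    (by fun_prop : Continuous (fun x : ℝ => Real.exp (-x))).continuousOn.integrableOn_Icc
  rw [← ofReal_integral_eq_lintegral_ofReal hint
    (Filter.Eventually.of_forall fun x => (Real.exp_pos _).le)]
  apply ENNReal.ofReal_le_ofReal
  rw [integral_Icc_eq_integral_Ioc, ← intervalIntegral.integral_of_le (by norm_num)]
  have h1 : ∫ x in (1:ℝ)..2, Real.exp (-x) = Real.exp (-1) - Real.exp (-2) := by
    rw [intervalIntegral.integral_comp_neg (fun x => Real.exp x), integral_exp]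
  rw [h1]
  have h2 : Real.exp (-2) = Real.exp (-1) * Real.exp (-1) := by
    rw [← Real.exp_add]; norm_num
  have h3 := Real.exp_neg_one_gt_d9
  have h4 := Real.exp_neg_one_lt_d9
  rw [h2]
  nlinarith

theorem UPE_thm (hRES : Stmt_RES) : Stmt_UPE := by
  intro ι _ _ i H hH
  have hup : Measurable (fun p : (ι → ℝ) × ℝ => Function.update p.1 i p.2) :=
    measurable_update'
  have hHm : Measurable (Function.uncurry fun (w : ι → ℝ) (t : ℝ) => H (Function.update w i t)) :=
    hH.comp hup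
  have hswap : ∫⁻ w, H w ∂Pw ι
      = ∫⁻ t, (∫⁻ w, H (Function.update w i t) ∂Pw ι) ∂e1 := by
    rw [(hRES ι i).1 H hH]
    exact lintegral_lintegral_swap hHm.aemeasurable
  have hg : Measurable (fun t : ℝ => ∫⁻ w, H (Function.update w i t) ∂Pw ι) :=
    hHm.lintegral_prod_left'
  have h5 := UPE_e1_Icc
  have hpos : e1 (Set.Icc (1:ℝ) 2) ≠ 0 := by
    intro h0
    rw [h0] at h5
    have : ENNReal.ofReal (1/5) = 0 := le_antisymm h5 bot_le
    rw [ENNReal.ofReal_eq_zero] at this
    norm_num at this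
  have hfin : e1 (Set.Icc (1:ℝ) 2) ≠ ⊤ := measure_ne_top _ _
  obtain ⟨ω, hω, hle⟩ := exists_le_setLAverage hpos hfin hg.aemeasurable
  refine ⟨ω, hω.1, hω.2, hle.trans ?_⟩
  rw [setLAverage_eq, hswap]
  have h15 : (e1 (Set.Icc (1:ℝ) 2))⁻¹ ≤ 5 := by
    have h := ENNReal.inv_le_inv.mpr h5
    refine h.trans ?_
    rw [ENNReal.ofReal_div_of_pos (by norm_num)]
    simp
  rw [ENNReal.div_eq_inv_mul]
  exact mul_le_mul' h15 (setLIntegral_le_lintegral _ _)

end Pool.LIN
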